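import Pool.Agent.H913.SG.Stmts2

open MeasureTheory Matrix NormedSpace
open scoped SchwartzMap ContDiff FourierTransform Matrix

universe u v

namespace Pool.Agent.H913.SG

theorem bCalc1_supp {d : ℕ} {Ch : Chart d} {f : EE d → ℝ} (hf : IsTest Ch f) {y : EE d}
    (hy : f y ≠ 0) : ‖y‖ ≤ Ch.r := by
  have h1 : y ∈ tsupport f := subset_tsupport f hy
  have h2 := hf.supp h1
  rw [Metric.mem_ball, dist_zero_right] at h2
  exact h2.le

theorem bCalc1_compact {d : ℕ} {Ch : Chart d} {f : EE d → ℝ} (hf : IsTest Ch f) :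
    HasCompactSupport f := by
  refine HasCompactSupport.of_support_subset_isCompact (isCompact_closedBall (0 : EE d) Ch.r) ?_
  intro y hy
  rw [Metric.mem_closedBall, dist_zero_right]
  exact bCalc1_supp hf hy

theorem bCalc1_bdd {d : ℕ} {Ch : Chart d} {f : EE d → ℝ} (hf : IsTest Ch f) :
    ∃ B : ℝ, 0 ≤ B ∧ ∀ y, |f y| ≤ B := by
  obtain ⟨B, hB⟩ := (bCalc1_compact hf).exists_bound_of_continuous hf.smooth.continuous
  exact ⟨B, (norm_nonneg _).trans (hB 0), fun y => by simpa using hB y⟩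

/-- the integrand is dominated -/
theorem bCalc1_norm_le {d : ℕ} {Ch : Chart d} {V : Type u} [AddCommGroup V] [Module ℂ V]
    {E : Type v} [NormedAddCommGroup E] [NormedSpace ℂ E]
    (L : LocalRep Ch V E) (f : EE d → ℝ) (hf : IsTest Ch f) (a : ℂ) (y : EE d) (v : V) :
    ‖((f y : ℂ) * a) • L.orb v y‖ ≤ L.Cw * (|f y| * ‖a‖) * ‖L.orb v 0‖ := by
  rw [norm_smul, norm_mul, Complex.norm_real, Real.norm_eq_abs]
  by_cases hy : f y = 0
  · rw [hy]; simp
  · have h1 := L.bound v y (bCalc1_supp hf hy)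
    calc |f y| * ‖a‖ * ‖L.orb v y‖ ≤ |f y| * ‖a‖ * (L.Cw * ‖L.orb v 0‖) :=
          mul_le_mul_of_nonneg_left h1 (by positivity)
      _ = _ := by ring

theorem bCalc1_integrable {d : ℕ} {Ch : Chart d} {V : Type u} [AddCommGroup V] [Module ℂ V]
    {E : Type v} [NormedAddCommGroup E] [NormedSpace ℂ E]
    (L : LocalRep Ch V E) (f : EE d → ℝ) (hf : IsTest Ch f) (A : 𝓢(EE d, ℂ)) (h : ℝ) (v : V) :
    Integrable (fun x => ((f (h • x) : ℂ) * A x) • L.orb v (h • x)) := by
  obtain ⟨B, hB0, hB⟩ := bCalc1_bdd hf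
  have hi : Integrable (fun x => L.Cw * (B * ‖A x‖) * ‖L.orb v 0‖) :=
    ((A.integrable.norm.const_mul B).const_mul L.Cw).mul_const _
  refine hi.mono' ?_ (Filter.Eventually.of_forall fun x => ?_)
  · refine Continuous.aestronglyMeasurable ?_
    have h1 : Continuous fun x : EE d => h • x := continuous_const_smul h
    exact ((Complex.continuous_ofReal.comp (hf.smooth.continuous.comp h1)).mul
      A.continuous).smul ((L.cont v).comp h1)
  · refine (bCalc1_norm_le L f hf (A x) (h • x) v).trans ?_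
    have := hB (h • x)
    have h0 := L.Cw_nonneg
    gcongr

/-- TARGET 1 -/
theorem I_norm : S_I_norm.{u,v} := by
  intro d Ch V _ _ E _ _ _ L f hf A h _ v
  obtain ⟨B, hB0, hB⟩ := bCalc1_bdd hf
  have hint : Integrable (fun x => |f (h • x)| * ‖A x‖) := by
    refine (A.integrable.norm.const_mul B).mono' ?_ (Filter.Eventually.of_forall fun x => ?_)
    · refine Continuous.aestronglyMeasurable ?_
      have h1 : Continuous fun x : EE d => h • x := continuous_const_smul h
      exact (hf.smooth.continuous.comp h1).abs.mul A.continuous.norm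
    · rw [Real.norm_of_nonneg (by positivity)]
      exact mul_le_mul_of_nonneg_right (hB _) (norm_nonneg _)
  have h1 : ‖L.I f A h v‖ ≤ ∫ x, L.Cw * (|f (h • x)| * ‖A x‖) * ‖L.orb v 0‖ := by
    unfold LocalRep.I
    exact norm_integral_le_of_norm_le ((hint.const_mul L.Cw).mul_const _)
      (Filter.Eventually.of_forall fun x => bCalc1_norm_le L f hf (A x) (h • x) v)
  rw [integral_mul_const, integral_const_mul] at h1
  exact h1

theorem bCalc1_lip {d : ℕ} {g : EE d → ℝ} (hg : ContDiff ℝ ∞ g) (hc : HasCompactSupport g) :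
    ∃ C : ℝ, 0 ≤ C ∧ ∀ y, |g y - g 0| ≤ C * ‖y‖ := by
  obtain ⟨C, hC⟩ := ContDiff.lipschitzWith_of_hasCompactSupport hc hg (by simp)
  refine ⟨C, C.2, fun y => ?_⟩
  have := hC.dist_le_mul y 0
  rw [Real.dist_eq, dist_zero_right] at this
  exact this

theorem bCalc1_chi {d : ℕ} (Ch : Chart d) : IsTest Ch Ch.χ := ⟨Ch.χ_smooth, Ch.χ_supp⟩

theorem bCalc1_diff {d : ℕ} {Ch : Chart d} {f : EE d → ℝ} (hf : IsTest Ch f) (c : ℝ) :
    IsTest Ch (fun y => f y - c * Ch.χ y) := by
  refine ⟨hf.smooth.sub (contDiff_const.mul Ch.χ_smooth), ?_⟩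
  have h1 : tsupport (fun y => f y - c * Ch.χ y) ⊆ tsupport f ∪ tsupport Ch.χ := by
    have h2 : Function.support (fun y => f y - c * Ch.χ y) ⊆ tsupport f ∪ tsupport Ch.χ := by
      intro y hy
      by_contra hcon
      rw [Set.mem_union, not_or] at hcon
      apply hy
      have e1 : f y = 0 := image_eq_zero_of_notMem_tsupport hcon.1
      have e2 : Ch.χ y = 0 := image_eq_zero_of_notMem_tsupport hcon.2
      simp [e1, e2]
    exact closure_minimal h2 ((isClosed_tsupport _).union (isClosed_tsupport _))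
  exact h1.trans (Set.union_subset hf.supp Ch.χ_supp)

/-- TARGET 2 -/
theorem I_flat : S_I_flat.{u,v} := by
  intro d Ch V _ _ E _ _ _ L f hf A
  set g : EE d → ℝ := fun y => f y - f 0 * Ch.χ y with hg
  have hgt : IsTest Ch g := bCalc1_diff hf (f 0)
  obtain ⟨C, hC0, hC⟩ := bCalc1_lip hgt.smooth (bCalc1_compact hgt)
  have hg0 : g 0 = 0 := by simp [hg, Ch.χ_zero]
  have hJ : Integrable (fun x => ‖x‖ * ‖A x‖) (volume : Measure (EE d)) := by
    have := A.integrable_pow_mul volume 1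
    simpa using this
  have hJ0 : 0 ≤ ∫ x : EE d, ‖x‖ * ‖A x‖ := integral_nonneg fun x => by positivity
  have hCw := L.Cw_nonneg
  refine ⟨L.Cw * (C * ∫ x : EE d, ‖x‖ * ‖A x‖), by positivity, ?_⟩
  intro h hh0 hh1 v
  have h1 : L.I f A h v - (f 0 : ℂ) • L.I Ch.χ A h v = L.I g A h v := by
    unfold LocalRep.I
    have hi2 : Integrable (fun x => (f 0 : ℂ) • ((Ch.χ (h • x) : ℂ) * A x) • L.orb v (h • x)) :=
      (bCalc1_integrable L Ch.χ (bCalc1_chi Ch) A h v).smul (f 0 : ℂ)
    rw [← integral_smul, ← integral_sub (bCalc1_integrable L f hf A h v) hi2]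
    refine integral_congr_ae (Filter.Eventually.of_forall fun x => ?_)
    simp only [hg]
    rw [← smul_assoc, ← sub_smul]
    congr 1
    push_cast
    rw [smul_eq_mul]
    ring
  rw [h1]
  have h2 : ‖L.I g A h v‖ ≤ ∫ x, L.Cw * (C * h * (‖x‖ * ‖A x‖)) * ‖L.orb v 0‖ := by
    unfold LocalRep.I
    refine norm_integral_le_of_norm_le (((hJ.const_mul (C * h)).const_mul L.Cw).mul_const _)
      (Filter.Eventually.of_forall fun x => ?_)
    refine (bCalc1_norm_le L g hgt (A x) (h • x) v).trans ?_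
    have h3 : |g (h • x)| ≤ C * h * ‖x‖ := by
      have := hC (h • x)
      rw [hg0, sub_zero, norm_smul, Real.norm_of_nonneg hh0.le] at this
      linarith
    have h4 : |g (h • x)| * ‖A x‖ ≤ C * h * (‖x‖ * ‖A x‖) := by
      calc _ ≤ C * h * ‖x‖ * ‖A x‖ := mul_le_mul_of_nonneg_right h3 (norm_nonneg _)
        _ = _ := by ring
    gcongr
  rw [integral_mul_const, integral_const_mul, integral_const_mul] at h2
  refine h2.trans (le_of_eq ?_)
  ring

end Pool.Agent.H913.SG
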