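import Pool.Agent.H913.SG.Stmts2

open MeasureTheory Matrix NormedSpace
open scoped SchwartzMap ContDiff FourierTransform Matrix

universe u v

namespace Pool.Agent.H913.SG

theorem bCalc2_compact {d : ℕ} {Ch : Chart d} {F : Type*} [Zero F] {f : EE d → F}
    (hf : tsupport f ⊆ Metric.ball 0 Ch.r) : HasCompactSupport f :=
  IsCompact.of_isClosed_subset (isCompact_closedBall (0 : EE d) Ch.r) (isClosed_tsupport f)
    (hf.trans Metric.ball_subset_closedBall)

theorem bCalc2_dil {d : ℕ} {F : Type*} [Zero F] {f : EE d → F} (hf : HasCompactSupport f)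
    {h : ℝ} (hh : 0 < h) : HasCompactSupport fun x : EE d => f (h • x) :=
  hf.comp_homeomorph (Homeomorph.smulOfNeZero h hh.ne')

theorem bCalc2_line {d : ℕ} {F : Type*} [NormedAddCommGroup F] [NormedSpace ℝ F] {f : EE d → F}
    {f' : F} {h : ℝ} {x e : EE d} (hf : HasLineDerivAt ℝ f f' (h • x) e) :
    HasLineDerivAt ℝ (fun x => f (h • x)) (h • f') x e := by
  unfold HasLineDerivAt at *
  have h2 : HasDerivAt (fun t : ℝ => h * t) h 0 := by
    simpa using (hasDerivAt_id (0 : ℝ)).const_mul h
  have h1 : HasDerivAt (fun t : ℝ => f (h • x + t • e)) f' (h * 0) := by simpa using hf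
  have h3 := HasDerivAt.scomp (0 : ℝ) h1 h2
  refine h3.congr_of_eventuallyEq (Filter.Eventually.of_forall fun t => ?_)
  simp only [Function.comp, smul_add, smul_smul]

/-- TARGET -/
theorem ibp : S_ibp.{u,v} := by
  intro d Ch V _ _ E _ _ _ L f hf A h hh j v
  have hMs : ∀ i, ContDiff ℝ ∞ (fun z => f z * Ch.M j i z) := fun i => hf.smooth.mul (Ch.M_smooth j i)
  have hfc : HasCompactSupport f := bCalc2_compact hf.supp
  have hMc : ∀ i, HasCompactSupport (fun z => f z * Ch.M j i z) := fun i => hfc.mul_right
  have hd0 : (∞ : WithTop ℕ∞) ≠ 0 := by simp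
  -- the functions
  let P : Fin d → EE d → ℂ := fun i x => ((f (h • x) * Ch.M j i (h • x) : ℝ) : ℂ) * A x
  let D : Fin d → EE d → ℝ := fun i y => fderiv ℝ (fun z => f z * Ch.M j i z) y (ei i)
  let P' : Fin d → EE d → ℂ := fun i x =>
    ((h * D i (h • x) : ℝ) : ℂ) * A x + ((f (h • x) * Ch.M j i (h • x) : ℝ) : ℂ) * (pd i A) x
  let g : EE d → E := fun x => L.orb v (h • x)
  let g' : Fin d → EE d → E := fun i x => h • ∑ l, (Ch.N i l (h • x) : ℂ) • L.orb (L.a l v) (h • x)
  have hDc : ∀ i, Continuous (D i) := by
    intro i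
    have := (hMs i).continuous_fderiv hd0
    exact this.clm_apply continuous_const
  have hDs : ∀ i, HasCompactSupport (D i) := by
    intro i
    have h1 : HasCompactSupport (fderiv ℝ (fun z => f z * Ch.M j i z)) := (hMc i).fderiv ℝ
    exact h1.comp_left (g := fun T : EE d →L[ℝ] ℝ => T (ei i)) rfl
  have hsm : Continuous fun x : EE d => h • x := continuous_const_smul h
  have hgc : Continuous g := (L.cont v).comp hsm
  have hg'c : ∀ i, Continuous (g' i) := by
    intro i
    refine continuous_const.smul (continuous_finsetSum _ fun l _ => ?_)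
    exact (Complex.continuous_ofReal.comp ((Ch.N_cont i l).comp hsm)).smul ((L.cont _).comp hsm)
  have hPc : ∀ i, Continuous (P i) := by
    intro i
    exact (Complex.continuous_ofReal.comp ((hMs i).continuous.comp hsm)).mul A.continuous
  have hPs : ∀ i, HasCompactSupport (P i) := by
    intro i
    have h1 := bCalc2_dil (hMc i) hh
    have h2 : HasCompactSupport fun x : EE d => ((f (h • x) * Ch.M j i (h • x) : ℝ) : ℂ) :=
      h1.comp_left (g := fun r : ℝ => (r : ℂ)) Complex.ofReal_zero
    exact h2.mul_right
  have hP'c : ∀ i, Continuous (P' i) := by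
    intro i
    refine Continuous.add ?_ ?_
    · exact (Complex.continuous_ofReal.comp (continuous_const.mul ((hDc i).comp hsm))).mul
        A.continuous
    · exact (Complex.continuous_ofReal.comp ((hMs i).continuous.comp hsm)).mul (pd i A).continuous
  have hP's : ∀ i, HasCompactSupport (P' i) := by
    intro i
    have h1 := bCalc2_dil (hMc i) hh
    have h2 : HasCompactSupport fun x : EE d => ((f (h • x) * Ch.M j i (h • x) : ℝ) : ℂ) :=
      h1.comp_left (g := fun r : ℝ => (r : ℂ)) Complex.ofReal_zero
    have h3 := bCalc2_dil (hDs i) hh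
    have h4 : HasCompactSupport fun x : EE d => ((h * D i (h • x) : ℝ) : ℂ) :=
      h3.comp_left (g := fun r : ℝ => ((h * r : ℝ) : ℂ)) (by simp)
    exact h4.mul_right.add h2.mul_right
  have hPl : ∀ i x, HasLineDerivAt ℝ (P i) (P' i x) x (ei i) := by
    intro i x
    have h1 : HasLineDerivAt ℝ (fun z => f z * Ch.M j i z) (D i (h • x)) (h • x) (ei i) :=
      (((hMs i).differentiable hd0) (h • x)).hasFDerivAt.hasLineDerivAt (ei i)
    have h2 := bCalc2_line h1
    have h3 : HasLineDerivAt ℝ (fun x => A x) ((pd i A) x) x (ei i) := by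
      have := (A.differentiable x).hasFDerivAt.hasLineDerivAt (ei i)
      exact this
    unfold HasLineDerivAt at *
    have h5 := h2.ofReal_comp.mul h3
    have e1 : P' i x = ((h • D i (h • x) : ℝ) : ℂ) * A (x + (0:ℝ) • ei i) +
        ((f (h • (x + (0:ℝ) • ei i)) * Ch.M j i (h • (x + (0:ℝ) • ei i)) : ℝ) : ℂ) * (pd i A) x := by
      simp only [P', smul_eq_mul, zero_smul, add_zero]
    rw [e1]
    exact h5
  have hgl : ∀ i x, HasLineDerivAt ℝ g (g' i x) x (ei i) := by
    intro i x
    exact bCalc2_line (L.line v i (h • x))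
  -- integration by parts
  let B : ℂ →L[ℝ] E →L[ℝ] E := ContinuousLinearMap.lsmul ℝ ℂ
  have hint : ∀ (p : EE d → ℂ) (q : EE d → E), Continuous p → HasCompactSupport p → Continuous q →
      Integrable (fun x => p x • q x) := by
    intro p q hp hps hq
    exact (hp.smul hq).integrable_of_hasCompactSupport hps.smul_right
  have hibp : ∀ i, ∫ x, P i x • g' i x = - ∫ x, P' i x • g x := by
    intro i
    have := integral_bilinear_hasLineDerivAt_right_eq_neg_left_of_integrable (μ := volume)
      (f := P i) (f' := P' i) (g := g) (g' := g' i) (v := ei i) (B := B)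
      (hint _ _ (hP'c i) (hP's i) hgc) (hint _ _ (hPc i) (hPs i) (hg'c i))
      (hint _ _ (hPc i) (hPs i) hgc) (fun x _ => hPl i x) (fun x _ => hgl i x)
    exact this
  -- left-hand side
  have hL : (h : ℂ) • L.I f A h (L.a j v) = ∑ i, ∫ x, P i x • g' i x := by
    rw [← integral_finsetSum _ (fun i _ => hint _ _ (hPc i) (hPs i) (hg'c i))]
    unfold LocalRep.I
    rw [← integral_smul]
    refine integral_congr_ae (Filter.Eventually.of_forall fun x => ?_)
    simp only []
    by_cases hx : f (h • x) = 0
    · have : ∀ i, P i x = 0 := by intro i; simp [P, hx]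
      simp [this, hx]
    · have hb : ‖h • x‖ ≤ Ch.r := by
        have h1 : h • x ∈ tsupport f := subset_tsupport f hx
        have h2 := hf.supp h1
        rw [Metric.mem_ball, dist_zero_right] at h2
        exact h2.le
      have hMN := Ch.MN (h • x) hb j
      have key : L.orb (L.a j v) (h • x) =
          ∑ i, (Ch.M j i (h • x) : ℂ) • ∑ l, (Ch.N i l (h • x) : ℂ) • L.orb (L.a l v) (h • x) := by
        simp_rw [Finset.smul_sum, smul_smul]
        rw [Finset.sum_comm]
        have : ∀ l, ∑ i, ((Ch.M j i (h • x) : ℂ) * (Ch.N i l (h • x) : ℂ)) • L.orb (L.a l v) (h • x)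
            = if j = l then L.orb (L.a l v) (h • x) else 0 := by
          intro l
          rw [← Finset.sum_smul]
          have := hMN l
          have h2 : (∑ i, (Ch.M j i (h • x) : ℂ) * (Ch.N i l (h • x) : ℂ)) =
              ((if j = l then 1 else 0 : ℝ) : ℂ) := by
            rw [← this]; push_cast; rfl
          rw [h2]
          split_ifs <;> simp
        simp_rw [this]
        simp
      rw [key]
      simp only [P, g', Finset.smul_sum]
      refine Finset.sum_congr rfl fun i _ => Finset.sum_congr rfl fun l _ => ?_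
      rw [← Complex.coe_smul, smul_smul, smul_smul, smul_smul, smul_smul, smul_smul]
      congr 1
      push_cast
      ring
  rw [hL]
  simp_rw [hibp]
  -- right-hand side
  have hR : ∀ i, ∫ x, P' i x • g x = (h : ℂ) • (∫ x, ((D i (h • x) : ℂ) * A x) • L.orb v (h • x)) +
      L.I (fun y => f y * Ch.M j i y) (pd i A) h v := by
    intro i
    have i1 : Integrable fun x => ((D i (h • x) : ℂ) * A x) • L.orb v (h • x) := by
      refine hint _ _ ((Complex.continuous_ofReal.comp ((hDc i).comp hsm)).mul A.continuous) ?_ hgc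
      have h3 := bCalc2_dil (hDs i) hh
      have h4 : HasCompactSupport fun x : EE d => ((D i (h • x) : ℝ) : ℂ) :=
        h3.comp_left (g := fun r : ℝ => (r : ℂ)) (by simp)
      exact h4.mul_right
    have i2 : Integrable fun x => (((f (h • x) * Ch.M j i (h • x) : ℝ) : ℂ) * (pd i A) x) •
        L.orb v (h • x) := by
      refine hint _ _ ((Complex.continuous_ofReal.comp ((hMs i).continuous.comp hsm)).mul
        (pd i A).continuous) ?_ hgc
      have h1 := bCalc2_dil (hMc i) hh
      have h2 : HasCompactSupport fun x : EE d => ((f (h • x) * Ch.M j i (h • x) : ℝ) : ℂ) :=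
        h1.comp_left (g := fun r : ℝ => (r : ℂ)) Complex.ofReal_zero
      exact h2.mul_right
    have e0 := integral_add (i1.smul (h : ℂ)) i2
    unfold LocalRep.I
    rw [← integral_smul]
    refine Eq.trans ?_ e0
    refine integral_congr_ae (Filter.Eventually.of_forall fun x => ?_)
    simp only [P', g, add_smul, smul_smul, Pi.smul_apply]
    congr 2
    push_cast
    ring
  simp_rw [hR]
  rw [Finset.sum_neg_distrib, Finset.sum_add_distrib, neg_add, sub_eq_add_neg]
  congr 2
  rw [← Finset.smul_sum]
  congr 1
  unfold LocalRep.I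
  rw [← integral_finsetSum]
  · refine integral_congr_ae (Filter.Eventually.of_forall fun x => ?_)
    simp only [D]
    rw [← Finset.sum_smul, ← Finset.sum_mul]
    push_cast
    rfl
  · intro i _
    refine hint _ _ ((Complex.continuous_ofReal.comp ((hDc i).comp hsm)).mul A.continuous) ?_ hgc
    have h3 := bCalc2_dil (hDs i) hh
    have h4 : HasCompactSupport fun x : EE d => ((D i (h • x) : ℝ) : ℂ) :=
      h3.comp_left (g := fun r : ℝ => (r : ℂ)) (by simp)
    exact h4.mul_right

end Pool.Agent.H913.SG
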