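import Pool.Agent.H913.SG.Stmts2

/-! Basic properties of the operators `Op`. -/

open MeasureTheory Matrix NormedSpace
open scoped SchwartzMap ContDiff FourierTransform Matrix

universe u v

namespace Pool.Agent.H913.SG

section BCalc3

variable {d : ℕ} {Ch : Chart d} {V : Type u} [AddCommGroup V] [Module ℂ V]
  {E : Type v} [NormedAddCommGroup E] [NormedSpace ℂ E]

theorem bCalc3_chi_norm (Ch : Chart d) (y : EE d) : ‖(Ch.χ y : ℂ)‖ ≤ 1 := by
  rw [Complex.norm_real, Real.norm_of_nonneg (Ch.χ_nonneg y)]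
  exact Ch.χ_le_one y

theorem bCalc3_ptwise (L : LocalRep Ch V E) (z : ℂ) (v : V) (y : EE d) :
    ‖((Ch.χ y : ℂ) * z) • L.orb v y‖ ≤ L.Cw * ‖L.orb v 0‖ * ‖z‖ := by
  by_cases hy : ‖y‖ ≤ Ch.r
  · rw [norm_smul, norm_mul]
    calc ‖(Ch.χ y : ℂ)‖ * ‖z‖ * ‖L.orb v y‖ ≤ 1 * ‖z‖ * (L.Cw * ‖L.orb v 0‖) := by
          gcongr
          · exact bCalc3_chi_norm Ch y
          · exact L.bound v y hy
      _ = _ := by ring
  · have h0 : Ch.χ y = 0 := by
      by_contra hne
      have := Ch.χ_supp (subset_tsupport _ hne)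
      rw [mem_ball_zero_iff] at this
      exact hy this.le
    rw [h0]
    have := L.Cw_nonneg
    simp only [Complex.ofReal_zero, zero_mul, zero_smul, norm_zero]
    positivity

theorem bCalc3_cont (L : LocalRep Ch V E) (A : 𝓢(EE d, ℂ)) (h : ℝ) (v : V) :
    Continuous fun x : EE d => ((Ch.χ (h • x) : ℂ) * A x) • L.orb v (h • x) := by
  have h1 : Continuous fun x : EE d => h • x := continuous_const_smul h
  have h2 := Ch.χ_smooth.continuous
  have h3 := L.cont v
  have h4 := A.continuous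
  exact ((Complex.continuous_ofReal.comp (h2.comp h1)).mul h4).smul (h3.comp h1)

theorem bCalc3_intg (L : LocalRep Ch V E) (A : 𝓢(EE d, ℂ)) (h : ℝ) (v : V) :
    Integrable fun x : EE d => ((Ch.χ (h • x) : ℂ) * A x) • L.orb v (h • x) := by
  refine Integrable.mono' ((A.integrable (μ := volume)).norm.const_mul (L.Cw * ‖L.orb v 0‖))
    (bCalc3_cont L A h v).aestronglyMeasurable (Filter.Eventually.of_forall fun x => ?_)
  exact bCalc3_ptwise L (A x) v (h • x)

theorem bCalc3_inv (c : 𝓢(EE d, ℂ)) : ∫ x, (𝓕 c) x = c 0 := by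
  have h1 : (𝓕⁻ (𝓕 c)) 0 = c 0 := by rw [FourierTransform.fourierInv_fourier_eq]
  rw [← h1, SchwartzMap.fourierInv_coe, Real.fourierInv_eq]
  simp

theorem bCalc3_scale (c c' : 𝓢(EE d, ℂ)) (hc : ∀ ξ, c' ξ = c ((2⁻¹ : ℝ) • ξ)) (x : EE d) :
    (𝓕 c') x = (2 : ℂ) ^ d * (𝓕 c) ((2 : ℝ) • x) := by
  rw [SchwartzMap.fourier_coe, SchwartzMap.fourier_coe, Real.fourier_eq, Real.fourier_eq]
  have h1 : (fun v : EE d => Real.fourierChar (-inner ℝ v x) • c' v) =
      fun v : EE d => (fun η : EE d => Real.fourierChar (-inner ℝ η ((2 : ℝ) • x)) • c η)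
        ((2⁻¹ : ℝ) • v) := by
    funext v
    simp only [hc, inner_smul_left, inner_smul_right]
    congr 3
    simp
  have h2 := Measure.integral_comp_smul (volume : Measure (EE d))
    (fun η : EE d => Real.fourierChar (-inner ℝ η ((2 : ℝ) • x)) • c η) (2⁻¹ : ℝ)
  rw [h1]
  refine h2.trans ?_
  simp only [finrank_euclideanSpace, Fintype.card_fin, inv_pow, inv_inv]
  rw [abs_of_pos (by positivity)]
  simp

theorem bCalc3_half (L : LocalRep Ch V E) (c c' : 𝓢(EE d, ℂ)) (h : ℝ)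
    (hc : ∀ ξ, c' ξ = c ((2⁻¹ : ℝ) • ξ)) (v : V) : L.Op (h / 2) c v = L.Op h c' v := by
  unfold LocalRep.Op LocalRep.I
  have h1 : (fun x : EE d => ((Ch.χ (h • x) : ℂ) * (𝓕 c') x) • L.orb v (h • x)) =
      fun x : EE d => (2 ^ d : ℂ) • (fun y : EE d =>
        ((Ch.χ ((h / 2) • y) : ℂ) * (𝓕 c) y) • L.orb v ((h / 2) • y)) ((2 : ℝ) • x) := by
    funext x
    have e : (h / 2) • (2 : ℝ) • x = h • x := by
      rw [smul_smul]; congr 1; ring
    simp only [e, bCalc3_scale c c' hc x, smul_smul]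
    congr 1
    ring
  have h2 := Measure.integral_comp_smul (volume : Measure (EE d)) (fun y : EE d =>
        ((Ch.χ ((h / 2) • y) : ℂ) * (𝓕 c) y) • L.orb v ((h / 2) • y)) (2 : ℝ)
  rw [h1, integral_smul]
  refine Eq.symm ((congrArg (fun z => (2 ^ d : ℂ) • z) h2).trans ?_)
  simp only [finrank_euclideanSpace, Fintype.card_fin]
  rw [abs_of_pos (by positivity), ← Complex.coe_smul, smul_smul]
  have : (2 ^ d : ℂ) * ((((2 : ℝ) ^ d)⁻¹ : ℝ) : ℂ) = 1 := by
    push_cast
    exact mul_inv_cancel₀ (pow_ne_zero _ two_ne_zero)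
  rw [this, one_smul]

end BCalc3

/-- TARGET -/
theorem op_basic : S_op_basic.{u,v} := by
  intro d Ch V _ _ E _ _ _ L
  refine ⟨fun c h _ v => ?_, fun c c₁ c₂ h _ hc v => ?_, fun c h _ z v v' => ?_,
    fun c c' h _ hc v => bCalc3_half L c c' h hc v, fun c h _ v => ?_⟩
  · calc ‖L.Op h c v‖ ≤ ∫ x, L.Cw * ‖L.orb v 0‖ * ‖(𝓕 c) x‖ := by
          refine norm_integral_le_of_norm_le (((𝓕 c).integrable (μ := volume)).norm.const_mul _)
            (Filter.Eventually.of_forall fun x => ?_)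
          exact bCalc3_ptwise L ((𝓕 c) x) v (h • x)
      _ = L.Cw * Wn c * ‖L.orb v 0‖ := by
          rw [integral_const_mul, Wn]; ring
  · have e : c = c₁ + c₂ := by ext ξ; simp [hc]
    have e2 : 𝓕 c = 𝓕 c₁ + 𝓕 c₂ := by rw [e, FourierTransform.fourier_add]
    unfold LocalRep.Op LocalRep.I
    rw [← integral_add (bCalc3_intg L _ h v) (bCalc3_intg L _ h v)]
    refine integral_congr_ae (Filter.Eventually.of_forall fun x => ?_)
    simp only [e2, _root_.add_apply, mul_add, add_smul]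
  · unfold LocalRep.Op LocalRep.I
    have hz : Integrable fun x : EE d =>
        z • (((Ch.χ (h • x) : ℂ) * (𝓕 c) x) • L.orb v (h • x)) :=
      (bCalc3_intg L (𝓕 c) h v).smul z
    rw [← integral_smul, ← integral_add hz (bCalc3_intg L (𝓕 c) h v')]
    refine integral_congr_ae (Filter.Eventually.of_forall fun x => ?_)
    simp only [map_add, map_smul, Pi.add_apply, Pi.smul_apply, smul_add]
    rw [smul_comm]
  · have hl : c 0 • L.orb v 0 = ∫ x, ((Ch.χ 0 : ℂ) * (𝓕 c) x) • L.orb v 0 := by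
      rw [integral_smul_const, Ch.χ_zero]
      simp only [Complex.ofReal_one, one_mul, bCalc3_inv]
    rw [hl]
    refine tendsto_integral_of_dominated_convergence
      (fun x => L.Cw * ‖L.orb v 0‖ * ‖(𝓕 c) x‖) (fun n => ?_)
      (((𝓕 c).integrable (μ := volume)).norm.const_mul _) (fun n => ?_) ?_
    · exact (bCalc3_cont L _ _ v).aestronglyMeasurable
    · exact Filter.Eventually.of_forall fun x => bCalc3_ptwise L ((𝓕 c) x) v _
    · refine Filter.Eventually.of_forall fun x => ?_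
      have h1 : Filter.Tendsto (fun n : ℕ => (h / 2 ^ n) • x) Filter.atTop (nhds (0 : EE d)) := by
        have h2 : Filter.Tendsto (fun n : ℕ => h / (2 : ℝ) ^ n) Filter.atTop (nhds 0) :=
          tendsto_const_nhds.div_atTop (tendsto_pow_atTop_atTop_of_one_lt (by norm_num))
        have h3 := h2.smul (tendsto_const_nhds (x := x))
        simpa using h3
      have h4 := (Ch.χ_smooth.continuous.tendsto 0).comp h1
      have h5 := ((L.cont v).tendsto 0).comp h1
      have h6 := (Complex.continuous_ofReal.tendsto _).comp h4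
      exact (h6.mul (tendsto_const_nhds (x := (𝓕 c) x))).smul h5

end Pool.Agent.H913.SG
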