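import Pool.Agent.H913.SG.Stmts2

open MeasureTheory Matrix NormedSpace
open scoped SchwartzMap ContDiff FourierTransform Matrix

universe u v

namespace Pool.Agent.H913.SG

/-- The symbol-side action of a word. -/
noncomputable def bCalc4_Aw {d : ℕ} : List (Fin d) → 𝓢(EE d, ℂ) → 𝓢(EE d, ℂ)
  | [], A => A
  | j :: w, A => bCalc4_Aw w (-(pd j A))

theorem bCalc4_Aw_neg {d : ℕ} (w : List (Fin d)) (A : 𝓢(EE d, ℂ)) :
    bCalc4_Aw w (-A) = -bCalc4_Aw w A := by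
  induction w generalizing A with
  | nil => rfl
  | cons j w ih => simp only [bCalc4_Aw, map_neg, ih]

section

variable {d : ℕ} {Ch : Chart d} {V : Type u} [AddCommGroup V] [Module ℂ V]
  {E : Type v} [NormedAddCommGroup E] [NormedSpace ℂ E] (L : LocalRep Ch V E)

theorem bCalc4_I_smul (f : EE d → ℝ) (A : 𝓢(EE d, ℂ)) (h : ℝ) (z : ℂ) (v : V) :
    L.I f A h (z • v) = z • L.I f A h v := by
  unfold LocalRep.I
  rw [← integral_smul]
  congr 1
  ext x
  rw [map_smul, Pi.smul_apply, smul_comm]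

theorem bCalc4_I_neg (f : EE d → ℝ) (A : 𝓢(EE d, ℂ)) (h : ℝ) (v : V) :
    L.I f (-A) h v = - L.I f A h v := by
  unfold LocalRep.I
  rw [← integral_neg]
  congr 1
  ext x
  simp

theorem bCalc4_chi_test (Ch : Chart d) : IsTest Ch Ch.χ := ⟨Ch.χ_smooth, Ch.χ_supp⟩

theorem bCalc4_test_mul {f g : EE d → ℝ} (hf : IsTest Ch f) (hg : ContDiff ℝ ∞ g) :
    IsTest Ch (fun y => f y * g y) :=
  ⟨hf.smooth.mul hg, (closure_mono (Function.support_mul_subset_left f g)).trans hf.supp⟩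

theorem bCalc4_test_div {f : EE d → ℝ} (hf : IsTest Ch f) (j : Fin d) :
    IsTest Ch (fun y => ∑ i, fderiv ℝ (fun z => f z * Ch.M j i z) y (ei i)) := by
  refine ⟨?_, ?_⟩
  · refine ContDiff.sum fun i _ => ?_
    have h : ContDiff ℝ ∞ (fun z => f z * Ch.M j i z) := hf.smooth.mul (Ch.M_smooth j i)
    exact (h.fderiv_right (m := ∞) (by simp)).clm_apply contDiff_const
  · refine Set.Subset.trans (closure_minimal ?_ (isClosed_tsupport f)) hf.supp
    intro y hy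
    by_contra hcon
    apply hy
    refine Finset.sum_eq_zero fun i _ => ?_
    have h0 : (fun z => f z * Ch.M j i z) =ᶠ[nhds y] fun _ => 0 := by
      have := notMem_tsupport_iff_eventuallyEq.1 hcon
      filter_upwards [this] with z hz
      simp [hz]
    rw [h0.fderiv_eq]
    simp

theorem bCalc4_bound (h1 : S_I_norm.{u,v}) [CompleteSpace E] (B : 𝓢(EE d, ℂ)) (h : ℝ) (hh : 0 < h) (v : V) :
    ‖L.I Ch.χ B h v‖ ≤ L.Cw * L1 B * ‖L.orb v 0‖ := by
  refine (h1 d Ch V E L Ch.χ (bCalc4_chi_test Ch) B h hh v).trans ?_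
  refine mul_le_mul_of_nonneg_right (mul_le_mul_of_nonneg_left ?_ L.Cw_nonneg) (norm_nonneg _)
  unfold L1
  refine integral_mono_of_nonneg (Filter.Eventually.of_forall fun x => by positivity) ?_
    (Filter.Eventually.of_forall fun x => ?_)
  · exact B.integrable.norm
  · have : |Ch.χ (h • x)| ≤ 1 := by
      rw [abs_of_nonneg (Ch.χ_nonneg _)]
      exact Ch.χ_le_one _
    calc |Ch.χ (h • x)| * ‖B x‖ ≤ 1 * ‖B x‖ := mul_le_mul_of_nonneg_right this (norm_nonneg _)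
      _ = ‖B x‖ := one_mul _

theorem bCalc4_L1_nonneg (B : 𝓢(EE d, ℂ)) : 0 ≤ L1 B := integral_nonneg fun _ => norm_nonneg _

theorem bCalc4_main (h1 : S_I_norm.{u,v}) (h2 : S_ibp.{u,v}) (h3 : S_I_flat.{u,v}) [CompleteSpace E]
    (w : List (Fin d)) : ∀ (f : EE d → ℝ) (_ : IsTest Ch f) (A : 𝓢(EE d, ℂ)), ∃ C, 0 ≤ C ∧
      ∀ h, 0 < h → h ≤ 1 → ∀ v,
      ‖L.I f A h (((h : ℂ) ^ w.length) • (w.map L.a).prod v)
        - (f 0 : ℂ) • L.I Ch.χ (bCalc4_Aw w A) h v‖ ≤ C * h * ‖L.orb v 0‖ := by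
  induction w with
  | nil =>
    intro f hf A
    obtain ⟨C, hC, hC'⟩ := h3 d Ch V E L f hf A
    refine ⟨C, hC, fun h hh hh1 v => ?_⟩
    simpa [bCalc4_Aw] using hC' h hh hh1 v
  | cons j w ih =>
    intro f hf A
    set g : EE d → ℝ := fun y => ∑ i, fderiv ℝ (fun z => f z * Ch.M j i z) y (ei i) with hg
    obtain ⟨C1, hC1, hC1'⟩ := ih g (bCalc4_test_div hf j) A
    have h2' : ∀ i : Fin d, ∃ C, 0 ≤ C ∧
      ∀ h, 0 < h → h ≤ 1 → ∀ v,
      ‖L.I (fun y => f y * Ch.M j i y) (pd i A) h (((h : ℂ) ^ w.length) • (w.map L.a).prod v)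
        - ((f 0 * Ch.M j i 0 : ℝ) : ℂ) • L.I Ch.χ (bCalc4_Aw w (pd i A)) h v‖
          ≤ C * h * ‖L.orb v 0‖ := fun i =>
      ih (fun y => f y * Ch.M j i y) (bCalc4_test_mul hf (Ch.M_smooth j i)) (pd i A)
    choose C2 hC2 hC2' using h2'
    refine ⟨C1 + |g 0| * (L.Cw * L1 (bCalc4_Aw w A)) + ∑ i, C2 i, ?_, ?_⟩
    · have := Finset.sum_nonneg fun i (_ : i ∈ Finset.univ) => hC2 i
      have h4 := bCalc4_L1_nonneg (bCalc4_Aw w A)
      have h5 := L.Cw_nonneg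
      positivity
    intro h hh hh1 v
    set u : V := ((h : ℂ) ^ w.length) • (w.map L.a).prod v with hu
    have e1 : ((h : ℂ) ^ (j :: w).length) • ((j :: w).map L.a).prod v = (h : ℂ) • L.a j u := by
      rw [hu, map_smul, smul_smul, List.length_cons, pow_succ', List.map_cons, List.prod_cons]
      rfl
    rw [e1, bCalc4_I_smul, h2 d Ch V E L f hf A h hh j u]
    have e2 : (f 0 : ℂ) • L.I Ch.χ (bCalc4_Aw (j :: w) A) h v =
        -∑ i, ((f 0 * Ch.M j i 0 : ℝ) : ℂ) • L.I Ch.χ (bCalc4_Aw w (pd i A)) h v := by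
      rw [Finset.sum_eq_single j]
      · rw [Ch.M_zero j j, if_pos rfl, mul_one, bCalc4_Aw, bCalc4_Aw_neg, bCalc4_I_neg, smul_neg]
      · intro i _ hi
        rw [Ch.M_zero j i, if_neg (Ne.symm hi)]
        simp
      · intro hj
        exact absurd (Finset.mem_univ j) hj
    rw [e2]
    have e3 : -((h : ℂ) • L.I g A h u) - ∑ i, L.I (fun y => f y * Ch.M j i y) (pd i A) h u -
        -∑ i, ((f 0 * Ch.M j i 0 : ℝ) : ℂ) • L.I Ch.χ (bCalc4_Aw w (pd i A)) h v =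
        -((h : ℂ) • L.I g A h u) -
        ∑ i, (L.I (fun y => f y * Ch.M j i y) (pd i A) h u -
          ((f 0 * Ch.M j i 0 : ℝ) : ℂ) • L.I Ch.χ (bCalc4_Aw w (pd i A)) h v) := by
      rw [Finset.sum_sub_distrib]
      abel
    rw [e3]
    have hn : ‖(h : ℂ)‖ = h := by
      rw [Complex.norm_real, Real.norm_of_nonneg hh.le]
    have b1 : ‖L.I g A h u‖ ≤ (C1 + |g 0| * (L.Cw * L1 (bCalc4_Aw w A))) * ‖L.orb v 0‖ := by
      have t1 := hC1' h hh hh1 v
      rw [← hu] at t1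
      have t2 : ‖(g 0 : ℂ) • L.I Ch.χ (bCalc4_Aw w A) h v‖ ≤
          |g 0| * (L.Cw * L1 (bCalc4_Aw w A) * ‖L.orb v 0‖) := by
        rw [norm_smul, Complex.norm_real, Real.norm_eq_abs]
        exact mul_le_mul_of_nonneg_left (bCalc4_bound L h1 _ h hh v) (abs_nonneg _)
      have t3 : ‖L.I g A h u‖ ≤ ‖L.I g A h u - (g 0 : ℂ) • L.I Ch.χ (bCalc4_Aw w A) h v‖ +
          ‖(g 0 : ℂ) • L.I Ch.χ (bCalc4_Aw w A) h v‖ := by
        have := norm_add_le (L.I g A h u - (g 0 : ℂ) • L.I Ch.χ (bCalc4_Aw w A) h v)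
          ((g 0 : ℂ) • L.I Ch.χ (bCalc4_Aw w A) h v)
        rwa [sub_add_cancel] at this
      have t4 : C1 * h * ‖L.orb v 0‖ ≤ C1 * 1 * ‖L.orb v 0‖ :=
        mul_le_mul_of_nonneg_right (mul_le_mul_of_nonneg_left hh1 hC1) (norm_nonneg _)
      nlinarith [t1, t2, t3, t4]
    have b2 : ‖∑ i, (L.I (fun y => f y * Ch.M j i y) (pd i A) h u -
          ((f 0 * Ch.M j i 0 : ℝ) : ℂ) • L.I Ch.χ (bCalc4_Aw w (pd i A)) h v)‖ ≤
          (∑ i, C2 i) * h * ‖L.orb v 0‖ := by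
      refine (norm_sum_le _ _).trans ?_
      rw [Finset.sum_mul, Finset.sum_mul]
      exact Finset.sum_le_sum fun i _ => hC2' i h hh hh1 v
    calc _ ≤ ‖-((h : ℂ) • L.I g A h u)‖ + ‖∑ i, (L.I (fun y => f y * Ch.M j i y) (pd i A) h u -
          ((f 0 * Ch.M j i 0 : ℝ) : ℂ) • L.I Ch.χ (bCalc4_Aw w (pd i A)) h v)‖ := norm_sub_le _ _
      _ ≤ h * ((C1 + |g 0| * (L.Cw * L1 (bCalc4_Aw w A))) * ‖L.orb v 0‖) +
          (∑ i, C2 i) * h * ‖L.orb v 0‖ := by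
        refine add_le_add ?_ b2
        rw [norm_neg, norm_smul, hn]
        exact mul_le_mul_of_nonneg_left b1 hh.le
      _ = _ := by ring

end

theorem bCalc4_fourier {d : ℕ} (w : List (Fin d)) : ∀ (c c' : 𝓢(EE d, ℂ)),
    (∀ ξ, c' ξ = (w.map (fun j => 2 * (Real.pi : ℂ) * Complex.I * (ξ j : ℂ))).prod * c ξ) →
    bCalc4_Aw w (𝓕 c) = 𝓕 c' := by
  induction w with
  | nil =>
    intro c c' hc
    have : c' = c := by
      ext ξ
      simpa using hc ξ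
    rw [this]
    rfl
  | cons j w ih =>
    intro c c' hc
    have ht : (fun ξ : EE d => inner ℝ ξ (ei j)).HasTemperateGrowth :=
      ((innerSL ℝ).flip (ei j)).hasTemperateGrowth
    set c1 : 𝓢(EE d, ℂ) := (2 * Real.pi * Complex.I) •
      SchwartzMap.smulLeftCLM ℂ (fun ξ : EE d => inner ℝ ξ (ei j)) c with hc1
    have e1 : -(pd j (𝓕 c)) = 𝓕 c1 := by
      have := SchwartzMap.lineDerivOp_fourier_eq c (ei j)
      have h2 : pd j (𝓕 c) = LineDeriv.lineDerivOp (ei j) (𝓕 c) := rfl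
      rw [h2, this, neg_smul, FourierTransform.fourier_neg, neg_neg]
    rw [bCalc4_Aw, e1]
    refine ih c1 c' fun ξ => ?_
    rw [hc ξ, hc1, _root_.smul_apply, SchwartzMap.smulLeftCLM_apply_apply ht]
    have h3 : inner ℝ ξ (ei j) = ξ j := by
      simp [ei, EuclideanSpace.inner_single_right]
    rw [h3]
    simp only [List.map_cons, List.prod_cons, smul_eq_mul, Complex.real_smul]
    ring

/-- TARGET -/
theorem op_word (h1 : S_I_norm.{u,v}) (h2 : S_ibp.{u,v}) (h3 : S_I_flat.{u,v}) : S_op_word.{u,v} := by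
  intro d Ch V _ _ E _ _ _ L w c c' hc
  obtain ⟨C, hC, hC'⟩ := bCalc4_main L h1 h2 h3 w Ch.χ (bCalc4_chi_test Ch) (𝓕 c)
  refine ⟨C, hC, fun h hh hh1 v => ?_⟩
  have := hC' h hh hh1 v
  rw [bCalc4_fourier w c c' hc, Ch.χ_zero] at this
  simpa [LocalRep.Op] using this

end Pool.Agent.H913.SG
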