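import Pool.Agent.H913.SG.Stmts2

open MeasureTheory Matrix NormedSpace
open scoped SchwartzMap ContDiff FourierTransform Matrix

universe u v

namespace Pool.Agent.H913.SG

section cA

variable {d : ℕ}

/-- squared length of the marked part -/
noncomputable def cA_nk (isK : Fin d → Prop) [DecidablePred isK] (ξ : EE d) : ℝ :=
  ∑ i, if isK i then (ξ i) ^ 2 else 0

lemma cA_nk_smooth (isK : Fin d → Prop) [DecidablePred isK] : ContDiff ℝ ∞ (cA_nk isK) := by
  unfold cA_nk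
  apply ContDiff.sum
  intro i _
  by_cases h : isK i
  · simp only [h, if_true]
    fun_prop
  · simp only [h, if_false]
    exact contDiff_const

lemma cA_nk_nonneg (isK : Fin d → Prop) [DecidablePred isK] (ξ : EE d) : 0 ≤ cA_nk isK ξ := by
  unfold cA_nk
  apply Finset.sum_nonneg
  intro i _
  split_ifs <;> positivity

/-- the quotient of the cutoff by the variable -/
noncomputable def cA_g (t : ℝ) : ℝ := Real.smoothTransition ((16 * t - 1) / 3) / t

lemma cA_g_smooth : ContDiff ℝ ∞ cA_g := by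
  rw [contDiff_iff_contDiffAt]
  intro t
  by_cases ht : t < 1 / 16
  · have h0 : cA_g =ᶠ[nhds t] fun _ => 0 := by
      filter_upwards [Iio_mem_nhds ht] with x hx
      have hx' : x < 1 / 16 := hx
      unfold cA_g
      rw [Real.smoothTransition.zero_of_nonpos (by linarith), zero_div]
    exact contDiffAt_const.congr_of_eventuallyEq h0
  · have ht0 : t ≠ 0 := by
      rintro rfl
      norm_num at ht
    have h1 : ContDiff ℝ ∞ (fun t : ℝ => Real.smoothTransition ((16 * t - 1) / 3)) := by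
      apply Real.smoothTransition.contDiff.comp
      fun_prop
    exact h1.contDiffAt.div contDiffAt_id ht0

lemma cA_g_mul (t : ℝ) : t * cA_g t = Real.smoothTransition ((16 * t - 1) / 3) := by
  by_cases ht : t = 0
  · subst ht
    rw [zero_mul, Real.smoothTransition.zero_of_nonpos (by norm_num)]
  · unfold cA_g
    field_simp

/-- difference of the cutoffs at two consecutive scales -/
noncomputable def cA_phi (c : 𝓢(EE d, ℂ)) (ξ : EE d) : ℂ := c ((2⁻¹ : ℝ) • ξ) - c ξ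

lemma cA_dil_smooth (c : 𝓢(EE d, ℂ)) : ContDiff ℝ ∞ (fun ξ : EE d => c ((2⁻¹ : ℝ) • ξ)) :=
  (c.smooth ⊤).comp (contDiff_const_smul (2⁻¹ : ℝ))

lemma cA_phi_smooth (c : 𝓢(EE d, ℂ)) : ContDiff ℝ ∞ (cA_phi c) :=
  (cA_dil_smooth c).sub (c.smooth ⊤)

lemma cA_zero {c : 𝓢(EE d, ℂ)} (hc : IsChi1 c) {ξ : EE d} (h : 2 < ‖ξ‖) : c ξ = 0 := by
  apply image_eq_zero_of_notMem_tsupport
  intro hm
  have := hc.supp hm
  rw [Metric.mem_closedBall, dist_zero_right] at this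
  linarith

lemma cA_dil_zero {c : 𝓢(EE d, ℂ)} (hc : IsChi1 c) {ξ : EE d} (h : 4 < ‖ξ‖) :
    c ((2⁻¹ : ℝ) • ξ) = 0 := by
  apply cA_zero hc
  rw [norm_smul, Real.norm_of_nonneg (by norm_num)]
  linarith

lemma cA_phi_zero1 {c : 𝓢(EE d, ℂ)} (hc : IsChi1 c) {ξ : EE d} (h : ‖ξ‖ ≤ 1) :
    cA_phi c ξ = 0 := by
  unfold cA_phi
  rw [hc.one ξ h, hc.one _ _, sub_self]
  rw [norm_smul, Real.norm_of_nonneg (by norm_num)]
  have := norm_nonneg ξ
  linarith

lemma cA_phi_zero2 {c : 𝓢(EE d, ℂ)} (hc : IsChi1 c) {ξ : EE d} (h : 4 < ‖ξ‖) :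
    cA_phi c ξ = 0 := by
  unfold cA_phi
  rw [cA_dil_zero hc h, cA_zero hc (by linarith), sub_self]

lemma cA_comp {f : EE d → ℂ} (h : ∀ ξ : EE d, 4 < ‖ξ‖ → f ξ = 0) : HasCompactSupport f := by
  apply HasCompactSupport.intro (isCompact_closedBall (0 : EE d) 4)
  intro ξ hξ
  apply h
  rw [Metric.mem_closedBall, dist_zero_right] at hξ
  linarith

/-- Schwartz function from a smooth function vanishing far away -/
noncomputable def cA_mk (f : EE d → ℂ) (h : ∀ ξ : EE d, 4 < ‖ξ‖ → f ξ = 0)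
    (hf : ContDiff ℝ ∞ f) : 𝓢(EE d, ℂ) := (cA_comp h).toSchwartzMap hf

lemma cA_mk_apply (f : EE d → ℂ) (h : ∀ ξ : EE d, 4 < ‖ξ‖ → f ξ = 0)
    (hf : ContDiff ℝ ∞ f) (ξ : EE d) : cA_mk f h hf ξ = f ξ := rfl

/-- multiples of `cA_phi` -/
noncomputable def cA_S {c : 𝓢(EE d, ℂ)} (hc : IsChi1 c) (w : EE d → ℂ)
    (hw : ContDiff ℝ ∞ w) : 𝓢(EE d, ℂ) :=
  cA_mk (fun ξ => cA_phi c ξ * w ξ)
    (fun ξ hξ => by rw [cA_phi_zero2 hc hξ, zero_mul]) ((cA_phi_smooth c).mul hw)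

lemma cA_S_apply {c : 𝓢(EE d, ℂ)} (hc : IsChi1 c) (w : EE d → ℂ)
    (hw : ContDiff ℝ ∞ w) (ξ : EE d) : cA_S hc w hw ξ = cA_phi c ξ * w ξ := rfl

lemma cA_ofReal {f : EE d → ℝ} (hf : ContDiff ℝ ∞ f) : ContDiff ℝ ∞ (fun ξ => (f ξ : ℂ)) :=
  Complex.ofRealCLM.contDiff.comp hf

lemma cA_gn_smooth (isK : Fin d → Prop) [DecidablePred isK] :
    ContDiff ℝ ∞ (fun ξ : EE d => ((cA_g (cA_nk isK ξ) : ℝ) : ℂ)) :=
  cA_ofReal (cA_g_smooth.comp (cA_nk_smooth isK))

lemma cA_z_smooth (isK : Fin d → Prop) [DecidablePred isK] :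
    ContDiff ℝ ∞ (fun ξ : EE d =>
      ((1 - Real.smoothTransition ((16 * cA_nk isK ξ - 1) / 3) : ℝ) : ℂ)) := by
  apply cA_ofReal
  apply contDiff_const.sub
  apply Real.smoothTransition.contDiff.comp
  exact ((contDiff_const.mul (cA_nk_smooth isK)).sub contDiff_const).div_const _

/-- the constant `(2 π i)⁻²` -/
noncomputable def cA_kap : ℂ := ((2 * (Real.pi : ℂ) * Complex.I) ^ 2)⁻¹

lemma cA_two_pi : (2 * (Real.pi : ℂ) * Complex.I) ^ 2 ≠ 0 := by
  apply pow_ne_zero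
  apply mul_ne_zero (mul_ne_zero two_ne_zero _) Complex.I_ne_zero
  exact_mod_cast Real.pi_ne_zero

/-- the symbol `c₁` -/
noncomputable def cA_c1 {c : 𝓢(EE d, ℂ)} (hc : IsChi1 c) (isK : Fin d → Prop)
    [DecidablePred isK] : 𝓢(EE d, ℂ) :=
  cA_S hc (fun ξ => cA_kap * ((cA_g (cA_nk isK ξ) : ℝ) : ℂ))
    (contDiff_const.mul (cA_gn_smooth isK))

/-- the symbols `ξ i ^ 2 c₁` -/
noncomputable def cA_b {c : 𝓢(EE d, ℂ)} (hc : IsChi1 c) (isK : Fin d → Prop)
    [DecidablePred isK] (i : Fin d) : 𝓢(EE d, ℂ) :=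
  cA_S hc (fun ξ => (((ξ i) ^ 2 : ℝ) : ℂ) * ((cA_g (cA_nk isK ξ) : ℝ) : ℂ))
    ((cA_ofReal (by fun_prop)).mul (cA_gn_smooth isK))

/-- the remaining part -/
noncomputable def cA_r {c : 𝓢(EE d, ℂ)} (hc : IsChi1 c) (isK : Fin d → Prop)
    [DecidablePred isK] : 𝓢(EE d, ℂ) :=
  cA_S hc _ (cA_z_smooth isK)

lemma cA_b_word {c : 𝓢(EE d, ℂ)} (hc : IsChi1 c) (isK : Fin d → Prop)
    [DecidablePred isK] (i : Fin d) (ξ : EE d) :
    cA_b hc isK i ξ = (([i, i]).map (fun j => 2 * (Real.pi : ℂ) * Complex.I * (ξ j : ℂ))).prod *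
      cA_c1 hc isK ξ := by
  unfold cA_b cA_c1
  rw [cA_S_apply, cA_S_apply]
  have h := cA_two_pi
  simp only [List.map_cons, List.map_nil, List.prod_cons, List.prod_nil, mul_one, cA_kap]
  push_cast
  field_simp

lemma cA_split {c : 𝓢(EE d, ℂ)} (hc : IsChi1 c) (isK : Fin d → Prop)
    [DecidablePred isK] (ξ : EE d) :
    cA_S hc (fun _ => 1) contDiff_const ξ =
      (∑ i, if isK i then cA_b hc isK i else 0 : 𝓢(EE d, ℂ)) ξ + cA_r hc isK ξ := by
  have h1 : (∑ i, if isK i then cA_b hc isK i else 0 : 𝓢(EE d, ℂ)) ξ =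
      ∑ i, (if isK i then cA_b hc isK i else 0 : 𝓢(EE d, ℂ)) ξ := by
    rw [_root_.sum_apply]
  have h2 : ∀ i, (if isK i then cA_b hc isK i else 0 : 𝓢(EE d, ℂ)) ξ =
      cA_phi c ξ * (((if isK i then (ξ i) ^ 2 else 0 : ℝ) : ℂ) *
        ((cA_g (cA_nk isK ξ) : ℝ) : ℂ)) := by
    intro i
    by_cases h : isK i
    · simp only [h, if_true]
      rfl
    · simp only [h, if_false]
      simp
  rw [h1, Finset.sum_congr rfl fun i _ => h2 i, ← Finset.mul_sum, ← Finset.sum_mul]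
  have h3 : ∑ i, ((if isK i then (ξ i) ^ 2 else 0 : ℝ) : ℂ) = ((cA_nk isK ξ : ℝ) : ℂ) := by
    unfold cA_nk
    push_cast
    rfl
  rw [h3, ← Complex.ofReal_mul, cA_g_mul]
  unfold cA_r
  rw [cA_S_apply, cA_S_apply]
  push_cast
  ring

lemma cA_sum_sq (isK : Fin d → Prop) [DecidablePred isK] (ξ : EE d) :
    (∑ i, if isK i then 0 else (ξ i) ^ 2) - (∑ i, if isK i then (ξ i) ^ 2 else 0) =
      ‖ξ‖ ^ 2 - 2 * cA_nk isK ξ := by
  rw [EuclideanSpace.real_norm_sq_eq]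
  unfold cA_nk
  have h : ∑ i, (ξ i) ^ 2 = (∑ i, if isK i then 0 else (ξ i) ^ 2) +
      (∑ i, if isK i then (ξ i) ^ 2 else 0) := by
    rw [← Finset.sum_add_distrib]
    apply Finset.sum_congr rfl
    intro i _
    split_ifs <;> simp
  rw [h]
  ring

/-- the quotient of the remaining part by a power of the symbol -/
lemma cA_quot {c : 𝓢(EE d, ℂ)} (hc : IsChi1 c) (isK : Fin d → Prop)
    [DecidablePred isK] (s : EE d → ℂ) (k : ℕ)
    (hs : ∀ ξ, s ξ = (2 * (Real.pi : ℂ) * Complex.I) ^ 2 *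
      (((∑ i, if isK i then 0 else (ξ i) ^ 2) - (∑ i, if isK i then (ξ i) ^ 2 else 0) : ℝ) : ℂ)) :
    ∃ c2 : 𝓢(EE d, ℂ), ∀ ξ, cA_r hc isK ξ = (s ξ) ^ k * c2 ξ := by
  have hs2 : ∀ ξ, s ξ = (2 * (Real.pi : ℂ) * Complex.I) ^ 2 *
      ((‖ξ‖ ^ 2 - 2 * cA_nk isK ξ : ℝ) : ℂ) := by
    intro ξ
    rw [hs ξ, cA_sum_sq]
  have hne : ∀ ξ : EE d, 1 ≤ ‖ξ‖ → cA_nk isK ξ ≤ 1 / 4 → s ξ ≠ 0 := by
    intro ξ h1 h2
    rw [hs2]
    apply mul_ne_zero cA_two_pi
    have h3 : 0 < ‖ξ‖ ^ 2 - 2 * cA_nk isK ξ := by nlinarith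
    exact_mod_cast h3.ne'
  have hsm : ContDiff ℝ ∞ s := by
    have e : s = fun ξ => (2 * (Real.pi : ℂ) * Complex.I) ^ 2 *
      ((‖ξ‖ ^ 2 - 2 * cA_nk isK ξ : ℝ) : ℂ) := funext hs2
    rw [e]
    apply contDiff_const.mul
    apply cA_ofReal
    exact (contDiff_norm_sq ℝ).sub (contDiff_const.mul (cA_nk_smooth isK))
  have hz1 : ∀ ξ : EE d, 1 / 4 < cA_nk isK ξ → cA_r hc isK ξ = 0 := by
    intro ξ h
    unfold cA_r
    rw [cA_S_apply, Real.smoothTransition.one_of_one_le (by linarith)]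
    simp
  have hz2 : ∀ ξ : EE d, ‖ξ‖ < 1 → cA_r hc isK ξ = 0 := by
    intro ξ h
    unfold cA_r
    rw [cA_S_apply, cA_phi_zero1 hc h.le, zero_mul]
  have hz3 : ∀ ξ : EE d, 4 < ‖ξ‖ → cA_r hc isK ξ = 0 := by
    intro ξ h
    unfold cA_r
    rw [cA_S_apply, cA_phi_zero2 hc h, zero_mul]
  have hzero : ∀ ξ, s ξ = 0 → cA_r hc isK ξ = 0 := by
    intro ξ h
    rcases lt_or_ge ‖ξ‖ 1 with h1 | h1
    · exact hz2 ξ h1
    · rcases lt_or_ge (1 / 4) (cA_nk isK ξ) with h2 | h2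
      · exact hz1 ξ h2
      · exact absurd h (hne ξ h1 h2)
  refine ⟨cA_mk (fun ξ => cA_r hc isK ξ / (s ξ) ^ k) (fun ξ h => by rw [hz3 ξ h, zero_div]) ?_, ?_⟩
  · rw [contDiff_iff_contDiffAt]
    intro ξ
    by_cases h0 : s ξ = 0
    · have hev : (fun ξ => cA_r hc isK ξ / (s ξ) ^ k) =ᶠ[nhds ξ] fun _ => 0 := by
        rcases lt_or_ge ‖ξ‖ 1 with h1 | h1
        · filter_upwards [(isOpen_lt continuous_norm continuous_const).mem_nhds h1] with x hx
          rw [hz2 x hx, zero_div]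
        · rcases lt_or_ge (1 / 4) (cA_nk isK ξ) with h2 | h2
          · filter_upwards [(isOpen_lt continuous_const
              (cA_nk_smooth isK).continuous).mem_nhds h2] with x hx
            rw [hz1 x hx, zero_div]
          · exact absurd h0 (hne ξ h1 h2)
      exact contDiffAt_const.congr_of_eventuallyEq hev
    · have h5 : ContDiffAt ℝ ∞ (fun ξ => ((s ξ) ^ k)⁻¹) ξ :=
        (hsm.contDiffAt.pow k).inv (pow_ne_zero k h0)
      have h6 : ContDiffAt ℝ ∞ (fun ξ => cA_r hc isK ξ) ξ :=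
        ((cA_r hc isK).smooth ⊤).contDiffAt
      simp only [div_eq_mul_inv]
      exact h6.mul h5
  · intro ξ
    rw [cA_mk_apply]
    by_cases h0 : s ξ = 0
    · rw [hzero ξ h0]; simp
    · field_simp

/-- `Op` of a finite sum -/
lemma cA_Op_sum (h3 : S_op_basic.{u,v}) {Ch : Chart d} {V : Type u} [AddCommGroup V] [Module ℂ V]
    {E : Type v} [NormedAddCommGroup E] [NormedSpace ℂ E] [CompleteSpace E]
    (L : LocalRep Ch V E) (h : ℝ) (hh : 0 < h) (v : V) (b : Fin d → 𝓢(EE d, ℂ))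
    (s : Finset (Fin d)) : L.Op h (∑ i ∈ s, b i) v = ∑ i ∈ s, L.Op h (b i) v := by
  obtain ⟨-, hadd, -⟩ := h3 d Ch V E L
  induction s using Finset.induction_on with
  | empty =>
    rw [Finset.sum_empty, Finset.sum_empty]
    have := hadd 0 0 0 h hh (fun ξ => by simp) v
    exact left_eq_add.1 this
  | insert a s ha ih =>
    rw [Finset.sum_insert ha, Finset.sum_insert ha, ← ih]
    exact hadd _ _ _ h hh (fun ξ => by simp) v

end cA

/-- TARGET -/
theorem approx (h1 : S_zsmall.{u,v}) (h2 : S_op_word.{u,v}) (h3 : S_op_basic.{u,v}) :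
    S_approx.{u,v} := by
  intro d Ch isK _ chi1 hc
  have hW : 0 ≤ Wn (cA_c1 hc isK) := integral_nonneg fun _ => norm_nonneg _
  refine ⟨4 / 3 * Wn (cA_c1 hc isK), by positivity, ?_⟩
  intro V _ _ E _ _ _ L z s P hsym hs hP haev
  obtain ⟨hnorm, hadd, hlin, hscale, hlim⟩ := h3 d Ch V E L
  obtain ⟨c2, hc2⟩ := cA_quot hc isK s P.natDegree hs
  obtain ⟨C2, hC2, hz⟩ := h1 d Ch V E L z 2 s P (by norm_num) hsym hP haev c2 (cA_r hc isK) hc2
  have hword := fun i => h2 d Ch V E L [i, i] (cA_c1 hc isK) (cA_b hc isK i)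
    (cA_b_word hc isK i)
  choose Ci hCi hw using hword
  set C' : ℝ := (∑ i, Ci i) + C2 with hC'
  have hC'0 : 0 ≤ C' := add_nonneg (Finset.sum_nonneg fun i _ => hCi i) hC2
  set phiS : 𝓢(EE d, ℂ) := cA_S hc (fun _ => 1) contDiff_const with hphiS
  -- the main estimate
  have main : ∀ h, 0 < h → h ≤ 1 → ∀ v, ‖L.Op h phiS v‖ ≤
      L.Cw * Wn (cA_c1 hc isK) * (h ^ 2 *
        ∑ i, if isK i then ‖L.orb (L.a i (L.a i v)) 0‖ else 0) + C' * h * ‖L.orb v 0‖ := by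
    intro h hh hh1 v
    have e1 : L.Op h phiS v = (∑ i, L.Op h (if isK i then cA_b hc isK i else 0) v) +
        L.Op h (cA_r hc isK) v := by
      rw [hadd phiS (∑ i, if isK i then cA_b hc isK i else 0) (cA_r hc isK) h hh
        (cA_split hc isK) v, cA_Op_sum h3 L h hh v]
    have hL0 := L.Cw_nonneg
    have e2 : ∀ i, ‖L.Op h (if isK i then cA_b hc isK i else 0) v‖ ≤
        L.Cw * Wn (cA_c1 hc isK) * (h ^ 2 *
          if isK i then ‖L.orb (L.a i (L.a i v)) 0‖ else 0) + Ci i * h * ‖L.orb v 0‖ := by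
      intro i
      by_cases hi : isK i
      · simp only [hi, if_true]
        have h4 := hw i h hh hh1 v
        have h5 := hnorm (cA_c1 hc isK) h hh
          (((h : ℂ) ^ [i, i].length) • (([i, i]).map L.a).prod v)
        have h6 : (((h : ℂ) ^ [i, i].length) • (([i, i]).map L.a).prod v) =
            ((h : ℂ) ^ 2) • L.a i (L.a i v) := by
          simp [List.map, List.prod]
        rw [h6] at h4 h5
        have h7 : ‖L.orb (((h : ℂ) ^ 2) • L.a i (L.a i v)) 0‖ =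
            h ^ 2 * ‖L.orb (L.a i (L.a i v)) 0‖ := by
          rw [map_smul, Pi.smul_apply, norm_smul, norm_pow, Complex.norm_real,
            Real.norm_of_nonneg hh.le]
        rw [h7] at h5
        have h8 : L.Op h (cA_b hc isK i) v =
            L.Op h (cA_c1 hc isK) (((h : ℂ) ^ 2) • L.a i (L.a i v)) -
            (L.Op h (cA_c1 hc isK) (((h : ℂ) ^ 2) • L.a i (L.a i v)) -
              L.Op h (cA_b hc isK i) v) := by abel
        rw [h8]
        exact (norm_sub_le _ _).trans (add_le_add h5 h4)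
      · simp only [hi, if_false]
        have h4 := hadd 0 0 0 h hh (fun ξ => by simp) v
        rw [left_eq_add.1 h4, norm_zero, mul_zero, mul_zero, zero_add]
        have := hCi i
        positivity
    rw [e1]
    refine (norm_add_le _ _).trans ?_
    have h5 := hz h hh hh1 v
    have h6 : ‖∑ i, L.Op h (if isK i then cA_b hc isK i else 0) v‖ ≤
        ∑ i, (L.Cw * Wn (cA_c1 hc isK) * (h ^ 2 *
          if isK i then ‖L.orb (L.a i (L.a i v)) 0‖ else 0) + Ci i * h * ‖L.orb v 0‖) :=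
      (norm_sum_le _ _).trans (Finset.sum_le_sum fun i _ => e2 i)
    rw [Finset.sum_add_distrib, ← Finset.mul_sum, ← Finset.mul_sum, ← Finset.sum_mul,
      ← Finset.sum_mul] at h6
    calc _ ≤ _ := add_le_add h6 h5
      _ = _ := by rw [hC']; ring
  refine ⟨2 * C', by positivity, ?_⟩
  intro h hh hh1 v
  set S : ℝ := ∑ i, if isK i then ‖L.orb (L.a i (L.a i v)) 0‖ else 0 with hS
  have hS2 : (∑ i, if isK i then h ^ 2 * ‖L.orb (L.a i (L.a i v)) 0‖ else 0) = h ^ 2 * S := by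
    rw [hS, Finset.mul_sum]
    apply Finset.sum_congr rfl
    intro i _
    split_ifs <;> simp
  rw [hS2]
  set α : ℝ := L.Cw * Wn (cA_c1 hc isK) * S with hα
  set β : ℝ := C' * ‖L.orb v 0‖ with hβ
  have step : ∀ j : ℕ, L.Op (h / 2 ^ (j + 1)) chi1 v =
      L.Op (h / 2 ^ j) chi1 v + L.Op (h / 2 ^ j) phiS v := by
    intro j
    have hj : 0 < h / 2 ^ j := by positivity
    set chi2 : 𝓢(EE d, ℂ) := cA_mk (fun ξ => chi1 ((2⁻¹ : ℝ) • ξ))
      (fun ξ hξ => cA_dil_zero hc hξ) (cA_dil_smooth chi1) with hchi2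
    have h4 := hscale chi1 chi2 (h / 2 ^ j) hj (fun ξ => rfl) v
    have h5 := hadd chi2 chi1 phiS (h / 2 ^ j) hj (fun ξ => by
      rw [hphiS, cA_S_apply, mul_one, hchi2, cA_mk_apply]
      unfold cA_phi
      ring) v
    rw [← h5, ← h4]
    congr 1
    rw [pow_succ]
    field_simp
  have tel : ∀ J : ℕ, ‖L.Op (h / 2 ^ J) chi1 v - L.Op h chi1 v‖ ≤
      α * h ^ 2 * (4 / 3) * (1 - (1 / 4) ^ J) + β * h * 2 * (1 - (1 / 2) ^ J) := by
    intro J
    induction J with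
    | zero => simp
    | succ J ih =>
      have hj : 0 < h / 2 ^ J := by positivity
      have hj1 : h / 2 ^ J ≤ 1 := by
        apply div_le_one_of_le₀ _ (by positivity)
        exact hh1.trans (one_le_pow₀ (by norm_num))
      have h4 := main (h / 2 ^ J) hj hj1 v
      have h5 : L.Op (h / 2 ^ (J + 1)) chi1 v - L.Op h chi1 v =
          (L.Op (h / 2 ^ J) chi1 v - L.Op h chi1 v) + L.Op (h / 2 ^ J) phiS v := by
        rw [step J]; abel
      rw [h5]
      refine (norm_add_le _ _).trans ((add_le_add ih h4).trans (le_of_eq ?_))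
      have e1 : (h / 2 ^ J) ^ 2 = h ^ 2 * (1 / 4) ^ J := by
        rw [div_pow, ← pow_mul, mul_comm J 2, pow_mul, one_div, inv_pow]
        norm_num
        rfl
      have e2 : h / 2 ^ J = h * (1 / 2) ^ J := by
        rw [one_div, inv_pow]; rfl
      rw [e1, e2, pow_succ, pow_succ, hα, hβ, hS]
      ring
  have hlim' := hlim chi1 h hh v
  rw [hc.one 0 (by simp), one_smul] at hlim'
  have hl2 := (hlim'.sub_const (L.Op h chi1 v)).norm
  refine le_of_tendsto hl2 (Filter.Eventually.of_forall fun J => (tel J).trans ?_)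
  have hS0 : 0 ≤ S := by
    rw [hS]
    apply Finset.sum_nonneg
    intro i _
    split_ifs <;> positivity
  have hα0 : 0 ≤ α := by
    have := L.Cw_nonneg
    positivity
  have hβ0 : 0 ≤ β := by positivity
  have h6 : α * h ^ 2 * (4 / 3) * (1 - (1 / 4) ^ J) ≤ α * h ^ 2 * (4 / 3) * 1 := by
    apply mul_le_mul_of_nonneg_left _ (by positivity)
    have : (0 : ℝ) ≤ (1 / 4) ^ J := by positivity
    linarith
  have h7 : β * h * 2 * (1 - (1 / 2) ^ J) ≤ β * h * 2 * 1 := by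
    apply mul_le_mul_of_nonneg_left _ (by positivity)
    have : (0 : ℝ) ≤ (1 / 2) ^ J := by positivity
    linarith
  refine (add_le_add h6 h7).trans (le_of_eq ?_)
  rw [hα, hβ]
  ring

end Pool.Agent.H913.SG
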