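import Pool.Agent.H913.SG.Stmts2

open MeasureTheory Matrix NormedSpace
open scoped SchwartzMap ContDiff FourierTransform Matrix

universe u v

namespace Pool.Agent.H913.SG

/-- Symbols are smooth. -/
theorem cE_smooth {d : ℕ} {V : Type u} [AddCommGroup V] [Module ℂ V] {a : Fin d → Module.End ℂ V}
    {D : ℕ} {z : Module.End ℂ V} {s : EE d → ℂ} (h : HasSym a D z s) : ContDiff ℝ ∞ s := by
  obtain ⟨coef, -, hs⟩ := h
  have e : s = fun ξ => ∑ w, coef w * ∏ i, (2 * (Real.pi : ℂ) * Complex.I * (ξ (w i) : ℂ)) :=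
    funext hs
  rw [e]
  refine ContDiff.sum fun w _ => contDiff_const.mul ?_
  refine contDiff_prod fun i _ => contDiff_const.mul ?_
  exact Complex.ofRealCLM.contDiff.comp (contDiff_euclidean.1 contDiff_id (w i))

theorem cE_zero {d : ℕ} {Ch : Chart d} {V : Type u} [AddCommGroup V] [Module ℂ V]
    {E : Type v} [NormedAddCommGroup E] [NormedSpace ℂ E] (L : LocalRep Ch V E)
    (hadd : ∀ (c c₁ c₂ : 𝓢(EE d, ℂ)) (h : ℝ), 0 < h → (∀ ξ, c ξ = c₁ ξ + c₂ ξ) →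
      ∀ v, L.Op h c v = L.Op h c₁ v + L.Op h c₂ v) {h : ℝ} (hh : 0 < h) (v : V) :
    L.Op h 0 v = 0 := by
  have := hadd 0 0 0 h hh (fun ξ => by simp) v
  simpa using this

theorem cE_sum {d : ℕ} {Ch : Chart d} {V : Type u} [AddCommGroup V] [Module ℂ V]
    {E : Type v} [NormedAddCommGroup E] [NormedSpace ℂ E] (L : LocalRep Ch V E)
    (hadd : ∀ (c c₁ c₂ : 𝓢(EE d, ℂ)) (h : ℝ), 0 < h → (∀ ξ, c ξ = c₁ ξ + c₂ ξ) →
      ∀ v, L.Op h c v = L.Op h c₁ v + L.Op h c₂ v) {h : ℝ} (hh : 0 < h) (v : V)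
    (β : ℕ → 𝓢(EE d, ℂ)) (t : Finset ℕ) :
    L.Op h (∑ j ∈ t, β j) v = ∑ j ∈ t, L.Op h (β j) v := by
  classical
  induction t using Finset.induction_on with
  | empty => simpa using cE_zero L hadd hh v
  | insert j t hj ih =>
    rw [Finset.sum_insert hj, Finset.sum_insert hj, ← ih]
    exact hadd _ _ _ h hh (fun ξ => by simp) v

/-- TARGET -/
theorem elliptic (h1 : S_zsmall.{u,v}) (h2 : S_op_basic.{u,v}) : S_elliptic.{u,v} := by
  classical
  intro d Ch V _ _ E _ _ _ L z D s P hD hsym hP hPz b hbc hb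
  have hadd := (h2 d Ch V E L).2.1
  have hsm : ∀ j, ContDiff ℝ ∞ (s j) := fun j => cE_smooth (hsym j)
  -- finitely many symbols suffice
  obtain ⟨t, ht⟩ : ∃ t : Finset ℕ, tsupport b ⊆ ⋃ j ∈ t, {ξ | s j ξ ≠ 0} := by
    refine IsCompact.elim_finite_subcover hbc.isCompact (fun j => {ξ | s j ξ ≠ 0}) ?_ ?_
    · intro j
      exact isOpen_ne_fun (hsm j).continuous continuous_const
    · intro ξ hξ
      obtain ⟨j, hj⟩ := hb ξ hξ
      exact Set.mem_iUnion.2 ⟨j, hj⟩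
  let F : EE d → ℝ := fun ξ => ∑ j ∈ t, Complex.normSq (s j ξ) ^ (P j).natDegree
  have hFpos : ∀ ξ ∈ tsupport b, 0 < F ξ := by
    intro ξ hξ
    obtain ⟨j, hj, hjξ⟩ := Set.mem_iUnion₂.1 (ht hξ)
    refine Finset.sum_pos' (fun i _ => pow_nonneg (Complex.normSq_nonneg _) _) ⟨j, hj, ?_⟩
    exact pow_pos (Complex.normSq_pos.2 hjξ) _
  have hnsq : ∀ j, ContDiff ℝ ∞ (fun ξ => Complex.normSq (s j ξ)) := by
    intro j
    have : (fun ξ => Complex.normSq (s j ξ)) = fun ξ => (s j ξ).re * (s j ξ).re +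
        (s j ξ).im * (s j ξ).im := by
      funext ξ
      exact Complex.normSq_apply _
    rw [this]
    have hre : ContDiff ℝ ∞ (fun ξ => (s j ξ).re) := Complex.reCLM.contDiff.comp (hsm j)
    have him : ContDiff ℝ ∞ (fun ξ => (s j ξ).im) := Complex.imCLM.contDiff.comp (hsm j)
    exact (hre.mul hre).add (him.mul him)
  have hF : ContDiff ℝ ∞ F := ContDiff.sum fun j _ => (hnsq j).pow _
  -- the coefficients
  let c : ℕ → EE d → ℂ := fun j ξ => b ξ * ((starRingEnd ℂ) (s j ξ) ^ (P j).natDegree / (F ξ : ℂ))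
  have hcs : ∀ j, HasCompactSupport (c j) := fun j => hbc.mul_right
  have hcd : ∀ j, ContDiff ℝ ∞ (c j) := by
    intro j
    rw [contDiff_iff_contDiffAt]
    intro ξ
    by_cases hξ : ξ ∈ tsupport b
    · have hne : (F ξ : ℂ) ≠ 0 := by exact_mod_cast (hFpos ξ hξ).ne'
      have hbs : ContDiff ℝ ∞ (b : EE d → ℂ) := b.smooth ⊤
      have hcj : ContDiff ℝ ∞ (fun ξ => (starRingEnd ℂ) (s j ξ)) :=
        Complex.conjCLE.contDiff.comp (hsm j)
      have hFc : ContDiff ℝ ∞ (fun ξ => (F ξ : ℂ)) := Complex.ofRealCLM.contDiff.comp hF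
      have hinv : ContDiffAt ℝ ∞ (fun ξ => ((F ξ : ℂ))⁻¹) ξ := hFc.contDiffAt.inv hne
      have hq : ContDiffAt ℝ ∞ (fun ξ => (starRingEnd ℂ) (s j ξ) ^ (P j).natDegree / (F ξ : ℂ)) ξ := by
        simp only [div_eq_mul_inv]
        exact (hcj.contDiffAt.pow _).mul hinv
      exact hbs.contDiffAt.mul hq
    · have h0 : (b : EE d → ℂ) =ᶠ[nhds ξ] 0 := notMem_tsupport_iff_eventuallyEq.1 hξ
      have h0' : c j =ᶠ[nhds ξ] fun _ => 0 := by
        filter_upwards [h0] with x hx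
        simp only [c]
        rw [hx]
        simp
      exact contDiffAt_const.congr_of_eventuallyEq h0'
  have hcs' : ∀ j, HasCompactSupport (fun ξ => s j ξ ^ (P j).natDegree * c j ξ) := fun j =>
    (hcs j).mul_left
  have hcd' : ∀ j, ContDiff ℝ ∞ (fun ξ => s j ξ ^ (P j).natDegree * c j ξ) := fun j =>
    ((hsm j).pow _).mul (hcd j)
  let cS : ℕ → 𝓢(EE d, ℂ) := fun j => (hcs j).toSchwartzMap (hcd j)
  let bS : ℕ → 𝓢(EE d, ℂ) := fun j => (hcs' j).toSchwartzMap (hcd' j)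
  have hbS : b = ∑ j ∈ t, bS j := by
    ext ξ
    rw [_root_.sum_apply]
    show b ξ = ∑ j ∈ t, s j ξ ^ (P j).natDegree *
      (b ξ * ((starRingEnd ℂ) (s j ξ) ^ (P j).natDegree / (F ξ : ℂ)))
    by_cases hξ : ξ ∈ tsupport b
    · have hne : (F ξ : ℂ) ≠ 0 := by exact_mod_cast (hFpos ξ hξ).ne'
      have e1 : ∀ j ∈ t, s j ξ ^ (P j).natDegree *
          (b ξ * ((starRingEnd ℂ) (s j ξ) ^ (P j).natDegree / (F ξ : ℂ))) =
          b ξ / (F ξ : ℂ) * ((Complex.normSq (s j ξ) ^ (P j).natDegree : ℝ) : ℂ) := by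
        intro j _
        rw [Complex.ofReal_pow, Complex.normSq_eq_conj_mul_self, mul_pow]
        ring
      rw [Finset.sum_congr rfl e1, ← Finset.mul_sum, ← Complex.ofReal_sum]
      show b ξ = b ξ / (F ξ : ℂ) * (F ξ : ℂ)
      rw [div_mul_cancel₀ _ hne]
    · have h0 : b ξ = 0 := image_eq_zero_of_notMem_tsupport hξ
      simp [h0]
  have hz : ∀ j, ∃ C, 0 ≤ C ∧ ∀ h, 0 < h → h ≤ 1 → ∀ v, ‖L.Op h (bS j) v‖ ≤ C * h * ‖L.orb v 0‖ :=
    fun j => h1 d Ch V E L (z j) (D j) (s j) (P j) (hD j) (hsym j) (hP j) (hPz j) (cS j) (bS j)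
      (fun ξ => rfl)
  choose C hC0 hC using hz
  refine ⟨∑ j ∈ t, C j, Finset.sum_nonneg fun j _ => hC0 j, fun h hh hh1 v => ?_⟩
  rw [hbS, cE_sum L hadd hh v bS t, Finset.sum_mul, Finset.sum_mul]
  exact (norm_sum_le _ _).trans (Finset.sum_le_sum fun j _ => hC j h hh hh1 v)

end Pool.Agent.H913.SG

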