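import Pool.Agent.H913.SG.Stmts2

/-! Homogeneous elements and their symbols. -/

open MeasureTheory Matrix NormedSpace
open scoped SchwartzMap ContDiff FourierTransform Matrix

universe u v

namespace Pool.Agent.H913.SG

theorem cSym_mul {d : ℕ} {V : Type u} [AddCommGroup V] [Module ℂ V] {a : Fin d → Module.End ℂ V}
    {D₁ D₂ : ℕ} {z₁ z₂ : Module.End ℂ V} {s₁ s₂ : EE d → ℂ} (h₁ : HasSym a D₁ z₁ s₁)
    (h₂ : HasSym a D₂ z₂ s₂) : HasSym a (D₁ + D₂) (z₁ * z₂) (fun ξ => s₁ ξ * s₂ ξ) := by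
  obtain ⟨c₁, rfl, hs₁⟩ := h₁
  obtain ⟨c₂, rfl, hs₂⟩ := h₂
  refine ⟨fun w => c₁ (fun i => w (Fin.castAdd D₂ i)) * c₂ (fun i => w (Fin.natAdd D₁ i)), ?_, ?_⟩
  · rw [Finset.sum_mul_sum, ← (Fin.appendEquiv D₁ D₂).sum_comp, Fintype.sum_prod_type]
    refine Finset.sum_congr rfl fun w₁ _ => Finset.sum_congr rfl fun w₂ _ => ?_
    have h1 : (List.ofFn fun i => a ((Fin.appendEquiv D₁ D₂) (w₁, w₂) i)) =
        (List.ofFn fun i => a (w₁ i)) ++ List.ofFn fun i => a (w₂ i) := by
      rw [← List.ofFn_fin_append]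
      congr 1
      ext i : 1
      refine Fin.addCases (fun j => ?_) (fun j => ?_) i
      · simp [Fin.appendEquiv]
      · simp [Fin.appendEquiv]
    rw [h1, List.prod_append, smul_mul_smul_comm]
    congr 2 <;> simp [Fin.appendEquiv]
  · intro ξ
    change s₁ ξ * s₂ ξ = _
    rw [hs₁, hs₂, Finset.sum_mul_sum, ← (Fin.appendEquiv D₁ D₂).sum_comp, Fintype.sum_prod_type]
    refine Finset.sum_congr rfl fun w₁ _ => Finset.sum_congr rfl fun w₂ _ => ?_
    rw [Fin.prod_univ_add]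
    simp only [Fin.appendEquiv, Equiv.coe_fn_mk, Fin.append_left, Fin.append_right]
    ring

/-- TARGET 1 -/
theorem sym_pow : S_sym_pow.{u} := by
  intro d V _ _ a z D s h k
  induction k with
  | zero =>
    refine ⟨fun _ => 1, ?_, ?_⟩
    · simp
    · intro ξ
      simp
  | succ k ih =>
    have h1 := cSym_mul ih h
    simp only [pow_succ]
    exact h1

theorem cSym_growth {d : ℕ} (j : Fin d) :
    Function.HasTemperateGrowth (fun ξ : EE d => 2 * (Real.pi : ℂ) * Complex.I * (ξ j : ℂ)) := by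
  have h1 : Function.HasTemperateGrowth (fun ξ : EE d => (ξ j : ℂ)) :=
    (Complex.ofRealCLM.comp (EuclideanSpace.proj j : EE d →L[ℝ] ℝ)).hasTemperateGrowth
  exact (Function.HasTemperateGrowth.const _).mul h1

theorem cSym_list {d : ℕ} (w : List (Fin d)) (c : 𝓢(EE d, ℂ)) : ∃ b : 𝓢(EE d, ℂ), ∀ ξ,
    b ξ = (w.map (fun j => 2 * (Real.pi : ℂ) * Complex.I * (ξ j : ℂ))).prod * c ξ := by
  induction w with
  | nil => exact ⟨c, fun ξ => by simp⟩
  | cons j w ih =>
    obtain ⟨b, hb⟩ := ih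
    refine ⟨SchwartzMap.smulLeftCLM ℂ
      (fun ξ : EE d => 2 * (Real.pi : ℂ) * Complex.I * (ξ j : ℂ)) b, fun ξ => ?_⟩
    rw [SchwartzMap.smulLeftCLM_apply_apply (cSym_growth j), hb, List.map_cons, List.prod_cons,
      smul_eq_mul]
    ring

theorem cSym_word {d D : ℕ} (w : Fin D → Fin d) (ξ : EE d) :
    ((List.ofFn w).map (fun j => 2 * (Real.pi : ℂ) * Complex.I * (ξ j : ℂ))).prod =
      ∏ i, (2 * (Real.pi : ℂ) * Complex.I * (ξ (w i) : ℂ)) := by
  rw [List.map_ofFn, List.prod_ofFn]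
  rfl

/-- TARGET 2 -/
theorem sym_schwartz : S_sym_schwartz.{u} := by
  rintro d V _ _ a z D s ⟨coef, -, hs⟩ c
  choose b hb using fun w : Fin D → Fin d => cSym_list (List.ofFn w) c
  refine ⟨∑ w, coef w • b w, fun ξ => ?_⟩
  rw [hs, _root_.sum_apply, Finset.sum_mul]
  refine Finset.sum_congr rfl fun w _ => ?_
  rw [_root_.smul_apply, hb, cSym_word, smul_eq_mul]
  ring

/-- TARGET 3 -/
theorem op_sym (h1 : S_op_word.{u,v}) (h2 : S_op_basic.{u,v}) : S_op_sym.{u,v} := by
  rintro d Ch V _ _ E _ _ _ L z D s ⟨coef, hz, hs⟩ c b hb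
  obtain ⟨-, hadd, hlin, -, -⟩ := h2 d Ch V E L
  choose b' hb' using fun w : Fin D → Fin d => cSym_list (List.ofFn w) c
  choose C hC0 hC using fun w : Fin D → Fin d => h1 d Ch V E L (List.ofFn w) c (b' w) (hb' w)
  refine ⟨∑ w, ‖coef w‖ * C w, Finset.sum_nonneg fun w _ => mul_nonneg (norm_nonneg _) (hC0 w),
    fun h h0 h1' v => ?_⟩
  have hsmulc : ∀ (t : ℂ) (c : 𝓢(EE d, ℂ)) v, L.Op h (t • c) v = t • L.Op h c v := by
    intro t c v
    have e1 : 𝓕 (t • c) = t • 𝓕 c := by
      exact (SchwartzMap.fourierTransformCLM ℂ).map_smul t c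
    rw [LocalRep.Op, LocalRep.Op, LocalRep.I, LocalRep.I, ← integral_smul]
    refine integral_congr_ae (Filter.Eventually.of_forall fun x => ?_)
    simp only [e1, _root_.smul_apply, smul_smul, smul_eq_mul]
    congr 1
    ring
  have hsum : ∀ (S : Finset (Fin D → Fin d)) v,
      L.Op h (∑ w ∈ S, coef w • b' w) v = ∑ w ∈ S, coef w • L.Op h (b' w) v := by
    classical
    intro S v
    induction S using Finset.induction_on with
    | empty =>
      have := hsmulc 0 0 v
      simpa using this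
    | insert w S hw ih =>
      rw [Finset.sum_insert hw, Finset.sum_insert hw, ← ih, ← hsmulc]
      exact hadd _ _ _ h h0 (fun ξ => rfl) v
  have hv0 : L.Op h c 0 = 0 := by
    have := hlin c h h0 1 0 0
    simpa using this
  have hvsum : ∀ (S : Finset (Fin D → Fin d)) (u : (Fin D → Fin d) → V),
      L.Op h c (∑ w ∈ S, coef w • u w) = ∑ w ∈ S, coef w • L.Op h c (u w) := by
    classical
    intro S u
    induction S using Finset.induction_on with
    | empty => simpa using hv0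
    | insert w S hw ih =>
      rw [Finset.sum_insert hw, Finset.sum_insert hw, ← ih]
      exact hlin _ h h0 _ _ _
  have hbsum : b = ∑ w, coef w • b' w := by
    ext ξ
    rw [hb, hs, _root_.sum_apply, Finset.sum_mul]
    refine Finset.sum_congr rfl fun w _ => ?_
    rw [_root_.smul_apply, hb', cSym_word, smul_eq_mul]
    ring
  have hzv : ((h : ℂ) ^ D) • z v =
      ∑ w, coef w • (((h : ℂ) ^ D) • ((List.ofFn fun i => L.a (w i)).prod v)) := by
    rw [hz, LinearMap.sum_apply, Finset.smul_sum]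
    refine Finset.sum_congr rfl fun w _ => ?_
    rw [LinearMap.smul_apply, smul_comm]
  rw [hzv, hvsum, hbsum, hsum, ← Finset.sum_sub_distrib]
  refine (norm_sum_le _ _).trans ?_
  rw [Finset.sum_mul, Finset.sum_mul]
  refine Finset.sum_le_sum fun w _ => ?_
  rw [← smul_sub, norm_smul, mul_assoc, mul_assoc]
  refine mul_le_mul_of_nonneg_left ?_ (norm_nonneg _)
  have h3 := hC w h h0 h1' v
  rw [List.length_ofFn, List.map_ofFn] at h3
  rw [← mul_assoc]
  exact h3

end Pool.Agent.H913.SG
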