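import Pool.Agent.H913.SG.Stmts2

open MeasureTheory Matrix NormedSpace
open scoped SchwartzMap ContDiff FourierTransform Matrix

universe u v

namespace Pool.Agent.H913.SG

/-- The operator `Op_h(c)` as a linear map. -/
noncomputable def cZ_lin {d : ℕ} {Ch : Chart d} {V : Type u} [AddCommGroup V] [Module ℂ V]
    {E : Type v} [NormedAddCommGroup E] [NormedSpace ℂ E] [CompleteSpace E] (L : LocalRep Ch V E)
    (h4 : S_op_basic.{u,v}) (c : 𝓢(EE d, ℂ)) (h : ℝ) (hh : 0 < h) : V →ₗ[ℂ] E :=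
  have key := (h4 d Ch V E L).2.2.1 c h hh
  have h0 : L.Op h c 0 = 0 := by
    have := key 1 0 0
    simpa using this
  { toFun := L.Op h c
    map_add' := by
      intro x y
      have := key 1 x y
      simpa using this
    map_smul' := by
      intro z x
      have := key z x 0
      simpa [h0] using this }

lemma cZ_lin_apply {d : ℕ} {Ch : Chart d} {V : Type u} [AddCommGroup V] [Module ℂ V]
    {E : Type v} [NormedAddCommGroup E] [NormedSpace ℂ E] [CompleteSpace E] (L : LocalRep Ch V E)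
    (h4 : S_op_basic.{u,v}) (c : 𝓢(EE d, ℂ)) (h : ℝ) (hh : 0 < h) (x : V) :
    cZ_lin L h4 c h hh x = L.Op h c x := rfl

/-- TARGET -/
theorem zsmall (h1 : S_op_sym.{u,v}) (h2 : S_sym_pow.{u}) (h3 : S_sym_schwartz.{u}) (h4 : S_op_basic.{u,v}) :
    S_zsmall.{u,v} := by
  intro d Ch V _ _ E _ _ _ L z D s P hD hz hP hPz c b hb
  classical
  set k := P.natDegree with hk
  -- the symbols of the powers
  have hpow : ∀ l, HasSym L.a (D * l) (z ^ l) (fun ξ => s ξ ^ l) := fun l => h2 d V L.a z D s hz l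
  have hsch : ∀ l, ∃ bl : 𝓢(EE d, ℂ), ∀ ξ, bl ξ = s ξ ^ l * c ξ :=
    fun l => h3 d V L.a (z ^ l) (D * l) _ (hpow l) c
  choose bl hbl using hsch
  have hop : ∀ l, ∃ C, 0 ≤ C ∧ ∀ h, 0 < h → h ≤ 1 → ∀ v,
      ‖L.Op h c (((h : ℂ) ^ (D * l)) • (z ^ l) v) - L.Op h (bl l) v‖ ≤ C * h * ‖L.orb v 0‖ :=
    fun l => h1 d Ch V E L (z ^ l) (D * l) _ (hpow l) c (bl l) (hbl l)
  choose C hC0 hC using hop
  obtain ⟨Ck, hCk0, hCk⟩ := h1 d Ch V E L (z ^ k) (D * k) _ (hpow k) c b hb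
  have hWn : ∀ l, 0 ≤ Wn (bl l) := fun l => integral_nonneg fun _ => norm_nonneg _
  refine ⟨Ck + ∑ l ∈ Finset.range k, ‖P.coeff l‖ * (C l + L.Cw * Wn (bl l)), ?_, ?_⟩
  · refine add_nonneg hCk0 (Finset.sum_nonneg fun l _ => mul_nonneg (norm_nonneg _) ?_)
    exact add_nonneg (hC0 l) (mul_nonneg L.Cw_nonneg (hWn l))
  intro h hh hh1 v
  set T := cZ_lin L h4 c h hh with hT
  have hT' : ∀ x, T x = L.Op h c x := fun x => rfl
  have horb : 0 ≤ ‖L.orb v 0‖ := norm_nonneg _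
  -- the relation
  have hrel : ((h : ℂ) ^ (D * k)) • T ((z ^ k) v) =
      - ∑ l ∈ Finset.range k, (P.coeff l * (h : ℂ) ^ (D * k)) • T ((z ^ l) v) := by
    have e1 : (Polynomial.aeval z P) v = 0 := by rw [hPz]; rfl
    rw [Polynomial.aeval_eq_sum_range, Finset.sum_range_succ, ← hk] at e1
    have hlead : P.coeff k = 1 := hP
    rw [hlead, one_smul, LinearMap.add_apply, LinearMap.sum_apply] at e1
    have e2 : (z ^ k) v = - ∑ l ∈ Finset.range k, P.coeff l • (z ^ l) v := by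
      rw [eq_neg_iff_add_eq_zero, add_comm]
      simpa using e1
    rw [e2, map_neg, map_sum, smul_neg, Finset.smul_sum]
    congr 1
    refine Finset.sum_congr rfl fun l _ => ?_
    rw [map_smul, smul_smul, mul_comm]
  -- the main term
  have hmain : ‖L.Op h b v‖ ≤ Ck * h * ‖L.orb v 0‖ + ‖((h : ℂ) ^ (D * k)) • T ((z ^ k) v)‖ := by
    have e1 := hCk h hh hh1 v
    rw [← hT', map_smul] at e1
    calc ‖L.Op h b v‖ = ‖((h : ℂ) ^ (D * k)) • T ((z ^ k) v) -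
          (((h : ℂ) ^ (D * k)) • T ((z ^ k) v) - L.Op h b v)‖ := by congr 1; abel
      _ ≤ ‖((h : ℂ) ^ (D * k)) • T ((z ^ k) v)‖ +
          ‖((h : ℂ) ^ (D * k)) • T ((z ^ k) v) - L.Op h b v‖ := norm_sub_le _ _
      _ ≤ _ := by linarith
  have hlow : ∀ l ∈ Finset.range k, ‖(P.coeff l * (h : ℂ) ^ (D * k)) • T ((z ^ l) v)‖ ≤
      ‖P.coeff l‖ * (C l + L.Cw * Wn (bl l)) * h * ‖L.orb v 0‖ := by
    intro l hl
    have hlk : l < k := Finset.mem_range.1 hl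
    obtain ⟨j, hj⟩ : ∃ j, D * k = D * l + (j + 1) := by
      have : D * l + 1 ≤ D * k := by
        calc D * l + 1 ≤ D * l + D := by omega
          _ = D * (l + 1) := by ring
          _ ≤ D * k := Nat.mul_le_mul_left _ hlk
      exact ⟨D * k - D * l - 1, by omega⟩
    have e1 := hC l h hh hh1 v
    have e2 := (h4 d Ch V E L).1 (bl l) h hh v
    have e3 : ‖((h : ℂ) ^ (D * l)) • T ((z ^ l) v)‖ ≤ (C l + L.Cw * Wn (bl l)) * ‖L.orb v 0‖ := by
      rw [← map_smul, hT']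
      calc ‖L.Op h c ((h : ℂ) ^ (D * l) • (z ^ l) v)‖
          = ‖(L.Op h c ((h : ℂ) ^ (D * l) • (z ^ l) v) - L.Op h (bl l) v) + L.Op h (bl l) v‖ := by
            congr 1; abel
        _ ≤ ‖L.Op h c ((h : ℂ) ^ (D * l) • (z ^ l) v) - L.Op h (bl l) v‖ + ‖L.Op h (bl l) v‖ :=
            norm_add_le _ _
        _ ≤ C l * h * ‖L.orb v 0‖ + L.Cw * Wn (bl l) * ‖L.orb v 0‖ := add_le_add e1 e2
        _ ≤ C l * 1 * ‖L.orb v 0‖ + L.Cw * Wn (bl l) * ‖L.orb v 0‖ := by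
            have := hC0 l
            gcongr
        _ = _ := by ring
    have e4 : (P.coeff l * (h : ℂ) ^ (D * k)) • T ((z ^ l) v) =
        (P.coeff l * (h : ℂ) ^ (j + 1)) • (((h : ℂ) ^ (D * l)) • T ((z ^ l) v)) := by
      rw [smul_smul, hj, pow_add]
      ring_nf
    rw [e4, norm_smul, norm_mul, norm_pow, Complex.norm_real, Real.norm_of_nonneg hh.le]
    have e5 : h ^ (j + 1) ≤ h := by
      rw [pow_succ]
      calc h ^ j * h ≤ 1 * h := by
            gcongr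
            exact pow_le_one₀ hh.le hh1
        _ = h := one_mul h
    have e6 : 0 ≤ C l + L.Cw * Wn (bl l) := add_nonneg (hC0 l) (mul_nonneg L.Cw_nonneg (hWn l))
    calc ‖P.coeff l‖ * h ^ (j + 1) * ‖((h : ℂ) ^ (D * l)) • T ((z ^ l) v)‖
        ≤ ‖P.coeff l‖ * h * ((C l + L.Cw * Wn (bl l)) * ‖L.orb v 0‖) := by gcongr
      _ = _ := by ring
  have hsum : ‖((h : ℂ) ^ (D * k)) • T ((z ^ k) v)‖ ≤
      ∑ l ∈ Finset.range k, ‖P.coeff l‖ * (C l + L.Cw * Wn (bl l)) * h * ‖L.orb v 0‖ := by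
    rw [hrel, norm_neg]
    exact (norm_sum_le _ _).trans (Finset.sum_le_sum hlow)
  calc ‖L.Op h b v‖ ≤ Ck * h * ‖L.orb v 0‖ +
        ∑ l ∈ Finset.range k, ‖P.coeff l‖ * (C l + L.Cw * Wn (bl l)) * h * ‖L.orb v 0‖ := by
        linarith
    _ = (Ck + ∑ l ∈ Finset.range k, ‖P.coeff l‖ * (C l + L.Cw * Wn (bl l))) * h *
        ‖L.orb v 0‖ := by
        rw [add_mul, add_mul, Finset.sum_mul, Finset.sum_mul]

end Pool.Agent.H913.SG
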