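import Pool.Agent.H913.SG.Stmts2

open MeasureTheory Matrix NormedSpace
open scoped SchwartzMap ContDiff FourierTransform Matrix

universe u v

namespace Pool.Agent.H913.SG

/-- The derivatives of order at most `n` of `f` at `x` are bounded by `B`. -/
def dPartition_Bd {d : ℕ} (n : ℕ) (f : EE d → ℂ) (x : EE d) (B : ℝ) : Prop :=
  ∀ k ≤ n, ‖iteratedFDeriv ℝ k f x‖ ≤ B

theorem dPartition_nonneg {d n : ℕ} {f : EE d → ℂ} {x : EE d} {B : ℝ}
    (h : dPartition_Bd n f x B) : 0 ≤ B := (norm_nonneg _).trans (h 0 (Nat.zero_le _))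

theorem dPartition_mul {d n : ℕ} {f g : EE d → ℂ} {x : EE d} {A B : ℝ} (hf : ContDiff ℝ ∞ f)
    (hg : ContDiff ℝ ∞ g) (h1 : dPartition_Bd n f x A) (h2 : dPartition_Bd n g x B) :
    dPartition_Bd n (fun y => f y * g y) x (2 ^ n * (A * B)) := by
  intro k hk
  have hA : 0 ≤ A := dPartition_nonneg h1
  have hB : 0 ≤ B := dPartition_nonneg h2
  calc ‖iteratedFDeriv ℝ k (fun y => f y * g y) x‖
      ≤ ∑ i ∈ Finset.range (k + 1), (k.choose i : ℝ) * ‖iteratedFDeriv ℝ i f x‖ *
          ‖iteratedFDeriv ℝ (k - i) g x‖ :=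
        norm_iteratedFDeriv_mul_le hf hg x (by exact_mod_cast le_top)
    _ ≤ ∑ i ∈ Finset.range (k + 1), (k.choose i : ℝ) * (A * B) := by
        refine Finset.sum_le_sum (fun i hi => ?_)
        rw [mul_assoc]
        have hi' : i ≤ k := Nat.lt_succ_iff.mp (Finset.mem_range.mp hi)
        exact mul_le_mul_of_nonneg_left
          (mul_le_mul (h1 i (hi'.trans hk)) (h2 _ ((Nat.sub_le _ _).trans hk)) (norm_nonneg _) hA)
          (Nat.cast_nonneg _)
    _ = 2 ^ k * (A * B) := by
        rw [← Finset.sum_mul, ← Nat.cast_sum, Nat.sum_range_choose]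
        push_cast
        ring
    _ ≤ _ := mul_le_mul_of_nonneg_right (pow_le_pow_right₀ (by norm_num) hk) (mul_nonneg hA hB)

theorem dPartition_const {d n : ℕ} (a : ℂ) (x : EE d) :
    dPartition_Bd n (fun _ : EE d => a) x ‖a‖ := by
  intro k _
  rcases Nat.eq_zero_or_pos k with rfl | hk
  · simp
  · rw [iteratedFDeriv_const_of_ne (by omega)]
    simp

theorem dPartition_aff {d n : ℕ} (L : EE d →L[ℝ] ℂ) (a : ℂ) (x : EE d) (B : ℝ)
    (h0 : ‖a + L x‖ ≤ B) (h1 : ‖L‖ ≤ B) : dPartition_Bd n (fun y => a + L y) x B := by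
  intro k _
  cases k with
  | zero => simpa using h0
  | succ k =>
    rw [← norm_iteratedFDeriv_fderiv]
    have h2 : fderiv ℝ (fun y => a + L y) = fun _ => L := by
      funext y
      rw [fderiv_const_add]
      exact L.fderiv
    rw [h2]
    cases k with
    | zero => simpa using h1
    | succ k =>
      rw [iteratedFDeriv_const_of_ne (by omega)]
      simpa using (norm_nonneg _).trans h1

theorem dPartition_prod {d n : ℕ} (s : ℕ) (g : Fin s → EE d → ℂ) (hg : ∀ i, ContDiff ℝ ∞ (g i))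
    (x : EE d) (A : ℝ) (h : ∀ i, dPartition_Bd n (g i) x A) :
    dPartition_Bd n (fun y => ∏ i, g i y) x ((2 ^ n * A) ^ s) ∧
      ContDiff ℝ ∞ (fun y => ∏ i, g i y) := by
  induction s with
  | zero =>
    refine ⟨?_, ?_⟩
    · simpa using dPartition_const (n := n) 1 x
    · simpa using contDiff_const
  | succ s ih =>
    obtain ⟨h1, h2⟩ := ih (fun i => g i.succ) (fun i => hg _) (fun i => h _)
    simp only [Fin.prod_univ_succ]
    refine ⟨?_, (hg 0).mul h2⟩
    have h3 := dPartition_mul (hg 0) h2 (h 0) h1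
    have h4 : (2 ^ n * A) ^ (s + 1) = 2 ^ n * (A * (2 ^ n * A) ^ s) := by ring
    rw [h4]
    exact h3

theorem dPartition_comp {d n : ℕ} (chi : 𝓢(EE d, ℂ)) (X : ℝ)
    (hX : ∀ k ≤ n, ∀ y, ‖iteratedFDeriv ℝ k chi y‖ ≤ X) (δ : ℝ) (hδ : 0 < δ) (hδ1 : δ ≤ 1)
    (t x : EE d) : dPartition_Bd n (fun y => chi (δ • (y + t))) x X := by
  intro k hk
  have e : (fun y => chi (δ • (y + t))) =
      fun z => ((chi : EE d → ℂ) ∘ (δ • ContinuousLinearMap.id ℝ (EE d))) (z + t) := by
    funext y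
    simp
  rw [e, iteratedFDeriv_comp_add_right,
    ContinuousLinearMap.iteratedFDeriv_comp_right _ (chi.smooth ⊤) _ (by exact_mod_cast le_top)]
  refine (ContinuousMultilinearMap.norm_compContinuousLinearMap_le _ _).trans ?_
  have h1 : ‖δ • ContinuousLinearMap.id ℝ (EE d)‖ ≤ 1 := by
    rw [norm_smul, Real.norm_of_nonneg hδ.le]
    calc δ * ‖ContinuousLinearMap.id ℝ (EE d)‖ ≤ 1 * 1 :=
          mul_le_mul hδ1 ContinuousLinearMap.norm_id_le (norm_nonneg _) zero_le_one
      _ = 1 := one_mul _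
  have h2 : ∏ _i : Fin k, ‖δ • ContinuousLinearMap.id ℝ (EE d)‖ ≤ 1 :=
    Finset.prod_le_one (fun _ _ => norm_nonneg _) (fun _ _ => h1)
  calc _ ≤ X * 1 := mul_le_mul (hX k hk _) h2
          (Finset.prod_nonneg (fun _ _ => norm_nonneg _)) ((norm_nonneg _).trans (hX k hk x))
    _ = X := mul_one _

theorem dPartition_schwartz {d : ℕ} (n : ℕ) (f : 𝓢(EE d, ℂ)) :
    ∃ X : ℝ, 0 ≤ X ∧ ∀ k ≤ n, ∀ y, ‖iteratedFDeriv ℝ k f y‖ ≤ X := by
  choose C hC using fun k => f.decay 0 k
  refine ⟨∑ k ∈ Finset.range (n + 1), C k, Finset.sum_nonneg (fun k _ => (hC k).1.le), ?_⟩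
  intro k hk y
  have h1 := (hC k).2 y
  simp only [pow_zero, one_mul] at h1
  exact h1.trans (Finset.single_le_sum (f := C) (fun k _ => (hC k).1.le)
    (Finset.mem_range.mpr (Nat.lt_succ_of_le hk)))

theorem dPartition_norm {d : ℕ} (x : EE d) (h : ∀ i, |x i| ≤ 1) : ‖x‖ ≤ Real.sqrt d := by
  rw [EuclideanSpace.norm_eq]
  refine Real.sqrt_le_sqrt ?_
  calc ∑ i, ‖x i‖ ^ 2 ≤ ∑ _i : Fin d, (1 : ℝ) := by
        refine Finset.sum_le_sum (fun i _ => ?_)
        rw [Real.norm_eq_abs]
        exact pow_le_one₀ (abs_nonneg _) (h i)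
    _ = d := by simp

theorem dPartition_toS {d : ℕ} {f : EE d → ℂ} (h₁ : HasCompactSupport f) (h₂ : ContDiff ℝ ∞ f)
    (x : EE d) : h₁.toSchwartzMap h₂ x = f x := rfl

/-- TARGET -/
theorem partition (h1 : S_psi) (h2 : S_Wn_C) (h3 : S_Wn_dil) : S_partition := by
  classical
  intro d chi1 hchi
  obtain ⟨ψ, hψs, hψsupp, hψ0, hψsum⟩ := h1 d
  have hψc : HasCompactSupport (fun x => (ψ x : ℂ)) :=
    HasCompactSupport.intro (isCompact_closedBall (0 : EE d) (Real.sqrt d)) (fun x hx => by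
      by_contra h
      apply hx
      rw [mem_closedBall_zero_iff]
      exact dPartition_norm x (hψsupp x (fun h' => h (by rw [h']; simp))))
  have hψs' : ContDiff ℝ ∞ (fun x => (ψ x : ℂ)) := Complex.ofRealCLM.contDiff.comp hψs
  obtain ⟨X, hX0, hX⟩ := dPartition_schwartz (d + 1) chi1
  obtain ⟨Yb, hY0, hYb⟩ := dPartition_schwartz (d + 1) (hψc.toSchwartzMap hψs')
  obtain ⟨C, hC0, hC⟩ := h2 d (Real.sqrt d)
  have hchic : HasCompactSupport (chi1 : EE d → ℂ) :=
    IsCompact.of_isClosed_subset (isCompact_closedBall _ _) (isClosed_tsupport _) hchi.supp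
  refine ⟨fun s => C * (2 ^ (d + 1) * ((2 ^ (d + 1) *
    ((2 ^ (d + 1) * (1 + 2 * Real.sqrt d)) ^ s * X)) * Yb)) + 9 ^ d, fun s => by positivity, ?_⟩
  intro NN hNN δ hδ hδ1
  have hδi : 1 ≤ δ⁻¹ := (one_le_inv₀ hδ).mpr hδ1
  set tr : (Fin d → ℤ) → EE d := fun J => WithLp.toLp 2 (fun i => (J i : ℝ)) with htr
  set Cube : (Fin d → ℤ) → Set (EE d) := fun J => {ξ | ∀ i, |(δ⁻¹ • ξ - tr J) i| ≤ 1} with hCube
  have hCubeC : ∀ J, IsClosed (Cube J) := by
    intro J
    have : Cube J = ⋂ i, {ξ | |(δ⁻¹ • ξ - tr J) i| ≤ 1} := by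
      ext ξ
      simp [hCube]
    rw [this]
    refine isClosed_iInter (fun i => isClosed_le ?_ continuous_const)
    fun_prop
  have hψC : ∀ J ξ, ψ (δ⁻¹ • ξ - tr J) ≠ 0 → ξ ∈ Cube J := fun J ξ h => hψsupp _ h
  set K : ℤ := ⌊4 * δ⁻¹⌋ with hK
  have hK0 : 0 ≤ K := Int.floor_nonneg.mpr (by positivity)
  set T : Finset (Fin d → ℤ) := Fintype.piFinset (fun _ : Fin d => Finset.Icc (-K) K) with hT
  have hTmem : ∀ J ξ, ξ ∈ Cube J → ‖ξ‖ ≤ 3 → J ∈ T := by
    intro J ξ hξ hn
    rw [hT, Fintype.mem_piFinset]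
    intro i
    rw [Finset.mem_Icc]
    have h4 := hξ i
    simp only [PiLp.sub_apply, PiLp.smul_apply, smul_eq_mul, htr] at h4
    have h5 : |ξ i| ≤ 3 := by
      have := (EuclideanSpace.norm_eq ξ)
      have h6 : ‖ξ i‖ ≤ ‖ξ‖ := PiLp.norm_apply_le ξ i
      rw [Real.norm_eq_abs] at h6
      exact h6.trans hn
    rw [abs_le] at h4 h5
    have h7 : δ⁻¹ * ξ i ≤ 3 * δ⁻¹ := by nlinarith
    have h8 : -(3 * δ⁻¹) ≤ δ⁻¹ * ξ i := by nlinarith
    constructor
    · have h9 : -J i ≤ K := by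
        rw [hK, Int.le_floor]
        push_cast
        linarith
      omega
    · rw [hK, Int.le_floor]
      linarith
  set S : Finset (Fin d → ℤ) :=
    T.filter (fun J => (Cube J ∩ NN ∩ Metric.closedBall 0 3).Nonempty) with hS
  have hScard : (S.card : ℝ) ≤ 9 ^ d * (δ⁻¹) ^ d := by
    have h4 : S.card ≤ T.card := Finset.card_filter_le _ _
    have h5 : T.card = (K + 1 - -K).toNat ^ d := by
      rw [hT, Fintype.card_piFinset_const, Int.card_Icc]
    have h6 : (((K + 1 - -K).toNat : ℕ) : ℝ) ≤ 9 * δ⁻¹ := by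
      have h7 : (((K + 1 - -K).toNat : ℕ) : ℤ) = 2 * K + 1 := by
        rw [Int.toNat_of_nonneg (by omega)]
        ring
      have h8 : (((K + 1 - -K).toNat : ℕ) : ℝ) = 2 * (K : ℝ) + 1 := by exact_mod_cast h7
      have h9 : (K : ℝ) ≤ 4 * δ⁻¹ := Int.floor_le _
      linarith
    calc (S.card : ℝ) ≤ (T.card : ℝ) := by exact_mod_cast h4
      _ = (((K + 1 - -K).toNat : ℕ) : ℝ) ^ d := by rw [h5]; push_cast; rfl
      _ ≤ (9 * δ⁻¹) ^ d := pow_le_pow_left₀ (Nat.cast_nonneg _) h6 _
      _ = _ := mul_pow _ _ _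
  have hac : ∀ J : Fin d → ℤ,
      HasCompactSupport (fun ξ => chi1 ξ * (ψ (δ⁻¹ • ξ - tr J) : ℂ)) := fun J => hchic.mul_right
  have has : ∀ J : Fin d → ℤ,
      ContDiff ℝ ∞ (fun ξ => chi1 ξ * (ψ (δ⁻¹ • ξ - tr J) : ℂ)) := by
    intro J
    refine (chi1.smooth ⊤).mul (hψs'.comp (f := fun ξ : EE d => δ⁻¹ • ξ - tr J) ?_)
    fun_prop
  have hpe : ∀ J : S, (Cube J ∩ NN ∩ Metric.closedBall 0 3).Nonempty :=
    fun J => (Finset.mem_filter.mp J.2).2
  choose p hp using hpe
  -- the basic estimate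
  have hmain : ∀ (J : S) (s : ℕ) (Y : Fin s → EE d) (η : ℝ), 0 < η →
      (∀ i, |inner ℝ (p J) (Y i)| ≤ η) → (∀ i, δ * ‖Y i‖ ≤ η) →
      ∀ c : 𝓢(EE d, ℂ), (∀ ξ, c ξ = (∏ i, (inner ℝ ξ (Y i) : ℂ)) *
        (chi1 ξ * (ψ (δ⁻¹ • ξ - tr J) : ℂ))) →
      Wn c ≤ C * (2 ^ (d + 1) * ((2 ^ (d + 1) *
        ((2 ^ (d + 1) * (1 + 2 * Real.sqrt d)) ^ s * X)) * Yb)) * η ^ s := by
    intro J s Y η hη hY1 hY2 c hc
    set t : EE d := tr J with ht
    set g : Fin s → EE d → ℂ := fun i x => ((inner ℝ (δ • (x + t)) (Y i) : ℝ) : ℂ) with hg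
    have hgs : ∀ i, ContDiff ℝ ∞ (g i) := by
      intro i
      have h4 : ContDiff ℝ ∞ (fun x : EE d => δ • (x + t)) := by fun_prop
      have h5 : ContDiff ℝ ∞ (fun x : EE d => (inner ℝ (δ • (x + t)) (Y i) : ℝ)) :=
        ContDiff.inner ℝ h4 contDiff_const
      exact Complex.ofRealCLM.contDiff.comp h5
    have hprod_s : ContDiff ℝ ∞ (fun y => ∏ i, g i y) := by
      refine contDiff_prod (fun i _ => hgs i)
    have hchis : ContDiff ℝ ∞ (fun y => chi1 (δ • (y + t))) := by
      refine (chi1.smooth ⊤).comp (f := fun y : EE d => δ • (y + t)) ?_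
      fun_prop
    have hcc : HasCompactSupport
        (fun x => ((∏ i, g i x) * chi1 (δ • (x + t))) * (ψ x : ℂ)) := hψc.mul_left
    have hcs : ContDiff ℝ ∞ (fun x => ((∏ i, g i x) * chi1 (δ • (x + t))) * (ψ x : ℂ)) :=
      (hprod_s.mul hchis).mul hψs'
    have hdil := h3 d c (hcc.toSchwartzMap hcs) δ t hδ (by
      intro x
      rw [hc]
      have : δ⁻¹ • δ • (x + t) - t = x := by
        rw [smul_smul, inv_mul_cancel₀ hδ.ne', one_smul, add_sub_cancel_right]
      rw [this]
      simp only [dPartition_toS, hg]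
      ring)
    rw [← hdil]
    have hpt : ∀ x, ‖x‖ ≤ Real.sqrt d → dPartition_Bd (d + 1)
        (fun x => ((∏ i, g i x) * chi1 (δ • (x + t))) * (ψ x : ℂ)) x
        (2 ^ (d + 1) * ((2 ^ (d + 1) *
          ((2 ^ (d + 1) * ((1 + 2 * Real.sqrt d) * η)) ^ s * X)) * Yb)) := by
      intro x hx
      have hg1 : ∀ i, dPartition_Bd (d + 1) (g i) x ((1 + 2 * Real.sqrt d) * η) := by
        intro i
        have e : g i = fun y => ((inner ℝ (δ • t) (Y i) : ℝ) : ℂ) +
            (Complex.ofRealCLM.comp (δ • innerSL ℝ (Y i))) y := by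
          funext y
          simp only [hg, smul_add, inner_add_left, inner_smul_left, ContinuousLinearMap.comp_apply,
            ContinuousLinearMap.smul_apply, innerSL_apply_apply, Complex.ofRealCLM_apply,
            real_inner_comm (Y i) y]
          simp
          ring
        rw [e]
        refine dPartition_aff _ _ _ _ ?_ ?_
        · have e2 := congrFun e x
          rw [← e2]
          simp only [hg, Complex.norm_real, Real.norm_eq_abs]
          set x0 : EE d := δ⁻¹ • p J - t with hx0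
          have hx0n : ‖x0‖ ≤ Real.sqrt d := dPartition_norm _ ((hp J).1.1)
          have hpJ : p J = δ • (x0 + t) := by
            rw [hx0, sub_add_cancel, smul_smul, mul_inv_cancel₀ hδ.ne', one_smul]
          have e3 : inner ℝ (δ • (x + t)) (Y i) =
              inner ℝ (p J) (Y i) + inner ℝ (δ • (x - x0)) (Y i) := by
            rw [← inner_add_left, hpJ, ← smul_add]
            congr 2
            abel
          rw [e3]
          have e4 : |inner ℝ (δ • (x - x0)) (Y i)| ≤ 2 * Real.sqrt d * η := by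
            calc |inner ℝ (δ • (x - x0)) (Y i)| ≤ ‖δ • (x - x0)‖ * ‖Y i‖ :=
                  abs_real_inner_le_norm _ _
              _ = ‖x - x0‖ * (δ * ‖Y i‖) := by
                  rw [norm_smul, Real.norm_of_nonneg hδ.le]; ring
              _ ≤ (2 * Real.sqrt d) * η := by
                  refine mul_le_mul ?_ (hY2 i) (by positivity) (by positivity)
                  calc ‖x - x0‖ ≤ ‖x‖ + ‖x0‖ := norm_sub_le _ _
                    _ ≤ _ := by linarith
          calc _ ≤ |inner ℝ (p J) (Y i)| + |inner ℝ (δ • (x - x0)) (Y i)| := abs_add_le _ _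
            _ ≤ η + 2 * Real.sqrt d * η := add_le_add (hY1 i) e4
            _ = _ := by ring
        · have e5 : ‖Complex.ofRealCLM.comp (δ • innerSL ℝ (Y i))‖ ≤ δ * ‖Y i‖ := by
            refine ContinuousLinearMap.opNorm_le_bound _ (by positivity) (fun y => ?_)
            simp only [ContinuousLinearMap.comp_apply, ContinuousLinearMap.smul_apply,
              innerSL_apply_apply, Complex.ofRealCLM_apply, Complex.norm_real, norm_smul,
              Real.norm_eq_abs, abs_of_pos hδ, smul_eq_mul, abs_mul]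
            calc δ * |inner ℝ (Y i) y| ≤ δ * (‖Y i‖ * ‖y‖) :=
                  mul_le_mul_of_nonneg_left (abs_real_inner_le_norm _ _) hδ.le
              _ = _ := by ring
          have e6 : 0 ≤ Real.sqrt d * η := by positivity
          calc _ ≤ δ * ‖Y i‖ := e5
            _ ≤ η := hY2 i
            _ ≤ (1 + 2 * Real.sqrt d) * η := by nlinarith
      have hP := (dPartition_prod s g hgs x _ hg1).1
      have hQ := dPartition_comp chi1 X hX δ hδ hδ1 t x
      have hR : dPartition_Bd (d + 1) (fun x => (ψ x : ℂ)) x Yb := fun k hk => hYb k hk x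
      exact dPartition_mul (hprod_s.mul hchis) hψs' (dPartition_mul hprod_s hchis hP hQ) hR
    have hfin := hC (hcc.toSchwartzMap hcs) (2 ^ (d + 1) * ((2 ^ (d + 1) *
          ((2 ^ (d + 1) * ((1 + 2 * Real.sqrt d) * η)) ^ s * X)) * Yb)) (by
        intro x hx
        simp only [dPartition_toS] at hx
        refine dPartition_norm x (hψsupp x (fun h => hx ?_))
        rw [h]
        simp) (by
        intro k hk x
        by_cases hx : ‖x‖ ≤ Real.sqrt d
        · exact hpt x hx k hk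
        · have h0 : iteratedFDeriv ℝ k (hcc.toSchwartzMap hcs : EE d → ℂ) x = 0 := by
            refine image_eq_zero_of_notMem_tsupport (fun hmem => hx ?_)
            have h4 := tsupport_iteratedFDeriv_subset (𝕜 := ℝ) k hmem
            have h5 : tsupport (hcc.toSchwartzMap hcs : EE d → ℂ) ⊆
                Metric.closedBall 0 (Real.sqrt d) := by
              refine closure_minimal (fun y hy => ?_) Metric.isClosed_closedBall
              rw [mem_closedBall_zero_iff]
              refine dPartition_norm y (hψsupp y (fun h => hy ?_))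
              simp only [dPartition_toS]
              rw [h]
              simp
            have h6 := h5 h4
            rwa [mem_closedBall_zero_iff] at h6
          rw [h0, norm_zero]
          positivity)
    refine hfin.trans (le_of_eq ?_)
    rw [← mul_assoc (2 ^ (d + 1) : ℝ) (1 + 2 * Real.sqrt d) η, mul_pow _ η s]
    ring
  refine ⟨S.card, fun j => (hac (S.equivFin.symm j)).toSchwartzMap (has _),
    fun j => p (S.equivFin.symm j), ?_, ?_, ?_, ?_, ?_⟩
  · refine hScard.trans (mul_le_mul_of_nonneg_right ?_ (by positivity))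
    have : 0 ≤ C * (2 ^ (d + 1) * ((2 ^ (d + 1) *
      ((2 ^ (d + 1) * (1 + 2 * Real.sqrt d)) ^ 0 * X)) * Yb)) := by positivity
    linarith
  · intro j
    have := hp (S.equivFin.symm j)
    exact ⟨this.1.2, by simpa using this.2⟩
  · intro b hb
    have hsumS : ∀ ξ, ∑ j, (hac (S.equivFin.symm j)).toSchwartzMap (has _) ξ =
        chi1 ξ * ((∑ J ∈ S, ψ (δ⁻¹ • ξ - tr J) : ℝ) : ℂ) := by
      intro ξ
      simp only [dPartition_toS]
      rw [Equiv.sum_comp S.equivFin.symm (fun J : S => chi1 ξ * (ψ (δ⁻¹ • ξ - tr J) : ℂ)),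
        Finset.sum_coe_sort S (fun J => chi1 ξ * (ψ (δ⁻¹ • ξ - tr J) : ℂ)), ← Finset.mul_sum]
      push_cast
      rfl
    have hsupp : Function.support (b : EE d → ℂ) ⊆
        Metric.closedBall 0 2 ∩ ⋃ J ∈ (T \ S : Finset (Fin d → ℤ)), Cube J := by
      intro ξ hξ
      have hbξ := hb ξ
      rw [hsumS] at hbξ
      have h4 : chi1 ξ ≠ 0 := by
        intro h
        apply hξ
        rw [hbξ, h]
        simp
      have h5 : ξ ∈ Metric.closedBall (0 : EE d) 2 := hchi.supp (subset_tsupport _ h4)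
      refine ⟨h5, ?_⟩
      by_contra hcon
      simp only [Set.mem_iUnion, not_exists] at hcon
      have h6 : Function.support (fun J : Fin d → ℤ => ψ (δ⁻¹ • ξ - tr J)) ⊆ S := by
        intro J hJ
        have h7 := hψC J ξ hJ
        have h8 : J ∈ T := hTmem J ξ h7 (by
          rw [mem_closedBall_zero_iff] at h5
          linarith)
        by_contra hJS
        exact hcon J (Finset.mem_sdiff.mpr ⟨h8, hJS⟩) h7
      have h9 := hψsum (δ⁻¹ • ξ)
      have h10 := finsum_eq_sum_of_support_subset (fun J : Fin d → ℤ => ψ (δ⁻¹ • ξ - tr J)) h6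
      rw [htr] at h10
      rw [h10] at h9
      apply hξ
      rw [hbξ, htr, h9]
      simp
    have hclosed : IsClosed
        (Metric.closedBall (0 : EE d) 2 ∩ ⋃ J ∈ (T \ S : Finset (Fin d → ℤ)), Cube J) := by
      refine Metric.isClosed_closedBall.inter ?_
      exact Set.Finite.isClosed_biUnion (Finset.finite_toSet _) (fun J _ => hCubeC J)
    have htsupp := closure_minimal hsupp hclosed
    refine ⟨IsCompact.of_isClosed_subset (isCompact_closedBall (0 : EE d) 2) (isClosed_tsupport _)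
      (htsupp.trans Set.inter_subset_left), ?_⟩
    rw [Set.disjoint_left]
    intro ξ hξ hξN
    obtain ⟨h4, h5⟩ := htsupp hξ
    simp only [Set.mem_iUnion] at h5
    obtain ⟨J, hJ, hξJ⟩ := h5
    rw [Finset.mem_sdiff] at hJ
    apply hJ.2
    rw [hS, Finset.mem_filter]
    refine ⟨hJ.1, ξ, ⟨hξJ, hξN⟩, ?_⟩
    rw [mem_closedBall_zero_iff] at h4 ⊢
    linarith
  · intro j
    have h4 := hmain (S.equivFin.symm j) 0 Fin.elim0 1 one_pos (fun i => i.elim0)
      (fun i => i.elim0) ((hac (S.equivFin.symm j)).toSchwartzMap (has _)) (fun ξ => by simp)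
    rw [pow_zero 1, mul_one] at h4
    have : (0 : ℝ) ≤ 9 ^ d := by positivity
    linarith
  · intro j s Y η hη hY1 hY2 c hc
    have h4 := hmain (S.equivFin.symm j) s Y η hη hY1 hY2 c (fun ξ => by
      rw [hc]
      simp only [dPartition_toS])
    refine h4.trans (mul_le_mul_of_nonneg_right ?_ (by positivity))
    have : (0 : ℝ) ≤ 9 ^ d := by positivity
    linarith

end Pool.Agent.H913.SG
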