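import Pool.Agent.H913.SG.Stmts2

open MeasureTheory Matrix NormedSpace
open scoped SchwartzMap ContDiff FourierTransform Matrix

universe u v

namespace Pool.Agent.H913.SG

/-- the one-dimensional bump whose integer translates sum to one -/
noncomputable def dPsi_theta (t : ℝ) : ℝ := Real.smoothTransition (t + 1) - Real.smoothTransition t

theorem dPsi_theta_contDiff : ContDiff ℝ ∞ dPsi_theta := by
  unfold dPsi_theta
  exact (Real.smoothTransition.contDiff.comp (contDiff_id.add contDiff_const)).sub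
    Real.smoothTransition.contDiff

theorem dPsi_theta_nonneg (t : ℝ) : 0 ≤ dPsi_theta t := by
  unfold dPsi_theta
  have := Real.smoothTransition.monotone (by linarith : t ≤ t + 1)
  linarith

theorem dPsi_theta_abs {t : ℝ} (h : dPsi_theta t ≠ 0) : |t| < 1 := by
  by_contra hc
  apply h
  unfold dPsi_theta
  rcases le_abs.1 (not_lt.1 hc) with h1 | h1
  · rw [Real.smoothTransition.one_of_one_le h1, Real.smoothTransition.one_of_one_le (by linarith)]
    ring
  · rw [Real.smoothTransition.zero_of_nonpos (by linarith : t ≤ 0),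
      Real.smoothTransition.zero_of_nonpos (by linarith : t + 1 ≤ 0)]
    ring

theorem dPsi_theta_sum (t : ℝ) :
    ∑ j ∈ ({⌊t⌋, ⌊t⌋ + 1} : Finset ℤ), dPsi_theta (t - j) = 1 := by
  rw [Finset.sum_pair (by omega)]
  have h0 := Int.floor_le t
  have h1 := Int.lt_floor_add_one t
  unfold dPsi_theta
  push_cast
  rw [Real.smoothTransition.one_of_one_le (by linarith : 1 ≤ t - ⌊t⌋ + 1),
    Real.smoothTransition.zero_of_nonpos (by linarith : t - (⌊t⌋ + 1) ≤ 0)]
  have : t - (⌊t⌋ + 1 : ℝ) + 1 = t - ⌊t⌋ := by ring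
  rw [this]
  ring

theorem dPsi_theta_mem {t : ℝ} {j : ℤ} (h : dPsi_theta (t - j) ≠ 0) :
    j ∈ ({⌊t⌋, ⌊t⌋ + 1} : Finset ℤ) := by
  have h1 := abs_lt.1 (dPsi_theta_abs h)
  have h2 : j ≤ ⌊t⌋ + 1 := by
    have : (j : ℝ) < (⌊t⌋ : ℝ) + 1 + 1 := by
      have := Int.lt_floor_add_one t
      linarith [h1.1]
    exact_mod_cast Int.lt_add_one_iff.1 (by exact_mod_cast this)
  have h3 : ⌊t⌋ ≤ j := by
    have h4 := Int.floor_le t
    have : (⌊t⌋ : ℝ) < j + 1 := by linarith [h1.2]
    exact Int.lt_add_one_iff.1 (by exact_mod_cast this)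
  simp only [Finset.mem_insert, Finset.mem_singleton]
  omega

/-- TARGET 1 -/
theorem psi_exists : S_psi := by
  intro d
  refine ⟨fun x => ∏ i, dPsi_theta (x i), ?_, ?_, ?_, ?_⟩
  · apply contDiff_prod
    intro i _
    exact dPsi_theta_contDiff.comp (EuclideanSpace.proj i : EE d →L[ℝ] ℝ).contDiff
  · intro x hx i
    rw [Finset.prod_ne_zero_iff] at hx
    exact (dPsi_theta_abs (hx i (Finset.mem_univ i))).le
  · intro x
    exact Finset.prod_nonneg fun i _ => dPsi_theta_nonneg _
  · intro x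
    classical
    rw [finsum_eq_sum_of_support_subset (s := Fintype.piFinset (fun i => ({⌊x i⌋, ⌊x i⌋ + 1} : Finset ℤ)))]
    · have h := Finset.prod_univ_sum (fun i => ({⌊x i⌋, ⌊x i⌋ + 1} : Finset ℤ))
        (fun i (j : ℤ) => dPsi_theta (x i - j))
      simp only [PiLp.sub_apply]
      rw [← h]
      exact Finset.prod_eq_one fun i _ => dPsi_theta_sum _
    · intro J hJ
      simp only [Function.mem_support, PiLp.sub_apply, ne_eq, Finset.prod_ne_zero_iff] at hJ
      simp only [Finset.mem_coe, Fintype.mem_piFinset]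
      intro i
      exact dPsi_theta_mem (hJ i (Finset.mem_univ i))

/-- TARGET 2 -/
theorem chi1_exists : S_chi1 := by
  intro d
  let f : ContDiffBump (0 : EE d) := ⟨1, 2, zero_lt_one, one_lt_two⟩
  have h1 : ContDiff ℝ ∞ (fun x : EE d => ((f x : ℝ) : ℂ)) :=
    Complex.ofRealCLM.contDiff.comp f.contDiff
  have h2 : HasCompactSupport (fun x : EE d => ((f x : ℝ) : ℂ)) :=
    f.hasCompactSupport.comp_left Complex.ofReal_zero
  refine ⟨h2.toSchwartzMap h1, ?_, ?_⟩
  · have h3 : tsupport (fun x : EE d => ((f x : ℝ) : ℂ)) ⊆ tsupport f :=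
      tsupport_comp_subset Complex.ofReal_zero f
    rw [f.tsupport_eq] at h3
    exact h3
  · intro ξ hξ
    have : f ξ = 1 := f.one_of_mem_closedBall (by simpa [f] using hξ)
    simp [this]

end Pool.Agent.H913.SG
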