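import Pool.Agent.H913.SG.Stmts2

open MeasureTheory Matrix NormedSpace
open scoped SchwartzMap ContDiff FourierTransform Matrix

universe u v

namespace Pool.Agent.H913.SG

/-! ### Wiener norm and derivatives -/

theorem dWn_support {d : ℕ} {R : ℝ} (c : 𝓢(EE d, ℂ)) (hc : ∀ x, c x ≠ 0 → ‖x‖ ≤ R) (k : ℕ) (x : EE d)
    (hx : x ∉ Metric.closedBall (0 : EE d) R) : iteratedFDeriv ℝ k c x = 0 := by
  by_contra h
  apply hx
  have h1 : x ∈ tsupport c := support_iteratedFDeriv_subset (𝕜 := ℝ) k h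
  have h2 : tsupport c ⊆ Metric.closedBall (0 : EE d) R := by
    apply closure_minimal _ Metric.isClosed_closedBall
    intro y hy
    rw [mem_closedBall_zero_iff]
    exact hc y hy
  exact h2 h1

theorem dWn_int {d : ℕ} {R B : ℝ} (c : 𝓢(EE d, ℂ)) (hc : ∀ x, c x ≠ 0 → ‖x‖ ≤ R) (k : ℕ)
    (hB : ∀ x, ‖iteratedFDeriv ℝ k c x‖ ≤ B) :
    ∫ x, ‖iteratedFDeriv ℝ k c x‖ ≤ B * (volume : Measure (EE d)).real (Metric.closedBall 0 R) := by
  have h1 : ∫ x, ‖iteratedFDeriv ℝ k c x‖ =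
      ∫ x in Metric.closedBall (0 : EE d) R, ‖iteratedFDeriv ℝ k c x‖ := by
    rw [setIntegral_eq_integral_of_forall_compl_eq_zero]
    intro x hx
    rw [dWn_support c hc k x hx, norm_zero]
  rw [h1]
  have h2 := norm_setIntegral_le_of_norm_le_const (μ := (volume : Measure (EE d)))
    (s := Metric.closedBall (0 : EE d) R) (f := fun x => ‖iteratedFDeriv ℝ k c x‖) (C := B)
    (isCompact_closedBall (0 : EE d) R).measure_lt_top (fun x _ => by
      rw [norm_norm]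
      exact hB x)
  exact (le_abs_self _).trans h2

theorem dWn_decay {d : ℕ} {R B : ℝ} (c : 𝓢(EE d, ℂ)) (hc : ∀ x, c x ≠ 0 → ‖x‖ ≤ R)
    (hB : ∀ k ≤ d + 1, ∀ x, ‖iteratedFDeriv ℝ k c x‖ ≤ B) {n : ℕ} (hn : n ≤ d + 1) (w : EE d) :
    ‖w‖ ^ n * ‖(𝓕 c) w‖ ≤ 2 ^ (d + 1) * ((d + 2) *
      (B * (volume : Measure (EE d)).real (Metric.closedBall 0 R))) := by
  have hB0 : 0 ≤ B := (norm_nonneg _).trans (hB 0 (Nat.zero_le _) 0)
  have hV : 0 ≤ B * (volume : Measure (EE d)).real (Metric.closedBall 0 R) :=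
    mul_nonneg hB0 measureReal_nonneg
  have h1 := Real.pow_mul_norm_iteratedFDeriv_fourier_le (f := (c : EE d → ℂ)) (K := 0)
    (N := (⊤ : ℕ∞)) (c.smooth ⊤)
    (fun k m _ _ => c.integrable_pow_mul_iteratedFDeriv volume k m) (k := 0) (n := n) le_rfl
    le_top w
  rw [norm_iteratedFDeriv_zero, ← SchwartzMap.fourier_coe] at h1
  refine h1.trans ?_
  rw [pow_zero, one_mul]
  have h2 : ((2 * ((0 : ℕ) : ℝ) + 2)) ^ n ≤ 2 ^ (d + 1) := by
    rw [Nat.cast_zero, mul_zero, zero_add]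
    exact pow_le_pow_right₀ (by norm_num) hn
  have h3 : ∑ p ∈ Finset.range (0 + 1) ×ˢ Finset.range (n + 1),
      ∫ v, ‖v‖ ^ p.1 * ‖iteratedFDeriv ℝ p.2 c v‖ ≤ (d + 2) *
      (B * (volume : Measure (EE d)).real (Metric.closedBall 0 R)) := by
    have h4 : ∀ p ∈ Finset.range (0 + 1) ×ˢ Finset.range (n + 1),
        ∫ v, ‖v‖ ^ p.1 * ‖iteratedFDeriv ℝ p.2 c v‖ ≤
          B * (volume : Measure (EE d)).real (Metric.closedBall 0 R) := by
      intro p hp
      rw [Finset.mem_product, Finset.mem_range, Finset.mem_range] at hp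
      have hp1 : p.1 = 0 := by omega
      simp only [hp1, pow_zero, one_mul]
      exact dWn_int c hc p.2 (hB p.2 (by omega))
    refine (Finset.sum_le_sum h4).trans ?_
    rw [Finset.sum_const, Finset.card_product, Finset.card_range, Finset.card_range, nsmul_eq_mul]
    apply mul_le_mul_of_nonneg_right _ hV
    push_cast
    have : (n : ℝ) ≤ d + 1 := by exact_mod_cast hn
    linarith
  exact mul_le_mul h2 h3 (Finset.sum_nonneg fun p _ => integral_nonneg fun v => by positivity)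
    (by positivity)

/-- TARGET 1 -/
theorem Wn_C : S_Wn_C := by
  intro d R
  set Vo : ℝ := (volume : Measure (EE d)).real (Metric.closedBall 0 R) with hVo
  have hVo0 : 0 ≤ Vo := measureReal_nonneg
  set Z : ℝ := ∫ x : EE d, (1 + ‖x‖) ^ (-((d : ℝ) + 1)) with hZ
  have hint : Integrable (fun x : EE d => (1 + ‖x‖) ^ (-((d : ℝ) + 1))) := by
    apply integrable_one_add_norm
    rw [finrank_euclideanSpace, Fintype.card_fin]
    linarith
  have hZ0 : 0 ≤ Z := integral_nonneg fun x => by positivity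
  refine ⟨2 ^ d * (2 * (2 ^ (d + 1) * ((d + 2) * Vo))) * Z, by positivity, ?_⟩
  intro c B hc hB
  have hB0 : 0 ≤ B := (norm_nonneg _).trans (hB 0 (Nat.zero_le _) 0)
  have key : ∀ x, ‖(𝓕 c) x‖ ≤ (2 ^ d * (2 * (2 ^ (d + 1) * ((d + 2) * (B * Vo))))) *
      (1 + ‖x‖) ^ (-((d : ℝ) + 1)) := by
    intro x
    have h0 := dWn_decay c hc hB (Nat.zero_le _) x
    have h1 := dWn_decay c hc hB le_rfl x
    rw [pow_zero, one_mul] at h0
    have hx : 0 < 1 + ‖x‖ := by positivity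
    have h2 : (1 + ‖x‖) ^ (d + 1) ≤ 2 ^ d * (1 + ‖x‖ ^ (d + 1)) := by
      have := add_pow_le (show (0 : ℝ) ≤ 1 by norm_num) (norm_nonneg x) (d + 1)
      simpa using this
    have h3 : (1 + ‖x‖) ^ (d + 1) * ‖(𝓕 c) x‖ ≤
        2 ^ d * (2 * (2 ^ (d + 1) * ((d + 2) * (B * Vo)))) := by
      calc (1 + ‖x‖) ^ (d + 1) * ‖(𝓕 c) x‖ ≤ (2 ^ d * (1 + ‖x‖ ^ (d + 1))) * ‖(𝓕 c) x‖ :=
            mul_le_mul_of_nonneg_right h2 (norm_nonneg _)
        _ = 2 ^ d * (‖(𝓕 c) x‖ + ‖x‖ ^ (d + 1) * ‖(𝓕 c) x‖) := by ring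
        _ ≤ 2 ^ d * (2 ^ (d + 1) * ((d + 2) * (B * Vo)) + 2 ^ (d + 1) * ((d + 2) * (B * Vo))) := by
            gcongr
        _ = _ := by ring
    have h4 : (1 + ‖x‖) ^ (-((d : ℝ) + 1)) = ((1 + ‖x‖) ^ (d + 1))⁻¹ := by
      rw [Real.rpow_neg hx.le]
      congr 1
      rw [show (d : ℝ) + 1 = ((d + 1 : ℕ) : ℝ) by push_cast; ring, Real.rpow_natCast]
    rw [h4, ← div_eq_mul_inv, le_div_iff₀ (by positivity), mul_comm]
    exact h3
  have h5 : Wn c ≤ ∫ x : EE d, (2 ^ d * (2 * (2 ^ (d + 1) * ((d + 2) * (B * Vo))))) *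
      (1 + ‖x‖) ^ (-((d : ℝ) + 1)) :=
    integral_mono ((𝓕 c).integrable.norm) (hint.const_mul _) key
  refine h5.trans (le_of_eq ?_)
  rw [integral_const_mul]
  ring

/-! ### Dilations -/

theorem dWn_fourier {d : ℕ} (c c' : 𝓢(EE d, ℂ)) (δ : ℝ) (y : EE d) (hδ : 0 < δ)
    (h : ∀ x, c' x = c (δ • (x + y))) (w : EE d) :
    ‖(𝓕 c') w‖ = |(δ ^ d)⁻¹| * ‖(𝓕 c) (δ⁻¹ • w)‖ := by
  have hδ0 : δ ≠ 0 := hδ.ne'
  rw [SchwartzMap.fourier_coe, SchwartzMap.fourier_coe, Real.fourier_eq, Real.fourier_eq]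
  let g : EE d → ℂ := fun u => Real.fourierChar (-inner ℝ (δ⁻¹ • u - y) w) • c u
  have h1 : ∫ v, Real.fourierChar (-inner ℝ v w) • c' v = ∫ v, g (δ • (v + y)) := by
    refine integral_congr_ae (Filter.Eventually.of_forall fun v => ?_)
    show Real.fourierChar (-inner ℝ v w) • c' v =
      Real.fourierChar (-inner ℝ (δ⁻¹ • (δ • (v + y)) - y) w) • c (δ • (v + y))
    rw [smul_smul, inv_mul_cancel₀ hδ0, one_smul, add_sub_cancel_right, h v]
  have h2 : ∫ v, g (δ • (v + y)) = ∫ v, g (δ • v) :=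
    integral_add_right_eq_self (fun v => g (δ • v)) y
  have h3 := Measure.integral_comp_smul (volume : Measure (EE d)) g δ
  rw [finrank_euclideanSpace, Fintype.card_fin] at h3
  have h4 : ∫ u, g u = Real.fourierChar (inner ℝ y w) •
      ∫ u, Real.fourierChar (-inner ℝ u (δ⁻¹ • w)) • c u := by
    rw [Circle.smul_def, ← integral_smul]
    refine integral_congr_ae (Filter.Eventually.of_forall fun u => ?_)
    show Real.fourierChar (-inner ℝ (δ⁻¹ • u - y) w) • c u =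
      ((Real.fourierChar (inner ℝ y w) : Circle) : ℂ) •
        (Real.fourierChar (-inner ℝ u (δ⁻¹ • w)) • c u)
    rw [← Circle.smul_def, smul_smul, ← AddChar.map_add_eq_mul]
    congr 2
    rw [inner_sub_left, inner_smul_left, inner_smul_right]
    simp [sub_eq_add_neg]
  rw [h1, h2, h3, h4, norm_smul, Real.norm_eq_abs, Circle.norm_smul, abs_abs]

/-- TARGET 2 -/
theorem Wn_dil : S_Wn_dil := by
  intro d c c' δ y hδ h
  unfold Wn
  have h1 : ∫ x, ‖(𝓕 c') x‖ = ∫ x, |(δ ^ d)⁻¹| * ‖(𝓕 c) (δ⁻¹ • x)‖ :=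
    integral_congr_ae (Filter.Eventually.of_forall fun x => dWn_fourier c c' δ y hδ h x)
  rw [h1, integral_const_mul]
  have h2 := Measure.integral_comp_smul (volume : Measure (EE d)) (fun x => ‖(𝓕 c) x‖) δ⁻¹
  rw [finrank_euclideanSpace, Fintype.card_fin] at h2
  rw [h2, smul_eq_mul, ← mul_assoc, ← abs_mul]
  have h3 : (δ ^ d)⁻¹ * (δ⁻¹ ^ d)⁻¹ = 1 := by
    have : δ ^ d ≠ 0 := pow_ne_zero _ hδ.ne'
    rw [inv_pow, inv_inv]
    exact inv_mul_cancel₀ this
  rw [h3, abs_one, one_mul]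

/-! ### Multiplication by linear functions -/

theorem dWn_growth {d : ℕ} (m : EE d) : (inner ℝ · m : EE d → ℝ).HasTemperateGrowth :=
  ((innerSL ℝ).flip m).hasTemperateGrowth

/-- TARGET 3 -/
theorem mul_lin : S_mul_lin := by
  intro d a s
  induction s with
  | zero =>
    intro Y
    exact ⟨a, fun ξ => by simp⟩
  | succ s ih =>
    intro Y
    obtain ⟨c, hc⟩ := ih (fun i => Y i.succ)
    refine ⟨SchwartzMap.smulLeftCLM ℂ (inner ℝ · (Y 0)) c, fun ξ => ?_⟩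
    rw [SchwartzMap.smulLeftCLM_apply_apply (dWn_growth (Y 0)), hc, Fin.prod_univ_succ]
    rw [Complex.real_smul]
    ring

theorem dWn_pdir {d : ℕ} (y : EE d) (A : 𝓢(EE d, ℂ)) : pdir y A = LineDeriv.lineDerivOp y A := by
  have h1 : y = ∑ j, y j • ei j := by
    ext i
    simp [ei, Pi.single_apply]
  conv_rhs => rw [h1]
  rw [LineDeriv.lineDerivOp_left_sum]
  unfold pdir pd
  refine Finset.sum_congr rfl fun j _ => ?_
  rw [LineDeriv.lineDerivOp_left_smul]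
  rw [LineDeriv.lineDerivOpCLM_apply]
  ext x
  simp

theorem dWn_foldr {d : ℕ} (a : 𝓢(EE d, ℂ)) (s : ℕ) : ∀ (Y : Fin s → EE d) (c : 𝓢(EE d, ℂ)),
    (∀ ξ, c ξ = (∏ i, (inner ℝ ξ (Y i) : ℂ)) * a ξ) →
    (List.ofFn Y).foldr (fun y B => pdir y B) (𝓕 a) =
      (-(2 * Real.pi * Complex.I)) ^ s • 𝓕 c := by
  induction s with
  | zero =>
    intro Y c hc
    have : c = a := by
      ext ξ
      rw [hc]
      simp
    rw [this]
    simp
  | succ s ih =>
    intro Y c hc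
    obtain ⟨c', hc'⟩ := mul_lin d a s (fun i => Y i.succ)
    rw [List.ofFn_succ, List.foldr_cons, ih (fun i => Y i.succ) c' hc', dWn_pdir,
      LineDeriv.lineDerivOp_smul, SchwartzMap.lineDerivOp_fourier_eq, pow_succ, mul_smul]
    congr 1
    have h2 : c = SchwartzMap.smulLeftCLM ℂ (inner ℝ · (Y 0)) c' := by
      ext ξ
      rw [SchwartzMap.smulLeftCLM_apply_apply (dWn_growth (Y 0)), hc, hc', Fin.prod_univ_succ]
      rw [Complex.real_smul]
      ring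
    rw [h2, FourierTransform.fourier_smul]

/-- TARGET 4 -/
theorem L1_pdir : S_L1_pdir := by
  intro d a c s Y hc
  rw [dWn_foldr a s Y c hc]
  unfold L1 Wn
  rw [← integral_const_mul]
  refine integral_congr_ae (Filter.Eventually.of_forall fun x => ?_)
  show ‖((-(2 * Real.pi * Complex.I)) ^ s • 𝓕 c) x‖ = (2 * Real.pi) ^ s * ‖(𝓕 c) x‖
  rw [_root_.smul_apply, norm_smul, norm_pow, norm_neg, norm_mul, norm_mul, Complex.norm_I,
    Complex.norm_real, Real.norm_of_nonneg Real.pi_pos.le]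
  simp

end Pool.Agent.H913.SG
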