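import Pool.Agent.H913.SG.Stmts2

/- PROJECT SG: MP_496a9e_al (owner helper913), the Sobolev gap is uniformly bounded. Job 1294 by helper449. -/

open MeasureTheory Matrix NormedSpace
open scoped SchwartzMap ContDiff FourierTransform Matrix

universe u v

namespace Pool.Agent.H913.SG

/-- Orthogonal matrices form a compact set of matrices. -/
theorem fCompactK_matrix (n : ℕ) : IsCompact {a : M n | aᵀ * a = 1} := by
  have hc : IsClosed {a : M n | aᵀ * a = 1} := by
    apply isClosed_eq
    · exact (Continuous.matrix_transpose continuous_id).mul continuous_id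
    · exact continuous_const
  have hbox : IsCompact ({a : M n | ∀ i j, a i j ∈ Set.Icc (-1 : ℝ) 1}) := by
    have h0 : IsCompact (Set.pi Set.univ fun _ : Fin n => Set.pi Set.univ
      fun _ : Fin n => Set.Icc (-1 : ℝ) 1) :=
      isCompact_univ_pi fun _ => isCompact_univ_pi fun _ => isCompact_Icc
    have h1 : ({a : M n | ∀ i j, a i j ∈ Set.Icc (-1 : ℝ) 1}) =
        (Set.pi Set.univ fun _ : Fin n => Set.pi Set.univ
      fun _ : Fin n => Set.Icc (-1 : ℝ) 1) := by
      ext a
      constructor
      · intro h i _ j _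
        exact h i j
      · intro h i j
        exact h i (Set.mem_univ i) j (Set.mem_univ j)
    rw [h1]
    exact h0
  refine IsCompact.of_isClosed_subset hbox hc ?_
  intro a ha i j
  have h1 : (aᵀ * a) j j = 1 := by
    have ha' : aᵀ * a = 1 := ha
    rw [ha']; simp
  have h2 : ∑ l, a l j * a l j = 1 := by
    simpa [Matrix.mul_apply] using h1
  have h3 : a i j * a i j ≤ 1 := by
    rw [← h2]
    exact Finset.single_le_sum (f := fun l => a l j * a l j)
      (fun l _ => mul_self_nonneg _) (Finset.mem_univ i)
  exact ⟨by nlinarith, by nlinarith⟩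

/-- Orthogonal matrices form a compact subset of `GL`. -/
theorem fCompactK_GL (n : ℕ) : IsCompact {g : GL (Fin n) ℝ | (g : M n)ᵀ * (g : M n) = 1} := by
  have hS := isCompact_iff_compactSpace.mp (fCompactK_matrix n)
  let f : {a : M n | aᵀ * a = 1} → GL (Fin n) ℝ := fun a =>
    ⟨a.1, a.1ᵀ, mul_eq_one_comm.mp a.2, a.2⟩
  have hf : Continuous f := by
    rw [Units.continuous_iff]
    constructor
    · exact continuous_subtype_val
    · exact Continuous.matrix_transpose continuous_subtype_val
  have hr : {g : GL (Fin n) ℝ | (g : M n)ᵀ * (g : M n) = 1} = Set.range f := by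
    ext g
    constructor
    · intro hg
      exact ⟨⟨g.1, hg⟩, Units.ext rfl⟩
    · rintro ⟨a, rfl⟩
      exact a.2
  rw [hr]
  exact isCompact_range hf

/-- An open continuous homomorphism with finite kernel is proper. -/
theorem fCompactK_proper {G H : Type} [Group G] [TopologicalSpace G] [IsTopologicalGroup G]
    [Group H] [TopologicalSpace H] [IsTopologicalGroup H] (f : G →* H) (hc : Continuous f)
    (ho : IsOpenMap f) (hk : (f.ker : Set G).Finite) : IsProperMap f := by
  rw [isProperMap_iff_isClosedMap_and_compact_fibers]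
  refine ⟨hc, ?_, ?_⟩
  · intro C hC
    have hr : IsClosed (Set.range f) := by
      have h1 : IsOpen ((f.range : Subgroup H) : Set H) := by
        rw [MonoidHom.coe_range]
        exact ho.isOpen_range
      have h2 := Subgroup.isClosed_of_isOpen _ h1
      rwa [MonoidHom.coe_range] at h2
    have hsat : f ⁻¹' (f '' C) = ⋃ k ∈ (f.ker : Set G), (fun x => x * k) '' C := by
      ext x
      simp only [Set.mem_preimage, Set.mem_image, Set.mem_iUnion, exists_prop]
      constructor
      · rintro ⟨y, hy, hyx⟩
        refine ⟨y⁻¹ * x, ?_, y, hy, by group⟩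
        simp [MonoidHom.mem_ker, hyx]
      · rintro ⟨k, hk, y, hy, rfl⟩
        refine ⟨y, hy, ?_⟩
        have : f k = 1 := hk
        simp [this]
    have hsatc : IsClosed (f ⁻¹' (f '' C)) := by
      rw [hsat]
      refine hk.isClosed_biUnion fun k _ => ?_
      exact (Homeomorph.mulRight k).isClosedMap _ hC
    have himg : f '' C = Set.range f \ f '' (f ⁻¹' (f '' C))ᶜ := by
      ext y
      constructor
      · rintro ⟨x, hx, rfl⟩
        refine ⟨⟨x, rfl⟩, ?_⟩
        rintro ⟨z, hz, hzx⟩
        exact hz ⟨x, hx, hzx.symm⟩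
      · rintro ⟨⟨x, rfl⟩, hx⟩
        by_contra hcon
        exact hx ⟨x, hcon, rfl⟩
    rw [himg]
    exact hr.sdiff (ho _ hsatc.isOpen_compl)
  · intro y
    by_cases hy : ∃ x, f x = y
    · obtain ⟨x, rfl⟩ := hy
      have : f ⁻¹' {f x} = (fun k => x * k) '' (f.ker : Set G) := by
        ext z
        simp only [Set.mem_preimage, Set.mem_singleton_iff, Set.mem_image]
        constructor
        · intro hz
          refine ⟨x⁻¹ * z, ?_, by group⟩
          simp [MonoidHom.mem_ker, hz]
        · rintro ⟨k, hk, rfl⟩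
          have : f k = 1 := hk
          simp [this]
      rw [this]
      exact (hk.image _).isCompact
    · have : f ⁻¹' {y} = ∅ := by
        ext z
        simp only [Set.mem_preimage, Set.mem_singleton_iff, Set.mem_empty_iff_false, iff_false]
        exact fun h => hy ⟨z, h⟩
      rw [this]
      exact isCompact_empty

/-- TARGET -/
theorem compactK (h1 : S_section) : S_compactK := by
  intro G _ _ _ _ _ R
  let f : G →* R.GR := R.ρ.codRestrict R.GR R.ρ_mem
  have hfc : Continuous f := R.ρ_continuous.subtype_mk _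
  have hfo : IsOpenMap f := R.isOpenMap
  have hfk : (f.ker : Set G).Finite := by
    refine R.finite_ker.subset ?_
    intro x hx
    have h : f x = 1 := hx
    have h' : (f x : GL (Fin R.n) ℝ) = 1 := by rw [h]; rfl
    exact h'
  have hp := fCompactK_proper f hfc hfo hfk
  have hGR : IsClosed (R.GR : Set (GL (Fin R.n) ℝ)) := by
    obtain ⟨S, hS⟩ := R.algebraic
    have : (R.GR : Set (GL (Fin R.n) ℝ)) = ⋂ f ∈ S, {g : GL (Fin R.n) ℝ |
        MvPolynomial.eval (fun ij : Fin R.n × Fin R.n => (g : M R.n) ij.1 ij.2) f = 0} := by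
      ext g
      simp only [SetLike.mem_coe, hS g, Set.mem_iInter, Set.mem_ofPred_eq]
    rw [this]
    refine isClosed_biInter fun p _ => ?_
    refine isClosed_eq ?_ continuous_const
    have h2 : Continuous fun g : GL (Fin R.n) ℝ =>
        (fun ij : Fin R.n × Fin R.n => (g : M R.n) ij.1 ij.2) := by
      refine continuous_pi fun ij => ?_
      exact (Units.continuous_val).matrix_elem ij.1 ij.2
    exact (MvPolynomial.continuous_eval p).comp h2
  have hK0 : IsCompact {x : R.GR | ((x : GL (Fin R.n) ℝ) : M R.n)ᵀ *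
      ((x : GL (Fin R.n) ℝ) : M R.n) = 1} :=
    hGR.isClosedEmbedding_subtypeVal.isCompact_preimage (fCompactK_GL R.n)
  have hK : IsCompact (f ⁻¹' {x : R.GR | ((x : GL (Fin R.n) ℝ) : M R.n)ᵀ *
      ((x : GL (Fin R.n) ℝ) : M R.n) = 1}) := hp.isCompact_preimage hK0
  exact isCompact_iff_compactSpace.mp hK

end Pool.Agent.H913.SG
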