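import Pool.Agent.H913.SG.Stmts2

open MeasureTheory Matrix NormedSpace
open scoped SchwartzMap ContDiff FourierTransform Matrix

universe u v

namespace Pool.Agent.H913.SG

section Loc

variable {G : Type*} [Group G]

/-- A local one-parameter group. -/
def fGam_Loc (γ0 : ℝ → G) (δ : ℝ) : Prop :=
  ∀ a b, |a| ≤ δ → |b| ≤ δ → |a + b| ≤ δ → γ0 (a + b) = γ0 a * γ0 b

theorem fGam_zero {γ0 : ℝ → G} {δ : ℝ} (hδ : 0 < δ) (H : fGam_Loc γ0 δ) : γ0 0 = 1 := by
  have := H 0 0 (by simp [hδ.le]) (by simp [hδ.le]) (by simp [hδ.le])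
  rw [add_zero] at this
  exact (mul_eq_left.1 this.symm)

theorem fGam_abs {t : ℝ} {j k : ℕ} (hk : 0 < k) (hj : j ≤ k) : |(j : ℝ) * (t / k)| ≤ |t| := by
  have hk' : (0 : ℝ) < k := by exact_mod_cast hk
  have hj' : (j : ℝ) ≤ k := by exact_mod_cast hj
  rw [abs_mul, abs_div, Nat.abs_cast, Nat.abs_cast, mul_div_assoc', div_le_iff₀ hk']
  rw [mul_comm]
  exact mul_le_mul_of_nonneg_left hj' (abs_nonneg _)

theorem fGam_loc_pow {γ0 : ℝ → G} {δ : ℝ} (hδ : 0 < δ) (H : fGam_Loc γ0 δ) (t : ℝ)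
    (ht : |t| ≤ δ) (k : ℕ) (hk : 0 < k) : γ0 t = γ0 (t / k) ^ k := by
  have key : ∀ j : ℕ, j ≤ k → γ0 (j * (t / k)) = γ0 (t / k) ^ j := by
    intro j
    induction j with
    | zero => intro _; simp [fGam_zero hδ H]
    | succ j ih =>
      intro hj
      have e : ((j + 1 : ℕ) : ℝ) * (t / k) = (j : ℝ) * (t / k) + t / k := by push_cast; ring
      have h1 : |(j : ℝ) * (t / k)| ≤ δ := (fGam_abs hk (by omega)).trans ht
      have h2 : |t / k| ≤ δ := by
        have := (fGam_abs (t := t) (j := 1) hk (by omega)).trans ht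
        simpa using this
      have h3 : |(j : ℝ) * (t / k) + t / k| ≤ δ := by
        rw [← e]
        exact (fGam_abs hk hj).trans ht
      rw [e, H _ _ h1 h2 h3, ih (by omega), pow_succ]
  have hk' : (k : ℝ) ≠ 0 := by exact_mod_cast hk.ne'
  have := key k le_rfl
  rwa [mul_div_cancel₀ _ hk'] at this

theorem fGam_extend {γ0 : ℝ → G} {δ : ℝ} (hδ : 0 < δ) (H : fGam_Loc γ0 δ) :
    ∃ γ : ℝ → G, (∀ s t, γ (s + t) = γ s * γ t) ∧ ∀ t, |t| ≤ δ → γ t = γ0 t := by
  have key : ∀ (t : ℝ) (k l : ℕ), 0 < k → 0 < l → |t / k| ≤ δ → |t / l| ≤ δ →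
      γ0 (t / k) ^ k = γ0 (t / l) ^ l := by
    intro t k l hk hl h1 h2
    rw [fGam_loc_pow hδ H (t / k) h1 l hl, fGam_loc_pow hδ H (t / l) h2 k hk, ← pow_mul, ← pow_mul,
      div_div, div_div, mul_comm (l : ℝ) k, mul_comm l k]
  have ex : ∀ t : ℝ, ∃ k : ℕ, 0 < k ∧ |t / k| ≤ δ := by
    intro t
    obtain ⟨k, hk⟩ := exists_nat_gt (|t| / δ)
    have hk0 : (0 : ℝ) < k := lt_of_le_of_lt (by positivity) hk
    refine ⟨k, by exact_mod_cast hk0, ?_⟩
    rw [abs_div, Nat.abs_cast, div_le_iff₀ hk0]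
    rw [div_lt_iff₀ hδ] at hk
    linarith
  choose N hN hN' using ex
  have red : ∀ (t : ℝ) (k l : ℕ), 0 < k → 0 < l → |t / k| ≤ δ → |t / ((k * l : ℕ) : ℝ)| ≤ δ := by
    intro t k l hk hl h1
    have hl' : (1 : ℝ) ≤ l := by exact_mod_cast hl
    have e : t / ((k * l : ℕ) : ℝ) = (t / k) / l := by push_cast; rw [div_div]
    rw [e, abs_div, Nat.abs_cast]
    exact (div_le_self (abs_nonneg _) hl').trans h1
  refine ⟨fun t => γ0 (t / N t) ^ (N t), ?_, ?_⟩
  · intro s t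
    have hs := hN s
    have ht := hN t
    have hst := hN (s + t)
    have e1 : |s / ((N s * (N t * N (s + t)) : ℕ) : ℝ)| ≤ δ :=
      red s _ _ hs (Nat.mul_pos ht hst) (hN' s)
    have e2 : |t / ((N s * (N t * N (s + t)) : ℕ) : ℝ)| ≤ δ := by
      have := red t _ (N s * N (s + t)) ht (Nat.mul_pos hs hst) (hN' t)
      rwa [show N t * (N s * N (s + t)) = N s * (N t * N (s + t)) by ring] at this
    have e3 : |(s + t) / ((N s * (N t * N (s + t)) : ℕ) : ℝ)| ≤ δ := by
      have := red (s + t) _ (N s * N t) hst (Nat.mul_pos hs ht) (hN' (s + t))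
      rwa [show N (s + t) * (N s * N t) = N s * (N t * N (s + t)) by ring] at this
    have hK : 0 < N s * (N t * N (s + t)) := Nat.mul_pos hs (Nat.mul_pos ht hst)
    generalize N s * (N t * N (s + t)) = K at e1 e2 e3 hK
    show γ0 ((s + t) / N (s + t)) ^ (N (s + t)) = γ0 (s / N s) ^ (N s) * γ0 (t / N t) ^ (N t)
    rw [key (s + t) _ K hst hK (hN' _) e3, key s _ K hs hK (hN' _) e1,
      key t _ K ht hK (hN' _) e2]
    have e4 : (s + t) / (K : ℝ) = s / K + t / K := by ring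
    have c1 : γ0 (s / K + t / K) = γ0 (s / K) * γ0 (t / K) := H _ _ e1 e2 (by rw [← e4]; exact e3)
    have c2 : γ0 (t / K + s / K) = γ0 (t / K) * γ0 (s / K) :=
      H _ _ e2 e1 (by rw [add_comm, ← e4]; exact e3)
    have c3 : Commute (γ0 (s / K)) (γ0 (t / K)) := by
      show γ0 (s / K) * γ0 (t / K) = γ0 (t / K) * γ0 (s / K)
      rw [← c1, ← c2, add_comm]
    rw [e4, c1, c3.mul_pow]
  · intro t ht
    exact (fGam_loc_pow hδ H t ht (N t) (hN t)).symm

theorem fGam_unique {γ γ' : ℝ → G} {δ : ℝ} (hδ : 0 < δ) (h1 : ∀ s t, γ (s + t) = γ s * γ t)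
    (h2 : ∀ s t, γ' (s + t) = γ' s * γ' t) (h3 : ∀ t, |t| ≤ δ → γ t = γ' t) (t : ℝ) : γ t = γ' t := by
  obtain ⟨k, hk⟩ := exists_nat_gt (|t| / δ)
  have hk0 : (0 : ℝ) < k := lt_of_le_of_lt (by positivity) hk
  have hk1 : |t / k| ≤ δ := by
    rw [abs_div, Nat.abs_cast, div_le_iff₀ hk0]
    rw [div_lt_iff₀ hδ] at hk
    linarith
  have hk2 : 0 < k := by exact_mod_cast hk0
  have hT : 0 < |t| + 1 := by positivity
  rw [fGam_loc_pow (δ := |t| + 1) hT (fun a b _ _ _ => h1 a b) t (by linarith) k hk2,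
    fGam_loc_pow (δ := |t| + 1) hT (fun a b _ _ _ => h2 a b) t (by linarith) k hk2, h3 _ hk1]

theorem fGam_cont [TopologicalSpace G] [IsTopologicalGroup G] {γ : ℝ → G}
    (h1 : ∀ s t, γ (s + t) = γ s * γ t) (h2 : ContinuousAt γ 0) : Continuous γ := by
  rw [continuous_iff_continuousAt]
  intro t
  have e : γ = fun x => γ t * γ (x - t) := by
    ext x
    rw [← h1]
    congr 1
    ring
  rw [e]
  refine ContinuousAt.mul continuousAt_const ?_
  have h3 : ContinuousAt (fun x : ℝ => x - t) t := by fun_prop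
  refine ContinuousAt.comp (g := γ) (f := fun x : ℝ => x - t) (x := t) ?_ h3
  simpa using h2

end Loc

section Mat

/-- The exponential with values in the units. -/
noncomputable def fGam_expU {n : ℕ} (A : M n) : GL (Fin n) ℝ where
  val := exp A
  inv := exp (-A)
  val_inv := by
    rw [← Matrix.exp_add_of_commute A (-A) (Commute.neg_right (Commute.refl A)), add_neg_cancel,
      exp_zero]
  inv_val := by
    rw [← Matrix.exp_add_of_commute (-A) A (Commute.neg_left (Commute.refl A)), neg_add_cancel,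
      exp_zero]

theorem fGam_exp_cont {n : ℕ} : Continuous (exp : M n → M n) := by
  let _ : SeminormedRing (M n) := Matrix.linftyOpSemiNormedRing
  let _ : NormedRing (M n) := Matrix.linftyOpNormedRing
  let _ : NormedAlgebra ℝ (M n) := Matrix.linftyOpNormedAlgebra
  let _ : NormedAlgebra ℚ (M n) := .restrictScalars ℚ ℝ _
  exact NormedSpace.exp_continuous

theorem fGam_expU_cont {n : ℕ} : Continuous (fGam_expU : M n → GL (Fin n) ℝ) := by
  rw [Units.continuous_iff]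
  exact ⟨fGam_exp_cont, fGam_exp_cont.comp continuous_neg⟩

theorem fGam_expU_zero {n : ℕ} : (fGam_expU (0 : M n)) = 1 := by
  ext1
  show exp (0 : M n) = 1
  exact exp_zero

theorem fGam_expU_add {n : ℕ} (X : M n) (a b : ℝ) :
    fGam_expU ((a + b) • X) = fGam_expU (a • X) * fGam_expU (b • X) := by
  ext1
  show exp ((a + b) • X) = exp (a • X) * exp (b • X)
  rw [add_smul, Matrix.exp_add_of_commute]
  exact ((Commute.refl X).smul_left a).smul_right b

/-- small in `fro` implies small -/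
theorem fGam_fro_nhds {n : ℕ} (O : Set (M n)) (hO : O ∈ nhds (0 : M n)) :
    ∃ ε > 0, ∀ X : M n, fro X < ε → ∀ t : ℝ, |t| ≤ 1 → t • X ∈ O := by
  have hO' : O ∈ nhds (0 : Fin n → Fin n → ℝ) := hO
  obtain ⟨ε, hε, hb⟩ := Metric.mem_nhds_iff.1 hO'
  refine ⟨ε, hε, fun X hX t ht => ?_⟩
  have h1 : ∀ i j, |X i j| ≤ fro X := by
    intro i j
    refine Real.abs_le_sqrt ?_
    calc X i j ^ 2 ≤ ∑ j', X i j' ^ 2 :=
          Finset.single_le_sum (f := fun j' => X i j' ^ 2) (fun _ _ => sq_nonneg _)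
            (Finset.mem_univ j)
      _ ≤ _ := Finset.single_le_sum (f := fun i' => ∑ j', X i' j' ^ 2)
            (fun _ _ => Finset.sum_nonneg fun _ _ => sq_nonneg _) (Finset.mem_univ i)
  have h2 : (fun i j => t * X i j : Fin n → Fin n → ℝ) ∈
      Metric.ball (0 : Fin n → Fin n → ℝ) ε := ?_
  · exact hb h2
  rw [mem_ball_zero_iff, pi_norm_lt_iff hε]
  intro i
  rw [pi_norm_lt_iff hε]
  intro j
  rw [Real.norm_eq_abs, abs_mul]
  calc |t| * |X i j| ≤ 1 * |X i j| := mul_le_mul_of_nonneg_right ht (abs_nonneg _)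
    _ ≤ fro X := by rw [one_mul]; exact h1 i j
    _ < ε := hX

end Mat

section Main

variable {G : Type} [Group G] [TopologicalSpace G] (R : RealReductive G)

theorem fGam_expU_mem (X : R.lie) (t : ℝ) : fGam_expU (t • X.1) ∈ R.GR := by
  obtain ⟨g, hg, hg'⟩ := X.2 t
  have : fGam_expU (t • X.1) = g := by
    ext1
    exact hg'.symm
  rw [this]
  exact hg

/-- the path `exp (tX)` in `GR` -/
noncomputable def fGam_path (X : R.lie) (t : ℝ) : R.GR := ⟨fGam_expU (t • X.1), fGam_expU_mem R X t⟩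

theorem fGam_path_cont (X : R.lie) : Continuous (fGam_path R X) := by
  refine Continuous.subtype_mk ?_ _
  exact fGam_expU_cont.comp (continuous_id.smul continuous_const)

theorem fGam_path_zero (X : R.lie) : fGam_path R X 0 = 1 := by
  apply Subtype.ext
  show fGam_expU ((0 : ℝ) • X.1) = 1
  rw [zero_smul, fGam_expU_zero]

theorem fGam_path_add (X : R.lie) (a b : ℝ) :
    fGam_path R X (a + b) = fGam_path R X a * fGam_path R X b := by
  apply Subtype.ext
  exact fGam_expU_add X.1 a b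

end Main

/-- TARGET -/
theorem gam_exists (h1 : S_section) : S_gam := by
  intro G _ _ _ _ R
  obtain ⟨U, W, s, hU, h1U, hW, h1W, hs, hsW, hsU⟩ := h1 G R
  -- a neighbourhood whose square lies in `U`
  obtain ⟨U', hU'o, h1U', hU'U⟩ : ∃ U' : Set G, IsOpen U' ∧ (1 : G) ∈ U' ∧ ∀ a ∈ U', ∀ b ∈ U',
      a * b ∈ U := by
    have hc : ContinuousAt (fun p : G × G => p.1 * p.2) (1, 1) := continuous_mul.continuousAt
    have hn : U ∈ nhds ((1 : G) * 1) := by rw [one_mul]; exact hU.mem_nhds h1U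
    obtain ⟨A, B, hA, h1A, hB, h1B, hAB⟩ := mem_nhds_prod_iff'.1 (hc hn)
    refine ⟨A ∩ B, hA.inter hB, ⟨h1A, h1B⟩, fun a ha b hb => ?_⟩
    exact hAB (Set.mk_mem_prod ha.1 hb.2)
  have inj : ∀ a ∈ U, ∀ b ∈ U, R.ρ a = R.ρ b → a = b := by
    intro a ha b hb hab
    rw [← (hsU a ha).2, ← (hsU b hb).2]
    congr 1
    exact Subtype.ext hab
  have hs1 : s 1 = 1 := by
    have := (hsU 1 h1U).2
    have e : (⟨R.ρ 1, R.ρ_mem 1⟩ : R.GR) = 1 := Subtype.ext (map_one _)
    rwa [e] at this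
  have hsc : ContinuousAt s 1 := hs.continuousAt (hW.mem_nhds h1W)
  -- local homomorphism property
  have loc : ∀ (X : R.lie) (δ : ℝ), (∀ t, |t| ≤ δ → fGam_path R X t ∈ W ∧ s (fGam_path R X t) ∈ U') →
      fGam_Loc (fun t => s (fGam_path R X t)) δ := by
    intro X δ hX a b ha hb hab
    refine inj _ (hsW _ (hX _ hab).1).1 _ (hU'U _ (hX a ha).2 _ (hX b hb).2) ?_
    rw [map_mul, (hsW _ (hX _ hab).1).2, (hsW _ (hX a ha).1).2, (hsW _ (hX b hb).1).2,
      fGam_path_add]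
    rfl
  have hW' : {x : R.GR | x ∈ W ∧ s x ∈ U'} ∈ nhds (1 : R.GR) := by
    have h2 : s ⁻¹' U' ∈ nhds (1 : R.GR) := hsc (by rw [hs1]; exact hU'o.mem_nhds h1U')
    exact Filter.inter_mem (hW.mem_nhds h1W) h2
  have rad : ∀ X : R.lie, ∃ δ > 0, ∀ t, |t| ≤ δ → fGam_path R X t ∈ W ∧ s (fGam_path R X t) ∈ U' := by
    intro X
    have h2 : fGam_path R X ⁻¹' {x : R.GR | x ∈ W ∧ s x ∈ U'} ∈ nhds (0 : ℝ) := by
      refine (fGam_path_cont R X).continuousAt ?_
      rw [fGam_path_zero]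
      exact hW'
    obtain ⟨δ, hδ, hb⟩ := Metric.mem_nhds_iff.1 h2
    refine ⟨δ / 2, by positivity, fun t ht => hb ?_⟩
    show dist t 0 < δ
    rw [Real.dist_eq, sub_zero]
    linarith
  choose δ hδ hδ' using rad
  have ext := fun X : R.lie => fGam_extend (hδ X) (loc X (δ X) (hδ' X))
  choose gam hg hg' using ext
  refine ⟨gam, ?_, ?_⟩
  · intro X
    refine ⟨fGam_cont (hg X) ?_, hg X, ?_⟩
    · have h3 : gam X =ᶠ[nhds 0] fun t => s (fGam_path R X t) := by
        filter_upwards [Metric.ball_mem_nhds (0 : ℝ) (hδ X)] with t ht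
        refine hg' X t ?_
        rw [mem_ball_zero_iff, Real.norm_eq_abs] at ht
        exact ht.le
      refine ContinuousAt.congr ?_ h3.symm
      refine ContinuousAt.comp (g := s) ?_ (fGam_path_cont R X).continuousAt
      rw [fGam_path_zero]
      exact hsc
    · intro t
      have h4 := fGam_unique (γ := fun t => R.ρ (gam X t)) (γ' := fun t => (fGam_path R X t).1)
        (hδ X) (fun a b => by simp only [hg X a b, map_mul])
        (fun a b => by simp only [fGam_path_add]; rfl)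
        (fun t ht => by
          show R.ρ (gam X t) = _
          rw [hg' X t ht]
          exact (hsW _ (hδ' X t ht).1).2) t
      have h5 : R.ρ (gam X t) = fGam_expU (t • X.1) := h4
      rw [h5]
      rfl
  · intro O hO
    have h2 : {x : R.GR | x ∈ W ∧ s x ∈ U' ∩ O} ∈ nhds (1 : R.GR) := by
      have h3 : s ⁻¹' (U' ∩ O) ∈ nhds (1 : R.GR) :=
        hsc (by rw [hs1]; exact Filter.inter_mem (hU'o.mem_nhds h1U') hO)
      exact Filter.inter_mem (hW.mem_nhds h1W) h3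
    obtain ⟨S, hS, hS'⟩ := mem_nhds_subtype _ _ _ |>.1 h2
    have h4 : fGam_expU ⁻¹' S ∈ nhds (0 : M R.n) := by
      refine fGam_expU_cont.continuousAt ?_
      rw [fGam_expU_zero]
      exact hS
    obtain ⟨ε, hε, hb⟩ := fGam_fro_nhds _ h4
    refine ⟨ε, hε, fun X hX => ?_⟩
    have h5 : ∀ t, |t| ≤ 1 → fGam_path R X t ∈ W ∧ s (fGam_path R X t) ∈ U' ∩ O := by
      intro t ht
      have : fGam_path R X t ∈ {x : R.GR | x ∈ W ∧ s x ∈ U' ∩ O} := hS' (hb X.1 hX t ht)
      exact this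
    obtain ⟨γ', hγ1, hγ2⟩ := fGam_extend one_pos
      (loc X 1 fun t ht => ⟨(h5 t ht).1, (h5 t ht).2.1⟩)
    have h6 := fGam_unique (lt_min (hδ X) one_pos) (hg X) hγ1 (fun t ht => by
      rw [hg' X t (ht.trans (min_le_left _ _)), hγ2 t (ht.trans (min_le_right _ _))]) 1
    rw [h6, hγ2 1 (by simp)]
    exact (h5 1 (by simp)).2.2

end Pool.Agent.H913.SG
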