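import Pool.Agent.H913.SG.Stmts2

/- PROJECT SG: MP_496a9e_al (owner helper913), the Sobolev gap is uniformly bounded. Paper proof: papers id 40 (verdict ok).
SETUP (once per box, about 2 minutes):
  cd /workdir/pool/outputs/live && git fetch -q origin && mkdir -p /workdir/pool/Pool/Agent/H913/SG && for f in Defs Calc Stmts Stmts2; do git show origin/helper913:Pool/Agent/H913/SG/$f.lean > /workdir/pool/Pool/Agent/H913/SG/$f.lean; done; cd /workdir/pool && lake build Pool.Agent.H913.SG.Stmts2
(ignore the sorry warnings of Defs.lean: these are another job.) Read the definitions used by the TARGET in these four files first.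
Put this file at Pool/Agent/H913/SG/FPack.lean, replace the sorry of the TARGET by a proof; auxiliary lemmas before it are
welcome (give them names starting with fPack_ to avoid clashes). Statement of the target unchanged. Hypotheses (h1 : S_xxx) of the target
are proved elsewhere, use them freely. No sorry, no axioms. Respect RULES.md Validity 2 (banned words such as notation,
macro, syntax, prefix, tactic; no straight double quotes; no line comment starting in odd places).
If the target is false or awkward, message helper913 at once (the statement will be fixed).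
Paste the whole compiled file in jobs.result with status='done', done_at=now(), then: team-sql notify inbox_helper913 done -/

open MeasureTheory Matrix NormedSpace
open scoped SchwartzMap ContDiff FourierTransform Matrix

universe u v

namespace Pool.Agent.H913.SG

/-! Proof. basis: (transpose-stability: X ∈ R.lie gives exp(tXᵀ) = (exp tX)ᵀ ∈ GR by R.transpose_mem and Matrix.exp_transpose.) The form ⟨X,Y⟩ = tr(XᵀY) = ∑ X_ij Y_ij is an inner product on M n
(identify with EuclideanSpace or use the Frobenius structure); R.lie is the orthogonal direct sum of its skew and symmetric parts since X = (X-Xᵀ)/2 + (X+Xᵀ)/2; take orthonormal bases of both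
(stdOrthonormalBasis) and join (Fin d with d = d1 + d2 via finSumFinEquiv); e = -1 on the first part, +1 on the second.
pack: gam from S_gam. gam_unique: if γ, γ' are both IsOneParam X then t ↦ γ t * (γ' t)⁻¹ is continuous with values in ker ρ (finite, T2 so discrete), ℝ connected, value 1 at 0 (γ 0 = 1 from the
homomorphism law). gam_conj: t ↦ g * gam X t * g⁻¹ is IsOneParam (Ad g X) (Matrix.exp_conj or exp_units_conj). gam_smul: t ↦ gam X (c t) is IsOneParam (c•X).
gam_mem: exp of a skew matrix is orthogonal: exp(tX)ᵀ exp(tX) = exp(tXᵀ)exp(tX) = exp(-tX) exp(tX) = 1. -/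

/-- entries as a Euclidean vector -/
noncomputable def fPack_phi (n : ℕ) : M n →ₗ[ℝ] EuclideanSpace ℝ (Fin n × Fin n) where
  toFun X := WithLp.toLp 2 (fun p => X p.1 p.2)
  map_add' X Y := by ext p; simp
  map_smul' c X := by ext p; simp

theorem fPack_inner {n : ℕ} (X Y : M n) :
    inner ℝ (fPack_phi n X) (fPack_phi n Y) = (Xᵀ * Y).trace := by
  rw [PiLp.inner_apply, Fintype.sum_prod_type, Matrix.trace]
  simp only [Matrix.diag_apply, Matrix.mul_apply, Matrix.transpose_apply]
  rw [Finset.sum_comm]
  refine Finset.sum_congr rfl fun i _ => Finset.sum_congr rfl fun j _ => ?_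
  simp [fPack_phi, mul_comm]

theorem fPack_inj {n : ℕ} : Function.Injective (fPack_phi n) := by
  intro X Y h
  ext i j
  have := congrArg (fun z : EuclideanSpace ℝ (Fin n × Fin n) => z (i, j)) h
  simpa [fPack_phi] using this

theorem fPack_onb {n : ℕ} (L : Submodule ℝ (M n)) : ∃ (d : ℕ) (X : Fin d → M n), (∀ i, X i ∈ L) ∧
    (∀ i j, ((X i)ᵀ * X j).trace = if i = j then 1 else 0) ∧
    ∀ Y ∈ L, Y = ∑ i, ((X i)ᵀ * Y).trace • X i := by
  set S := L.map (fPack_phi n) with hS
  let b := stdOrthonormalBasis ℝ S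
  have h1 : ∀ i, ∃ X ∈ L, fPack_phi n X = (b i : EuclideanSpace ℝ (Fin n × Fin n)) :=
    fun i => (b i).2
  choose X hX hXb using h1
  refine ⟨Module.finrank ℝ S, X, hX, fun i j => ?_, fun Y hY => ?_⟩
  · rw [← fPack_inner, hXb, hXb, ← Submodule.coe_inner, orthonormal_iff_ite.1 b.orthonormal i j]
  · apply fPack_inj
    have h2 : fPack_phi n Y ∈ S := ⟨Y, hY, rfl⟩
    have h3 := b.sum_repr' ⟨fPack_phi n Y, h2⟩
    have h4 := congrArg (Subtype.val) h3
    rw [map_sum]
    simp only [map_smul, hXb]
    refine Eq.trans (show fPack_phi n Y = _ from h4.symm) ?_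
    rw [Submodule.coe_sum]
    refine Finset.sum_congr rfl fun i _ => ?_
    rw [Submodule.coe_smul, Submodule.coe_inner, ← fPack_inner, hXb]

theorem fPack_transpose {G : Type} [Group G] [TopologicalSpace G] (R : RealReductive G)
    (X : M R.n) (hX : X ∈ R.lie) : Xᵀ ∈ R.lie := by
  intro t
  obtain ⟨g, hg, hgX⟩ := hX t
  obtain ⟨g', hg', hgg⟩ := R.transpose_mem g hg
  refine ⟨g', hg', ?_⟩
  rw [hgg, hgX, ← Matrix.transpose_smul, Matrix.exp_transpose]

/-- TARGET 1 -/
theorem basis_exists : S_basis := by
  intro G _ _ R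
  refine ⟨fPack_transpose R, ?_⟩
  let skew : Submodule ℝ (M R.n) :=
    { carrier := {X | Xᵀ = -X}
      add_mem' := by
        intro a b ha hb
        simp only [Set.mem_ofPred_eq] at *
        rw [Matrix.transpose_add, ha, hb, neg_add]
      zero_mem' := by simp
      smul_mem' := by
        intro c a ha
        simp only [Set.mem_ofPred_eq] at *
        rw [Matrix.transpose_smul, ha, smul_neg] }
  let symm : Submodule ℝ (M R.n) :=
    { carrier := {X | Xᵀ = X}
      add_mem' := by
        intro a b ha hb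
        simp only [Set.mem_ofPred_eq] at *
        rw [Matrix.transpose_add, ha, hb]
      zero_mem' := by simp
      smul_mem' := by
        intro c a ha
        simp only [Set.mem_ofPred_eq] at *
        rw [Matrix.transpose_smul, ha] }
  obtain ⟨d1, X1, hX1, ho1, hs1⟩ := fPack_onb (R.lie ⊓ skew)
  obtain ⟨d2, X2, hX2, ho2, hs2⟩ := fPack_onb (R.lie ⊓ symm)
  -- orthogonality of skew and symmetric matrices
  have horth : ∀ A B : M R.n, Aᵀ = -A → Bᵀ = B → (Aᵀ * B).trace = 0 := by
    intro A B hA hB
    have h1 : (Aᵀ * B).trace = (Bᵀ * A).trace := by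
      rw [← Matrix.trace_transpose, Matrix.transpose_mul, Matrix.transpose_transpose]
    have h2 : (Bᵀ * A).trace = -(Aᵀ * B).trace := by
      rw [hB, hA, Matrix.neg_mul, Matrix.trace_neg, neg_neg, Matrix.trace_mul_comm]
    linarith
  have horth' : ∀ A B : M R.n, Aᵀ = -A → Bᵀ = B → (Bᵀ * A).trace = 0 := by
    intro A B hA hB
    have h1 : (Bᵀ * A).trace = (Aᵀ * B).trace := by
      rw [← Matrix.trace_transpose, Matrix.transpose_mul, Matrix.transpose_transpose]
    rw [h1, horth A B hA hB]
  let Z : Fin d1 ⊕ Fin d2 → R.lie := Sum.elim (fun i => ⟨X1 i, (hX1 i).1⟩) (fun i => ⟨X2 i, (hX2 i).1⟩)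
  let ε : Fin d1 ⊕ Fin d2 → ℝ := Sum.elim (fun _ => -1) (fun _ => 1)
  refine ⟨d1 + d2, fun i => Z (finSumFinEquiv.symm i), fun i => ε (finSumFinEquiv.symm i),
    fun i => ?_, fun i => ?_, fun i j => ?_, fun Y => ?_⟩
  · dsimp only
    generalize finSumFinEquiv.symm i = k
    rcases k with k | k
    · exact Or.inr rfl
    · exact Or.inl rfl
  · dsimp only
    generalize finSumFinEquiv.symm i = k
    rcases k with k | k
    · change (X1 k)ᵀ = (-1 : ℝ) • X1 k
      rw [neg_one_smul]
      exact (hX1 k).2
    · change (X2 k)ᵀ = (1 : ℝ) • X2 k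
      rw [one_smul]
      exact (hX2 k).2
  · have hij : (i = j) ↔ finSumFinEquiv.symm i = finSumFinEquiv.symm j := by
      rw [EmbeddingLike.apply_eq_iff_eq]
    simp only [hij]
    generalize finSumFinEquiv.symm i = k
    generalize finSumFinEquiv.symm j = l
    rcases k with k | k <;> rcases l with l | l
    · simpa [Z] using ho1 k l
    · simpa [Z] using horth _ _ (hX1 k).2 (hX2 l).2
    · simpa [Z] using horth' _ _ (hX1 l).2 (hX2 k).2
    · simpa [Z] using ho2 k l
  · rw [Equiv.sum_comp finSumFinEquiv.symm (fun k => ((Z k).1ᵀ * Y.1).trace • Z k),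
      Fintype.sum_sum_type]
    apply Subtype.ext
    set A : M R.n := (1 / 2 : ℝ) • (Y.1 - Y.1ᵀ) with hA
    set B : M R.n := (1 / 2 : ℝ) • (Y.1 + Y.1ᵀ) with hB
    have hAB : Y.1 = A + B := by
      rw [hA, hB, ← smul_add]
      ext i j
      simp
      ring
    have hA1 : Aᵀ = -A := by
      rw [hA, Matrix.transpose_smul, Matrix.transpose_sub, Matrix.transpose_transpose, ← smul_neg,
        neg_sub]
    have hB1 : Bᵀ = B := by
      rw [hB, Matrix.transpose_smul, Matrix.transpose_add, Matrix.transpose_transpose, add_comm]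
    have hYt := fPack_transpose R Y.1 Y.2
    have hA2 : A ∈ R.lie ⊓ skew := ⟨R.lie.smul_mem _ (R.lie.sub_mem Y.2 hYt), hA1⟩
    have hB2 : B ∈ R.lie ⊓ symm := ⟨R.lie.smul_mem _ (R.lie.add_mem Y.2 hYt), hB1⟩
    have h1 : ∀ k, ((X1 k)ᵀ * Y.1).trace = ((X1 k)ᵀ * A).trace := fun k => by
      rw [hAB, Matrix.mul_add, Matrix.trace_add, horth _ _ (hX1 k).2 hB1, add_zero]
    have h2 : ∀ k, ((X2 k)ᵀ * Y.1).trace = ((X2 k)ᵀ * B).trace := fun k => by
      rw [hAB, Matrix.mul_add, Matrix.trace_add, horth' _ _ hA1 (hX2 k).2, zero_add]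
    rw [Submodule.coe_add, Submodule.coe_sum, Submodule.coe_sum]
    simp only [Z, Sum.elim_inl, Sum.elim_inr, Submodule.coe_smul, h1, h2]
    rw [← hs1 A hA2, ← hs2 B hB2, ← hAB]

theorem fPack_zero {G : Type} [Group G] [TopologicalSpace G] {R : RealReductive G} {X : R.lie}
    {γ : ℝ → G} (h : R.IsOneParam X γ) : γ 0 = 1 := by
  have h1 := h.2.1 0 0
  rw [add_zero] at h1
  exact (mul_eq_left.1 h1.symm)

theorem fPack_unique {G : Type} [Group G] [TopologicalSpace G] [IsTopologicalGroup G] [T2Space G]
    {R : RealReductive G} {X : R.lie} {γ γ' : ℝ → G} (h : R.IsOneParam X γ)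
    (h' : R.IsOneParam X γ') : γ = γ' := by
  have hker : ∀ t, γ t * (γ' t)⁻¹ ∈ (R.ρ.ker : Set G) := by
    intro t
    change R.ρ (γ t * (γ' t)⁻¹) = 1
    have h1 : R.ρ (γ t) = R.ρ (γ' t) := by
      apply Units.ext
      rw [h.2.2 t, h'.2.2 t]
    rw [map_mul, map_inv, h1, mul_inv_cancel]
  have hcont : Continuous fun t => γ t * (γ' t)⁻¹ := h.1.mul h'.1.inv
  have hpre : IsPreconnected (Set.range fun t => γ t * (γ' t)⁻¹) := isPreconnected_range hcont
  have hfin : (Set.range fun t => γ t * (γ' t)⁻¹).Finite :=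
    R.finite_ker.subset (by rintro _ ⟨t, rfl⟩; exact hker t)
  have hsub : (Set.range fun t => γ t * (γ' t)⁻¹).Subsingleton := by
    by_contra hc
    exact hpre.infinite_of_nontrivial (Set.not_subsingleton_iff.1 hc) hfin
  ext1 t
  have h2 := hsub ⟨t, rfl⟩ ⟨0, rfl⟩
  simp only [fPack_zero h, fPack_zero h', inv_one, mul_one] at h2
  exact mul_inv_eq_one.1 h2

/-- TARGET 2 -/
theorem pack (h1 : S_gam) (h2 : S_compactK) (h3 : S_basis) : S_pack := by
  intro G _ _ _ _ _ R
  obtain ⟨gam, hgam, hnear⟩ := h1 G R
  obtain ⟨htr, d, X, e, he, hXt, hXo, hXs⟩ := h3 G R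
  refine ⟨{
    gam := gam
    gam_spec := hgam
    gam_unique := fun X γ h => fPack_unique h (hgam X)
    gam_conj := ?_
    gam_smul := ?_
    gam_mem := ?_
    gam_near := hnear
    transpose_mem := htr
    compactK := h2 G R
    d := d
    X := X
    e := e
    e_cases := he
    X_transpose := hXt
    X_orth := hXo
    X_spans := hXs }⟩
  · intro g X t
    have h : R.IsOneParam (R.Ad g X) (fun t => g * gam X t * g⁻¹) := by
      refine ⟨(continuous_const.mul (hgam X).1).mul continuous_const, fun s t => ?_, fun t => ?_⟩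
      · dsimp only
        rw [(hgam X).2.1 s t]
        group
      · dsimp only
        have h4 := Matrix.exp_units_conj (𝔸 := ℝ) (R.ρ g) (t • X.1)
        rw [map_mul, map_mul, Units.val_mul, Units.val_mul, (hgam X).2.2 t, map_inv, ← h4]
        congr 1
        change _ = t • ((R.ρ g : M R.n) * X.1 * (R.ρ g⁻¹ : M R.n))
        rw [map_inv, Matrix.mul_smul, Matrix.smul_mul]
    exact congrFun (fPack_unique h (hgam _)) t
  · intro c X t
    have h : R.IsOneParam (c • X) (fun t => gam X (c * t)) := by
      refine ⟨(hgam X).1.comp (continuous_const.mul continuous_id), fun s t => ?_, fun t => ?_⟩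
      · dsimp only
        rw [mul_add, (hgam X).2.1]
      · dsimp only
        rw [(hgam X).2.2, Submodule.coe_smul, smul_smul, mul_comm]
    exact congrFun (fPack_unique (hgam _) h) t
  · intro X hX t
    change (R.ρ (gam X t) : M R.n)ᵀ * (R.ρ (gam X t) : M R.n) = 1
    have hX' : X.1ᵀ = -X.1 := hX
    have hc : Commute (-(t • X.1)) (t • X.1) := (Commute.refl (t • X.1)).neg_left
    rw [(hgam X).2.2, ← Matrix.exp_transpose, Matrix.transpose_smul, hX', smul_neg,
      ← Matrix.exp_add_of_commute _ _ hc, neg_add_cancel, NormedSpace.exp_zero]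

end Pool.Agent.H913.SG
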