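import Pool.Agent.H913.SG.Stmts2

open MeasureTheory Matrix NormedSpace
open scoped SchwartzMap ContDiff FourierTransform Matrix

universe u v

namespace Pool.Agent.H913.SG

/-- TARGET -/
theorem section_exists : S_section := by
  intro G _ _ _ _ R
  classical
  let f : G → R.GR := fun g => ⟨R.ρ g, R.ρ_mem g⟩
  have hf : IsOpenMap f := R.isOpenMap
  -- the kernel
  have hker : IsClosed ((R.ρ.ker : Set G) \ {1}) := (R.finite_ker.subset Set.diff_subset).isClosed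
  have hO : IsOpen (((R.ρ.ker : Set G) \ {1})ᶜ) := hker.isOpen_compl
  have hcont : Continuous (fun p : G × G => p.1⁻¹ * p.2) := by fun_prop
  have hpre : IsOpen ((fun p : G × G => p.1⁻¹ * p.2) ⁻¹' (((R.ρ.ker : Set G) \ {1})ᶜ)) :=
    hO.preimage hcont
  have h11 : ((1 : G), (1 : G)) ∈ (fun p : G × G => p.1⁻¹ * p.2) ⁻¹' (((R.ρ.ker : Set G) \ {1})ᶜ) := by
    simp
  obtain ⟨U1, U2, hU1, hU2, h1, h2, hsub⟩ := isOpen_prod_iff.1 hpre 1 1 h11
  have hUo : IsOpen (U1 ∩ U2) := hU1.inter hU2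
  have hinj : ∀ x ∈ U1 ∩ U2, ∀ y ∈ U1 ∩ U2, f x = f y → x = y := by
    intro x hx y hy hxy
    have hρ : R.ρ x = R.ρ y := congrArg Subtype.val hxy
    have hmem : (x, y) ∈ U1 ×ˢ U2 := ⟨hx.1, hy.2⟩
    have h3 := hsub hmem
    simp only [Set.mem_preimage, Set.mem_compl_iff, Set.mem_diff, SetLike.mem_coe,
      MonoidHom.mem_ker, map_mul, map_inv, hρ, inv_mul_cancel, true_and, Set.mem_singleton_iff,
      not_not] at h3
    exact (inv_mul_eq_one.1 h3)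
  let W : Set R.GR := f '' (U1 ∩ U2)
  have hW : IsOpen W := hf _ hUo
  let s : R.GR → G := fun x => if h : x ∈ W then h.choose else 1
  have hs : ∀ x ∈ W, s x ∈ U1 ∩ U2 ∧ f (s x) = x := by
    intro x hx
    have : s x = hx.choose := by simp only [s, hx, dif_pos]
    rw [this]
    exact hx.choose_spec
  have hs2 : ∀ g ∈ U1 ∩ U2, s (f g) = g := by
    intro g hg
    have hx : f g ∈ W := ⟨g, hg, rfl⟩
    obtain ⟨h3, h4⟩ := hs _ hx
    exact hinj _ h3 _ hg h4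
  refine ⟨U1 ∩ U2, W, s, hUo, ⟨h1, h2⟩, hW, ⟨1, ⟨h1, h2⟩, ?_⟩, ?_, ?_, ?_⟩
  · apply Subtype.ext
    simp [f]
  · intro x hx
    rw [ContinuousWithinAt]
    intro Z hZ
    obtain ⟨h3, h4⟩ := hs x hx
    rw [Filter.mem_map]
    obtain ⟨Z', hZ'Z, hZ'o, hxZ'⟩ := mem_nhds_iff.1 hZ
    have h5 : f '' (Z' ∩ (U1 ∩ U2)) ∈ nhds x := by
      refine (hf _ (hZ'o.inter hUo)).mem_nhds ⟨s x, ⟨hxZ', h3⟩, h4⟩
    refine Filter.mem_of_superset (mem_nhdsWithin_of_mem_nhds h5) ?_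
    rintro _ ⟨z, ⟨hz1, hz2⟩, rfl⟩
    simp only [Set.mem_preimage]
    rw [hs2 z hz2]
    exact hZ'Z hz1
  · intro x hx
    obtain ⟨h3, h4⟩ := hs x hx
    exact ⟨h3, congrArg Subtype.val h4⟩
  · intro g hg
    exact ⟨⟨g, hg, rfl⟩, hs2 g hg⟩

end Pool.Agent.H913.SG
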