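import Pool.Agent.H913.SG.Stmts2

open MeasureTheory Matrix NormedSpace
open scoped SchwartzMap ContDiff FourierTransform Matrix

universe u v

namespace Pool.Agent.H913.SG

/-- A finite sum formula for the action. -/
theorem gChart_act_sum {G : Type} [Group G] [TopologicalSpace G] {R : RealReductive G}
    {V : Type u} [AddCommGroup V] [Module ℂ V] (Mo : HCModule R V) {m : ℕ}
    (c : Fin m → ℝ) (X : Fin m → R.lie) :
    Mo.act (∑ j, c j • X j) = ∑ j, (c j : ℂ) • Mo.act (X j) := by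
  have h0 : Mo.act 0 = 0 := by
    have := Mo.act_smul 0 0
    simpa using this
  let φ : R.lie →+ Module.End ℂ V := { toFun := Mo.act, map_zero' := h0, map_add' := Mo.act_add }
  have h1 : φ (∑ j, c j • X j) = ∑ j, φ (c j • X j) := map_sum φ _ _
  have h2 : ∀ Y, φ Y = Mo.act Y := fun Y => rfl
  rw [h2] at h1
  rw [h1]
  refine Finset.sum_congr rfl fun j _ => ?_
  rw [h2, Mo.act_smul]

/-- A weight is bounded on compact sets. -/
theorem gChart_bdd {G : Type} [Group G] [TopologicalSpace G] {w : G → ℝ} (hw : IsWeight w)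
    {K : Set G} (hK : IsCompact K) : ∃ C : ℝ, 0 ≤ C ∧ ∀ x ∈ K, w x ≤ C := by
  refine hK.induction_on (p := fun s => ∃ C : ℝ, 0 ≤ C ∧ ∀ x ∈ s, w x ≤ C) ?_ ?_ ?_ ?_
  · exact ⟨0, le_refl _, fun x hx => hx.elim⟩
  · rintro s t hst ⟨C, h0, hC⟩
    exact ⟨C, h0, fun x hx => hC x (hst hx)⟩
  · rintro s t ⟨C, h0, hC⟩ ⟨D, h0', hD⟩
    refine ⟨max C D, le_max_of_le_left h0, ?_⟩
    rintro x (hx | hx)
    · exact (hC x hx).trans (le_max_left _ _)
    · exact (hD x hx).trans (le_max_right _ _)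
  · intro x _
    obtain ⟨U, hU, C, hC⟩ := hw.locally_bounded x
    exact ⟨U, mem_nhdsWithin_of_mem_nhds hU, max C 0, le_max_right _ _,
      fun y hy => (hC y hy).trans (le_max_left _ _)⟩

/-- TARGET -/
theorem chart (h1 : S_chartAux) (h2 : S_chartGrp) : S_chart.{u,v} := by
  intro G _ _ _ _ R P
  obtain ⟨N, q, hN, hN0, hq, hq0, hAd, hPi, hPi0, hline⟩ := h2 G R P
  obtain ⟨Ch, hCh⟩ := h1 P.d N hN hN0
  refine ⟨Ch, q, hq, hq0, hAd, ?_⟩
  intro w hw
  have hcomp : IsCompact (P.Pi '' Metric.closedBall (0 : EE P.d) Ch.r) :=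
    (isCompact_closedBall _ _).image hPi
  obtain ⟨Cw, hCw0, hCw⟩ := gChart_bdd hw hcomp
  refine ⟨Cw, hCw0, ?_⟩
  intro V _ _ Mo E _ _ Gl
  refine ⟨{ a := fun j => Mo.act (P.X j)
            orb := { toFun := fun v y => Gl.π (P.Pi y) (Gl.ι v)
                     map_add' := ?_
                     map_smul' := ?_ }
            cont := ?_
            line := ?_
            Cw := Cw
            Cw_nonneg := hCw0
            bound := ?_ }, rfl, fun j => rfl, fun v y => rfl⟩
  · intro a b; ext y; simp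
  · intro a b; ext y; simp
  · intro v
    exact (Gl.cont (Gl.ι v)).comp hPi
  · intro v i y
    simp only [LinearMap.coe_mk, AddHom.coe_mk]
    rw [HasLineDerivAt]
    have h3 := Gl.deriv (∑ j, N i j y • P.X j) (P.gam (∑ j, N i j y • P.X j)) (P.gam_spec _) v
    have h4 : HasDerivAt (fun t : ℝ => Gl.π (P.Pi y)
        (Gl.π (P.gam (∑ j, N i j y • P.X j) t) (Gl.ι v)))
        (Gl.π (P.Pi y) (Gl.ι (Mo.act (∑ j, N i j y • P.X j) v))) 0 := by
      exact ((Gl.π (P.Pi y)).restrictScalars ℝ).hasFDerivAt.comp_hasDerivAt 0 h3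
    have h5 : (fun t : ℝ => Gl.π (P.Pi (y + t • ei i)) (Gl.ι v)) = (fun t : ℝ => Gl.π (P.Pi y)
        (Gl.π (P.gam (∑ j, N i j y • P.X j) t) (Gl.ι v))) := by
      ext t
      rw [hline i y t, map_mul]
      rfl
    rw [h5]
    convert h4 using 1
    rw [gChart_act_sum, hCh]
    simp [LinearMap.sum_apply, map_sum]
  · intro v y hy
    simp only [LinearMap.coe_mk, AddHom.coe_mk]
    rw [hPi0]
    simp only [map_one, one_apply_eq_self]
    refine (ContinuousLinearMap.le_opNorm _ _).trans ?_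
    refine mul_le_mul_of_nonneg_right ?_ (norm_nonneg _)
    refine (Gl.bound _).trans (hCw _ ⟨y, ?_, rfl⟩)
    simpa using hy

end Pool.Agent.H913.SG
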