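import Pool.Agent.H913.SG.Stmts2

/- PROJECT SG: MP_496a9e_al (owner helper913), the Sobolev gap is uniformly bounded. Paper proof: papers id 40 (verdict ok). -/

open MeasureTheory Matrix NormedSpace
open scoped SchwartzMap ContDiff FourierTransform Matrix

universe u v

namespace Pool.Agent.H913.SG

/-- The entries of `exp (t X)` are smooth in `t`. -/
theorem gChartGrp_exp {n : ℕ} (X : M n) (a b : Fin n) :
    ContDiff ℝ ∞ (fun t : ℝ => (exp (t • X) : M n) a b) := by
  let _ : NormedRing (M n) := Matrix.linftyOpNormedRing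
  let _ : NormedAlgebra ℝ (M n) := Matrix.linftyOpNormedAlgebra
  let _ : NormedAlgebra ℚ (M n) := NormedAlgebra.restrictScalars ℚ ℝ (M n)
  have h1 : ContDiff ℝ ∞ (fun A : M n => (exp A : M n)) := by
    rw [contDiff_iff_contDiffAt]
    intro A
    exact (exp_analytic (𝕂 := ℝ) A).contDiffAt
  have h2 : ContDiff ℝ ∞ (fun t : ℝ => t • X) := contDiff_id.smul contDiff_const
  have h3 : ContDiff ℝ ∞ (fun A : M n => A a b) := by
    have := (LinearMap.toContinuousLinearMap (Matrix.entryLinearMap ℝ ℝ a b)).contDiff (n := ∞)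
    exact this
  exact h3.comp (h1.comp h2)

section
variable {G : Type} [Group G] [TopologicalSpace G] (R : RealReductive G)

/-- A map into `G` whose image and inverse image under `ρ` have smooth entries. -/
def gChartGrp_Sm {d : ℕ} (g : EE d → G) : Prop :=
  (∀ a b, ContDiff ℝ ∞ fun y => (R.ρ (g y) : M R.n) a b) ∧
  (∀ a b, ContDiff ℝ ∞ fun y => (R.ρ (g y)⁻¹ : M R.n) a b)

variable {R}

theorem gChartGrp_Sm_one {d : ℕ} : gChartGrp_Sm R (fun _ : EE d => (1 : G)) :=
  ⟨fun a b => contDiff_const, fun a b => contDiff_const⟩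

theorem gChartGrp_mulEntry {n d : ℕ} (A B : EE d → M n) (hA : ∀ a b, ContDiff ℝ ∞ fun y => A y a b)
    (hB : ∀ a b, ContDiff ℝ ∞ fun y => B y a b) (a b : Fin n) :
    ContDiff ℝ ∞ fun y => (A y * B y) a b := by
  simp only [Matrix.mul_apply]
  exact ContDiff.sum fun j _ => (hA a j).mul (hB j b)

theorem gChartGrp_Sm_mul {d : ℕ} {g h : EE d → G} (hg : gChartGrp_Sm R g) (hh : gChartGrp_Sm R h) :
    gChartGrp_Sm R (fun y => g y * h y) := by
  refine ⟨fun a b => ?_, fun a b => ?_⟩
  · simp only [map_mul, Units.val_mul]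
    exact gChartGrp_mulEntry _ _ hg.1 hh.1 a b
  · simp only [_root_.mul_inv_rev, map_mul, Units.val_mul]
    exact gChartGrp_mulEntry _ _ hh.2 hg.2 a b

theorem gChartGrp_Sm_inv {d : ℕ} {g : EE d → G} (hg : gChartGrp_Sm R g) :
    gChartGrp_Sm R (fun y => (g y)⁻¹) := by
  refine ⟨hg.2, fun a b => ?_⟩
  simp only [inv_inv]
  exact hg.1 a b

theorem gChartGrp_zero {X : R.lie} {γ : ℝ → G} (h : R.IsOneParam X γ) : γ 0 = 1 := by
  have := h.2.1 0 0
  rw [add_zero] at this
  exact left_eq_mul.mp this

theorem gChartGrp_neg {X : R.lie} {γ : ℝ → G} (h : R.IsOneParam X γ) (t : ℝ) :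
    (γ t)⁻¹ = γ (-t) := by
  have h1 := h.2.1 t (-t)
  rw [add_neg_cancel, gChartGrp_zero h] at h1
  exact inv_eq_of_mul_eq_one_right h1.symm

theorem gChartGrp_Sm_gam {d : ℕ} {X : R.lie} {γ : ℝ → G} (h : R.IsOneParam X γ) (i : Fin d) :
    gChartGrp_Sm R (fun y : EE d => γ (y i)) := by
  have hc : ContDiff ℝ ∞ (fun y : EE d => y i) := by fun_prop
  refine ⟨fun a b => ?_, fun a b => ?_⟩
  · simp only [h.2.2]
    exact (gChartGrp_exp X.1 a b).comp hc
  · simp only [gChartGrp_neg h, h.2.2]
    exact (gChartGrp_exp X.1 a b).comp hc.neg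

theorem gChartGrp_Sm_list {d : ℕ} : ∀ (n : ℕ) (F : Fin n → EE d → G),
    (∀ j, gChartGrp_Sm R (F j)) → gChartGrp_Sm R (fun y => (List.ofFn fun j => F j y).prod) := by
  intro n
  induction n with
  | zero => intro F _; simpa using gChartGrp_Sm_one
  | succ n ih =>
    intro F hF
    simp only [List.ofFn_succ, List.prod_cons]
    exact gChartGrp_Sm_mul (hF 0) (ih (fun j => F j.succ) fun j => hF j.succ)

/-- The coefficients of `Ad (g y) Y` are smooth. -/
theorem gChartGrp_coef {d : ℕ} {g : EE d → G} (hg : gChartGrp_Sm R g) (X Y : R.lie) :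
    ContDiff ℝ ∞ fun y => (X.1ᵀ * (R.Ad (g y) Y).1).trace := by
  have h1 : ∀ a b, ContDiff ℝ ∞ fun y => ((R.ρ (g y) : M R.n) * Y.1) a b :=
    gChartGrp_mulEntry _ _ hg.1 fun a b => contDiff_const
  have h2 : ∀ a b, ContDiff ℝ ∞ fun y => ((R.ρ (g y) : M R.n) * Y.1 * (R.ρ (g y)⁻¹ : M R.n)) a b :=
    gChartGrp_mulEntry _ _ h1 hg.2
  have h3 : ∀ a b, ContDiff ℝ ∞ fun y =>
      (X.1ᵀ * ((R.ρ (g y) : M R.n) * Y.1 * (R.ρ (g y)⁻¹ : M R.n))) a b :=
    gChartGrp_mulEntry _ _ (fun a b => contDiff_const) h2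
  simp only [Matrix.trace, Matrix.diag]
  exact ContDiff.sum fun a _ => h3 a a

theorem gChartGrp_Ad_one (X : R.lie) : R.Ad 1 X = X := by
  apply Subtype.ext
  simp [RealReductive.Ad]

end

/-- Changing one factor of a product. -/
theorem gChartGrp_update {G : Type} [Group G] : ∀ (n : ℕ) (f : Fin n → G) (i : Fin n) (g : G),
    (List.ofFn (Function.update f i (f i * g))).prod = (List.ofFn f).prod *
      ((List.ofFn fun j => if i < j then f j else 1).prod⁻¹ * g *
        (List.ofFn fun j => if i < j then f j else 1).prod) := by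
  intro n
  induction n with
  | zero => intro f i; exact i.elim0
  | succ n ih =>
    intro f i g
    refine Fin.cases ?_ (fun i' => ?_) i
    · simp only [List.ofFn_succ, List.prod_cons, Function.update_self, lt_self_iff_false, if_false,
        Fin.succ_pos, if_true, one_mul]
      have : (fun j : Fin n => Function.update f 0 (f 0 * g) j.succ) = fun j => f j.succ := by
        funext j
        exact Function.update_of_ne (Fin.succ_ne_zero j) _ _
      rw [this]
      group
    · have h1 : (fun j : Fin n => Function.update f i'.succ (f i'.succ * g) j.succ) =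
          Function.update (fun j => f j.succ) i' (f i'.succ * g) := by
        funext j
        by_cases h : j = i'
        · subst h; simp
        · rw [Function.update_of_ne (fun h' => h (Fin.succ_injective _ h')),
            Function.update_of_ne h]
      have h0 : Function.update f i'.succ (f i'.succ * g) 0 = f 0 :=
        Function.update_of_ne (Fin.succ_ne_zero i').symm _ _
      have := ih (fun j => f j.succ) i' g
      simp only [List.ofFn_succ, List.prod_cons, h0, h1, this, Fin.succ_lt_succ_iff,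
        Fin.not_lt_zero, if_false, one_mul, mul_assoc]

/-- TARGET -/
theorem chartGrp : S_chartGrp := by
  intro G _ _ _ _ R P
  have hg0 : ∀ X, P.gam X 0 = 1 := fun X => gChartGrp_zero (P.gam_spec X)
  set S : Fin P.d → EE P.d → G := fun i y =>
    (List.ofFn fun j => if i < j then P.gam (P.X j) (y j) else 1).prod with hS
  have hSsm : ∀ i, gChartGrp_Sm R (S i) := by
    intro i
    refine gChartGrp_Sm_list P.d (fun j y => if i < j then P.gam (P.X j) (y j) else 1) fun j => ?_
    by_cases h : i < j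
    · simp only [h, if_true]
      exact gChartGrp_Sm_gam (P.gam_spec _) j
    · simp only [h, if_false]
      exact gChartGrp_Sm_one
  have hPsm : gChartGrp_Sm R P.Pi := gChartGrp_Sm_list P.d (fun j y => P.gam (P.X j) (y j))
    fun j => gChartGrp_Sm_gam (P.gam_spec _) j
  have hS0 : ∀ i, S i 0 = 1 := by
    intro i
    refine List.prod_eq_one fun x hx => ?_
    rw [List.mem_ofFn] at hx
    obtain ⟨j, rfl⟩ := hx
    split_ifs
    · exact hg0 _
    · rfl
  have hP0 : P.Pi 0 = 1 := by
    refine List.prod_eq_one fun x hx => ?_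
    rw [List.mem_ofFn] at hx
    obtain ⟨j, rfl⟩ := hx
    exact hg0 _
  refine ⟨fun i j y => ((P.X j).1ᵀ * (R.Ad (S i y)⁻¹ (P.X i)).1).trace,
    fun l j y => ((P.X j).1ᵀ * (R.Ad (P.Pi y)⁻¹ (P.X l)).1).trace,
    fun i j => gChartGrp_coef (gChartGrp_Sm_inv (hSsm i)) _ _, ?_,
    fun l j => gChartGrp_coef (gChartGrp_Sm_inv hPsm) _ _, ?_, ?_, ?_, hP0, ?_⟩
  · intro i j
    simp only [hS0, inv_one, gChartGrp_Ad_one, P.X_orth, eq_comm (a := j)]
  · intro l j
    simp only [hP0, inv_one, gChartGrp_Ad_one, P.X_orth, eq_comm (a := j)]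
  · intro l y
    exact P.X_spans _
  · unfold Pack.Pi
    simp only [List.ofFn_eq_map]
    refine continuous_list_prod _ fun j _ => ?_
    exact (P.gam_spec (P.X j)).1.comp (by fun_prop)
  · intro i y t
    have h1 : P.Pi (y + t • ei i) = (List.ofFn (Function.update (fun j => P.gam (P.X j) (y j)) i
        (P.gam (P.X i) (y i) * P.gam (P.X i) t))).prod := by
      unfold Pack.Pi
      congr 2
      funext j
      by_cases h : j = i
      · subst h
        simp only [Function.update_self, PiLp.add_apply, PiLp.smul_apply, PiLp.single_apply,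
          if_true, smul_eq_mul, mul_one]
        exact (P.gam_spec (P.X j)).2.1 _ _
      · rw [Function.update_of_ne h]
        simp [h]
    rw [h1, gChartGrp_update P.d (fun j => P.gam (P.X j) (y j)) i (P.gam (P.X i) t),
      ← P.X_spans (R.Ad (S i y)⁻¹ (P.X i)), ← P.gam_conj, inv_inv]
    rfl

end Pool.Agent.H913.SG
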