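import Pool.Agent.H913.SG.Stmts2

open MeasureTheory Matrix NormedSpace
open scoped SchwartzMap ContDiff FourierTransform Matrix

universe u v

namespace Pool.Agent.H913.SG

/-! Finite multiplicities for all finite-dimensional representations of `K`; central elements are
algebraic. -/

namespace hAnn

section gen

variable {K : Type} [Group K] {V : Type u} [AddCommGroup V] [Module ℂ V]
variable {E E' : Type v} [AddCommGroup E] [Module ℂ E] [AddCommGroup E'] [Module ℂ E']

/-- intertwining maps -/
def homG (κ : K →* Module.End ℂ V) (τ : K →* Module.End ℂ E) : Submodule ℂ (E →ₗ[ℂ] V) where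
  carrier := {T | ∀ k, T ∘ₗ τ k = κ k ∘ₗ T}
  add_mem' := by
    intro a b ha hb k
    rw [LinearMap.add_comp, LinearMap.comp_add, ha k, hb k]
  zero_mem' := by intro k; simp
  smul_mem' := by
    intro c a ha k
    rw [LinearMap.smul_comp, LinearMap.comp_smul, ha k]

theorem mem_homG {κ : K →* Module.End ℂ V} {τ : K →* Module.End ℂ E} {T : E →ₗ[ℂ] V} :
    T ∈ homG κ τ ↔ ∀ k x, T (τ k x) = κ k (T x) := by
  constructor
  · intro h k x
    exact LinearMap.congr_fun (h k) x
  · intro h k
    exact LinearMap.ext fun x => h k x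

/-- the restricted representation -/
def res (τ : K →* Module.End ℂ E) (W : Submodule ℂ E) (hW : ∀ k, ∀ v ∈ W, τ k v ∈ W) :
    K →* Module.End ℂ W where
  toFun k := (τ k).restrict (hW k)
  map_one' := by
    ext x
    simp
  map_mul' a b := by
    ext x
    simp

theorem res_apply (τ : K →* Module.End ℂ E) (W : Submodule ℂ E) (hW : ∀ k, ∀ v ∈ W, τ k v ∈ W)
    (k : K) (x : W) : ((res τ W hW k x : W) : E) = τ k x := rfl

/-- the quotient representation -/
def quo (τ : K →* Module.End ℂ E) (W : Submodule ℂ E) (hW : ∀ k, ∀ v ∈ W, τ k v ∈ W) :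
    K →* Module.End ℂ (E ⧸ W) where
  toFun k := W.mapQ W (τ k) (hW k)
  map_one' := by
    ext x
    simp
  map_mul' a b := by
    ext x
    simp

theorem quo_mk (τ : K →* Module.End ℂ E) (W : Submodule ℂ E) (hW : ∀ k, ∀ v ∈ W, τ k v ∈ W)
    (k : K) (x : E) : quo τ W hW k (W.mkQ x) = W.mkQ (τ k x) := rfl

/-- transport of structure -/
def tra (τ : K →* Module.End ℂ E) (e : E ≃ₗ[ℂ] E') : K →* Module.End ℂ E' where
  toFun k := e.toLinearMap ∘ₗ τ k ∘ₗ e.symm.toLinearMap
  map_one' := by
    ext x
    simp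
  map_mul' a b := by
    ext x
    simp

theorem tra_apply (τ : K →* Module.End ℂ E) (e : E ≃ₗ[ℂ] E') (k : K) (x : E') :
    tra τ e k x = e (τ k (e.symm x)) := rfl

/-- the representation has continuous coefficients -/
def cont [TopologicalSpace K] (τ : K →* Module.End ℂ E) : Prop :=
  ∀ v (f : E →ₗ[ℂ] ℂ), Continuous fun k => f (τ k v)

theorem cont_res [TopologicalSpace K] {τ : K →* Module.End ℂ E} (h : cont τ) (W : Submodule ℂ E)
    (hW : ∀ k, ∀ v ∈ W, τ k v ∈ W) : cont (res τ W hW) := by
  intro v f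
  obtain ⟨g, hg⟩ := LinearMap.exists_extend f
  have h1 : (fun k => f (res τ W hW k v)) = fun k => g (τ k v) := by
    funext k
    rw [← hg]
    rfl
  rw [h1]
  exact h v g

theorem cont_quo [TopologicalSpace K] {τ : K →* Module.End ℂ E} (h : cont τ) (W : Submodule ℂ E)
    (hW : ∀ k, ∀ v ∈ W, τ k v ∈ W) : cont (quo τ W hW) := by
  intro v f
  obtain ⟨x, rfl⟩ := W.mkQ_surjective v
  exact h x (f ∘ₗ W.mkQ)

theorem cont_tra [TopologicalSpace K] {τ : K →* Module.End ℂ E} (h : cont τ) (e : E ≃ₗ[ℂ] E') :
    cont (tra τ e) := by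
  intro v f
  exact h (e.symm v) (f ∘ₗ e.toLinearMap)

theorem fin_tra {κ : K →* Module.End ℂ V} {τ : K →* Module.End ℂ E} (e : E ≃ₗ[ℂ] E')
    (h : FiniteDimensional ℂ (homG κ (tra τ e))) : FiniteDimensional ℂ (homG κ τ) := by
  let Φ : homG κ τ →ₗ[ℂ] homG κ (tra τ e) :=
    { toFun := fun T => ⟨T.1 ∘ₗ e.symm.toLinearMap, by
        rw [mem_homG]
        intro k x
        have := mem_homG.1 T.2 k (e.symm x)
        rw [tra_apply]
        simpa using this⟩
      map_add' := fun a b => rfl
      map_smul' := fun c a => rfl }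
  refine FiniteDimensional.of_injective Φ ?_
  intro a b hab
  have h1 : a.1 ∘ₗ e.symm.toLinearMap = b.1 ∘ₗ e.symm.toLinearMap := congrArg Subtype.val hab
  apply Subtype.ext
  refine LinearMap.ext fun x => ?_
  have h2 := LinearMap.congr_fun h1 (e x)
  simpa using h2

theorem fin_ext {κ : K →* Module.End ℂ V} {τ : K →* Module.End ℂ E} (W : Submodule ℂ E)
    (hW : ∀ k, ∀ v ∈ W, τ k v ∈ W) (h1 : FiniteDimensional ℂ (homG κ (res τ W hW)))
    (h2 : FiniteDimensional ℂ (homG κ (quo τ W hW))) : FiniteDimensional ℂ (homG κ τ) := by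
  let Φ : homG κ τ →ₗ[ℂ] homG κ (res τ W hW) :=
    { toFun := fun T => ⟨T.1 ∘ₗ W.subtype, by
        rw [mem_homG]
        intro k x
        exact mem_homG.1 T.2 k x⟩
      map_add' := fun a b => rfl
      map_smul' := fun c a => rfl }
  have hker : ∀ T : LinearMap.ker Φ, W ≤ LinearMap.ker T.1.1 := by
    intro T x hx
    have h3 : T.1.1 ∘ₗ W.subtype = 0 := congrArg Subtype.val (LinearMap.mem_ker.1 T.2)
    exact LinearMap.congr_fun h3 ⟨x, hx⟩
  let Ψ : LinearMap.ker Φ →ₗ[ℂ] homG κ (quo τ W hW) :=
    { toFun := fun T => ⟨W.liftQ T.1.1 (hker T), by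
        rw [mem_homG]
        intro k x
        obtain ⟨y, rfl⟩ := W.mkQ_surjective x
        rw [quo_mk]
        exact mem_homG.1 T.1.2 k y⟩
      map_add' := fun a b => by
        apply Subtype.ext
        refine Submodule.linearMap_qext _ ?_
        rfl
      map_smul' := fun c a => by
        apply Subtype.ext
        refine Submodule.linearMap_qext _ ?_
        rfl }
  have hΨ : Function.Injective Ψ := by
    intro a b hab
    have h3 : W.liftQ a.1.1 (hker a) = W.liftQ b.1.1 (hker b) := congrArg Subtype.val hab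
    apply Subtype.ext
    apply Subtype.ext
    refine LinearMap.ext fun x => ?_
    exact LinearMap.congr_fun h3 (W.mkQ x)
  have hfk : FiniteDimensional ℂ (LinearMap.ker Φ) := FiniteDimensional.of_injective Ψ hΨ
  have hfq : Module.Finite ℂ (homG κ τ ⧸ LinearMap.ker Φ) :=
    Module.Finite.equiv Φ.quotKerEquivRange.symm
  exact Module.Finite.of_submodule_quotient (LinearMap.ker Φ)

end gen

theorem homfin_aux {G : Type} [Group G] [TopologicalSpace G] {R : RealReductive G}
    {V : Type u} [AddCommGroup V] [Module ℂ V] (Mo : HCModule R V) (n : ℕ) :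
    ∀ (E : Type) [AddCommGroup E] [Module ℂ E] [FiniteDimensional ℂ E]
      (τ : R.K →* Module.End ℂ E), Module.finrank ℂ E = n → cont τ →
      FiniteDimensional ℂ (homG Mo.kact τ) := by
  induction n using Nat.strong_induction_on with
  | _ n ih =>
    intro E _ _ _ τ hn hc
    by_cases hirr : ∀ W : Submodule ℂ E, (∀ k, ∀ v ∈ W, τ k v ∈ W) → W = ⊥ ∨ W = ⊤
    · let e : E ≃ₗ[ℂ] (Fin (Module.finrank ℂ E) → ℂ) := (Module.finBasis ℂ E).equivFun
      apply fin_tra e
      refine Mo.admissible _ (tra τ e) (cont_tra hc e) ?_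
      intro W hW
      have h1 := hirr (W.comap e.toLinearMap) (by
        intro k v hv
        have h2 := hW k (e v) hv
        rw [tra_apply, e.symm_apply_apply] at h2
        exact h2)
      rcases h1 with h1 | h1
      · left
        rw [eq_bot_iff]
        intro w hw
        have h2 : e.symm w ∈ W.comap e.toLinearMap := by
          rw [Submodule.mem_comap]
          simpa using hw
        rw [h1, Submodule.mem_bot] at h2
        rw [Submodule.mem_bot]
        have := congrArg e h2
        simpa using this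
      · right
        rw [eq_top_iff]
        intro w _
        have h2 : e.symm w ∈ W.comap e.toLinearMap := by
          rw [h1]; trivial
        rw [Submodule.mem_comap] at h2
        simpa using h2
    · push Not at hirr
      obtain ⟨W, hW, hb, ht⟩ := hirr
      have hf := Submodule.finrank_quotient_add_finrank W
      have h1 : 1 ≤ Module.finrank ℂ W := Submodule.one_le_finrank_iff.2 hb
      have h2 : Module.finrank ℂ W < Module.finrank ℂ E := Submodule.finrank_lt ht
      apply fin_ext W hW
      · exact ih _ (by omega) W (res τ W hW) rfl (cont_res hc W hW)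
      · exact ih _ (by omega) (E ⧸ W) (quo τ W hW) rfl (cont_quo hc W hW)

theorem commute_aeval {V : Type u} [AddCommGroup V] [Module ℂ V] {A z : Module.End ℂ V}
    (h : A * z = z * A) (Q : Polynomial ℂ) :
    A * Polynomial.aeval z Q = Polynomial.aeval z Q * A := by
  induction Q using Polynomial.induction_on' with
  | add p q hp hq => rw [map_add, mul_add, add_mul, hp, hq]
  | monomial n a =>
    rw [Polynomial.aeval_monomial]
    have h1 : A * z ^ n = z ^ n * A := (show Commute A z from h).pow_right n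
    rw [← mul_assoc, ← Algebra.commutes a A, mul_assoc, h1, mul_assoc]

theorem restrict_aeval {V : Type u} [AddCommGroup V] [Module ℂ V] {z : Module.End ℂ V}
    {W : Submodule ℂ V} (h : ∀ x ∈ W, z x ∈ W) (Q : Polynomial ℂ) (x : W) :
    ((Polynomial.aeval (z.restrict h) Q x : W) : V) = Polynomial.aeval z Q x := by
  induction Q using Polynomial.induction_on' with
  | add p q hp hq =>
    rw [map_add, map_add, LinearMap.add_apply, LinearMap.add_apply, Submodule.coe_add, hp, hq]
  | monomial n a =>
    rw [Polynomial.aeval_monomial, Polynomial.aeval_monomial]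
    have h1 : ∀ n : ℕ, ((((z.restrict h) ^ n) x : W) : V) = (z ^ n) x := by
      intro n
      induction n with
      | zero => rfl
      | succ n ih =>
        rw [pow_succ', pow_succ', Module.End.mul_apply, Module.End.mul_apply, ← ih]
        rfl
    rw [Module.End.mul_apply, Module.End.mul_apply, ← h1 n]
    rfl

end hAnn

open hAnn

/-- TARGET 1 -/
theorem homfin : S_homfin.{u} := by
  intro G _ _ R V _ _ Mo m τ hc
  exact homfin_aux Mo _ (Fin m → ℂ) τ rfl hc

/-- TARGET 2 -/
theorem ann (h1 : S_homfin.{u}) : S_ann.{u} := by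
  classical
  intro G _ _ R V _ _ Mo z hz1 hz2
  obtain ⟨S, hS⟩ := Mo.fg
  -- the finite-dimensional generating space
  let W0 : Submodule ℂ V := ⨆ s : S, Submodule.span ℂ (Set.range fun k => Mo.kact k (s : V))
  have hW0fin : FiniteDimensional ℂ W0 := by
    have : ∀ s : S, FiniteDimensional ℂ (Submodule.span ℂ (Set.range fun k => Mo.kact k (s : V))) :=
      fun s => Mo.kfinite s
    exact Submodule.finiteDimensional_iSup _
  have hW0st : ∀ k, ∀ v ∈ W0, Mo.kact k v ∈ W0 := by
    intro k
    have h2 : W0 ≤ W0.comap (Mo.kact k) := by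
      refine iSup_le fun s => ?_
      rw [Submodule.span_le]
      rintro _ ⟨k', rfl⟩
      change Mo.kact k (Mo.kact k' s) ∈ W0
      have h3 : Mo.kact k (Mo.kact k' s) = Mo.kact (k * k') (s : V) := by
        rw [map_mul]; rfl
      rw [h3]
      exact Submodule.mem_iSup_of_mem s (Submodule.subset_span ⟨k * k', rfl⟩)
    exact fun v hv => h2 hv
  have hSW0 : ∀ s ∈ S, s ∈ W0 := by
    intro s hs
    refine Submodule.mem_iSup_of_mem (⟨s, hs⟩ : S) (Submodule.subset_span ⟨1, ?_⟩)
    simp
  let e : W0 ≃ₗ[ℂ] (Fin (Module.finrank ℂ W0) → ℂ) := (Module.finBasis ℂ W0).equivFun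
  let τ0 : R.K →* Module.End ℂ W0 := res Mo.kact W0 hW0st
  have hτ0 : cont τ0 := cont_res (τ := Mo.kact) Mo.kcont W0 hW0st
  let τ : R.K →* Module.End ℂ (Fin (Module.finrank ℂ W0) → ℂ) :=
    { toFun := fun k => e.toLinearMap ∘ₗ τ0 k ∘ₗ e.symm.toLinearMap
      map_one' := by
        ext x
        simp
      map_mul' := fun a b => by
        ext x
        simp }
  have hτ : ∀ v (f : (Fin (Module.finrank ℂ W0) → ℂ) →ₗ[ℂ] ℂ), Continuous fun k => f (τ k v) :=
    fun v f => hτ0 (e.symm v) (f ∘ₗ e.toLinearMap)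
  have hfin := h1 G R V Mo _ τ hτ
  let b := Module.finBasis ℂ (homK R Mo.kact τ)
  let m := Module.finrank ℂ W0
  let W1 : Submodule ℂ V := Submodule.span ℂ (Set.range fun p : Fin (Module.finrank ℂ
    (homK R Mo.kact τ)) × Fin (Module.finrank ℂ W0) => (b p.1).1 (Pi.single p.2 1))
  have hW1fin : FiniteDimensional ℂ W1 := FiniteDimensional.span_of_finite ℂ (Set.finite_range _)
  have hW1mem : ∀ T ∈ homK R Mo.kact τ, ∀ x, T x ∈ W1 := by
    intro T hT x
    have e1 : T = ∑ i, (b.repr ⟨T, hT⟩ i) • (b i).1 := by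
      have h2 := congrArg Subtype.val (b.sum_repr ⟨T, hT⟩)
      exact h2.symm.trans (map_sum (homK R Mo.kact τ).subtype _ _)
    have e2 : ∀ i, (b i).1 x ∈ W1 := by
      intro i
      have e3 : x = ∑ j, x j • (Pi.single j (1 : ℂ) : Fin (Module.finrank ℂ W0) → ℂ) := by
        funext l
        simp [Finset.sum_apply, Pi.single_apply]
      rw [e3, map_sum]
      refine Submodule.sum_mem _ fun j _ => ?_
      rw [map_smul]
      exact Submodule.smul_mem _ _ (Submodule.subset_span ⟨(i, j), rfl⟩)
    rw [e1, LinearMap.sum_apply]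
    refine Submodule.sum_mem _ fun i _ => ?_
    rw [LinearMap.smul_apply]
    exact Submodule.smul_mem _ _ (e2 i)
  have hW01 : W0 ≤ W1 := by
    intro w hw
    have h2 : W0.subtype ∘ₗ e.symm.toLinearMap ∈ homK R Mo.kact τ := by
      intro k
      refine LinearMap.ext fun x => ?_
      change ((e.symm (e (τ0 k (e.symm x))) : W0) : V) = Mo.kact k ((e.symm x : W0) : V)
      rw [e.symm_apply_apply]
      rfl
    have h3 := hW1mem _ h2 (e ⟨w, hw⟩)
    simpa using h3
  have hzW1 : ∀ x ∈ W1, z x ∈ W1 := by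
    have h2 : W1 ≤ W1.comap z := by
      rw [Submodule.span_le]
      rintro _ ⟨p, rfl⟩
      change z ((b p.1).1 (Pi.single p.2 1)) ∈ W1
      have h3 : z ∘ₗ (b p.1).1 ∈ homK R Mo.kact τ := by
        intro k
        refine LinearMap.ext fun x => ?_
        have h4 := LinearMap.congr_fun ((b p.1).2 k) x
        change (b p.1).1 (τ k x) = Mo.kact k ((b p.1).1 x) at h4
        change z ((b p.1).1 (τ k x)) = Mo.kact k (z ((b p.1).1 x))
        rw [h4]
        exact (LinearMap.congr_fun (hz2 k) ((b p.1).1 x)).symm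
      exact hW1mem _ h3 _
    exact fun x hx => h2 hx
  refine ⟨(z.restrict hzW1).charpoly, LinearMap.charpoly_monic _, ?_⟩
  set Q := (z.restrict hzW1).charpoly with hQ
  have hQ0 : Polynomial.aeval (z.restrict hzW1) Q = 0 := LinearMap.aeval_self_charpoly _
  have htop := hS (LinearMap.ker (Polynomial.aeval z Q)) (by
    intro X v hv
    rw [LinearMap.mem_ker] at hv ⊢
    have h2 := LinearMap.congr_fun (commute_aeval (hz1 X) Q) v
    rw [Module.End.mul_apply, Module.End.mul_apply, hv, map_zero] at h2
    exact h2.symm) (by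
    intro s hs
    have h2 : s ∈ W1 := hW01 (hSW0 s hs)
    change s ∈ LinearMap.ker _
    rw [LinearMap.mem_ker]
    have h3 := restrict_aeval hzW1 Q ⟨s, h2⟩
    rw [hQ0] at h3
    exact h3.symm)
  exact LinearMap.ker_eq_top.1 htop

end Pool.Agent.H913.SG
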