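import Pool.Agent.H913.SG.Stmts2

/- PROJECT SG: MP_496a9e_al (owner helper913). Lemma H4: the elements `casZ` are central. -/

open MeasureTheory Matrix NormedSpace
open scoped SchwartzMap ContDiff FourierTransform Matrix

universe u v

namespace Pool.Agent.H913.SG

section hCasComm

variable {n d : ℕ} {A : Type*} [Ring A] [Algebra ℂ A]

/-- real matrix as a matrix with central entries -/
noncomputable def hCasComm_S (A : Type*) [Ring A] [Algebra ℂ A] (Y : Matrix (Fin n) (Fin n) ℝ) :
    Matrix (Fin n) (Fin n) A :=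
  fun a b => algebraMap ℂ A ((Y a b : ℝ) : ℂ)

/-- the matrix `∑ e_i X_i ⊗ a_i` -/
noncomputable def hCasComm_X (e : Fin d → ℝ) (X : Fin d → Matrix (Fin n) (Fin n) ℝ) (a : Fin d → A) :
    Matrix (Fin n) (Fin n) A :=
  fun p q => ∑ i, ((e i * X i p q : ℝ) : ℂ) • a i

theorem hCasComm_trace_comm (Y : Matrix (Fin n) (Fin n) ℝ) (Z : Matrix (Fin n) (Fin n) A) :
    (hCasComm_S A Y * Z).trace = (Z * hCasComm_S A Y).trace := by
  simp only [Matrix.trace, Matrix.diag, Matrix.mul_apply]
  rw [Finset.sum_comm]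
  refine Finset.sum_congr rfl fun i _ => Finset.sum_congr rfl fun j _ => ?_
  exact Algebra.commutes _ _

theorem hCasComm_trace_diag_mul (y : A) (Z : Matrix (Fin n) (Fin n) A) :
    (Matrix.diagonal (fun _ => y) * Z).trace = y * Z.trace := by
  simp only [Matrix.trace, Matrix.diag, Matrix.diagonal_mul, Finset.mul_sum]

theorem hCasComm_trace_mul_diag (y : A) (Z : Matrix (Fin n) (Fin n) A) :
    (Z * Matrix.diagonal (fun _ => y)).trace = Z.trace * y := by
  simp only [Matrix.trace, Matrix.diag, Matrix.mul_diagonal, Finset.sum_mul]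

theorem hCasComm_S_mul (Y Y' : Matrix (Fin n) (Fin n) ℝ) :
    hCasComm_S A (Y * Y') = hCasComm_S A Y * hCasComm_S A Y' := by
  ext a b
  simp only [hCasComm_S, Matrix.mul_apply, Complex.ofReal_sum, map_sum, Complex.ofReal_mul, map_mul]

theorem hCasComm_S_one : hCasComm_S A (1 : Matrix (Fin n) (Fin n) ℝ) = 1 := by
  ext a b
  by_cases h : a = b
  · subst h; simp [hCasComm_S]
  · simp [hCasComm_S, Matrix.one_apply_ne h]

theorem hCasComm_S_diag (Y : Matrix (Fin n) (Fin n) ℝ) (y : A) :
    hCasComm_S A Y * Matrix.diagonal (fun _ => y) = Matrix.diagonal (fun _ => y) * hCasComm_S A Y := by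
  ext a b
  rw [Matrix.mul_diagonal, Matrix.diagonal_mul]
  exact Algebra.commutes _ _

theorem hCasComm_S_mul_X (Y : Matrix (Fin n) (Fin n) ℝ) (e : Fin d → ℝ)
    (X : Fin d → Matrix (Fin n) (Fin n) ℝ) (a : Fin d → A) :
    hCasComm_S A Y * hCasComm_X e X a = hCasComm_X e (fun i => Y * X i) a := by
  ext p q
  simp only [hCasComm_S, hCasComm_X, Matrix.mul_apply]
  simp only [Finset.mul_sum, ← Algebra.smul_def, smul_smul]
  rw [Finset.sum_comm]
  refine Finset.sum_congr rfl fun i _ => ?_
  rw [Complex.ofReal_sum, Finset.sum_smul]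
  refine Finset.sum_congr rfl fun j _ => ?_
  congr 1
  push_cast
  ring

theorem hCasComm_X_mul_S (Y : Matrix (Fin n) (Fin n) ℝ) (e : Fin d → ℝ)
    (X : Fin d → Matrix (Fin n) (Fin n) ℝ) (a : Fin d → A) :
    hCasComm_X e X a * hCasComm_S A Y = hCasComm_X e (fun i => X i * Y) a := by
  ext p q
  simp only [hCasComm_S, hCasComm_X, Matrix.mul_apply]
  simp only [Finset.mul_sum, ← Algebra.commutes, ← Algebra.smul_def, Finset.smul_sum, smul_smul]
  rw [Finset.sum_comm]
  refine Finset.sum_congr rfl fun i _ => ?_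
  rw [Complex.ofReal_sum, Finset.sum_smul]
  refine Finset.sum_congr rfl fun j _ => ?_
  congr 1
  push_cast
  ring

theorem hCasComm_diag_mul_X (y : A) (e : Fin d → ℝ)
    (X : Fin d → Matrix (Fin n) (Fin n) ℝ) (a : Fin d → A) :
    Matrix.diagonal (fun _ => y) * hCasComm_X e X a = hCasComm_X e X (fun i => y * a i) := by
  ext p q
  rw [Matrix.diagonal_mul]
  simp only [hCasComm_X, Finset.mul_sum, mul_smul_comm]

theorem hCasComm_X_mul_diag (y : A) (e : Fin d → ℝ)
    (X : Fin d → Matrix (Fin n) (Fin n) ℝ) (a : Fin d → A) :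
    hCasComm_X e X a * Matrix.diagonal (fun _ => y) = hCasComm_X e X (fun i => a i * y) := by
  ext p q
  rw [Matrix.mul_diagonal]
  simp only [hCasComm_X, Finset.sum_mul, smul_mul_assoc]

/-- Lie algebra invariance. -/
theorem hCasComm_lie (Y : Matrix (Fin n) (Fin n) ℝ) (y : A) (e : Fin d → ℝ)
    (X : Fin d → Matrix (Fin n) (Fin n) ℝ) (a : Fin d → A) (c : Fin d → Fin d → ℝ)
    (h1 : ∀ i, Y * X i - X i * Y = ∑ j, c j i • X j)
    (h2 : ∀ i, y * a i - a i * y = ∑ j, ((c j i : ℝ) : ℂ) • a j)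
    (h3 : ∀ i j, e i * c j i + e j * c i j = 0) :
    (Matrix.diagonal (fun _ => y) + hCasComm_S A Y) * hCasComm_X e X a =
      hCasComm_X e X a * (Matrix.diagonal (fun _ => y) + hCasComm_S A Y) := by
  rw [← sub_eq_zero, Matrix.add_mul, Matrix.mul_add, hCasComm_diag_mul_X, hCasComm_X_mul_diag,
    hCasComm_S_mul_X, hCasComm_X_mul_S]
  ext p q
  simp only [Matrix.sub_apply, Matrix.add_apply, Matrix.zero_apply]
  have e1 : hCasComm_X e X (fun i => y * a i) p q - hCasComm_X e X (fun i => a i * y) p q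
      = ∑ i, ∑ j, ((e i * c j i * X i p q : ℝ) : ℂ) • a j := by
    simp only [hCasComm_X, ← Finset.sum_sub_distrib, ← smul_sub, h2, Finset.smul_sum, smul_smul]
    refine Finset.sum_congr rfl fun i _ => Finset.sum_congr rfl fun j _ => ?_
    congr 1
    push_cast
    ring
  have e2 : hCasComm_X e (fun i => Y * X i) a p q - hCasComm_X e (fun i => X i * Y) a p q
      = ∑ i, ∑ j, ((e j * c i j * X i p q : ℝ) : ℂ) • a j := by
    rw [Finset.sum_comm]
    simp only [hCasComm_X, ← Finset.sum_sub_distrib, ← sub_smul, ← Finset.sum_smul]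
    refine Finset.sum_congr rfl fun i _ => ?_
    congr 1
    have := congrFun (congrFun (h1 i) p) q
    simp only [Matrix.sub_apply, Matrix.sum_apply, Matrix.smul_apply, smul_eq_mul] at this
    rw [← Complex.ofReal_sub, ← mul_sub, this, Finset.mul_sum, ← Complex.ofReal_sum]
    congr 1
    refine Finset.sum_congr rfl fun j _ => ?_
    ring
  have e3 : (∑ i, ∑ j, ((e i * c j i * X i p q : ℝ) : ℂ) • a j)
      + ∑ i, ∑ j, ((e j * c i j * X i p q : ℝ) : ℂ) • a j = 0 := by
    simp only [← Finset.sum_add_distrib, ← add_smul, ← Complex.ofReal_add]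
    refine Finset.sum_eq_zero fun i _ => Finset.sum_eq_zero fun j _ => ?_
    have : e i * c j i * X i p q + e j * c i j * X i p q = 0 := by
      rw [← add_mul, h3, zero_mul]
    rw [this, Complex.ofReal_zero, zero_smul]
  rw [← e3, ← e1, ← e2]
  abel

/-- Group invariance. -/
theorem hCasComm_grp (Q Q' : Matrix (Fin n) (Fin n) ℝ) (hQ : Q * Q' = 1) (y : A) (e : Fin d → ℝ)
    (X : Fin d → Matrix (Fin n) (Fin n) ℝ) (a : Fin d → A) (o : Fin d → Fin d → ℝ)
    (h1 : ∀ j, e j • (Q' * X j * Q) = ∑ i, (e i * o j i) • X i)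
    (h2 : ∀ i, y * a i = (∑ j, ((o j i : ℝ) : ℂ) • a j) * y) :
    (hCasComm_S A Q * Matrix.diagonal (fun _ => y)) * hCasComm_X e X a =
      hCasComm_X e X a * (hCasComm_S A Q * Matrix.diagonal (fun _ => y)) := by
  have e1 : Matrix.diagonal (fun _ => y) * hCasComm_X e X a =
      hCasComm_X e (fun i => Q' * X i * Q) a * Matrix.diagonal (fun _ => y) := by
    rw [hCasComm_diag_mul_X]
    ext p q
    rw [Matrix.mul_diagonal]
    simp only [hCasComm_X, h2, Finset.sum_mul, smul_mul_assoc, Finset.smul_sum, smul_smul]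
    rw [Finset.sum_comm]
    refine Finset.sum_congr rfl fun j _ => ?_
    rw [← Finset.sum_smul]
    congr 1
    have := congrFun (congrFun (h1 j) p) q
    simp only [Matrix.sum_apply, Matrix.smul_apply, smul_eq_mul] at this
    rw [this, Complex.ofReal_sum]
    refine Finset.sum_congr rfl fun i _ => ?_
    push_cast
    ring
  have e2 : hCasComm_S A Q * hCasComm_X e (fun i => Q' * X i * Q) a =
      hCasComm_X e X a * hCasComm_S A Q := by
    rw [hCasComm_S_mul_X, hCasComm_X_mul_S]
    congr 1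
    funext i
    rw [← Matrix.mul_assoc, ← Matrix.mul_assoc, hQ, Matrix.one_mul]
  rw [Matrix.mul_assoc, e1, ← Matrix.mul_assoc, e2, Matrix.mul_assoc]

end hCasComm

/-- TARGET -/
theorem cas_comm : S_cas_comm.{u} := by
  intro G _ _ R P V _ _ Mo j
  have hX : casMat P Mo = hCasComm_X P.e (fun i => (P.X i).1) (fun i => Mo.act (P.X i)) := rfl
  have hee : ∀ i, P.e i * P.e i = 1 := by
    intro i
    rcases P.e_cases i with h | h <;> rw [h] <;> norm_num
  have act_sum : ∀ (s : Finset (Fin P.d)) (c : Fin P.d → ℝ), Mo.act (∑ i ∈ s, c i • P.X i) =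
      ∑ i ∈ s, ((c i : ℝ) : ℂ) • Mo.act (P.X i) := by
    intro s c
    have h0 : Mo.act 0 = 0 := by
      have := Mo.act_smul 0 0
      simpa using this
    induction s using Finset.cons_induction with
    | empty => simpa using h0
    | cons i s hi ih => rw [Finset.sum_cons, Finset.sum_cons, Mo.act_add, Mo.act_smul, ih]
  constructor
  · intro Y
    set c : Fin P.d → Fin P.d → ℝ := fun j i => ((P.X j).1ᵀ * (R.br Y (P.X i)).1).trace with hc
    have hspan : ∀ i, R.br Y (P.X i) = ∑ j, c j i • P.X j := fun i => P.X_spans _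
    have h1 : ∀ i, Y.1 * (P.X i).1 - (P.X i).1 * Y.1 = ∑ j, c j i • (P.X j).1 := by
      intro i
      have := congrArg (fun Z : R.lie => Z.1) (hspan i)
      simp only [RealReductive.br, AddSubmonoidClass.coe_finsetSum, SetLike.val_smul] at this
      exact this
    have h2 : ∀ i, Mo.act Y * Mo.act (P.X i) - Mo.act (P.X i) * Mo.act Y =
        ∑ j, ((c j i : ℝ) : ℂ) • Mo.act (P.X j) := by
      intro i
      rw [← Mo.act_lie, hspan i, act_sum]
    have h3 : ∀ i j, P.e i * c j i + P.e j * c i j = 0 := by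
      intro i j
      have key : ∀ i j, c j i = P.e j * ((P.X j).1 * (Y.1 * (P.X i).1 - (P.X i).1 * Y.1)).trace := by
        intro i j
        simp only [hc, RealReductive.br, P.X_transpose j, Matrix.smul_mul, Matrix.trace_smul, smul_eq_mul]
      rw [key i j, key j i]
      have t1 : ((P.X j).1 * (Y.1 * (P.X i).1 - (P.X i).1 * Y.1)).trace +
          ((P.X i).1 * (Y.1 * (P.X j).1 - (P.X j).1 * Y.1)).trace = 0 := by
        rw [Matrix.mul_sub, Matrix.mul_sub, Matrix.trace_sub, Matrix.trace_sub,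
          ← Matrix.mul_assoc, ← Matrix.mul_assoc, ← Matrix.mul_assoc, ← Matrix.mul_assoc,
          Matrix.trace_mul_comm ((P.X j).1 * Y.1) (P.X i).1,
          Matrix.trace_mul_comm ((P.X i).1 * Y.1) (P.X j).1,
          ← Matrix.mul_assoc, ← Matrix.mul_assoc]
        ring
      linear_combination (P.e i * P.e j) * t1
    have hcomm := hCasComm_lie Y.1 (Mo.act Y) P.e (fun i => (P.X i).1) (fun i => Mo.act (P.X i)) c h1 h2 h3
    rw [← hX] at hcomm
    have hpow : Commute (Matrix.diagonal (fun _ => Mo.act Y) + hCasComm_S (Module.End ℂ V) Y.1)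
        (casMat P Mo ^ (j + 1)) := Commute.pow_right hcomm _
    have htr := congrArg Matrix.trace hpow.eq
    rw [Matrix.add_mul, Matrix.mul_add, Matrix.trace_add, Matrix.trace_add,
      hCasComm_trace_diag_mul, hCasComm_trace_mul_diag, hCasComm_trace_comm] at htr
    exact add_right_cancel htr
  · intro k
    set Q : M R.n := (R.ρ k.1 : M R.n) with hQ
    set Q' : M R.n := (R.ρ (k.1)⁻¹ : M R.n) with hQ'
    have hQQ' : Q * Q' = 1 := by
      rw [hQ, hQ', ← Units.val_mul, ← map_mul, mul_inv_cancel, map_one, Units.val_one]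
    have hQ'Q : Q' * Q = 1 := by
      rw [hQ, hQ', ← Units.val_mul, ← map_mul, inv_mul_cancel, map_one, Units.val_one]
    set o : Fin P.d → Fin P.d → ℝ := fun j i => ((P.X j).1ᵀ * (R.Ad k.1 (P.X i)).1).trace with ho
    have hspan : ∀ i, R.Ad k.1 (P.X i) = ∑ j, o j i • P.X j := fun i => P.X_spans _
    have h2 : ∀ i, Mo.kact k * Mo.act (P.X i) =
        (∑ j, ((o j i : ℝ) : ℂ) • Mo.act (P.X j)) * Mo.kact k := by
      intro i
      rw [Mo.compat, hspan i, act_sum]
    have h1 : ∀ j, P.e j • (Q' * (P.X j).1 * Q) = ∑ i, (P.e i * o j i) • (P.X i).1 := by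
      intro j
      have hs := congrArg (fun Z : R.lie => Z.1) (P.X_spans (R.Ad (k.1)⁻¹ (P.X j)))
      simp only [RealReductive.Ad, AddSubmonoidClass.coe_finsetSum, SetLike.val_smul, inv_inv] at hs
      rw [← hQ, ← hQ'] at hs
      rw [hs, Finset.smul_sum]
      refine Finset.sum_congr rfl fun i _ => ?_
      rw [smul_smul]
      congr 1
      simp only [ho, RealReductive.Ad, P.X_transpose, Matrix.smul_mul, Matrix.trace_smul, smul_eq_mul]
      rw [← hQ, ← hQ']
      have t1 : ((P.X i).1 * (Q' * (P.X j).1 * Q)).trace = ((P.X j).1 * (Q * (P.X i).1 * Q')).trace := by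
        rw [← Matrix.mul_assoc, Matrix.trace_mul_comm, ← Matrix.mul_assoc, ← Matrix.mul_assoc,
          ← Matrix.mul_assoc, Matrix.trace_mul_comm]
        simp only [Matrix.mul_assoc]
      rw [t1]
      ring
    have hcomm := hCasComm_grp Q Q' hQQ' (Mo.kact k) P.e (fun i => (P.X i).1)
      (fun i => Mo.act (P.X i)) o h1 h2
    rw [← hX] at hcomm
    have hpow : Commute (hCasComm_S (Module.End ℂ V) Q * Matrix.diagonal (fun _ => Mo.kact k))
        (casMat P Mo ^ (j + 1)) := Commute.pow_right hcomm _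
    have h4 := hpow.eq
    have h5 : Matrix.diagonal (fun _ => Mo.kact k) * (casMat P Mo ^ (j + 1)) =
        hCasComm_S (Module.End ℂ V) Q' * (casMat P Mo ^ (j + 1) *
          hCasComm_S (Module.End ℂ V) Q) * Matrix.diagonal (fun _ => Mo.kact k) := by
      have h6 := congrArg (fun Z => hCasComm_S (Module.End ℂ V) Q' * Z) h4
      simp only [← Matrix.mul_assoc] at h6 ⊢
      rw [← hCasComm_S_mul, hQ'Q, hCasComm_S_one, Matrix.one_mul] at h6
      exact h6
    have htr := congrArg Matrix.trace h5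
    rw [hCasComm_trace_diag_mul, hCasComm_trace_mul_diag, hCasComm_trace_comm, Matrix.mul_assoc,
      ← hCasComm_S_mul, hQQ', hCasComm_S_one, Matrix.mul_one] at htr
    exact htr

end Pool.Agent.H913.SG
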