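import Pool.Agent.H913.SG.Stmts2

open MeasureTheory Matrix NormedSpace
open scoped SchwartzMap ContDiff FourierTransform Matrix

universe u v

namespace Pool.Agent.H913.SG

/-- entries of the powers of a matrix with entries in an algebra -/
theorem hCasSym_pow {n d : ℕ} {A : Type v} [Ring A] [Algebra ℂ A]
    (Y : Fin d → Matrix (Fin n) (Fin n) ℂ) (b : Fin d → A) (k : ℕ) (a c : Fin n) :
    ((Matrix.of fun x y => ∑ i, (Y i x y) • b i : Matrix (Fin n) (Fin n) A) ^ k) a c =
      ∑ w : Fin k → Fin d, ((List.ofFn (fun i => Y (w i))).prod a c) •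
        (List.ofFn (fun i => b (w i))).prod := by
  induction k generalizing a c with
  | zero =>
    rw [pow_zero, Fintype.sum_unique]
    simp only [List.ofFn_zero, List.prod_nil, Matrix.one_apply]
    split_ifs <;> simp
  | succ k ih =>
    rw [pow_succ', Matrix.mul_apply]
    simp only [ih, Matrix.of_apply]
    have h1 : ∑ w : Fin (k + 1) → Fin d, ((List.ofFn (fun i => Y (w i))).prod a c) •
        (List.ofFn (fun i => b (w i))).prod =
        ∑ p : Fin d × (Fin k → Fin d), ((Y p.1 * (List.ofFn (fun i => Y (p.2 i))).prod) a c) •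
        (b p.1 * (List.ofFn (fun i => b (p.2 i))).prod) := by
      refine (Fintype.sum_equiv (Fin.consEquiv (fun _ => Fin d)) _ _ ?_).symm
      intro p
      simp [Fin.consEquiv, List.ofFn_succ]
    rw [h1, Fintype.sum_prod_type]
    have h2 : ∀ e, (∑ i, Y i a e • b i) * (∑ w : Fin k → Fin d,
        ((List.ofFn (fun i => Y (w i))).prod e c) • (List.ofFn (fun i => b (w i))).prod) =
        ∑ i, ∑ w : Fin k → Fin d, (Y i a e * (List.ofFn (fun i => Y (w i))).prod e c) •
          (b i * (List.ofFn (fun i => b (w i))).prod) := by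
      intro e
      rw [Finset.sum_mul]
      refine Finset.sum_congr rfl fun i _ => ?_
      rw [Finset.mul_sum]
      refine Finset.sum_congr rfl fun w _ => ?_
      rw [smul_mul_smul_comm]
    rw [Finset.sum_congr rfl fun e _ => h2 e, Finset.sum_comm]
    refine Finset.sum_congr rfl fun i _ => ?_
    rw [Finset.sum_comm]
    refine Finset.sum_congr rfl fun w _ => ?_
    rw [Matrix.mul_apply, Finset.sum_smul]

theorem hCasSym_trace {n d : ℕ} {A : Type v} [Ring A] [Algebra ℂ A]
    (Y : Fin d → Matrix (Fin n) (Fin n) ℂ) (b : Fin d → A) (k : ℕ) :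
    ((Matrix.of fun x y => ∑ i, (Y i x y) • b i : Matrix (Fin n) (Fin n) A) ^ k).trace =
      ∑ w : Fin k → Fin d, ((List.ofFn (fun i => Y (w i))).prod.trace) •
        (List.ofFn (fun i => b (w i))).prod := by
  rw [Matrix.trace]
  simp only [Matrix.diag_apply, hCasSym_pow]
  rw [Finset.sum_comm]
  refine Finset.sum_congr rfl fun w _ => ?_
  rw [← Finset.sum_smul]
  rfl

/-- TARGET -/
theorem cas_sym : S_cas_sym.{u} := by
  intro G _ _ R P V _ _ Mo j
  let Y : Fin P.d → Matrix (Fin R.n) (Fin R.n) ℂ := fun i =>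
    Matrix.of fun a b => ((P.e i * (P.X i).1 a b : ℝ) : ℂ)
  refine ⟨fun w => (List.ofFn (fun i => Y (w i))).prod.trace, ?_, ?_⟩
  · exact hCasSym_trace Y (fun i => Mo.act (P.X i)) (j + 1)
  · intro ξ
    have h1 := hCasSym_trace Y (fun i => 2 * (Real.pi : ℂ) * Complex.I * (ξ i : ℂ)) (j + 1)
    simp only [List.prod_ofFn, smul_eq_mul] at h1
    rw [← h1]
    have h2 : (Matrix.of fun x y => ∑ i, Y i x y * (2 * (Real.pi : ℂ) * Complex.I * (ξ i : ℂ)) :
        Matrix (Fin R.n) (Fin R.n) ℂ) =
        (2 * (Real.pi : ℂ) * Complex.I) • ((Complex.ofRealHom.mapMatrix (P.Xi ξ).1)) := by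
      ext x y
      rw [Matrix.smul_apply, RingHom.mapMatrix_apply, Matrix.map_apply, Matrix.of_apply]
      have h3 : (P.Xi ξ).1 = ∑ i, (P.e i * ξ i) • (P.X i).1 := by
        rw [Pack.Xi, Submodule.coe_sum]
        rfl
      rw [h3, Matrix.sum_apply, map_sum, smul_eq_mul, Finset.mul_sum]
      refine Finset.sum_congr rfl fun i _ => ?_
      show ((P.e i * (P.X i).1 x y : ℝ) : ℂ) * _ = _
      rw [Matrix.smul_apply, smul_eq_mul]
      simp only [Complex.ofRealHom_eq_coe]
      push_cast
      ring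
    rw [h2, smul_pow, ← map_pow, Matrix.trace_smul, smul_eq_mul]
    simp only [Matrix.trace, Matrix.diag_apply, RingHom.mapMatrix_apply, Matrix.map_apply,
      Complex.ofRealHom_eq_coe, Complex.ofReal_sum]

end Pool.Agent.H913.SG
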