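import Pool.Agent.H913.SG.Stmts2

/-! Contraction with uniform constants. -/

open MeasureTheory Matrix NormedSpace
open scoped SchwartzMap ContDiff FourierTransform Matrix

universe u v

namespace Pool.Agent.H913.SG

section
open scoped Matrix.Norms.Frobenius

theorem hContract_fro_eq {n : ℕ} (X : M n) : fro X = ‖X‖ := by
  rw [frobenius_norm_def, fro, Real.sqrt_eq_rpow]
  congr 1
  refine Finset.sum_congr rfl fun i _ => Finset.sum_congr rfl fun j _ => ?_
  rw [Real.norm_eq_abs, Real.rpow_two, sq_abs]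

theorem hContract_fro_mul {n : ℕ} (X Y : M n) : fro (X * Y) ≤ fro X * fro Y := by
  rw [hContract_fro_eq, hContract_fro_eq, hContract_fro_eq]
  exact frobenius_norm_mul X Y

theorem hContract_fro_smul {n : ℕ} (c : ℝ) (X : M n) : fro (c • X) = |c| * fro X := by
  rw [hContract_fro_eq, hContract_fro_eq, norm_smul, Real.norm_eq_abs]

theorem hContract_fro_nonneg {n : ℕ} (X : M n) : 0 ≤ fro X := Real.sqrt_nonneg _

theorem hContract_fro_eq_zero {n : ℕ} (X : M n) (h : fro X = 0) : X = 0 := by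
  rw [hContract_fro_eq] at h
  exact norm_eq_zero.mp h

theorem hContract_fro_transpose {n : ℕ} (X : M n) : fro Xᵀ = fro X := by
  rw [hContract_fro_eq, hContract_fro_eq, frobenius_norm_transpose]

end

theorem hContract_fro_continuous {n : ℕ} : Continuous (fro : M n → ℝ) := by
  unfold fro
  fun_prop

theorem hContract_fro_sq {n : ℕ} (X : M n) : fro X ^ 2 = (Xᵀ * X).trace := by
  unfold fro
  rw [Real.sq_sqrt (by positivity), Matrix.trace]
  simp only [Matrix.diag_apply, Matrix.mul_apply, Matrix.transpose_apply]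
  rw [Finset.sum_comm]
  refine Finset.sum_congr rfl fun i _ => Finset.sum_congr rfl fun j _ => ?_
  ring

theorem hContract_trace_le {n : ℕ} (X Y : M n) : |(X * Y).trace| ≤ fro X * fro Y := by
  have h : (X * Y).trace = ∑ p : Fin n × Fin n, X p.1 p.2 * Y p.2 p.1 := by
    rw [Matrix.trace, Fintype.sum_prod_type]
    simp only [Matrix.diag_apply, Matrix.mul_apply]
  have h1 := Finset.sum_mul_sq_le_sq_mul_sq Finset.univ (fun p : Fin n × Fin n => X p.1 p.2)
    (fun p : Fin n × Fin n => Y p.2 p.1)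
  have hX : ∑ p : Fin n × Fin n, X p.1 p.2 ^ 2 = fro X ^ 2 := by
    unfold fro
    rw [Real.sq_sqrt (by positivity), Fintype.sum_prod_type]
  have hY : ∑ p : Fin n × Fin n, Y p.2 p.1 ^ 2 = fro Y ^ 2 := by
    unfold fro
    rw [Real.sq_sqrt (by positivity), Fintype.sum_prod_type, Finset.sum_comm]
  rw [hX, hY, ← h, ← mul_pow] at h1
  exact abs_le_of_sq_le_sq h1 (mul_nonneg (hContract_fro_nonneg _) (hContract_fro_nonneg _))

variable {G : Type} [Group G] [TopologicalSpace G] {R : RealReductive G} (P : Pack R)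

theorem hContract_norm_co (Y : R.lie) : ‖P.co Y‖ = fro Y.1 := by
  have h : ‖P.co Y‖ ^ 2 = fro Y.1 ^ 2 := by
    rw [EuclideanSpace.norm_sq_eq, hContract_fro_sq]
    have hY : Y.1 = ∑ i, ((P.X i).1ᵀ * Y.1).trace • (P.X i).1 := by
      conv_lhs => rw [P.X_spans Y]
      simp
    have h2 : (Y.1ᵀ * Y.1).trace = ∑ i, ((P.X i).1ᵀ * Y.1).trace * ((P.X i).1ᵀ * Y.1).trace := by
      conv_lhs =>
        enter [1, 1]
        rw [hY]
      rw [Matrix.transpose_sum, Matrix.sum_mul, Matrix.trace_sum]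
      refine Finset.sum_congr rfl fun i _ => ?_
      rw [Matrix.transpose_smul, Matrix.smul_mul, Matrix.trace_smul, smul_eq_mul]
    rw [h2]
    refine Finset.sum_congr rfl fun i _ => ?_
    rw [Real.norm_eq_abs, sq_abs, sq]
    rfl
  exact (pow_left_inj₀ (norm_nonneg _) (hContract_fro_nonneg _) two_ne_zero).mp h

theorem hContract_inner (ξ : EE P.d) (Y : R.lie) :
    inner ℝ ξ (P.co Y) = ((P.Xi ξ).1 * Y.1).trace := by
  have h1 : (P.Xi ξ).1 = ∑ i, (P.e i * ξ i) • (P.X i).1 := by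
    unfold Pack.Xi
    simp
  rw [h1, Matrix.sum_mul, Matrix.trace_sum, PiLp.inner_apply]
  refine Finset.sum_congr rfl fun i _ => ?_
  rw [Matrix.smul_mul, Matrix.trace_smul, smul_eq_mul]
  have h2 : P.e i * P.e i = 1 := by
    rcases P.e_cases i with h | h <;> rw [h] <;> norm_num
  have h3 : (P.co Y) i = P.e i * ((P.X i).1 * Y.1).trace := by
    change ((P.X i).1ᵀ * Y.1).trace = _
    rw [P.X_transpose, Matrix.smul_mul, Matrix.trace_smul, smul_eq_mul]
  rw [h3]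
  simp only [RCLike.inner_apply, conj_trivial]
  ring

theorem hContract_e_sq (i : Fin P.d) : P.e i * P.e i = 1 := by
  rcases P.e_cases i with h | h <;> rw [h] <;> norm_num

theorem hContract_Xi_val (ξ : EE P.d) : (P.Xi ξ).1 = ∑ i, (P.e i * ξ i) • (P.X i).1 := by
  unfold Pack.Xi
  simp

theorem hContract_fro_Xi (ξ : EE P.d) : fro (P.Xi ξ).1 = ‖ξ‖ := by
  rw [← hContract_norm_co]
  have h : ‖P.co (P.Xi ξ)‖ ^ 2 = ‖ξ‖ ^ 2 := by
    rw [EuclideanSpace.norm_sq_eq, EuclideanSpace.norm_sq_eq]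
    refine Finset.sum_congr rfl fun i _ => ?_
    have h1 : (P.co (P.Xi ξ)) i = P.e i * ξ i := by
      change ((P.X i).1ᵀ * (P.Xi ξ).1).trace = _
      rw [hContract_Xi_val, Matrix.mul_sum, Matrix.trace_sum]
      rw [Finset.sum_eq_single i]
      · rw [Matrix.mul_smul, Matrix.trace_smul, P.X_orth]
        simp
      · intro j _ hj
        rw [Matrix.mul_smul, Matrix.trace_smul, P.X_orth]
        simp [Ne.symm hj]
      · simp
    rw [h1, norm_mul, mul_pow]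
    have : ‖P.e i‖ = 1 := by
      rcases P.e_cases i with h | h <;> rw [h] <;> norm_num
    rw [this]
    ring
  exact (pow_left_inj₀ (norm_nonneg _) (norm_nonneg _) two_ne_zero).mp h

theorem hContract_exists_Xi (Y : R.lie) : ∃ ξ : EE P.d, P.Xi ξ = Y := by
  refine ⟨WithLp.toLp 2 (fun i => P.e i * ((P.X i).1ᵀ * Y.1).trace), ?_⟩
  conv_rhs => rw [P.X_spans Y]
  unfold Pack.Xi
  refine Finset.sum_congr rfl fun i _ => ?_
  congr 1
  change P.e i * (P.e i * _) = _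
  rw [← mul_assoc, hContract_e_sq, one_mul]

theorem hContract_Xi_smul (c : ℝ) (ξ : EE P.d) : P.Xi (c • ξ) = c • P.Xi ξ := by
  unfold Pack.Xi
  rw [Finset.smul_sum]
  refine Finset.sum_congr rfl fun i _ => ?_
  rw [smul_smul]
  congr 1
  simp only [PiLp.smul_apply, smul_eq_mul]
  ring

theorem hContract_Xi_continuous : Continuous (fun ξ => (P.Xi ξ).1) := by
  simp only [hContract_Xi_val]
  fun_prop

theorem hContract_Ad_mul (g h : G) (X : R.lie) : R.Ad (g * h) X = R.Ad g (R.Ad h X) := by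
  apply Subtype.ext
  change (R.ρ (g * h) : M R.n) * X.1 * (R.ρ (g * h)⁻¹ : M R.n) =
    (R.ρ g : M R.n) * ((R.ρ h : M R.n) * X.1 * (R.ρ h⁻¹ : M R.n)) * (R.ρ g⁻¹ : M R.n)
  rw [_root_.mul_inv_rev, map_mul, map_mul, Units.val_mul, Units.val_mul]
  simp only [Matrix.mul_assoc]

theorem hContract_Ad_one (X : R.lie) : R.Ad 1 X = X := by
  apply Subtype.ext
  change (R.ρ (1 : G) : M R.n) * X.1 * (R.ρ (1 : G)⁻¹ : M R.n) = X.1
  simp

theorem hContract_inv_mul (g : G) : (R.ρ g⁻¹ : M R.n) * (R.ρ g : M R.n) = 1 := by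
  rw [← Units.val_mul, ← map_mul]
  simp

theorem hContract_nilp_Ad (g : G) (X : R.lie) (hX : IsNilpotent X.1) :
    IsNilpotent (R.Ad g X).1 := by
  obtain ⟨k, hk⟩ := hX
  refine ⟨k, ?_⟩
  have : ∀ m : ℕ, (R.Ad g X).1 ^ m = (R.ρ g : M R.n) * X.1 ^ m * (R.ρ g⁻¹ : M R.n) := by
    intro m
    induction m with
    | zero =>
      rw [pow_zero, pow_zero, Matrix.mul_one, ← Units.val_mul, ← map_mul]
      simp
    | succ m ih =>
      rw [pow_succ, ih]
      change (R.ρ g : M R.n) * X.1 ^ m * (R.ρ g⁻¹ : M R.n) *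
        ((R.ρ g : M R.n) * X.1 * (R.ρ g⁻¹ : M R.n)) = _
      have h := hContract_inv_mul (R := R) g
      calc _ = (R.ρ g : M R.n) * X.1 ^ m * ((R.ρ g⁻¹ : M R.n) *
        (R.ρ g : M R.n)) * X.1 * (R.ρ g⁻¹ : M R.n) := by simp only [Matrix.mul_assoc]
        _ = _ := by rw [h, Matrix.mul_one, pow_succ]; simp only [Matrix.mul_assoc]
  rw [this, hk]
  simp

theorem hContract_nilp_pow {n : ℕ} (A : M n) (h : IsNilpotent A) : A ^ n = 0 := by
  have h1 := Matrix.isNilpotent_charpoly_sub_pow_of_isNilpotent h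
  have h2 : A.charpoly = Polynomial.X ^ (Fintype.card (Fin n)) := by
    have := h1.eq_zero
    exact sub_eq_zero.mp this
  have h3 := Matrix.aeval_self_charpoly A
  rw [h2] at h3
  simpa using h3

theorem hContract_isClosed_NN : IsClosed P.NN := by
  have : P.NN = {ξ | (P.Xi ξ).1 ^ R.n = 0} := by
    ext ξ
    exact ⟨fun h => hContract_nilp_pow _ h, fun h => ⟨R.n, h⟩⟩
  rw [this]
  exact isClosed_eq ((hContract_Xi_continuous P).pow _) continuous_const

theorem hContract_step [IsTopologicalGroup G] [T2Space G] (h1 : S_con1) :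
    ∃ T : Finset G, (1 : G) ∈ T ∧ (∀ g ∈ T, g ∈ P.Gp) ∧
      ∀ X : R.lie, IsNilpotent X.1 → ∃ g ∈ T, fro (R.Ad g X).1 ≤ 2⁻¹ * fro X.1 := by
  classical
  have hcomp : IsCompact (P.NN ∩ Metric.sphere (0 : EE P.d) 1) :=
    (isCompact_sphere (0 : EE P.d) 1).inter_left (hContract_isClosed_NN P)
  have hcov : P.NN ∩ Metric.sphere (0 : EE P.d) 1 ⊆
      ⋃ g : P.Gp, {ξ : EE P.d | fro (R.Ad g.1 (P.Xi ξ)).1 < 2⁻¹} := by
    intro ξ hξ
    obtain ⟨g, hg, hlt⟩ := h1 G R P (P.Xi ξ) hξ.1 2⁻¹ (by norm_num)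
    exact Set.mem_iUnion.mpr ⟨⟨g, hg⟩, hlt⟩
  have hopen : ∀ g : P.Gp, IsOpen {ξ : EE P.d | fro (R.Ad g.1 (P.Xi ξ)).1 < 2⁻¹} := by
    intro g
    refine isOpen_lt (hContract_fro_continuous.comp ?_) continuous_const
    change Continuous (fun ξ => (R.ρ g.1 : M R.n) * (P.Xi ξ).1 * (R.ρ g.1⁻¹ : M R.n))
    have := hContract_Xi_continuous P
    fun_prop
  obtain ⟨t, ht⟩ := hcomp.elim_finite_subcover _ hopen hcov
  refine ⟨insert 1 (t.image (fun g => g.1)), Finset.mem_insert_self _ _, ?_, ?_⟩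
  · intro g hg
    rw [Finset.mem_insert, Finset.mem_image] at hg
    rcases hg with rfl | ⟨g', _, rfl⟩
    · exact P.Gp.one_mem
    · exact g'.2
  · intro X hX
    obtain ⟨ξ, rfl⟩ := hContract_exists_Xi P X
    by_cases h0 : ξ = 0
    · refine ⟨1, Finset.mem_insert_self _ _, ?_⟩
      have h0' : fro (P.Xi ξ).1 = 0 := by rw [hContract_fro_Xi, h0, norm_zero]
      rw [hContract_Ad_one, h0']
      norm_num
    · have hpos : 0 < ‖ξ‖ := norm_pos_iff.mpr h0
      have hmem : ‖ξ‖⁻¹ • ξ ∈ P.NN ∩ Metric.sphere (0 : EE P.d) 1 := by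
        constructor
        · change IsNilpotent (P.Xi (‖ξ‖⁻¹ • ξ)).1
          rw [hContract_Xi_smul]
          obtain ⟨k, hk⟩ := hX
          refine ⟨k, ?_⟩
          change (‖ξ‖⁻¹ • (P.Xi ξ).1) ^ k = 0
          rw [smul_pow, hk, smul_zero]
        · rw [mem_sphere_zero_iff_norm, norm_smul, norm_inv, norm_norm,
            inv_mul_cancel₀ hpos.ne']
      have := ht hmem
      simp only [Set.mem_iUnion] at this
      obtain ⟨g, hg, hlt⟩ := this
      refine ⟨g.1, Finset.mem_insert_of_mem (Finset.mem_image.mpr ⟨g, hg, rfl⟩), ?_⟩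
      have hlt' : fro (R.Ad g.1 (P.Xi (‖ξ‖⁻¹ • ξ))).1 < 2⁻¹ := hlt
      have heq : (R.Ad g.1 (P.Xi (‖ξ‖⁻¹ • ξ))).1 = ‖ξ‖⁻¹ • (R.Ad g.1 (P.Xi ξ)).1 := by
        rw [hContract_Xi_smul]
        change (R.ρ g.1 : M R.n) * (‖ξ‖⁻¹ • (P.Xi ξ).1) * (R.ρ g.1⁻¹ : M R.n) =
          ‖ξ‖⁻¹ • ((R.ρ g.1 : M R.n) * (P.Xi ξ).1 * (R.ρ g.1⁻¹ : M R.n))
        rw [Matrix.mul_smul, Matrix.smul_mul]
      rw [heq, hContract_fro_smul, abs_inv, abs_norm, inv_mul_lt_iff₀ hpos] at hlt'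
      rw [hContract_fro_Xi]
      linarith

theorem hContract_fro_Ad_le (g : G) (Y : R.lie) :
    fro (R.Ad g Y).1 ≤ fro (R.ρ g : M R.n) * fro (R.ρ g⁻¹ : M R.n) * fro Y.1 := by
  change fro ((R.ρ g : M R.n) * Y.1 * (R.ρ g⁻¹ : M R.n)) ≤ _
  calc _ ≤ fro ((R.ρ g : M R.n) * Y.1) * fro (R.ρ g⁻¹ : M R.n) := hContract_fro_mul _ _
    _ ≤ (fro (R.ρ g : M R.n) * fro Y.1) * fro (R.ρ g⁻¹ : M R.n) :=
      mul_le_mul_of_nonneg_right (hContract_fro_mul _ _) (hContract_fro_nonneg _)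
    _ = _ := by ring

/-- TARGET -/
theorem contract (h1 : S_con1) : S_contract := by
  classical
  intro G _ _ _ _ R P w hw
  obtain ⟨T, hT1, hTG, hT⟩ := hContract_step P h1
  let A : ℝ := 1 + ∑ g ∈ T, fro (R.ρ g⁻¹ : M R.n) * fro (R.ρ g : M R.n)
  let B : ℝ := 1 + w 1 * w 1 + ∑ g ∈ T, w g * w g⁻¹
  have hsumA : 0 ≤ ∑ g ∈ T, fro (R.ρ g⁻¹ : M R.n) * fro (R.ρ g : M R.n) :=
    Finset.sum_nonneg fun g _ => mul_nonneg (hContract_fro_nonneg _) (hContract_fro_nonneg _)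
  have hsumB : 0 ≤ ∑ g ∈ T, w g * w g⁻¹ :=
    Finset.sum_nonneg fun g _ => mul_nonneg (hw.pos _).le (hw.pos _).le
  have hw1 : 0 ≤ w 1 * w 1 := mul_self_nonneg _
  have hA : 1 ≤ A := by change 1 ≤ 1 + _; linarith
  have hB : 1 ≤ B := by change 1 ≤ 1 + _ + _; linarith
  have hAg : ∀ g ∈ T, ∀ Y : R.lie, fro (R.Ad g⁻¹ Y).1 ≤ A * fro Y.1 := by
    intro g hg Y
    have h2 := hContract_fro_Ad_le g⁻¹ Y
    rw [inv_inv] at h2
    refine h2.trans (mul_le_mul_of_nonneg_right ?_ (hContract_fro_nonneg _))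
    have h3 := Finset.single_le_sum (f := fun g => fro (R.ρ g⁻¹ : M R.n) * fro (R.ρ g : M R.n))
      (fun g _ => mul_nonneg (hContract_fro_nonneg _) (hContract_fro_nonneg _)) hg
    change _ ≤ 1 + _
    linarith
  have hBg : ∀ g ∈ T, w g * w g⁻¹ ≤ B := by
    intro g hg
    have h3 := Finset.single_le_sum (f := fun g => w g * w g⁻¹)
      (fun g _ => mul_nonneg (hw.pos _).le (hw.pos _).le) hg
    change _ ≤ 1 + _ + _
    linarith
  have key : ∀ l : ℕ, ∀ X : R.lie, IsNilpotent X.1 → ∃ g ∈ P.Gp,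
      fro (R.Ad g X).1 ≤ (2⁻¹ : ℝ) ^ l * fro X.1 ∧
      (∀ Y : R.lie, fro (R.Ad g⁻¹ Y).1 ≤ A ^ l * fro Y.1) ∧ w g * w g⁻¹ ≤ B ^ (l + 1) := by
    intro l
    induction l with
    | zero =>
      intro X hX
      refine ⟨1, P.Gp.one_mem, ?_, ?_, ?_⟩
      · rw [hContract_Ad_one, pow_zero, one_mul]
      · intro Y
        rw [inv_one, hContract_Ad_one, pow_zero, one_mul]
      · rw [inv_one, zero_add, pow_one]
        change _ ≤ 1 + _ + _
        linarith
    | succ l ih =>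
      intro X hX
      obtain ⟨g', hg', e1, e2, e3⟩ := ih X hX
      obtain ⟨g, hg, e4⟩ := hT (R.Ad g' X) (hContract_nilp_Ad g' X hX)
      refine ⟨g * g', P.Gp.mul_mem (hTG g hg) hg', ?_, ?_, ?_⟩
      · rw [hContract_Ad_mul, pow_succ]
        calc _ ≤ 2⁻¹ * fro (R.Ad g' X).1 := e4
          _ ≤ 2⁻¹ * ((2⁻¹ : ℝ) ^ l * fro X.1) := by
            apply mul_le_mul_of_nonneg_left e1; norm_num
          _ = _ := by ring
      · intro Y
        rw [_root_.mul_inv_rev, hContract_Ad_mul]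
        calc _ ≤ A ^ l * fro (R.Ad g⁻¹ Y).1 := e2 _
          _ ≤ A ^ l * (A * fro Y.1) :=
            mul_le_mul_of_nonneg_left (hAg g hg Y) (pow_nonneg (by linarith) _)
          _ = _ := by ring
      · have s1 := hw.submul g g'
        have s2 := hw.submul g'⁻¹ g⁻¹
        rw [_root_.mul_inv_rev]
        calc _ ≤ (w g * w g') * (w g'⁻¹ * w g⁻¹) :=
              mul_le_mul s1 s2 (hw.pos _).le (mul_nonneg (hw.pos _).le (hw.pos _).le)
          _ = (w g' * w g'⁻¹) * (w g * w g⁻¹) := by ring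
          _ ≤ B ^ (l + 1) * B := mul_le_mul e3 (hBg g hg)
              (mul_nonneg (hw.pos _).le (hw.pos _).le) (pow_nonneg (by linarith) _)
          _ = _ := by ring
  refine ⟨A, B, hA, hB, ?_⟩
  intro l ξ hξ hn
  obtain ⟨g, hg, e1, e2, e3⟩ := key l (P.Xi ξ) hξ
  refine ⟨g, hg, ?_, ?_, e3⟩
  · intro X _ hX1
    rw [hContract_inner]
    have h5 : ((P.Xi ξ).1 * (R.Ad g⁻¹ X).1).trace = ((R.Ad g (P.Xi ξ)).1 * X.1).trace := by
      change ((P.Xi ξ).1 * ((R.ρ g⁻¹ : M R.n) * X.1 * (R.ρ g⁻¹⁻¹ : M R.n))).trace =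
        (((R.ρ g : M R.n) * (P.Xi ξ).1 * (R.ρ g⁻¹ : M R.n)) * X.1).trace
      rw [inv_inv, ← Matrix.mul_assoc, Matrix.trace_mul_comm]
      simp only [Matrix.mul_assoc]
    rw [h5]
    calc _ ≤ fro (R.Ad g (P.Xi ξ)).1 * fro X.1 := hContract_trace_le _ _
      _ ≤ ((2⁻¹ : ℝ) ^ l * fro (P.Xi ξ).1) * 1 :=
        mul_le_mul e1 hX1 (hContract_fro_nonneg _)
          (mul_nonneg (by positivity) (hContract_fro_nonneg _))
      _ ≤ ((2⁻¹ : ℝ) ^ l * 3) * 1 := by
        rw [hContract_fro_Xi]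
        apply mul_le_mul_of_nonneg_right _ zero_le_one
        apply mul_le_mul_of_nonneg_left hn (by positivity)
      _ = _ := by ring
  · intro X _ hX1
    rw [hContract_norm_co]
    calc _ ≤ A ^ l * fro X.1 := e2 X
      _ ≤ A ^ l * 1 := mul_le_mul_of_nonneg_left hX1 (pow_nonneg (by linarith) _)
      _ = _ := mul_one _

end Pool.Agent.H913.SG
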