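import Pool.Agent.H913.SG.Stmts2

open MeasureTheory Matrix NormedSpace
open scoped SchwartzMap ContDiff FourierTransform Matrix

universe u v

namespace Pool.Agent.H913.SG

lemma hNil_tr {n : ℕ} (A : M n) (h : ∀ j : ℕ, (A ^ (j + 1)).trace = 0) (r : Polynomial ℝ) :
    (Polynomial.aeval A (r * Polynomial.X)).trace = 0 := by
  induction r using Polynomial.induction_on' with
  | add p q hp hq => rw [add_mul, map_add, Matrix.trace_add, hp, hq, add_zero]
  | monomial k a =>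
    rw [← Polynomial.C_mul_X_pow_eq_monomial, mul_assoc, ← pow_succ, map_mul, Polynomial.aeval_C,
      map_pow, Polynomial.aeval_X, Algebra.algebraMap_eq_smul_one, smul_mul_assoc, one_mul,
      Matrix.trace_smul, h, smul_zero]

lemma hNil_idem {n : ℕ} (E : M n) (h : E * E = E) (ht : E.trace = 0) : E = 0 := by
  have h1 : IsIdempotentElem (Matrix.toLin' E) := by
    rw [IsIdempotentElem, Module.End.mul_eq_comp, ← Matrix.toLin'_mul, h]
  have h2 : LinearMap.trace ℝ _ (Matrix.toLin' E) = 0 := by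
    rw [Matrix.trace_toLin'_eq, ht]
  have h3 := (LinearMap.IsIdempotentElem.trace_eq_zero_iff h1).1 h2
  exact (Matrix.toLin').map_eq_zero_iff.1 h3

/-- TARGET 1 -/
theorem nil : S_nil := by
  intro n A h
  obtain ⟨q, hq, hq2⟩ := Polynomial.exists_eq_pow_rootMultiplicity_mul_and_not_dvd (minpoly ℝ A)
    (minpoly.ne_zero (Matrix.isIntegral A)) 0
  rw [Polynomial.C_0, sub_zero] at hq hq2
  generalize Polynomial.rootMultiplicity 0 (minpoly ℝ A) = k at hq
  have hco : IsCoprime ((Polynomial.X : Polynomial ℝ) ^ (k + 1)) q :=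
    (IsCoprime.pow_left ((Polynomial.irreducible_X.coprime_iff_not_dvd).2 hq2))
  obtain ⟨u, v, huv⟩ := hco
  have hmin : Polynomial.aeval A (Polynomial.X ^ k * q) = 0 := by rw [← hq, minpoly.aeval]
  set E : M n := Polynomial.aeval A (u * Polynomial.X ^ (k + 1)) with hE
  set F : M n := Polynomial.aeval A (v * q) with hF
  have hEF : E + F = 1 := by rw [hE, hF, ← map_add, huv, map_one]
  have hEF0 : E * F = 0 := by
    rw [hE, hF, ← map_mul]
    have : u * Polynomial.X ^ (k + 1) * (v * q) = (u * v * Polynomial.X) * (Polynomial.X ^ k * q) := by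
      ring
    rw [this, map_mul, hmin, mul_zero]
  have hEE : E * E = E := by
    have h1 : E * (E + F) = E := by rw [hEF, mul_one]
    rw [mul_add, hEF0, add_zero] at h1
    exact h1
  have htr : E.trace = 0 := by
    have := hNil_tr A h (u * Polynomial.X ^ k)
    rwa [mul_assoc, ← pow_succ] at this
  have hE0 := hNil_idem E hEE htr
  rw [hE0, zero_add] at hEF
  refine ⟨k, ?_⟩
  have h2 : A ^ k * F = 0 := by
    rw [hF]
    have h3 : A ^ k = Polynomial.aeval A (Polynomial.X ^ k : Polynomial ℝ) := by simp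
    rw [h3, ← map_mul]
    have : Polynomial.X ^ k * (v * q) = v * (Polynomial.X ^ k * q) := by ring
    rw [this, map_mul, hmin, mul_zero]
  rw [hEF, mul_one] at h2
  exact h2


lemma hNil_fro_sq {n : ℕ} (A : M n) : fro A ^ 2 = (Aᵀ * A).trace := by
  have h : fro A ^ 2 = ∑ i, ∑ j, A i j ^ 2 :=
    Real.sq_sqrt (Finset.sum_nonneg fun i _ => Finset.sum_nonneg fun j _ => sq_nonneg _)
  rw [h, Finset.sum_comm, Matrix.trace]
  refine Finset.sum_congr rfl fun j _ => ?_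
  rw [Matrix.diag_apply, Matrix.mul_apply]
  refine Finset.sum_congr rfl fun i _ => ?_
  rw [Matrix.transpose_apply, pow_two]

lemma hNil_fro_nonneg {n : ℕ} (A : M n) : 0 ≤ fro A := Real.sqrt_nonneg _

lemma hNil_fro_entry {n : ℕ} (A : M n) (i j : Fin n) : |A i j| ≤ fro A := by
  unfold fro
  rw [← Real.sqrt_sq_eq_abs]
  refine Real.sqrt_le_sqrt ?_
  have h1 : A i j ^ 2 ≤ ∑ j, A i j ^ 2 :=
    Finset.single_le_sum (f := fun j => A i j ^ 2) (fun j _ => sq_nonneg _) (Finset.mem_univ j)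
  have h2 : ∑ j, A i j ^ 2 ≤ ∑ i, ∑ j, A i j ^ 2 :=
    Finset.single_le_sum (f := fun i => ∑ j, A i j ^ 2)
      (fun i _ => Finset.sum_nonneg fun j _ => sq_nonneg _) (Finset.mem_univ i)
  exact h1.trans h2

lemma hNil_fro_zero {n : ℕ} : fro (0 : M n) = 0 := by
  unfold fro
  simp

lemma hNil_eq_zero {n : ℕ} (A : M n) (h : fro A = 0) : A = 0 := by
  ext i j
  have := hNil_fro_entry A i j
  rw [h] at this
  simpa using abs_nonpos_iff.1 this

lemma hNil_cont {n : ℕ} : Continuous (fun A : M n => fro A) := by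
  unfold fro
  fun_prop

lemma hNil_sym {n : ℕ} (S : M n) (hS : Sᵀ = S) (k : ℕ) (h : S ^ k = 0) : S = 0 := by
  have key : ∀ j : ℕ, S ^ (2 ^ j) = 0 → S = 0 := by
    intro j
    induction j with
    | zero => intro h; simpa using h
    | succ j ih =>
      intro h
      apply ih
      apply hNil_eq_zero
      have h1 : fro (S ^ (2 ^ j)) ^ 2 = 0 := by
        rw [hNil_fro_sq, Matrix.transpose_pow, hS, ← pow_add, ← two_mul, ← pow_succ', h,
          Matrix.trace_zero]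
      exact pow_eq_zero_iff two_ne_zero |>.1 h1
  exact key k (pow_eq_zero_of_le Nat.lt_two_pow_self.le h)

lemma hNil_normal {n : ℕ} (Y : M n) (h : Y * Yᵀ = Yᵀ * Y) (k : ℕ) (hk : Y ^ k = 0) : Y = 0 := by
  have h1 : Yᵀ * Y = 0 := by
    refine hNil_sym _ ?_ k ?_
    · rw [Matrix.transpose_mul, Matrix.transpose_transpose]
    · rw [(show Commute Yᵀ Y from h.symm).mul_pow, hk, mul_zero]
  apply hNil_eq_zero
  have h2 : fro Y ^ 2 = 0 := by rw [hNil_fro_sq, h1, Matrix.trace_zero]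
  exact pow_eq_zero_iff two_ne_zero |>.1 h2

lemma hNil_compact {n : ℕ} (r : ℝ) : IsCompact {A : M n | ∀ i j, A i j ∈ Set.Icc (-r) r} := by
  have h := isCompact_univ_pi (fun _ : Fin n => isCompact_univ_pi (fun _ : Fin n =>
    (isCompact_Icc : IsCompact (Set.Icc (-r) r))))
  have e : {A : M n | ∀ i j, A i j ∈ Set.Icc (-r) r} =
      Set.pi Set.univ (fun _ : Fin n => Set.pi Set.univ (fun _ : Fin n => Set.Icc (-r) r)) := by
    ext A
    exact ⟨fun h i _ j _ => h i j, fun h i j => h i trivial j trivial⟩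
  rw [e]
  exact h


set_option backward.isDefEq.respectTransparency false in
lemma hNil_deriv {n : ℕ} (Y Z : M n) :
    HasDerivAt (fun s : ℝ => (Yᵀ * exp (s • Z) * Y * exp ((-s) • Z)).trace)
      (Z * (Y * Yᵀ - Yᵀ * Y)).trace 0 := by
  let _ : NormedRing (M n) := Matrix.linftyOpNormedRing
  let _ : NormedAlgebra ℝ (M n) := Matrix.linftyOpNormedAlgebra
  have h1 : HasDerivAt (fun s : ℝ => exp (s • Z)) (exp ((0 : ℝ) • Z) * Z) 0 :=
    hasDerivAt_exp_smul_const (𝕂 := ℝ) Z (0 : ℝ)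
  rw [zero_smul, exp_zero, one_mul] at h1
  have h2 : HasDerivAt (fun s : ℝ => exp ((-s) • Z)) (-Z) 0 := by
    have h3 : HasDerivAt (fun s : ℝ => exp (s • Z)) Z (-0) := by
      rw [neg_zero]; exact h1
    have h4 := h3.scomp (0 : ℝ) (hasDerivAt_neg (0 : ℝ))
    rw [neg_smul, one_smul] at h4
    exact h4
  have h4 : HasDerivAt (fun s : ℝ => Yᵀ * exp (s • Z) * Y * exp ((-s) • Z))
      (Yᵀ * Z * Y - Yᵀ * Y * Z) 0 := by
    have h5 := ((h1.const_mul Yᵀ).mul_const Y).mul h2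
    have h6 : Yᵀ * Z * Y * exp ((-(0 : ℝ)) • Z) + Yᵀ * exp ((0 : ℝ) • Z) * Y * -Z =
      Yᵀ * Z * Y - Yᵀ * Y * Z := by
      rw [neg_zero, zero_smul, exp_zero, mul_one, mul_one, mul_neg, sub_eq_add_neg]
    rw [h6] at h5
    exact h5
  have h5 : HasDerivAt (fun s : ℝ => (Yᵀ * exp (s • Z) * Y * exp ((-s) • Z)).trace)
      (Yᵀ * Z * Y - Yᵀ * Y * Z).trace 0 := by
    have hL := (LinearMap.toContinuousLinearMap (Matrix.traceLinearMap (Fin n) ℝ ℝ)).hasFDerivAt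
      (x := Yᵀ * exp ((0 : ℝ) • Z) * Y * exp ((-(0 : ℝ)) • Z))
    exact hL.comp_hasDerivAt (0 : ℝ) h4
  have h6 : (Yᵀ * Z * Y - Yᵀ * Y * Z).trace = (Z * (Y * Yᵀ - Yᵀ * Y)).trace := by
    rw [Matrix.trace_sub, Matrix.mul_sub, Matrix.trace_sub]
    congr 1
    · rw [Matrix.mul_assoc, Matrix.trace_mul_comm, Matrix.mul_assoc]
    · rw [Matrix.trace_mul_comm]
  rw [← h6]
  exact h5

lemma hNil_exp_symm {n : ℕ} (Z : M n) (hZ : Zᵀ = Z) (t : ℝ) : (exp (t • Z))ᵀ = exp (t • Z) := by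
  rw [← Matrix.exp_transpose, Matrix.transpose_smul, hZ]

lemma hNil_exp_add {n : ℕ} (Z : M n) (s t : ℝ) : exp (s • Z) * exp (t • Z) = exp ((s + t) • Z) := by
  rw [add_smul, Matrix.exp_add_of_commute]
  exact ((Commute.refl Z).smul_left s).smul_right t

lemma hNil_phi {n : ℕ} (Y Z : M n) (hZ : Zᵀ = Z) (t : ℝ) :
    fro (exp (t • Z) * Y * exp ((-t) • Z)) ^ 2 =
      (Yᵀ * exp ((2 * t) • Z) * Y * exp ((-(2 * t)) • Z)).trace := by
  rw [hNil_fro_sq, Matrix.transpose_mul, Matrix.transpose_mul, hNil_exp_symm Z hZ,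
    hNil_exp_symm Z hZ]
  have e1 : exp ((2 * t) • Z) = exp (t • Z) * exp (t • Z) := by
    rw [hNil_exp_add]; congr 2; ring
  have e2 : exp ((-(2 * t)) • Z) = exp ((-t) • Z) * exp ((-t) • Z) := by
    rw [hNil_exp_add]; congr 2; ring
  rw [e1, e2]
  have e3 : exp ((-t) • Z) * (Yᵀ * exp (t • Z)) * (exp (t • Z) * Y * exp ((-t) • Z)) =
      exp ((-t) • Z) * (Yᵀ * (exp (t • Z) * exp (t • Z)) * Y * exp ((-t) • Z)) := by
    simp only [Matrix.mul_assoc]
  rw [e3, Matrix.trace_mul_comm]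
  simp only [Matrix.mul_assoc]

lemma hNil_min {n : ℕ} (Y : M n)
    (h : ∀ t : ℝ, fro Y ≤ fro (exp (t • (Y * Yᵀ - Yᵀ * Y)) * Y * exp ((-t) • (Y * Yᵀ - Yᵀ * Y)))) :
    Y * Yᵀ = Yᵀ * Y := by
  have hZ : (Y * Yᵀ - Yᵀ * Y)ᵀ = Y * Yᵀ - Yᵀ * Y := by
    rw [Matrix.transpose_sub, Matrix.transpose_mul, Matrix.transpose_mul,
      Matrix.transpose_transpose]
  set Z := Y * Yᵀ - Yᵀ * Y with hZd
  have hd := hNil_deriv Y Z
  rw [← hZd] at hd
  have hmin : IsLocalMin (fun s : ℝ => (Yᵀ * exp (s • Z) * Y * exp ((-s) • Z)).trace) 0 := by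
    refine Filter.Eventually.of_forall fun s => ?_
    have h1 := hNil_phi Y Z hZ (s / 2)
    have h2 := hNil_phi Y Z hZ 0
    have h3 : 2 * (s / 2) = s := by ring
    rw [h3] at h1
    rw [mul_zero] at h2
    have h4 := h (s / 2)
    have h5 : exp ((0 : ℝ) • Z) * Y * exp ((-(0 : ℝ)) • Z) = Y := by
      rw [neg_zero, zero_smul, exp_zero, one_mul, mul_one]
    rw [h5] at h2
    show (Yᵀ * exp ((0 : ℝ) • Z) * Y * exp ((-(0 : ℝ)) • Z)).trace ≤
      (Yᵀ * exp (s • Z) * Y * exp ((-s) • Z)).trace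
    rw [← h1, ← h2]
    exact pow_le_pow_left₀ (hNil_fro_nonneg _) h4 2
  have h0 := hmin.hasDerivAt_eq_zero hd
  have h1 : fro Z ^ 2 = 0 := by
    rw [hNil_fro_sq, hZ]
    exact h0
  have h2 := hNil_eq_zero Z (pow_eq_zero_iff two_ne_zero |>.1 h1)
  exact sub_eq_zero.1 h2

/-- TARGET 2 -/
theorem con1 : S_con1 := by
  intro G _ _ _ _ R P X hX ε hε
  obtain ⟨k, hk⟩ := hX
  obtain ⟨O, hO⟩ : ∃ O : Set (M R.n), ∀ Y, Y ∈ O ↔ ∃ g ∈ P.Gp, Y = (R.Ad g X).1 :=
    ⟨{Y | ∃ g ∈ P.Gp, Y = (R.Ad g X).1}, fun _ => Iff.rfl⟩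
  have hinv : ∀ g : G, (R.ρ g⁻¹ : M R.n) * (R.ρ g : M R.n) = 1 := by
    intro g
    rw [← Units.val_mul, ← map_mul, inv_mul_cancel, map_one, Units.val_one]
  -- the closure is invariant
  have hclos : ∀ g ∈ P.Gp, ∀ Y ∈ closure O,
      (R.ρ g : M R.n) * Y * (R.ρ g⁻¹ : M R.n) ∈ closure O := by
    intro g hg Y hY
    refine map_mem_closure (f := fun Y : M R.n => (R.ρ g : M R.n) * Y * (R.ρ g⁻¹ : M R.n))
      (by fun_prop) hY ?_
    intro Y' hY'
    obtain ⟨g', hg', rfl⟩ := (hO _).1 hY'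
    refine (hO _).2 ⟨g * g', P.Gp.mul_mem hg hg', ?_⟩
    show (R.ρ g : M R.n) * ((R.ρ g' : M R.n) * X.1 * (R.ρ g'⁻¹ : M R.n)) * (R.ρ g⁻¹ : M R.n) =
      (R.ρ (g * g') : M R.n) * X.1 * (R.ρ (g * g')⁻¹ : M R.n)
    rw [_root_.mul_inv_rev, map_mul, map_mul, Units.val_mul, Units.val_mul]
    simp only [Matrix.mul_assoc]
  have hXO : X.1 ∈ O := by
    refine (hO _).2 ⟨1, P.Gp.one_mem, ?_⟩
    show X.1 = (R.ρ 1 : M R.n) * X.1 * (R.ρ 1⁻¹ : M R.n)
    rw [inv_one, map_one, Units.val_one, one_mul, mul_one]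
  have hlie : ∀ Y ∈ closure O, Y ∈ R.lie := by
    intro Y hY
    have hcl : IsClosed (R.lie : Set (M R.n)) := Submodule.closed_of_finiteDimensional _
    refine closure_minimal ?_ hcl hY
    intro Y' hY'
    obtain ⟨g', _, rfl⟩ := (hO _).1 hY'
    exact (R.Ad g' X).2
  have hnil : ∀ Y ∈ closure O, Y ^ k = 0 := by
    intro Y hY
    have hcl : IsClosed {Y : M R.n | Y ^ k = 0} :=
      isClosed_eq (continuous_pow k) continuous_const
    refine closure_minimal ?_ hcl hY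
    intro Y' hY'
    obtain ⟨g', _, rfl⟩ := (hO _).1 hY'
    show ((R.ρ g' : M R.n) * X.1 * (R.ρ g'⁻¹ : M R.n)) ^ k = 0
    have h1 : ∀ j : ℕ, ((R.ρ g' : M R.n) * X.1 * (R.ρ g'⁻¹ : M R.n)) ^ j =
        (R.ρ g' : M R.n) * X.1 ^ j * (R.ρ g'⁻¹ : M R.n) := by
      intro j
      induction j with
      | zero =>
        rw [pow_zero, pow_zero, mul_one, ← Units.val_mul, ← map_mul, mul_inv_cancel, map_one,
          Units.val_one]
      | succ j ih =>
        rw [pow_succ, ih, pow_succ]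
        have h2 : (R.ρ g' : M R.n) * X.1 ^ j * (R.ρ g'⁻¹ : M R.n) *
            ((R.ρ g' : M R.n) * X.1 * (R.ρ g'⁻¹ : M R.n)) =
            (R.ρ g' : M R.n) * X.1 ^ j * ((R.ρ g'⁻¹ : M R.n) * (R.ρ g' : M R.n)) * X.1 *
              (R.ρ g'⁻¹ : M R.n) := by
          simp only [Matrix.mul_assoc]
        rw [h2, hinv, mul_one]
        simp only [Matrix.mul_assoc]
    rw [h1, hk, mul_zero, zero_mul]
  -- a minimum
  obtain ⟨Y, hYO, hYmin⟩ : ∃ Y ∈ closure O, ∀ Y' ∈ closure O, fro Y ≤ fro Y' := by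
    have hK : IsCompact ({A : M R.n | ∀ i j, A i j ∈ Set.Icc (-(fro X.1)) (fro X.1)} ∩
        (closure O ∩ {A | fro A ≤ fro X.1})) :=
      (hNil_compact _).inter_right
        (isClosed_closure.inter (isClosed_le hNil_cont continuous_const))
    have hbd : ∀ A : M R.n, fro A ≤ fro X.1 →
        A ∈ {A : M R.n | ∀ i j, A i j ∈ Set.Icc (-(fro X.1)) (fro X.1)} := by
      intro A hA i j
      exact abs_le.1 ((hNil_fro_entry A i j).trans hA)
    obtain ⟨Y, hY, hYm⟩ := hK.exists_isMinOn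
      ⟨X.1, hbd _ le_rfl, subset_closure hXO, le_refl (fro X.1)⟩ hNil_cont.continuousOn
    refine ⟨Y, hY.2.1, fun Y' hY' => ?_⟩
    by_cases hc : fro Y' ≤ fro X.1
    · exact hYm ⟨hbd _ hc, hY', hc⟩
    · exact (show fro Y ≤ fro X.1 from hY.2.2).trans (not_le.1 hc).le
  have hYl := hlie Y hYO
  -- the one-parameter group
  have hcomm : Y * Yᵀ = Yᵀ * Y := by
    refine hNil_min Y fun t => ?_
    obtain ⟨Z, hZ⟩ : ∃ Z : R.lie, Z.1 = Y * Yᵀ - Yᵀ * Y :=
      ⟨⟨_, R.lieSet_lie hYl (P.transpose_mem Y hYl)⟩, rfl⟩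
    obtain ⟨_, hadd, hexp⟩ := P.gam_spec Z
    have h1 : P.gam Z 0 = 1 := by
      have := hadd 0 0
      rw [add_zero] at this
      exact (mul_eq_left.1 this.symm)
    have h2 : (P.gam Z t)⁻¹ = P.gam Z (-t) := by
      rw [inv_eq_iff_mul_eq_one, ← hadd, add_neg_cancel, h1]
    have h3 : P.gam Z t ∈ P.Gp := Subgroup.subset_closure ⟨Z, t, rfl⟩
    have h4 := hYmin _ (hclos _ h3 Y hYO)
    rw [h2, hexp, hexp, hZ] at h4
    exact h4
  have hY0 : Y = 0 := hNil_normal Y hcomm k (hnil Y hYO)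
  rw [hY0] at hYO
  have hopen : IsOpen {A : M R.n | fro A < ε} := isOpen_lt hNil_cont continuous_const
  obtain ⟨A, hA1, hA2⟩ := mem_closure_iff.1 hYO _ hopen (by
    show fro (0 : M R.n) < ε
    rw [hNil_fro_zero]
    exact hε)
  obtain ⟨g, hg, rfl⟩ := (hO _).1 hA2
  exact ⟨g, hg, hA1⟩

end Pool.Agent.H913.SG
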