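import Pool.Agent.H913.SG.Stmts2

open MeasureTheory Matrix NormedSpace
open scoped SchwartzMap ContDiff FourierTransform Matrix

universe u v

namespace Pool.Agent.H913.SG

theorem jKrep_onb {U : Type u} [AddCommGroup U] [Module ℂ U] [FiniteDimensional ℂ U]
    (ip : U → U → ℂ)
    (h1 : ∀ x y z, ∀ c : ℂ, ip x (c • y + z) = c * ip x y + ip x z)
    (h2 : ∀ x y, ip y x = (starRingEnd ℂ) (ip x y))
    (h3 : ∀ x, x ≠ 0 → 0 < (ip x x).re) :
    ∃ (d : ℕ) (b : Module.Basis (Fin d) ℂ U), ∀ i j, ip (b i) (b j) = if i = j then 1 else 0 := by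
  have h0 : ∀ x, ip x 0 = 0 := by
    intro x
    have := h1 x 0 0 1
    simp only [smul_zero, add_zero, one_mul] at this
    have h : ip x 0 + 0 = ip x 0 + ip x 0 := by rw [add_zero]; exact this
    exact (add_left_cancel h).symm
  let core : InnerProductSpace.Core ℂ U :=
    { inner := ip
      conj_inner_symm := fun x y => (h2 y x).symm
      re_inner_nonneg := fun x => by
        by_cases hx : x = 0
        · subst hx; simp [h0]
        · exact (h3 x hx).le
      add_left := fun x y z => by
        have := h1 z x y 1
        simp only [one_smul, one_mul] at this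
        rw [h2 z (x + y), this, map_add, ← h2, ← h2]
      smul_left := fun x y r => by
        have := h1 y x 0 r
        simp only [add_zero, h0] at this
        rw [h2 y (r • x), this, map_mul, ← h2]
      definite := fun x hx => by
        by_contra hne
        have := h3 x hne
        rw [hx] at this
        simp at this }
  letI : NormedAddCommGroup U := core.toNormedAddCommGroup
  letI : InnerProductSpace ℂ U := InnerProductSpace.ofCore core.toCore
  let b := stdOrthonormalBasis ℂ U
  refine ⟨Module.finrank ℂ U, b.toBasis, ?_⟩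
  intro i j
  have h := orthonormal_iff_ite.1 b.orthonormal i j
  rw [OrthonormalBasis.coe_toBasis]
  exact h

/-- realification of a complex matrix -/
noncomputable def jKrep_real {d : ℕ} (A : Matrix (Fin d) (Fin d) ℂ) : Matrix (Fin d ⊕ Fin d) (Fin d ⊕ Fin d) ℝ :=
  Matrix.fromBlocks (A.map Complex.re) (-(A.map Complex.im)) (A.map Complex.im) (A.map Complex.re)

theorem jKrep_real_mul {d : ℕ} (A B : Matrix (Fin d) (Fin d) ℂ) :
    jKrep_real (A * B) = jKrep_real A * jKrep_real B := by
  unfold jKrep_real
  rw [Matrix.fromBlocks_multiply]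
  have hre : (A * B).map Complex.re =
      A.map Complex.re * B.map Complex.re - A.map Complex.im * B.map Complex.im := by
    ext i j
    simp [Matrix.mul_apply, Complex.mul_re, Finset.sum_sub_distrib]
  have him : (A * B).map Complex.im =
      A.map Complex.re * B.map Complex.im + A.map Complex.im * B.map Complex.re := by
    ext i j
    simp [Matrix.mul_apply, Complex.mul_im, Finset.sum_add_distrib]
  rw [hre, him]
  congr 1
  · rw [Matrix.neg_mul]; abel
  · rw [Matrix.mul_neg, Matrix.neg_mul]; abel
  · abel
  · rw [Matrix.mul_neg]; abel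

theorem jKrep_real_one {d : ℕ} : jKrep_real (1 : Matrix (Fin d) (Fin d) ℂ) = 1 := by
  unfold jKrep_real
  have h1 : (1 : Matrix (Fin d) (Fin d) ℂ).map Complex.re = 1 := by
    ext i j
    simp only [Matrix.map_apply, Matrix.one_apply]
    split_ifs <;> simp
  have h2 : (1 : Matrix (Fin d) (Fin d) ℂ).map Complex.im = 0 := by
    ext i j
    simp only [Matrix.map_apply, Matrix.one_apply, Matrix.zero_apply]
    split_ifs <;> simp
  rw [h1, h2, neg_zero, Matrix.fromBlocks_one]

theorem jKrep_real_transpose {d : ℕ} (A : Matrix (Fin d) (Fin d) ℂ) :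
    (jKrep_real A)ᵀ = jKrep_real Aᴴ := by
  unfold jKrep_real
  rw [Matrix.fromBlocks_transpose]
  congr 1 <;> (ext i j; simp)

theorem jKrep_real_inj {d : ℕ} {A : Matrix (Fin d) (Fin d) ℂ} (h : jKrep_real A = 1) : A = 1 := by
  rw [← jKrep_real_one] at h
  unfold jKrep_real at h
  rw [Matrix.fromBlocks_inj] at h
  obtain ⟨h1, -, h2, -⟩ := h
  ext i j
  apply Complex.ext
  · exact congrFun (congrFun h1 i) j
  · exact congrFun (congrFun h2 i) j

/-- TARGET -/
theorem krep (h1 : S_inner.{u}) : S_krep.{u} := by
  intro G _ _ _ _ _ R P V _ _ Mo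
  classical
  let F := {k : R.K // R.ρ k.1 = 1}
  have hF : Finite F := by
    have : Set.Finite {k : R.K | R.ρ k.1 = 1} := by
      have h := R.finite_ker
      exact Set.Finite.preimage (f := fun k : R.K => k.1) Subtype.val_injective.injOn h
    exact this.to_subtype
  have hvf : ∀ f : F, ∃ v : V, Mo.kact f.1 ≠ 1 → Mo.kact f.1 v ≠ v := by
    intro f
    by_cases h : Mo.kact f.1 = 1
    · exact ⟨0, fun h' => absurd h h'⟩
    · by_contra hc
      push Not at hc
      apply h
      ext v
      simpa using (hc v).2
  choose vf hvf using hvf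
  let V0 : Submodule ℂ V := ⨆ f : F, Submodule.span ℂ (Set.range fun k => Mo.kact k (vf f))
  haveI : ∀ f : F, FiniteDimensional ℂ (Submodule.span ℂ (Set.range fun k => Mo.kact k (vf f))) :=
    fun f => Mo.kfinite (vf f)
  have hfd : FiniteDimensional ℂ V0 := Submodule.finiteDimensional_iSup _
  have hst : ∀ k, ∀ v ∈ V0, Mo.kact k v ∈ V0 := by
    intro k
    have : V0 ≤ V0.comap (Mo.kact k) := by
      refine iSup_le fun f => ?_
      rw [Submodule.span_le]
      rintro _ ⟨k', rfl⟩
      simp only [Submodule.comap_coe, Set.mem_preimage, SetLike.mem_coe]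
      have h : Mo.kact k (Mo.kact k' (vf f)) = Mo.kact (k * k') (vf f) := by
        rw [map_mul]; rfl
      rw [h]
      exact Submodule.mem_iSup_of_mem f (Submodule.subset_span ⟨k * k', rfl⟩)
    exact fun v hv => this hv
  have hvmem : ∀ f : F, vf f ∈ V0 := by
    intro f
    refine Submodule.mem_iSup_of_mem f (Submodule.subset_span ⟨1, ?_⟩)
    simp
  obtain ⟨-, ip, ip1, ip2, ip3, ip4, -⟩ := h1 G R P V Mo V0 hfd hst
  obtain ⟨d, b, hb⟩ := jKrep_onb (U := V0) (fun x y => ip x y)
    (fun x y z c => ip1 x x.2 y y.2 z z.2 c) (fun x y => ip2 x x.2 y y.2)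
    (fun x hx => ip3 x x.2 (by simpa using hx))
  -- the restricted action
  let res : R.K →* Module.End ℂ V0 :=
    { toFun := fun k => (Mo.kact k).restrict (hst k)
      map_one' := by
        ext x
        simp [LinearMap.restrict_apply]
      map_mul' := by
        intro k k'
        ext x
        simp [LinearMap.restrict_apply] }
  have hres : ∀ k (x : V0), ((res k x : V0) : V) = Mo.kact k x := fun k x => rfl
  let Um : R.K →* Matrix (Fin d) (Fin d) ℂ :=
    (LinearMap.toMatrixAlgEquiv b).toMonoidHom.comp res
  have hUm : ∀ k i j, Um k i j = b.repr (res k (b j)) i := by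
    intro k i j
    exact LinearMap.toMatrixAlgEquiv_apply b (res k) i j
  -- coordinates
  have hsum2 : ∀ (x : V0) (s : Finset (Fin d)) (c : Fin d → ℂ) (y : Fin d → V0),
      ip x ((∑ i ∈ s, c i • y i : V0) : V) = ∑ i ∈ s, c i * ip x (y i) := by
    intro x s c y
    have h0 : ip x ((0 : V0) : V) = 0 := by
      have := ip1 x x.2 0 V0.zero_mem 0 V0.zero_mem 1
      simp only [smul_zero, add_zero, one_mul] at this
      have h : ip x 0 + 0 = ip x 0 + ip x 0 := by rw [add_zero]; exact this
      simpa using (add_left_cancel h).symm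
    induction s using Finset.induction_on with
    | empty => simpa using h0
    | insert a s ha ih =>
      rw [Finset.sum_insert ha, Finset.sum_insert ha, ← ih]
      exact ip1 x x.2 (y a) (y a).2 _ (∑ i ∈ s, c i • y i : V0).2 (c a)
  have hcoord : ∀ (x y : V0), ip x y = ∑ i, (starRingEnd ℂ) (b.repr x i) * b.repr y i := by
    intro x y
    have e1 : ip x y = ∑ i, b.repr y i * ip x (b i) := by
      conv_lhs => rw [← b.sum_repr y]
      exact hsum2 x Finset.univ _ _
    rw [e1]
    refine Finset.sum_congr rfl fun i _ => ?_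
    have e2 : ip (b i) x = b.repr x i := by
      conv_lhs => rw [← b.sum_repr x]
      rw [hsum2 (b i) Finset.univ _ _]
      simp only [hb, mul_ite, mul_one, mul_zero]
      simp
    rw [ip2 (b i) (b i).2 x x.2, e2]
    ring
  have hunit : ∀ k, (Um k)ᴴ * Um k = 1 := by
    intro k
    ext i j
    rw [Matrix.mul_apply]
    simp only [Matrix.conjTranspose_apply, hUm]
    have := hcoord (res k (b i)) (res k (b j))
    rw [hres, hres, ip4 k (b i) (b i).2 (b j) (b j).2, hb] at this
    rw [Matrix.one_apply]
    rw [this]
    rfl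
  have hUcont : ∀ i j, Continuous fun k => Um k i j := by
    intro i j
    simp only [hUm]
    obtain ⟨g, hg⟩ := LinearMap.exists_extend (b.coord i : V0 →ₗ[ℂ] ℂ)
    have : (fun k => b.repr (res k (b j)) i) = fun k => g (Mo.kact k (b j)) := by
      funext k
      have := LinearMap.congr_fun hg (res k (b j))
      simp only [LinearMap.comp_apply, Submodule.subtype_apply, hres, Module.Basis.coord_apply] at this
      exact this.symm
    rw [this]
    exact Mo.kcont _ g
  -- the matrix of rho
  let ρm : R.K →* M R.n := (Units.coeHom (M R.n)).comp (R.ρ.comp R.K.subtype)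
  have hρm : ∀ k : R.K, ρm k = (R.ρ k.1 : M R.n) := fun k => rfl
  let bl : R.K →* Matrix (Fin R.n ⊕ (Fin d ⊕ Fin d)) (Fin R.n ⊕ (Fin d ⊕ Fin d)) ℝ :=
    { toFun := fun k => Matrix.fromBlocks (ρm k) 0 0 (jKrep_real (Um k))
      map_one' := by
        rw [map_one, map_one, jKrep_real_one, Matrix.fromBlocks_one]
      map_mul' := by
        intro k k'
        rw [map_mul, map_mul, jKrep_real_mul, Matrix.fromBlocks_multiply]
        simp }
  have hbl : ∀ k, bl k = Matrix.fromBlocks (ρm k) 0 0 (jKrep_real (Um k)) := fun k => rfl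
  let e := Fintype.equivFin (Fin R.n ⊕ (Fin d ⊕ Fin d))
  let σ : R.K →* Matrix (Fin (Fintype.card (Fin R.n ⊕ (Fin d ⊕ Fin d))))
      (Fin (Fintype.card (Fin R.n ⊕ (Fin d ⊕ Fin d)))) ℝ :=
    (Matrix.reindexAlgEquiv ℝ ℝ e).toMonoidHom.comp bl
  have hσ : ∀ k, σ k = (bl k).submatrix e.symm e.symm := fun k => rfl
  have hσe : ∀ k i j, σ k (e i) (e j) = bl k i j := by
    intro k i j
    rw [hσ]
    simp
  have hσone : ∀ k, σ k = 1 ↔ bl k = 1 := by
    intro k
    constructor
    · intro h
      ext i j
      rw [← hσe k i j, h, Matrix.one_apply, Matrix.one_apply]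
      simp
    · intro h
      rw [hσ, h]
      simp
  have hblone : ∀ k, bl k = 1 ↔ (ρm k = 1 ∧ Um k = 1) := by
    intro k
    rw [hbl, ← Matrix.fromBlocks_one, Matrix.fromBlocks_inj]
    constructor
    · rintro ⟨h1, -, -, h2⟩
      exact ⟨h1, jKrep_real_inj h2⟩
    · rintro ⟨h1, h2⟩
      refine ⟨h1, rfl, rfl, ?_⟩
      rw [h2, jKrep_real_one]
  have hUone : ∀ k, Um k = 1 ↔ res k = 1 := by
    intro k
    constructor
    · intro h
      have h' : (LinearMap.toMatrixAlgEquiv b) (res k) = (LinearMap.toMatrixAlgEquiv b) 1 := by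
        rw [map_one]; exact h
      exact (LinearMap.toMatrixAlgEquiv b).injective h'
    · intro h
      change (LinearMap.toMatrixAlgEquiv b) (res k) = 1
      rw [h, map_one]
  let s : KRep R :=
    { n' := _
      σ := σ
      cont := by
        refine continuous_matrix fun i j => ?_
        obtain ⟨i', rfl⟩ := e.surjective i
        obtain ⟨j', rfl⟩ := e.surjective j
        simp only [hσe, hbl]
        have hρc : Continuous fun k : R.K => ρm k := by
          simp only [hρm]
          exact Units.continuous_val.comp (R.ρ_continuous.comp continuous_subtype_val)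
        rcases i' with i' | i' | i' <;> rcases j' with j' | j' | j'
        · exact hρc.matrix_elem i' j'
        · exact continuous_const
        · exact continuous_const
        · exact continuous_const
        · exact Complex.continuous_re.comp (hUcont i' j')
        · exact (Complex.continuous_im.comp (hUcont i' j')).neg
        · exact continuous_const
        · exact Complex.continuous_im.comp (hUcont i' j')
        · exact Complex.continuous_re.comp (hUcont i' j')
      orth := by
        intro k
        rw [hσ, Matrix.transpose_submatrix, Matrix.submatrix_mul_equiv]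
        have : (bl k)ᵀ * bl k = 1 := by
          rw [hbl, Matrix.fromBlocks_transpose, Matrix.fromBlocks_multiply]
          have hk : (ρm k)ᵀ * ρm k = 1 := k.2
          have hk2 : (jKrep_real (Um k))ᵀ * jKrep_real (Um k) = 1 := by
            rw [jKrep_real_transpose, ← jKrep_real_mul, hunit, jKrep_real_one]
          rw [hk, hk2]
          simp
        rw [this]
        simp
      entries := by
        intro i j
        refine ⟨fun a b => if a = e (Sum.inl i) then (if b = e (Sum.inl j) then 1 else 0) else 0, ?_⟩
        intro k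
        simp only [ite_mul, one_mul, zero_mul]
        have : ∀ a, (∑ b, (if a = e (Sum.inl i) then if b = e (Sum.inl j) then σ k a b else 0 else 0))
            = if a = e (Sum.inl i) then σ k a (e (Sum.inl j)) else 0 := by
          intro a
          split_ifs
          · simp
          · simp
        simp only [this]
        simp only [Finset.sum_ite_eq', Finset.mem_univ, if_true]
        rw [hσe, hbl]
        rfl }
  refine ⟨s, ?_, ?_⟩
  · intro k hk
    have h2 : bl k = 1 := (hσone k).1 hk
    obtain ⟨h3, h4⟩ := (hblone k).1 h2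
    have h5 : R.ρ k.1 = 1 := Units.ext h3
    have h6 := (hUone k).1 h4
    by_contra hne
    have h7 := hvf ⟨k, h5⟩ hne
    apply h7
    have h8 := congrArg (fun T : Module.End ℂ V0 => ((T ⟨vf ⟨k, h5⟩, hvmem _⟩ : V0) : V)) h6
    simpa [hres] using h8
  · intro k hk1 hk2
    refine (hσone k).2 ((hblone k).2 ⟨?_, ?_⟩)
    · rw [hρm, hk1]; rfl
    · rw [hUone]
      ext x
      rw [hres, hk2]
      rfl

end Pool.Agent.H913.SG
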