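import Pool.Agent.H913.SG.Stmts2

open MeasureTheory Matrix NormedSpace
open scoped SchwartzMap ContDiff FourierTransform Matrix

universe u v

namespace Pool.Agent.H913.SG

/-- the squared norm is a trace -/
theorem kDoubling_fro_trace {n : ℕ} (X : M n) : fro X = Real.sqrt ((Xᵀ * X).trace) := by
  unfold fro
  congr 1
  rw [Matrix.trace]
  simp only [Matrix.diag_apply, Matrix.mul_apply, Matrix.transpose_apply]
  rw [Finset.sum_comm]
  refine Finset.sum_congr rfl fun j _ => Finset.sum_congr rfl fun i _ => ?_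
  ring

/-- the norm is invariant under left multiplication by orthogonal matrices -/
theorem kDoubling_fro_orth {n : ℕ} (O X : M n) (hO : Oᵀ * O = 1) : fro (O * X) = fro X := by
  rw [kDoubling_fro_trace, kDoubling_fro_trace, Matrix.transpose_mul]
  congr 2
  calc Xᵀ * Oᵀ * (O * X) = Xᵀ * (Oᵀ * O) * X := by simp only [Matrix.mul_assoc]
    _ = Xᵀ * X := by rw [hO, Matrix.mul_one]

/-- the vector of entries -/
noncomputable def kDoubling_vec {n : ℕ} (X : M n) : EuclideanSpace ℝ (Fin n × Fin n) :=
  WithLp.toLp 2 (fun ij => X ij.1 ij.2)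

theorem kDoubling_norm_vec {n : ℕ} (X : M n) : ‖kDoubling_vec X‖ = fro X := by
  rw [EuclideanSpace.norm_eq]
  unfold fro
  congr 1
  rw [← Finset.univ_product_univ, Finset.sum_product]
  refine Finset.sum_congr rfl fun i _ => Finset.sum_congr rfl fun j _ => ?_
  simp [kDoubling_vec]

theorem kDoubling_vec_sub {n : ℕ} (X Y : M n) :
    kDoubling_vec (X - Y) = kDoubling_vec X - kDoubling_vec Y := by
  ext ij
  simp [kDoubling_vec]

theorem kDoubling_vec_smul {n : ℕ} (c : ℝ) (X : M n) :
    kDoubling_vec (c • X) = c • kDoubling_vec X := by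
  ext ij
  simp [kDoubling_vec]

/-- a separated family in the ball of radius `2 r` has at most `5 ^ (n ^ 2)` elements -/
theorem kDoubling_card {n : ℕ} {ι : Type} [DecidableEq ι] (t : Finset ι) (Y : ι → M n) (r : ℝ)
    (hr : 0 < r)
    (h2 : ∀ i ∈ t, fro (Y i) ≤ 2 * r) (hs : ∀ i ∈ t, ∀ j ∈ t, i ≠ j → r < fro (Y i - Y j)) :
    t.card ≤ 5 ^ (n ^ 2) := by
  classical
  set f : ι → EuclideanSpace ℝ (Fin n × Fin n) := fun i => kDoubling_vec (r⁻¹ • Y i) with hf
  have hsub : ∀ i j, ‖f i - f j‖ = r⁻¹ * fro (Y i - Y j) := by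
    intro i j
    rw [hf]
    simp only
    rw [← kDoubling_vec_sub, ← smul_sub, kDoubling_vec_smul, norm_smul, kDoubling_norm_vec,
      Real.norm_of_nonneg (inv_nonneg.2 hr.le)]
  have hinj : Set.InjOn f t := by
    intro i hi j hj hij
    by_contra hne
    have h1 := hs i hi j hj hne
    have h3 := hsub i j
    rw [hij, sub_self, norm_zero] at h3
    have h4 : 0 < r⁻¹ * fro (Y i - Y j) := mul_pos (inv_pos.2 hr) (hr.trans h1)
    linarith
  have hcard : (t.image f).card = t.card := Finset.card_image_of_injOn hinj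
  have := Besicovitch.card_le_of_separated (t.image f) (by
      intro c hc
      obtain ⟨i, hi, rfl⟩ := Finset.mem_image.1 hc
      rw [hf]
      simp only
      rw [kDoubling_vec_smul, norm_smul, kDoubling_norm_vec,
        Real.norm_of_nonneg (inv_nonneg.2 hr.le)]
      have := mul_le_mul_of_nonneg_left (h2 i hi) (inv_nonneg.2 hr.le)
      calc _ ≤ r⁻¹ * (2 * r) := this
        _ = 2 := by field_simp) (by
      intro c hc d hd hcd
      obtain ⟨i, hi, rfl⟩ := Finset.mem_image.1 hc
      obtain ⟨j, hj, rfl⟩ := Finset.mem_image.1 hd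
      have hne : i ≠ j := fun h => hcd (by rw [h])
      rw [hsub]
      have h1 := mul_le_mul_of_nonneg_left (hs i hi j hj hne).le (inv_nonneg.2 hr.le)
      rwa [inv_mul_cancel₀ hr.ne'] at h1)
  rw [hcard] at this
  rw [finrank_euclideanSpace, Fintype.card_prod, Fintype.card_fin] at this
  rwa [sq]

theorem kDoubling_dist_continuous {G : Type} [Group G] [TopologicalSpace G] {R : RealReductive G}
    (s : KRep R) : Continuous s.dist := by
  unfold KRep.dist fro
  refine Real.continuous_sqrt.comp ?_
  refine continuous_finsetSum _ fun i _ => continuous_finsetSum _ fun j _ => ?_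
  refine Continuous.pow ?_ 2
  exact (s.cont.sub continuous_const).matrix_elem i j

theorem kDoubling_dist_one {G : Type} [Group G] [TopologicalSpace G] {R : RealReductive G}
    (s : KRep R) : s.dist 1 = 0 := by
  unfold KRep.dist fro
  simp

theorem kDoubling_dist_inv_mul {G : Type} [Group G] [TopologicalSpace G] {R : RealReductive G}
    (s : KRep R) (k k' : R.K) : s.dist (k⁻¹ * k') = fro (s.σ k' - s.σ k) := by
  have h : s.σ k * (s.σ (k⁻¹ * k') - 1) = s.σ k' - s.σ k := by
    rw [Matrix.mul_sub, ← map_mul, mul_inv_cancel_left, Matrix.mul_one]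
  rw [← h, kDoubling_fro_orth _ _ (s.orth k)]
  rfl

theorem kDoubling_exists_max {α : Type} (P : Finset α → Prop) (h0 : P ∅) (B : ℕ)
    (hB : ∀ t, P t → t.card ≤ B) : ∃ t, P t ∧ ∀ t', P t' → t'.card ≤ t.card := by
  classical
  have hex : ∃ m : ℕ, ∃ t, P t ∧ B - t.card = m := ⟨_, ∅, h0, rfl⟩
  obtain ⟨t, ht, htm⟩ := Nat.find_spec hex
  refine ⟨t, ht, fun t' ht' => ?_⟩
  have h1 := Nat.find_min' hex ⟨t', ht', rfl⟩
  have h2 := hB t ht
  have h3 := hB t' ht'
  omega

/-- TARGET -/
theorem doubling : S_doubling := by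
  intro G _ _ _ _ _ R _ s _ _ μ _ _
  classical
  refine ⟨kDoubling_dist_continuous s, ?_, ?_⟩
  · intro r hr
    have hopen : IsOpen {k | s.dist k < r} :=
      isOpen_lt (kDoubling_dist_continuous s) continuous_const
    have hne : {k | s.dist k < r}.Nonempty := ⟨1, by simp [kDoubling_dist_one, hr]⟩
    have h1 : 0 < μ {k | s.dist k < r} := hopen.measure_pos μ hne
    have h2 : 0 < μ {k | s.dist k ≤ r} :=
      lt_of_lt_of_le h1 (measure_mono fun k hk => le_of_lt (show s.dist k < r from hk))
    exact ENNReal.toReal_pos h2.ne' (measure_ne_top μ _)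
  · intro r hr
    set P : Finset R.K → Prop := fun t => (∀ k ∈ t, s.dist k ≤ 2 * r) ∧
      ∀ i ∈ t, ∀ j ∈ t, i ≠ j → r < fro (s.σ i - s.σ j) with hP
    have hB : ∀ t, P t → t.card ≤ 5 ^ (s.n' ^ 2) := by
      rintro t ⟨h1, h2⟩
      refine kDoubling_card t (fun k => s.σ k - 1) r hr (fun k hk => h1 k hk) ?_
      intro i hi j hj hij
      simpa using h2 i hi j hj hij
    obtain ⟨t, ht, hmax⟩ := kDoubling_exists_max P ⟨by simp, by simp⟩ _ hB
    have hcov : {k | s.dist k ≤ 2 * r} ⊆ ⋃ i ∈ t, (fun k => i⁻¹ * k) ⁻¹' {k | s.dist k ≤ r} := by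
      intro k hk
      simp only [Set.mem_iUnion, Set.mem_preimage, Set.mem_ofPred_eq, exists_prop]
      by_contra hcon
      push Not at hcon
      have hsep : ∀ i ∈ t, r < fro (s.σ k - s.σ i) := by
        intro i hi
        rw [← kDoubling_dist_inv_mul]
        exact hcon i hi
      have hkt : k ∉ t := by
        intro hkt
        have := hsep k hkt
        rw [sub_self] at this
        have h0 : fro (0 : M s.n') = 0 := by simp [fro]
        linarith
      have hsymm : ∀ X Y : M s.n', fro (X - Y) = fro (Y - X) := by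
        intro X Y
        rw [← kDoubling_norm_vec, ← kDoubling_norm_vec, kDoubling_vec_sub, kDoubling_vec_sub,
          norm_sub_rev]
      have hins : P (insert k t) := by
        refine ⟨?_, ?_⟩
        · intro i hi
          rcases Finset.mem_insert.1 hi with rfl | hi
          · exact hk
          · exact ht.1 i hi
        · intro i hi j hj hij
          rcases Finset.mem_insert.1 hi with hi | hi <;> rcases Finset.mem_insert.1 hj with hj | hj
          · exact absurd (hi.trans hj.symm) hij
          · rw [hi]; exact hsep j hj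
          · rw [hj, hsymm]; exact hsep i hi
          · exact ht.2 i hi j hj hij
      have := hmax _ hins
      rw [Finset.card_insert_of_notMem hkt] at this
      omega
    have hle : μ {k | s.dist k ≤ 2 * r} ≤ (t.card : ENNReal) * μ {k | s.dist k ≤ r} := by
      calc μ {k | s.dist k ≤ 2 * r} ≤ μ (⋃ i ∈ t, (fun k => i⁻¹ * k) ⁻¹' {k | s.dist k ≤ r}) :=
            measure_mono hcov
        _ ≤ ∑ i ∈ t, μ ((fun k => i⁻¹ * k) ⁻¹' {k | s.dist k ≤ r}) :=
            measure_biUnion_finset_le _ _
        _ = ∑ i ∈ t, μ {k | s.dist k ≤ r} := by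
            refine Finset.sum_congr rfl fun i _ => ?_
            exact measure_preimage_mul μ i⁻¹ _
        _ = (t.card : ENNReal) * μ {k | s.dist k ≤ r} := by
            rw [Finset.sum_const, nsmul_eq_mul]
    have hreal : μ.real {k | s.dist k ≤ 2 * r} ≤ (t.card : ℝ) * μ.real {k | s.dist k ≤ r} := by
      have h1 := ENNReal.toReal_mono (ENNReal.mul_ne_top (ENNReal.natCast_ne_top _)
        (measure_ne_top μ _)) hle
      rwa [ENNReal.toReal_mul, ENNReal.toReal_natCast] at h1
    refine hreal.trans ?_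
    refine mul_le_mul_of_nonneg_right ?_ measureReal_nonneg
    exact_mod_cast hB t ht

end Pool.Agent.H913.SG
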