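import Pool.Agent.H913.SG.Stmts2

open MeasureTheory Matrix NormedSpace
open scoped SchwartzMap ContDiff FourierTransform Matrix

universe u v

namespace Pool.Agent.H913.SG

/-- the polynomial with value cos (n θ) at cos θ -/
noncomputable def kFejer_T : ℕ → Polynomial ℝ
  | 0 => 1
  | 1 => Polynomial.X
  | (n + 2) => Polynomial.C 2 * Polynomial.X * kFejer_T (n + 1) - kFejer_T n

/-- Dirichlet type sums -/
noncomputable def kFejer_D : ℕ → Polynomial ℝ
  | 0 => 1
  | (n + 1) => kFejer_D n + Polynomial.C 2 * kFejer_T (n + 1)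

/-- Fejer type sums -/
noncomputable def kFejer_P : ℕ → Polynomial ℝ
  | 0 => 0
  | (n + 1) => kFejer_P n + kFejer_D n

theorem kFejer_T_cos (θ : ℝ) : ∀ n : ℕ, (kFejer_T n).eval (Real.cos θ) = Real.cos (n * θ)
  | 0 => by simp [kFejer_T]
  | 1 => by simp [kFejer_T]
  | (n + 2) => by
    have h1 := kFejer_T_cos θ (n + 1)
    have h2 := kFejer_T_cos θ n
    rw [kFejer_T]
    simp only [Polynomial.eval_sub, Polynomial.eval_mul, Polynomial.eval_C, Polynomial.eval_X, h1,
      h2]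
    push_cast
    have e1 : ((n : ℝ) + 2) * θ = ((n : ℝ) + 1) * θ + θ := by ring
    have e2 : (n : ℝ) * θ = ((n : ℝ) + 1) * θ - θ := by ring
    rw [e1, e2, Real.cos_add, Real.cos_sub]
    ring

theorem kFejer_T_deg : ∀ n : ℕ, (kFejer_T n).natDegree ≤ n
  | 0 => by simp [kFejer_T]
  | 1 => by simp [kFejer_T]
  | (n + 2) => by
    rw [kFejer_T]
    refine (Polynomial.natDegree_sub_le _ _).trans (max_le ?_ ?_)
    · refine Polynomial.natDegree_mul_le.trans ?_
      have h1 := kFejer_T_deg (n + 1)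
      have h2 : (Polynomial.C (2 : ℝ) * Polynomial.X).natDegree ≤ 1 :=
        (Polynomial.natDegree_C_mul_le _ _).trans Polynomial.natDegree_X_le
      omega
    · have := kFejer_T_deg n
      omega

theorem kFejer_D_deg : ∀ n : ℕ, (kFejer_D n).natDegree ≤ n
  | 0 => by simp [kFejer_D]
  | (n + 1) => by
    rw [kFejer_D]
    refine (Polynomial.natDegree_add_le _ _).trans (max_le ?_ ?_)
    · exact (kFejer_D_deg n).trans (Nat.le_succ n)
    · exact (Polynomial.natDegree_C_mul_le _ _).trans (kFejer_T_deg (n + 1))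

theorem kFejer_P_deg : ∀ n : ℕ, (kFejer_P n).natDegree ≤ n
  | 0 => by simp [kFejer_P]
  | (n + 1) => by
    rw [kFejer_P]
    refine (Polynomial.natDegree_add_le _ _).trans (max_le ?_ ?_)
    · exact (kFejer_P_deg n).trans (Nat.le_succ n)
    · exact (kFejer_D_deg n).trans (Nat.le_succ n)

theorem kFejer_D_id (x : ℝ) : ∀ n : ℕ, (kFejer_D n).eval x * (1 - x) =
    (kFejer_T n).eval x - (kFejer_T (n + 1)).eval x
  | 0 => by simp [kFejer_D, kFejer_T]
  | (n + 1) => by
    rw [kFejer_D, Polynomial.eval_add, add_mul, kFejer_D_id x n, Polynomial.eval_mul,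
      Polynomial.eval_C, show n + 1 + 1 = n + 2 from rfl]
    rw [show kFejer_T (n + 2) = Polynomial.C 2 * Polynomial.X * kFejer_T (n + 1) - kFejer_T n from
      by rw [kFejer_T]]
    simp only [Polynomial.eval_sub, Polynomial.eval_mul, Polynomial.eval_C, Polynomial.eval_X]
    ring

theorem kFejer_P_id (x : ℝ) : ∀ n : ℕ, (kFejer_P n).eval x * (1 - x) = 1 - (kFejer_T n).eval x
  | 0 => by simp [kFejer_P, kFejer_T]
  | (n + 1) => by
    rw [kFejer_P, Polynomial.eval_add, add_mul, kFejer_P_id x n, kFejer_D_id x n]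
    ring

theorem kFejer_T_abs {x : ℝ} (h1 : -1 ≤ x) (h2 : x ≤ 1) (n : ℕ) : |(kFejer_T n).eval x| ≤ 1 := by
  rw [← Real.cos_arccos h1 h2, kFejer_T_cos]
  exact Real.abs_cos_le_one _

theorem kFejer_D_le {x : ℝ} (h1 : -1 ≤ x) (h2 : x ≤ 1) : ∀ n : ℕ,
    (kFejer_D n).eval x ≤ 2 * n + 1
  | 0 => by simp [kFejer_D]
  | (n + 1) => by
    have h3 := kFejer_D_le h1 h2 n
    have h4 := (abs_le.mp (kFejer_T_abs h1 h2 (n + 1))).2
    rw [kFejer_D, Polynomial.eval_add, Polynomial.eval_mul, Polynomial.eval_C]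
    push_cast
    linarith

theorem kFejer_P_le {x : ℝ} (h1 : -1 ≤ x) (h2 : x ≤ 1) : ∀ n : ℕ,
    (kFejer_P n).eval x ≤ (n : ℝ) ^ 2
  | 0 => by simp [kFejer_P]
  | (n + 1) => by
    have h3 := kFejer_P_le h1 h2 n
    have h4 := kFejer_D_le h1 h2 n
    rw [kFejer_P, Polynomial.eval_add]
    push_cast
    linarith

theorem kFejer_T_one (n : ℕ) : (kFejer_T n).eval 1 = 1 := by
  have := kFejer_T_cos 0 n
  simpa using this

theorem kFejer_D_one : ∀ n : ℕ, (kFejer_D n).eval 1 = 2 * n + 1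
  | 0 => by simp [kFejer_D]
  | (n + 1) => by
    rw [kFejer_D, Polynomial.eval_add, Polynomial.eval_mul, Polynomial.eval_C, kFejer_T_one,
      kFejer_D_one n]
    push_cast
    ring

theorem kFejer_P_one : ∀ n : ℕ, (kFejer_P n).eval 1 = (n : ℝ) ^ 2
  | 0 => by simp [kFejer_P]
  | (n + 1) => by
    rw [kFejer_P, Polynomial.eval_add, kFejer_D_one, kFejer_P_one n]
    push_cast
    ring

theorem kFejer_P_nonneg {x : ℝ} (h1 : -1 ≤ x) (h2 : x ≤ 1) (n : ℕ) :
    0 ≤ (kFejer_P n).eval x := by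
  rcases h2.lt_or_eq with h | h
  · have h3 := kFejer_P_id x n
    have h4 := (abs_le.mp (kFejer_T_abs h1 h2 n)).2
    have h5 : 0 < 1 - x := by linarith
    by_contra hneg
    push Not at hneg
    have := mul_neg_of_neg_of_pos hneg h5
    linarith
  · rw [h, kFejer_P_one]
    positivity

theorem kFejer_P_lower {x : ℝ} (h1 : -1 ≤ x) (h2 : x ≤ 1) (n : ℕ) (hn : 1 ≤ n)
    (h : (n : ℝ) ^ 2 * (1 - x) ≤ 1) : (1 / 4) * (n : ℝ) ^ 2 ≤ (kFejer_P n).eval x := by
  rcases h2.lt_or_eq with hx | hx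
  · set u : ℝ := Real.arccos x / 2 with hu
    have hu0 : 0 < u := by
      have := Real.arccos_pos.mpr hx
      rw [hu]; linarith
    have hupi : u ≤ Real.pi / 2 := by
      have := Real.arccos_le_pi x
      rw [hu]; linarith
    have hc : Real.cos (2 * u) = x := by
      rw [hu, mul_div_cancel₀ _ two_ne_zero, Real.cos_arccos h1 h2]
    have hcn : (kFejer_T n).eval x = Real.cos (2 * (n * u)) := by
      rw [← hc, kFejer_T_cos]
      congr 1; ring
    have hid := kFejer_P_id x n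
    rw [hcn, ← hc] at hid
    rw [← hc] at h ⊢
    have e1 : 1 - Real.cos (2 * u) = 2 * Real.sin u ^ 2 := by
      rw [Real.cos_two_mul]
      have := Real.sin_sq_add_cos_sq u
      linarith
    have e2 : 1 - Real.cos (2 * (n * u)) = 2 * Real.sin (n * u) ^ 2 := by
      rw [Real.cos_two_mul]
      have := Real.sin_sq_add_cos_sq (n * u)
      linarith
    rw [e1] at h hid
    rw [e2] at hid
    have hpi := Real.pi_pos
    have hn' : (1 : ℝ) ≤ n := by exact_mod_cast hn
    have hsin0 : 0 < Real.sin u := Real.sin_pos_of_pos_of_lt_pi hu0 (by linarith)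
    have hj := Real.mul_le_sin hu0.le hupi
    have hns : (n : ℝ) * Real.sin u ≤ 1 := by
      have h5 : ((n : ℝ) * Real.sin u) ^ 2 ≤ 1 := by nlinarith
      have h6 : 0 ≤ (n : ℝ) * Real.sin u := by positivity
      nlinarith
    have hnu : (n : ℝ) * u ≤ Real.pi / 2 := by
      have h5 : (n : ℝ) * (2 / Real.pi * u) ≤ 1 := le_trans (by gcongr) hns
      have h6 : (n : ℝ) * u = (n : ℝ) * (2 / Real.pi * u) * (Real.pi / 2) := by
        field_simp
      rw [h6]
      nlinarith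
    have hj2 := Real.mul_le_sin (by positivity : (0 : ℝ) ≤ n * u) hnu
    have hsu : Real.sin u ≤ u := Real.sin_le hu0.le
    have h7 : 2 / Real.pi * ((n : ℝ) * Real.sin u) ≤ Real.sin (n * u) := by
      refine le_trans ?_ hj2
      gcongr
    have hpi4 : Real.pi ≤ 4 := Real.pi_le_four
    have h8 : (1 / 2 : ℝ) ≤ 2 / Real.pi := by
      rw [le_div_iff₀ hpi]; linarith
    have h9 : 1 / 2 * ((n : ℝ) * Real.sin u) ≤ Real.sin (n * u) := by
      refine le_trans ?_ h7
      gcongr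
    have h10 : (1 / 2 * ((n : ℝ) * Real.sin u)) ^ 2 ≤ Real.sin (n * u) ^ 2 := by
      gcongr
    have h11 : (1 / 4 * (n : ℝ) ^ 2) * (2 * Real.sin u ^ 2) ≤
        (kFejer_P n).eval (Real.cos (2 * u)) * (2 * Real.sin u ^ 2) := by
      rw [hid]
      nlinarith
    exact le_of_mul_le_mul_right h11 (by positivity)
  · rw [hx, kFejer_P_one]
    nlinarith [sq_nonneg (n : ℝ)]

/-- TARGET -/
theorem fejer : S_fejer := by
  intro N hN
  have hN' : (1 : ℝ) ≤ N := by exact_mod_cast hN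
  have hN2 : (0 : ℝ) < (N : ℝ) ^ 2 := by positivity
  refine ⟨Polynomial.C (((N : ℝ) ^ 2)⁻¹) * kFejer_P N,
    (Polynomial.natDegree_C_mul_le _ _).trans (kFejer_P_deg N), fun x h1 h2 => ?_⟩
  have hP0 := kFejer_P_nonneg h1 h2 N
  have hP1 := kFejer_P_le h1 h2 N
  rw [Polynomial.eval_mul, Polynomial.eval_C]
  refine ⟨by positivity, ?_, ?_, ?_⟩
  · rw [inv_mul_le_iff₀ hN2]; linarith
  · have h3 : ((N : ℝ) ^ 2)⁻¹ * (kFejer_P N).eval x * ((N : ℝ) ^ 2 * (1 - x)) =
        (kFejer_P N).eval x * (1 - x) := by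
      field_simp
    rw [h3, kFejer_P_id]
    have := (abs_le.mp (kFejer_T_abs h1 h2 N)).1
    linarith
  · intro h
    have h3 := kFejer_P_lower h1 h2 N hN h
    rw [le_inv_mul_iff₀ hN2]
    linarith

end Pool.Agent.H913.SG
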