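import Pool.Agent.H913.SG.Stmts2

open MeasureTheory Matrix NormedSpace
open scoped SchwartzMap ContDiff FourierTransform Matrix

universe u v

namespace Pool.Agent.H913.SG

theorem kNear_fro_eq {n : ℕ} (X : M n) :
    fro X = ‖(WithLp.toLp 2 (fun p : Fin n × Fin n => X p.1 p.2) : EuclideanSpace ℝ (Fin n × Fin n))‖ := by
  rw [EuclideanSpace.norm_eq, fro, Fintype.sum_prod_type]
  simp only [Real.norm_eq_abs, sq_abs]

theorem kNear_fro_nonneg {n : ℕ} (X : M n) : 0 ≤ fro X := Real.sqrt_nonneg _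

theorem kNear_fro_sub {n : ℕ} (X Y : M n) : fro (X - Y) ≤ fro X + fro Y := by
  rw [kNear_fro_eq, kNear_fro_eq X, kNear_fro_eq Y]
  exact norm_sub_le (WithLp.toLp 2 (fun p : Fin n × Fin n => X p.1 p.2) :
    EuclideanSpace ℝ (Fin n × Fin n)) (WithLp.toLp 2 (fun p : Fin n × Fin n => Y p.1 p.2))

theorem kNear_entry_le {n : ℕ} (X : M n) (i j : Fin n) : |X i j| ≤ fro X := by
  rw [fro]
  apply Real.le_sqrt_of_sq_le
  rw [sq_abs]
  calc X i j ^ 2 ≤ ∑ j, X i j ^ 2 :=
        Finset.single_le_sum (f := fun j => X i j ^ 2) (fun _ _ => sq_nonneg _) (Finset.mem_univ j)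
    _ ≤ ∑ i, ∑ j, X i j ^ 2 :=
        Finset.single_le_sum (f := fun i => ∑ j, X i j ^ 2)
          (fun _ _ => Finset.sum_nonneg fun _ _ => sq_nonneg _) (Finset.mem_univ i)

theorem kNear_fro_le {n : ℕ} (X : M n) : fro X ≤ ∑ i, ∑ j, |X i j| := by
  have h0 : 0 ≤ ∑ i, ∑ j, |X i j| :=
    Finset.sum_nonneg fun _ _ => Finset.sum_nonneg fun _ _ => abs_nonneg _
  rw [fro]
  apply Real.sqrt_le_iff.2 ⟨h0, ?_⟩
  have h1 : ∀ i j, |X i j| ≤ ∑ i, ∑ j, |X i j| := by
    intro i j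
    calc |X i j| ≤ ∑ j, |X i j| :=
          Finset.single_le_sum (f := fun j => |X i j|) (fun _ _ => abs_nonneg _) (Finset.mem_univ j)
      _ ≤ ∑ i, ∑ j, |X i j| :=
          Finset.single_le_sum (f := fun i => ∑ j, |X i j|)
            (fun _ _ => Finset.sum_nonneg fun _ _ => abs_nonneg _) (Finset.mem_univ i)
  calc ∑ i, ∑ j, X i j ^ 2 = ∑ i, ∑ j, |X i j| * |X i j| := by
        refine Finset.sum_congr rfl fun i _ => Finset.sum_congr rfl fun j _ => ?_
        rw [← sq_abs, sq]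
    _ ≤ ∑ i, ∑ j, |X i j| * (∑ i, ∑ j, |X i j|) :=
        Finset.sum_le_sum fun i _ => Finset.sum_le_sum fun j _ =>
          mul_le_mul_of_nonneg_left (h1 i j) (abs_nonneg _)
    _ = (∑ i, ∑ j, |X i j|) ^ 2 := by
        rw [sq, Finset.sum_mul]
        refine Finset.sum_congr rfl fun i _ => ?_
        rw [Finset.sum_mul]

theorem kNear_fro_sq {n : ℕ} (X : M n) : fro X = Real.sqrt ((Xᵀ * X).trace) := by
  rw [fro]
  congr 1
  rw [Matrix.trace, Finset.sum_comm]
  refine Finset.sum_congr rfl fun j _ => ?_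
  rw [Matrix.diag_apply, Matrix.mul_apply]
  refine Finset.sum_congr rfl fun i _ => ?_
  rw [Matrix.transpose_apply, sq]

theorem kNear_fro_mul {n : ℕ} (X O : M n) (hO : O * Oᵀ = 1) : fro (X * O) = fro X := by
  rw [kNear_fro_sq, kNear_fro_sq X]
  congr 1
  rw [Matrix.transpose_mul, Matrix.mul_assoc, Matrix.trace_mul_comm, Matrix.mul_assoc,
    Matrix.mul_assoc, hO, Matrix.mul_one]

theorem kNear_fro_zero {n : ℕ} (X : M n) (h : fro X = 0) : X = 0 := by
  ext i j
  have h1 := kNear_entry_le X i j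
  rw [h] at h1
  exact abs_nonpos_iff.1 h1

/-- TARGET -/
theorem near (h1 : S_nearMat) : S_near := by
  intro G _ _ _ _ _ R P s
  obtain ⟨ε, hε, C, hC, hmat⟩ := h1 G R
  choose c hc using s.entries
  set C1 : ℝ := ∑ i, ∑ j, ∑ a, ∑ b, |c i j a b| with hC1
  have hC1n : 0 ≤ C1 := Finset.sum_nonneg fun _ _ => Finset.sum_nonneg fun _ _ =>
    Finset.sum_nonneg fun _ _ => Finset.sum_nonneg fun _ _ => abs_nonneg _
  have hdist : ∀ k : R.K, 0 ≤ s.dist k := fun k => kNear_fro_nonneg _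
  have hbd : ∀ k : R.K, fro ((R.ρ k.1 : M R.n) - 1) ≤ C1 * s.dist k := by
    intro k
    have h2 : ∀ i j, ((R.ρ k.1 : M R.n) - 1) i j = ∑ a, ∑ b, c i j a b * (s.σ k - 1) a b := by
      intro i j
      have h3 := hc i j 1
      have h4 : (R.ρ (1 : R.K).1 : M R.n) = 1 := by
        rw [OneMemClass.coe_one, map_one, Units.val_one]
      rw [h4, map_one] at h3
      rw [Matrix.sub_apply, hc i j k, h3, ← Finset.sum_sub_distrib]
      refine Finset.sum_congr rfl fun a _ => ?_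
      rw [← Finset.sum_sub_distrib]
      refine Finset.sum_congr rfl fun b _ => ?_
      rw [Matrix.sub_apply]
      ring
    refine (kNear_fro_le _).trans ?_
    rw [hC1, Finset.sum_mul]
    refine Finset.sum_le_sum fun i _ => ?_
    rw [Finset.sum_mul]
    refine Finset.sum_le_sum fun j _ => ?_
    rw [h2, Finset.sum_mul]
    refine (Finset.abs_sum_le_sum_abs _ _).trans (Finset.sum_le_sum fun a _ => ?_)
    rw [Finset.sum_mul]
    refine (Finset.abs_sum_le_sum_abs _ _).trans (Finset.sum_le_sum fun b _ => ?_)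
    rw [abs_mul]
    exact mul_le_mul_of_nonneg_left (kNear_entry_le _ a b) (abs_nonneg _)
  -- the finite set
  obtain ⟨δ, hδ, hfin⟩ : ∃ δ > 0, ∀ f : R.K, R.ρ f.1 = 1 → fro (s.σ f - 1) < δ → s.σ f = 1 := by
    have hF : {f : R.K | R.ρ f.1 = 1}.Finite := by
      have h2 : {f : R.K | R.ρ f.1 = 1} = Subtype.val ⁻¹' (R.ρ.ker : Set G) := by
        ext f
        simp [MonoidHom.mem_ker]
      rw [h2]
      exact R.finite_ker.preimage Subtype.val_injective.injOn
    have hF2 : ({f : R.K | R.ρ f.1 = 1 ∧ s.σ f ≠ 1} : Set R.K).Finite :=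
      hF.subset fun f hf => hf.1
    by_cases hne : ({f : R.K | R.ρ f.1 = 1 ∧ s.σ f ≠ 1} : Set R.K).Nonempty
    · obtain ⟨f₀, hf₀, hmin⟩ := hF2.exists_minimalFor (fun f => fro (s.σ f - 1)) _ hne
      refine ⟨fro (s.σ f₀ - 1), ?_, ?_⟩
      · rcases (kNear_fro_nonneg (s.σ f₀ - 1)).eq_or_lt with h3 | h3
        · exact absurd (sub_eq_zero.1 (kNear_fro_zero _ h3.symm)) hf₀.2
        · exact h3
      · intro f hf hlt
        by_contra hcon
        have h4 := hmin ⟨hf, hcon⟩ hlt.le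
        exact absurd hlt (not_lt.2 h4)
    · refine ⟨1, one_pos, fun f hf _ => ?_⟩
      by_contra hcon
      exact hne ⟨f, hf, hcon⟩
  -- continuity of σ
  obtain ⟨U, hU, hUσ⟩ : ∃ U ∈ nhds (1 : G), ∀ g : R.K, g.1 ∈ U → fro (s.σ g - 1) < δ / 2 := by
    have hcont : Continuous fun k : R.K => fro (s.σ k - 1) := by
      have h5 : Continuous fun X : M s.n' => fro X := by
        unfold fro
        refine Real.continuous_sqrt.comp ?_
        refine continuous_finsetSum _ fun i _ => continuous_finsetSum _ fun j _ => ?_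
        exact ((continuous_apply_apply i j)).pow 2
      exact h5.comp (s.cont.sub continuous_const)
    have h6 : {k : R.K | fro (s.σ k - 1) < δ / 2} ∈ nhds (1 : R.K) := by
      refine (isOpen_lt hcont continuous_const).mem_nhds ?_
      show fro (s.σ 1 - 1) < δ / 2
      rw [map_one, sub_self]
      have : fro (0 : M s.n') = 0 := by simp [fro]
      rw [this]
      linarith
    rw [mem_nhds_subtype] at h6
    obtain ⟨U, hU, hsub⟩ := h6
    exact ⟨U, hU, fun g hg => hsub hg⟩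
  obtain ⟨ε', hε', hgam⟩ := P.gam_near U hU
  refine ⟨min (ε / (C1 + 1)) (min (ε' / (C * C1 + 1)) (δ / 2)), by positivity, C * C1,
    by positivity, fun k hk => ?_⟩
  have hk1 : s.dist k < ε / (C1 + 1) := lt_of_lt_of_le hk (min_le_left _ _)
  have hk2 : s.dist k < ε' / (C * C1 + 1) :=
    lt_of_lt_of_le hk ((min_le_right _ _).trans (min_le_left _ _))
  have hk3 : s.dist k < δ / 2 :=
    lt_of_lt_of_le hk ((min_le_right _ _).trans (min_le_right _ _))
  rw [lt_div_iff₀ (by positivity)] at hk1 hk2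
  have hd := hdist k
  have hρ : fro ((R.ρ k.1 : M R.n) - 1) < ε := by
    refine lt_of_le_of_lt (hbd k) ?_
    nlinarith
  obtain ⟨X, hX, hexp, hXle⟩ := hmat (R.ρ k.1) (R.ρ_mem k.1) k.2 hρ
  have hXle' : fro X.1 ≤ C * C1 * s.dist k := by
    refine hXle.trans ?_
    rw [mul_assoc]
    exact mul_le_mul_of_nonneg_left (hbd k) hC
  have hXlt : fro X.1 < ε' := by nlinarith
  set g : R.K := ⟨P.gam X 1, P.gam_mem X hX 1⟩ with hg
  have hgρ : R.ρ g.1 = R.ρ k.1 := by
    apply Units.ext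
    have h7 := (P.gam_spec X).2.2 1
    rw [one_smul, hexp] at h7
    exact h7
  refine ⟨k * g⁻¹, ?_, X, hX, ?_, hXle'⟩
  · apply hfin
    · rw [Subgroup.coe_mul, Subgroup.coe_inv, map_mul, map_inv, hgρ, mul_inv_cancel]
    · have h8 : s.σ g * s.σ g⁻¹ = 1 := by rw [← map_mul, mul_inv_cancel, map_one]
      have h9 : s.σ (k * g⁻¹) - 1 = (s.σ k - s.σ g) * s.σ g⁻¹ := by
        rw [map_mul, sub_mul, h8]
      have h10 : s.σ g⁻¹ * (s.σ g⁻¹)ᵀ = 1 := mul_eq_one_comm.1 (s.orth g⁻¹)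
      rw [h9, kNear_fro_mul _ _ h10]
      have h11 : s.σ k - s.σ g = (s.σ k - 1) - (s.σ g - 1) := by abel
      rw [h11]
      have h12 : fro (s.σ g - 1) < δ / 2 := hUσ g (hgam X hXlt)
      have h13 : fro (s.σ k - 1) < δ / 2 := hk3
      have h14 := kNear_fro_sub (s.σ k - 1) (s.σ g - 1)
      linarith
  · rw [Subgroup.coe_mul, Subgroup.coe_inv]
    show k.1 = k.1 * (P.gam X 1)⁻¹ * P.gam X 1
    rw [inv_mul_cancel_right]

end Pool.Agent.H913.SG
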