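import Pool.Agent.H913.SG.Stmts2

open MeasureTheory Matrix NormedSpace
open scoped SchwartzMap ContDiff FourierTransform Matrix

universe u v

namespace Pool.Agent.H913.SG

/-- A square root near `1` of an element of a closed subalgebra lies in the subalgebra. -/
theorem kNearMat_sqrt {A : Type*} [NormedRing A] [NormedAlgebra ℝ A] (S : Subalgebra ℝ A)
    (hS : IsClosed (S : Set A)) (b : A) (hb : ‖b - 1‖ ≤ 1 / 4) (hb2 : b * b ∈ S) : b ∈ S := by
  set u : A := b - 1 with hu
  have hbu : b = 1 + u := by rw [hu]; abel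
  have hc : b * b = 1 + (2 : ℝ) • u + u * u := by
    rw [hbu, two_smul]
    noncomm_ring
  let v : ℕ → A := fun k => Nat.rec (0 : A) (fun _ w => (1 / 2 : ℝ) • (b * b - 1 - w * w)) k
  have hv0 : v 0 = 0 := rfl
  have hvs : ∀ k, v (k + 1) = (1 / 2 : ℝ) • (b * b - 1 - v k * v k) := fun k => rfl
  have hvS : ∀ k, v k ∈ S := by
    intro k
    induction k with
    | zero => rw [hv0]; exact S.zero_mem
    | succ k ih =>
      rw [hvs]
      exact S.smul_mem (S.sub_mem (S.sub_mem hb2 S.one_mem) (S.mul_mem ih ih)) _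
  have key : ∀ k, ‖v k - u‖ ≤ (1 / 2) ^ k * ‖u‖ := by
    intro k
    induction k with
    | zero => rw [hv0]; simp
    | succ k ih =>
      have h1 : v (k + 1) - u = (1 / 2 : ℝ) • ((u - v k) * u + v k * (u - v k)) := by
        rw [hvs, hc]
        have h2 : u = (1 / 2 : ℝ) • ((2 : ℝ) • u) := by
          rw [smul_smul]; norm_num
        conv_lhs => rw [h2]
        rw [← smul_sub]
        congr 1
        rw [← h2]
        noncomm_ring
      have h3 : ‖v k‖ ≤ 2 * ‖u‖ := by
        have h4 : ‖v k‖ ≤ ‖v k - u‖ + ‖u‖ := by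
          calc ‖v k‖ = ‖(v k - u) + u‖ := by congr 1; abel
            _ ≤ _ := norm_add_le _ _
        have h5 : (1 / 2 : ℝ) ^ k ≤ 1 := pow_le_one₀ (by norm_num) (by norm_num)
        nlinarith [norm_nonneg u]
      have h6 : ‖u - v k‖ = ‖v k - u‖ := norm_sub_rev _ _
      rw [h1, norm_smul]
      have h7 : ‖(u - v k) * u + v k * (u - v k)‖ ≤ ‖v k - u‖ * ‖u‖ + ‖v k‖ * ‖v k - u‖ := by
        refine (norm_add_le _ _).trans ?_
        refine add_le_add ((norm_mul_le _ _).trans ?_) ((norm_mul_le _ _).trans ?_)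
        · rw [h6]
        · rw [h6]
      have h8 : ‖(1 / 2 : ℝ)‖ = 1 / 2 := by norm_num
      rw [h8]
      have h9 : 0 ≤ ‖v k - u‖ := norm_nonneg _
      have h10 : ‖v k - u‖ * ‖u‖ + ‖v k‖ * ‖v k - u‖ ≤ ‖v k - u‖ := by
        have h11 : ‖u‖ + ‖v k‖ ≤ 1 := by linarith
        nlinarith
      calc 1 / 2 * ‖(u - v k) * u + v k * (u - v k)‖ ≤ 1 / 2 * ‖v k - u‖ := by
            linarith
        _ ≤ 1 / 2 * ((1 / 2) ^ k * ‖u‖) := by linarith
        _ = (1 / 2) ^ (k + 1) * ‖u‖ := by rw [pow_succ]; ring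
  have hlim : Filter.Tendsto v Filter.atTop (nhds u) := by
    rw [tendsto_iff_norm_sub_tendsto_zero]
    refine squeeze_zero (fun k => norm_nonneg _) key ?_
    have := (tendsto_pow_atTop_nhds_zero_of_lt_one (r := (1 / 2 : ℝ)) (by norm_num)
      (by norm_num)).mul_const ‖u‖
    simpa using this
  have huS : u ∈ S := hS.mem_of_tendsto hlim (Filter.Eventually.of_forall hvS)
  rw [hbu]
  exact S.add_mem S.one_mem huS

/-! ### Polynomial functions on matrices -/

/-- evaluation of polynomials at matrices -/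
noncomputable def kNearMat_ev (n : ℕ) : MvPolynomial (Fin n × Fin n) ℝ →ₗ[ℝ] (M n → ℝ) where
  toFun p := fun x => MvPolynomial.eval (fun ij => x ij.1 ij.2) p
  map_add' p q := by ext x; simp
  map_smul' c p := by ext x; simp

/-- polynomial functions of bounded degree -/
noncomputable def kNearMat_PV (n D : ℕ) : Submodule ℝ (M n → ℝ) :=
  (MvPolynomial.restrictTotalDegree (Fin n × Fin n) ℝ D).map (kNearMat_ev n)

noncomputable instance kNearMat_fin (n D : ℕ) : FiniteDimensional ℝ (kNearMat_PV n D) := by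
  unfold kNearMat_PV; infer_instance

theorem kNearMat_mem_PV {n D : ℕ} {f : M n → ℝ} :
    f ∈ kNearMat_PV n D ↔ ∃ p : MvPolynomial (Fin n × Fin n) ℝ, p.totalDegree ≤ D ∧
      ∀ x : M n, f x = MvPolynomial.eval (fun ij => x ij.1 ij.2) p := by
  unfold kNearMat_PV
  rw [Submodule.mem_map]
  constructor
  · rintro ⟨p, hp, rfl⟩
    exact ⟨p, (MvPolynomial.mem_restrictTotalDegree _ _ _).mp hp, fun x => rfl⟩
  · rintro ⟨p, hp, hf⟩
    exact ⟨p, (MvPolynomial.mem_restrictTotalDegree _ _ _).mpr hp, by ext x; exact (hf x).symm⟩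

theorem kNearMat_evcont {n : ℕ} (p : MvPolynomial (Fin n × Fin n) ℝ) :
    Continuous (fun x : M n => MvPolynomial.eval (fun ij => x ij.1 ij.2) p) := by
  have h1 : Continuous (fun x : M n => (fun ij : Fin n × Fin n => x ij.1 ij.2)) := by
    refine continuous_pi fun ij => ?_
    exact (continuous_id.matrix_elem ij.1 ij.2)
  exact (MvPolynomial.continuous_eval p).comp h1

theorem kNearMat_comp_mem {n D : ℕ} {f : M n → ℝ} (hf : f ∈ kNearMat_PV n D) (g : M n) :
    (fun x => f (x * g)) ∈ kNearMat_PV n D := by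
  obtain ⟨p, hp, hpf⟩ := kNearMat_mem_PV.mp hf
  let ℓ : Fin n × Fin n → MvPolynomial (Fin n × Fin n) ℝ := fun ij =>
    ∑ k, MvPolynomial.X (ij.1, k) * MvPolynomial.C (g k ij.2)
  have hℓ : ∀ i, (ℓ i).totalDegree ≤ 1 := by
    intro i
    apply MvPolynomial.totalDegree_finsetSum_le
    intro j _
    refine (MvPolynomial.totalDegree_mul _ _).trans ?_
    rw [MvPolynomial.totalDegree_C]
    simp
  have hℓe : ∀ (x : M n) ij, MvPolynomial.eval (fun ij => x ij.1 ij.2) (ℓ ij) =
      (x * g) ij.1 ij.2 := by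
    intro x ij
    simp only [ℓ, map_sum, map_mul, MvPolynomial.eval_C, MvPolynomial.eval_X, Matrix.mul_apply]
  refine kNearMat_mem_PV.mpr ⟨MvPolynomial.aeval ℓ p, ?_, ?_⟩
  · rw [MvPolynomial.aeval_def, MvPolynomial.eval₂_eq]
    apply MvPolynomial.totalDegree_finsetSum_le
    intro d hd
    refine (MvPolynomial.totalDegree_mul _ _).trans ?_
    have h1 : (algebraMap ℝ (MvPolynomial (Fin n × Fin n) ℝ)
        (MvPolynomial.coeff d p)).totalDegree = 0 := by
      rw [MvPolynomial.algebraMap_eq, MvPolynomial.totalDegree_C]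
    rw [h1, zero_add]
    refine (MvPolynomial.totalDegree_finsetProd _ _).trans ?_
    refine le_trans ?_ ((MvPolynomial.le_totalDegree hd).trans hp)
    rw [Finsupp.sum]
    apply Finset.sum_le_sum
    intro i _
    refine (MvPolynomial.totalDegree_pow _ _).trans ?_
    have := hℓ i
    nlinarith
  · intro x
    rw [hpf (x * g)]
    have h2 : MvPolynomial.eval (fun ij : Fin n × Fin n => x ij.1 ij.2) (MvPolynomial.aeval ℓ p) =
        MvPolynomial.eval (fun i => MvPolynomial.eval (fun ij => x ij.1 ij.2) (ℓ i)) p := by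
      have : (MvPolynomial.eval (fun ij : Fin n × Fin n => x ij.1 ij.2)).comp
          (MvPolynomial.aeval ℓ : _ →ₐ[ℝ] _).toRingHom =
          MvPolynomial.eval (fun i => MvPolynomial.eval (fun ij => x ij.1 ij.2) (ℓ i)) := by
        apply MvPolynomial.ringHom_ext
        · intro r; simp
        · intro i; simp
      exact congrArg (fun g => g p) this
    rw [h2]
    congr 2
    funext i
    exact (hℓe x i).symm

/-- right translation of polynomial functions -/
noncomputable def kNearMat_R (n D : ℕ) : M n →* Module.End ℝ (kNearMat_PV n D) where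
  toFun g :=
    { toFun := fun f => ⟨fun x => f.1 (x * g), kNearMat_comp_mem f.2 g⟩
      map_add' := fun _ _ => rfl
      map_smul' := fun _ _ => rfl }
  map_one' := by
    apply LinearMap.ext
    intro f
    apply Subtype.ext
    funext x
    show f.1 (x * 1) = f.1 x
    rw [mul_one]
  map_mul' g h := by
    apply LinearMap.ext
    intro f
    apply Subtype.ext
    funext x
    show f.1 (x * (g * h)) = f.1 (x * g * h)
    rw [mul_assoc]

theorem kNearMat_R_apply {n D : ℕ} (g : M n) (f : kNearMat_PV n D) (x : M n) :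
    (kNearMat_R n D g f).1 x = f.1 (x * g) := rfl

/-- the matrix of the right translation -/
noncomputable def kNearMat_Q (n D : ℕ) : M n →
    Matrix (Fin (Module.finrank ℝ (kNearMat_PV n D))) (Fin (Module.finrank ℝ (kNearMat_PV n D))) ℝ :=
  fun g => LinearMap.toMatrixAlgEquiv (Module.finBasis ℝ (kNearMat_PV n D)) (kNearMat_R n D g)

theorem kNearMat_Q_cont (n D : ℕ) : Continuous (kNearMat_Q n D) := by
  refine continuous_matrix fun i j => ?_
  have h1 : ∀ g, kNearMat_Q n D g i j = (Module.finBasis ℝ (kNearMat_PV n D)).coord i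
      (kNearMat_R n D g (Module.finBasis ℝ (kNearMat_PV n D) j)) := by
    intro g
    unfold kNearMat_Q
    rw [LinearMap.toMatrixAlgEquiv_apply]
    rfl
  simp only [h1]
  have h2 : Continuous ((Module.finBasis ℝ (kNearMat_PV n D)).coord i) :=
    LinearMap.continuous_of_finiteDimensional _
  apply h2.comp
  refine Continuous.subtype_mk ?_ _
  refine continuous_pi fun x => ?_
  obtain ⟨p, -, hp⟩ := kNearMat_mem_PV.mp (Module.finBasis ℝ (kNearMat_PV n D) j).2
  have h3 : (fun g : M n => ((Module.finBasis ℝ (kNearMat_PV n D)) j).1 (x * g)) =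
      fun g : M n => MvPolynomial.eval (fun ij => (x * g) ij.1 ij.2) p := funext fun g => hp _
  show Continuous (fun g : M n => ((Module.finBasis ℝ (kNearMat_PV n D)) j).1 (x * g))
  rw [h3]
  exact (kNearMat_evcont p).comp (continuous_const.mul continuous_id)

theorem kNearMat_Q_one (n D : ℕ) : kNearMat_Q n D 1 = 1 := by
  unfold kNearMat_Q
  rw [map_one, map_one]

theorem kNearMat_Q_mul (n D : ℕ) (g h : M n) :
    kNearMat_Q n D (g * h) = kNearMat_Q n D g * kNearMat_Q n D h := by
  unfold kNearMat_Q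
  rw [map_mul, map_mul]

/-- a polynomial which vanishes at all powers of `a` vanishes at every `b` whose translation is in
the algebra generated by that of `a` -/
theorem kNearMat_vanish {n D : ℕ} (p : MvPolynomial (Fin n × Fin n) ℝ) (hp : p.totalDegree ≤ D)
    (a b : M n) (ha : ∀ j : ℕ, MvPolynomial.eval (fun ij => (a ^ j) ij.1 ij.2) p = 0)
    (hb : kNearMat_Q n D b ∈ Algebra.adjoin ℝ {kNearMat_Q n D a}) :
    MvPolynomial.eval (fun ij => b ij.1 ij.2) p = 0 := by
  let f : kNearMat_PV n D := ⟨fun x => MvPolynomial.eval (fun ij => x ij.1 ij.2) p,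
    kNearMat_mem_PV.mpr ⟨p, hp, fun x => rfl⟩⟩
  have h1 : kNearMat_R n D b ∈ Algebra.adjoin ℝ {kNearMat_R n D a} := by
    let φ := (LinearMap.toMatrixAlgEquiv (Module.finBasis ℝ (kNearMat_PV n D)))
    have h2 : (Algebra.adjoin ℝ {kNearMat_R n D a}).map φ.toAlgHom =
        Algebra.adjoin ℝ {kNearMat_Q n D a} := by
      rw [AlgHom.map_adjoin, Set.image_singleton]
      rfl
    rw [← h2] at hb
    obtain ⟨T, hT, hTb⟩ := hb
    have h3 : T = kNearMat_R n D b := φ.injective hTb
    rw [← h3]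
    exact hT
  rw [Algebra.adjoin_singleton_eq_range_aeval] at h1
  obtain ⟨P, hP⟩ := h1
  have h4 : MvPolynomial.eval (fun ij => b ij.1 ij.2) p = (kNearMat_R n D b f).1 1 := by
    rw [kNearMat_R_apply, one_mul]
  rw [h4, ← hP]
  show ((Polynomial.aeval (kNearMat_R n D a) P) f).1 1 = 0
  rw [Polynomial.aeval_eq_sum_range, LinearMap.sum_apply]
  have h5 : ∀ i ∈ Finset.range (P.natDegree + 1),
      (P.coeff i • (kNearMat_R n D a) ^ i) f = P.coeff i • (kNearMat_R n D (a ^ i)) f := by
    intro i _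
    rw [map_pow]; rfl
  rw [Finset.sum_congr rfl h5]
  have h6 : (∑ i ∈ Finset.range (P.natDegree + 1), P.coeff i • (kNearMat_R n D (a ^ i)) f).1 1 =
      ∑ i ∈ Finset.range (P.natDegree + 1), P.coeff i * ((kNearMat_R n D (a ^ i)) f).1 1 := by
    rw [Submodule.coe_sum, Finset.sum_apply]
    rfl
  rw [h6]
  apply Finset.sum_eq_zero
  intro i _
  rw [kNearMat_R_apply, one_mul]
  have := ha i
  show P.coeff i * MvPolynomial.eval (fun ij => (a ^ i) ij.1 ij.2) p = 0
  rw [this, mul_zero]

section Local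

open scoped Matrix.Norms.Frobenius

theorem kNearMat_fro {n : ℕ} (X : M n) : fro X = ‖X‖ := by
  rw [Matrix.frobenius_norm_def, fro, Real.sqrt_eq_rpow]
  congr 1
  apply Finset.sum_congr rfl
  intro i _
  apply Finset.sum_congr rfl
  intro j _
  rw [Real.norm_eq_abs]
  norm_num

/-- The exponential near `0`. -/
theorem kNearMat_log (n : ℕ) : ∃ r : ℝ, 0 < r ∧ (∀ X Y : M n, ‖X‖ < r → ‖Y‖ < r →
      exp X = exp Y → X = Y) ∧ ∀ r' : ℝ, 0 < r' → ∃ ε : ℝ, 0 < ε ∧ ∀ a : M n, ‖a - 1‖ < ε →
        ∃ X : M n, ‖X‖ < r' ∧ exp X = a ∧ ‖X‖ ≤ 2 * ‖a - 1‖ := by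
  have h0 : HasStrictFDerivAt (exp : M n → M n) (1 : M n →L[ℝ] M n) 0 := hasStrictFDerivAt_exp_zero
  have h1 : HasStrictFDerivAt (exp : M n → M n)
      ((ContinuousLinearEquiv.refl ℝ (M n) : M n ≃L[ℝ] M n) : M n →L[ℝ] M n) 0 := h0
  have h2 : ∀ᶠ p : M n × M n in nhds (0, 0), ‖exp p.1 - exp p.2 - (p.1 - p.2)‖ ≤
      1 / 2 * ‖p.1 - p.2‖ := by
    have h3 := h0.isLittleO
    have h4 := h3.def (show (0 : ℝ) < 1 / 2 by norm_num)
    exact h4
  obtain ⟨r, hr, hball⟩ := Metric.eventually_nhds_iff.mp h2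
  have key : ∀ X Y : M n, ‖X‖ < r → ‖Y‖ < r → ‖X - Y‖ ≤ 2 * ‖exp X - exp Y‖ := by
    intro X Y hX hY
    have h5 : dist (X, Y) ((0, 0) : M n × M n) < r := by
      rw [Prod.dist_eq, max_lt_iff, dist_zero_right, dist_zero_right]
      exact ⟨hX, hY⟩
    have h6 := hball h5
    simp only at h6
    have h7 : ‖X - Y‖ ≤ ‖exp X - exp Y‖ + ‖exp X - exp Y - (X - Y)‖ := by
      calc ‖X - Y‖ = ‖(exp X - exp Y) - (exp X - exp Y - (X - Y))‖ := by congr 1; abel
        _ ≤ _ := norm_sub_le _ _
    linarith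
  refine ⟨r, hr, ?_, ?_⟩
  · intro X Y hX hY hXY
    have h5 := key X Y hX hY
    rw [hXY, sub_self, norm_zero, mul_zero] at h5
    exact sub_eq_zero.mp (norm_le_zero_iff.mp h5)
  · intro r' hr'
    have h5 := h1.eventually_right_inverse
    have h6 := h1.localInverse_tendsto
    rw [exp_zero] at h5 h6
    have h7 : ∀ᶠ y in nhds (1 : M n), ‖h1.localInverse exp _ 0 y‖ < min r r' := by
      have h8 : ∀ᶠ x in nhds (0 : M n), ‖x‖ < min r r' := by
        have h9 : Filter.Tendsto (fun x : M n => ‖x‖) (nhds 0) (nhds 0) := by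
          have := (continuous_norm (E := M n)).tendsto 0
          rwa [norm_zero] at this
        exact h9.eventually_lt_const (lt_min hr hr')
      exact h6.eventually h8
    obtain ⟨ε, hε, hεb⟩ := Metric.eventually_nhds_iff.mp (h5.and h7)
    refine ⟨ε, hε, fun a ha => ?_⟩
    obtain ⟨h8, h9⟩ := hεb (show dist a 1 < ε by rwa [dist_eq_norm])
    refine ⟨h1.localInverse exp _ 0 a, h9.trans_le (min_le_right _ _), h8, ?_⟩
    have h10 := key (h1.localInverse exp _ 0 a) 0 (h9.trans_le (min_le_left _ _)) (by simpa using hr)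
    rw [sub_zero, exp_zero, h8] at h10
    exact h10

/-- TARGET -/
theorem nearMat : S_nearMat := by
  intro G _ _ R
  obtain ⟨S, hS⟩ := R.algebraic
  -- finitely many equations
  obtain ⟨F, hFS, hF⟩ : ∃ F : Finset (MvPolynomial (Fin R.n × Fin R.n) ℝ), (F : Set _) ⊆ S ∧
      Ideal.span S = Ideal.span (F : Set (MvPolynomial (Fin R.n × Fin R.n) ℝ)) := by
    apply (Submodule.fg_span_iff_fg_span_finset_subset S).mp
    exact IsNoetherian.noetherian _
  have hGR : ∀ g : GL (Fin R.n) ℝ, g ∈ R.GR ↔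
      ∀ f ∈ F, MvPolynomial.eval (fun ij => (g : M R.n) ij.1 ij.2) f = 0 := by
    intro g
    rw [hS]
    constructor
    · exact fun h f hf => h f (hFS hf)
    · intro h f hf
      have h1 : f ∈ Ideal.span (F : Set (MvPolynomial (Fin R.n × Fin R.n) ℝ)) := by
        rw [← hF]; exact Ideal.subset_span hf
      have h2 : Ideal.span (F : Set (MvPolynomial (Fin R.n × Fin R.n) ℝ)) ≤
          RingHom.ker (MvPolynomial.eval (fun ij : Fin R.n × Fin R.n => (g : M R.n) ij.1 ij.2)) := by
        rw [Ideal.span_le]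
        exact fun f hf => h f hf
      exact h2 h1
  set D : ℕ := F.sup MvPolynomial.totalDegree with hD
  have hDf : ∀ f ∈ F, f.totalDegree ≤ D := fun f hf => Finset.le_sup (f := MvPolynomial.totalDegree) hf
  obtain ⟨r, hr, hinj, hlog⟩ := kNearMat_log R.n
  -- the radius on which translations are close to the identity
  obtain ⟨r₁, hr₁, hQ⟩ : ∃ r₁ : ℝ, 0 < r₁ ∧ ∀ Y : M R.n, ‖Y‖ < r₁ →
      ‖kNearMat_Q R.n D (exp Y) - 1‖ ≤ 1 / 4 := by
    have hc : Continuous (fun Y : M R.n => ‖kNearMat_Q R.n D (exp Y) - 1‖) :=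
      (((kNearMat_Q_cont R.n D).comp exp_continuous).sub continuous_const).norm
    have h1 := hc.tendsto 0
    rw [exp_zero, kNearMat_Q_one, sub_self, norm_zero] at h1
    have h2 := h1.eventually_lt_const (show (0 : ℝ) < 1 / 4 by norm_num)
    obtain ⟨r₁, hr₁, hb⟩ := Metric.eventually_nhds_iff.mp h2
    exact ⟨r₁, hr₁, fun Y hY => (hb (by rwa [dist_zero_right])).le⟩
  obtain ⟨ε, hε, hX⟩ := hlog (min r r₁) (lt_min hr hr₁)
  refine ⟨ε, hε, 2, by norm_num, ?_⟩
  intro a ha horth hfro
  rw [kNearMat_fro] at hfro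
  obtain ⟨X, hXr, hXa, hXb⟩ := hX (a : M R.n) hfro
  have hXr1 : ‖X‖ < r := hXr.trans_le (min_le_left _ _)
  have hXr2 : ‖X‖ < r₁ := hXr.trans_le (min_le_right _ _)
  -- skewness
  have hskew : Xᵀ = -X := by
    have h1 : exp (-Xᵀ) = exp X := by
      rw [Matrix.exp_neg, Matrix.exp_transpose, hXa]
      exact Matrix.inv_eq_left_inv (by
        rw [mul_eq_one_comm]; exact horth)
    have h2 := hinj (-Xᵀ) X (by rw [norm_neg, Matrix.frobenius_norm_transpose]; exact hXr1) hXr1 h1
    exact neg_eq_iff_eq_neg.mp h2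
  -- units
  let U : ℝ → GL (Fin R.n) ℝ := fun t =>
    ⟨exp (t • X), exp (-(t • X)), by
      rw [← Matrix.exp_add_of_commute (t • X) (-(t • X)) ((Commute.refl (t • X)).neg_right),
        add_neg_cancel, exp_zero], by
      rw [← Matrix.exp_add_of_commute (-(t • X)) (t • X) ((Commute.refl (t • X)).neg_left),
        neg_add_cancel, exp_zero]⟩
  have hUval : ∀ t, (U t : M R.n) = exp (t • X) := fun t => rfl
  have hUadd : ∀ s t, U (s + t) = U s * U t := by
    intro s t
    apply Units.ext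
    show exp ((s + t) • X) = exp (s • X) * exp (t • X)
    rw [add_smul]
    exact Matrix.exp_add_of_commute _ _ (((Commute.refl X).smul_left s).smul_right t)
  have hU0 : U 0 = 1 := by
    apply Units.ext
    show exp ((0 : ℝ) • X) = 1
    rw [zero_smul, exp_zero]
  have hUneg : ∀ t, U (-t) = (U t)⁻¹ := by
    intro t
    rw [eq_inv_iff_mul_eq_one, ← hUadd, neg_add_cancel, hU0]
  -- the dyadic roots
  have hroot : ∀ k : ℕ, kNearMat_Q R.n D (exp (((1 / 2 : ℝ) ^ k) • X)) ∈
      Algebra.adjoin ℝ {kNearMat_Q R.n D (a : M R.n)} := by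
    intro k
    induction k with
    | zero =>
      rw [pow_zero, one_smul, hXa]
      exact Algebra.subset_adjoin rfl
    | succ k ih =>
      apply kNearMat_sqrt
      · have := Submodule.closed_of_finiteDimensional (𝕜 := ℝ)
          (Subalgebra.toSubmodule (Algebra.adjoin ℝ {kNearMat_Q R.n D (a : M R.n)}))
        exact this
      · apply hQ
        rw [norm_smul]
        have h1 : ‖((1 / 2 : ℝ) ^ (k + 1))‖ ≤ 1 := by
          rw [norm_pow]
          exact pow_le_one₀ (norm_nonneg _) (by norm_num)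
        have h2 := norm_nonneg X
        nlinarith
      · rw [← kNearMat_Q_mul, ← Matrix.exp_add_of_commute _ _ (Commute.refl _), ← add_smul]
        have h1 : (1 / 2 : ℝ) ^ (k + 1) + (1 / 2) ^ (k + 1) = (1 / 2) ^ k := by
          rw [pow_succ]; ring
        rw [h1]
        exact ih
  have hapow : ∀ f ∈ F, ∀ j : ℕ,
      MvPolynomial.eval (fun ij => ((a : M R.n) ^ j) ij.1 ij.2) f = 0 := by
    intro f hf j
    have h1 : a ^ j ∈ R.GR := R.GR.pow_mem ha j
    have h2 := (hGR _).mp h1 f hf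
    simpa using h2
  let H : AddSubgroup ℝ :=
    { carrier := {t | U t ∈ R.GR}
      add_mem' := by
        intro s t hs ht
        show U (s + t) ∈ R.GR
        rw [hUadd]
        exact R.GR.mul_mem hs ht
      zero_mem' := by
        show U 0 ∈ R.GR
        rw [hU0]
        exact R.GR.one_mem
      neg_mem' := by
        intro t ht
        show U (-t) ∈ R.GR
        rw [hUneg]
        exact R.GR.inv_mem ht }
  have hHroot : ∀ k : ℕ, (1 / 2 : ℝ) ^ k ∈ H := by
    intro k
    show U ((1 / 2 : ℝ) ^ k) ∈ R.GR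
    rw [hGR]
    intro f hf
    exact kNearMat_vanish f (hDf f hf) (a : M R.n) _ (hapow f hf) (hroot k)
  have hHdense : Dense (H : Set ℝ) := by
    apply AddSubgroup.dense_of_not_isolated_zero
    intro δ hδ
    obtain ⟨k, hk⟩ := exists_pow_lt_of_lt_one hδ (show (1 / 2 : ℝ) < 1 by norm_num)
    exact ⟨_, hHroot k, by positivity, hk⟩
  have hHclosed : IsClosed (H : Set ℝ) := by
    have h1 : (H : Set ℝ) = ⋂ f ∈ F, {t | MvPolynomial.eval
        (fun ij => (exp (t • X)) ij.1 ij.2) f = 0} := by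
      ext t
      simp only [Set.mem_iInter]
      show U t ∈ R.GR ↔ _
      rw [hGR]
      rfl
    rw [h1]
    refine isClosed_iInter fun f => isClosed_iInter fun _ => ?_
    refine isClosed_eq ?_ continuous_const
    exact (kNearMat_evcont f).comp (exp_continuous.comp (continuous_id.smul continuous_const))
  have hHall : ∀ t : ℝ, U t ∈ R.GR := by
    intro t
    have h1 : (H : Set ℝ) = Set.univ := by
      rw [← hHclosed.closure_eq]
      exact hHdense.closure_eq
    have h2 : t ∈ (H : Set ℝ) := by rw [h1]; trivial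
    exact h2
  refine ⟨⟨X, fun t => ⟨U t, hHall t, rfl⟩⟩, hskew, hXa, ?_⟩
  rw [kNearMat_fro, kNearMat_fro]
  exact hXb

end Local

end Pool.Agent.H913.SG
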