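import Pool.Agent.H913.SG.Stmts2

open MeasureTheory Matrix NormedSpace
open scoped SchwartzMap ContDiff FourierTransform Matrix

universe u v

namespace Pool.Agent.H913.SG

lemma kShells_iter {V : ℝ → ℝ} {Dd : ℝ} (hD : 1 ≤ Dd)
    (h : ∀ r : ℝ, 0 < r → V (2 * r) ≤ Dd * V r) (j : ℕ) (r : ℝ) (hr : 0 < r) :
    V (2 ^ j * r) ≤ Dd ^ j * V r := by
  induction j with
  | zero => simp
  | succ j ih =>
    have h1 := h (2 ^ j * r) (by positivity)
    calc V (2 ^ (j + 1) * r) = V (2 * (2 ^ j * r)) := by ring_nf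
      _ ≤ Dd * V (2 ^ j * r) := h1
      _ ≤ Dd * (Dd ^ j * V r) := by gcongr
      _ = Dd ^ (j + 1) * V r := by ring

lemma kShells_geom (x : ℝ) (hx0 : 0 ≤ x) (hx : x ≤ 1 / 2) (J : ℕ) :
    ∑ j ∈ Finset.range J, x ^ j ≤ 2 := by
  have h1 : ∀ J : ℕ, ∑ j ∈ Finset.range J, x ^ j ≤ 2 - 2 * (1 / 2) ^ J := by
    intro J
    induction J with
    | zero => simp
    | succ J ih =>
      rw [Finset.sum_range_succ]
      have h2 : x ^ J ≤ (1 / 2) ^ J := pow_le_pow_left₀ hx0 hx J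
      have h3 : (1 / 2 : ℝ) ^ (J + 1) = (1 / 2) * (1 / 2) ^ J := by ring
      rw [h3]
      linarith
  have h2 := h1 J
  have h3 : (0 : ℝ) ≤ (1 / 2) ^ J := by positivity
  linarith

/-- TARGET -/
theorem shells : S_shells := by
  intro Dd c₁ c₂ Bd hD hc₁ hc₂ hB
  obtain ⟨m, hm⟩ := pow_unbounded_of_one_lt (4 * Dd) (by norm_num : (1 : ℝ) < 4)
  obtain ⟨i, hi⟩ := pow_unbounded_of_one_lt (1 / c₂) (one_lt_two (α := ℝ))
  have hD0 : 0 < Dd := by linarith
  have hm1 : 1 ≤ m := by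
    rcases Nat.eq_zero_or_pos m with h | h
    · exfalso
      rw [h, pow_zero] at hm
      linarith
    · exact h
  refine ⟨m, (1 + 4 * Dd * c₁ ^ m) * (Dd ^ i * 4 ^ m), hm1, by positivity, ?_⟩
  intro K _ μ _ δ hδ hδb hV hdb N F hN hF hF01 hFc hFl
  have hN0 : (0 : ℝ) < N := by exact_mod_cast hN
  set V : ℝ → ℝ := fun r => μ.real {k | δ k ≤ r} with hVdef
  have hit : ∀ (j : ℕ) (r : ℝ), 0 < r → V (2 ^ j * r) ≤ Dd ^ j * V r :=
    fun j r hr => kShells_iter hD hdb j r hr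
  have hVmono : ∀ r s : ℝ, r ≤ s → V r ≤ V s := by
    intro r s hrs
    apply measureReal_mono
    · intro k hk
      exact le_trans hk hrs
    · exact measure_ne_top μ _
  have hms : ∀ r : ℝ, MeasurableSet {k | δ k ≤ r} := fun r => measurableSet_le hδ measurable_const
  -- lower bound
  have hFint : Integrable (fun k => F k ^ m) μ := by
    refine Integrable.of_bound (hF.pow_const m).aestronglyMeasurable 1 ?_
    refine Filter.Eventually.of_forall fun k => ?_
    rw [Real.norm_eq_abs, abs_of_nonneg (pow_nonneg (hF01 k).1 m)]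
    exact pow_le_one₀ (hF01 k).1 (hF01 k).2
  have hFdint : Integrable (fun k => F k ^ m * δ k) μ := by
    refine Integrable.of_bound ((hF.pow_const m).mul hδ).aestronglyMeasurable Bd ?_
    refine Filter.Eventually.of_forall fun k => ?_
    rw [Real.norm_eq_abs, abs_of_nonneg (mul_nonneg (pow_nonneg (hF01 k).1 m) (hδb k).1)]
    calc F k ^ m * δ k ≤ 1 * δ k :=
          mul_le_mul_of_nonneg_right (pow_le_one₀ (hF01 k).1 (hF01 k).2) (hδb k).1
      _ ≤ Bd := by rw [one_mul]; exact (hδb k).2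
  have hlow : (1 / 4) ^ m * V (c₂ / N) ≤ ∫ k, F k ^ m ∂μ := by
    have h1 : ∫ k, ({k | δ k ≤ c₂ / N} : Set K).indicator (fun _ => ((1 : ℝ) / 4) ^ m) k ∂μ =
        (1 / 4) ^ m * V (c₂ / N) := by
      rw [integral_indicator_const _ (hms _), smul_eq_mul, mul_comm]
    rw [← h1]
    apply integral_mono _ hFint
    · intro k
      by_cases hk : k ∈ ({k | δ k ≤ c₂ / N} : Set K)
      · rw [Set.indicator_of_mem hk]
        have h2 : N * δ k ≤ c₂ := by
          have h3 : δ k ≤ c₂ / N := hk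
          rw [le_div_iff₀ hN0] at h3
          linarith
        exact pow_le_pow_left₀ (by norm_num) (hFl k h2) m
      · rw [Set.indicator_of_notMem hk]
        exact pow_nonneg (hF01 k).1 m
    · exact (integrable_const _).indicator (hms _)
  have hpos : 0 < V (c₂ / N) := hV _ (by positivity)
  have hIpos : 0 < ∫ k, F k ^ m ∂μ := lt_of_lt_of_le (by positivity) hlow
  refine ⟨hIpos, ?_⟩
  -- `V (1/N)` against the integral
  have hV1 : V (1 / N) ≤ Dd ^ i * 4 ^ m * ∫ k, F k ^ m ∂μ := by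
    have h1 : V (1 / N) ≤ V (2 ^ i * (c₂ / N)) := by
      apply hVmono
      have h2 : 1 ≤ 2 ^ i * c₂ := by
        rw [div_lt_iff₀ hc₂] at hi
        exact hi.le
      calc (1 : ℝ) / N ≤ (2 ^ i * c₂) / N := by gcongr
        _ = 2 ^ i * (c₂ / N) := by ring
    have h2 := hit i (c₂ / N) (by positivity)
    have h3 : V (c₂ / N) ≤ 4 ^ m * ∫ k, F k ^ m ∂μ := by
      have h4 : (4 : ℝ) ^ m * ((1 / 4) ^ m * V (c₂ / N)) = V (c₂ / N) := by
        rw [← mul_assoc, ← mul_pow]; norm_num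
      rw [← h4]
      gcongr
    calc V (1 / N) ≤ Dd ^ i * V (c₂ / N) := h1.trans h2
      _ ≤ Dd ^ i * (4 ^ m * ∫ k, F k ^ m ∂μ) := by gcongr
      _ = Dd ^ i * 4 ^ m * ∫ k, F k ^ m ∂μ := by ring
  -- upper bound
  obtain ⟨J, hJ⟩ := pow_unbounded_of_one_lt (N * Bd) (one_lt_two (α := ℝ))
  set g : ℕ → K → ℝ := fun j => ({k | δ k ≤ 2 ^ (j + 1) * (1 / N)} : Set K).indicator
    (fun _ => (c₁ * (1 / 4) ^ j) ^ m * (2 ^ (j + 1) * (1 / N))) with hg
  have hgnn : ∀ j k, 0 ≤ g j k := by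
    intro j k
    exact Set.indicator_nonneg (fun _ _ => by positivity) k
  set g0 : K → ℝ := ({k | δ k ≤ 1 / N} : Set K).indicator (fun _ => 1 / (N : ℝ)) with hg0
  have hg0nn : ∀ k, 0 ≤ g0 k := fun k => Set.indicator_nonneg (fun _ _ => by positivity) k
  have hpt : ∀ k, F k ^ m * δ k ≤ g0 k + ∑ j ∈ Finset.range J, g j k := by
    intro k
    by_cases hk : δ k ≤ 1 / N
    · have h1 : g0 k = 1 / N := Set.indicator_of_mem (s := {k | δ k ≤ 1 / N}) hk _
      have h2 : 0 ≤ ∑ j ∈ Finset.range J, g j k := Finset.sum_nonneg fun j _ => hgnn j k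
      rw [h1]
      calc F k ^ m * δ k ≤ 1 * δ k :=
            mul_le_mul_of_nonneg_right (pow_le_one₀ (hF01 k).1 (hF01 k).2) (hδb k).1
        _ ≤ 1 / N + ∑ j ∈ Finset.range J, g j k := by linarith
    · rw [not_le] at hk
      have hk1 : 1 < N * δ k := by
        rw [div_lt_iff₀ hN0] at hk
        linarith
      -- the shell
      obtain ⟨j, hj1, hj2⟩ : ∃ j : ℕ, 2 ^ j < N * δ k ∧ N * δ k ≤ 2 ^ (j + 1) := by
        classical
        have hex : ∃ n : ℕ, N * δ k ≤ (2 : ℝ) ^ n := by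
          obtain ⟨n, hn⟩ := pow_unbounded_of_one_lt (N * δ k) (one_lt_two (α := ℝ))
          exact ⟨n, hn.le⟩
        have h1 := Nat.find_spec hex
        have h2 : Nat.find hex ≠ 0 := by
          intro h0
          rw [h0, pow_zero] at h1
          linarith
        obtain ⟨j, hj⟩ := Nat.exists_eq_succ_of_ne_zero h2
        refine ⟨j, ?_, ?_⟩
        · have h3 := Nat.find_min hex (m := j) (by omega)
          rwa [not_le] at h3
        · rw [hj] at h1
          exact h1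
      have hjJ : j ∈ Finset.range J := by
        rw [Finset.mem_range]
        by_contra hcon
        rw [not_lt] at hcon
        have h1 : (2 : ℝ) ^ J ≤ 2 ^ j := pow_le_pow_right₀ one_le_two hcon
        have h2 : N * δ k ≤ N * Bd := mul_le_mul_of_nonneg_left (hδb k).2 hN0.le
        linarith
      have hδle : δ k ≤ 2 ^ (j + 1) * (1 / N) := by
        rw [mul_one_div, le_div_iff₀ hN0]
        linarith
      have h1 : g j k = (c₁ * (1 / 4) ^ j) ^ m * (2 ^ (j + 1) * (1 / N)) :=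
        Set.indicator_of_mem (s := {k | δ k ≤ 2 ^ (j + 1) * (1 / N)}) hδle _
      have hF4 : F k ≤ c₁ * (1 / 4) ^ j := by
        have h2 : F k * 4 ^ j ≤ c₁ := by
          refine le_trans ?_ (hFc k)
          apply mul_le_mul_of_nonneg_left _ (hF01 k).1
          have h3 : (4 : ℝ) ^ j = (2 ^ j) ^ 2 := by
            rw [← pow_mul, mul_comm, pow_mul]; norm_num
          rw [h3]
          exact pow_le_pow_left₀ (by positivity) hj1.le 2
        rw [one_div, inv_pow, ← div_eq_mul_inv, le_div_iff₀ (by positivity)]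
        exact h2
      have h2 : F k ^ m * δ k ≤ g j k := by
        rw [h1]
        exact mul_le_mul (pow_le_pow_left₀ (hF01 k).1 hF4 m) hδle (hδb k).1 (by positivity)
      have h3 : g j k ≤ ∑ j ∈ Finset.range J, g j k :=
        Finset.single_le_sum (f := fun j => g j k) (fun j _ => hgnn j k) hjJ
      have h4 := hg0nn k
      linarith
  have hgint : ∀ j, Integrable (g j) μ := fun j => (integrable_const _).indicator (hms _)
  have hg0int : Integrable g0 μ := (integrable_const _).indicator (hms _)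
  have hup : ∫ k, F k ^ m * δ k ∂μ ≤ 1 / N * V (1 / N) + ∑ j ∈ Finset.range J,
      (c₁ * (1 / 4) ^ j) ^ m * (2 ^ (j + 1) * (1 / N)) * V (2 ^ (j + 1) * (1 / N)) := by
    have h1 : ∫ k, (g0 k + ∑ j ∈ Finset.range J, g j k) ∂μ = 1 / N * V (1 / N) +
        ∑ j ∈ Finset.range J,
        (c₁ * (1 / 4) ^ j) ^ m * (2 ^ (j + 1) * (1 / N)) * V (2 ^ (j + 1) * (1 / N)) := by
      rw [integral_add hg0int (integrable_finsetSum _ fun j _ => hgint j),
        integral_finsetSum _ fun j _ => hgint j]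
      congr 1
      · rw [hg0, integral_indicator_const _ (hms _), smul_eq_mul, mul_comm]
      · refine Finset.sum_congr rfl fun j _ => ?_
        rw [hg, integral_indicator_const _ (hms _), smul_eq_mul, mul_comm]
    rw [← h1]
    exact integral_mono hFdint (hg0int.add (integrable_finsetSum _ fun j _ => hgint j)) hpt
  have hV1pos : 0 < V (1 / N) := hV _ (by positivity)
  have hsum : ∑ j ∈ Finset.range J,
      (c₁ * (1 / 4) ^ j) ^ m * (2 ^ (j + 1) * (1 / N)) * V (2 ^ (j + 1) * (1 / N)) ≤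
      4 * Dd * c₁ ^ m * (1 / N * V (1 / N)) := by
    have h1 : ∀ j ∈ Finset.range J,
        (c₁ * (1 / 4) ^ j) ^ m * (2 ^ (j + 1) * (1 / N)) * V (2 ^ (j + 1) * (1 / N)) ≤
        (2 * Dd * c₁ ^ m * (1 / N * V (1 / N))) * (2 * Dd * (1 / 4) ^ m) ^ j := by
      intro j _
      have h2 := hit (j + 1) (1 / N) (by positivity)
      calc (c₁ * (1 / 4) ^ j) ^ m * (2 ^ (j + 1) * (1 / N)) * V (2 ^ (j + 1) * (1 / N))
          ≤ (c₁ * (1 / 4) ^ j) ^ m * (2 ^ (j + 1) * (1 / N)) * (Dd ^ (j + 1) * V (1 / N)) := by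
            gcongr
        _ = (2 * Dd * c₁ ^ m * (1 / N * V (1 / N))) * (2 * Dd * (1 / 4) ^ m) ^ j := by
            rw [mul_pow c₁, mul_pow (2 * Dd), mul_pow 2 Dd, ← pow_mul, ← pow_mul, mul_comm m j]
            ring
    refine (Finset.sum_le_sum h1).trans ?_
    rw [← Finset.mul_sum]
    have h3 : 2 * Dd * (1 / 4) ^ m ≤ 1 / 2 := by
      rw [one_div, inv_pow, ← div_eq_mul_inv, div_le_iff₀ (by positivity)]
      linarith
    have h4 := kShells_geom (2 * Dd * (1 / 4) ^ m) (by positivity) h3 J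
    calc (2 * Dd * c₁ ^ m * (1 / N * V (1 / N))) *
          ∑ j ∈ Finset.range J, (2 * Dd * (1 / 4) ^ m) ^ j
        ≤ (2 * Dd * c₁ ^ m * (1 / N * V (1 / N))) * 2 := by gcongr
      _ = 4 * Dd * c₁ ^ m * (1 / N * V (1 / N)) := by ring
  calc ∫ k, F k ^ m * δ k ∂μ
      ≤ 1 / N * V (1 / N) + 4 * Dd * c₁ ^ m * (1 / N * V (1 / N)) := by linarith
    _ = (1 + 4 * Dd * c₁ ^ m) * (1 / N) * V (1 / N) := by ring
    _ ≤ (1 + 4 * Dd * c₁ ^ m) * (1 / N) * (Dd ^ i * 4 ^ m * ∫ k, F k ^ m ∂μ) := by gcongr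
    _ = (1 + 4 * Dd * c₁ ^ m) * (Dd ^ i * 4 ^ m) / N * ∫ k, F k ^ m ∂μ := by ring

end Pool.Agent.H913.SG
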