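import Pool.Agent.H913.SG.Stmts2

open MeasureTheory Matrix NormedSpace
open scoped SchwartzMap ContDiff FourierTransform Matrix

universe u v

namespace Pool.Agent.H913.SG

theorem lKernel_fro_sq {n : ℕ} (X : M n) : fro X ^ 2 = ∑ i, ∑ j, (X i j) ^ 2 := by
  unfold fro
  exact Real.sq_sqrt (Finset.sum_nonneg fun i _ => Finset.sum_nonneg fun j _ => sq_nonneg _)

theorem lKernel_fro_nonneg {n : ℕ} (X : M n) : 0 ≤ fro X := Real.sqrt_nonneg _

theorem lKernel_orth_cols {n : ℕ} (A : M n) (h : Aᵀ * A = 1) (j : Fin n) :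
    ∑ i, A i j ^ 2 = 1 := by
  have h1 : (Aᵀ * A) j j = (1 : M n) j j := by rw [h]
  rw [Matrix.mul_apply, Matrix.one_apply_eq] at h1
  rw [← h1]
  exact Finset.sum_congr rfl fun i _ => by simp [Matrix.transpose_apply, sq]

theorem lKernel_dist_sq {n : ℕ} (A : M n) (h : Aᵀ * A = 1) :
    fro (A - 1) ^ 2 = 2 * n - 2 * A.trace := by
  rw [lKernel_fro_sq, Finset.sum_comm]
  have h1 : ∀ j, ∑ i, ((A - 1) i j) ^ 2 = 2 - 2 * A j j := by
    intro j
    have h2 : ∀ i, ((A - 1) i j) ^ 2 = A i j ^ 2 - 2 * (A i j * (1 : M n) i j) + (1 : M n) i j := by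
      intro i
      rw [Matrix.sub_apply]
      by_cases hij : i = j
      · subst hij; rw [Matrix.one_apply_eq]; ring
      · rw [Matrix.one_apply_ne hij]; ring
    rw [Finset.sum_congr rfl fun i _ => h2 i]
    rw [Finset.sum_add_distrib, Finset.sum_sub_distrib, lKernel_orth_cols A h j, ← Finset.mul_sum]
    have h3 : ∑ i, A i j * (1 : M n) i j = A j j := by
      rw [Finset.sum_eq_single j]
      · rw [Matrix.one_apply_eq, mul_one]
      · intro b _ hb; rw [Matrix.one_apply_ne hb, mul_zero]
      · intro h; exact absurd (Finset.mem_univ j) h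
    have h4 : ∑ i, (1 : M n) i j = 1 := by
      rw [Finset.sum_eq_single j]
      · rw [Matrix.one_apply_eq]
      · intro b _ hb; rw [Matrix.one_apply_ne hb]
      · intro h; exact absurd (Finset.mem_univ j) h
    rw [h3, h4]; ring
  rw [Finset.sum_congr rfl fun j _ => h1 j, Finset.sum_sub_distrib, ← Finset.mul_sum]
  simp [Matrix.trace, Matrix.diag]
  ring

theorem lKernel_diag_le {n : ℕ} (A : M n) (h : Aᵀ * A = 1) (j : Fin n) : -1 ≤ A j j := by
  have h1 := lKernel_orth_cols A h j
  have h2 : A j j ^ 2 ≤ ∑ i, A i j ^ 2 :=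
    Finset.single_le_sum (f := fun i => A i j ^ 2) (fun i _ => sq_nonneg _) (Finset.mem_univ j)
  nlinarith

theorem lKernel_trace_ge {n : ℕ} (A : M n) (h : Aᵀ * A = 1) : -(n : ℝ) ≤ A.trace := by
  have : ∑ _j : Fin n, (-1 : ℝ) ≤ ∑ j, A j j := Finset.sum_le_sum fun j _ => lKernel_diag_le A h j
  simpa [Matrix.trace, Matrix.diag] using this

theorem lKernel_totalDegree {σ : Type} (q : MvPolynomial σ ℂ) (hq : q.totalDegree ≤ 1)
    (F : Polynomial ℂ) : (Polynomial.aeval q F).totalDegree ≤ F.natDegree := by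
  rw [Polynomial.aeval_eq_sum_range]
  refine (MvPolynomial.totalDegree_finsetSum _ _).trans (Finset.sup_le ?_)
  intro i hi
  refine (MvPolynomial.totalDegree_smul_le _ _).trans ?_
  refine (MvPolynomial.totalDegree_pow _ _).trans ?_
  have := Finset.mem_range.1 hi
  calc i * q.totalDegree ≤ i * 1 := Nat.mul_le_mul_left _ hq
    _ ≤ F.natDegree := by omega

theorem lKernel_trace_poly (n : ℕ) (a : ℂ) :
    (MvPolynomial.C a * ∑ j : Fin n, (MvPolynomial.X (j, j) :
      MvPolynomial (Fin n × Fin n) ℂ)).totalDegree ≤ 1 := by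
  refine (MvPolynomial.totalDegree_mul _ _).trans ?_
  rw [MvPolynomial.totalDegree_C, zero_add]
  refine (MvPolynomial.totalDegree_finsetSum _ _).trans (Finset.sup_le ?_)
  intro i _
  rw [MvPolynomial.totalDegree_X]

/-- TARGET -/
theorem kernel (h1 : S_fejer) (h2 : S_doubling) (h3 : S_shells) : S_kernel := by
  intro G _ _ _ _ _ R Pk s _ _ μ _ _
  rcases Nat.eq_zero_or_pos s.n' with hn | hn
  · refine ⟨1, 0, le_refl _, le_refl _, fun N hN => ⟨fun _ => 1, ?_, ?_, ?_, ?_⟩⟩
    · exact ⟨1, by simp, fun k => by simp⟩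
    · intro k; norm_num
    · simp
    · have : ∀ k, s.dist k = 0 := by
        intro k
        unfold KRep.dist fro
        have : ∑ i : Fin s.n', ∑ j : Fin s.n', ((s.σ k - 1) i j) ^ 2 = 0 := by
          apply Finset.sum_eq_zero
          intro i
          exact absurd i.2 (by omega)
        rw [this, Real.sqrt_zero]
      simp [this]
  · obtain ⟨hc, hpos, hdb⟩ := h2 G R Pk s μ
    have hn' : (1 : ℝ) ≤ s.n' := by exact_mod_cast hn
    have hn0 : (s.n' : ℝ) ≠ 0 := by linarith
    obtain ⟨m, C, hm, hC, hS⟩ := h3 (5 ^ (s.n' ^ 2)) (4 * s.n') 1 (s.n' + 1)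
      (one_le_pow₀ (by norm_num)) (by linarith) one_pos (by linarith)
    refine ⟨m, C, hm, hC, fun N hN => ?_⟩
    obtain ⟨F, hFd, hF⟩ := h1 N hN
    set x : R.K → ℝ := fun k => (s.σ k).trace / s.n' with hx
    have hdx : ∀ k, s.dist k ^ 2 = 2 * s.n' * (1 - x k) := by
      intro k
      have := lKernel_dist_sq (s.σ k) (s.orth k)
      rw [KRep.dist, this, hx]
      field_simp
    have hx1 : ∀ k, x k ≤ 1 := by
      intro k
      have h := sq_nonneg (s.dist k)
      rw [hdx k] at h
      by_contra hcon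
      push Not at hcon
      nlinarith
    have hxm : ∀ k, -1 ≤ x k := by
      intro k
      rw [hx]
      show -1 ≤ (s.σ k).trace / s.n'
      rw [le_div_iff₀ (by linarith)]
      linarith [lKernel_trace_ge (s.σ k) (s.orth k)]
    have hd0 : ∀ k, 0 ≤ s.dist k := fun k => lKernel_fro_nonneg _
    have hxc : Continuous x := by
      have : Continuous fun k => (s.σ k).trace := Continuous.matrix_trace s.cont
      exact this.div_const _
    have hFc : Continuous fun k => F.eval (x k) := F.continuous.comp hxc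
    have hN0 : (0 : ℝ) < N := by exact_mod_cast hN
    obtain ⟨hI, hJ⟩ := hS R.K μ s.dist hc.measurable (fun k => ⟨hd0 k, by
        have h := hdx k
        have h' := hxm k
        have h4 : s.dist k ^ 2 ≤ (s.n' + 1) ^ 2 := by nlinarith [sq_nonneg ((s.n' : ℝ) - 1)]
        exact abs_le_of_sq_le_sq' h4 (by linarith) |>.2⟩) hpos hdb N (fun k => F.eval (x k)) hN
      hFc.measurable (fun k => ⟨(hF _ (hxm k) (hx1 k)).1, (hF _ (hxm k) (hx1 k)).2.1⟩)
      (fun k => by
        have h := (hF _ (hxm k) (hx1 k)).2.2.1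
        have e1 : F.eval (x k) * ((N : ℝ) * s.dist k) ^ 2
            = F.eval (x k) * ((N : ℝ) ^ 2 * (1 - x k)) * (2 * (s.n' : ℝ)) := by
          rw [mul_pow, hdx k]; ring
        have e2 : F.eval (x k) * ((N : ℝ) ^ 2 * (1 - x k)) * (2 * (s.n' : ℝ)) ≤ 2 * (2 * (s.n' : ℝ)) :=
          mul_le_mul_of_nonneg_right h (by linarith)
        rw [e1]
        linarith)
      (fun k hk => by
        apply (hF _ (hxm k) (hx1 k)).2.2.2
        have h5 : (N * s.dist k) ^ 2 ≤ 1 := by
          have : 0 ≤ N * s.dist k := mul_nonneg hN0.le (hd0 k)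
          nlinarith
        have h6 : (N * s.dist k) ^ 2 = 2 * s.n' * ((N : ℝ) ^ 2 * (1 - x k)) := by
          rw [mul_pow, hdx k]; ring
        rw [h6] at h5
        have h7 : 0 ≤ (N : ℝ) ^ 2 * (1 - x k) := mul_nonneg (by positivity) (by linarith [hx1 k])
        nlinarith)
    set I : ℝ := ∫ k, F.eval (x k) ^ m ∂μ with hIdef
    refine ⟨fun k => F.eval (x k) ^ m / I, ?_, ?_, ?_, ?_⟩
    · set q : MvPolynomial (Fin s.n' × Fin s.n') ℂ :=
        MvPolynomial.C ((s.n' : ℂ)⁻¹) * ∑ j : Fin s.n', MvPolynomial.X (j, j) with hq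
      set F' : Polynomial ℂ := F.map (algebraMap ℝ ℂ) with hF'
      refine ⟨MvPolynomial.C ((I : ℂ)⁻¹) * (Polynomial.aeval q F') ^ m, ?_, ?_⟩
      · refine (MvPolynomial.totalDegree_mul _ _).trans ?_
        rw [MvPolynomial.totalDegree_C, zero_add]
        refine (MvPolynomial.totalDegree_pow _ _).trans ?_
        refine Nat.mul_le_mul_left _ ?_
        refine (lKernel_totalDegree q (lKernel_trace_poly _ _) F').trans ?_
        rw [hF', Polynomial.natDegree_map]
        exact hFd
      · intro k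
        rw [map_mul, MvPolynomial.eval_C, map_pow]
        have h8 : (MvPolynomial.eval fun ij => ((s.σ k ij.1 ij.2 : ℝ) : ℂ)) (Polynomial.aeval q F')
            = ((F.eval (x k) : ℝ) : ℂ) := by
          have h9 : (MvPolynomial.eval fun ij => ((s.σ k ij.1 ij.2 : ℝ) : ℂ)) q = ((x k : ℝ) : ℂ) := by
            rw [hq, map_mul, MvPolynomial.eval_C, map_sum]
            simp only [MvPolynomial.eval_X]
            rw [hx]
            simp only [Matrix.trace, Matrix.diag]
            push_cast
            rw [div_eq_inv_mul]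
          rw [Polynomial.aeval_def, Polynomial.hom_eval₂, h9]
          have h10 : (MvPolynomial.eval fun ij => ((s.σ k ij.1 ij.2 : ℝ) : ℂ)).comp
              (algebraMap ℂ (MvPolynomial (Fin s.n' × Fin s.n') ℂ)) = RingHom.id ℂ := by
            ext z
            simp
          rw [h10, hF', Polynomial.eval₂_id, ← Polynomial.eval₂_eq_eval_map]
          have := Polynomial.hom_eval₂ F (RingHom.id ℝ) (algebraMap ℝ ℂ) (x k)
          rw [Polynomial.eval₂_id] at this
          rw [RingHom.comp_id] at this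
          exact this.symm
        rw [h8]
        push_cast
        rw [div_eq_inv_mul]
    · intro k
      exact div_nonneg (pow_nonneg (hF _ (hxm k) (hx1 k)).1 _) hI.le
    · rw [integral_div, ← hIdef, div_self hI.ne']
    · have h11 : ∀ k, F.eval (x k) ^ m / I * s.dist k = (F.eval (x k) ^ m * s.dist k) / I := by
        intro k; ring
      simp only [h11]
      rw [integral_div, div_le_iff₀ hI]
      exact hJ

end Pool.Agent.H913.SG
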