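import Pool.Agent.H913.SG.Stmts2

open MeasureTheory Matrix NormedSpace
open scoped SchwartzMap ContDiff FourierTransform Matrix

universe u v

namespace Pool.Agent.H913.SG

theorem mBern_bump : ∃ b : 𝓢(ℝ, ℂ), ∀ x : ℝ, |x| ≤ 1 → b x = (x : ℂ) := by
  let β : ContDiffBump (0 : ℝ) := ⟨1, 2, by norm_num, by norm_num⟩
  have h1 : HasCompactSupport (fun x : ℝ => ((x * β x : ℝ) : ℂ)) := by
    refine (β.hasCompactSupport).mono ?_
    intro x hx
    simp only [Function.mem_support, ne_eq, Complex.ofReal_eq_zero, mul_eq_zero, not_or] at hx ⊢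
    exact hx.2
  have h2 : ContDiff ℝ ∞ (fun x : ℝ => ((x * β x : ℝ) : ℂ)) :=
    Complex.ofRealCLM.contDiff.comp (contDiff_id.mul β.contDiff)
  refine ⟨h1.toSchwartzMap h2, fun x hx => ?_⟩
  have h3 : β x = 1 := β.one_of_mem_closedBall (by
    simpa [β, Real.norm_eq_abs] using hx)
  show ((x * β x : ℝ) : ℂ) = x
  rw [h3, mul_one]

/-- TARGET 1 -/
theorem bernR : S_bernR := by
  obtain ⟨b, hb⟩ := mBern_bump
  obtain ⟨k, hk⟩ : ∃ k : 𝓢(ℝ, ℂ), 𝓕 k = b := ⟨𝓕⁻ b, FourierTransform.fourier_fourierInv_eq b⟩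
  have hk2 : ∀ w : ℝ, (∫ v : ℝ, Complex.exp (((-2 * Real.pi * v * w : ℝ) : ℂ) * Complex.I) * k v)
      = b w := by
    intro w
    rw [← hk, SchwartzMap.fourier_coe, Real.fourier_real_eq_integral_exp_smul]
    rfl
  have hint : Integrable (fun v => ‖k v‖) := k.integrable.norm
  have hnn : 0 ≤ ∫ v, ‖k v‖ := integral_nonneg (fun v => norm_nonneg _)
  refine ⟨∫ v, ‖k v‖, hnn, ?_⟩
  intro m c om Ω S hΩ hom hS
  rcases hΩ.eq_or_lt with h0 | hpos
  · have h1 : ∀ j, om j = 0 := fun j => by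
      have := hom j
      rw [← h0] at this
      exact abs_nonpos_iff.mp this
    simp [h1, ← h0]
  · have hb2 : ∀ j, b (om j / Ω) = ((om j / Ω : ℝ) : ℂ) := fun j => hb _ (by
      rw [abs_div, abs_of_pos hpos]
      exact (div_le_one hpos).mpr (hom j))
    have hi : ∀ j, Integrable (fun v : ℝ => c j *
        (Complex.exp (((-2 * Real.pi * v * (om j / Ω) : ℝ) : ℂ) * Complex.I) * k v)) := by
      intro j
      refine Integrable.const_mul ?_ _
      refine Integrable.mono hint ?_ ?_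
      · exact (Continuous.mul (by fun_prop) k.continuous).aestronglyMeasurable
      · filter_upwards with v
        rw [norm_mul, Complex.norm_exp_ofReal_mul_I, one_mul, norm_norm]
    have e1 : ∑ j, c j * ((om j / Ω : ℝ) : ℂ) = ∫ v : ℝ, ∑ j, c j *
        (Complex.exp (((-2 * Real.pi * v * (om j / Ω) : ℝ) : ℂ) * Complex.I) * k v) := by
      rw [integral_finsetSum _ (fun j _ => hi j)]
      refine Finset.sum_congr rfl (fun j _ => ?_)
      rw [integral_const_mul, hk2, hb2]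
    have e2 : ‖∑ j, c j * ((om j / Ω : ℝ) : ℂ)‖ ≤ S * ∫ v, ‖k v‖ := by
      rw [e1, ← integral_const_mul]
      refine norm_integral_le_of_norm_le (hint.const_mul S) ?_
      filter_upwards with v
      have e3 : (∑ j, c j *
          (Complex.exp (((-2 * Real.pi * v * (om j / Ω) : ℝ) : ℂ) * Complex.I) * k v)) =
          (∑ j, c j * Complex.exp (Complex.I * ((om j * (-2 * Real.pi * v / Ω) : ℝ) : ℂ))) *
            k v := by
        rw [Finset.sum_mul]
        refine Finset.sum_congr rfl (fun j _ => ?_)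
        rw [← mul_assoc]
        congr 3
        rw [mul_comm]
        congr 2
        ring
      rw [e3, norm_mul]
      exact mul_le_mul_of_nonneg_right (hS _) (norm_nonneg _)
    have e4 : ∑ j, c j * (Complex.I * ((om j : ℝ) : ℂ)) =
        (Complex.I * (Ω : ℂ)) * ∑ j, c j * ((om j / Ω : ℝ) : ℂ) := by
      rw [Finset.mul_sum]
      refine Finset.sum_congr rfl (fun j _ => ?_)
      have hΩc : (Ω : ℂ) ≠ 0 := by exact_mod_cast hpos.ne'
      push_cast
      field_simp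
    rw [e4, norm_mul, norm_mul, Complex.norm_I, one_mul, Complex.norm_real, Real.norm_eq_abs,
      abs_of_pos hpos]
    calc Ω * ‖∑ j, c j * ((om j / Ω : ℝ) : ℂ)‖ ≤ Ω * (S * ∫ v, ‖k v‖) :=
          mul_le_mul_of_nonneg_left e2 hpos.le
      _ = (∫ v, ‖k v‖) * Ω * S := by ring

/-- exponential sums with frequencies at most `Ω` -/
def mBern_T (Ω : ℝ) : Submodule ℂ (ℝ → ℂ) :=
  Submodule.span ℂ {f | ∃ w : ℝ, |w| ≤ Ω ∧
    f = fun t => Complex.exp (Complex.I * ((w * t : ℝ) : ℂ))}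

theorem mBern_mono {Ω Ω' : ℝ} (h : Ω ≤ Ω') : mBern_T Ω ≤ mBern_T Ω' := by
  refine Submodule.span_mono ?_
  rintro f ⟨w, hw, rfl⟩
  exact ⟨w, hw.trans h, rfl⟩

theorem mBern_exp {Ω w : ℝ} (h : |w| ≤ Ω) :
    (fun t : ℝ => Complex.exp (Complex.I * ((w * t : ℝ) : ℂ))) ∈ mBern_T Ω :=
  Submodule.subset_span ⟨w, h, rfl⟩

theorem mBern_one {Ω : ℝ} (h : 0 ≤ Ω) : (1 : ℝ → ℂ) ∈ mBern_T Ω := by
  have h1 := mBern_exp (Ω := Ω) (w := 0) (by simpa using h)
  convert h1 using 1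
  funext t
  simp

theorem mBern_mul {Ω Ω' : ℝ} {f g : ℝ → ℂ} (hf : f ∈ mBern_T Ω) (hg : g ∈ mBern_T Ω') :
    f * g ∈ mBern_T (Ω + Ω') := by
  have h1 : f * g ∈ mBern_T Ω * mBern_T Ω' := Submodule.mul_mem_mul hf hg
  unfold mBern_T at h1
  rw [Submodule.span_mul_span] at h1
  refine Submodule.span_mono ?_ h1
  rintro _ ⟨_, ⟨w, hw, rfl⟩, _, ⟨w', hw', rfl⟩, rfl⟩
  refine ⟨w + w', (abs_add_le w w').trans (add_le_add hw hw'), ?_⟩
  funext t
  show Complex.exp _ * Complex.exp _ = _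
  rw [← Complex.exp_add]
  congr 1
  push_cast
  ring

theorem mBern_pow {Ω : ℝ} {f : ℝ → ℂ} (hf : f ∈ mBern_T Ω) (n : ℕ) :
    f ^ n ∈ mBern_T (n * Ω) := by
  induction n with
  | zero => simpa using mBern_one (Ω := 0) le_rfl
  | succ n ih =>
    have h1 := mBern_mul ih hf
    rw [pow_succ]
    convert h1 using 2
    push_cast
    ring

theorem mBern_prod {ι : Type} [DecidableEq ι] {Ω : ℝ} (f : ι → ℝ → ℂ)
    (hf : ∀ i, f i ∈ mBern_T Ω) (A : Finset ι) (s : ι → ℕ) :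
    (∏ i ∈ A, f i ^ s i) ∈ mBern_T ((∑ i ∈ A, s i : ℕ) * Ω) := by
  induction A using Finset.induction_on with
  | empty => simpa using mBern_one (Ω := 0) le_rfl
  | insert a A ha ih =>
    rw [Finset.prod_insert ha, Finset.sum_insert ha]
    have h1 := mBern_mul (mBern_pow (hf a) (s a)) ih
    convert h1 using 2
    push_cast
    ring

theorem mBern_eval {ι : Type} [DecidableEq ι] {Ω : ℝ} (hΩ : 0 ≤ Ω) (f : ι → ℝ → ℂ)
    (hf : ∀ i, f i ∈ mBern_T Ω) (p : MvPolynomial ι ℂ) (N : ℕ) (hp : p.totalDegree ≤ N) :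
    (fun t : ℝ => MvPolynomial.eval (fun i => f i t) p) ∈ mBern_T (N * Ω) := by
  have e : (fun t : ℝ => MvPolynomial.eval (fun i => f i t) p) =
      ∑ d ∈ p.support, p.coeff d • ∏ i ∈ d.support, f i ^ d i := by
    funext t
    rw [MvPolynomial.eval_eq]
    simp only [Finset.sum_apply, Pi.smul_apply, Finset.prod_apply, Pi.pow_apply, smul_eq_mul]
  rw [e]
  refine Submodule.sum_mem _ (fun d hd => Submodule.smul_mem _ _ ?_)
  refine mBern_mono ?_ (mBern_prod f hf d.support d)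
  have h1 : (d.sum fun _ e => e) ≤ p.totalDegree := MvPolynomial.le_totalDegree hd
  have h2 : (∑ i ∈ d.support, d i) ≤ N := h1.trans hp
  exact mul_le_mul_of_nonneg_right (by exact_mod_cast h2) hΩ

theorem mBern_fin {Ω : ℝ} {f : ℝ → ℂ} (hf : f ∈ mBern_T Ω) :
    ∃ (m : ℕ) (c : Fin m → ℂ) (om : Fin m → ℝ), (∀ j, |om j| ≤ Ω) ∧
      ∀ t, f t = ∑ j, c j * Complex.exp (Complex.I * ((om j * t : ℝ) : ℂ)) := by
  unfold mBern_T at hf
  induction hf using Submodule.span_induction with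
  | mem f hf =>
    obtain ⟨w, hw, rfl⟩ := hf
    exact ⟨1, fun _ => 1, fun _ => w, fun _ => hw, fun t => by simp⟩
  | zero => exact ⟨0, Fin.elim0, Fin.elim0, fun j => j.elim0, fun t => by simp⟩
  | add f g _ _ ihf ihg =>
    obtain ⟨m, c, om, h1, h2⟩ := ihf
    obtain ⟨m', c', om', h1', h2'⟩ := ihg
    refine ⟨m + m', Fin.append c c', Fin.append om om', ?_, ?_⟩
    · intro j
      refine Fin.addCases (fun i => ?_) (fun i => ?_) j
      · rw [Fin.append_left]
        exact h1 i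
      · rw [Fin.append_right]
        exact h1' i
    · intro t
      rw [Fin.sum_univ_add]
      simp only [Fin.append_left, Fin.append_right]
      rw [Pi.add_apply, h2, h2']
  | smul a f _ ih =>
    obtain ⟨m, c, om, h1, h2⟩ := ih
    refine ⟨m, fun j => a * c j, om, h1, fun t => ?_⟩
    rw [Pi.smul_apply, h2, smul_eq_mul, Finset.mul_sum]
    exact Finset.sum_congr rfl (fun j _ => by ring)

/-- TARGET 2 -/
theorem bern (h1 : S_osc) : S_bern := by
  intro G _ _ _ _ _ R P s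
  obtain ⟨CR, hCR0, hCR⟩ := bernR
  obtain ⟨C₀, hC0, hosc⟩ := h1 G R P s
  refine ⟨CR * C₀, mul_nonneg hCR0 hC0, ?_⟩
  intro N F hF X hX S hS k
  obtain ⟨om, c, hom, hc⟩ := hosc X hX
  obtain ⟨p, hp, hFp⟩ := hF
  have hfro : 0 ≤ fro X.1 := Real.sqrt_nonneg _
  have hΩ : 0 ≤ C₀ * fro X.1 := mul_nonneg hC0 hfro
  have hent : ∀ ij : Fin s.n' × Fin s.n', (fun t : ℝ =>
      ((s.σ (k * ⟨P.gam X t, P.gam_mem X hX t⟩) ij.1 ij.2 : ℝ) : ℂ)) ∈
        mBern_T (C₀ * fro X.1) := by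
    intro ij
    have e : (fun t : ℝ => ((s.σ (k * ⟨P.gam X t, P.gam_mem X hX t⟩) ij.1 ij.2 : ℝ) : ℂ)) =
        ∑ l, ∑ j, (((s.σ k ij.1 l : ℝ) : ℂ) * c l ij.2 j) •
          (fun t : ℝ => Complex.exp (Complex.I * ((om j * t : ℝ) : ℂ))) := by
      funext t
      rw [map_mul, Matrix.mul_apply, Complex.ofReal_sum, Finset.sum_apply]
      refine Finset.sum_congr rfl (fun l _ => ?_)
      rw [Complex.ofReal_mul, hc, Finset.sum_apply, Finset.mul_sum]
      refine Finset.sum_congr rfl (fun j _ => ?_)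
      rw [Pi.smul_apply, smul_eq_mul, mul_assoc]
    rw [e]
    exact Submodule.sum_mem _ (fun l _ => Submodule.sum_mem _ (fun j _ =>
      Submodule.smul_mem _ _ (mBern_exp (hom j))))
  have hT : (fun t : ℝ => F (k * ⟨P.gam X t, P.gam_mem X hX t⟩)) ∈
      mBern_T (N * (C₀ * fro X.1)) := by
    have h2 := mBern_eval hΩ (fun (ij : Fin s.n' × Fin s.n') (t : ℝ) =>
      ((s.σ (k * ⟨P.gam X t, P.gam_mem X hX t⟩) ij.1 ij.2 : ℝ) : ℂ)) hent p N hp
    convert h2 using 1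
    funext t
    exact hFp _
  obtain ⟨m, c', om', hom', hf⟩ := mBern_fin hT
  refine ⟨∑ j, c' j * (Complex.I * ((om' j : ℝ) : ℂ)), ?_, ?_⟩
  · have hfun : (fun t : ℝ => F (k * ⟨P.gam X t, P.gam_mem X hX t⟩)) =
        fun t : ℝ => ∑ j, c' j * Complex.exp (Complex.I * ((om' j * t : ℝ) : ℂ)) := funext hf
    rw [hfun]
    refine HasDerivAt.fun_sum (fun j _ => ?_)
    have h3 : HasDerivAt (fun t : ℝ => Complex.I * ((om' j * t : ℝ) : ℂ))
        (Complex.I * ((om' j : ℝ) : ℂ)) 0 := by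
      have h4 : HasDerivAt (fun t : ℝ => om' j * t) (om' j) 0 := by
        simpa using (hasDerivAt_id (0 : ℝ)).const_mul (om' j)
      exact (h4.ofReal_comp).const_mul Complex.I
    have h5 := h3.cexp
    have h6 := h5.const_mul (c' j)
    have e0 : c' j * (Complex.I * ((om' j : ℝ) : ℂ)) =
        c' j * (Complex.exp (Complex.I * ((om' j * 0 : ℝ) : ℂ)) *
          (Complex.I * ((om' j : ℝ) : ℂ))) := by
      simp
    rw [e0]
    exact h6
  · have h2 := hCR m c' om' (N * (C₀ * fro X.1)) S (mul_nonneg (Nat.cast_nonneg _) hΩ) hom'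
      (fun t => by rw [← hf t]; exact hS _)
    refine h2.trans (le_of_eq ?_)
    ring

end Pool.Agent.H913.SG
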