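import Pool.Agent.H913.SG.Stmts2

open MeasureTheory Matrix NormedSpace
open scoped SchwartzMap ContDiff FourierTransform Matrix

universe u v

namespace Pool.Agent.H913.SG

/-- continuous one-parameter groups in a Banach algebra are differentiable -/
theorem mOsc_oneparam {𝔸 : Type*} [NormedRing 𝔸] [NormedAlgebra ℝ 𝔸] [CompleteSpace 𝔸]
    (A : ℝ → 𝔸) (hc : Continuous A) (h0 : A 0 = 1) (hadd : ∀ s t, A (s + t) = A s * A t) :
    ∃ Y : 𝔸, ∀ t, HasDerivAt A (A t * Y) t := by
  have hcont0 : Filter.Tendsto A (nhds 0) (nhds (1 : 𝔸)) := by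
    have := hc.tendsto 0
    rwa [h0] at this
  obtain ⟨δ, hδ, hδ'⟩ := Metric.tendsto_nhds_nhds.1 hcont0 (1 / 2) (by norm_num)
  obtain ⟨a, ha0, haδ⟩ : ∃ a : ℝ, 0 < a ∧ a < δ := ⟨δ / 2, by linarith, by linarith⟩
  have hint : ∀ x y, IntervalIntegrable A volume x y := fun x y => hc.intervalIntegrable x y
  obtain ⟨B, hB⟩ : ∃ B : 𝔸, B = ∫ s in (0 : ℝ)..a, A s := ⟨_, rfl⟩
  have hB1 : ‖B - a • (1 : 𝔸)‖ ≤ 1 / 2 * |a - 0| := by
    have h : B - a • (1 : 𝔸) = ∫ s in (0 : ℝ)..a, (A s - 1) := by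
      rw [intervalIntegral.integral_sub (hint _ _) (by simp), intervalIntegral.integral_const, hB]
      simp
    rw [h]
    apply intervalIntegral.norm_integral_le_of_norm_le_const
    intro s hs
    rw [Set.uIoc_of_le ha0.le] at hs
    have h3 := hδ' (x := s) (by
      rw [Real.dist_eq, sub_zero, abs_of_pos hs.1]
      linarith [hs.2])
    rw [dist_eq_norm] at h3
    exact h3.le
  have h2 : ‖(1 : 𝔸) - a⁻¹ • B‖ < 1 := by
    have h : (1 : 𝔸) - a⁻¹ • B = -(a⁻¹ • (B - a • (1 : 𝔸))) := by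
      rw [smul_sub, smul_smul, inv_mul_cancel₀ ha0.ne', one_smul, neg_sub]
    rw [h, norm_neg, norm_smul, norm_inv, Real.norm_eq_abs, abs_of_pos ha0]
    rw [sub_zero, abs_of_pos ha0] at hB1
    calc a⁻¹ * ‖B - a • (1 : 𝔸)‖ ≤ a⁻¹ * (1 / 2 * a) :=
          mul_le_mul_of_nonneg_left hB1 (by positivity)
      _ = 1 / 2 := by field_simp
      _ < 1 := by norm_num
  obtain ⟨Bi, hBi⟩ : ∃ Bi : 𝔸, B * Bi = 1 := by
    have h3 : ((Units.oneSub _ h2 : 𝔸ˣ) : 𝔸) = a⁻¹ • B := by simp
    obtain ⟨u, hu⟩ : ∃ u : 𝔸ˣ, (u : 𝔸) = a⁻¹ • B := ⟨_, h3⟩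
    refine ⟨a⁻¹ • (u⁻¹ : 𝔸ˣ), ?_⟩
    rw [mul_smul_comm, ← smul_mul_assoc, ← hu, Units.mul_inv]
  refine ⟨(A a - 1) * Bi, fun t => ?_⟩
  obtain ⟨F, hF⟩ : ∃ F : ℝ → 𝔸, F = fun t => ∫ s in (0 : ℝ)..t, A s := ⟨_, rfl⟩
  have hFd : ∀ t, HasDerivAt F (A t) t := by
    intro t
    rw [hF]
    exact intervalIntegral.integral_hasDerivAt_right (hint 0 t)
      (hc.stronglyMeasurableAtFilter _ _) hc.continuousAt
  have hA : ∀ t, A t = (F (t + a) - F t) * Bi := by
    intro t
    have h1 : A t * B = F (t + a) - F t := by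
      have h4 : A t * B = ∫ s in (0 : ℝ)..a, A t * A s := by
        rw [hB]
        exact ((ContinuousLinearMap.mul ℝ 𝔸 (A t)).intervalIntegral_comp_comm (hint 0 a)).symm
      rw [h4]
      have h5 : (∫ s in (0 : ℝ)..a, A t * A s) = ∫ s in (0 : ℝ)..a, A (t + s) := by
        simp only [hadd]
      rw [h5, intervalIntegral.integral_comp_add_left, add_zero, hF]
      simp only
      rw [intervalIntegral.integral_interval_sub_left (hint _ _) (hint _ _)]
    rw [← h1, mul_assoc, hBi, mul_one]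
  have h6 : HasDerivAt (fun t => (F (t + a) - F t) * Bi) ((A (t + a) - A t) * Bi) t :=
    (((hFd (t + a)).comp_add_const t a).sub (hFd t)).mul_const Bi
  have h7 : A = fun t => (F (t + a) - F t) * Bi := funext hA
  have h8 : A t * ((A a - 1) * Bi) = (A (t + a) - A t) * Bi := by
    rw [hadd, ← mul_assoc, mul_sub, mul_one]
  rw [h8]
  rw [← h7] at h6
  exact h6

open scoped Matrix.Norms.Operator in
theorem mOsc_matrix (n : ℕ) (A : ℝ → Matrix (Fin n) (Fin n) ℂ) (hc : Continuous A) (h0 : A 0 = 1)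
    (hadd : ∀ s t, A (s + t) = A s * A t) :
    ∃ Y : Matrix (Fin n) (Fin n) ℂ, ∀ (v w : Fin n → ℂ) (t : ℝ),
      HasDerivAt (fun t => w ⬝ᵥ (A t *ᵥ v)) (w ⬝ᵥ ((A t * Y) *ᵥ v)) t := by
  obtain ⟨Y, hY⟩ := mOsc_oneparam A hc h0 hadd
  refine ⟨Y, fun v w t => ?_⟩
  let ℓ : Matrix (Fin n) (Fin n) ℂ →ₗ[ℝ] ℂ :=
    { toFun := fun M => w ⬝ᵥ (M *ᵥ v)
      map_add' := by
        intro M N
        rw [Matrix.add_mulVec, dotProduct_add]
      map_smul' := by
        intro c M
        rw [Matrix.smul_mulVec, dotProduct_smul, RingHom.id_apply] }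
  exact (LinearMap.toContinuousLinearMap ℓ).hasFDerivAt.comp_hasDerivAt t (hY t)

theorem mOsc_diag (n : ℕ) (A : ℝ → Matrix (Fin n) (Fin n) ℂ) (hc : Continuous A) (h0 : A 0 = 1)
    (hadd : ∀ s t, A (s + t) = A s * A t) (hun : ∀ t, A (-t) = (A t)ᴴ) :
    ∃ (om : Fin n → ℝ) (U : Fin n → Fin n → ℂ),
      (∀ a b, ∑ j, U j a * star (U j b) = if a = b then 1 else 0) ∧
      (∀ j, U j ≠ 0) ∧
      ∀ j t, A t *ᵥ U j = Complex.exp (Complex.I * ((om j * t : ℝ) : ℂ)) • U j := by
  obtain ⟨Y, hY⟩ := mOsc_matrix n A hc h0 hadd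
  have hent : ∀ a b t, HasDerivAt (fun t => A t a b) ((A t * Y) a b) t := by
    intro a b t
    have h := hY (Pi.single b 1) (Pi.single a 1) t
    simpa [Matrix.mulVec_single_one, Matrix.col_apply] using h
  have hskew : ∀ a b, star (Y b a) = - Y a b := by
    intro a b
    have h1 : HasDerivAt (fun t : ℝ => A (-t) a b) (-(Y a b)) 0 := by
      have h := (hent a b (-0)).scomp (0 : ℝ) (hasDerivAt_neg (0 : ℝ))
      simpa [h0, Function.comp_def] using h
    have h2 : HasDerivAt (fun t : ℝ => A (-t) a b) (star (Y b a)) 0 := by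
      have h := (hent b a 0).star
      have h3 : (fun t : ℝ => A (-t) a b) = fun t => star (A t b a) := by
        funext t
        rw [hun, Matrix.conjTranspose_apply]
      rw [h3]
      simpa [h0] using h
    exact h2.unique h1
  have hH : (-Complex.I • Y).IsHermitian := by
    ext a b
    rw [Matrix.conjTranspose_apply, Matrix.smul_apply, Matrix.smul_apply, smul_eq_mul, smul_eq_mul,
      star_mul', hskew]
    simp
  refine ⟨hH.eigenvalues, fun j => ⇑(hH.eigenvectorBasis j), ?_, ?_, ?_⟩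
  · intro a b
    have h1 : (hH.eigenvectorUnitary : Matrix (Fin n) (Fin n) ℂ) *
        star (hH.eigenvectorUnitary : Matrix (Fin n) (Fin n) ℂ) = 1 :=
      Unitary.coe_mul_star_self _
    have h2 := congrFun (congrFun h1 a) b
    rw [Matrix.mul_apply, Matrix.one_apply] at h2
    rw [← h2]
    apply Finset.sum_congr rfl
    intro j _
    rw [Matrix.star_apply, Matrix.IsHermitian.eigenvectorUnitary_apply,
      Matrix.IsHermitian.eigenvectorUnitary_apply]
  · intro j hj
    apply hH.eigenvectorBasis.orthonormal.ne_zero j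
    ext a
    exact congrFun hj a
  · intro j t
    have hYv : Y *ᵥ ⇑(hH.eigenvectorBasis j) =
        (Complex.I * (hH.eigenvalues j : ℂ)) • ⇑(hH.eigenvectorBasis j) := by
      have h := hH.mulVec_eigenvectorBasis j
      have h3 : Y *ᵥ ⇑(hH.eigenvectorBasis j) =
          Complex.I • ((-Complex.I • Y) *ᵥ ⇑(hH.eigenvectorBasis j)) := by
        rw [Matrix.smul_mulVec, smul_smul]
        simp
      rw [h3, h]
      funext a
      simp [mul_assoc]
    have key : ∀ w : Fin n → ℂ, w ⬝ᵥ (A t *ᵥ ⇑(hH.eigenvectorBasis j)) =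
        Complex.exp (Complex.I * ((hH.eigenvalues j * t : ℝ) : ℂ)) *
          (w ⬝ᵥ ⇑(hH.eigenvectorBasis j)) := by
      intro w
      set f : ℝ → ℂ := fun t => w ⬝ᵥ (A t *ᵥ ⇑(hH.eigenvectorBasis j)) with hf
      have hfd : ∀ t, HasDerivAt f ((Complex.I * (hH.eigenvalues j : ℂ)) * f t) t := by
        intro t
        have h := hY (⇑(hH.eigenvectorBasis j)) w t
        rw [← Matrix.mulVec_mulVec, hYv, Matrix.mulVec_smul, dotProduct_smul, smul_eq_mul] at h
        exact h
      have hed : ∀ t : ℝ, HasDerivAt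
          (fun t : ℝ => Complex.exp (-(Complex.I * (hH.eigenvalues j : ℂ)) * (t : ℂ)))
          (Complex.exp (-(Complex.I * (hH.eigenvalues j : ℂ)) * (t : ℂ)) *
            (-(Complex.I * (hH.eigenvalues j : ℂ)))) t := by
        intro t
        have h1 : HasDerivAt (fun t : ℝ => -(Complex.I * (hH.eigenvalues j : ℂ)) * (t : ℂ))
            (-(Complex.I * (hH.eigenvalues j : ℂ)) * 1) t :=
          (Complex.ofRealCLM.hasDerivAt (x := t)).const_mul _
        rw [mul_one] at h1
        exact h1.cexp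
      have hconst : ∀ t, f t * Complex.exp (-(Complex.I * (hH.eigenvalues j : ℂ)) * (t : ℂ)) =
          f 0 * Complex.exp (-(Complex.I * (hH.eigenvalues j : ℂ)) * ((0 : ℝ) : ℂ)) := by
        intro t
        refine is_const_of_deriv_eq_zero (f := fun t : ℝ => f t *
          Complex.exp (-(Complex.I * (hH.eigenvalues j : ℂ)) * (t : ℂ)))
          (fun x => ((hfd x).mul (hed x)).differentiableAt) (fun x => ?_) t 0
        exact (HasDerivAt.deriv ((hfd x).mul (hed x))).trans (by ring)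
      have h1 := hconst t
      have hf0 : f 0 = w ⬝ᵥ ⇑(hH.eigenvectorBasis j) := by
        rw [hf]
        simp only [h0, Matrix.one_mulVec]
      rw [Complex.ofReal_zero, mul_zero, Complex.exp_zero, mul_one, hf0] at h1
      rw [← h1]
      change f t = _
      have h2 : Complex.exp (Complex.I * ((hH.eigenvalues j * t : ℝ) : ℂ)) *
          Complex.exp (-(Complex.I * (hH.eigenvalues j : ℂ)) * (t : ℂ)) = 1 := by
        rw [← Complex.exp_add, ← Complex.exp_zero]
        congr 1
        push_cast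
        ring
      calc f t = f t * (Complex.exp (Complex.I * ((hH.eigenvalues j * t : ℝ) : ℂ)) *
          Complex.exp (-(Complex.I * (hH.eigenvalues j : ℂ)) * (t : ℂ))) := by rw [h2, mul_one]
        _ = _ := by ring
    funext a
    have h := key (Pi.single a 1)
    simpa using h

theorem mOsc_fro_smul {n : ℕ} (t : ℝ) (X : M n) : fro (t • X) = |t| * fro X := by
  unfold fro
  have h : (∑ i, ∑ j, ((t • X) i j) ^ 2) = t ^ 2 * ∑ i, ∑ j, (X i j) ^ 2 := by
    rw [Finset.mul_sum]
    refine Finset.sum_congr rfl fun i _ => ?_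
    rw [Finset.mul_sum]
    refine Finset.sum_congr rfl fun j _ => ?_
    rw [Matrix.smul_apply, smul_eq_mul, mul_pow]
  rw [h, Real.sqrt_mul (sq_nonneg t), Real.sqrt_sq_eq_abs]

theorem mOsc_eps (G : Type) [Group G] [TopologicalSpace G] (R : RealReductive G) (P : Pack R)
    (s : KRep R) (δ : ℝ) (hδ : 0 < δ) : ∃ ε > 0, ∀ (X : R.lie) (hX : R.IsSkew X) (t : ℝ),
      |t| * fro X.1 < ε → ∀ a b,
        |s.σ ⟨P.gam X t, P.gam_mem X hX t⟩ a b - (1 : Matrix (Fin s.n') (Fin s.n') ℝ) a b| < δ := by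
  have h1 : ∀ᶠ k in nhds (1 : R.K), ∀ a b,
      |s.σ k a b - (1 : Matrix (Fin s.n') (Fin s.n') ℝ) a b| < δ := by
    rw [Filter.eventually_all]
    intro a
    rw [Filter.eventually_all]
    intro b
    have hc : Continuous fun k => s.σ k a b := s.cont.matrix_elem a b
    have h2 := hc.tendsto 1
    rw [map_one] at h2
    have h3 := Metric.tendsto_nhds.1 h2 δ hδ
    exact h3
  rw [nhds_subtype_eq_comap, Filter.eventually_comap] at h1
  obtain ⟨ε, hε, hε'⟩ := P.gam_near _ h1
  refine ⟨ε, hε, fun X hX t ht => ?_⟩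
  have h4 : P.gam (t • X) 1 = P.gam X t := by rw [P.gam_smul, mul_one]
  have h5 := hε' (t • X) (by
    rw [Submodule.coe_smul, mOsc_fro_smul]
    exact ht)
  rw [h4] at h5
  exact h5 ⟨P.gam X t, P.gam_mem X hX t⟩ rfl

/-- TARGET -/
theorem osc : S_osc := by
  intro G _ _ _ _ _ R P s
  obtain ⟨ε, hε, hε'⟩ := mOsc_eps G R P s (1 / (2 * (s.n' + 1))) (by positivity)
  refine ⟨1 / ε, by positivity, fun X hX => ?_⟩
  set A : ℝ → Matrix (Fin s.n') (Fin s.n') ℂ := fun t =>
    (s.σ ⟨P.gam X t, P.gam_mem X hX t⟩).map (fun x : ℝ => (x : ℂ)) with hA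
  have hspec := P.gam_spec X
  have hmul : ∀ t t', (⟨P.gam X (t + t'), P.gam_mem X hX (t + t')⟩ : R.K) =
      ⟨P.gam X t, P.gam_mem X hX t⟩ * ⟨P.gam X t', P.gam_mem X hX t'⟩ := by
    intro t t'
    apply Subtype.ext
    exact hspec.2.1 t t'
  have hcont : Continuous fun t => (⟨P.gam X t, P.gam_mem X hX t⟩ : R.K) :=
    hspec.1.subtype_mk _
  have hAc : Continuous A := (s.cont.comp hcont).matrix_map Complex.continuous_ofReal
  have hg0 : P.gam X 0 = 1 := by
    have h := hspec.2.1 0 0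
    rw [add_zero] at h
    exact (mul_eq_left.1 h.symm)
  have hA0 : A 0 = 1 := by
    have h : (⟨P.gam X 0, P.gam_mem X hX 0⟩ : R.K) = 1 := Subtype.ext hg0
    rw [hA]
    simp only [h, map_one]
    ext a b
    simp [Matrix.one_apply, apply_ite]
  have hAadd : ∀ t t', A (t + t') = A t * A t' := by
    intro t t'
    rw [hA]
    simp only [hmul, map_mul]
    ext a b
    simp [Matrix.mul_apply]
  have hAun : ∀ t, A (-t) = (A t)ᴴ := by
    intro t
    have h1 : (A t)ᴴ * A t = 1 := by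
      have h := s.orth ⟨P.gam X t, P.gam_mem X hX t⟩
      ext a b
      have h2 := congrFun (congrFun h a) b
      rw [Matrix.mul_apply] at h2 ⊢
      have h3 : (((1 : Matrix (Fin s.n') (Fin s.n') ℝ) a b : ℝ) : ℂ) =
          (1 : Matrix (Fin s.n') (Fin s.n') ℂ) a b := by
        simp [Matrix.one_apply, apply_ite]
      rw [← h3, ← h2]
      push_cast
      refine Finset.sum_congr rfl fun j _ => ?_
      rw [Matrix.conjTranspose_apply, Matrix.transpose_apply, hA]
      simp [Complex.conj_ofReal]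
    have h2 : A t * A (-t) = 1 := by
      rw [← hAadd, add_neg_cancel, hA0]
    calc A (-t) = ((A t)ᴴ * A t) * A (-t) := by rw [h1, one_mul]
      _ = (A t)ᴴ := by rw [Matrix.mul_assoc, h2, mul_one]
  obtain ⟨om, U, hU1, hU2, hU3⟩ := mOsc_diag s.n' A hAc hA0 hAadd hAun
  refine ⟨om, fun a b j => U j a * star (U j b), ?_, ?_⟩
  · intro j
    by_contra hcon
    push Not at hcon
    have hfro : 0 ≤ fro X.1 := Real.sqrt_nonneg _
    have hpos : 0 < |om j| := lt_of_le_of_lt (by positivity) hcon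
    have hne : om j ≠ 0 := abs_pos.1 hpos
    obtain ⟨t, ht⟩ : ∃ t : ℝ, t = 1 / om j := ⟨_, rfl⟩
    have ht1 : |t| * fro X.1 < ε := by
      rw [ht, abs_div, abs_one, div_mul_eq_mul_div, one_mul, div_lt_iff₀ hpos]
      rw [div_mul_eq_mul_div, one_mul, div_lt_iff₀ hε] at hcon
      linarith
    have hclose := hε' X hX t ht1
    obtain ⟨a, -, ha⟩ := Finset.exists_max_image Finset.univ (fun a => ‖U j a‖) (by
      by_contra hemp
      rw [Finset.not_nonempty_iff_eq_empty] at hemp
      apply hU2 j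
      funext a
      exact absurd (Finset.mem_univ a) (by rw [hemp]; simp))
    have hapos : 0 < ‖U j a‖ := by
      rw [norm_pos_iff]
      intro h0
      apply hU2 j
      funext b
      have h := ha b (Finset.mem_univ b)
      rw [h0, norm_zero] at h
      simpa using h
    have h1 : (Complex.exp (Complex.I * ((om j * t : ℝ) : ℂ)) - 1) * U j a =
        ∑ b, (A t a b - (1 : Matrix (Fin s.n') (Fin s.n') ℂ) a b) * U j b := by
      have h2 := congrFun (hU3 j t) a
      rw [Pi.smul_apply, smul_eq_mul] at h2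
      rw [sub_mul, one_mul, ← h2]
      have h3 : U j a = ∑ b, (1 : Matrix (Fin s.n') (Fin s.n') ℂ) a b * U j b := by
        simp [Matrix.one_apply]
      calc (A t *ᵥ U j) a - U j a = ∑ b, A t a b * U j b -
            ∑ b, (1 : Matrix (Fin s.n') (Fin s.n') ℂ) a b * U j b := by
            rw [← h3]
            rfl
        _ = ∑ b, (A t a b - (1 : Matrix (Fin s.n') (Fin s.n') ℂ) a b) * U j b := by
            rw [← Finset.sum_sub_distrib]
            refine Finset.sum_congr rfl fun b _ => ?_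
            ring
    have h4 : ‖Complex.exp (Complex.I * ((om j * t : ℝ) : ℂ)) - 1‖ * ‖U j a‖ ≤
        (1 / 2) * ‖U j a‖ := by
      rw [← norm_mul, h1]
      refine (norm_sum_le _ _).trans ?_
      have h5 : ∀ b ∈ Finset.univ, ‖(A t a b - (1 : Matrix (Fin s.n') (Fin s.n') ℂ) a b) * U j b‖ ≤
          1 / (2 * (s.n' + 1)) * ‖U j a‖ := by
        intro b hb
        rw [norm_mul]
        refine mul_le_mul ?_ (ha b hb) (norm_nonneg _) (by positivity)
        have h6 : A t a b - (1 : Matrix (Fin s.n') (Fin s.n') ℂ) a b =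
            ((s.σ ⟨P.gam X t, P.gam_mem X hX t⟩ a b -
              (1 : Matrix (Fin s.n') (Fin s.n') ℝ) a b : ℝ) : ℂ) := by
          rw [hA]
          by_cases hab : a = b <;> simp [Matrix.one_apply, hab]
        rw [h6, Complex.norm_real, Real.norm_eq_abs]
        exact (hclose a b).le
      refine (Finset.sum_le_sum h5).trans ?_
      rw [Finset.sum_const, Finset.card_univ, Fintype.card_fin, nsmul_eq_mul, ← mul_assoc]
      refine mul_le_mul_of_nonneg_right ?_ (norm_nonneg _)
      rw [mul_one_div, div_le_div_iff₀ (by positivity) (by norm_num)]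
      linarith
    have h7 : ‖Complex.exp (Complex.I * ((om j * t : ℝ) : ℂ)) - 1‖ ≤ 1 / 2 :=
      le_of_mul_le_mul_right h4 hapos
    have h8 : om j * t = 1 := by rw [ht]; field_simp
    rw [h8] at h7
    have h9 := (Complex.abs_im_le_norm (Complex.exp (Complex.I * ((1 : ℝ) : ℂ)) - 1)).trans h7
    rw [Complex.sub_im, Complex.one_im, sub_zero, mul_comm, Complex.exp_ofReal_mul_I_im] at h9
    have h10 : (1 : ℝ) - 1 ^ 3 / 6 < Real.sin 1 := Real.sin_gt_sub_cube one_pos
    have h11 := le_abs_self (Real.sin 1)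
    norm_num at h10
    linarith
  · intro a b t
    have h1 : A t a b = ∑ j, (A t *ᵥ U j) a * star (U j b) := by
      have h2 : ∀ j, (A t *ᵥ U j) a * star (U j b) = ∑ k, A t a k * (U j k * star (U j b)) := by
        intro j
        rw [Matrix.mulVec, dotProduct, Finset.sum_mul]
        refine Finset.sum_congr rfl fun k _ => ?_
        ring
      simp_rw [h2]
      rw [Finset.sum_comm]
      simp_rw [← Finset.mul_sum, hU1]
      simp
    have h3 : ((s.σ ⟨P.gam X t, P.gam_mem X hX t⟩ a b : ℝ) : ℂ) = A t a b := by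
      rw [hA]
      simp
    rw [h3, h1]
    refine Finset.sum_congr rfl fun j _ => ?_
    rw [hU3 j t, Pi.smul_apply, smul_eq_mul]
    ring

end Pool.Agent.H913.SG
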