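import Pool.Agent.H913.SG.Stmts2

open MeasureTheory Matrix NormedSpace
open scoped SchwartzMap ContDiff FourierTransform Matrix

universe u v

namespace Pool.Agent.H913.SG

/-- TARGET -/
theorem avg (h1 : S_W) (h2 : S_avgV.{u}) (h3 : S_Ufin.{u}) : S_avg.{u,v} := by
  intro G _ _ _ _ _ R P s _ _ μ _ _ V _ _ Mo htriv w E _ _ _ Gl N f hf x hx
  haveI : CompactSpace R.K := P.compactK
  have hfc : Continuous fun k => (f k : ℂ) := (h1 G R s).2.2.1 N _ hf
  -- orbits are continuous
  have horb : ∀ y : E, Continuous fun k : R.K => Gl.π k.1 y :=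
    fun y => (Gl.cont y).comp continuous_subtype_val
  have hint : ∀ y : E, Integrable (fun k : R.K => (f k : ℂ) • Gl.π k.1 y) μ := by
    intro y
    exact (hfc.smul (horb y)).integrable_of_hasCompactSupport (HasCompactSupport.of_compactSpace _)
  -- uniform boundedness
  obtain ⟨C, hC⟩ : ∃ C, ∀ k : R.K, ‖Gl.π k.1‖ ≤ C := by
    refine banach_steinhaus fun y => ?_
    obtain ⟨C, hC⟩ := isCompact_univ.exists_bound_of_continuousOn (horb y).continuousOn
    exact ⟨C, fun k => hC k (Set.mem_univ _)⟩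
  obtain ⟨D, hD⟩ : ∃ D, ∀ k : R.K, ‖(f k : ℂ)‖ ≤ D := by
    obtain ⟨D, hD⟩ := isCompact_univ.exists_bound_of_continuousOn hfc.continuousOn
    exact ⟨D, fun k => hD k (Set.mem_univ _)⟩
  set B : E → E := fun y => ∫ k : R.K, (f k : ℂ) • Gl.π k.1 y ∂μ with hB
  have hD0 : 0 ≤ D := (norm_nonneg _).trans (hD 1)
  have hC0 : 0 ≤ C := (norm_nonneg _).trans (hC 1)
  have hBlip : ∀ y z, ‖B y - B z‖ ≤ D * C * ‖y - z‖ := by
    intro y z
    have e1 : B y - B z = ∫ k : R.K, (f k : ℂ) • Gl.π k.1 (y - z) ∂μ := by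
      rw [hB]
      simp only
      rw [← integral_sub (hint y) (hint z)]
      refine integral_congr_ae (Filter.Eventually.of_forall fun k => ?_)
      simp only [map_sub, smul_sub]
    rw [e1]
    have e2 : ∀ᵐ k ∂μ, ‖(f k : ℂ) • Gl.π k.1 (y - z)‖ ≤ D * C * ‖y - z‖ := by
      refine Filter.Eventually.of_forall fun k => ?_
      rw [norm_smul, mul_assoc]
      have e3 : ‖Gl.π k.1 (y - z)‖ ≤ C * ‖y - z‖ :=
        ((Gl.π k.1).le_opNorm _).trans (mul_le_mul_of_nonneg_right (hC k) (norm_nonneg _))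
      exact mul_le_mul (hD k) e3 (norm_nonneg _) hD0
    have e4 := norm_integral_le_of_norm_le_const e2
    simpa using e4
  have hBc : Continuous B := by
    have : LipschitzWith ⟨D * C, mul_nonneg hD0 hC0⟩ B := by
      refine LipschitzWith.of_dist_le_mul fun y z => ?_
      rw [dist_eq_norm, dist_eq_norm]
      exact hBlip y z
    exact this.continuous
  -- the finite-dimensional image
  haveI := (h3 G R P s V Mo htriv).1 N
  set S : Submodule ℂ E := (s.U Mo N).map Gl.ι with hS
  haveI : FiniteDimensional ℂ S := inferInstance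
  have hSc : IsClosed (S : Set E) := Submodule.closed_of_finiteDimensional S
  have hmaps : ∀ y ∈ Set.range Gl.ι, B y ∈ (S : Set E) := by
    rintro _ ⟨v, rfl⟩
    obtain ⟨hA, hA'⟩ := h2 G R P s μ V Mo
    obtain ⟨t, _, ht⟩ := hA _ hfc v
    have htU : t ∈ s.U Mo N := hA' N _ hf t v ht
    refine ⟨t, htU, ?_⟩
    rw [eq_iff_forall_dual_eq ℂ]
    intro ℓ
    have e1 := ht (ℓ.toLinearMap ∘ₗ Gl.ι)
    simp only [LinearMap.comp_apply, ContinuousLinearMap.coe_coe] at e1
    rw [e1]
    simp only [hB]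
    rw [← ContinuousLinearMap.integral_comp_comm ℓ (hint _)]
    refine integral_congr_ae (Filter.Eventually.of_forall fun k => ?_)
    simp only [map_smul, smul_eq_mul]
    rw [Gl.kcomp k v]
  have hcl : B x ∈ (S : Set E) := by
    have e1 : B x ∈ closure (B '' Set.range Gl.ι) := image_closure_subset_closure_image hBc ⟨x, hx, rfl⟩
    have e2 : closure (B '' Set.range Gl.ι) ⊆ (S : Set E) := by
      refine closure_minimal ?_ hSc
      rintro _ ⟨y, hy, rfl⟩
      exact hmaps y hy
    exact e2 e1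
  obtain ⟨t, ht, he⟩ := hcl
  exact ⟨t, ht, he.symm⟩

end Pool.Agent.H913.SG
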