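import Pool.Agent.H913.SG.Stmts2

open MeasureTheory Matrix NormedSpace
open scoped SchwartzMap ContDiff FourierTransform Matrix

universe u v

namespace Pool.Agent.H913.SG

theorem nAvgV_integrable {K : Type} [TopologicalSpace K] [CompactSpace K] [MeasurableSpace K]
    [BorelSpace K] (μ : Measure K) [IsProbabilityMeasure μ] (f : K → ℂ)
    (hf : Continuous f) : Integrable f μ :=
  hf.integrable_of_hasCompactSupport (HasCompactSupport.of_compactSpace f)

/-- TARGET -/
theorem avgV (h1 : S_W) : S_avgV.{u} := by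
  intro G _ _ _ _ _ R Pk s _ _ μ _ _ V _ _ Mo
  have : CompactSpace R.K := Pk.compactK
  obtain ⟨_, _, hWc, _, hWi, _, _, _, _, hWt⟩ := h1 G R s
  refine ⟨?_, ?_⟩
  · intro f hf y
    set U' := Submodule.span ℂ (Set.range fun k => Mo.kact k y) with hU'
    have : FiniteDimensional ℂ U' := Mo.kfinite y
    let b := Module.finBasis ℂ U'
    have hex : ∀ i, ∃ g : V →ₗ[ℂ] ℂ, g.comp U'.subtype = b.coord i := fun i =>
      LinearMap.exists_extend (b.coord i)
    choose g hg using hex
    have hmem : ∀ k, Mo.kact k y ∈ U' := fun k => Submodule.subset_span ⟨k, rfl⟩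
    have hrep : ∀ k, Mo.kact k y = ∑ i, g i (Mo.kact k y) • (b i : V) := by
      intro k
      have h2 := b.sum_repr ⟨Mo.kact k y, hmem k⟩
      have h3 : ∑ i, (b.repr ⟨Mo.kact k y, hmem k⟩ i) • (b i : V) = Mo.kact k y := by
        have h3' := congrArg U'.subtype h2
        rw [map_sum] at h3'
        simpa using h3'
      have h4 : ∀ i, g i (Mo.kact k y) = b.repr ⟨Mo.kact k y, hmem k⟩ i := by
        intro i
        have h6 := congrArg (fun l => l ⟨Mo.kact k y, hmem k⟩) (hg i)
        simpa using h6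
      calc Mo.kact k y = ∑ i, (b.repr ⟨Mo.kact k y, hmem k⟩ i) • (b i : V) := h3.symm
        _ = _ := Finset.sum_congr rfl fun i _ => by rw [h4 i]
    refine ⟨∑ i, (∫ k, f k * g i (Mo.kact k y) ∂μ) • (b i : V), ?_, ?_⟩
    · exact Submodule.sum_mem _ fun i _ => Submodule.smul_mem _ _ (b i).2
    · intro φ
      rw [map_sum]
      simp only [map_smul, smul_eq_mul]
      have hint : ∀ i, Integrable (fun k => f k * g i (Mo.kact k y) * φ (b i : V)) μ := fun i =>
        nAvgV_integrable μ _ ((hf.mul (Mo.kcont y (g i))).mul continuous_const)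
      calc ∑ i, (∫ k, f k * g i (Mo.kact k y) ∂μ) * φ (b i : V)
          = ∑ i, ∫ k, f k * g i (Mo.kact k y) * φ (b i : V) ∂μ := by
            refine Finset.sum_congr rfl fun i _ => ?_
            rw [integral_mul_const]
        _ = ∫ k, ∑ i, f k * g i (Mo.kact k y) * φ (b i : V) ∂μ := by
            rw [integral_finsetSum _ fun i _ => hint i]
        _ = ∫ k, f k * φ (Mo.kact k y) ∂μ := by
            congr 1
            funext k
            conv_rhs => rw [hrep k, map_sum]
            rw [Finset.mul_sum]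
            refine Finset.sum_congr rfl fun i _ => ?_
            rw [map_smul, smul_eq_mul, mul_assoc]
  · intro N f hf x y hx φ
    obtain ⟨m, F₁, F₂, hF, hfac⟩ := hWt N f hf
    have h7 : (fun k => φ (Mo.kact k x)) = ∑ i, (∫ k, F₂ i k * φ (Mo.kact k y) ∂μ) •
        (fun k => F₁ i k⁻¹) := by
      funext k₀
      have h8 : φ (Mo.kact k₀ x) = ∫ k, f k * φ (Mo.kact (k₀ * k) y) ∂μ := by
        have := hx (φ.comp (Mo.kact k₀))
        simp only [LinearMap.comp_apply] at this
        rw [this]
        congr 1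
        funext k
        rw [map_mul]
        rfl
      have h9 : ∫ k, f k * φ (Mo.kact (k₀ * k) y) ∂μ =
          ∫ k, f (k₀⁻¹ * k) * φ (Mo.kact k y) ∂μ := by
        rw [← integral_mul_left_eq_self (fun k => f (k₀⁻¹ * k) * φ (Mo.kact k y)) k₀]
        congr 1
        funext k
        rw [inv_mul_cancel_left]
      have hint : ∀ i, Integrable (fun k => F₁ i k₀⁻¹ * (F₂ i k * φ (Mo.kact k y))) μ := fun i =>
        nAvgV_integrable μ _ (continuous_const.mul ((hWc N _ (hF i).2).mul (Mo.kcont y φ)))
      rw [h8, h9]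
      calc ∫ k, f (k₀⁻¹ * k) * φ (Mo.kact k y) ∂μ
          = ∫ k, ∑ i, F₁ i k₀⁻¹ * (F₂ i k * φ (Mo.kact k y)) ∂μ := by
            congr 1
            funext k
            rw [hfac, Finset.sum_mul]
            exact Finset.sum_congr rfl fun i _ => by ring
        _ = ∑ i, ∫ k, F₁ i k₀⁻¹ * (F₂ i k * φ (Mo.kact k y)) ∂μ := integral_finsetSum _ fun i _ => hint i
        _ = _ := by
            rw [Finset.sum_apply]
            refine Finset.sum_congr rfl fun i _ => ?_
            rw [integral_const_mul, Pi.smul_apply, smul_eq_mul, mul_comm]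
    show (fun k => φ (Mo.kact k x)) ∈ s.W N
    rw [h7]
    exact Submodule.sum_mem _ fun i _ => Submodule.smul_mem _ _ (hWi N _ (hF i).1)

end Pool.Agent.H913.SG
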