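import Pool.Agent.H913.SG.Stmts2

/-! Lipschitz bound for polynomials on `K`, and recovery of vectors from averages. -/

open MeasureTheory Matrix NormedSpace
open scoped SchwartzMap ContDiff FourierTransform Matrix

universe u v

namespace Pool.Agent.H913.SG

/-- A norm on a submodule has supporting functionals. -/
theorem nRecover_dual {V : Type u} [AddCommGroup V] [Module ℂ V] (U : Submodule ℂ V) (ν : V → ℝ)
    (hadd : ∀ x ∈ U, ∀ y ∈ U, ν (x + y) ≤ ν x + ν y)
    (hsmul : ∀ c : ℂ, ∀ x ∈ U, ν (c • x) = ‖c‖ * ν x) (hpos : ∀ x ∈ U, x ≠ 0 → 0 < ν x)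
    (x : V) (hx : x ∈ U) :
    ∃ φ : V →ₗ[ℂ] ℂ, φ x = (ν x : ℂ) ∧ ∀ y ∈ U, ‖φ y‖ ≤ ν y := by
  have hν0 : ν 0 = 0 := by
    have := hsmul 0 0 U.zero_mem
    simpa using this
  have hnn : ∀ y ∈ U, 0 ≤ ν y := by
    intro y hy
    by_cases h : y = 0
    · rw [h, hν0]
    · exact (hpos y hy h).le
  let _ : Norm U := ⟨fun y => ν y.1⟩
  have core : NormedSpace.Core ℂ U :=
    { norm_nonneg := fun y => hnn y.1 y.2
      norm_smul := fun c y => hsmul c y.1 y.2
      norm_triangle := fun y z => hadd y.1 y.2 z.1 z.2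
      norm_eq_zero_iff := by
        intro y
        constructor
        · intro h
          by_contra hne
          have : 0 < ν y.1 := hpos y.1 y.2 (fun h0 => hne (Subtype.ext h0))
          exact absurd h (ne_of_gt this)
        · intro h
          subst h
          exact hν0 }
  let _ : NormedAddCommGroup U := NormedAddCommGroup.ofCore core
  let _ : NormedSpace ℂ U := NormedSpace.ofCore core
  obtain ⟨g, hg1, hg2⟩ := exists_dual_vector'' ℂ (⟨x, hx⟩ : U)
  obtain ⟨φ, hφ⟩ := LinearMap.exists_extend (p := U) (g : U →ₗ[ℂ] ℂ)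
  have hval : ∀ y : U, φ y.1 = g y := by
    intro y
    have := LinearMap.congr_fun hφ y
    simpa using this
  refine ⟨φ, ?_, ?_⟩
  · rw [hval ⟨x, hx⟩, hg2]
    rfl
  · intro y hy
    rw [hval ⟨y, hy⟩]
    calc ‖g ⟨y, hy⟩‖ ≤ ‖g‖ * ‖(⟨y, hy⟩ : U)‖ := g.le_opNorm _
      _ ≤ 1 * ‖(⟨y, hy⟩ : U)‖ := by
          exact mul_le_mul_of_nonneg_right hg1 (norm_nonneg _)
      _ = ν y := by rw [one_mul]; rfl

theorem lip (h1 : S_near) (h2 : S_bern) (h3 : S_W) : S_lip := by
  intro G _ _ _ _ _ R P s
  obtain ⟨r₀, hr₀, C', hC', hnear⟩ := h1 G R P s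
  obtain ⟨CB, hCB, hbern⟩ := h2 G R P s
  obtain ⟨-, -, -, -, -, -, hWeq, -⟩ := h3 G R s
  refine ⟨2 / r₀ + CB * C', by positivity, ?_⟩
  intro N hN F hF S hS k
  have hS0 : 0 ≤ S := (norm_nonneg _).trans (hS 1)
  have hd0 : 0 ≤ s.dist k := Real.sqrt_nonneg _
  have hN1 : (1 : ℝ) ≤ N := by exact_mod_cast hN
  have hN0 : (0 : ℝ) ≤ N := by linarith
  by_cases hk : s.dist k < r₀
  · obtain ⟨f, hf, X, hX, hkf, hfro⟩ := hnear k hk
    set g : ℝ → R.K := fun t => ⟨P.gam X t, P.gam_mem X hX t⟩ with hg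
    have hadd : ∀ a b, g a * g b = g (a + b) := by
      intro a b
      apply Subtype.ext
      exact ((P.gam_spec X).2.1 a b).symm
    have hg0 : g 0 = 1 := by
      have := hadd 0 0
      rw [add_zero] at this
      exact mul_eq_left.mp this
    have hkk : k = f * g 1 := Subtype.ext hkf
    have hFk : F k = F (g 1) := by
      apply hWeq N F k (g 1) hF
      rw [hkk, map_mul, hf, one_mul]
    have hder : ∀ t₀ : ℝ, ∃ D : ℂ, HasDerivAt (fun t : ℝ => F (g t)) D t₀ ∧
        ‖D‖ ≤ CB * N * fro X.1 * S := by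
      intro t₀
      obtain ⟨D, hD, hD'⟩ := hbern N F hF X hX S hS (g t₀)
      refine ⟨D, ?_, hD'⟩
      have h4 : HasDerivAt (fun t : ℝ => F (g (t₀ + t))) D 0 := by
        have : (fun t : ℝ => F (g t₀ * ⟨P.gam X t, P.gam_mem X hX t⟩)) =
            fun t : ℝ => F (g (t₀ + t)) := by
          funext t
          rw [← hadd t₀ t]
        rw [← this]
        exact hD
      have h5 : HasDerivAt (fun t : ℝ => F (g (t₀ + (t - t₀)))) D t₀ := by
        have h6 : HasDerivAt (fun t : ℝ => F (g (t₀ + t))) D (t₀ - t₀) := by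
          rw [sub_self]; exact h4
        exact HasDerivAt.comp_sub_const t₀ t₀ h6
      have h7 : (fun t : ℝ => F (g (t₀ + (t - t₀)))) = fun t : ℝ => F (g t) := by
        funext t; congr 2; ring
      rw [h7] at h5
      exact h5
    choose D hD hD' using hder
    have hmv : ‖F (g 1) - F (g 0)‖ ≤ CB * N * fro X.1 * S := by
      apply norm_image_sub_le_of_norm_deriv_le_segment_01' (f := fun t => F (g t)) (f' := D)
      · intro x _
        exact (hD x).hasDerivWithinAt
      · intro x _
        exact hD' x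
    rw [hFk, ← hg0]
    calc ‖F (g 1) - F (g 0)‖ ≤ CB * N * fro X.1 * S := hmv
      _ ≤ CB * N * (C' * s.dist k) * S := by
          gcongr
      _ = (0 + CB * C') * N * s.dist k * S := by ring
      _ ≤ (2 / r₀ + CB * C') * N * s.dist k * S := by
          gcongr
          positivity
  · have hk' : r₀ ≤ s.dist k := not_lt.mp hk
    calc ‖F k - F 1‖ ≤ ‖F k‖ + ‖F 1‖ := norm_sub_le _ _
      _ ≤ S + S := add_le_add (hS k) (hS 1)
      _ = 2 / r₀ * 1 * r₀ * S := by field_simp; ring
      _ ≤ (2 / r₀ + CB * C') * N * s.dist k * S := by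
          gcongr
          · have : 0 ≤ CB * C' := by positivity
            linarith

theorem recover (h1 : S_avgV.{u}) (h2 : S_W) : S_recover.{u} := by
  intro G _ _ _ _ _ R P s _ _ μ _ _ V _ _ Mo U hUf hUK ν hadd hsmul hpos e₀ Λ ε hΛ hν N f hfW hf0 hf1
    hfd hlt
  have _ : CompactSpace R.K := P.compactK
  obtain ⟨-, -, hcont, -⟩ := h2 G R s
  have hfC : Continuous (fun k => (f k : ℂ)) := hcont N _ hfW
  have hfR : Continuous f := by
    have := Complex.continuous_re.comp hfC
    simpa [Function.comp_def] using this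
  have hint : ∀ F : R.K → ℂ, Continuous F → Integrable F μ := fun F hF =>
    hF.integrable_of_hasCompactSupport (HasCompactSupport.of_compactSpace F)
  have hintR : ∀ F : R.K → ℝ, Continuous F → Integrable F μ := fun F hF =>
    hF.integrable_of_hasCompactSupport (HasCompactSupport.of_compactSpace F)
  have hdistC : Continuous (fun k => s.dist k) := by
    unfold KRep.dist fro
    have := s.cont
    apply Real.continuous_sqrt.comp
    refine continuous_finsetSum _ fun i _ => continuous_finsetSum _ fun j _ => ?_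
    have h5 : Continuous fun k => s.σ k i j := (continuous_apply j).comp ((continuous_apply i).comp this)
    simp only [Matrix.sub_apply]
    exact (h5.sub continuous_const).pow 2
  obtain ⟨hav, -⟩ := h1 G R P s μ V Mo
  have hT : ∀ y : U, ∃ x : U, ∀ φ : V →ₗ[ℂ] ℂ, φ x.1 = ∫ k, (f k : ℂ) * φ (Mo.kact k y.1) ∂μ := by
    intro y
    obtain ⟨x, hx, hx'⟩ := hav (fun k => (f k : ℂ)) hfC y.1
    refine ⟨⟨x, ?_⟩, hx'⟩
    refine (Submodule.span_le.mpr ?_) hx
    rintro _ ⟨k, rfl⟩
    exact hUK k y.1 y.2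
  choose T hT using hT
  have hsep : ∀ a b : V, (∀ φ : V →ₗ[ℂ] ℂ, φ a = φ b) → a = b := by
    intro a b h
    rw [← sub_eq_zero]
    rw [← Module.forall_dual_apply_eq_zero_iff ℂ]
    intro φ
    rw [map_sub, h φ, sub_self]
  have hci : ∀ (φ : V →ₗ[ℂ] ℂ) (y : V), Continuous fun k => (f k : ℂ) * φ (Mo.kact k y) :=
    fun φ y => hfC.mul (Mo.kcont y φ)
  let TL : U →ₗ[ℂ] U :=
    { toFun := T
      map_add' := by
        intro a b
        apply Subtype.ext
        apply hsep
        intro φ
        have e1 : φ (T a + T b : U).1 = φ (T a).1 + φ (T b).1 := by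
          rw [Submodule.coe_add, map_add]
        rw [e1, hT, hT, hT]
        have e2 : (fun k => (f k : ℂ) * φ (Mo.kact k (a + b : U).1)) =
            fun k => (f k : ℂ) * φ (Mo.kact k a.1) + (f k : ℂ) * φ (Mo.kact k b.1) := by
          funext k
          rw [Submodule.coe_add, map_add, map_add, mul_add]
        rw [e2]
        exact integral_add (hint _ (hci φ _)) (hint _ (hci φ _))
      map_smul' := by
        intro c a
        apply Subtype.ext
        apply hsep
        intro φ
        have e1 : φ (c • T a : U).1 = c * φ (T a).1 := by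
          rw [Submodule.coe_smul, map_smul, smul_eq_mul]
        rw [RingHom.id_apply, e1, hT, hT]
        have e2 : (fun k => (f k : ℂ) * φ (Mo.kact k (c • a : U).1)) =
            fun k => c * ((f k : ℂ) * φ (Mo.kact k a.1)) := by
          funext k
          rw [Submodule.coe_smul, map_smul, map_smul, smul_eq_mul]
          ring
        rw [e2]
        exact integral_const_mul _ _ }
  have hinj : Function.Injective TL := by
    rw [← LinearMap.ker_eq_bot, LinearMap.ker_eq_bot']
    intro y hy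
    by_contra hne
    have hy0 : y.1 ≠ 0 := fun h => hne (Subtype.ext h)
    obtain ⟨φ, hφ1, hφ2⟩ := nRecover_dual U ν hadd hsmul hpos y.1 y.2
    have h5 : (0 : ℂ) = ∫ k, (f k : ℂ) * φ (Mo.kact k y.1) ∂μ := by
      rw [← hT y φ]
      have : T y = 0 := hy
      rw [this]
      simp
    have hneg : ∀ k, ν (Mo.kact k y.1 - y.1) = ν (y.1 - Mo.kact k y.1) := by
      intro k
      have := hsmul (-1) (y.1 - Mo.kact k y.1) (U.sub_mem y.2 (hUK k y.1 y.2))
      rw [norm_neg, norm_one, one_mul] at this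
      rw [← this]
      congr 1
      simp
    have hfc1 : ∫ k, (f k : ℂ) ∂μ = 1 := by
      rw [integral_complex_ofReal, hf1]; simp
    have h6 : (ν y.1 : ℂ) = ∫ k, (f k : ℂ) * φ (y.1 - Mo.kact k y.1) ∂μ := by
      have h7 : (fun k => (f k : ℂ) * φ (y.1 - Mo.kact k y.1)) =
          fun k => (f k : ℂ) * φ y.1 - (f k : ℂ) * φ (Mo.kact k y.1) := by
        funext k
        rw [map_sub, mul_sub]
      have i1 : Integrable (fun k => (f k : ℂ) * φ y.1) μ := hint _ (hfC.mul continuous_const)
      rw [h7, integral_sub i1 (hint _ (hci φ _)), ← h5,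
        integral_mul_const, hfc1, one_mul, sub_zero, hφ1]
    have h8 : ‖(ν y.1 : ℂ)‖ ≤ ∫ k, (f k) * ((e₀ + Λ * s.dist k) * ν y.1) ∂μ := by
      rw [h6]
      refine (norm_integral_le_integral_norm _).trans ?_
      apply integral_mono_ae
      · exact (hint _ (by
          have : (fun k => (f k : ℂ) * φ (y.1 - Mo.kact k y.1)) =
            fun k => (f k : ℂ) * φ y.1 - (f k : ℂ) * φ (Mo.kact k y.1) := by
            funext k
            rw [map_sub, mul_sub]
          rw [this]
          exact (hfC.mul continuous_const).sub (hci φ _))).norm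
      · exact hintR _ (hfR.mul ((continuous_const.add (continuous_const.mul hdistC)).mul
          continuous_const))
      · refine Filter.Eventually.of_forall fun k => ?_
        simp only [norm_mul]
        rw [Complex.norm_real, Real.norm_of_nonneg (hf0 k)]
        apply mul_le_mul_of_nonneg_left _ (hf0 k)
        calc ‖φ (y.1 - Mo.kact k y.1)‖ ≤ ν (y.1 - Mo.kact k y.1) :=
              hφ2 _ (U.sub_mem y.2 (hUK k y.1 y.2))
          _ = ν (Mo.kact k y.1 - y.1) := (hneg k).symm
          _ ≤ (e₀ + Λ * s.dist k) * ν y.1 := hν k y.1 y.2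
    have hνy : 0 < ν y.1 := hpos y.1 y.2 hy0
    have h9 : ∫ k, (f k) * ((e₀ + Λ * s.dist k) * ν y.1) ∂μ =
        (e₀ + Λ * ∫ k, f k * s.dist k ∂μ) * ν y.1 := by
      have h10 : (fun k => (f k) * ((e₀ + Λ * s.dist k) * ν y.1)) =
          fun k => (e₀ * ν y.1) * f k + (Λ * ν y.1) * (f k * s.dist k) := by
        funext k; ring
      have i1 : Integrable (fun k => (e₀ * ν y.1) * f k) μ := (hintR _ hfR).const_mul _
      have i2 : Integrable (fun k => (Λ * ν y.1) * (f k * s.dist k)) μ :=
        (hintR _ (hfR.mul hdistC)).const_mul _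
      rw [h10, integral_add i1 i2, integral_const_mul, integral_const_mul, hf1]
      ring
    rw [h9, Complex.norm_real, Real.norm_of_nonneg hνy.le] at h8
    have h11 : (e₀ + Λ * ∫ k, f k * s.dist k ∂μ) * ν y.1 ≤ (e₀ + Λ * ε) * ν y.1 := by
      apply mul_le_mul_of_nonneg_right _ hνy.le
      have := mul_le_mul_of_nonneg_left hfd hΛ
      linarith
    nlinarith
  have hsurj : Function.Surjective TL := LinearMap.surjective_of_injective hinj
  intro x hx
  obtain ⟨y, hy⟩ := hsurj ⟨x, hx⟩
  refine ⟨y.1, y.2, ?_⟩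
  intro φ
  rw [← hT y φ]
  have : T y = ⟨x, hx⟩ := hy
  rw [this]

end Pool.Agent.H913.SG
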