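import Pool.Agent.H913.SG.Stmts2

open MeasureTheory Matrix NormedSpace
open scoped SchwartzMap ContDiff FourierTransform Matrix

universe u v

namespace Pool.Agent.H913.SG

section nUfinaux

variable {G : Type} [Group G] [TopologicalSpace G] {R : RealReductive G}
  {V : Type u} [AddCommGroup V] [Module ℂ V]

theorem nUfin_dist_cont (s : KRep R) : Continuous s.dist := by
  unfold KRep.dist fro
  refine Real.continuous_sqrt.comp ?_
  refine continuous_finset_sum _ fun i _ => continuous_finset_sum _ fun j _ => ?_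
  refine Continuous.pow ?_ 2
  simp only [Matrix.sub_apply]
  exact (s.cont.matrix_elem i j).sub continuous_const

theorem nUfin_dist_nonneg (s : KRep R) (k : R.K) : 0 ≤ s.dist k := Real.sqrt_nonneg _

theorem nUfin_dist_zero (s : KRep R) {k : R.K} (h : s.dist k = 0) : s.σ k = 1 := by
  unfold KRep.dist fro at h
  have h1 : ∑ i, ∑ j, ((s.σ k - 1) i j) ^ 2 = 0 :=
    (Real.sqrt_eq_zero (Finset.sum_nonneg fun i _ => Finset.sum_nonneg fun j _ => sq_nonneg _)).1 h
  have h2 := (Finset.sum_eq_zero_iff_of_nonneg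
    (fun i _ => Finset.sum_nonneg fun j _ => sq_nonneg _)).1 h1
  rw [← sub_eq_zero]
  ext i j
  have h3 := (Finset.sum_eq_zero_iff_of_nonneg (fun j _ => sq_nonneg _)).1
    (h2 i (Finset.mem_univ i)) j (Finset.mem_univ j)
  exact pow_eq_zero_iff (two_ne_zero) |>.1 h3

theorem nUfin_ext {x y : V} (h : ∀ φ : V →ₗ[ℂ] ℂ, φ x = φ y) : x = y := by
  have h1 : ∀ φ : Module.Dual ℂ V, φ (x - y) = 0 := fun φ => by rw [map_sub, h φ, sub_self]
  exact sub_eq_zero.1 ((Module.forall_dual_apply_eq_zero_iff ℂ _).1 h1)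

/-- the invariant seminorm attached to finitely many functionals -/
noncomputable def nUfin_nu (Mo : HCModule R V) {m : ℕ} (Φ : V →ₗ[ℂ] (Fin m → ℂ)) (x : V) : ℝ :=
  ⨆ k : R.K, ‖Φ (Mo.kact k x)‖

section nu
variable [CompactSpace R.K] (Mo : HCModule R V) {m : ℕ} (Φ : V →ₗ[ℂ] (Fin m → ℂ))

theorem nUfin_bdd (x : V) : BddAbove (Set.range fun k : R.K => ‖Φ (Mo.kact k x)‖) := by
  have h : Continuous fun k : R.K => Φ (Mo.kact k x) :=
    continuous_pi fun i => Mo.kcont x (LinearMap.proj i ∘ₗ Φ)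
  exact (isCompact_range h.norm).bddAbove

theorem nUfin_le (k : R.K) (x : V) : ‖Φ (Mo.kact k x)‖ ≤ nUfin_nu Mo Φ x :=
  le_ciSup (nUfin_bdd Mo Φ x) k

theorem nUfin_le_one (x : V) : ‖Φ x‖ ≤ nUfin_nu Mo Φ x := by
  have := nUfin_le Mo Φ 1 x
  rwa [map_one, Module.End.one_apply] at this

theorem nUfin_nonneg (x : V) : 0 ≤ nUfin_nu Mo Φ x := (norm_nonneg _).trans (nUfin_le_one Mo Φ x)

theorem nUfin_add (x y : V) : nUfin_nu Mo Φ (x + y) ≤ nUfin_nu Mo Φ x + nUfin_nu Mo Φ y := by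
  refine ciSup_le fun k => ?_
  rw [map_add, map_add]
  exact (norm_add_le _ _).trans (add_le_add (nUfin_le Mo Φ k x) (nUfin_le Mo Φ k y))

theorem nUfin_smul (c : ℂ) (x : V) : nUfin_nu Mo Φ (c • x) = ‖c‖ * nUfin_nu Mo Φ x := by
  unfold nUfin_nu
  rw [Real.mul_iSup_of_nonneg (norm_nonneg c)]
  congr 1
  ext k
  rw [map_smul, map_smul, norm_smul]

theorem nUfin_inv (k : R.K) (x : V) : nUfin_nu Mo Φ (Mo.kact k x) = nUfin_nu Mo Φ x := by
  refine le_antisymm (ciSup_le fun k' => ?_) (ciSup_le fun k' => ?_)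
  · have := nUfin_le Mo Φ (k' * k) x
    rwa [map_mul, Module.End.mul_apply] at this
  · have := nUfin_le Mo Φ (k' * k⁻¹) (Mo.kact k x)
    rwa [← Module.End.mul_apply, ← map_mul, inv_mul_cancel_right] at this

theorem nUfin_sub_le (k : R.K) (x : V) :
    nUfin_nu Mo Φ (Mo.kact k x - x) ≤ 2 * nUfin_nu Mo Φ x := by
  have h1 : Mo.kact k x - x = Mo.kact k x + (-1 : ℂ) • x := by
    rw [neg_smul, one_smul, sub_eq_add_neg]
  rw [h1]
  refine (nUfin_add Mo Φ _ _).trans ?_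
  rw [nUfin_inv, nUfin_smul, norm_neg, norm_one, one_mul, two_mul]

theorem nUfin_sum {ι : Type} (t : Finset ι) (x : ι → V) :
    nUfin_nu Mo Φ (∑ i ∈ t, x i) ≤ ∑ i ∈ t, nUfin_nu Mo Φ (x i) := by
  classical
  induction t using Finset.induction_on with
  | empty =>
    rw [Finset.sum_empty, Finset.sum_empty]
    have := nUfin_smul Mo Φ 0 0
    rw [smul_zero, norm_zero, zero_mul] at this
    exact this.le
  | insert a t ha ih =>
    rw [Finset.sum_insert ha, Finset.sum_insert ha]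
    exact (nUfin_add Mo Φ _ _).trans (by linarith)

theorem nUfin_lip (s : KRep R) {C : ℝ} {N : ℕ}
    (hC : ∀ (F : R.K → ℂ), F ∈ s.W N → ∀ S : ℝ, (∀ k, ‖F k‖ ≤ S) →
      ∀ k, ‖F k - F 1‖ ≤ C * N * s.dist k * S) (hC0 : 0 ≤ C) {y : V} (hy : y ∈ s.U Mo N) (k : R.K) :
    nUfin_nu Mo Φ (Mo.kact k y - y) ≤ (C * N * s.dist k) * nUfin_nu Mo Φ y := by
  have h0 : 0 ≤ (C * N * s.dist k) * nUfin_nu Mo Φ y :=
    mul_nonneg (mul_nonneg (mul_nonneg hC0 (Nat.cast_nonneg N)) (nUfin_dist_nonneg s k))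
      (nUfin_nonneg Mo Φ y)
  refine ciSup_le fun k' => ?_
  rw [pi_norm_le_iff_of_nonneg h0]
  intro i
  have h1 := hC _ (hy (LinearMap.proj i ∘ₗ Φ ∘ₗ Mo.kact k')) (nUfin_nu Mo Φ y) (fun k'' => by
    have h2 : (LinearMap.proj i ∘ₗ Φ ∘ₗ Mo.kact k') (Mo.kact k'' y) =
        Φ (Mo.kact (k' * k'') y) i := by
      rw [map_mul]; rfl
    rw [h2]
    exact (norm_le_pi_norm _ i).trans (nUfin_le Mo Φ _ y)) k
  have h3 : Φ (Mo.kact k' (Mo.kact k y - y)) i =
      (LinearMap.proj i ∘ₗ Φ ∘ₗ Mo.kact k') (Mo.kact k y) -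
        (LinearMap.proj i ∘ₗ Φ ∘ₗ Mo.kact k') (Mo.kact 1 y) := by
    rw [map_one, Module.End.one_apply, ← map_sub]; rfl
  rw [h3]
  exact h1

end nu

/-- coordinates on a finite-dimensional subspace -/
theorem nUfin_coord (U : Submodule ℂ V) [FiniteDimensional ℂ U] :
    ∃ (m : ℕ) (Φ : V →ₗ[ℂ] (Fin m → ℂ)) (b : Fin m → V), (∀ i, b i ∈ U) ∧
      ∀ x ∈ U, x = ∑ i, Φ x i • b i := by
  obtain ⟨g, hg⟩ := U.subtype.exists_leftInverse_of_injective U.ker_subtype
  let B := Module.finBasis ℂ U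
  refine ⟨_, B.equivFun.toLinearMap ∘ₗ g, fun i => (B i : V), fun i => (B i).2, fun x hx => ?_⟩
  have h1 : g x = ⟨x, hx⟩ := by
    have := LinearMap.congr_fun hg ⟨x, hx⟩
    simpa using this
  have h2 := B.sum_equivFun (g x)
  have h3 := congrArg (fun z : U => (z : V)) h2
  simp only [Submodule.coe_sum, Submodule.coe_smul] at h3
  have h4 : ((g x : U) : V) = x := by rw [h1]
  rw [h4] at h3
  exact h3.symm

theorem nUfin_pos [CompactSpace R.K] (Mo : HCModule R V) {m : ℕ} (Φ : V →ₗ[ℂ] (Fin m → ℂ))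
    (b : Fin m → V) {x : V} (hx : x = ∑ i, Φ x i • b i) (h0 : x ≠ 0) : 0 < nUfin_nu Mo Φ x := by
  refine lt_of_lt_of_le ?_ (nUfin_le_one Mo Φ x)
  rw [norm_pos_iff]
  intro h
  apply h0
  rw [hx, h]
  simp

/-- the small-displacement function -/
noncomputable def nUfin_g (Mo : HCModule R V) {m : ℕ} (Φ : V →ₗ[ℂ] (Fin m → ℂ))
    (b : Fin m → V) (k : R.K) : ℝ :=
  ∑ j, ∑ i, ‖Φ (Mo.kact k (b j) - b j) i‖ * nUfin_nu Mo Φ (b i)

theorem nUfin_g_cont (Mo : HCModule R V) {m : ℕ} (Φ : V →ₗ[ℂ] (Fin m → ℂ))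
    (b : Fin m → V) : Continuous (nUfin_g Mo Φ b) := by
  unfold nUfin_g
  refine continuous_finset_sum _ fun j _ => continuous_finset_sum _ fun i _ => ?_
  refine Continuous.mul ?_ continuous_const
  refine Continuous.norm ?_
  have h : (fun k : R.K => Φ (Mo.kact k (b j) - b j) i) =
      fun k : R.K => (LinearMap.proj i ∘ₗ Φ) (Mo.kact k (b j)) - Φ (b j) i := by
    ext k
    rw [map_sub]; rfl
  rw [h]
  exact (Mo.kcont (b j) (LinearMap.proj i ∘ₗ Φ)).sub continuous_const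

theorem nUfin_g_le [CompactSpace R.K] (Mo : HCModule R V) {m : ℕ} (Φ : V →ₗ[ℂ] (Fin m → ℂ))
    (b : Fin m → V) (U : Submodule ℂ V) (hU : ∀ k, ∀ v ∈ U, Mo.kact k v ∈ U)
    (hbU : ∀ i, b i ∈ U) (hb : ∀ x ∈ U, x = ∑ i, Φ x i • b i) (k : R.K) {x : V} (hx : x ∈ U) :
    nUfin_nu Mo Φ (Mo.kact k x - x) ≤ nUfin_g Mo Φ b k * nUfin_nu Mo Φ x := by
  have h1 : Mo.kact k x - x = ∑ j, Φ x j • (Mo.kact k (b j) - b j) := by
    conv_lhs => rw [hb x hx]
    rw [map_sum, ← Finset.sum_sub_distrib]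
    refine Finset.sum_congr rfl fun j _ => ?_
    rw [map_smul, smul_sub]
  rw [h1]
  refine (nUfin_sum Mo Φ _ _).trans ?_
  unfold nUfin_g
  rw [Finset.sum_mul]
  refine Finset.sum_le_sum fun j _ => ?_
  rw [nUfin_smul, mul_comm]
  have h2 : ‖Φ x j‖ ≤ nUfin_nu Mo Φ x := (norm_le_pi_norm _ j).trans (nUfin_le_one Mo Φ x)
  refine mul_le_mul ?_ h2 (norm_nonneg _) (Finset.sum_nonneg fun i _ =>
    mul_nonneg (norm_nonneg _) (nUfin_nonneg Mo Φ _))
  have h3 : Mo.kact k (b j) - b j ∈ U := U.sub_mem (hU k _ (hbU j)) (hbU j)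
  conv_lhs => rw [hb _ h3]
  refine (nUfin_sum Mo Φ _ _).trans ?_
  refine Finset.sum_le_sum fun i _ => ?_
  rw [nUfin_smul]

/-- the span of an orbit -/
theorem nUfin_orbit (Mo : HCModule R V) (v : V) (k : R.K) :
    ∀ x ∈ Submodule.span ℂ (Set.range fun k => Mo.kact k v),
      Mo.kact k x ∈ Submodule.span ℂ (Set.range fun k => Mo.kact k v) := by
  intro x hx
  have h : Submodule.span ℂ (Set.range fun k => Mo.kact k v) ≤
      (Submodule.span ℂ (Set.range fun k => Mo.kact k v)).comap (Mo.kact k) := by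
    rw [Submodule.span_le]
    rintro _ ⟨k', rfl⟩
    refine Submodule.subset_span ⟨k * k', ?_⟩
    change Mo.kact (k * k') v = Mo.kact k (Mo.kact k' v)
    rw [map_mul]; rfl
  exact h hx

theorem nUfin_mem_orbit (Mo : HCModule R V) (v : V) :
    v ∈ Submodule.span ℂ (Set.range fun k => Mo.kact k v) := by
  refine Submodule.subset_span ⟨1, ?_⟩
  change Mo.kact 1 v = v
  rw [map_one]; rfl

/-- the linear map `F ↦ ∫ F(k) kact k y` -/
theorem nUfin_avg [CompactSpace R.K] [MeasurableSpace R.K] [BorelSpace R.K]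
    (μ : Measure R.K) [IsProbabilityMeasure μ] (Mo : HCModule R V)
    (W : Submodule ℂ (R.K → ℂ)) (hc : ∀ F ∈ W, Continuous F)
    (hav : ∀ f : R.K → ℂ, Continuous f → ∀ y : V, ∃ x : V,
      ∀ φ : V →ₗ[ℂ] ℂ, φ x = ∫ k, f k * φ (Mo.kact k y) ∂μ) (y : V) :
    ∃ T : W →ₗ[ℂ] V, ∀ F : W, ∀ φ : V →ₗ[ℂ] ℂ, φ (T F) = ∫ k, F.1 k * φ (Mo.kact k y) ∂μ := by
  choose T hT using fun F : W => hav F.1 (hc _ F.2) y
  have hint : ∀ (F : W) (φ : V →ₗ[ℂ] ℂ), Integrable (fun k => F.1 k * φ (Mo.kact k y)) μ := by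
    intro F φ
    exact ((hc _ F.2).mul (Mo.kcont y φ)).integrable_of_hasCompactSupport
      (HasCompactSupport.of_compactSpace _)
  refine ⟨{ toFun := T, map_add' := ?_, map_smul' := ?_ }, hT⟩
  · intro F H
    refine nUfin_ext fun φ => ?_
    rw [map_add, hT, hT, hT, ← integral_add (hint F φ) (hint H φ)]
    refine integral_congr_ae (Filter.Eventually.of_forall fun k => ?_)
    change (F.1 k + H.1 k) * _ = _
    ring
  · intro c F
    refine nUfin_ext fun φ => ?_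
    rw [RingHom.id_apply, map_smul, hT, hT, smul_eq_mul, ← integral_const_mul]
    refine integral_congr_ae (Filter.Eventually.of_forall fun k => ?_)
    change (c * F.1 k) * _ = _
    ring

end nUfinaux

/-- TARGET 1 -/
theorem Ufd (h1 : S_lip) (h2 : S_kernel) (h3 : S_recover.{u}) (h4 : S_avgV.{u}) (h5 : S_W) (h6 : S_homfin.{u}) (h7 : S_U.{u}) :
    S_Ufd.{u} := by
  intro G _ _ _ _ _ R P s V _ _ Mo htriv
  have hcK : CompactSpace R.K := P.compactK
  obtain ⟨hUmono, hUk, -, -⟩ := h7 G R P s V Mo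
  suffices key : ∀ N, 1 ≤ N → FiniteDimensional ℂ (s.U Mo N) by
    intro N
    rcases Nat.eq_zero_or_pos N with rfl | hN
    · have := key 1 le_rfl
      exact Submodule.finiteDimensional_of_le (hUmono 0 1 zero_le_one)
    · exact key N hN
  intro N hN
  letI : MeasurableSpace R.K := borel R.K
  haveI : BorelSpace R.K := ⟨rfl⟩
  let μ : Measure R.K := Measure.haarMeasure ⊤
  haveI : IsProbabilityMeasure μ := ⟨by
    have := Measure.haarMeasure_self (G := R.K) (K₀ := ⊤)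
    simpa using this⟩
  obtain ⟨C, hC0, hC⟩ := h1 G R P s
  obtain ⟨C₂, C₃, hC2, hC3, hker⟩ := h2 G R P s μ
  obtain ⟨-, -, hWc, -, -, hWt, -, hWfd, -, hWsplit⟩ := h5 G R s
  -- the kernel
  obtain ⟨N', hN'⟩ := exists_nat_gt (C * N * C₃)
  have hN'1 : 1 ≤ N' := by
    have : (0 : ℝ) < N' := lt_of_le_of_lt (by positivity) hN'
    exact_mod_cast this
  obtain ⟨f, hfW, hf0, hf1, hfd⟩ := hker N' hN'1
  have hN'pos : (0 : ℝ) < N' := by exact_mod_cast hN'1
  have hlt : 0 + (C * N) * (C₃ / N') < 1 := by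
    rw [zero_add, ← mul_div_assoc, div_lt_one hN'pos]
    exact hN'
  set W' := s.W (C₂ * N') with hW'
  haveI : FiniteDimensional ℂ W' := hWfd _
  -- the left translation
  let Lt : R.K →* Module.End ℂ W' :=
    { toFun := fun k₀ =>
        { toFun := fun F => ⟨fun k => F.1 (k₀⁻¹ * k), (hWt _ _ k₀⁻¹ F.2).1⟩
          map_add' := fun F H => rfl
          map_smul' := fun c F => rfl }
      map_one' := by
        refine LinearMap.ext fun F => Subtype.ext (funext fun k => ?_)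
        change F.1 (1⁻¹ * k) = F.1 k
        rw [inv_one, one_mul]
      map_mul' := by
        intro a b
        refine LinearMap.ext fun F => Subtype.ext (funext fun k => ?_)
        change F.1 ((a * b)⁻¹ * k) = F.1 (b⁻¹ * (a⁻¹ * k))
        rw [_root_.mul_inv_rev, mul_assoc] }
  have hLt : ∀ (k₀ : R.K) (F : W') (k : R.K), (Lt k₀ F).1 k = F.1 (k₀⁻¹ * k) := fun _ _ _ => rfl
  have hLc : ∀ (F : W') (ℓ : W' →ₗ[ℂ] ℂ), Continuous fun k => ℓ (Lt k F) := by
    intro F ℓ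
    obtain ⟨m, F₁, F₂, hF, hsum⟩ := hWsplit _ F.1 F.2
    have h8 : (fun k => ℓ (Lt k F)) = fun k => ∑ i, F₁ i k⁻¹ * ℓ ⟨F₂ i, (hF i).2⟩ := by
      funext k
      have h9 : Lt k F = ∑ i, F₁ i k⁻¹ • (⟨F₂ i, (hF i).2⟩ : W') := by
        refine Subtype.ext (funext fun k' => ?_)
        rw [hLt, hsum, Submodule.coe_sum, Finset.sum_apply]
        rfl
      rw [h9, map_sum]
      refine Finset.sum_congr rfl fun i _ => ?_
      rw [map_smul, smul_eq_mul]
    rw [h8]
    refine continuous_finset_sum _ fun i _ => ?_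
    exact ((hWc _ _ (hF i).1).comp continuous_inv).mul continuous_const
  let B := Module.finBasis ℂ W'
  let e : W' ≃ₗ[ℂ] (Fin (Module.finrank ℂ W') → ℂ) := B.equivFun
  let τ : R.K →* Module.End ℂ (Fin (Module.finrank ℂ W') → ℂ) :=
    { toFun := fun k => e.toLinearMap ∘ₗ Lt k ∘ₗ e.symm.toLinearMap
      map_one' := by
        refine LinearMap.ext fun x => ?_
        change e (Lt 1 (e.symm x)) = x
        rw [map_one]
        exact e.apply_symm_apply x
      map_mul' := by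
        intro a b
        refine LinearMap.ext fun x => ?_
        change e (Lt (a * b) (e.symm x)) = e (Lt a (e.symm (e (Lt b (e.symm x)))))
        rw [map_mul, e.symm_apply_apply]
        rfl }
  have hτ : ∀ k x, τ k x = e (Lt k (e.symm x)) := fun _ _ => rfl
  have hfin : FiniteDimensional ℂ (homK R Mo.kact τ) :=
    h6 G R V Mo _ τ fun v ℓ => hLc (e.symm v) (ℓ ∘ₗ e.toLinearMap)
  let f' : W' := ⟨fun k => (f k : ℂ), hfW⟩
  let ev : homK R Mo.kact τ →ₗ[ℂ] V :=
    { toFun := fun T => T.1 (e f')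
      map_add' := fun S T => rfl
      map_smul' := fun c T => rfl }
  have hev : FiniteDimensional ℂ (LinearMap.range ev) := inferInstance
  have hle : s.U Mo N ≤ LinearMap.range ev := by
    intro x hx
    set U' := Submodule.span ℂ (Set.range fun k => Mo.kact k x) with hU'
    haveI : FiniteDimensional ℂ U' := Mo.kfinite x
    have hUle : U' ≤ s.U Mo N := by
      rw [hU', Submodule.span_le]
      rintro _ ⟨k, rfl⟩
      exact hUk N k x hx
    obtain ⟨m, Φ, b, hbU, hb⟩ := nUfin_coord U'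
    obtain ⟨y, hy, hxy⟩ := h3 G R P s μ V Mo U' inferInstance (nUfin_orbit Mo x · ) (nUfin_nu Mo Φ)
      (fun x _ y _ => nUfin_add Mo Φ x y) (fun c x _ => nUfin_smul Mo Φ c x)
      (fun x hx h0 => nUfin_pos Mo Φ b (hb x hx) h0) 0 (C * N) (C₃ / N') (by positivity)
      (fun k y hy => by
        have := nUfin_lip Mo Φ s (hC N hN) hC0 (hUle hy) k
        rwa [zero_add]) (C₂ * N') f hfW hf0 hf1 hfd hlt x (nUfin_mem_orbit Mo x)
    obtain ⟨T, hT⟩ := nUfin_avg μ Mo W' (hWc _) (fun f hf y => by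
      obtain ⟨x, -, hx⟩ := (h4 G R P s μ V Mo).1 f hf y
      exact ⟨x, hx⟩) y
    have hTk : T ∘ₗ e.symm.toLinearMap ∈ homK R Mo.kact τ := by
      intro k₀
      refine LinearMap.ext fun z => ?_
      change T (e.symm (e (Lt k₀ (e.symm z)))) = Mo.kact k₀ (T (e.symm z))
      rw [e.symm_apply_apply]
      refine nUfin_ext fun φ => ?_
      rw [hT]
      have h10 : φ (Mo.kact k₀ (T (e.symm z))) = (φ ∘ₗ Mo.kact k₀) (T (e.symm z)) := rfl
      rw [h10, hT, ← integral_mul_left_eq_self _ k₀]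
      refine integral_congr_ae (Filter.Eventually.of_forall fun k => ?_)
      change (Lt k₀ (e.symm z)).1 (k₀ * k) * φ (Mo.kact (k₀ * k) y) =
        (e.symm z).1 k * φ (Mo.kact k₀ (Mo.kact k y))
      rw [hLt, inv_mul_cancel_left, map_mul]
      rfl
    refine ⟨⟨T ∘ₗ e.symm.toLinearMap, hTk⟩, ?_⟩
    change T (e.symm (e f')) = x
    rw [e.symm_apply_apply]
    refine nUfin_ext fun φ => ?_
    rw [hT, hxy φ]
  exact Submodule.finiteDimensional_of_le hle

/-- TARGET 2 -/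
theorem Uexh (h1 : S_kernel) (h2 : S_recover.{u}) (h3 : S_avgV.{u}) (h4 : S_W) : S_Uexh.{u} := by
  intro G _ _ _ _ _ R P s V _ _ Mo htriv v
  have hcK : CompactSpace R.K := P.compactK
  letI : MeasurableSpace R.K := borel R.K
  haveI : BorelSpace R.K := ⟨rfl⟩
  let μ : Measure R.K := Measure.haarMeasure ⊤
  haveI : IsProbabilityMeasure μ := ⟨by
    have := Measure.haarMeasure_self (G := R.K) (K₀ := ⊤)
    simpa using this⟩
  obtain ⟨C₂, C₃, hC2, hC3, hker⟩ := h1 G R P s μ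
  set U' := Submodule.span ℂ (Set.range fun k => Mo.kact k v) with hU'
  haveI : FiniteDimensional ℂ U' := Mo.kfinite v
  obtain ⟨m, Φ, b, hbU, hb⟩ := nUfin_coord U'
  have hgc := nUfin_g_cont Mo Φ b
  have hdc := nUfin_dist_cont s
  -- the radius
  obtain ⟨r, hr, hr'⟩ : ∃ r : ℝ, 0 < r ∧ ∀ k, s.dist k < r → nUfin_g Mo Φ b k ≤ 1 / 2 := by
    have hcl : IsCompact {k : R.K | 1 / 2 ≤ nUfin_g Mo Φ b k} :=
      (isClosed_le continuous_const hgc).isCompact
    rcases Set.eq_empty_or_nonempty {k : R.K | 1 / 2 ≤ nUfin_g Mo Φ b k} with he | hne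
    · refine ⟨1, one_pos, fun k _ => ?_⟩
      by_contra hk
      have : k ∈ {k : R.K | 1 / 2 ≤ nUfin_g Mo Φ b k} := (not_le.1 hk).le
      rw [he] at this
      exact this
    · obtain ⟨k₀, hk₀, hmin⟩ := hcl.exists_isMinOn hne hdc.continuousOn
      refine ⟨s.dist k₀, ?_, fun k hk => ?_⟩
      · rcases (nUfin_dist_nonneg s k₀).eq_or_lt with h0 | h0
        · exfalso
          have h5 := htriv k₀ (nUfin_dist_zero s h0.symm)
          have h6 : nUfin_g Mo Φ b k₀ = 0 := by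
            unfold nUfin_g
            rw [h5]
            refine Finset.sum_eq_zero fun j _ => Finset.sum_eq_zero fun i _ => ?_
            rw [Module.End.one_apply, sub_self, map_zero, Pi.zero_apply, norm_zero, zero_mul]
          have h7 : (1 : ℝ) / 2 ≤ nUfin_g Mo Φ b k₀ := hk₀
          rw [h6] at h7
          norm_num at h7
        · exact h0
      · by_contra hk'
        have h5 : s.dist k₀ ≤ s.dist k := hmin (not_le.1 hk').le
        exact absurd hk (not_lt.2 h5)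
  -- the kernel
  obtain ⟨N', hN'⟩ := exists_nat_gt (2 * ((2 / r) * C₃))
  have hN'1 : 1 ≤ N' := by
    have : (0 : ℝ) < N' := lt_of_le_of_lt (by positivity) hN'
    exact_mod_cast this
  obtain ⟨f, hfW, hf0, hf1, hfd⟩ := hker N' hN'1
  have hN'pos : (0 : ℝ) < N' := by exact_mod_cast hN'1
  have hlt : 1 / 2 + (2 / r) * (C₃ / N') < 1 := by
    have h5 : (2 / r) * (C₃ / N') < 1 / 2 := by
      rw [← mul_div_assoc, div_lt_iff₀ hN'pos]
      linarith
    linarith
  obtain ⟨y, hy, hxy⟩ := h2 G R P s μ V Mo U' inferInstance (nUfin_orbit Mo v · ) (nUfin_nu Mo Φ)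
    (fun x _ y _ => nUfin_add Mo Φ x y) (fun c x _ => nUfin_smul Mo Φ c x)
    (fun x hx h0 => nUfin_pos Mo Φ b (hb x hx) h0) (1 / 2) (2 / r) (C₃ / N') (by positivity)
    (fun k y hy => by
      rcases lt_or_ge (s.dist k) r with hk | hk
      · refine (nUfin_g_le Mo Φ b U' (nUfin_orbit Mo v · ) hbU hb k hy).trans ?_
        refine mul_le_mul_of_nonneg_right ?_ (nUfin_nonneg Mo Φ y)
        have h5 : 0 ≤ 2 / r * s.dist k := mul_nonneg (by positivity) (nUfin_dist_nonneg s k)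
        linarith [hr' k hk]
      · refine (nUfin_sub_le Mo Φ k y).trans ?_
        refine mul_le_mul_of_nonneg_right ?_ (nUfin_nonneg Mo Φ y)
        have h5 : 2 ≤ 2 / r * s.dist k := by
          rw [div_mul_eq_mul_div, le_div_iff₀ hr]
          linarith
        linarith) (C₂ * N') f hfW hf0 hf1 hfd hlt v (nUfin_mem_orbit Mo v)
  exact ⟨C₂ * N', (h3 G R P s μ V Mo).2 _ _ hfW v y hxy⟩

end Pool.Agent.H913.SG
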