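import Pool.Agent.H913.SG.Stmts2

open MeasureTheory Matrix NormedSpace
open scoped SchwartzMap ContDiff FourierTransform Matrix

universe u v

namespace Pool.Agent.H913.SG

section nW

variable {G : Type} [Group G] [TopologicalSpace G] {R : RealReductive G} (s : KRep R)

/-- the entries of `σ k` as complex numbers -/
noncomputable def nW_x (k : R.K) : Fin s.n' × Fin s.n' → ℂ := fun ij => ((s.σ k ij.1 ij.2 : ℝ) : ℂ)

theorem nW_mem {N : ℕ} {F : R.K → ℂ} (p : MvPolynomial (Fin s.n' × Fin s.n') ℂ)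
    (hp : p.totalDegree ≤ N) (h : ∀ k, F k = MvPolynomial.eval (nW_x s k) p) : F ∈ s.W N :=
  ⟨p, hp, h⟩

theorem nW_elim {N : ℕ} {F : R.K → ℂ} (h : F ∈ s.W N) :
    ∃ p : MvPolynomial (Fin s.n' × Fin s.n') ℂ, p.totalDegree ≤ N ∧
      ∀ k, F k = MvPolynomial.eval (nW_x s k) p := h

theorem nW_mono {N M : ℕ} (h : N ≤ M) : s.W N ≤ s.W M := by
  intro F hF
  obtain ⟨p, hp, hp'⟩ := nW_elim s hF
  exact nW_mem s p (hp.trans h) hp'

theorem nW_mul {N M : ℕ} {F H : R.K → ℂ} (hF : F ∈ s.W N) (hH : H ∈ s.W M) :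
    (fun k => F k * H k) ∈ s.W (N + M) := by
  obtain ⟨p, hp, hp'⟩ := nW_elim s hF
  obtain ⟨q, hq, hq'⟩ := nW_elim s hH
  refine nW_mem s (p * q) ((MvPolynomial.totalDegree_mul p q).trans (add_le_add hp hq)) fun k => ?_
  rw [hp', hq', map_mul]

theorem nW_continuous_x : Continuous (nW_x s) := by
  refine continuous_pi fun ij => ?_
  exact Complex.continuous_ofReal.comp (s.cont.matrix_elem ij.1 ij.2)

theorem nW_continuous {N : ℕ} {F : R.K → ℂ} (hF : F ∈ s.W N) : Continuous F := by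
  obtain ⟨p, _, hp'⟩ := nW_elim s hF
  have h : F = fun k => MvPolynomial.eval (nW_x s k) p := funext hp'
  rw [h]
  exact (MvPolynomial.continuous_eval p).comp (nW_continuous_x s)

theorem nW_conj {N : ℕ} {F : R.K → ℂ} (hF : F ∈ s.W N) :
    (fun k => (starRingEnd ℂ) (F k)) ∈ s.W N := by
  obtain ⟨p, hp, hp'⟩ := nW_elim s hF
  refine nW_mem s (MvPolynomial.map (starRingEnd ℂ) p)
    ((MvPolynomial.totalDegree_le_of_support_subset
      (MvPolynomial.support_map_subset _ p)).trans hp) fun k => ?_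
  rw [hp', MvPolynomial.eval_map]
  have h := MvPolynomial.eval₂_comp_left (starRingEnd ℂ) (RingHom.id ℂ) (nW_x s k) p
  rw [MvPolynomial.eval₂_id] at h
  rw [h]
  congr 1
  funext ij
  simp [nW_x]

theorem nW_inv_entry (k : R.K) (a b : Fin s.n') : s.σ k⁻¹ a b = s.σ k b a := by
  have h1 : s.σ k⁻¹ * s.σ k = 1 := by rw [← map_mul, inv_mul_cancel, map_one]
  have h2 : s.σ k * (s.σ k)ᵀ = 1 := _root_.mul_eq_one_comm.1 (s.orth k)
  have h3 : s.σ k⁻¹ = (s.σ k)ᵀ := by
    calc s.σ k⁻¹ = s.σ k⁻¹ * (s.σ k * (s.σ k)ᵀ) := by rw [h2, Matrix.mul_one]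
      _ = (s.σ k⁻¹ * s.σ k) * (s.σ k)ᵀ := by rw [Matrix.mul_assoc]
      _ = (s.σ k)ᵀ := by rw [h1, Matrix.one_mul]
  rw [h3, Matrix.transpose_apply]

theorem nW_inv {N : ℕ} {F : R.K → ℂ} (hF : F ∈ s.W N) : (fun k => F k⁻¹) ∈ s.W N := by
  obtain ⟨p, hp, hp'⟩ := nW_elim s hF
  refine nW_mem s (MvPolynomial.rename Prod.swap p)
    ((MvPolynomial.totalDegree_rename_le _ p).trans hp) fun k => ?_
  rw [hp', MvPolynomial.eval_rename]
  congr 1
  congr 1
  funext ij
  simp [nW_x, nW_inv_entry]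

theorem nW_const {N : ℕ} (c : ℂ) : (fun _ : R.K => c) ∈ s.W N :=
  nW_mem s (MvPolynomial.C c) (by rw [MvPolynomial.totalDegree_C]; exact Nat.zero_le _)
    fun k => by rw [MvPolynomial.eval_C]

theorem nW_entry (a b : Fin s.n') : (fun k : R.K => ((s.σ k a b : ℝ) : ℂ)) ∈ s.W 1 :=
  nW_mem s (MvPolynomial.X (a, b)) (by rw [MvPolynomial.totalDegree_X])
    fun k => by rw [MvPolynomial.eval_X]; rfl

/-- expansions of `F (k k')` -/
def nW_Exp (N : ℕ) (F : R.K → ℂ) : Prop :=
  ∃ (ι : Type) (_ : Fintype ι) (F₁ F₂ : ι → R.K → ℂ), (∀ i, F₁ i ∈ s.W N ∧ F₂ i ∈ s.W N) ∧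
    ∀ k k', F (k * k') = ∑ i, F₁ i k * F₂ i k'

theorem nW_exp_zero (N : ℕ) : nW_Exp s N 0 :=
  ⟨Empty, inferInstance, fun _ => 0, fun _ => 0,
    fun _ => ⟨(s.W N).zero_mem, (s.W N).zero_mem⟩, fun k k' => by simp⟩

theorem nW_exp_add {N : ℕ} {F H : R.K → ℂ} (hF : nW_Exp s N F) (hH : nW_Exp s N H) :
    nW_Exp s N (F + H) := by
  obtain ⟨ι, _, F₁, F₂, h1, h2⟩ := hF
  obtain ⟨κ, _, H₁, H₂, h3, h4⟩ := hH
  refine ⟨ι ⊕ κ, inferInstance, Sum.elim F₁ H₁, Sum.elim F₂ H₂, ?_, fun k k' => ?_⟩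
  · rintro (i | i)
    · exact h1 i
    · exact h3 i
  · rw [Fintype.sum_sum_type, Pi.add_apply, h2, h4]
    rfl

theorem nW_exp_smul {N : ℕ} {F : R.K → ℂ} (c : ℂ) (hF : nW_Exp s N F) :
    nW_Exp s N (c • F) := by
  obtain ⟨ι, _, F₁, F₂, h1, h2⟩ := hF
  refine ⟨ι, inferInstance, fun i => c • F₁ i, F₂,
    fun i => ⟨(s.W N).smul_mem c (h1 i).1, (h1 i).2⟩, fun k k' => ?_⟩
  rw [Pi.smul_apply, h2, Finset.smul_sum]
  refine Finset.sum_congr rfl fun i _ => ?_
  change c * (F₁ i k * F₂ i k') = (c * F₁ i k) * F₂ i k'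
  rw [mul_assoc]

theorem nW_exp_mul_entry {N : ℕ} {F : R.K → ℂ} (a b : Fin s.n') (hF : nW_Exp s N F) :
    nW_Exp s (N + 1) (fun k => ((s.σ k a b : ℝ) : ℂ) * F k) := by
  obtain ⟨ι, _, F₁, F₂, h1, h2⟩ := hF
  refine ⟨Fin s.n' × ι, inferInstance, fun ci k => ((s.σ k a ci.1 : ℝ) : ℂ) * F₁ ci.2 k,
    fun ci k => ((s.σ k ci.1 b : ℝ) : ℂ) * F₂ ci.2 k, fun ci => ⟨?_, ?_⟩, fun k k' => ?_⟩
  · rw [add_comm]
    exact nW_mul s (nW_entry s a ci.1) (h1 ci.2).1
  · rw [add_comm]
    exact nW_mul s (nW_entry s ci.1 b) (h1 ci.2).2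
  · change ((s.σ (k * k') a b : ℝ) : ℂ) * F (k * k') = ∑ ci : Fin s.n' × ι,
      (((s.σ k a ci.1 : ℝ) : ℂ) * F₁ ci.2 k) * (((s.σ k' ci.1 b : ℝ) : ℂ) * F₂ ci.2 k')
    rw [h2, map_mul, Matrix.mul_apply, Complex.ofReal_sum, Finset.sum_mul_sum,
      Fintype.sum_prod_type]
    refine Finset.sum_congr rfl fun c _ => Finset.sum_congr rfl fun i _ => ?_
    rw [Complex.ofReal_mul]
    ring

theorem nW_exp_monomial (N : ℕ) : ∀ α : (Fin s.n' × Fin s.n') →₀ ℕ, (α.sum fun _ e => e) ≤ N →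
    nW_Exp s N (fun k => MvPolynomial.eval (nW_x s k) (MvPolynomial.monomial α 1)) := by
  classical
  induction N with
  | zero =>
    intro α hα
    have h0 : α = 0 := by
      ext i
      by_contra hi
      have hi' : i ∈ α.support := by rw [Finsupp.mem_support_iff]; exact hi
      have : α i ≤ α.sum fun _ e => e :=
        Finset.single_le_sum (f := fun i => α i) (fun _ _ => Nat.zero_le _) hi'
      simp only [Finsupp.coe_zero, Pi.zero_apply] at hi
      omega
    subst h0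
    refine ⟨Unit, inferInstance, fun _ _ => 1, fun _ _ => 1,
      fun _ => ⟨nW_const s 1, nW_const s 1⟩, fun k k' => ?_⟩
    simp
  | succ N ih =>
    intro α hα
    by_cases h0 : α = 0
    · subst h0
      refine ⟨Unit, inferInstance, fun _ _ => 1, fun _ _ => 1,
        fun _ => ⟨nW_const s 1, nW_const s 1⟩, fun k k' => ?_⟩
      simp
    · obtain ⟨ij, hij⟩ := Finsupp.ne_iff.1 h0
      rw [Finsupp.coe_zero, Pi.zero_apply] at hij
      have hle : Finsupp.single ij 1 ≤ α := by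
        rw [Finsupp.single_le_iff]
        omega
      have hdec : α = Finsupp.single ij 1 + (α - Finsupp.single ij 1) := by
        rw [add_tsub_cancel_of_le hle]
      have hsum : (α.sum fun _ e => e) = 1 + ((α - Finsupp.single ij 1).sum fun _ e => e) := by
        conv_lhs => rw [hdec]
        rw [Finsupp.sum_add_index' (fun _ => rfl) (fun _ _ _ => rfl),
          Finsupp.sum_single_index rfl]
      have h1 := nW_exp_mul_entry s ij.1 ij.2 (ih (α - Finsupp.single ij 1) (by omega))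
      have h2 : (fun k => MvPolynomial.eval (nW_x s k) (MvPolynomial.monomial α 1)) =
          fun k => ((s.σ k ij.1 ij.2 : ℝ) : ℂ) * MvPolynomial.eval (nW_x s k)
            (MvPolynomial.monomial (α - Finsupp.single ij 1) 1) := by
        funext k
        have h3 : MvPolynomial.monomial α (1 : ℂ) = MvPolynomial.X ij *
            MvPolynomial.monomial (α - Finsupp.single ij 1) 1 := by
          conv_lhs => rw [hdec]
          rw [MvPolynomial.X, MvPolynomial.monomial_mul, one_mul]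
        rw [h3, map_mul, MvPolynomial.eval_X]
        rfl
      rw [h2]
      exact h1

theorem nW_exp {N : ℕ} {F : R.K → ℂ} (hF : F ∈ s.W N) : nW_Exp s N F := by
  obtain ⟨p, hp, hp'⟩ := nW_elim s hF
  have h : F = ∑ α ∈ p.support, p.coeff α •
      (fun k => MvPolynomial.eval (nW_x s k) (MvPolynomial.monomial α (1 : ℂ))) := by
    funext k
    rw [hp' k, Finset.sum_apply]
    conv_lhs => rw [p.as_sum, map_sum]
    refine Finset.sum_congr rfl fun α _ => ?_
    rw [Pi.smul_apply, smul_eq_mul, MvPolynomial.eval_monomial, MvPolynomial.eval_monomial, one_mul]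
  rw [h]
  have key : ∀ t : Finset ((Fin s.n' × Fin s.n') →₀ ℕ), t ⊆ p.support →
      nW_Exp s N (∑ α ∈ t, p.coeff α •
        (fun k => MvPolynomial.eval (nW_x s k) (MvPolynomial.monomial α (1 : ℂ)))) := by
    classical
    intro t
    induction t using Finset.induction_on with
    | empty => intro _; exact nW_exp_zero s N
    | insert a t ha ih =>
      intro ht
      rw [Finset.sum_insert ha]
      refine nW_exp_add s (nW_exp_smul s _ (nW_exp_monomial s N a ?_))
        (ih ((Finset.subset_insert a t).trans ht))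
      exact (MvPolynomial.le_totalDegree (ht (Finset.mem_insert_self a t))).trans hp
  exact key _ (Finset.Subset.refl _)

theorem nW_translate {N : ℕ} {F : R.K → ℂ} (k₀ : R.K) (hF : F ∈ s.W N) :
    (fun k => F (k₀ * k)) ∈ s.W N ∧ (fun k => F (k * k₀)) ∈ s.W N := by
  obtain ⟨ι, _, F₁, F₂, h1, h2⟩ := nW_exp s hF
  constructor
  · have : (fun k => F (k₀ * k)) = ∑ i, F₁ i k₀ • F₂ i := by
      funext k
      rw [h2, Finset.sum_apply]
      rfl
    rw [this]
    exact (s.W N).sum_mem fun i _ => (s.W N).smul_mem _ (h1 i).2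
  · have : (fun k => F (k * k₀)) = ∑ i, F₂ i k₀ • F₁ i := by
      funext k
      rw [h2, Finset.sum_apply]
      refine Finset.sum_congr rfl fun i _ => ?_
      rw [Pi.smul_apply, smul_eq_mul, mul_comm]
    rw [this]
    exact (s.W N).sum_mem fun i _ => (s.W N).smul_mem _ (h1 i).1

/-- the monomial functions -/
noncomputable def nW_gen (N : ℕ) (e : Fin s.n' × Fin s.n' → Fin (N + 1)) : R.K → ℂ :=
  fun k => ∏ ij, nW_x s k ij ^ (e ij : ℕ)

theorem nW_le_span (N : ℕ) : s.W N ≤ Submodule.span ℂ (Set.range (nW_gen s N)) := by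
  intro F hF
  obtain ⟨p, hp, hp'⟩ := nW_elim s hF
  have hb : ∀ α ∈ p.support, ∀ ij, α ij < N + 1 := by
    intro α hα ij
    have h1 := (MvPolynomial.le_totalDegree hα).trans hp
    by_cases hi : ij ∈ α.support
    · have : α ij ≤ α.sum fun _ e => e :=
        Finset.single_le_sum (f := fun i => α i) (fun _ _ => Nat.zero_le _) hi
      omega
    · rw [Finsupp.notMem_support_iff.1 hi]
      omega
  have h : F = ∑ α ∈ p.support.attach, p.coeff α.1 •
      nW_gen s N (fun ij => ⟨α.1 ij, hb α.1 α.2 ij⟩) := by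
    funext k
    rw [hp' k, Finset.sum_apply, MvPolynomial.eval_eq', ← Finset.sum_attach]
    rfl
  rw [h]
  exact Submodule.sum_mem _ fun α _ => Submodule.smul_mem _ _ (Submodule.subset_span ⟨_, rfl⟩)

theorem nW_finite (N : ℕ) : FiniteDimensional ℂ (s.W N) := by
  have : FiniteDimensional ℂ (Submodule.span ℂ (Set.range (nW_gen s N))) :=
    FiniteDimensional.span_of_finite ℂ (Set.finite_range _)
  exact Submodule.finiteDimensional_of_le (nW_le_span s N)

theorem nW_finrank (N : ℕ) : Module.finrank ℂ (s.W N) ≤ (N + 1) ^ (s.n' ^ 2) := by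
  have : FiniteDimensional ℂ (Submodule.span ℂ (Set.range (nW_gen s N))) :=
    FiniteDimensional.span_of_finite ℂ (Set.finite_range _)
  have h1 := Submodule.finrank_mono (nW_le_span s N)
  have h2 := finrank_range_le_card (R := ℂ) (nW_gen s N)
  rw [Fintype.card_fun, Fintype.card_prod, Fintype.card_fin, Fintype.card_fin, ← sq] at h2
  exact h1.trans h2

end nW

/-- TARGET -/
theorem Wprops : S_W := by
  intro G _ _ R s
  refine ⟨fun N M h => nW_mono s h, fun N M F H hF hH => nW_mul s hF hH,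
    fun N F hF => nW_continuous s hF, fun N F hF => nW_conj s hF, fun N F hF => nW_inv s hF,
    fun N F k₀ hF => nW_translate s k₀ hF, ?_, fun N => nW_finite s N, fun N => nW_finrank s N, ?_⟩
  · intro N F k k' hF hk
    obtain ⟨p, _, hp'⟩ := nW_elim s hF
    rw [hp', hp']
    have : nW_x s k = nW_x s k' := by
      funext ij
      simp only [nW_x, hk]
    rw [this]
  · intro N F hF
    obtain ⟨ι, _, F₁, F₂, h1, h2⟩ := nW_exp s hF
    refine ⟨Fintype.card ι, fun i => F₁ ((Fintype.equivFin ι).symm i),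
      fun i => F₂ ((Fintype.equivFin ι).symm i), fun i => h1 _, fun k k' => ?_⟩
    rw [h2]
    exact (Equiv.sum_comp (Fintype.equivFin ι).symm (fun i => F₁ i k * F₂ i k')).symm

end Pool.Agent.H913.SG
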