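import Pool.Agent.H913.SG.Stmts2

open MeasureTheory Matrix NormedSpace
open scoped SchwartzMap ContDiff FourierTransform Matrix

universe u v

namespace Pool.Agent.H913.SG

section oEigAbs

variable {U : Type u} [AddCommGroup U] [Module ℂ U]

/-- an inner product given by its axioms -/
structure oEig_IP (ip : U → U → ℂ) : Prop where
  lin : ∀ x y z (c : ℂ), ip x (c • y + z) = c * ip x y + ip x z
  conj : ∀ x y, ip y x = (starRingEnd ℂ) (ip x y)
  pos : ∀ x, x ≠ 0 → 0 < (ip x x).re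

lemma oEig_IP.zero_right {ip : U → U → ℂ} (h : oEig_IP ip) (x : U) : ip x 0 = 0 := by
  have h1 := h.lin x 0 0 1
  simp only [smul_zero, add_zero, one_mul] at h1
  have h2 : ip x 0 + 0 = ip x 0 + ip x 0 := by rw [add_zero]; exact h1
  exact (add_left_cancel h2).symm

lemma oEig_IP.add_right {ip : U → U → ℂ} (h : oEig_IP ip) (x y z : U) :
    ip x (y + z) = ip x y + ip x z := by
  have h1 := h.lin x y z 1
  rwa [one_smul, one_mul] at h1

lemma oEig_IP.smul_right {ip : U → U → ℂ} (h : oEig_IP ip) (x y : U) (c : ℂ) :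
    ip x (c • y) = c * ip x y := by
  have h1 := h.lin x y 0 c
  rwa [add_zero, h.zero_right, add_zero] at h1

lemma oEig_IP.nonneg {ip : U → U → ℂ} (h : oEig_IP ip) (x : U) : 0 ≤ (ip x x).re := by
  by_cases hx : x = 0
  · rw [hx, h.zero_right]; simp
  · exact (h.pos x hx).le

/-- the core -/
noncomputable abbrev oEig_core (ip : U → U → ℂ) (h : oEig_IP ip) : InnerProductSpace.Core ℂ U where
  inner := ip
  conj_inner_symm x y := (h.conj y x).symm
  re_inner_nonneg x := h.nonneg x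
  add_left x y z := by
    rw [h.conj z (x + y), h.add_right, map_add, ← h.conj, ← h.conj]
  smul_left x y r := by
    rw [h.conj y (r • x), h.smul_right, map_mul, ← h.conj]
  definite x hx := by
    by_contra hne
    have := h.pos x hne
    have h2 : ip x x = 0 := hx
    rw [h2] at this
    simp at this

lemma oEig_diag [FiniteDimensional ℂ U] {ip : U → U → ℂ} (h : oEig_IP ip) (T : U →ₗ[ℂ] U)
    (hT : ∀ x y, ip (T x) y = ip x (T y)) :
    ⨆ c : ℝ, Module.End.eigenspace T (c : ℂ) = ⊤ := by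
  let _ : NormedAddCommGroup U := (oEig_core ip h).toNormedAddCommGroup
  let _ : InnerProductSpace ℂ U := InnerProductSpace.ofCore (oEig_core ip h).toCore
  have hs : T.IsSymmetric := hT
  have h1 := hs.orthogonalComplement_iSup_eigenspaces_eq_bot
  have h2 : (⨆ μ : ℂ, Module.End.eigenspace T μ) = ⊤ := Submodule.orthogonal_eq_bot_iff.1 h1
  rw [eq_top_iff, ← h2]
  refine iSup_le fun μ => ?_
  by_cases hb : Module.End.eigenspace T μ = ⊥
  · rw [hb]; exact bot_le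
  · have hev : Module.End.HasEigenvalue T μ := hb
    have hre := hs.conj_eigenvalue_eq_self hev
    have hμ : ((μ.re : ℝ) : ℂ) = μ := Complex.conj_eq_iff_re.1 hre
    rw [← hμ]
    exact le_iSup (fun c : ℝ => Module.End.eigenspace T (c : ℂ)) μ.re

lemma oEig_norm {ip : U → U → ℂ} (h : oEig_IP ip) :
    (∀ x y, Real.sqrt (ip (x + y) (x + y)).re ≤
      Real.sqrt (ip x x).re + Real.sqrt (ip y y).re) ∧
    (∀ (c : ℂ) x, Real.sqrt (ip (c • x) (c • x)).re = ‖c‖ * Real.sqrt (ip x x).re) ∧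
    (∀ x, x ≠ 0 → 0 < Real.sqrt (ip x x).re) ∧
    (∀ x y, ‖ip x y‖ ≤ Real.sqrt (ip x x).re * Real.sqrt (ip y y).re) := by
  let _ : NormedAddCommGroup U := (oEig_core ip h).toNormedAddCommGroup
  let _ : InnerProductSpace ℂ U := InnerProductSpace.ofCore (oEig_core ip h).toCore
  have hn : ∀ x : U, ‖x‖ = Real.sqrt (ip x x).re := fun x => norm_eq_sqrt_re_inner (𝕜 := ℂ) x
  refine ⟨?_, ?_, ?_, ?_⟩
  · intro x y
    rw [← hn, ← hn, ← hn]
    exact norm_add_le x y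
  · intro c x
    rw [← hn, ← hn]
    exact norm_smul c x
  · intro x hx
    rw [← hn]
    exact norm_pos_iff.2 hx
  · intro x y
    rw [← hn, ← hn]
    exact norm_inner_le_norm (𝕜 := ℂ) x y

/-- linear functional -/
def oEig_lin {ip : U → U → ℂ} (h : oEig_IP ip) (x : U) : U →ₗ[ℂ] ℂ where
  toFun y := ip x y
  map_add' y z := h.add_right x y z
  map_smul' c y := h.smul_right x y c

lemma oEig_key {ip : U → U → ℂ} (h : oEig_IP ip) {m : ℕ} (a : Fin m → (U →ₗ[ℂ] U))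
    (ha : ∀ i x y, ip (a i x) y = - ip x (a i y)) (T : U →ₗ[ℂ] U)
    (hT : ∀ x, T x = - ∑ i, a i (a i x)) (x y : U) :
    ip y (T x) = ∑ i, ip (a i y) (a i x) := by
  have e : ip y (T x) = oEig_lin h y (T x) := rfl
  rw [e, hT, map_neg, map_sum, ← Finset.sum_neg_distrib]
  refine Finset.sum_congr rfl fun i _ => ?_
  rw [ha]
  rfl

lemma oEig_symm {ip : U → U → ℂ} (h : oEig_IP ip) {m : ℕ} (a : Fin m → (U →ₗ[ℂ] U))
    (ha : ∀ i x y, ip (a i x) y = - ip x (a i y)) (T : U →ₗ[ℂ] U)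
    (hT : ∀ x, T x = - ∑ i, a i (a i x)) (x y : U) :
    ip (T x) y = ip x (T y) := by
  rw [h.conj y (T x), oEig_key h a ha T hT, oEig_key h a ha T hT, map_sum]
  refine Finset.sum_congr rfl fun i _ => ?_
  rw [← h.conj]

end oEigAbs

section oEigMo

variable {G : Type} [Group G] [TopologicalSpace G] {R : RealReductive G}
variable {V : Type u} [AddCommGroup V] [Module ℂ V] (Mo : HCModule R V)

lemma oEig_act_zero : Mo.act 0 = 0 := by
  have h := Mo.act_smul 0 0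
  rw [zero_smul] at h
  rw [h]
  simp

lemma oEig_act_sum {m : ℕ} (c : Fin m → ℝ) (b : Fin m → R.lie) :
    Mo.act (∑ i, c i • b i) = ∑ i, (c i : ℂ) • Mo.act (b i) := by
  have h : ∀ s : Finset (Fin m), Mo.act (∑ i ∈ s, c i • b i) =
      ∑ i ∈ s, (c i : ℂ) • Mo.act (b i) := by
    intro s
    induction s using Finset.induction_on with
    | empty => simpa using oEig_act_zero Mo
    | insert a s ha ih => rw [Finset.sum_insert ha, Finset.sum_insert ha, Mo.act_add, ih,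
        Mo.act_smul]
  exact h _

lemma oEig_comm (B : R.InvBasis) (k : R.K) :
    Mo.kact k * lap Mo B = lap Mo B * Mo.kact k := by
  obtain ⟨O, hO, hb⟩ := B.invariant k.1 k.2
  have hO' : O * Oᵀ = 1 := mul_eq_one_comm.mp hO
  unfold lap
  rw [mul_neg, neg_mul, Finset.mul_sum]
  congr 1
  have h1 : ∀ i, Mo.kact k * (Mo.act (B.b i) * Mo.act (B.b i)) =
      (∑ j, (O j i : ℂ) • Mo.act (B.b j)) * (∑ l, (O l i : ℂ) • Mo.act (B.b l)) * Mo.kact k := by
    intro i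
    rw [← oEig_act_sum, ← hb i, ← mul_assoc, Mo.compat, mul_assoc, Mo.compat, ← mul_assoc]
  simp only [h1]
  rw [← Finset.sum_mul]
  congr 1
  simp only [Finset.sum_mul_sum]
  rw [Finset.sum_comm]
  have h2 : ∀ j, ∑ i, ∑ l, ((O j i : ℂ) • Mo.act (B.b j)) * ((O l i : ℂ) • Mo.act (B.b l)) =
      Mo.act (B.b j) * Mo.act (B.b j) := by
    intro j
    rw [Finset.sum_comm]
    have h3 : ∀ l, ∑ i, ((O j i : ℂ) • Mo.act (B.b j)) * ((O l i : ℂ) • Mo.act (B.b l)) =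
        (((1 : Matrix (Fin B.m) (Fin B.m) ℝ) j l : ℝ) : ℂ) •
          (Mo.act (B.b j) * Mo.act (B.b l)) := by
      intro l
      rw [← hO', Matrix.mul_apply]
      push_cast
      rw [Finset.sum_smul]
      refine Finset.sum_congr rfl fun i _ => ?_
      rw [smul_mul_smul_comm, Matrix.transpose_apply]
    simp only [h3]
    rw [Finset.sum_eq_single j]
    · simp
    · intro l _ hl
      rw [Matrix.one_apply_ne (Ne.symm hl)]
      simp
    · intro hj
      exact absurd (Finset.mem_univ j) hj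
  exact Finset.sum_congr rfl fun j _ => h2 j

/-- the cyclic subspace -/
def oEig_U (v : V) : Submodule ℂ V := Submodule.span ℂ (Set.range fun k => Mo.kact k v)

lemma oEig_mem (v : V) : v ∈ oEig_U Mo v :=
  Submodule.subset_span ⟨1, by simp⟩

lemma oEig_stab (v : V) (k : R.K) : ∀ x ∈ oEig_U Mo v, Mo.kact k x ∈ oEig_U Mo v := by
  intro x hx
  have h : oEig_U Mo v ≤ (oEig_U Mo v).comap (Mo.kact k) := by
    refine Submodule.span_le.2 ?_
    rintro _ ⟨k', rfl⟩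
    refine Submodule.subset_span ⟨k * k', ?_⟩
    simp only [map_mul, Module.End.mul_apply]
  exact h hx

lemma oEig_lap_all (B : R.InvBasis) {v : V} {c : ℝ} (hv : lap Mo B v = (c : ℂ) • v) :
    ∀ x ∈ oEig_U Mo v, lap Mo B x = (c : ℂ) • x := by
  intro x hx
  have h : oEig_U Mo v ≤ Module.End.eigenspace (lap Mo B) (c : ℂ) := by
    refine Submodule.span_le.2 ?_
    rintro _ ⟨k, rfl⟩
    rw [SetLike.mem_coe, Module.End.mem_eigenspace_iff]
    have h1 := congrArg (fun f : Module.End ℂ V => f v) (oEig_comm Mo B k)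
    simp only [Module.End.mul_apply] at h1
    rw [← h1, hv, map_smul]
  exact Module.End.mem_eigenspace_iff.1 (h hx)

/-- the data of an invariant inner product -/
structure oEig_Inv (U : Submodule ℂ V) (ip : V → V → ℂ) : Prop where
  kst : ∀ k, ∀ v ∈ U, Mo.kact k v ∈ U
  st : ∀ X : R.lie, R.IsSkew X → ∀ x ∈ U, Mo.act X x ∈ U
  lin : ∀ x ∈ U, ∀ y ∈ U, ∀ z ∈ U, ∀ c : ℂ, ip x (c • y + z) = c * ip x y + ip x z
  conj : ∀ x ∈ U, ∀ y ∈ U, ip y x = (starRingEnd ℂ) (ip x y)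
  pos : ∀ x ∈ U, x ≠ 0 → 0 < (ip x x).re
  inv : ∀ k, ∀ x ∈ U, ∀ y ∈ U, ip (Mo.kact k x) (Mo.kact k y) = ip x y
  skew : ∀ X : R.lie, R.IsSkew X → ∀ x ∈ U, ∀ y ∈ U, ip (Mo.act X x) y = - ip x (Mo.act X y)

variable {Mo}

lemma oEig_Inv.toIP {U : Submodule ℂ V} {ip : V → V → ℂ} (h : oEig_Inv Mo U ip) :
    oEig_IP (fun x y : U => ip x y) where
  lin x y z c := h.lin x x.2 y y.2 z z.2 c
  conj x y := h.conj x x.2 y y.2
  pos x hx := h.pos x x.2 (fun h0 => hx (Subtype.ext h0))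

lemma oEig_lap_apply (B : R.InvBasis) (x : V) :
    lap Mo B x = - ∑ i, Mo.act (B.b i) (Mo.act (B.b i) x) := by
  unfold lap
  simp only [LinearMap.neg_apply, LinearMap.sum_apply, Module.End.mul_apply]

lemma oEig_Inv.lapst {U : Submodule ℂ V} {ip : V → V → ℂ} (h : oEig_Inv Mo U ip)
    (B : R.InvBasis) : ∀ x ∈ U, lap Mo B x ∈ U := by
  intro x hx
  rw [oEig_lap_apply]
  exact U.neg_mem (U.sum_mem fun i _ => h.st _ (B.skew i) _ (h.st _ (B.skew i) _ hx))

lemma oEig_Inv.symm {U : Submodule ℂ V} {ip : V → V → ℂ} (h : oEig_Inv Mo U ip)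
    (B : R.InvBasis) (x y : U) :
    ip ((lap Mo B).restrict (h.lapst B) x) y = ip x ((lap Mo B).restrict (h.lapst B) y) := by
  refine oEig_symm h.toIP (fun i => (Mo.act (B.b i)).restrict (h.st _ (B.skew i))) ?_ _ ?_ x y
  · intro i x y
    exact h.skew _ (B.skew i) x x.2 y y.2
  · intro x
    apply Subtype.ext
    rw [LinearMap.coe_restrict_apply, oEig_lap_apply]
    simp

lemma oEig_Inv.key {U : Submodule ℂ V} {ip : V → V → ℂ} (h : oEig_Inv Mo U ip)
    (B : R.InvBasis) {x y : V} (hx : x ∈ U) (hy : y ∈ U) :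
    ip y (lap Mo B x) = ∑ i, ip (Mo.act (B.b i) y) (Mo.act (B.b i) x) := by
  refine oEig_key h.toIP (fun i => (Mo.act (B.b i)).restrict (h.st _ (B.skew i))) ?_
    ((lap Mo B).restrict (h.lapst B)) ?_ ⟨x, hx⟩ ⟨y, hy⟩
  · intro i x y
    exact h.skew _ (B.skew i) x x.2 y y.2
  · intro x
    apply Subtype.ext
    rw [LinearMap.coe_restrict_apply, oEig_lap_apply]
    simp

end oEigMo

/-- TARGET 1 -/
theorem eigA (h1 : S_inner.{u}) : S_eigA.{u} := by
  intro G _ _ _ _ _ R P B V _ _ Mo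
  constructor
  · intro c v hv hc
    obtain ⟨st, ip, lin, conj, pos, inv, skew⟩ := h1 G R P V Mo (oEig_U Mo v) (Mo.kfinite v)
      (fun k => oEig_stab Mo v k)
    have h : oEig_Inv Mo (oEig_U Mo v) ip := ⟨fun k => oEig_stab Mo v k, st, lin, conj, pos, inv,
      skew⟩
    have hvU := oEig_mem Mo v
    have e := h.key B hvU hvU
    rw [hc] at e
    have e2 : ip v ((c : ℂ) • v) = (c : ℂ) * ip v v :=
      h.toIP.smul_right ⟨v, hvU⟩ ⟨v, hvU⟩ (c : ℂ)
    rw [e2] at e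
    have e3 := congrArg Complex.re e
    rw [Complex.re_ofReal_mul, Complex.re_sum] at e3
    have h4 : 0 ≤ ∑ i, (ip (Mo.act (B.b i) v) (Mo.act (B.b i) v)).re :=
      Finset.sum_nonneg fun i _ => h.toIP.nonneg ⟨_, h.st _ (B.skew i) _ hvU⟩
    have h5 := h.pos v hvU hv
    rw [← e3] at h4
    exact nonneg_of_mul_nonneg_left h4 h5
  · intro v
    obtain ⟨st, ip, lin, conj, pos, inv, skew⟩ := h1 G R P V Mo (oEig_U Mo v) (Mo.kfinite v)
      (fun k => oEig_stab Mo v k)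
    have h : oEig_Inv Mo (oEig_U Mo v) ip := ⟨fun k => oEig_stab Mo v k, st, lin, conj, pos, inv,
      skew⟩
    have : FiniteDimensional ℂ (oEig_U Mo v) := Mo.kfinite v
    have h2 := oEig_diag h.toIP ((lap Mo B).restrict (h.lapst B)) (h.symm B)
    have hv : (⟨v, oEig_mem Mo v⟩ : oEig_U Mo v) ∈
        ⨆ c : ℝ, Module.End.eigenspace ((lap Mo B).restrict (h.lapst B)) (c : ℂ) := by
      rw [h2]; exact Submodule.mem_top
    rw [Submodule.mem_iSup_iff_exists_finsupp] at hv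
    obtain ⟨f, hf, hfs⟩ := hv
    refine ⟨Finsupp.mapRange (oEig_U Mo v).subtype (map_zero _) f, ?_, ?_⟩
    · intro c
      have h3 := Module.End.mem_eigenspace_iff.1 (hf c)
      have h4 := congrArg Subtype.val h3
      rw [Finsupp.mapRange_apply]
      exact h4
    · rw [Finsupp.sum_mapRange_index (fun _ => rfl)]
      have h5 := congrArg (oEig_U Mo v).subtype hfs
      rw [map_finsuppSum] at h5
      exact h5.symm

section oEigB

variable {G : Type} [Group G] [TopologicalSpace G] {R : RealReductive G}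
variable {V : Type u} [AddCommGroup V] [Module ℂ V] {Mo : HCModule R V}

/-- the norm of the inner product -/
noncomputable def oEig_nu (ip : V → V → ℂ) (x : V) : ℝ := Real.sqrt (ip x x).re

omit [AddCommGroup V] [Module ℂ V] in
lemma oEig_nu_nonneg (ip : V → V → ℂ) (x : V) : 0 ≤ oEig_nu ip x := Real.sqrt_nonneg _

lemma oEig_Inv.nu_add {U : Submodule ℂ V} {ip : V → V → ℂ} (h : oEig_Inv Mo U ip) {x y : V}
    (hx : x ∈ U) (hy : y ∈ U) : oEig_nu ip (x + y) ≤ oEig_nu ip x + oEig_nu ip y :=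
  (oEig_norm h.toIP).1 ⟨x, hx⟩ ⟨y, hy⟩

lemma oEig_Inv.nu_smul {U : Submodule ℂ V} {ip : V → V → ℂ} (h : oEig_Inv Mo U ip) {x : V}
    (hx : x ∈ U) (c : ℂ) : oEig_nu ip (c • x) = ‖c‖ * oEig_nu ip x :=
  (oEig_norm h.toIP).2.1 c ⟨x, hx⟩

lemma oEig_Inv.nu_pos {U : Submodule ℂ V} {ip : V → V → ℂ} (h : oEig_Inv Mo U ip) {x : V}
    (hx : x ∈ U) (h0 : x ≠ 0) : 0 < oEig_nu ip x :=
  (oEig_norm h.toIP).2.2.1 ⟨x, hx⟩ (fun h1 => h0 (congrArg Subtype.val h1))

lemma oEig_Inv.cs {U : Submodule ℂ V} {ip : V → V → ℂ} (h : oEig_Inv Mo U ip) {x y : V}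
    (hx : x ∈ U) (hy : y ∈ U) : ‖ip x y‖ ≤ oEig_nu ip x * oEig_nu ip y :=
  (oEig_norm h.toIP).2.2.2 ⟨x, hx⟩ ⟨y, hy⟩

lemma oEig_Inv.nu_sq {U : Submodule ℂ V} {ip : V → V → ℂ} (h : oEig_Inv Mo U ip) {x : V}
    (hx : x ∈ U) : oEig_nu ip x ^ 2 = (ip x x).re := by
  unfold oEig_nu
  exact Real.sq_sqrt (h.toIP.nonneg ⟨x, hx⟩)

lemma oEig_Inv.nu_k {U : Submodule ℂ V} {ip : V → V → ℂ} (h : oEig_Inv Mo U ip) {x : V}
    (hx : x ∈ U) (k : R.K) : oEig_nu ip (Mo.kact k x) = oEig_nu ip x := by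
  unfold oEig_nu
  rw [h.inv k x hx x hx]

lemma oEig_Inv.nu_sub {U : Submodule ℂ V} {ip : V → V → ℂ} (h : oEig_Inv Mo U ip) {x y : V}
    (hx : x ∈ U) (hy : y ∈ U) : oEig_nu ip (x - y) ≤ oEig_nu ip x + oEig_nu ip y := by
  have h1 := h.nu_add hx (U.neg_mem hy)
  have h2 : oEig_nu ip (-y) = oEig_nu ip y := by
    have := h.nu_smul hy (-1)
    simpa using this
  rw [h2, ← sub_eq_add_neg] at h1
  exact h1

lemma oEig_Inv.nu_sum {U : Submodule ℂ V} {ip : V → V → ℂ} (h : oEig_Inv Mo U ip) {m : ℕ}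
    (y : Fin m → V) (hy : ∀ i, y i ∈ U) : oEig_nu ip (∑ i, y i) ≤ ∑ i, oEig_nu ip (y i) := by
  have h1 : ∀ s : Finset (Fin m), oEig_nu ip (∑ i ∈ s, y i) ≤ ∑ i ∈ s, oEig_nu ip (y i) := by
    intro s
    induction s using Finset.induction_on with
    | empty =>
      have h2 := h.nu_smul U.zero_mem 0
      rw [zero_smul, norm_zero, zero_mul] at h2
      simp [h2]
    | insert a s ha ih =>
      rw [Finset.sum_insert ha, Finset.sum_insert ha]
      exact (h.nu_add (hy a) (U.sum_mem fun i _ => hy i)).trans (by gcongr)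
  exact h1 _

lemma oEig_mv (P : Pack R) {U : Submodule ℂ V} {ip : V → V → ℂ} (h : oEig_Inv Mo U ip)
    {X : R.lie} (hX : R.IsSkew X) {y : V} (hy : y ∈ U) :
    oEig_nu ip (Mo.kact ⟨P.gam X 1, P.gam_mem X hX 1⟩ y - y) ≤ oEig_nu ip (Mo.act X y) := by
  obtain ⟨k, hk⟩ : ∃ k : ℝ → R.K, k = fun t => ⟨P.gam X t, P.gam_mem X hX t⟩ := ⟨_, rfl⟩
  have hsp := P.gam_spec X
  have hadd : ∀ a b, k (a + b) = k a * k b := by
    intro a b
    rw [hk]
    exact Subtype.ext (hsp.2.1 a b)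
  have hk0 : k 0 = 1 := by
    have h1 := hadd 0 0
    rw [add_zero] at h1
    exact (mul_eq_left.1 h1.symm)
  have hk1 : (⟨P.gam X 1, P.gam_mem X hX 1⟩ : R.K) = k 1 := by rw [hk]
  rw [hk1]
  obtain ⟨w, hw⟩ : ∃ w : V, w = Mo.kact (k 1) y - y := ⟨_, rfl⟩
  have hwU : w ∈ U := by rw [hw]; exact U.sub_mem (h.kst _ _ hy) hy
  rw [← hw]
  obtain ⟨φ, hφ⟩ := LinearMap.exists_extend (oEig_lin h.toIP ⟨w, hwU⟩)
  have hφ' : ∀ z ∈ U, φ z = ip w z := by
    intro z hz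
    have := congrArg (fun f : U →ₗ[ℂ] ℂ => f ⟨z, hz⟩) hφ
    exact this
  have hd : ∀ t₀ : ℝ, HasDerivAt (fun t : ℝ => φ (Mo.kact (k t) y))
      (φ (Mo.kact (k t₀) (Mo.act X y))) t₀ := by
    intro t₀
    have h1 := Mo.deriv X (P.gam X) hsp (P.gam_mem X hX) y (φ ∘ₗ Mo.kact (k t₀))
    have h2 : (fun t : ℝ => (φ ∘ₗ Mo.kact (k t₀)) (Mo.kact ⟨P.gam X t, P.gam_mem X hX t⟩ y)) =
        fun t : ℝ => (fun t' : ℝ => φ (Mo.kact (k t') y)) (t₀ + t) := by
      funext t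
      simp only [LinearMap.comp_apply]
      rw [hadd, map_mul, Module.End.mul_apply, hk]
    rw [h2] at h1
    have h3 : HasDerivAt (fun t : ℝ => (fun t' : ℝ => φ (Mo.kact (k t') y)) (t₀ + t))
        ((φ ∘ₗ Mo.kact (k t₀)) (Mo.act X y)) (t₀ - t₀) := by rwa [sub_self]
    have h4 := h3.comp_sub_const t₀ t₀
    simpa using h4
  have hAU : Mo.act X y ∈ U := h.st X hX y hy
  have hb : ∀ t : ℝ, ‖φ (Mo.kact (k t) (Mo.act X y))‖ ≤ oEig_nu ip w * oEig_nu ip (Mo.act X y) := by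
    intro t
    rw [hφ' _ (h.kst _ _ hAU)]
    refine (h.cs hwU (h.kst _ _ hAU)).trans ?_
    rw [h.nu_k hAU]
  have h5 := norm_image_sub_le_of_norm_deriv_le_segment_01' (f := fun t : ℝ => φ (Mo.kact (k t) y))
    (f' := fun t => φ (Mo.kact (k t) (Mo.act X y)))
    (C := oEig_nu ip w * oEig_nu ip (Mo.act X y)) (fun t _ => (hd t).hasDerivWithinAt)
    (fun t _ => hb t)
  have h6 : φ (Mo.kact (k 1) y) - φ (Mo.kact (k 0) y) = ip w w := by
    rw [hk0, map_one, Module.End.one_apply, ← map_sub, ← hw]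
    exact hφ' w hwU
  rw [h6] at h5
  have h7 : oEig_nu ip w ^ 2 ≤ oEig_nu ip w * oEig_nu ip (Mo.act X y) := by
    rw [h.nu_sq hwU]
    exact (Complex.re_le_norm _).trans h5
  have h8 := oEig_nu_nonneg ip w
  have h9 := oEig_nu_nonneg ip (Mo.act X y)
  by_contra hcon
  push Not at hcon
  nlinarith

lemma oEig_fro_nonneg {n : ℕ} (X : M n) : 0 ≤ fro X := Real.sqrt_nonneg _

lemma oEig_entry_le {n : ℕ} (X : M n) (i j : Fin n) : |X i j| ≤ fro X := by
  unfold fro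
  apply Real.abs_le_sqrt
  have h1 : X i j ^ 2 ≤ ∑ j', X i j' ^ 2 :=
    Finset.single_le_sum (f := fun j' => X i j' ^ 2) (fun _ _ => sq_nonneg _) (Finset.mem_univ j)
  have h2 : ∑ j', X i j' ^ 2 ≤ ∑ i', ∑ j', X i' j' ^ 2 :=
    Finset.single_le_sum (f := fun i' => ∑ j', X i' j' ^ 2)
      (fun _ _ => Finset.sum_nonneg fun _ _ => sq_nonneg _) (Finset.mem_univ i)
  exact h1.trans h2

lemma oEig_CB (B : R.InvBasis) : ∃ CB : ℝ, 0 ≤ CB ∧ ∀ X : R.lie, R.IsSkew X →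
    ∃ x : Fin B.m → ℝ, X = ∑ i, x i • B.b i ∧ ∑ i, x i ^ 2 ≤ CB ^ 2 * fro X.1 ^ 2 := by
  obtain ⟨L, hL⟩ : ∃ L : (Fin B.m → ℝ) →ₗ[ℝ] M R.n, ∀ x, L x = ((∑ i, x i • B.b i : R.lie)).1 :=
    ⟨(R.lie.subtype) ∘ₗ (Fintype.linearCombination ℝ B.b), fun x => by
      simp [Fintype.linearCombination_apply]⟩
  have hinj : Function.Injective L := by
    intro x y hxy
    rw [hL, hL] at hxy
    have h1 : (∑ i, x i • B.b i : R.lie) = ∑ i, y i • B.b i := Subtype.ext hxy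
    have h2 : ∑ i, (x i - y i) • B.b i = 0 := by
      have h2' : ∑ i, (x i - y i) • B.b i = (∑ i, x i • B.b i) - ∑ i, y i • B.b i := by
        rw [← Finset.sum_sub_distrib]
        refine Finset.sum_congr rfl fun i _ => ?_
        apply Subtype.ext
        show (x i - y i) • (B.b i).1 = x i • (B.b i).1 - y i • (B.b i).1
        exact sub_smul _ _ _
      rw [h2', h1, sub_self]
    have h3 := Fintype.linearIndependent_iff.1 B.linInd _ h2
    funext i
    exact sub_eq_zero.1 (h3 i)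
  obtain ⟨g, hg⟩ := L.exists_leftInverse_of_injective (LinearMap.ker_eq_bot.2 hinj)
  obtain ⟨D, hD⟩ : ∃ D : Fin B.m → ℝ,
    D = fun i => ∑ a, ∑ b, |g (Matrix.single a b 1) i| := ⟨_, rfl⟩
  have hgb : ∀ (Y : M R.n) i, |g Y i| ≤ D i * fro Y := by
    intro Y i
    have e : g Y i = ∑ a, ∑ b, Y a b * g (Matrix.single a b 1) i := by
      conv_lhs => rw [Matrix.matrix_eq_sum_single Y]
      simp only [map_sum, Finset.sum_apply]
      refine Finset.sum_congr rfl fun a _ => Finset.sum_congr rfl fun b _ => ?_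
      have : (Matrix.single a b (Y a b) : M R.n) = Y a b • Matrix.single a b (1 : ℝ) := by
        rw [Matrix.smul_single, smul_eq_mul, mul_one]
      rw [this, map_smul, Pi.smul_apply, smul_eq_mul]
    rw [e, hD]
    refine (Finset.abs_sum_le_sum_abs _ _).trans ?_
    rw [Finset.sum_mul]
    refine Finset.sum_le_sum fun a _ => ?_
    refine (Finset.abs_sum_le_sum_abs _ _).trans ?_
    rw [Finset.sum_mul]
    refine Finset.sum_le_sum fun b _ => ?_
    rw [abs_mul, mul_comm]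
    gcongr
    exact oEig_entry_le Y a b
  refine ⟨Real.sqrt (∑ i, D i ^ 2), Real.sqrt_nonneg _, ?_⟩
  intro X hX
  have h1 := B.spans X hX
  rw [Submodule.mem_span_range_iff_exists_fun] at h1
  obtain ⟨x, hx⟩ := h1
  refine ⟨x, hx.symm, ?_⟩
  have h2 : ∀ i, x i = g X.1 i := by
    intro i
    have h3 := congrArg (fun f : (Fin B.m → ℝ) →ₗ[ℝ] (Fin B.m → ℝ) => f x i) hg
    simp only [LinearMap.comp_apply, LinearMap.id_apply] at h3
    rw [← h3, hL, hx]
  rw [Real.sq_sqrt (Finset.sum_nonneg fun _ _ => sq_nonneg _), Finset.sum_mul]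
  refine Finset.sum_le_sum fun i _ => ?_
  rw [h2 i, ← mul_pow, ← sq_abs (g X.1 i)]
  have := hgb X.1 i
  gcongr

lemma oEig_actbd (B : R.InvBasis) {CB : ℝ} (hCB : 0 ≤ CB) (hB : ∀ X : R.lie, R.IsSkew X →
    ∃ x : Fin B.m → ℝ, X = ∑ i, x i • B.b i ∧ ∑ i, x i ^ 2 ≤ CB ^ 2 * fro X.1 ^ 2)
    {U : Submodule ℂ V} {ip : V → V → ℂ} (h : oEig_Inv Mo U ip) {c : ℝ}
    {y : V} (hy : y ∈ U) (hc : lap Mo B y = (c : ℂ) • y) {X : R.lie} (hX : R.IsSkew X) :
    oEig_nu ip (Mo.act X y) ≤ CB * Real.sqrt c * fro X.1 * oEig_nu ip y := by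
  obtain ⟨x, hx, hxs⟩ := hB X hX
  have e1 : Mo.act X y = ∑ i, (x i : ℂ) • Mo.act (B.b i) y := by
    conv_lhs => rw [hx, oEig_act_sum]
    simp only [LinearMap.sum_apply, LinearMap.smul_apply]
  have hbU : ∀ i, Mo.act (B.b i) y ∈ U := fun i => h.st _ (B.skew i) _ hy
  have e2 : oEig_nu ip (Mo.act X y) ≤ ∑ i, |x i| * oEig_nu ip (Mo.act (B.b i) y) := by
    rw [e1]
    refine (h.nu_sum _ fun i => U.smul_mem _ (hbU i)).trans ?_
    refine Finset.sum_le_sum fun i _ => ?_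
    rw [h.nu_smul (hbU i), Complex.norm_real, Real.norm_eq_abs]
  have e3 : ∑ i, oEig_nu ip (Mo.act (B.b i) y) ^ 2 = c * oEig_nu ip y ^ 2 := by
    have h1 := h.key B hy hy
    rw [hc] at h1
    have h2 : ip y ((c : ℂ) • y) = (c : ℂ) * ip y y :=
      h.toIP.smul_right ⟨y, hy⟩ ⟨y, hy⟩ (c : ℂ)
    rw [h2] at h1
    have h3 := congrArg Complex.re h1
    rw [Complex.re_ofReal_mul, Complex.re_sum] at h3
    rw [h.nu_sq hy, h3]
    exact Finset.sum_congr rfl fun i _ => h.nu_sq (hbU i)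
  have e4 : (∑ i, |x i| * oEig_nu ip (Mo.act (B.b i) y)) ^ 2 ≤
      (∑ i, |x i| ^ 2) * ∑ i, oEig_nu ip (Mo.act (B.b i) y) ^ 2 :=
    Finset.sum_mul_sq_le_sq_mul_sq _ _ _
  have hfn := oEig_fro_nonneg X.1
  have hnn := oEig_nu_nonneg ip y
  refine e2.trans ?_
  have hS : 0 ≤ ∑ i, |x i| * oEig_nu ip (Mo.act (B.b i) y) :=
    Finset.sum_nonneg fun i _ => mul_nonneg (abs_nonneg _) (oEig_nu_nonneg _ _)
  have hT : 0 ≤ CB * Real.sqrt c * fro X.1 * oEig_nu ip y := by positivity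
  have e5 : (∑ i, |x i| ^ 2) = ∑ i, x i ^ 2 := Finset.sum_congr rfl fun i _ => sq_abs _
  rw [e3, e5] at e4
  by_cases hc0 : 0 ≤ c
  · refine le_of_sq_le_sq ?_ hT
    calc _ ≤ (∑ i, x i ^ 2) * (c * oEig_nu ip y ^ 2) := e4
      _ ≤ (CB ^ 2 * fro X.1 ^ 2) * (c * oEig_nu ip y ^ 2) := by gcongr
      _ = (CB * Real.sqrt c * fro X.1 * oEig_nu ip y) ^ 2 := by
        rw [mul_pow, mul_pow, mul_pow, Real.sq_sqrt hc0]
        ring
  · push Not at hc0
    have h6 : (∑ i, x i ^ 2) * (c * oEig_nu ip y ^ 2) ≤ 0 := by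
      apply mul_nonpos_of_nonneg_of_nonpos
      · exact Finset.sum_nonneg fun _ _ => sq_nonneg _
      · exact mul_nonpos_of_nonpos_of_nonneg hc0.le (sq_nonneg _)
    have h7 : (∑ i, |x i| * oEig_nu ip (Mo.act (B.b i) y)) ^ 2 ≤ 0 := e4.trans h6
    have h8 : (∑ i, |x i| * oEig_nu ip (Mo.act (B.b i) y)) = 0 := by
      have := sq_nonneg (∑ i, |x i| * oEig_nu ip (Mo.act (B.b i) y))
      exact pow_eq_zero_iff (two_ne_zero) |>.1 (le_antisymm h7 this)
    rw [h8]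
    exact hT

lemma oEig_U_mono (h6 : S_W) (s : KRep R) {N N' : ℕ} (hN : N ≤ N') :
    s.U Mo N ≤ s.U Mo N' := by
  intro v hv f
  exact (h6 G R s).1 N N' hN (hv f)

end oEigB

/-- TARGET 2 -/
theorem eigB (h1 : S_inner.{u}) (h2 : S_near) (h3 : S_kernel) (h4 : S_recover.{u}) (h5 : S_avgV.{u}) (h6 : S_W) :
    S_eigB.{u} := by
  intro G _ _ _ _ _ R P s B
  have hcpt : CompactSpace R.K := P.compactK
  let _ : MeasurableSpace R.K := borel R.K
  have hborel : BorelSpace R.K := ⟨rfl⟩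
  obtain ⟨μ, hμ1, hμ2⟩ : ∃ μ : Measure R.K, μ.IsHaarMeasure ∧ IsProbabilityMeasure μ :=
    ⟨Measure.haarMeasure ⊤, inferInstance, ⟨Measure.haarMeasure_self⟩⟩
  obtain ⟨r₀, hr₀, C, hC, hnear⟩ := h2 G R P s
  obtain ⟨C₂, C₃, hC₂, hC₃, hker⟩ := h3 G R P s μ
  obtain ⟨CB, hCB, hB⟩ := oEig_CB B
  refine ⟨C₂ * (CB * C * C₃ + 2 / r₀ * C₃ + 2), by positivity, ?_⟩
  intro V _ _ Mo htriv c v hv hc N hN
  obtain ⟨st, ip, lin, conj, pos, inv, skew⟩ := h1 G R P V Mo (oEig_U Mo v) (Mo.kfinite v)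
    (fun k => oEig_stab Mo v k)
  have h : oEig_Inv Mo (oEig_U Mo v) ip := ⟨fun k => oEig_stab Mo v k, st, lin, conj, pos, inv,
    skew⟩
  have hall := oEig_lap_all Mo B hc
  obtain ⟨Λ, hΛ⟩ : ∃ Λ : ℝ, Λ = CB * Real.sqrt c * C + 2 / r₀ := ⟨_, rfl⟩
  have hsc := Real.sqrt_nonneg c
  have hΛ0 : 0 ≤ Λ := by rw [hΛ]; positivity
  have hdist : ∀ k : R.K, 0 ≤ s.dist k := fun k => oEig_fro_nonneg _
  have hmain : ∀ k, ∀ x ∈ oEig_U Mo v, oEig_nu ip (Mo.kact k x - x) ≤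
      (0 + Λ * s.dist k) * oEig_nu ip x := by
    intro k x hx
    have hnx := oEig_nu_nonneg ip x
    have hdk := hdist k
    rw [zero_add]
    by_cases hk : s.dist k < r₀
    · obtain ⟨f, hf, X, hX, hkX, hXC⟩ := hnear k hk
      have hkk : k = f * ⟨P.gam X 1, P.gam_mem X hX 1⟩ := Subtype.ext hkX
      have e1 : Mo.kact k = Mo.kact ⟨P.gam X 1, P.gam_mem X hX 1⟩ := by
        rw [hkk, map_mul, htriv f hf, one_mul]
      rw [e1]
      refine (oEig_mv P h hX hx).trans ?_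
      refine (oEig_actbd B hCB hB h hx (hall x hx) hX).trans ?_
      have hfX := oEig_fro_nonneg X.1
      calc CB * Real.sqrt c * fro X.1 * oEig_nu ip x
          ≤ CB * Real.sqrt c * (C * s.dist k) * oEig_nu ip x := by gcongr
        _ = (CB * Real.sqrt c * C) * s.dist k * oEig_nu ip x := by ring
        _ ≤ Λ * s.dist k * oEig_nu ip x := by
          have : CB * Real.sqrt c * C ≤ Λ := by
            rw [hΛ]
            have : 0 ≤ 2 / r₀ := by positivity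
            linarith
          gcongr
    · push Not at hk
      refine (h.nu_sub (h.kst k x hx) hx).trans ?_
      rw [h.nu_k hx]
      have e2 : 2 ≤ Λ * s.dist k := by
        have e3 : 2 / r₀ * r₀ = 2 := by field_simp
        calc (2 : ℝ) = 2 / r₀ * r₀ := e3.symm
          _ ≤ Λ * s.dist k := by
            have : 2 / r₀ ≤ Λ := by
              rw [hΛ]
              have : 0 ≤ CB * Real.sqrt c * C := by positivity
              linarith
            gcongr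
      nlinarith
  obtain ⟨N', hN'⟩ : ∃ N' : ℕ, N' = ⌈Λ * C₃⌉₊ + 1 := ⟨_, rfl⟩
  have hN'1 : 1 ≤ N' := by omega
  have hN'0 : (0 : ℝ) < N' := by exact_mod_cast hN'1
  have hlt : Λ * C₃ < N' := by
    have := Nat.le_ceil (Λ * C₃)
    rw [hN']
    push_cast
    linarith
  obtain ⟨f, hfW, hf0, hf1, hfd⟩ := hker N' hN'1
  have hrec := h4 G R P s μ V Mo (oEig_U Mo v) (Mo.kfinite v) (fun k => oEig_stab Mo v k)
    (oEig_nu ip) (fun x hx y hy => h.nu_add hx hy) (fun c x hx => h.nu_smul hx c)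
    (fun x hx h0 => h.nu_pos hx h0) 0 Λ (C₃ / N') hΛ0 hmain (C₂ * N') f hfW hf0 hf1 hfd
    (by
      rw [zero_add, ← mul_div_assoc, div_lt_one hN'0]
      exact hlt) v (oEig_mem Mo v)
  obtain ⟨y, _, hy⟩ := hrec
  have hv' := (h5 G R P s μ V Mo).2 (C₂ * N') (fun k => (f k : ℂ)) hfW v y hy
  refine oEig_U_mono h6 s ?_ hv'
  have hceil : (⌈Λ * C₃⌉₊ : ℝ) < Λ * C₃ + 1 := Nat.ceil_lt_add_one (by positivity)
  have hfin : ((C₂ * N' : ℕ) : ℝ) ≤ N := by
    refine le_trans ?_ hN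
    rw [hN']
    push_cast
    rw [mul_assoc]
    have hC₂' : (0 : ℝ) ≤ C₂ := Nat.cast_nonneg _
    refine mul_le_mul_of_nonneg_left ?_ hC₂'
    have e4 : Λ * C₃ = CB * C * C₃ * Real.sqrt c + 2 / r₀ * C₃ := by rw [hΛ]; ring
    have e5 : 0 ≤ CB * C * C₃ := by positivity
    have e6 : 0 ≤ 2 / r₀ * C₃ * Real.sqrt c := by positivity
    nlinarith
  exact_mod_cast hfin

end Pool.Agent.H913.SG
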