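import Pool.Agent.H913.SG.Stmts2

/- PROJECT SG: MP_496a9e_al (owner helper913), the Sobolev gap is uniformly bounded. Paper proof: papers id 40 (verdict ok).
SETUP (once per box, about 2 minutes):
  cd /workdir/pool/outputs/live && git fetch -q origin && mkdir -p /workdir/pool/Pool/Agent/H913/SG && for f in Defs Calc Stmts Stmts2; do git show origin/helper913:Pool/Agent/H913/SG/$f.lean > /workdir/pool/Pool/Agent/H913/SG/$f.lean; done; cd /workdir/pool && lake build Pool.Agent.H913.SG.Stmts2
(ignore the sorry warnings of Defs.lean: these are another job.) Read the definitions used by the TARGET in these four files first.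
Put this file at Pool/Agent/H913/SG/OInner.lean, replace the sorry of the TARGET by a proof; auxiliary lemmas before it are
welcome (give them names starting with oInner_ to avoid clashes). Statement of the target unchanged. Hypotheses (h1 : S_xxx) of the target
are proved elsewhere, use them freely. No sorry, no axioms. Respect RULES.md Validity 2 (banned words such as notation,
macro, syntax, prefix, tactic; no straight double quotes; no line comment starting in odd places).
If the target is false or awkward, message helper913 at once (the statement will be fixed).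
Paste the whole compiled file in jobs.result with status='done', done_at=now(), then: team-sql notify inbox_helper913 done -/

open MeasureTheory Matrix NormedSpace
open scoped SchwartzMap ContDiff FourierTransform Matrix

universe u v

namespace Pool.Agent.H913.SG

/-! Proof. U finite-dimensional K-stable. (i) act X x ∈ U for X skew: if φ vanishes on U then φ(kact (gam X t) x) = 0 for all t so its derivative φ(act X x) at 0 is 0 (Mo.deriv with γ = P.gam X, P.gam_mem); functionals vanishing on U separate V/U. (ii) Take a basis b of U with coordinate functionals c_i extended to V, ip0 x y = ∑ conj(c_i x) c_i y, and average: ip x y = ∫_K ip0(kact k x, kact k y) dμ, μ Haar probability measure on the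
compact group K (P.compactK; borel σ-algebra; the measure is right invariant since K is compact, unimodular: or use ∫ g(k k₀) = ∫ g(k), Mathlib: Haar measure on compact groups is inner/right invariant, IsHaarMeasure + compact ⇒ μ.IsMulRightInvariant instance MeasureTheory.Measure... ; alternatively average with k⁻¹ : ip x y = ∫ ip0(kact k⁻¹ x, kact k⁻¹ y) dμ and use left invariance). Continuity of k ↦ c_i(kact k x):
Mo.kcont. Positivity: integrand continuous nonneg and positive (kact k injective so kact k x ≠ 0 in U). (iii) skew-adjointness: differentiate ip(kact(gam X t) x, kact(gam X t) y) = ip x y at t = 0: kact(gam X t)x is a differentiable curve in the finite-dimensional U with derivative act X x. -/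

/-- TARGET -/
theorem inner_exists : S_inner.{u} := by
  intro G _ _ _ _ _ R P V _ _ Mo U hfin hstab
  have := P.compactK
  -- stability under skew elements
  have hact : ∀ X : R.lie, R.IsSkew X → ∀ x ∈ U, Mo.act X x ∈ U := by
    intro X hX x hx
    by_contra hc
    obtain ⟨φ, hφ, hφU⟩ := Submodule.exists_le_ker_of_notMem hc
    have h1 := Mo.deriv X (P.gam X) (P.gam_spec X) (P.gam_mem X hX) x φ
    have h2 : (fun t : ℝ => φ (Mo.kact ⟨P.gam X t, P.gam_mem X hX t⟩ x)) = fun _ => 0 := by
      ext t
      exact hφU (hstab _ x hx)
    rw [h2] at h1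
    exact hφ (h1.unique (hasDerivAt_const _ _))
  refine ⟨hact, ?_⟩
  -- coordinates
  let b := Module.finBasis ℂ U
  have hc : ∀ i, ∃ c : V →ₗ[ℂ] ℂ, c ∘ₗ U.subtype = b.coord i := fun i =>
    LinearMap.exists_extend (b.coord i)
  choose c hc using hc
  let _ : MeasurableSpace R.K := borel R.K
  have : BorelSpace R.K := ⟨rfl⟩
  let μ : Measure R.K := Measure.haar
  let F : V → V → R.K → ℂ := fun x y k =>
    ∑ i, (starRingEnd ℂ) (c i (Mo.kact k x)) * c i (Mo.kact k y)
  have hFc : ∀ x y, Continuous (F x y) := fun x y =>
    continuous_finsetSum _ fun i _ =>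
      (Complex.continuous_conj.comp (Mo.kcont x (c i))).mul (Mo.kcont y (c i))
  have hFi : ∀ x y, Integrable (fun k : R.K => F x y k⁻¹) μ := fun x y =>
    ((hFc x y).comp continuous_inv).integrable_of_hasCompactSupport
      (HasCompactSupport.of_compactSpace _)
  have hFlin : ∀ x y z (a : ℂ) k, F x (a • y + z) k = a * F x y k + F x z k := by
    intro x y z a k
    simp only [F, map_add, map_smul, smul_eq_mul, Finset.mul_sum, ← Finset.sum_add_distrib]
    refine Finset.sum_congr rfl fun i _ => by ring
  have hFsymm : ∀ x y k, F y x k = (starRingEnd ℂ) (F x y k) := by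
    intro x y k
    simp only [F, map_sum, map_mul, Complex.conj_conj]
    refine Finset.sum_congr rfl fun i _ => by ring
  have hFmul : ∀ x y k k₀, F (Mo.kact k₀ x) (Mo.kact k₀ y) k = F x y (k * k₀) := by
    intro x y k k₀
    simp only [F, map_mul, Module.End.mul_apply]
  let ip : V → V → ℂ := fun x y => ∫ k, F x y k⁻¹ ∂μ
  have hlin : ∀ x y z (a : ℂ), ip x (a • y + z) = a * ip x y + ip x z := by
    intro x y z a
    simp only [ip, hFlin]
    rw [integral_add ((hFi x y).const_mul a) (hFi x z), integral_const_mul]
  have hsymm : ∀ x y, ip y x = (starRingEnd ℂ) (ip x y) := by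
    intro x y
    simp only [ip]
    rw [← integral_conj]
    exact integral_congr_ae (Filter.Eventually.of_forall fun k => hFsymm x y _)
  have hinv : ∀ k x y, ip (Mo.kact k x) (Mo.kact k y) = ip x y := by
    intro k₀ x y
    simp only [ip, hFmul]
    have h1 := integral_mul_left_eq_self (μ := μ) (fun k => F x y k⁻¹) k₀⁻¹
    rw [← h1]
    refine integral_congr_ae (Filter.Eventually.of_forall fun k => ?_)
    simp only [_root_.mul_inv_rev, _root_.inv_inv]
  refine ⟨ip, fun x _ y _ z _ a => hlin x y z a, fun x _ y _ => hsymm x y, ?_,
    fun k x _ y _ => hinv k x y, ?_⟩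
  · intro x hx hx0
    have hre : (ip x x).re = ∫ k, (F x x k⁻¹).re ∂μ := (integral_re (hFi x x)).symm
    rw [hre]
    have hFre : ∀ k, (F x x k).re = ∑ i, Complex.normSq (c i (Mo.kact k x)) := by
      intro k
      simp only [F, Complex.re_sum]
      refine Finset.sum_congr rfl fun i _ => ?_
      rw [← Complex.normSq_eq_conj_mul_self, Complex.ofReal_re]
    have hcont : Continuous fun k : R.K => (F x x k⁻¹).re :=
      Complex.continuous_re.comp ((hFc x x).comp continuous_inv)
    refine hcont.integral_pos_of_hasCompactSupport_nonneg_nonzero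
      (HasCompactSupport.of_compactSpace _) (fun k => ?_) (x := 1) ?_
    · simp only [hFre]
      exact Finset.sum_nonneg fun i _ => Complex.normSq_nonneg _
    · simp only [hFre, inv_one, map_one, Module.End.one_apply]
      intro h0
      apply hx0
      have h1 : ∀ i, c i x = 0 := by
        intro i
        have := (Finset.sum_eq_zero_iff_of_nonneg fun i _ => Complex.normSq_nonneg (c i x)).1 h0 i
          (Finset.mem_univ i)
        exact Complex.normSq_eq_zero.1 this
      have h2 : (⟨x, hx⟩ : U) = 0 := by
        apply b.ext_elem
        intro i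
        have h3 := LinearMap.congr_fun (hc i) ⟨x, hx⟩
        simp only [LinearMap.comp_apply, Submodule.subtype_apply, Module.Basis.coord_apply] at h3
        rw [← h3, h1 i]
        simp
      exact congrArg Subtype.val h2
  · intro X hX x _ y _
    have hone : P.gam X 0 = 1 := by
      have h1 := (P.gam_spec X).2.1 0 0
      rw [add_zero] at h1
      exact mul_eq_left.1 h1.symm
    let φ : V → V →ₗ[ℂ] ℂ := fun z =>
      { toFun := fun y => ip z y
        map_add' := fun y y' => by simpa using hlin z y y' 1
        map_smul' := fun a y => by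
          have h0 : ip z 0 = 0 := by simpa using hlin z 0 0 (-1)
          simpa [h0] using hlin z y 0 a }
    have h1 := Mo.deriv X (P.gam X) (P.gam_spec X) (P.gam_mem X hX) x (φ y)
    have h2 := Mo.deriv X (P.gam X) (P.gam_spec X) (P.gam_mem X hX) y (φ x)
    have h3 : HasDerivAt (fun t : ℝ => ip (Mo.kact ⟨P.gam X t, P.gam_mem X hX t⟩ x) y)
        (ip (Mo.act X x) y) 0 := by
      have h4 := h1.star
      have h5 : ∀ z, ip z y = star (φ y z) := fun z => hsymm y z
      simp only [h5]
      exact h4
    have h6 : HasDerivAt (fun t : ℝ => ip x (Mo.kact ⟨P.gam X (-t), P.gam_mem X hX (-t)⟩ y))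
        (-(ip x (Mo.act X y))) 0 := by
      have h7 : HasDerivAt (fun t : ℝ => -t) (-1) 0 := (hasDerivAt_id (0 : ℝ)).neg
      have h2' : HasDerivAt (fun t : ℝ => (φ x) (Mo.kact ⟨P.gam X t, P.gam_mem X hX t⟩ y))
        ((φ x) (Mo.act X y)) (-0) := by rw [neg_zero]; exact h2
      have h8 := h2'.scomp (0 : ℝ) h7
      rw [neg_one_smul] at h8
      exact h8
    have h9 : (fun t : ℝ => ip (Mo.kact ⟨P.gam X t, P.gam_mem X hX t⟩ x) y) =
        fun t : ℝ => ip x (Mo.kact ⟨P.gam X (-t), P.gam_mem X hX (-t)⟩ y) := by
      ext t
      rw [← hinv ⟨P.gam X (-t), P.gam_mem X hX (-t)⟩, ← Module.End.mul_apply, ← map_mul]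
      have h10 : (⟨P.gam X (-t), P.gam_mem X hX (-t)⟩ : R.K) * ⟨P.gam X t, P.gam_mem X hX t⟩ = 1 := by
        apply Subtype.ext
        change P.gam X (-t) * P.gam X t = 1
        rw [← (P.gam_spec X).2.1, neg_add_cancel, hone]
      rw [h10, map_one, Module.End.one_apply]
    rw [h9] at h3
    exact h3.unique h6

end Pool.Agent.H913.SG
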