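import Pool.Agent.H913.SG.Stmts2

open MeasureTheory Matrix NormedSpace
open scoped SchwartzMap ContDiff FourierTransform Matrix

universe u v

namespace Pool.Agent.H913.SG

section oProj_general

variable {K : Type*} [Group K] [TopologicalSpace K] [IsTopologicalGroup K] [CompactSpace K]
  [MeasurableSpace K] [BorelSpace K] (μ : Measure K) [μ.IsHaarMeasure] [IsProbabilityMeasure μ]

theorem oProj_map_right (g : K) : μ.map (· * g) = μ := by
  have hm : Measurable (fun x : K => x * g) := measurable_mul_const g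
  have : IsProbabilityMeasure (μ.map (· * g)) :=
    Measure.isProbabilityMeasure_map hm.aemeasurable
  have h := Measure.isMulInvariant_eq_smul_of_compactSpace (μ.map (· * g)) μ
  have h2 : (μ.map (· * g)) Set.univ =
      (Measure.haarScalarFactor (μ.map (· * g)) μ • μ) Set.univ := by rw [← h]
  rw [measure_univ, Measure.smul_apply, measure_univ, ENNReal.smul_def, smul_eq_mul, mul_one] at h2
  have h3 : Measure.haarScalarFactor (μ.map (· * g)) μ = 1 := by
    exact_mod_cast h2.symm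
  rw [h3, one_smul] at h
  exact h

theorem oProj_integral_right {E : Type*} [NormedAddCommGroup E] [NormedSpace ℝ E] (f : K → E)
    (g : K) : ∫ k, f (k * g) ∂μ = ∫ k, f k ∂μ := by
  conv_rhs => rw [← oProj_map_right μ g]
  have := (MeasurableEquiv.mulRight g).measurableEmbedding.integral_map (μ := μ) f
  exact this.symm

/-- the inclusion of a space of continuous functions -/
def oProj_toC (W : Submodule ℂ (K → ℂ)) (hcont : ∀ F ∈ W, Continuous F) : W →ₗ[ℂ] C(K, ℂ) where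
  toFun F := ⟨F.1, hcont F.1 F.2⟩
  map_add' _ _ := rfl
  map_smul' _ _ := rfl

omit [IsTopologicalGroup K] [IsProbabilityMeasure μ] in
theorem oProj_int_of_cont {f : K → ℝ} (hf : Continuous f) : Integrable f μ :=
  hf.integrable_of_hasCompactSupport (HasCompactSupport.of_compactSpace f)

omit [IsTopologicalGroup K] [IsProbabilityMeasure μ] in
theorem oProj_int_of_contC {f : K → ℂ} (hf : Continuous f) : Integrable f μ :=
  hf.integrable_of_hasCompactSupport (HasCompactSupport.of_compactSpace f)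

omit [Group K] [IsTopologicalGroup K] [μ.IsHaarMeasure] in
theorem oProj_norm_sq (f : C(K, ℂ)) :
    ‖ContinuousMap.toLp (E := ℂ) 2 μ ℂ f‖ ^ 2 = ∫ k, ‖f k‖ ^ 2 ∂μ := by
  have h := ContinuousMap.inner_toLp (𝕜 := ℂ) (μ := μ) f f
  have h2 := inner_self_eq_norm_sq_to_K (𝕜 := ℂ) (ContinuousMap.toLp (E := ℂ) 2 μ ℂ f)
  rw [h2] at h
  have h3 : ∫ k, f k * (starRingEnd ℂ) (f k) ∂μ = ((∫ k, ‖f k‖ ^ 2 ∂μ : ℝ) : ℂ) := by
    rw [← integral_complex_ofReal]
    refine integral_congr_ae (Filter.Eventually.of_forall fun k => ?_)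
    simp only
    rw [Complex.mul_conj, Complex.normSq_eq_norm_sq]
  rw [h3] at h
  apply Complex.ofReal_injective
  rw [← h]
  simp

theorem oProj_eval (W : Submodule ℂ (K → ℂ)) [hfin : FiniteDimensional ℂ W]
    (hcont : ∀ F ∈ W, Continuous F) (hleft : ∀ F ∈ W, ∀ x : K, (fun k => F (x * k)) ∈ W)
    (F : K → ℂ) (hF : F ∈ W) :
    ‖F 1‖ ^ 2 ≤ (Module.finrank ℂ W : ℝ) * ∫ k, ‖F k‖ ^ 2 ∂μ := by
  classical
  let T : W →ₗ[ℂ] Lp ℂ 2 μ :=
    (ContinuousMap.toLp (E := ℂ) 2 μ ℂ).toLinearMap ∘ₗ oProj_toC W hcont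
  have hTn : ∀ F : W, ‖T F‖ ^ 2 = ∫ k, ‖F.1 k‖ ^ 2 ∂μ := fun F => oProj_norm_sq μ _
  have hTinj : Function.Injective T := by
    intro a b hab
    have h1 : oProj_toC W hcont a = oProj_toC W hcont b :=
      ContinuousMap.toLp_injective (𝕜 := ℂ) (E := ℂ) (p := 2) μ hab
    apply Subtype.ext
    funext k
    exact congrArg (fun c : C(K, ℂ) => c k) h1
  let S := LinearMap.range T
  let eT : W ≃ₗ[ℂ] S := LinearEquiv.ofInjective T hTinj
  let b := stdOrthonormalBasis ℂ S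
  let e : Fin (Module.finrank ℂ S) → W := fun i => eT.symm (b i)
  have he : ∀ i, T (e i) = (b i : Lp ℂ 2 μ) := by
    intro i
    have : eT (e i) = b i := eT.apply_symm_apply _
    exact congrArg Subtype.val this
  let SS : K → ℝ := fun x => ∑ i, ‖(e i).1 x‖ ^ 2
  -- general bound
  have hb : ∀ (F : W) (x : K), ‖F.1 x‖ ^ 2 ≤ (∫ k, ‖F.1 k‖ ^ 2 ∂μ) * SS x := by
    intro F x
    have h1 : F = ∑ i, (inner ℂ (b i) (eT F)) • e i := by
      apply eT.injective
      rw [map_sum]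
      conv_lhs => rw [← b.sum_repr (eT F)]
      refine Finset.sum_congr rfl fun i _ => ?_
      rw [map_smul, b.repr_apply_apply]
      congr 1
      exact (eT.apply_symm_apply _).symm
    have h2 : F.1 x = ∑ i, (inner ℂ (b i) (eT F)) * (e i).1 x := by
      conv_lhs => rw [h1]
      simp [Finset.sum_apply]
    have h3 : ∑ i, ‖(inner ℂ (b i) (eT F) : ℂ)‖ ^ 2 = ∫ k, ‖F.1 k‖ ^ 2 ∂μ := by
      rw [b.sum_sq_norm_inner_right, ← hTn]
      rfl
    calc ‖F.1 x‖ ^ 2 ≤ (∑ i, ‖(inner ℂ (b i) (eT F) : ℂ)‖ * ‖(e i).1 x‖) ^ 2 := by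
          rw [h2]
          refine pow_le_pow_left₀ (norm_nonneg _) ((norm_sum_le _ _).trans (le_of_eq ?_)) 2
          exact Finset.sum_congr rfl fun i _ => norm_mul _ _
      _ ≤ (∑ i, ‖(inner ℂ (b i) (eT F) : ℂ)‖ ^ 2) * ∑ i, ‖(e i).1 x‖ ^ 2 :=
          Finset.sum_mul_sq_le_sq_mul_sq _ _ _
      _ = _ := by rw [h3]
  have hSS0 : ∀ x, 0 ≤ SS x := fun x => Finset.sum_nonneg fun i _ => sq_nonneg _
  have hSScont : Continuous SS :=
    continuous_finsetSum _ fun i _ => ((hcont _ (e i).2).norm).pow 2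
  -- constancy
  have hconst : ∀ x, SS 1 ≤ SS x := by
    intro x
    rcases (hSS0 1).eq_or_lt with h0 | h0
    · rw [← h0]
      exact hSS0 x
    let F : W := ∑ i, (starRingEnd ℂ ((e i).1 1)) • e i
    have hF1 : F.1 1 = (SS 1 : ℂ) := by
      simp only [F, SS, Submodule.coe_sum, Finset.sum_apply, Submodule.coe_smul, Pi.smul_apply,
        smul_eq_mul, Complex.ofReal_sum]
      refine Finset.sum_congr rfl fun i _ => ?_
      rw [mul_comm, Complex.mul_conj, Complex.normSq_eq_norm_sq]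
    have hFn : ∫ k, ‖F.1 k‖ ^ 2 ∂μ = SS 1 := by
      rw [← hTn]
      have h1 : eT F = ∑ i, (starRingEnd ℂ ((e i).1 1)) • b i := by
        simp only [F, map_sum, map_smul]
        refine Finset.sum_congr rfl fun i _ => ?_
        congr 1
        exact eT.apply_symm_apply _
      have h2 : ‖T F‖ = ‖eT F‖ := rfl
      rw [h2, ← b.sum_sq_norm_inner_right (eT F)]
      refine Finset.sum_congr rfl fun i _ => ?_
      have h5 : inner ℂ (b i) (eT F) = (starRingEnd ℂ) ((e i).1 1) := by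
        rw [h1]
        exact b.orthonormal.inner_right_fintype _ i
      rw [h5, RCLike.norm_conj]
    let H : W := ⟨fun k => F.1 (x⁻¹ * k), hleft _ F.2 _⟩
    have hHn : ∫ k, ‖H.1 k‖ ^ 2 ∂μ = SS 1 := by
      rw [← hFn]
      exact integral_mul_left_eq_self (μ := μ) (fun k => ‖F.1 k‖ ^ 2) x⁻¹
    have h3 := hb H x
    have h4 : H.1 x = (SS 1 : ℂ) := by
      show F.1 (x⁻¹ * x) = _
      rw [inv_mul_cancel, hF1]
    rw [h4, hHn, Complex.norm_real, Real.norm_of_nonneg (hSS0 1), sq] at h3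
    exact le_of_mul_le_mul_left h3 h0
  have hint : ∫ x, SS x ∂μ = Module.finrank ℂ S := by
    show ∫ x, ∑ i, ‖(e i).1 x‖ ^ 2 ∂μ = _
    rw [integral_finsetSum _ fun i _ => oProj_int_of_cont μ (f := fun x => ‖(e i).1 x‖ ^ 2)
      (((hcont _ (e i).2).norm).pow 2)]
    have : ∀ i, ∫ x, ‖(e i).1 x‖ ^ 2 ∂μ = 1 := by
      intro i
      rw [← hTn, he]
      have : ‖(b i : Lp ℂ 2 μ)‖ = ‖b i‖ := rfl
      rw [this, b.norm_eq_one, one_pow]
    simp [this]
  have hrank : Module.finrank ℂ S = Module.finrank ℂ W := (LinearEquiv.finrank_eq eT).symm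
  have h1 : SS 1 ≤ Module.finrank ℂ W := by
    rw [← hrank, ← hint]
    calc SS 1 = ∫ _x : K, SS 1 ∂μ := by simp
      _ ≤ ∫ x, SS x ∂μ := integral_mono (integrable_const _) (oProj_int_of_cont μ hSScont) hconst
  calc ‖F 1‖ ^ 2 ≤ (∫ k, ‖F k‖ ^ 2 ∂μ) * SS 1 := hb ⟨F, hF⟩ 1
    _ ≤ (∫ k, ‖F k‖ ^ 2 ∂μ) * Module.finrank ℂ W :=
        mul_le_mul_of_nonneg_left h1 (integral_nonneg fun k => sq_nonneg _)
    _ = _ := mul_comm _ _

end oProj_general

/-- TARGET 1 -/
theorem evalW (h1 : S_W) : S_evalW := by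
  intro G _ _ _ _ _ R P s _ _ μ _ _ N F hF
  have hK : CompactSpace R.K := P.compactK
  obtain ⟨_, _, hcont, _, _, htr, _, hfd, hrank, _⟩ := h1 G R s
  have := hfd N
  refine (oProj_eval μ (s.W N) (fun F hF => hcont N F hF) (fun F hF x => (htr N F x hF).1)
    F hF).trans ?_
  refine mul_le_mul_of_nonneg_right ?_ (integral_nonneg fun k => sq_nonneg _)
  exact_mod_cast hrank N


section oProj_form

variable {G : Type} [Group G] [TopologicalSpace G] [IsTopologicalGroup G] {R : RealReductive G}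
  [CompactSpace R.K] [MeasurableSpace R.K] [BorelSpace R.K] (μ : Measure R.K) [μ.IsHaarMeasure]
  [IsProbabilityMeasure μ]
  {V : Type u} [AddCommGroup V] [Module ℂ V] (Mo : HCModule R V) (φ : V →ₗ[ℂ] ℂ)

omit [IsTopologicalGroup G] [IsProbabilityMeasure μ] in
theorem oProj_int (u v : V) : Integrable (fun k : R.K =>
    φ (Mo.kact k u) * (starRingEnd ℂ) (φ (Mo.kact k v))) μ := by
  have h : Continuous (fun k : R.K => φ (Mo.kact k u) * (starRingEnd ℂ) (φ (Mo.kact k v))) :=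
    (Mo.kcont u φ).mul (Complex.continuous_conj.comp (Mo.kcont v φ))
  exact h.integrable_of_hasCompactSupport (HasCompactSupport.of_compactSpace _)

/-- the sesquilinear form, linear in its argument -/
noncomputable def oProj_form (v : V) : V →ₗ[ℂ] ℂ where
  toFun u := ∫ k, φ (Mo.kact k u) * (starRingEnd ℂ) (φ (Mo.kact k v)) ∂μ
  map_add' a b := by
    rw [← integral_add (oProj_int μ Mo φ a v) (oProj_int μ Mo φ b v)]
    refine integral_congr_ae (Filter.Eventually.of_forall fun k => ?_)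
    simp only [map_add]
    ring
  map_smul' c a := by
    rw [RingHom.id_apply, smul_eq_mul, ← integral_const_mul]
    refine integral_congr_ae (Filter.Eventually.of_forall fun k => ?_)
    simp only [map_smul, smul_eq_mul]
    ring

omit [IsTopologicalGroup G] [IsProbabilityMeasure μ] in
theorem oProj_form_apply (u v : V) : oProj_form μ Mo φ v u =
    ∫ k, φ (Mo.kact k u) * (starRingEnd ℂ) (φ (Mo.kact k v)) ∂μ := rfl

omit [IsTopologicalGroup G] [IsProbabilityMeasure μ] in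
theorem oProj_form_conj (u v : V) :
    (starRingEnd ℂ) (oProj_form μ Mo φ v u) = oProj_form μ Mo φ u v := by
  rw [oProj_form_apply, oProj_form_apply, ← integral_conj]
  refine integral_congr_ae (Filter.Eventually.of_forall fun k => ?_)
  simp only [map_mul, Complex.conj_conj]
  ring

theorem oProj_form_inv (u v : V) (h : R.K) :
    oProj_form μ Mo φ v (Mo.kact h u) = oProj_form μ Mo φ (Mo.kact h⁻¹ v) u := by
  rw [oProj_form_apply, oProj_form_apply,
    ← oProj_integral_right μ (fun k => φ (Mo.kact k u) *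
      (starRingEnd ℂ) (φ (Mo.kact k (Mo.kact h⁻¹ v)))) h]
  refine integral_congr_ae (Filter.Eventually.of_forall fun k => ?_)
  have e1 : Mo.kact (k * h) u = Mo.kact k (Mo.kact h u) := by
    rw [map_mul]; rfl
  have e2 : Mo.kact (k * h) (Mo.kact h⁻¹ v) = Mo.kact k v := by
    have : Mo.kact (k * h) (Mo.kact h⁻¹ v) = (Mo.kact (k * h) * Mo.kact h⁻¹) v := rfl
    rw [this, ← map_mul, mul_assoc, mul_inv_cancel, mul_one]
  simp only [e1, e2]

theorem oProj_form_skew (P : Pack R) (X : R.lie) (hX : R.IsSkew X) (u v : V) :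
    oProj_form μ Mo φ v (Mo.act X u) = - oProj_form μ Mo φ (Mo.act X v) u := by
  have hγ := P.gam_spec X
  have hm := P.gam_mem X hX
  obtain ⟨_, hadd, _⟩ := hγ
  have h0 : P.gam X 0 = 1 := by
    have := hadd 0 0
    rw [add_zero] at this
    exact (mul_eq_left.1 this.symm)
  have hinv : ∀ t, (⟨P.gam X t, hm t⟩ : R.K)⁻¹ = ⟨P.gam X (-t), hm (-t)⟩ := by
    intro t
    rw [inv_eq_iff_mul_eq_one]
    apply Subtype.ext
    show P.gam X t * P.gam X (-t) = 1
    rw [← hadd, add_neg_cancel, h0]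
  have d1 := Mo.deriv X (P.gam X) (P.gam_spec X) hm u (oProj_form μ Mo φ v)
  have d2 := Mo.deriv X (P.gam X) (P.gam_spec X) hm v (oProj_form μ Mo φ u)
  have d2' : HasDerivAt (fun t : ℝ => oProj_form μ Mo φ u (Mo.kact ⟨P.gam X (-t), hm (-t)⟩ v))
      (- oProj_form μ Mo φ u (Mo.act X v)) 0 := by
    have h1 : HasDerivAt (fun t : ℝ => -t) (-1) (0 : ℝ) := hasDerivAt_neg 0
    have h2 : HasDerivAt (fun t : ℝ => oProj_form μ Mo φ u (Mo.kact ⟨P.gam X t, hm t⟩ v))
      (oProj_form μ Mo φ u (Mo.act X v)) (-0) := by rw [neg_zero]; exact d2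
    have h3 := h2.scomp 0 h1
    rw [neg_one_smul] at h3
    exact h3
  have d3 : HasDerivAt (fun t : ℝ => (starRingEnd ℂ) (oProj_form μ Mo φ u
      (Mo.kact ⟨P.gam X (-t), hm (-t)⟩ v)))
      ((starRingEnd ℂ) (- oProj_form μ Mo φ u (Mo.act X v))) 0 := by
    have := (Complex.conjCLE.toContinuousLinearMap.hasFDerivAt
      (x := oProj_form μ Mo φ u (Mo.kact ⟨P.gam X (-0), hm (-0)⟩ v))).comp_hasDerivAt 0 d2'
    exact this
  have heq : (fun t : ℝ => oProj_form μ Mo φ v (Mo.kact ⟨P.gam X t, hm t⟩ u)) =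
      (fun t : ℝ => (starRingEnd ℂ) (oProj_form μ Mo φ u
      (Mo.kact ⟨P.gam X (-t), hm (-t)⟩ v))) := by
    funext t
    rw [oProj_form_inv, hinv, oProj_form_conj]
  rw [heq] at d1
  have h4 := d1.unique d3
  rw [h4, map_neg, oProj_form_conj]

theorem oProj_form_lap (P : Pack R) (B : R.InvBasis) (x y : V) :
    oProj_form μ Mo φ y (lap Mo B x) = oProj_form μ Mo φ (lap Mo B y) x := by
  have key : ∀ x y : V, oProj_form μ Mo φ y (lap Mo B x) =
      ∑ i, oProj_form μ Mo φ (Mo.act (B.b i) y) (Mo.act (B.b i) x) := by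
    intro x y
    have h1 : lap Mo B x = - ∑ i, Mo.act (B.b i) (Mo.act (B.b i) x) := by
      simp [lap, LinearMap.neg_apply, LinearMap.sum_apply]
    rw [h1, map_neg, map_sum, ← Finset.sum_neg_distrib]
    refine Finset.sum_congr rfl fun i _ => ?_
    rw [oProj_form_skew μ Mo φ P (B.b i) (B.skew i), neg_neg]
  rw [key, ← oProj_form_conj, key, map_sum]
  exact Finset.sum_congr rfl fun i _ => (oProj_form_conj μ Mo φ _ _).symm

theorem oProj_orth (P : Pack R) (B : R.InvBasis) (x y : V) (c c' : ℝ)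
    (hx : lap Mo B x = (c : ℂ) • x) (hy : lap Mo B y = (c' : ℂ) • y) (hc : c ≠ c') :
    oProj_form μ Mo φ y x = 0 := by
  have h := oProj_form_lap μ Mo φ P B x y
  rw [← oProj_form_conj μ Mo φ (lap Mo B y) x, hx, hy, map_smul, map_smul, smul_eq_mul,
    smul_eq_mul, map_mul, Complex.conj_ofReal, oProj_form_conj] at h
  have h2 : ((c : ℂ) - c') * oProj_form μ Mo φ y x = 0 := by
    rw [sub_mul, h, sub_self]
  rcases mul_eq_zero.1 h2 with h3 | h3
  · exact absurd (by exact_mod_cast sub_eq_zero.1 h3) hc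
  · exact h3

end oProj_form

/-- TARGET 2 -/
theorem orth : S_orth.{u} := by
  intro G _ _ _ _ _ R P B _ _ μ _ _ V _ _ Mo φ x y c c' hx hy hc
  have hK : CompactSpace R.K := P.compactK
  exact oProj_orth μ Mo φ P B x y c c' hx hy hc

section oProj_haar

variable {K : Type*} [Group K] [TopologicalSpace K] [IsTopologicalGroup K] [CompactSpace K]
  [MeasurableSpace K] [BorelSpace K]

theorem oProj_exists_haar : ∃ μ : Measure K, μ.IsHaarMeasure ∧ IsProbabilityMeasure μ := by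
  refine ⟨Measure.haarMeasure ⊤, inferInstance, ⟨?_⟩⟩
  have h := Measure.haarMeasure_self (K₀ := (⊤ : TopologicalSpace.PositiveCompacts K))
  simpa using h

end oProj_haar

section oProj_pos

variable {G : Type} [Group G] [TopologicalSpace G] [IsTopologicalGroup G] {R : RealReductive G}
  [CompactSpace R.K] [MeasurableSpace R.K] [BorelSpace R.K] (μ : Measure R.K) [μ.IsHaarMeasure]
  [IsProbabilityMeasure μ]
  {V : Type u} [AddCommGroup V] [Module ℂ V] (Mo : HCModule R V) (φ : V →ₗ[ℂ] ℂ)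

omit [IsTopologicalGroup G] [IsProbabilityMeasure μ] in
theorem oProj_form_self (v : V) : oProj_form μ Mo φ v v =
    ((∫ k, ‖φ (Mo.kact k v)‖ ^ 2 ∂μ : ℝ) : ℂ) := by
  rw [oProj_form_apply, ← integral_complex_ofReal]
  refine integral_congr_ae (Filter.Eventually.of_forall fun k => ?_)
  simp only
  rw [Complex.mul_conj, Complex.normSq_eq_norm_sq]

omit [IsTopologicalGroup G] [IsProbabilityMeasure μ] in
theorem oProj_form_pos (v : V) (hv : φ v ≠ 0) : 0 < ∫ k, ‖φ (Mo.kact k v)‖ ^ 2 ∂μ := by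
  have hc : Continuous (fun k : R.K => ‖φ (Mo.kact k v)‖ ^ 2) := (Mo.kcont v φ).norm.pow 2
  refine hc.integral_pos_of_hasCompactSupport_nonneg_nonzero (HasCompactSupport.of_compactSpace _)
    (fun k => sq_nonneg _) (x := 1) ?_
  rw [map_one]
  simpa using hv

/-- Parseval for a finite sum of eigenvectors. -/
theorem oProj_parseval (P : Pack R) (B : R.InvBasis) (f : ℝ →₀ V)
    (hf : ∀ c, lap Mo B (f c) = (c : ℂ) • f c) :
    ∫ k, ‖φ (Mo.kact k (f.sum fun _ x => x))‖ ^ 2 ∂μ =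
      ∑ c ∈ f.support, ∫ k, ‖φ (Mo.kact k (f c))‖ ^ 2 ∂μ := by
  classical
  apply Complex.ofReal_injective
  rw [← oProj_form_self μ Mo φ, Complex.ofReal_sum]
  have h1 : ∀ c ∈ f.support, oProj_form μ Mo φ (f c) (f.sum fun _ x => x) =
      oProj_form μ Mo φ (f c) (f c) := by
    intro c hc
    rw [Finsupp.sum, map_sum, Finset.sum_eq_single c]
    · intro c' _ hc'
      exact oProj_orth μ Mo φ P B (f c') (f c) c' c (hf c') (hf c) hc'
    · intro h; exact absurd hc h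
  have h0 : oProj_form μ Mo φ (f.sum fun _ x => x) (f.sum fun _ x => x) =
      ∑ c ∈ f.support, oProj_form μ Mo φ (f.sum fun _ x => x) (f c) :=
    map_sum (oProj_form μ Mo φ (f.sum fun _ x => x)) _ _
  rw [h0]
  refine Finset.sum_congr rfl fun c hc => ?_
  have h2 := h1 c hc
  rw [← oProj_form_self μ Mo φ (f c), ← oProj_form_conj, h2, oProj_form_conj]

end oProj_pos

theorem oProj_weight_bound {G : Type} [Group G] [TopologicalSpace G] (R : RealReductive G)
    [CompactSpace R.K] (w : G → ℝ) (hw : IsWeight w) : ∃ C : ℝ, 0 ≤ C ∧ ∀ k : R.K, w k.1 ≤ C := by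
  have h : ∃ C : ℝ, ∀ k ∈ (Set.univ : Set R.K), w k.1 ≤ C := by
    refine (isCompact_univ : IsCompact (Set.univ : Set R.K)).induction_on
      (p := fun S => ∃ C : ℝ, ∀ k ∈ S, w k.1 ≤ C) ⟨0, fun k hk => absurd hk (Set.notMem_empty _)⟩
      ?_ ?_ ?_
    · rintro s t hst ⟨C, hC⟩
      exact ⟨C, fun k hk => hC k (hst hk)⟩
    · rintro s t ⟨C, hC⟩ ⟨C', hC'⟩
      refine ⟨max C C', fun k hk => ?_⟩
      rcases hk with hk | hk
      · exact (hC k hk).trans (le_max_left _ _)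
      · exact (hC' k hk).trans (le_max_right _ _)
    · intro x _
      obtain ⟨U, hU, C, hC⟩ := hw.locally_bounded x.1
      refine ⟨Subtype.val ⁻¹' U, mem_nhdsWithin_of_mem_nhds
        (continuous_subtype_val.continuousAt.preimage_mem_nhds hU), C, fun k hk => hC _ hk⟩
  obtain ⟨C, hC⟩ := h
  exact ⟨max C 0, le_max_right _ _, fun k => (hC k (Set.mem_univ _)).trans (le_max_left _ _)⟩

/-- TARGET 3 -/
theorem proj (h1 : S_evalW) (h2 : S_orth.{u}) : S_proj.{u,v} := by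
  intro G _ _ _ _ _ R P s B w hw
  have hK : CompactSpace R.K := P.compactK
  obtain ⟨CK, hCK0, hCK⟩ := oProj_weight_bound R w hw
  refine ⟨CK, hCK0, ?_⟩
  intro V _ _ Mo _ E _ _ _ Gl f hf c N hfc
  let _ : MeasurableSpace R.K := borel R.K
  have _ : BorelSpace R.K := ⟨rfl⟩
  obtain ⟨μ, _, _⟩ := oProj_exists_haar (K := R.K)
  set x : V := f.sum fun _ x => x with hx
  have hA1 : (1 : ℝ) ≤ (N + 1 : ℝ) ^ (s.n' ^ 2) := one_le_pow₀ (by
    have : (0 : ℝ) ≤ N := Nat.cast_nonneg N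
    linarith)
  by_cases hc : c ∈ f.support
  swap
  · rw [Finsupp.notMem_support_iff.1 hc, map_zero, norm_zero]
    positivity
  obtain ⟨l, hl1, hl2⟩ := exists_dual_vector'' ℂ (Gl.ι (f c))
  let φ : V →ₗ[ℂ] ℂ := l.toLinearMap ∘ₗ Gl.ι
  have hφ : ∀ v, φ v = l (Gl.ι v) := fun v => rfl
  have e1 := h1 G R P s μ N (fun k => φ (Mo.kact k (f c))) (hfc φ)
  have e2 : ‖φ (Mo.kact 1 (f c))‖ = ‖Gl.ι (f c)‖ := by
    rw [map_one]
    show ‖l (Gl.ι (f c))‖ = _
    rw [hl2]
    simp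
  have e3 : ∫ k, ‖φ (Mo.kact k (f c))‖ ^ 2 ∂μ ≤ ∫ k, ‖φ (Mo.kact k x)‖ ^ 2 ∂μ := by
    rw [hx, oProj_parseval μ Mo φ P B f hf]
    exact Finset.single_le_sum (f := fun c => ∫ k, ‖φ (Mo.kact k (f c))‖ ^ 2 ∂μ)
      (fun i _ => integral_nonneg fun k => sq_nonneg _) hc
  have e4 : ∫ k, ‖φ (Mo.kact k x)‖ ^ 2 ∂μ ≤ (CK * ‖Gl.ι x‖) ^ 2 := by
    have hpt : ∀ k : R.K, ‖φ (Mo.kact k x)‖ ^ 2 ≤ (CK * ‖Gl.ι x‖) ^ 2 := by
      intro k
      refine pow_le_pow_left₀ (norm_nonneg _) ?_ 2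
      rw [hφ, ← Gl.kcomp]
      calc ‖l (Gl.π k.1 (Gl.ι x))‖ ≤ ‖l‖ * ‖Gl.π k.1 (Gl.ι x)‖ := l.le_opNorm _
        _ ≤ 1 * ‖Gl.π k.1 (Gl.ι x)‖ := mul_le_mul_of_nonneg_right hl1 (norm_nonneg _)
        _ = ‖Gl.π k.1 (Gl.ι x)‖ := one_mul _
        _ ≤ ‖Gl.π k.1‖ * ‖Gl.ι x‖ := (Gl.π k.1).le_opNorm _
        _ ≤ CK * ‖Gl.ι x‖ :=
          mul_le_mul_of_nonneg_right ((Gl.bound k.1).trans (hCK k)) (norm_nonneg _)
    calc ∫ k, ‖φ (Mo.kact k x)‖ ^ 2 ∂μ ≤ ∫ _k : R.K, (CK * ‖Gl.ι x‖) ^ 2 ∂μ :=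
          integral_mono (oProj_int_of_cont μ ((Mo.kcont x φ).norm.pow 2)) (integrable_const _) hpt
      _ = (CK * ‖Gl.ι x‖) ^ 2 := by simp
  have e5 : ‖Gl.ι (f c)‖ ^ 2 ≤ (CK * (N + 1 : ℝ) ^ (s.n' ^ 2) * ‖Gl.ι x‖) ^ 2 := by
    rw [← e2]
    refine e1.trans ?_
    calc (N + 1 : ℝ) ^ (s.n' ^ 2) * ∫ k, ‖φ (Mo.kact k (f c))‖ ^ 2 ∂μ
        ≤ (N + 1 : ℝ) ^ (s.n' ^ 2) * (CK * ‖Gl.ι x‖) ^ 2 :=
          mul_le_mul_of_nonneg_left (e3.trans e4) (by positivity)
      _ ≤ ((N + 1 : ℝ) ^ (s.n' ^ 2)) ^ 2 * (CK * ‖Gl.ι x‖) ^ 2 :=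
          mul_le_mul_of_nonneg_right (le_self_pow₀ hA1 (by norm_num)) (sq_nonneg _)
      _ = _ := by ring
  exact (pow_le_pow_iff_left₀ (norm_nonneg _) (by positivity) (by norm_num)).1 e5

/-- TARGET 4 -/
theorem count (h1 : S_W) (h2 : S_orth.{u}) : S_count.{u} := by
  intro G _ _ _ _ _ R P s B V _ _ Mo _ N T hT
  classical
  have hK : CompactSpace R.K := P.compactK
  let _ : MeasurableSpace R.K := borel R.K
  have _ : BorelSpace R.K := ⟨rfl⟩
  obtain ⟨μ, _, _⟩ := oProj_exists_haar (K := R.K)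
  obtain ⟨_, _, hcont, _, _, htr, _, hfd, hrank, _⟩ := h1 G R s
  have hfdN := hfd N
  choose v hvU hv0 hvl using fun c : T => hT c.1 c.2
  obtain ⟨φ, hφ⟩ := Module.exists_dual_forall_apply_ne_zero (K := ℂ) v hv0
  let F : T → s.W N := fun c => ⟨fun k => φ (Mo.kact k (v c)), hvU c φ⟩
  have hli : LinearIndependent ℂ F := by
    rw [Fintype.linearIndependent_iff]
    intro g hg c₀
    have h3 : oProj_form μ Mo φ (v c₀) (∑ c, g c • v c) = 0 := by
      rw [oProj_form_apply]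
      have : ∀ k : R.K, φ (Mo.kact k (∑ c, g c • v c)) = 0 := by
        intro k
        have h4 := congrArg (fun H : s.W N => H.1 k) hg
        simp only [Submodule.coe_sum, Finset.sum_apply, Submodule.coe_smul, Pi.smul_apply,
          Submodule.coe_zero, Pi.zero_apply, F] at h4
        rw [map_sum, map_sum, ← h4]
        refine Finset.sum_congr rfl fun c _ => ?_
        rw [map_smul, map_smul]
      refine (integral_congr_ae (Filter.Eventually.of_forall fun k => ?_)).trans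
        (integral_zero (R.K) ℂ)
      rw [this, zero_mul]
    rw [map_sum, Finset.sum_eq_single c₀] at h3
    · rw [map_smul, smul_eq_mul, oProj_form_self] at h3
      rcases mul_eq_zero.1 h3 with h4 | h4
      · exact h4
      · exact absurd (Complex.ofReal_eq_zero.1 h4) (oProj_form_pos μ Mo φ (v c₀) (hφ c₀)).ne'
    · intro c _ hc
      rw [map_smul, oProj_orth μ Mo φ P B (v c) (v c₀) c.1 c₀.1 (hvl c) (hvl c₀)
        (fun h => hc (Subtype.ext h)), smul_zero]
    · intro h; exact absurd (Finset.mem_univ _) h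
  have h5 := hli.fintype_card_le_finrank
  rw [Fintype.card_coe] at h5
  exact_mod_cast h5.trans (hrank N)

end Pool.Agent.H913.SG
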