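import Pool.Agent.H913.SG.Stmts2

/-! L1: derivative from the left. -/

open MeasureTheory Matrix NormedSpace
open scoped SchwartzMap ContDiff FourierTransform Matrix Topology

universe u v

namespace Pool.Agent.H913.SG

section alg
variable {G : Type} [Group G] [TopologicalSpace G] {R : RealReductive G}

/-- `Ad g` as a linear map -/
noncomputable def pLeft1_Ad (R : RealReductive G) (g : G) : R.lie →ₗ[ℝ] R.lie where
  toFun := R.Ad g
  map_add' := by
    intro X Y
    apply Subtype.ext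
    simp [RealReductive.Ad, Matrix.mul_add, Matrix.add_mul]
  map_smul' := by
    intro c X
    apply Subtype.ext
    simp [RealReductive.Ad]

lemma pLeft1_Ad_co (P : Pack R) (q : Fin P.d → Fin P.d → EE P.d → ℝ)
    (hq : ∀ l y, R.Ad (P.Pi y)⁻¹ (P.X l) = ∑ j, q l j y • P.X j) (Y : R.lie) (z : EE P.d) :
    R.Ad (P.Pi z)⁻¹ Y = ∑ j, (∑ l, (P.co Y) l * q l j z) • P.X j := by
  have h1 : R.Ad (P.Pi z)⁻¹ Y = pLeft1_Ad R (P.Pi z)⁻¹ Y := rfl
  have h2 : ∀ l, pLeft1_Ad R (P.Pi z)⁻¹ (P.X l) = ∑ j, q l j z • P.X j := fun l => hq l z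
  rw [h1]
  conv_lhs => rw [P.X_spans Y]
  rw [map_sum]
  simp only [map_smul, h2, Finset.smul_sum, Finset.sum_smul]
  rw [Finset.sum_comm]
  refine Finset.sum_congr rfl fun j _ => Finset.sum_congr rfl fun l _ => ?_
  rw [smul_smul]
  rfl

variable {V : Type u} [AddCommGroup V] [Module ℂ V]

lemma pLeft1_act_sum (Mo : HCModule R V) {ι : Type} (s : Finset ι) (c : ι → ℝ) (X : ι → R.lie)
    (v : V) : Mo.act (∑ j ∈ s, c j • X j) v = ∑ j ∈ s, (c j : ℂ) • Mo.act (X j) v := by
  have h1 : ∀ Z, Mo.act Z = (AddMonoidHom.mk' Mo.act Mo.act_add) Z := fun _ => rfl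
  rw [h1, map_sum]
  simp only [AddMonoidHom.mk'_apply, Mo.act_smul, LinearMap.sum_apply, LinearMap.smul_apply]

variable {E : Type v} [NormedAddCommGroup E] [NormedSpace ℂ E] {w : G → ℝ} {Mo : HCModule R V}

lemma pLeft1_gam_zero (P : Pack R) (Y : R.lie) : P.gam Y 0 = 1 := by
  have h := (P.gam_spec Y).2.1 0 0
  rw [add_zero] at h
  exact (mul_eq_left.1 h.symm)

lemma pLeft1_shift (Gl : Glob Mo w E) (P : Pack R) (Y : R.lie) {x x' : E}
    (h0 : HasDerivAt (fun t : ℝ => Gl.π (P.gam Y t) x) x' 0) (t : ℝ) :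
    HasDerivAt (fun t : ℝ => Gl.π (P.gam Y t) x) (Gl.π (P.gam Y t) x') t := by
  have h1 : HasDerivAt (fun s : ℝ => Gl.π (P.gam Y (s - t)) x) x' t :=
    HasDerivAt.comp_sub_const t t (f := fun t : ℝ => Gl.π (P.gam Y t) x) (by rwa [sub_self])
  have h2 := ((Gl.π (P.gam Y t)).restrictScalars ℝ).hasFDerivAt.comp_hasDerivAt t h1
  have e : (fun s : ℝ => Gl.π (P.gam Y s) x) =
      (⇑((Gl.π (P.gam Y t)).restrictScalars ℝ) ∘ fun s : ℝ => Gl.π (P.gam Y (s - t)) x) := by
    funext s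
    have h3 := (P.gam_spec Y).2.1 t (s - t)
    rw [add_sub_cancel] at h3
    simp only [Function.comp, ContinuousLinearMap.coe_restrictScalars']
    rw [h3, map_mul]
    rfl
  rw [e]
  exact h2

lemma pLeft1_deriv (Gl : Glob Mo w E) (P : Pack R) (q : Fin P.d → Fin P.d → EE P.d → ℝ)
    (hq : ∀ l y, R.Ad (P.Pi y)⁻¹ (P.X l) = ∑ j, q l j y • P.X j) (Y : R.lie) (z : EE P.d)
    (v : V) :
    HasDerivAt (fun t : ℝ => Gl.π (P.gam Y t) (Gl.π (P.Pi z) (Gl.ι v)))
      (∑ j, ((∑ l, (P.co Y) l * q l j z : ℝ) : ℂ) • Gl.π (P.Pi z) (Gl.ι (Mo.act (P.X j) v))) 0 := by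
  set Z := R.Ad (P.Pi z)⁻¹ Y with hZ
  have h1 := Gl.deriv Z (P.gam Z) (P.gam_spec Z) v
  have h2 := ((Gl.π (P.Pi z)).restrictScalars ℝ).hasFDerivAt.comp_hasDerivAt (0 : ℝ) h1
  have e : (fun t : ℝ => Gl.π (P.gam Y t) (Gl.π (P.Pi z) (Gl.ι v))) =
      (⇑((Gl.π (P.Pi z)).restrictScalars ℝ) ∘ fun t : ℝ => Gl.π (P.gam Z t) (Gl.ι v)) := by
    funext t
    simp only [Function.comp, ContinuousLinearMap.coe_restrictScalars']
    have h3 := P.gam_conj (P.Pi z)⁻¹ Y t
    rw [← hZ, inv_inv] at h3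
    have h4 : P.gam Y t * P.Pi z = P.Pi z * P.gam Z t := by
      rw [← h3]; group
    have h5 : (Gl.π (P.gam Y t * P.Pi z)) (Gl.ι v) = (Gl.π (P.Pi z * P.gam Z t)) (Gl.ι v) := by
      rw [h4]
    rw [map_mul, map_mul] at h5
    exact h5
  rw [e]
  convert h2 using 1
  rw [pLeft1_Ad_co P q hq Y z] at hZ
  rw [hZ, pLeft1_act_sum, map_sum]
  simp only [ContinuousLinearMap.coe_restrictScalars', map_sum, map_smul]

end alg

section ana

lemma pLeft1_int {d : ℕ} {E : Type v} [NormedAddCommGroup E] [NormedSpace ℂ E] (F : EE d → ℝ)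
    (hF : Continuous F) (hFs : HasCompactSupport F) (A : 𝓢(EE d, ℂ)) {h : ℝ} (hh : 0 < h)
    (g : EE d → E) (hg : Continuous g) :
    Integrable (fun x => ((F (h • x) : ℂ) * A x) • g (h • x)) := by
  have hA : Continuous A := A.continuous
  have h0 : Continuous fun x : EE d => h • x := continuous_const_smul h
  apply Continuous.integrable_of_hasCompactSupport
  · exact ((Complex.continuous_ofReal.comp (hF.comp h0)).mul hA).smul (hg.comp h0)
  · have h1 : HasCompactSupport (fun x => F (h • x)) := hFs.comp_smul hh.ne'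
    refine h1.mono ?_
    intro x hx hx0
    apply hx
    have hx0' : F (h • x) = 0 := hx0
    simp [hx0']

lemma pLeft1_test {d : ℕ} {Ch : Chart d} {f : EE d → ℝ} (hf : IsTest Ch f) :
    Continuous f ∧ HasCompactSupport f := by
  refine ⟨hf.smooth.continuous, ?_⟩
  exact (isCompact_closedBall (0 : EE d) Ch.r).of_isClosed_subset (isClosed_tsupport f)
    (hf.supp.trans Metric.ball_subset_closedBall)

lemma pLeft1_test_mul {d : ℕ} {Ch : Chart d} {f c : EE d → ℝ} (hf : IsTest Ch f)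
    (hc : ContDiff ℝ ∞ c) : IsTest Ch (fun z => f z * c z) :=
  ⟨hf.smooth.mul hc, (tsupport_mul_subset_left).trans hf.supp⟩

lemma pLeft1_test_fderiv {d : ℕ} {Ch : Chart d} {f : EE d → ℝ} (hf : IsTest Ch f) (e : EE d) :
    IsTest Ch (fun y => fderiv ℝ f y e) := by
  refine ⟨?_, ?_⟩
  · have h1 : ContDiff ℝ ∞ (fderiv ℝ f) := hf.smooth.fderiv_right (by simp)
    exact h1.clm_apply contDiff_const
  · exact (tsupport_fderiv_apply_subset ℝ e).trans hf.supp

lemma pLeft1_test_sum {d : ℕ} {Ch : Chart d} {ι : Type} (s : Finset ι) {F : ι → EE d → ℝ}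
    (hF : ∀ i ∈ s, Continuous (F i) ∧ HasCompactSupport (F i)) :
    Continuous (fun y => ∑ i ∈ s, F i y) ∧ HasCompactSupport (fun y => ∑ i ∈ s, F i y) := by
  classical
  induction s using Finset.induction_on with
  | empty =>
    simp only [Finset.sum_empty]
    exact ⟨continuous_const, HasCompactSupport.zero⟩
  | insert a s ha ih =>
    have h1 := ih fun i hi => hF i (Finset.mem_insert_of_mem hi)
    have h2 := hF a (Finset.mem_insert_self a s)
    simp only [Finset.sum_insert ha]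
    exact ⟨h2.1.add h1.1, h2.2.add h1.2⟩

lemma pLeft1_I_sum {d : ℕ} {Ch : Chart d} {V : Type u} [AddCommGroup V] [Module ℂ V]
    {E : Type v} [NormedAddCommGroup E] [NormedSpace ℂ E] (L : LocalRep Ch V E)
    {ι : Type} (s : Finset ι) {F : ι → EE d → ℝ}
    (hF : ∀ i ∈ s, Continuous (F i) ∧ HasCompactSupport (F i)) (A : 𝓢(EE d, ℂ)) {h : ℝ}
    (hh : 0 < h) (v : V) :
    L.I (fun y => ∑ i ∈ s, F i y) A h v = ∑ i ∈ s, L.I (F i) A h v := by
  unfold LocalRep.I
  rw [← integral_finsetSum]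
  · refine integral_congr_ae (Filter.Eventually.of_forall fun x => ?_)
    simp only [Complex.ofReal_sum, Finset.sum_mul, Finset.sum_smul]
  · intro i hi
    exact pLeft1_int (F i) (hF i hi).1 (hF i hi).2 A hh _ (L.cont v)

variable {G : Type} [Group G] [TopologicalSpace G] {R : RealReductive G}
  {V : Type u} [AddCommGroup V] [Module ℂ V]
  {E : Type v} [NormedAddCommGroup E] [NormedSpace ℂ E] [CompleteSpace E]
  {w : G → ℝ} {Mo : HCModule R V}

lemma pLeft1_bdd (Gl : Glob Mo w E) (P : Pack R) (Y : R.lie) :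
    ∃ C, 0 ≤ C ∧ ∀ t ∈ Set.Icc (-1 : ℝ) 1, ‖Gl.π (P.gam Y t)‖ ≤ C := by
  have h : ∀ x, ∃ C, ∀ t : Set.Icc (-1 : ℝ) 1, ‖Gl.π (P.gam Y t) x‖ ≤ C := by
    intro x
    have hc : Continuous fun t : ℝ => Gl.π (P.gam Y t) x := (Gl.cont x).comp (P.gam_spec Y).1
    obtain ⟨C, hC⟩ := isCompact_Icc.exists_bound_of_continuousOn hc.continuousOn
    exact ⟨C, fun t => hC t t.2⟩
  obtain ⟨C, hC⟩ := banach_steinhaus h
  exact ⟨max C 0, le_max_right _ _, fun t ht => (hC ⟨t, ht⟩).trans (le_max_left _ _)⟩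

lemma pLeft1_derivI (Gl : Glob Mo w E) (P : Pack R) (Y : R.lie) (F : EE P.d → ℝ)
    (hF : Continuous F) (hFs : HasCompactSupport F) (A : 𝓢(EE P.d, ℂ)) {h : ℝ} (hh : 0 < h)
    (g g' : EE P.d → E) (hg : Continuous g) (hg' : Continuous g')
    (hd : ∀ z, HasDerivAt (fun t : ℝ => Gl.π (P.gam Y t) (g z)) (g' z) 0) :
    HasDerivAt (fun t : ℝ => Gl.π (P.gam Y t) (∫ x, ((F (h • x) : ℂ) * A x) • g (h • x)))
      (∫ x, ((F (h • x) : ℂ) * A x) • g' (h • x)) 0 := by
  obtain ⟨C, hC0, hC⟩ := pLeft1_bdd Gl P Y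
  have e : (fun t : ℝ => Gl.π (P.gam Y t) (∫ x, ((F (h • x) : ℂ) * A x) • g (h • x))) =
      fun t : ℝ => ∫ x, ((F (h • x) : ℂ) * A x) • Gl.π (P.gam Y t) (g (h • x)) := by
    funext t
    rw [← ContinuousLinearMap.integral_comp_comm _ (pLeft1_int F hF hFs A hh g hg)]
    simp only [map_smul]
  rw [e]
  have hint : ∀ t, Integrable fun x => ((F (h • x) : ℂ) * A x) • Gl.π (P.gam Y t) (g (h • x)) :=
    fun t => pLeft1_int F hF hFs A hh (fun z => Gl.π (P.gam Y t) (g z))
      ((Gl.π (P.gam Y t)).continuous.comp hg)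
  have hint' : ∀ t, Integrable fun x => ((F (h • x) : ℂ) * A x) • Gl.π (P.gam Y t) (g' (h • x)) :=
    fun t => pLeft1_int F hF hFs A hh (fun z => Gl.π (P.gam Y t) (g' z))
      ((Gl.π (P.gam Y t)).continuous.comp hg')
  have key := hasDerivAt_integral_of_dominated_loc_of_deriv_le (𝕜 := ℝ)
    (μ := (volume : Measure (EE P.d)))
    (F := fun (t : ℝ) (x : EE P.d) => ((F (h • x) : ℂ) * A x) • Gl.π (P.gam Y t) (g (h • x)))
    (F' := fun (t : ℝ) (x : EE P.d) => ((F (h • x) : ℂ) * A x) • Gl.π (P.gam Y t) (g' (h • x)))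
    (x₀ := 0) (s := Set.Icc (-1 : ℝ) 1) (bound := fun x => C * ‖((F (h • x) : ℂ) * A x) • g' (h • x)‖)
    (Icc_mem_nhds (by norm_num) (by norm_num))
    (Filter.Eventually.of_forall fun t => (hint t).aestronglyMeasurable)
    (hint 0) (hint' 0).aestronglyMeasurable ?_ ?_ ?_
  · have h1 := key.2
    simp only [pLeft1_gam_zero, map_one, ContinuousLinearMap.one_apply] at h1
    exact h1
  · refine Filter.Eventually.of_forall fun x t ht => ?_
    rw [norm_smul, norm_smul]
    calc ‖(F (h • x) : ℂ) * A x‖ * ‖Gl.π (P.gam Y t) (g' (h • x))‖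
        ≤ ‖(F (h • x) : ℂ) * A x‖ * (C * ‖g' (h • x)‖) := by
          gcongr
          exact ((Gl.π (P.gam Y t)).le_opNorm _).trans
            (mul_le_mul_of_nonneg_right (hC t ht) (norm_nonneg _))
      _ = C * (‖(F (h • x) : ℂ) * A x‖ * ‖g' (h • x)‖) := by ring
  · exact (pLeft1_int F hF hFs A hh g' hg').norm.const_mul C
  · refine Filter.Eventually.of_forall fun x t ht => ?_
    exact (pLeft1_shift Gl P Y (hd (h • x)) t).const_smul _

end ana

/-- TARGET -/
theorem left1 (h1 : S_ibp.{u,v}) : S_left1.{u,v} := by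
  intro G _ _ _ _ R P Ch q hqs hq w V _ _ Mo E _ _ _ Gl L hLa hLo f hf A h hh v Y
  -- the coefficients
  set c : Fin P.d → EE P.d → ℝ := fun j z => ∑ l, (P.co Y) l * q l j z with hc
  have hcs : ∀ j, ContDiff ℝ ∞ (c j) := by
    intro j
    exact ContDiff.sum fun l _ => contDiff_const.mul (hqs l j)
  have htest : ∀ j, IsTest Ch (fun z => f z * c j z) := fun j => pLeft1_test_mul hf (hcs j)
  obtain ⟨hfc, hfs⟩ := pLeft1_test hf
  set g' : EE P.d → E := fun z => ∑ j, ((c j z : ℝ) : ℂ) • L.orb (L.a j v) z with hg'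
  have hg'c : Continuous g' := by
    refine continuous_finset_sum _ fun j _ => ?_
    exact (Complex.continuous_ofReal.comp (hcs j).continuous).smul (L.cont _)
  have hd : ∀ z, HasDerivAt (fun t : ℝ => Gl.π (P.gam Y t) (L.orb v z)) (g' z) 0 := by
    intro z
    have h2 := pLeft1_deriv Gl P q hq Y z v
    simp only [hg', hLo, hLa]
    exact h2
  have hD := pLeft1_derivI Gl P Y f hfc hfs A hh (L.orb v) g' (L.cont v) hg'c hd
  set u' : E := ∫ x, ((f (h • x) : ℂ) * A x) • g' (h • x) with hu'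
  have hD2 : ∀ t : ℝ, HasDerivAt (fun t : ℝ => Gl.π (P.gam Y t) (L.I f A h v))
      (Gl.π (P.gam Y t) u') t := fun t => pLeft1_shift Gl P Y hD t
  have hcont : Continuous fun t : ℝ => Gl.π (P.gam Y t) u' := (Gl.cont u').comp (P.gam_spec Y).1
  have hftc := intervalIntegral.integral_eq_sub_of_hasDerivAt (a := 0) (b := 1)
    (fun t _ => hD2 t) (hcont.intervalIntegrable 0 1)
  rw [pLeft1_gam_zero, map_one, ContinuousLinearMap.one_apply] at hftc
  rw [← hftc, ← intervalIntegral.integral_smul]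
  -- the integrand
  have hu'sum : u' = ∑ j, L.I (fun z => f z * c j z) A h (L.a j v) := by
    rw [hu']
    unfold LocalRep.I
    rw [← integral_finsetSum]
    · refine integral_congr_ae (Filter.Eventually.of_forall fun x => ?_)
      simp only [hg', Finset.smul_sum, smul_smul]
      refine Finset.sum_congr rfl fun j _ => ?_
      congr 1
      push_cast
      ring
    · intro j _
      exact pLeft1_int _ (pLeft1_test (htest j)).1 (pLeft1_test (htest j)).2 A hh _ (L.cont _)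
  have hkey : (h : ℂ) • u' = (-((h : ℂ) • L.I (fun y => ∑ j, ∑ i, fderiv ℝ
            (fun z => f z * (∑ l, (P.co Y) l * q l j z) * Ch.M j i z) y (ei i)) A h v)
        - ∑ i, L.I (fun y => f y * ∑ j, (∑ l, (P.co Y) l * q l j y) * Ch.M j i y) (pd i A) h v) := by
    have htest2 : ∀ j i, IsTest Ch (fun z => f z * c j z * Ch.M j i z) :=
      fun j i => pLeft1_test_mul (htest j) (Ch.M_smooth j i)
    have hcc : ∀ j ∈ Finset.univ, Continuous (fun y => ∑ i, fderiv ℝ
        (fun z => f z * c j z * Ch.M j i z) y (ei i)) ∧ HasCompactSupport (fun y => ∑ i, fderiv ℝ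
        (fun z => f z * c j z * Ch.M j i z) y (ei i)) := by
      intro j _
      exact pLeft1_test_sum (Ch := Ch) Finset.univ fun i _ =>
        pLeft1_test (pLeft1_test_fderiv (htest2 j i) (ei i))
    have e1 : L.I (fun y => ∑ j, ∑ i, fderiv ℝ
            (fun z => f z * (∑ l, (P.co Y) l * q l j z) * Ch.M j i z) y (ei i)) A h v =
        ∑ j, L.I (fun y => ∑ i, fderiv ℝ
            (fun z => f z * c j z * Ch.M j i z) y (ei i)) A h v :=
      pLeft1_I_sum L Finset.univ hcc A hh v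
    have e2 : ∀ i, L.I (fun y => f y * ∑ j, (∑ l, (P.co Y) l * q l j y) * Ch.M j i y) (pd i A) h v =
        ∑ j, L.I (fun y => f y * c j y * Ch.M j i y) (pd i A) h v := by
      intro i
      rw [← pLeft1_I_sum L Finset.univ (fun j _ => pLeft1_test (htest2 j i)) (pd i A) hh v]
      congr 1
      funext y
      rw [Finset.mul_sum]
      refine Finset.sum_congr rfl fun j _ => ?_
      rw [mul_assoc]
    rw [e1, Finset.sum_congr rfl fun i _ => e2 i, hu'sum, Finset.smul_sum, Finset.sum_comm,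
      Finset.smul_sum, ← Finset.sum_neg_distrib, ← Finset.sum_sub_distrib]
    refine Finset.sum_congr rfl fun j _ => ?_
    exact h1 P.d Ch V E L (fun z => f z * c j z) (htest j) A h hh j v
  refine intervalIntegral.integral_congr fun t _ => ?_
  change (h : ℂ) • Gl.π (P.gam Y t) u' = _
  rw [← map_smul, hkey]

end Pool.Agent.H913.SG
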