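import Pool.Agent.H913.SG.Stmts2

open MeasureTheory Matrix NormedSpace
open scoped SchwartzMap ContDiff FourierTransform Matrix

universe u v

namespace Pool.Agent.H913.SG

section PLeft2a

variable {d : ℕ} {Ch : Chart d} {V : Type u} [AddCommGroup V] [Module ℂ V]
  {E : Type v} [NormedAddCommGroup E] [NormedSpace ℂ E]

theorem pLeft2_compact {f : EE d → ℝ} (hf : IsTest Ch f) : HasCompactSupport f :=
  Metric.isCompact_of_isClosed_isBounded (isClosed_tsupport f)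
    (Metric.isBounded_ball.subset hf.supp)

theorem pLeft2_chi : IsTest Ch Ch.χ := ⟨Ch.χ_smooth, Ch.χ_supp⟩

theorem pLeft2_integrable (L : LocalRep Ch V E) {f : EE d → ℝ} (hf : IsTest Ch f)
    (A : 𝓢(EE d, ℂ)) {h : ℝ} (hh : 0 < h) (v : V) :
    Integrable (fun x => ((f (h • x) : ℂ) * A x) • L.orb v (h • x)) := by
  apply Continuous.integrable_of_hasCompactSupport
  · have h1 : Continuous fun x : EE d => f (h • x) := hf.smooth.continuous.comp (continuous_const_smul h)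
    have h2 : Continuous fun x : EE d => L.orb v (h • x) := (L.cont v).comp (continuous_const_smul h)
    exact ((Complex.continuous_ofReal.comp h1).mul A.continuous).smul h2
  · have h1 : HasCompactSupport (f ∘ (Homeomorph.smulOfNeZero h hh.ne' : EE d ≃ₜ EE d)) :=
      (pLeft2_compact hf).comp_homeomorph _
    apply h1.mono'
    intro x hx
    apply subset_tsupport
    simp only [Function.mem_support, Function.comp_apply] at hx ⊢
    intro h0
    apply hx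
    have : f (h • x) = 0 := h0
    simp [this]

theorem pLeft2_I_sum (L : LocalRep Ch V E) {ι : Type} [Fintype ι] (c : ι → ℝ)
    (g : ι → EE d → ℝ) (hg : ∀ l, IsTest Ch (g l)) (A : 𝓢(EE d, ℂ)) {h : ℝ} (hh : 0 < h) (v : V) :
    L.I (fun y => ∑ l, c l * g l y) A h v = ∑ l, (c l : ℂ) • L.I (g l) A h v := by
  unfold LocalRep.I
  simp_rw [← integral_smul]
  rw [← integral_finsetSum]
  · congr 1
    ext x
    push_cast
    rw [Finset.sum_mul, Finset.sum_smul]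
    refine Finset.sum_congr rfl fun l _ => ?_
    rw [smul_smul]
    congr 1
    ring
  · intro l _
    exact (pLeft2_integrable L (hg l) A hh v).smul (c l : ℂ)

theorem pLeft2_I_sumA (L : LocalRep Ch V E) {ι : Type} [Fintype ι] (c : ι → ℂ)
    {f : EE d → ℝ} (hf : IsTest Ch f) (A : ι → 𝓢(EE d, ℂ)) {h : ℝ} (hh : 0 < h) (v : V) :
    L.I f (∑ a, c a • A a) h v = ∑ a, c a • L.I f (A a) h v := by
  unfold LocalRep.I
  simp_rw [← integral_smul]
  rw [← integral_finsetSum]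
  · congr 1
    ext x
    rw [_root_.sum_apply, Finset.mul_sum, Finset.sum_smul]
    refine Finset.sum_congr rfl fun l _ => ?_
    rw [smul_smul]
    congr 1
    simp only [_root_.smul_apply, smul_eq_mul]
    ring
  · intro l _
    exact (pLeft2_integrable L hf (A l) hh v).smul (c l : ℂ)

theorem pLeft2_L1_smul (c : ℂ) (A : 𝓢(EE d, ℂ)) : L1 (c • A) = ‖c‖ * L1 A := by
  unfold L1
  simp_rw [_root_.smul_apply, smul_eq_mul, norm_mul]
  rw [integral_const_mul]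

theorem pLeft2_L1_nonneg (A : 𝓢(EE d, ℂ)) : 0 ≤ L1 A :=
  integral_nonneg fun _ => norm_nonneg _

theorem pLeft2_bdd {f : EE d → ℝ} (hf : IsTest Ch f) : ∃ M, 0 ≤ M ∧ ∀ x, |f x| ≤ M := by
  obtain ⟨M, hM⟩ := hf.smooth.continuous.bounded_above_of_compact_support (pLeft2_compact hf)
  exact ⟨M, (norm_nonneg _).trans (hM 0), fun x => by simpa using hM x⟩

theorem pLeft2_int_le {f : EE d → ℝ} {M : ℝ} (hM : ∀ x, |f x| ≤ M)
    (A : 𝓢(EE d, ℂ)) (h : ℝ) : (∫ x, |f (h • x)| * ‖A x‖) ≤ M * L1 A := by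
  unfold L1
  rw [← integral_const_mul]
  apply integral_mono_of_nonneg
  · exact Filter.Eventually.of_forall fun x => by positivity
  · exact (A.integrable.norm).const_mul M
  · exact Filter.Eventually.of_forall fun x =>
      mul_le_mul_of_nonneg_right (hM _) (norm_nonneg _)

theorem pLeft2_base1 (h2 : S_I_norm.{u,v}) (h3 : S_I_flat.{u,v}) [CompleteSpace E]
    (L : LocalRep Ch V E) (n : ℕ) (f : EE d → ℝ) (hf : IsTest Ch f) (A : 𝓢(EE d, ℂ)) :
    ∃ C, 0 ≤ C ∧ ∀ h : ℝ, 0 < h → h ≤ 1 → ∀ v : V,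
      ‖((h : ℂ) ^ n) • L.I f A h v - (if n = 0 then (f 0 : ℂ) else 0) • L.I Ch.χ A h v‖ ≤
        L.Cw * (C * h) * ‖L.orb v 0‖ := by
  have hb : ∀ v, ‖L.orb v 0‖ ≤ L.Cw * ‖L.orb v 0‖ := fun v =>
    L.bound v 0 (by rw [norm_zero]; exact Ch.r_pos.le)
  rcases Nat.eq_zero_or_pos n with hn | hn
  · subst hn
    obtain ⟨C, hC, hC'⟩ := h3 d Ch V E L f hf A
    refine ⟨C, hC, fun h hh hh1 v => ?_⟩
    simp only [pow_zero, one_smul, if_true]
    refine (hC' h hh hh1 v).trans ?_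
    have := mul_le_mul_of_nonneg_left (hb v) (mul_nonneg hC hh.le)
    nlinarith [this]
  · obtain ⟨M, hM, hM'⟩ := pLeft2_bdd hf
    refine ⟨M * L1 A, mul_nonneg hM (pLeft2_L1_nonneg A), fun h hh hh1 v => ?_⟩
    rw [if_neg hn.ne', zero_smul, sub_zero, norm_smul, norm_pow, Complex.norm_real,
      Real.norm_of_nonneg hh.le]
    have e1 := h2 d Ch V E L f hf A h hh v
    have e2 : (∫ x, |f (h • x)| * ‖A x‖) ≤ M * L1 A := pLeft2_int_le hM' A h
    have e3 : h ^ n ≤ h := by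
      calc h ^ n ≤ h ^ 1 := pow_le_pow_of_le_one hh.le hh1 hn
        _ = h := pow_one h
    have e4 : ‖L.I f A h v‖ ≤ L.Cw * (M * L1 A) * ‖L.orb v 0‖ := e1.trans (by
      have := L.Cw_nonneg
      gcongr)
    calc h ^ n * ‖L.I f A h v‖ ≤ h * (L.Cw * (M * L1 A) * ‖L.orb v 0‖) := by
          gcongr
      _ = L.Cw * (M * L1 A * h) * ‖L.orb v 0‖ := by ring

theorem pLeft2_base (h2 : S_I_norm.{u,v}) (h3 : S_I_flat.{u,v}) [CompleteSpace E]
    (L : LocalRep Ch V E) {ι : Type} [Fintype ι] (n : ι → ℕ) (f : ι → EE d → ℝ)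
    (hf : ∀ a, IsTest Ch (f a)) (A : ι → 𝓢(EE d, ℂ)) :
    ∃ C, 0 ≤ C ∧ ∀ h : ℝ, 0 < h → h ≤ 1 → ∀ (c : ι → ℂ) (v : V),
      ‖∑ a, c a • (((h : ℂ) ^ n a) • L.I (f a) (A a) h v)‖ ≤
        L.Cw * (L1 (∑ a, (c a * (if n a = 0 then (f a 0 : ℂ) else 0)) • A a)
          + C * h * ∑ a, ‖c a‖) * ‖L.orb v 0‖ := by
  choose C hC hC' using fun a => pLeft2_base1 h2 h3 L (n a) (f a) (hf a) (A a)
  refine ⟨∑ a, C a, Finset.sum_nonneg fun a _ => hC a, fun h hh hh1 c v => ?_⟩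
  set B := ∑ a, (c a * (if n a = 0 then (f a 0 : ℂ) else 0)) • A a with hB
  have e1 : ∑ a, c a • (((h : ℂ) ^ n a) • L.I (f a) (A a) h v) =
      L.I Ch.χ B h v + ∑ a, c a • (((h : ℂ) ^ n a) • L.I (f a) (A a) h v
        - (if n a = 0 then (f a 0 : ℂ) else 0) • L.I Ch.χ (A a) h v) := by
    rw [hB, pLeft2_I_sumA L _ pLeft2_chi _ hh, ← Finset.sum_add_distrib]
    refine Finset.sum_congr rfl fun a _ => ?_
    rw [smul_sub, mul_smul]
    abel
  rw [e1]
  refine (norm_add_le _ _).trans ?_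
  have e2 : ‖L.I Ch.χ B h v‖ ≤ L.Cw * L1 B * ‖L.orb v 0‖ := by
    refine (h2 d Ch V E L Ch.χ pLeft2_chi B h hh v).trans ?_
    have := L.Cw_nonneg
    have h5 : (∫ x, |Ch.χ (h • x)| * ‖B x‖) ≤ 1 * L1 B :=
      pLeft2_int_le (fun x => by rw [abs_of_nonneg (Ch.χ_nonneg x)]; exact Ch.χ_le_one x) B h
    rw [one_mul] at h5
    gcongr
  have e3 : ‖∑ a, c a • (((h : ℂ) ^ n a) • L.I (f a) (A a) h v
        - (if n a = 0 then (f a 0 : ℂ) else 0) • L.I Ch.χ (A a) h v)‖ ≤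
      L.Cw * ((∑ a, C a) * h * ∑ a, ‖c a‖) * ‖L.orb v 0‖ := by
    refine (norm_sum_le _ _).trans ?_
    calc ∑ a, ‖c a • (((h : ℂ) ^ n a) • L.I (f a) (A a) h v
        - (if n a = 0 then (f a 0 : ℂ) else 0) • L.I Ch.χ (A a) h v)‖
        ≤ ∑ a, ‖c a‖ * (L.Cw * ((∑ b, C b) * h) * ‖L.orb v 0‖) := by
          refine Finset.sum_le_sum fun a _ => ?_
          rw [norm_smul]
          refine mul_le_mul_of_nonneg_left ?_ (norm_nonneg _)
          refine (hC' a h hh hh1 v).trans ?_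
          have h6 : C a ≤ ∑ b, C b := Finset.single_le_sum (fun b _ => hC b) (Finset.mem_univ a)
          have := L.Cw_nonneg
          gcongr
      _ = L.Cw * ((∑ a, C a) * h * ∑ a, ‖c a‖) * ‖L.orb v 0‖ := by
          rw [← Finset.sum_mul]; ring
  calc _ ≤ L.Cw * L1 B * ‖L.orb v 0‖ + L.Cw * ((∑ a, C a) * h * ∑ a, ‖c a‖) * ‖L.orb v 0‖ :=
        add_le_add e2 e3
    _ = _ := by ring

/-! differential operators on test functions -/

noncomputable def pLeft2_cf (Ch : Chart d) (q : Fin d → Fin d → EE d → ℝ) (l i : Fin d) :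
    EE d → ℝ := fun y => ∑ j, q l j y * Ch.M j i y

noncomputable def pLeft2_dv (Ch : Chart d) (q : Fin d → Fin d → EE d → ℝ) (l : Fin d)
    (f : EE d → ℝ) : EE d → ℝ :=
  fun y => ∑ j, ∑ i, fderiv ℝ (fun z => f z * q l j z * Ch.M j i z) y (ei i)

theorem pLeft2_test_mul {f g : EE d → ℝ} (hf : IsTest Ch f) (hg : ContDiff ℝ ∞ g) :
    IsTest Ch (fun y => f y * g y) :=
  ⟨hf.smooth.mul hg, (tsupport_mul_subset_left).trans hf.supp⟩

theorem pLeft2_cf_smooth {q : Fin d → Fin d → EE d → ℝ} (hq : ∀ l j, ContDiff ℝ ∞ (q l j))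
    (l i : Fin d) : ContDiff ℝ ∞ (pLeft2_cf Ch q l i) :=
  ContDiff.sum fun j _ => (hq l j).mul (Ch.M_smooth j i)

theorem pLeft2_test_dv {q : Fin d → Fin d → EE d → ℝ} (hq : ∀ l j, ContDiff ℝ ∞ (q l j))
    (l : Fin d) {f : EE d → ℝ} (hf : IsTest Ch f) : IsTest Ch (pLeft2_dv Ch q l f) := by
  have h1 : ∀ j i, IsTest Ch (fun z => f z * q l j z * Ch.M j i z) := fun j i =>
    pLeft2_test_mul (pLeft2_test_mul hf (hq l j)) (Ch.M_smooth j i)
  constructor
  · refine ContDiff.sum fun j _ => ContDiff.sum fun i _ => ?_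
    have h2 : ContDiff ℝ ∞ (fderiv ℝ (fun z => f z * q l j z * Ch.M j i z)) :=
      (h1 j i).smooth.fderiv_right (by simp)
    exact h2.clm_apply contDiff_const
  · have h3 : tsupport (pLeft2_dv Ch q l f) ⊆ tsupport f := by
      apply closure_minimal _ (isClosed_tsupport f)
      intro y hy
      by_contra hc
      apply hy
      unfold pLeft2_dv
      refine Finset.sum_eq_zero fun j _ => Finset.sum_eq_zero fun i _ => ?_
      have h4 : y ∉ tsupport (fun z => f z * q l j z * Ch.M j i z) := by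
        intro h5
        exact hc (tsupport_mul_subset_left (tsupport_mul_subset_left h5))
      have h6 : fderiv ℝ (fun z => f z * q l j z * Ch.M j i z) y = 0 := by
        by_contra h7
        exact h4 (tsupport_fderiv_subset ℝ (subset_tsupport _ h7))
      rw [h6]; simp
    exact h3.trans hf.supp

theorem pLeft2_dv_lin {q : Fin d → Fin d → EE d → ℝ} (hq : ∀ l j, ContDiff ℝ ∞ (q l j))
    {f : EE d → ℝ} (hf : IsTest Ch f) (yv : EE d) :
    (fun y => ∑ j, ∑ i, fderiv ℝ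
        (fun z => f z * (∑ l, yv l * q l j z) * Ch.M j i z) y (ei i)) =
      fun y => ∑ l, yv l * pLeft2_dv Ch q l f y := by
  ext y
  have key : ∀ j i, fderiv ℝ (fun z => f z * (∑ l, yv l * q l j z) * Ch.M j i z) y (ei i) =
      ∑ l, yv l * fderiv ℝ (fun z => f z * q l j z * Ch.M j i z) y (ei i) := by
    intro j i
    have h1 : (fun z => f z * (∑ l, yv l * q l j z) * Ch.M j i z) =
        fun z => ∑ l, yv l * (f z * q l j z * Ch.M j i z) := by
      ext z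
      rw [Finset.mul_sum, Finset.sum_mul]
      refine Finset.sum_congr rfl fun l _ => ?_
      ring
    have hd : ∀ l, DifferentiableAt ℝ (fun z => f z * q l j z * Ch.M j i z) y := fun l =>
      (((hf.smooth.mul (hq l j)).mul (Ch.M_smooth j i)).differentiable (by simp)).differentiableAt
    rw [h1, fderiv_fun_sum (fun l _ => (hd l).const_mul _)]
    rw [_root_.sum_apply]
    refine Finset.sum_congr rfl fun l _ => ?_
    rw [fderiv_const_mul (hd l)]
    simp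
  simp_rw [key]
  unfold pLeft2_dv
  simp_rw [Finset.mul_sum]
  rw [Finset.sum_congr rfl fun j _ => Finset.sum_comm]
  rw [Finset.sum_comm]

theorem pLeft2_cf_lin {q : Fin d → Fin d → EE d → ℝ} (f : EE d → ℝ) (yv : EE d) (i : Fin d) :
    (fun y => f y * ∑ j, (∑ l, yv l * q l j y) * Ch.M j i y) =
      fun y => ∑ l, yv l * (f y * pLeft2_cf Ch q l i y) := by
  ext y
  unfold pLeft2_cf
  simp_rw [Finset.mul_sum, Finset.sum_mul, Finset.mul_sum]
  rw [Finset.sum_comm]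
  refine Finset.sum_congr rfl fun l _ => Finset.sum_congr rfl fun j _ => ?_
  ring

theorem pLeft2_cf_zero {q : Fin d → Fin d → EE d → ℝ} (hq0 : ∀ l j, q l j 0 = if l = j then 1 else 0)
    (l i : Fin d) : pLeft2_cf Ch q l i 0 = if l = i then 1 else 0 := by
  unfold pLeft2_cf
  simp_rw [hq0, Ch.M_zero]
  simp

/-! pdir -/

theorem pLeft2_pdir_smul (y : EE d) (c : ℂ) (A : 𝓢(EE d, ℂ)) : pdir y (c • A) = c • pdir y A := by
  unfold pdir
  rw [Finset.smul_sum]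
  refine Finset.sum_congr rfl fun j _ => ?_
  rw [map_smul, smul_comm]

theorem pLeft2_pdir_smul_left (y : EE d) (c : ℝ) (A : 𝓢(EE d, ℂ)) :
    pdir (c • y) A = (c : ℂ) • pdir y A := by
  unfold pdir
  rw [Finset.smul_sum]
  refine Finset.sum_congr rfl fun j _ => ?_
  rw [smul_smul]
  simp

theorem pLeft2_foldr_smul {α : Type*} (g : α → EE d) (Xs : List α) (c : ℂ) (A : 𝓢(EE d, ℂ)) :
    Xs.foldr (fun X B => pdir (g X) B) (c • A) = c • Xs.foldr (fun X B => pdir (g X) B) A := by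
  induction Xs with
  | nil => simp
  | cons X Xs ih =>
    rw [List.foldr_cons, List.foldr_cons, ih, pLeft2_pdir_smul]

/-! the near step on families -/

/-- the new test function -/
noncomputable def pLeft2_nf (Ch : Chart d) (q : Fin d → Fin d → EE d → ℝ) {ι : Type}
    (f : ι → EE d → ℝ) : ι × Fin d × Option (Fin d) → EE d → ℝ
  | (a, l, none) => pLeft2_dv Ch q l (f a)
  | (a, l, some i) => fun y => f a y * pLeft2_cf Ch q l i y

noncomputable def pLeft2_nA {ι : Type} (A : ι → 𝓢(EE d, ℂ)) :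
    ι × Fin d × Option (Fin d) → 𝓢(EE d, ℂ)
  | (a, _, none) => A a
  | (a, _, some i) => pd i (A a)

def pLeft2_nn {ι : Type} (n : ι → ℕ) : ι × Fin d × Option (Fin d) → ℕ
  | (a, _, none) => n a + 1
  | (a, _, some _) => n a

noncomputable def pLeft2_nc {ι : Type} (c : ι → ℂ) (y : EE d) :
    ι × Fin d × Option (Fin d) → ℂ := fun p => -(c p.1 * (y p.2.1 : ℂ))

theorem pLeft2_nf_test {q : Fin d → Fin d → EE d → ℝ} (hq : ∀ l j, ContDiff ℝ ∞ (q l j))
    {ι : Type} (f : ι → EE d → ℝ) (hf : ∀ a, IsTest Ch (f a)) (p) :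
    IsTest Ch (pLeft2_nf Ch q f p) := by
  rcases p with ⟨a, l, _ | i⟩
  · exact pLeft2_test_dv hq l (hf a)
  · exact pLeft2_test_mul (hf a) (pLeft2_cf_smooth hq l i)

theorem pLeft2_nc_norm {ι : Type} [Fintype ι] (c : ι → ℂ) (y : EE d) :
    ∑ p, ‖pLeft2_nc c y p‖ = (d + 1) * (∑ l, |y l|) * ∑ a, ‖c a‖ := by
  unfold pLeft2_nc
  rw [Fintype.sum_prod_type]
  simp_rw [Fintype.sum_prod_type, norm_neg, norm_mul, Complex.norm_real, Real.norm_eq_abs]
  simp only [Finset.sum_const, Finset.card_univ, Fintype.card_option, Fintype.card_fin,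
    nsmul_eq_mul]
  push_cast
  rw [Finset.mul_sum]
  refine Finset.sum_congr rfl fun a _ => ?_
  rw [Finset.mul_sum, Finset.sum_mul]
  refine Finset.sum_congr rfl fun l _ => ?_
  ring

theorem pLeft2_lead_none {q : Fin d → Fin d → EE d → ℝ} {ι : Type} (n : ι → ℕ)
    (f : ι → EE d → ℝ) (A : ι → 𝓢(EE d, ℂ)) (c : ι → ℂ) (y : EE d) (a : ι) (l : Fin d) :
    (pLeft2_nc c y (a, l, none) * (if pLeft2_nn n (a, l, (none : Option (Fin d))) = 0
      then (pLeft2_nf Ch q f (a, l, none) 0 : ℂ) else 0)) • pLeft2_nA A (a, l, none) = 0 := by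
  have : pLeft2_nn n (a, l, (none : Option (Fin d))) ≠ 0 := Nat.succ_ne_zero _
  rw [if_neg this]; simp

theorem pLeft2_lead_some {q : Fin d → Fin d → EE d → ℝ}
    (hq0 : ∀ l j, q l j 0 = if l = j then 1 else 0) {ι : Type} (n : ι → ℕ)
    (f : ι → EE d → ℝ) (A : ι → 𝓢(EE d, ℂ)) (c : ι → ℂ) (y : EE d) (a : ι) (l i : Fin d) :
    (pLeft2_nc c y (a, l, some i) * (if pLeft2_nn n (a, l, some i) = 0
      then (pLeft2_nf Ch q f (a, l, some i) 0 : ℂ) else 0)) • pLeft2_nA A (a, l, some i) =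
    if l = i then (-1 : ℂ) • (y l : ℂ) • (c a * if n a = 0 then (f a 0 : ℂ) else 0) • pd l (A a)
      else 0 := by
  have e1 : pLeft2_nf Ch q f (a, l, some i) 0 = f a 0 * (if l = i then 1 else 0) := by
    change f a 0 * pLeft2_cf Ch q l i 0 = _
    rw [pLeft2_cf_zero hq0]
  have e2 : pLeft2_nn n (a, l, some i) = n a := rfl
  have e3 : pLeft2_nA A (a, l, some i) = pd i (A a) := rfl
  have e4 : pLeft2_nc c y (a, l, some i) = -(c a * (y l : ℂ)) := rfl
  rw [e1, e3, e4]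
  by_cases h : l = i
  · subst h
    rw [if_pos rfl, if_pos rfl, smul_smul, smul_smul]
    congr 1
    by_cases hn : n a = 0
    · rw [if_pos (e2.trans hn), if_pos hn]; push_cast; ring
    · rw [if_neg (fun hh => hn (e2.symm.trans hh)), if_neg hn]; ring
  · rw [if_neg h, if_neg h]
    simp

theorem pLeft2_lead {q : Fin d → Fin d → EE d → ℝ} (hq0 : ∀ l j, q l j 0 = if l = j then 1 else 0)
    {ι : Type} [Fintype ι] (n : ι → ℕ) (f : ι → EE d → ℝ) (A : ι → 𝓢(EE d, ℂ)) (c : ι → ℂ)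
    (y : EE d) :
    ∑ p, (pLeft2_nc c y p * (if pLeft2_nn n p = 0 then (pLeft2_nf Ch q f p 0 : ℂ) else 0)) •
      pLeft2_nA A p = (-1 : ℂ) • pdir y (∑ a, (c a * (if n a = 0 then (f a 0 : ℂ) else 0)) • A a) := by
  rw [Fintype.sum_prod_type]
  simp_rw [Fintype.sum_prod_type, Fintype.sum_option, pLeft2_lead_none, pLeft2_lead_some hq0]
  unfold pdir
  simp only [zero_add, map_sum, map_smul, Finset.sum_ite_eq, Finset.mem_univ, if_true]
  simp_rw [Finset.smul_sum]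
  rw [Finset.sum_comm]

theorem pLeft2_I_near (L : LocalRep Ch V E) {q : Fin d → Fin d → EE d → ℝ}
    (hq : ∀ l j, ContDiff ℝ ∞ (q l j)) {f : EE d → ℝ} (hf : IsTest Ch f) (A : 𝓢(EE d, ℂ)) {h : ℝ}
    (hh : 0 < h) (v : V) (yv : EE d) :
    -((h : ℂ) • L.I (fun y => ∑ j, ∑ i, fderiv ℝ
            (fun z => f z * (∑ l, yv l * q l j z) * Ch.M j i z) y (ei i)) A h v)
        - ∑ i, L.I (fun y => f y * ∑ j, (∑ l, yv l * q l j y) * Ch.M j i y) (pd i A) h v =
    -((h : ℂ) • ∑ l, (yv l : ℂ) • L.I (pLeft2_dv Ch q l f) A h v)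
      - ∑ i, ∑ l, (yv l : ℂ) • L.I (fun y => f y * pLeft2_cf Ch q l i y) (pd i A) h v := by
  rw [pLeft2_dv_lin hq hf, pLeft2_I_sum L _ _ (fun l => pLeft2_test_dv hq l hf) A hh]
  congr 1
  refine Finset.sum_congr rfl fun i _ => ?_
  rw [pLeft2_cf_lin, pLeft2_I_sum L _ _
    (fun l => pLeft2_test_mul hf (pLeft2_cf_smooth hq l i)) _ hh]

theorem pLeft2_near_sum (L : LocalRep Ch V E) {q : Fin d → Fin d → EE d → ℝ}
    {ι : Type} [Fintype ι] (n : ι → ℕ) (f : ι → EE d → ℝ) (A : ι → 𝓢(EE d, ℂ)) (c : ι → ℂ)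
    (h : ℝ) (v : V) (y : EE d) :
    ∑ p, pLeft2_nc c y p • (((h : ℂ) ^ pLeft2_nn n p) •
      L.I (pLeft2_nf Ch q f p) (pLeft2_nA A p) h v) =
    ∑ a, c a • (((h : ℂ) ^ n a) • (-((h : ℂ) • ∑ l, (y l : ℂ) • L.I (pLeft2_dv Ch q l (f a)) (A a) h v)
      - ∑ i, ∑ l, (y l : ℂ) • L.I (fun z => f a z * pLeft2_cf Ch q l i z) (pd i (A a)) h v)) := by
  rw [Fintype.sum_prod_type]
  refine Finset.sum_congr rfl fun a _ => ?_
  rw [Fintype.sum_prod_type]
  simp_rw [Fintype.sum_option]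
  rw [Finset.sum_add_distrib, smul_sub, smul_sub, sub_eq_add_neg]
  congr 1
  · rw [smul_neg, smul_neg, Finset.smul_sum, Finset.smul_sum, Finset.smul_sum,
      ← Finset.sum_neg_distrib]
    refine Finset.sum_congr rfl fun l _ => ?_
    change -(c a * (y l : ℂ)) • (((h : ℂ) ^ (n a + 1)) • L.I (pLeft2_dv Ch q l (f a)) (A a) h v) = _
    rw [smul_smul, smul_smul, smul_smul, smul_smul, ← neg_smul]
    congr 1
    ring
  · rw [Finset.sum_comm, Finset.smul_sum, Finset.smul_sum, ← Finset.sum_neg_distrib]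
    refine Finset.sum_congr rfl fun i _ => ?_
    rw [Finset.smul_sum, Finset.smul_sum, ← Finset.sum_neg_distrib]
    refine Finset.sum_congr rfl fun l _ => ?_
    change -(c a * (y l : ℂ)) • (((h : ℂ) ^ (n a)) •
      L.I (fun z => f a z * pLeft2_cf Ch q l i z) (pd i (A a)) h v) = _
    rw [smul_smul, smul_smul, smul_smul, ← neg_smul]
    congr 1
    ring

end PLeft2a

section PLeft2b

theorem pLeft2_fro_nonneg {n : ℕ} (X : M n) : 0 ≤ fro X := Real.sqrt_nonneg _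

theorem pLeft2_fro_trace {n : ℕ} (X : M n) : fro X = Real.sqrt ((Xᵀ * X).trace) := by
  unfold fro
  congr 1
  simp only [Matrix.trace, Matrix.diag_apply, Matrix.mul_apply, Matrix.transpose_apply]
  rw [Finset.sum_comm]
  refine Finset.sum_congr rfl fun i _ => Finset.sum_congr rfl fun j _ => ?_
  ring

theorem pLeft2_fro_entry {n : ℕ} (X : M n) (i j : Fin n) : |X i j| ≤ fro X := by
  unfold fro
  apply Real.abs_le_sqrt
  calc X i j ^ 2 ≤ ∑ j, X i j ^ 2 :=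
        Finset.single_le_sum (f := fun j => X i j ^ 2) (fun j _ => sq_nonneg _) (Finset.mem_univ j)
    _ ≤ ∑ i, ∑ j, X i j ^ 2 :=
        Finset.single_le_sum (f := fun i => ∑ j, X i j ^ 2)
          (fun i _ => Finset.sum_nonneg fun j _ => sq_nonneg _) (Finset.mem_univ i)

theorem pLeft2_fro_smul {n : ℕ} (c : ℝ) (X : M n) : fro (c • X) = |c| * fro X := by
  unfold fro
  simp only [Matrix.smul_apply, smul_eq_mul, mul_pow]
  simp_rw [← Finset.mul_sum]
  rw [Real.sqrt_mul (sq_nonneg c), Real.sqrt_sq_eq_abs]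

variable {G : Type} [Group G] [TopologicalSpace G] {R : RealReductive G}

theorem pLeft2_Ad_mul (g h : G) (X : R.lie) : R.Ad (g * h) X = R.Ad g (R.Ad h X) := by
  apply Subtype.ext
  change (R.ρ (g * h) : M R.n) * X.1 * (R.ρ (g * h)⁻¹ : M R.n) =
    (R.ρ g : M R.n) * ((R.ρ h : M R.n) * X.1 * (R.ρ h⁻¹ : M R.n)) * (R.ρ g⁻¹ : M R.n)
  rw [_root_.mul_inv_rev, map_mul, map_mul, Units.val_mul, Units.val_mul]
  simp only [Matrix.mul_assoc]

theorem pLeft2_Ad_one (X : R.lie) : R.Ad 1 X = X := by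
  apply Subtype.ext
  change (R.ρ 1 : M R.n) * X.1 * (R.ρ (1 : G)⁻¹ : M R.n) = X.1
  rw [inv_one, map_one, Units.val_one, Matrix.one_mul, Matrix.mul_one]

theorem pLeft2_Ad_smul (g : G) (c : ℝ) (X : R.lie) : R.Ad g (c • X) = c • R.Ad g X := by
  apply Subtype.ext
  change (R.ρ g : M R.n) * (c • X.1) * (R.ρ g⁻¹ : M R.n) =
    c • ((R.ρ g : M R.n) * X.1 * (R.ρ g⁻¹ : M R.n))
  rw [Matrix.mul_smul, Matrix.smul_mul]

theorem pLeft2_rho_inv {k : G} (hk : k ∈ R.K) : (R.ρ k⁻¹ : M R.n) = (R.ρ k : M R.n)ᵀ := by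
  have h1 : (R.ρ k : M R.n)ᵀ * (R.ρ k : M R.n) = 1 := hk
  have h2 : (R.ρ k : M R.n) * (R.ρ k⁻¹ : M R.n) = 1 := by
    rw [← Units.val_mul, ← map_mul, mul_inv_cancel, map_one, Units.val_one]
  calc (R.ρ k⁻¹ : M R.n) = ((R.ρ k : M R.n)ᵀ * (R.ρ k : M R.n)) * (R.ρ k⁻¹ : M R.n) := by
        rw [h1, Matrix.one_mul]
    _ = (R.ρ k : M R.n)ᵀ := by rw [Matrix.mul_assoc, h2, Matrix.mul_one]

theorem pLeft2_Ad_skew {k : G} (hk : k ∈ R.K) {X : R.lie} (hX : R.IsSkew X) :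
    R.IsSkew (R.Ad k X) := by
  have hX' : X.1ᵀ = -X.1 := hX
  change ((R.ρ k : M R.n) * X.1 * (R.ρ k⁻¹ : M R.n))ᵀ =
    -((R.ρ k : M R.n) * X.1 * (R.ρ k⁻¹ : M R.n))
  rw [pLeft2_rho_inv hk, Matrix.transpose_mul, Matrix.transpose_mul, Matrix.transpose_transpose,
    hX', Matrix.neg_mul, Matrix.mul_neg, Matrix.mul_assoc]

theorem pLeft2_Ad_fro {k : G} (hk : k ∈ R.K) (X : R.lie) : fro (R.Ad k X).1 = fro X.1 := by
  have h1 : (R.ρ k : M R.n)ᵀ * (R.ρ k : M R.n) = 1 := hk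
  rw [pLeft2_fro_trace, pLeft2_fro_trace]
  congr 1
  change (((R.ρ k : M R.n) * X.1 * (R.ρ k⁻¹ : M R.n))ᵀ *
    ((R.ρ k : M R.n) * X.1 * (R.ρ k⁻¹ : M R.n))).trace = _
  rw [pLeft2_rho_inv hk, Matrix.transpose_mul, Matrix.transpose_mul, Matrix.transpose_transpose]
  set O := (R.ρ k : M R.n)
  calc (O * (X.1ᵀ * Oᵀ) * (O * X.1 * Oᵀ)).trace
      = (O * (X.1ᵀ * (Oᵀ * O) * X.1 * Oᵀ)).trace := by simp only [Matrix.mul_assoc]
    _ = (O * (X.1ᵀ * X.1 * Oᵀ)).trace := by rw [h1, Matrix.mul_one]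
    _ = ((X.1ᵀ * X.1 * Oᵀ) * O).trace := Matrix.trace_mul_comm _ _
    _ = (X.1ᵀ * X.1).trace := by rw [Matrix.mul_assoc, h1, Matrix.mul_one]

theorem pLeft2_co_bound (P : Pack R) (g : G) : ∃ C, 0 ≤ C ∧ ∀ X : R.lie,
    ∑ l, |P.co (R.Ad g X) l| ≤ C * fro X.1 := by
  refine ⟨∑ l, ∑ p, ∑ r, |((R.ρ g⁻¹ : M R.n) * (P.X l).1ᵀ * (R.ρ g : M R.n)) p r|,
    Finset.sum_nonneg fun l _ => Finset.sum_nonneg fun p _ => Finset.sum_nonneg fun r _ =>
      abs_nonneg _, fun X => ?_⟩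
  rw [Finset.sum_mul]
  refine Finset.sum_le_sum fun l _ => ?_
  have e1 : P.co (R.Ad g X) l =
      (((R.ρ g⁻¹ : M R.n) * (P.X l).1ᵀ * (R.ρ g : M R.n)) * X.1).trace := by
    change ((P.X l).1ᵀ * ((R.ρ g : M R.n) * X.1 * (R.ρ g⁻¹ : M R.n))).trace = _
    rw [← Matrix.mul_assoc, Matrix.trace_mul_comm]
    simp only [Matrix.mul_assoc]
  rw [e1]
  set W := (R.ρ g⁻¹ : M R.n) * (P.X l).1ᵀ * (R.ρ g : M R.n)
  simp only [Matrix.trace, Matrix.diag_apply, Matrix.mul_apply]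
  refine (Finset.abs_sum_le_sum_abs _ _).trans ?_
  rw [Finset.sum_mul]
  refine Finset.sum_le_sum fun p _ => ?_
  refine (Finset.abs_sum_le_sum_abs _ _).trans ?_
  rw [Finset.sum_mul]
  refine Finset.sum_le_sum fun r _ => ?_
  rw [abs_mul]
  exact mul_le_mul_of_nonneg_left (pLeft2_fro_entry _ _ _) (abs_nonneg _)

theorem pLeft2_co_smul (P : Pack R) (c : ℝ) (X : R.lie) : P.co (c • X) = c • P.co X := by
  ext l
  change ((P.X l).1ᵀ * (c • X.1)).trace = c * ((P.X l).1ᵀ * X.1).trace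
  rw [Matrix.mul_smul, Matrix.trace_smul, smul_eq_mul]

theorem pLeft2_unit (X : R.lie) (hX : R.IsSkew X) : ∃ Z : R.lie, R.IsSkew Z ∧ fro Z.1 ≤ 1 ∧
    X = fro X.1 • Z := by
  by_cases h : fro X.1 = 0
  · have hX0 : X = 0 := by
      apply Subtype.ext
      ext i j
      have := pLeft2_fro_entry X.1 i j
      rw [h] at this
      exact abs_eq_zero.mp (le_antisymm this (abs_nonneg _))
    refine ⟨0, ?_, ?_, ?_⟩
    · change (0 : M R.n)ᵀ = -(0 : M R.n)
      simp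
    · change fro (0 : M R.n) ≤ 1
      unfold fro
      simp
    · rw [smul_zero, hX0]
  · refine ⟨(fro X.1)⁻¹ • X, ?_, ?_, ?_⟩
    · have hX' : X.1ᵀ = -X.1 := hX
      change ((fro X.1)⁻¹ • X.1)ᵀ = -((fro X.1)⁻¹ • X.1)
      rw [Matrix.transpose_smul, hX', smul_neg]
    · change fro ((fro X.1)⁻¹ • X.1) ≤ 1
      rw [pLeft2_fro_smul, abs_of_nonneg (inv_nonneg.mpr (pLeft2_fro_nonneg _)), inv_mul_cancel₀ h]
    · rw [smul_smul, mul_inv_cancel₀ h, one_smul]

theorem pLeft2_gam_zero (P : Pack R) (X : R.lie) : P.gam X 0 = 1 := by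
  have h1 := (P.gam_spec X).2.1 0 0
  rw [add_zero] at h1
  exact (mul_eq_left (a := P.gam X 0)).mp h1.symm

theorem pLeft2_Pi_zero (P : Pack R) : P.Pi 0 = 1 := by
  unfold Pack.Pi
  apply List.prod_eq_one
  intro x hx
  rw [List.mem_ofFn] at hx
  obtain ⟨i, rfl⟩ := hx
  exact pLeft2_gam_zero P _

theorem pLeft2_mono {a D x x' h S p y y' n : ℝ} (ha : 0 ≤ a) (hD : 0 ≤ D) (hx : 0 ≤ x)
    (hx' : x ≤ x') (hh : 0 ≤ h) (hS : 0 ≤ S) (hp : 0 ≤ p) (hy : 0 ≤ y) (hyy : y ≤ y')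
    (hn : 0 ≤ n) : a * (D + x * h * S) * (p * y) * n ≤ a * (D + x' * h * S) * (p * y') * n := by
  have hx'' : 0 ≤ x' := hx.trans hx'
  have h1 : 0 ≤ a * (D + x' * h * S) := by positivity
  gcongr

/-- the integral formula for families -/
theorem pLeft2_family (h1 : S_left1.{u,v}) [IsTopologicalGroup G] [T2Space G]
    (P : Pack R) (Ch : Chart P.d) (q : Fin P.d → Fin P.d → EE P.d → ℝ)
    (hq : ∀ l j, ContDiff ℝ ∞ (q l j))
    (hAd : ∀ l y, R.Ad (P.Pi y)⁻¹ (P.X l) = ∑ j, q l j y • P.X j)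
    (w : G → ℝ) (V : Type u) [AddCommGroup V] [Module ℂ V] (Mo : HCModule R V)
    (E : Type v) [NormedAddCommGroup E] [NormedSpace ℂ E] [CompleteSpace E] (Gl : Glob Mo w E)
    (L : LocalRep Ch V E) (hLa : ∀ j, L.a j = Mo.act (P.X j))
    (hLo : ∀ v y, L.orb v y = Gl.π (P.Pi y) (Gl.ι v))
    {ι : Type} [Fintype ι] (n : ι → ℕ) (f : ι → EE P.d → ℝ)
    (hf : ∀ a, IsTest Ch (f a)) (A : ι → 𝓢(EE P.d, ℂ)) (h : ℝ) (hh : 0 < h) (c : ι → ℂ)
    (v : V) (Y : R.lie) :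
    (h : ℂ) • (Gl.π (P.gam Y 1) (∑ a, c a • (((h : ℂ) ^ n a) • L.I (f a) (A a) h v)) -
      ∑ a, c a • (((h : ℂ) ^ n a) • L.I (f a) (A a) h v)) =
    ∫ t in (0 : ℝ)..1, Gl.π (P.gam Y t) (∑ p, pLeft2_nc c (P.co Y) p •
      (((h : ℂ) ^ pLeft2_nn n p) • L.I (pLeft2_nf Ch q f p) (pLeft2_nA A p) h v)) := by
  have e1 : ∀ a, (h : ℂ) • (Gl.π (P.gam Y 1) (L.I (f a) (A a) h v) - L.I (f a) (A a) h v) =
      ∫ t in (0 : ℝ)..1, Gl.π (P.gam Y t)
        (-((h : ℂ) • ∑ l, ((P.co Y) l : ℂ) • L.I (pLeft2_dv Ch q l (f a)) (A a) h v)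
      - ∑ i, ∑ l, ((P.co Y) l : ℂ) •
        L.I (fun z => f a z * pLeft2_cf Ch q l i z) (pd i (A a)) h v) := by
    intro a
    rw [h1 G R P Ch q hq hAd w V Mo E Gl L hLa hLo (f a) (hf a) (A a) h hh v Y,
      pLeft2_I_near L hq (hf a) (A a) hh v]
  rw [map_sum, ← Finset.sum_sub_distrib, Finset.smul_sum]
  rw [pLeft2_near_sum]
  have e2 : ∀ t : ℝ, Gl.π (P.gam Y t) (∑ a, c a • (((h : ℂ) ^ n a) •
      (-((h : ℂ) • ∑ l, ((P.co Y) l : ℂ) • L.I (pLeft2_dv Ch q l (f a)) (A a) h v)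
      - ∑ i, ∑ l, ((P.co Y) l : ℂ) •
        L.I (fun z => f a z * pLeft2_cf Ch q l i z) (pd i (A a)) h v))) =
      ∑ a, (c a * (h : ℂ) ^ n a) • Gl.π (P.gam Y t)
        (-((h : ℂ) • ∑ l, ((P.co Y) l : ℂ) • L.I (pLeft2_dv Ch q l (f a)) (A a) h v)
      - ∑ i, ∑ l, ((P.co Y) l : ℂ) •
        L.I (fun z => f a z * pLeft2_cf Ch q l i z) (pd i (A a)) h v) := by
    intro t
    rw [map_sum]
    refine Finset.sum_congr rfl fun a _ => ?_
    rw [map_smul, map_smul, smul_smul]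
  simp_rw [e2]
  rw [intervalIntegral.integral_finsetSum]
  · refine Finset.sum_congr rfl fun a _ => ?_
    rw [intervalIntegral.integral_smul, ← e1 a, map_smul, map_smul, ← smul_sub, ← smul_sub,
      smul_smul, smul_smul, smul_smul]
    congr 1
    ring
  · intro a _
    apply Continuous.intervalIntegrable
    exact ((Gl.cont _).comp (P.gam_spec Y).1).const_smul _

theorem pLeft2_main (h1 : S_left1.{u,v}) (h2 : S_I_norm.{u,v}) (h3 : S_I_flat.{u,v})
    [IsTopologicalGroup G] [T2Space G]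
    (P : Pack R) (Ch : Chart P.d) (q : Fin P.d → Fin P.d → EE P.d → ℝ)
    (hq : ∀ l j, ContDiff ℝ ∞ (q l j)) (hq0 : ∀ l j, q l j 0 = if l = j then 1 else 0)
    (hAd : ∀ l y, R.Ad (P.Pi y)⁻¹ (P.X l) = ∑ j, q l j y • P.X j)
    (w : G → ℝ) (V : Type u) [AddCommGroup V] [Module ℂ V] (Mo : HCModule R V)
    (E : Type v) [NormedAddCommGroup E] [NormedSpace ℂ E] [CompleteSpace E] (Gl : Glob Mo w E)
    (L : LocalRep Ch V E) (hLa : ∀ j, L.a j = Mo.act (P.X j))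
    (hLo : ∀ v y, L.orb v y = Gl.π (P.Pi y) (Gl.ι v))
    (CK : ℝ) (hCK : ∀ k : R.K, w k.1 ≤ CK) (g₀ : G) (θ : ℝ) (hθ : 0 < θ) (m : ℕ) :
    ∀ (ι : Type) [Fintype ι] (n : ι → ℕ) (f : ι → EE P.d → ℝ)
      (_ : ∀ a, IsTest Ch (f a)) (A : ι → 𝓢(EE P.d, ℂ)), ∃ C, 0 ≤ C ∧
    ∀ h : ℝ, 0 < h → h ≤ 1 → ∀ (c : ι → ℂ) (v : V) (k' : R.K) (D' : ℝ), 0 ≤ D' →
      (∀ s ≤ m, ∀ Xs : List R.lie, Xs.length = s → (∀ X ∈ Xs, R.IsSkew X ∧ fro X.1 ≤ 1) →
        L1 (Xs.foldr (fun X B => pdir (P.co (R.Ad g₀⁻¹ X)) B)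
          (∑ a, (c a * (if n a = 0 then (f a 0 : ℂ) else 0)) • A a)) ≤ D' * θ ^ s) →
      ∀ (α : R.K → ℝ) (ks : List R.K), ks.length ≤ m →
      (∀ k ∈ ks, 2 ≤ α k ∨ ∃ X : R.lie, R.IsSkew X ∧ Gl.π k.1 = Gl.π (P.gam X 1) ∧
        fro X.1 * θ / h ≤ α k) →
      ‖(ks.map (fun k => 1 - Gl.π k.1)).prod (Gl.π k'.1 (Gl.π g₀
        (∑ a, c a • (((h : ℂ) ^ n a) • L.I (f a) (A a) h v))))‖ ≤
        CK * w g₀ * L.Cw * (D' + C * h * ∑ a, ‖c a‖) * (ks.map α).prod * ‖Gl.ι v‖ := by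
  have hCK0 : 0 ≤ CK := (norm_nonneg (Gl.π (1 : R.K).1)).trans ((Gl.bound _).trans (hCK 1))
  have hw0 : 0 ≤ w g₀ := (norm_nonneg _).trans (Gl.bound g₀)
  have horb : ∀ v, L.orb v 0 = Gl.ι v := fun v => by
    rw [hLo, pLeft2_Pi_zero, map_one]; rfl
  have hCw := L.Cw_nonneg
  -- the case of the empty list
  have hnil : ∀ (ι : Type) [Fintype ι] (n : ι → ℕ) (f : ι → EE P.d → ℝ)
      (_ : ∀ a, IsTest Ch (f a)) (A : ι → 𝓢(EE P.d, ℂ)), ∃ C, 0 ≤ C ∧
      ∀ h : ℝ, 0 < h → h ≤ 1 → ∀ (c : ι → ℂ) (v : V) (k' : R.K) (D' : ℝ), 0 ≤ D' →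
      L1 (∑ a, (c a * (if n a = 0 then (f a 0 : ℂ) else 0)) • A a) ≤ D' →
      ‖Gl.π k'.1 (Gl.π g₀ (∑ a, c a • (((h : ℂ) ^ n a) • L.I (f a) (A a) h v)))‖ ≤
        CK * w g₀ * L.Cw * (D' + C * h * ∑ a, ‖c a‖) * ‖Gl.ι v‖ := by
    intro ι _ n f hf A
    obtain ⟨C, hC, hC'⟩ := pLeft2_base h2 h3 L n f hf A
    refine ⟨C, hC, fun h hh hh1 c v k' D' hD' hL => ?_⟩
    set U := ∑ a, c a • (((h : ℂ) ^ n a) • L.I (f a) (A a) h v)
    have e1 : ‖U‖ ≤ L.Cw * (D' + C * h * ∑ a, ‖c a‖) * ‖Gl.ι v‖ := by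
      rw [← horb v]
      refine (hC' h hh hh1 c v).trans ?_
      gcongr
    have e2 : ‖Gl.π k'.1 (Gl.π g₀ U)‖ ≤ CK * (w g₀ * ‖U‖) := by
      refine ((Gl.π k'.1).le_opNorm _).trans ?_
      have : ‖Gl.π k'.1‖ ≤ CK := (Gl.bound _).trans (hCK k')
      refine mul_le_mul this ?_ (norm_nonneg _) hCK0
      exact ((Gl.π g₀).le_opNorm _).trans (mul_le_mul_of_nonneg_right (Gl.bound g₀) (norm_nonneg _))
    refine e2.trans ?_
    calc CK * (w g₀ * ‖U‖) ≤ CK * (w g₀ * (L.Cw * (D' + C * h * ∑ a, ‖c a‖) * ‖Gl.ι v‖)) := by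
          gcongr
      _ = _ := by ring
  obtain ⟨C₃, hC₃, hC₃'⟩ := pLeft2_co_bound P g₀⁻¹
  induction m with
  | zero =>
    intro ι _ n f hf A
    obtain ⟨C, hC, hC'⟩ := hnil ι n f hf A
    refine ⟨C, hC, fun h hh hh1 c v k' D' hD' hL α ks hks _ => ?_⟩
    have hks0 : ks = [] := List.length_eq_zero_iff.mp (Nat.le_zero.mp hks)
    subst hks0
    have h5 := hL 0 le_rfl [] rfl (by simp)
    simp only [List.foldr_nil, pow_zero, mul_one] at h5
    have h6 := hC' h hh hh1 c v k' D' hD' h5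
    simpa using h6
  | succ m ih =>
    intro ι _ n f hf A
    obtain ⟨C₀, hC₀, hC₀'⟩ := hnil ι n f hf A
    obtain ⟨C₁, hC₁, hC₁'⟩ := ih ι n f hf A
    obtain ⟨C₂, hC₂, hC₂'⟩ := ih _ (pLeft2_nn n) (pLeft2_nf Ch q f) (pLeft2_nf_test hq f hf)
      (pLeft2_nA A)
    refine ⟨C₀ + C₁ + C₂ * ((P.d + 1) * C₃) / θ, by positivity,
      fun h hh hh1 c v k' D' hD' hL α ks hks hα => ?_⟩
    have hα0 : ∀ k ∈ ks, 0 ≤ α k := by
      intro k hk
      rcases hα k hk with h5 | ⟨X, _, _, h5⟩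
      · linarith
      · refine le_trans ?_ h5
        have := pLeft2_fro_nonneg X.1
        positivity
    have hS : 0 ≤ ∑ a, ‖c a‖ := Finset.sum_nonneg fun a _ => norm_nonneg _
    set S := ∑ a, ‖c a‖ with hSdef
    rcases List.eq_nil_or_concat ks with rfl | ⟨ks', k, rfl⟩
    · have h5 := hL 0 (Nat.zero_le _) [] rfl (by simp)
      simp only [List.foldr_nil, pow_zero, mul_one] at h5
      have h6 := hC₀' h hh hh1 c v k' D' hD' h5
      simp only [List.map_nil, List.prod_nil, mul_one]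
      refine h6.trans ?_
      have h7 : C₀ ≤ C₀ + C₁ + C₂ * ((P.d + 1) * C₃) / θ := by
        have : 0 ≤ C₂ * ((P.d + 1) * C₃) / θ := by positivity
        linarith
      gcongr
    · have hlen : ks'.length ≤ m := by simpa using hks
      have hαk := hα k (by simp)
      have hα' : ∀ k ∈ ks', 2 ≤ α k ∨ ∃ X : R.lie, R.IsSkew X ∧
          Gl.π k.1 = Gl.π (P.gam X 1) ∧ fro X.1 * θ / h ≤ α k := fun k hk => hα k (by simp [hk])
      have hprod : 0 ≤ (ks'.map α).prod := by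
        apply List.prod_nonneg
        intro x hx
        rw [List.mem_map] at hx
        obtain ⟨k, hk, rfl⟩ := hx
        exact hα0 k (by simp [hk])
      set U := ∑ a, c a • (((h : ℂ) ^ n a) • L.I (f a) (A a) h v) with hU
      set T' := (ks'.map (fun k => 1 - Gl.π k.1)).prod with hT'
      simp only [List.concat_eq_append, List.map_append, List.map_cons, List.map_nil,
        List.prod_append, List.prod_cons, List.prod_nil, mul_one]
      rw [mul_apply_eq_comp]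
      rcases hαk with hfar | ⟨X, hX, hkX, hnear⟩
      · have e1 : (1 - Gl.π k.1) (Gl.π k'.1 (Gl.π g₀ U)) =
            Gl.π k'.1 (Gl.π g₀ U) - Gl.π (k * k').1 (Gl.π g₀ U) := by
          rw [Subgroup.coe_mul, map_mul]; rfl
        rw [e1, map_sub]
        have hLm : (∀ s ≤ m, ∀ Xs : List R.lie, Xs.length = s →
            (∀ X ∈ Xs, R.IsSkew X ∧ fro X.1 ≤ 1) →
            L1 (Xs.foldr (fun X B => pdir (P.co (R.Ad g₀⁻¹ X)) B)
            (∑ a, (c a * (if n a = 0 then (f a 0 : ℂ) else 0)) • A a)) ≤ D' * θ ^ s) :=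
          fun s hs => hL s (hs.trans (Nat.le_succ m))
        have b1 := hC₁' h hh hh1 c v k' D' hD' hLm α ks' hlen hα'
        have b2 := hC₁' h hh hh1 c v (k * k') D' hD' hLm α ks' hlen hα'
        refine (norm_sub_le _ _).trans ((add_le_add b1 b2).trans ?_)
        have h7 : C₁ ≤ C₀ + C₁ + C₂ * ((P.d + 1) * C₃) / θ := by
          have : 0 ≤ C₂ * ((P.d + 1) * C₃) / θ := by positivity
          linarith
        calc _ = CK * w g₀ * L.Cw * (D' + C₁ * h * S) * ((ks'.map α).prod * 2) * ‖Gl.ι v‖ := by ring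
          _ ≤ CK * w g₀ * L.Cw * (D' + (C₀ + C₁ + C₂ * ((P.d + 1) * C₃) / θ) * h * S) *
              ((ks'.map α).prod * α k) * ‖Gl.ι v‖ :=
              pLeft2_mono (by positivity) hD' hC₁ h7 hh.le hS hprod (by norm_num) hfar
                (norm_nonneg _)
      · -- near element
        set X' := R.Ad (k'.1)⁻¹ X with hX'
        have hkinv : (k'.1)⁻¹ ∈ R.K := R.K.inv_mem k'.2
        have hX's : R.IsSkew X' := pLeft2_Ad_skew hkinv hX
        have hX'f : fro X'.1 = fro X.1 := pLeft2_Ad_fro hkinv X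
        obtain ⟨Z, hZs, hZf, hZ⟩ := pLeft2_unit X' hX's
        set Y := R.Ad g₀⁻¹ X' with hY
        have hY2 : R.Ad (k'.1 * g₀) Y = X := by
          rw [hY, hX', ← pLeft2_Ad_mul, ← pLeft2_Ad_mul]
          rw [show k'.1 * g₀ * g₀⁻¹ * (k'.1)⁻¹ = 1 by group]
          exact pLeft2_Ad_one X
        have hconj : ∀ t, k'.1 * g₀ * P.gam Y t = P.gam X t * (k'.1 * g₀) := by
          intro t
          have := P.gam_conj (k'.1 * g₀) Y t
          rw [hY2] at this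
          rw [← this]; group
        have hρ : 0 ≤ fro X.1 := pLeft2_fro_nonneg _
        -- the new family
        set y := P.co Y with hy
        have hyb : ∑ l, |y l| ≤ C₃ * fro X.1 := by
          rw [← hX'f]; exact hC₃' X'
        have hyZ : y = fro X.1 • P.co (R.Ad g₀⁻¹ Z) := by
          rw [hy, hY]
          rw [show R.Ad g₀⁻¹ X' = R.Ad g₀⁻¹ (fro X.1 • Z) by rw [← hX'f]; exact congrArg _ hZ]
          rw [pLeft2_Ad_smul, pLeft2_co_smul]
        have hnewL : ∀ s ≤ m, ∀ Xs : List R.lie, Xs.length = s →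
            (∀ X ∈ Xs, R.IsSkew X ∧ fro X.1 ≤ 1) →
            L1 (Xs.foldr (fun X B => pdir (P.co (R.Ad g₀⁻¹ X)) B)
              (∑ p, (pLeft2_nc c y p * (if pLeft2_nn n p = 0 then (pLeft2_nf Ch q f p 0 : ℂ)
                else 0)) • pLeft2_nA A p)) ≤ (fro X.1 * θ * D') * θ ^ s := by
          intro s hs Xs hXs hXs'
          rw [pLeft2_lead hq0, hyZ, pLeft2_pdir_smul_left, smul_smul, pLeft2_foldr_smul,
            pLeft2_L1_smul]
          have e5 := hL (s + 1) (Nat.succ_le_succ hs) (Xs ++ [Z]) (by simp [hXs]) (by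
            intro X0 hX0
            rw [List.mem_append, List.mem_singleton] at hX0
            rcases hX0 with hX0 | rfl
            · exact hXs' X0 hX0
            · exact ⟨hZs, hZf⟩)
          rw [List.foldr_append, List.foldr_cons, List.foldr_nil] at e5
          have e6 : ‖(-1 : ℂ) * ((fro X.1 : ℝ) : ℂ)‖ = fro X.1 := by
            rw [norm_mul, norm_neg, norm_one, one_mul, Complex.norm_real, Real.norm_of_nonneg hρ]
          rw [e6]
          calc _ ≤ fro X.1 * (D' * θ ^ (s + 1)) := mul_le_mul_of_nonneg_left e5 hρ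
            _ = _ := by ring
        have hstep : ∀ t : ℝ, ‖T' (Gl.π k'.1 (Gl.π g₀ (Gl.π (P.gam Y t)
            (∑ p, pLeft2_nc c y p • (((h : ℂ) ^ pLeft2_nn n p) •
              L.I (pLeft2_nf Ch q f p) (pLeft2_nA A p) h v)))))‖ ≤
            CK * w g₀ * L.Cw * (fro X.1 * θ * D' + C₂ * h * ((P.d + 1) * (C₃ * fro X.1) * S)) *
              (ks'.map α).prod * ‖Gl.ι v‖ := by
          intro t
          have b3 := hC₂' h hh hh1 (pLeft2_nc c y) v (⟨P.gam X t, P.gam_mem X hX t⟩ * k')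
            (fro X.1 * θ * D') (by positivity) hnewL α ks' hlen hα'
          have e7 : ∀ u : E, Gl.π k'.1 (Gl.π g₀ (Gl.π (P.gam Y t) u)) =
              Gl.π ((⟨P.gam X t, P.gam_mem X hX t⟩ : R.K) * k').1 (Gl.π g₀ u) := by
            intro u
            rw [Subgroup.coe_mul]
            have e8 : Gl.π (k'.1 * g₀ * P.gam Y t) u = Gl.π (P.gam X t * (k'.1 * g₀)) u := by
              rw [hconj t]
            simp only [map_mul, mul_apply_eq_comp] at e8 ⊢
            exact e8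
          rw [e7]
          refine b3.trans ?_
          rw [pLeft2_nc_norm]
          gcongr
        have hint := pLeft2_family h1 P Ch q hq hAd w V Mo E Gl L hLa hLo n f hf A h hh c v Y
        rw [← hU, ← hy] at hint
        have e9 : (1 - Gl.π k.1) (Gl.π k'.1 (Gl.π g₀ U)) =
            -(Gl.π k'.1 (Gl.π g₀ (Gl.π (P.gam Y 1) U - U))) := by
          have e8 : Gl.π (k'.1 * g₀ * P.gam Y 1) U = Gl.π (P.gam X 1 * (k'.1 * g₀)) U := by
            rw [hconj 1]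
          simp only [map_mul, mul_apply_eq_comp] at e8
          rw [map_sub, map_sub, e8, hkX]
          change Gl.π k'.1 (Gl.π g₀ U) - Gl.π (P.gam X 1) (Gl.π k'.1 (Gl.π g₀ U)) = _
          abel
        have e10 : ‖(h : ℂ) • T' ((1 - Gl.π k.1) (Gl.π k'.1 (Gl.π g₀ U)))‖ ≤
            CK * w g₀ * L.Cw * (fro X.1 * θ * D' + C₂ * h * ((P.d + 1) * (C₃ * fro X.1) * S)) *
              (ks'.map α).prod * ‖Gl.ι v‖ := by
          rw [e9, map_neg, smul_neg, norm_neg, ← map_smul, ← map_smul, ← map_smul, hint]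
          have e11 : T' (Gl.π k'.1 (Gl.π g₀ (∫ t in (0 : ℝ)..1, Gl.π (P.gam Y t)
              (∑ p, pLeft2_nc c y p • (((h : ℂ) ^ pLeft2_nn n p) •
              L.I (pLeft2_nf Ch q f p) (pLeft2_nA A p) h v))))) =
              ∫ t in (0 : ℝ)..1, T' (Gl.π k'.1 (Gl.π g₀ (Gl.π (P.gam Y t)
              (∑ p, pLeft2_nc c y p • (((h : ℂ) ^ pLeft2_nn n p) •
              L.I (pLeft2_nf Ch q f p) (pLeft2_nA A p) h v))))) := by
            have := ContinuousLinearMap.intervalIntegral_comp_comm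
              ((T'.comp (Gl.π k'.1)).comp (Gl.π g₀)) (μ := volume) (a := 0) (b := 1)
              (f := fun t => Gl.π (P.gam Y t)
                (∑ p, pLeft2_nc c y p • (((h : ℂ) ^ pLeft2_nn n p) •
                L.I (pLeft2_nf Ch q f p) (pLeft2_nA A p) h v)))
              (Continuous.intervalIntegrable ((Gl.cont _).comp (P.gam_spec Y).1) _ _)
            exact this.symm
          rw [e11]
          have := intervalIntegral.norm_integral_le_of_norm_le_const (a := (0:ℝ)) (b := 1)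
            (f := fun t => T' (Gl.π k'.1 (Gl.π g₀ (Gl.π (P.gam Y t)
              (∑ p, pLeft2_nc c y p • (((h : ℂ) ^ pLeft2_nn n p) •
              L.I (pLeft2_nf Ch q f p) (pLeft2_nA A p) h v))))))
            (fun t _ => hstep t)
          simpa using this
        rw [norm_smul, Complex.norm_real, Real.norm_of_nonneg hh.le] at e10
        have e12 : ‖T' ((1 - Gl.π k.1) (Gl.π k'.1 (Gl.π g₀ U)))‖ ≤
            (CK * w g₀ * L.Cw * (fro X.1 * θ * D' + C₂ * h * ((P.d + 1) * (C₃ * fro X.1) * S)) *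
              (ks'.map α).prod * ‖Gl.ι v‖) / h := by
          rw [le_div_iff₀ hh]; linarith
        refine e12.trans ?_
        calc _ = CK * w g₀ * L.Cw * (D' + (C₂ * ((P.d + 1) * C₃) / θ) * h * S) *
              ((ks'.map α).prod * (fro X.1 * θ / h)) * ‖Gl.ι v‖ := by
              field_simp
          _ ≤ CK * w g₀ * L.Cw * (D' + (C₀ + C₁ + C₂ * ((P.d + 1) * C₃) / θ) * h * S) *
              ((ks'.map α).prod * α k) * ‖Gl.ι v‖ := by
              have h7 : C₂ * ((P.d + 1) * C₃) / θ ≤ C₀ + C₁ + C₂ * ((P.d + 1) * C₃) / θ := by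
                linarith
              exact pLeft2_mono (by positivity) hD' (by positivity) h7 hh.le hS hprod
                (by positivity) hnear (norm_nonneg _)

end PLeft2b

/-- TARGET -/
theorem left_calc (h1 : S_left1.{u,v}) (h2 : S_I_norm.{u,v}) (h3 : S_I_flat.{u,v}) : S_left.{u,v} := by
  intro G _ _ _ _ R P Ch q hq hq0 hAd w V _ _ Mo E _ _ _ Gl L hLa hLo CK hCK g₀ A m D θ hθ hD hL
  obtain ⟨C, hC, hC'⟩ := pLeft2_main h1 h2 h3 P Ch q hq hq0 hAd w V Mo E Gl L hLa hLo CK hCK g₀ θ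
    hθ m Unit (fun _ => 0) (fun _ => Ch.χ) (fun _ => pLeft2_chi) (fun _ => A)
  refine ⟨min 1 (C + 1)⁻¹, lt_min one_pos (by positivity), fun h hh hh0 v α ks hks hα => ?_⟩
  have hh1 : h ≤ 1 := hh0.le.trans (min_le_left _ _)
  have hh2 : C * h ≤ 1 := by
    have h5 : h ≤ (C + 1)⁻¹ := hh0.le.trans (min_le_right _ _)
    calc C * h ≤ (C + 1) * (C + 1)⁻¹ := by gcongr; linarith
      _ = 1 := mul_inv_cancel₀ (by positivity)
  have key := hC' h hh hh1 (fun _ => 1) v 1 D hD (by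
    intro s hs Xs hXs hXs'
    have := hL s hs Xs hXs hXs'
    simpa [Ch.χ_zero] using this) α ks hks hα
  have hCK0 : 0 ≤ CK := (norm_nonneg (Gl.π (1 : R.K).1)).trans ((Gl.bound _).trans (hCK 1))
  have hw0 : 0 ≤ w g₀ := (norm_nonneg _).trans (Gl.bound g₀)
  have hCw := L.Cw_nonneg
  have hprod : 0 ≤ (ks.map α).prod := by
    apply List.prod_nonneg
    intro x hx
    rw [List.mem_map] at hx
    obtain ⟨k, hk, rfl⟩ := hx
    rcases hα k hk with h5 | ⟨X, _, _, h5⟩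
    · linarith
    · refine le_trans ?_ h5
      have := pLeft2_fro_nonneg X.1
      positivity
  simp only [Finset.univ_unique, Finset.sum_singleton, pow_zero, one_smul, norm_one, mul_one,
    Subgroup.coe_one, map_one, one_apply_eq_self] at key
  refine key.trans ?_
  gcongr

end Pool.Agent.H913.SG
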