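import Pool.Agent.H913.SG.Stmts2

open MeasureTheory Matrix NormedSpace
open scoped SchwartzMap ContDiff FourierTransform Matrix

universe u v

namespace Pool.Agent.H913.SG

/-- A weight is bounded on the compact group `K`. -/
theorem qBernU_bdd {G : Type} [Group G] [TopologicalSpace G] {R : RealReductive G} (P : Pack R)
    {w : G → ℝ} (hw : IsWeight w) : ∃ C : ℝ, 0 ≤ C ∧ ∀ k : R.K, w k.1 ≤ C := by
  have := P.compactK
  have h : ∃ C : ℝ, 0 ≤ C ∧ ∀ k ∈ (Set.univ : Set R.K), w k.1 ≤ C := by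
    refine isCompact_univ.induction_on (p := fun S : Set R.K => ∃ C : ℝ, 0 ≤ C ∧ ∀ k ∈ S, w k.1 ≤ C)
      ?_ ?_ ?_ ?_
    · exact ⟨0, le_rfl, fun k hk => absurd hk (Set.notMem_empty k)⟩
    · rintro S T hST ⟨C, hC0, hC⟩
      exact ⟨C, hC0, fun k hk => hC k (hST hk)⟩
    · rintro S T ⟨C, hC0, hC⟩ ⟨D, hD0, hD⟩
      refine ⟨max C D, le_max_of_le_left hC0, ?_⟩
      rintro k (hk | hk)
      · exact (hC k hk).trans (le_max_left _ _)
      · exact (hD k hk).trans (le_max_right _ _)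
    · intro k _
      obtain ⟨U, hU, C, hC⟩ := hw.locally_bounded k.1
      refine ⟨(Subtype.val : R.K → G) ⁻¹' U, ?_, max C 0, le_max_right _ _, ?_⟩
      · rw [nhdsWithin_univ]
        exact continuous_subtype_val.continuousAt hU
      · intro x hx
        exact (hC x.1 hx).trans (le_max_left _ _)
  obtain ⟨C, hC0, hC⟩ := h
  exact ⟨C, hC0, fun k => hC k (Set.mem_univ k)⟩

/-- TARGET -/
theorem bernU (h1 : S_bern) : S_bernU.{u,v} := by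
  intro G _ _ _ _ _ R P s w hw
  obtain ⟨CK, hCK0, hCK⟩ := qBernU_bdd P hw
  obtain ⟨CB, hCB0, hCB⟩ := h1 G R P s
  refine ⟨CB * CK, mul_nonneg hCB0 hCK0, ?_⟩
  intro V _ _ Mo E _ _ Gl N v hv X hX
  obtain ⟨l, hl1, hl2⟩ := exists_dual_vector'' ℂ (Gl.ι (Mo.act X v))
  set φ : V →ₗ[ℂ] ℂ := (l : E →ₗ[ℂ] ℂ) ∘ₗ Gl.ι with hφ
  have hS : ∀ k : R.K, ‖φ (Mo.kact k v)‖ ≤ CK * ‖Gl.ι v‖ := by
    intro k
    have e : φ (Mo.kact k v) = l (Gl.π k.1 (Gl.ι v)) := by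
      rw [Gl.kcomp]; rfl
    rw [e]
    calc ‖l (Gl.π k.1 (Gl.ι v))‖ ≤ ‖l‖ * ‖Gl.π k.1 (Gl.ι v)‖ := l.le_opNorm _
      _ ≤ 1 * (‖Gl.π k.1‖ * ‖Gl.ι v‖) := by
        gcongr
        exact (Gl.π k.1).le_opNorm _
      _ ≤ CK * ‖Gl.ι v‖ := by
        rw [one_mul]
        gcongr
        exact (Gl.bound k.1).trans (hCK k)
  obtain ⟨D, hD1, hD2⟩ := hCB N (fun k => φ (Mo.kact k v)) (hv φ) X hX (CK * ‖Gl.ι v‖) hS 1
  have h3 := Mo.deriv X (P.gam X) (P.gam_spec X) (P.gam_mem X hX) v φ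
  have h4 : D = φ (Mo.act X v) := by
    refine hD1.unique ?_
    simpa only [one_mul] using h3
  have h5 : φ (Mo.act X v) = (‖Gl.ι (Mo.act X v)‖ : ℂ) := hl2
  have h6 : ‖D‖ = ‖Gl.ι (Mo.act X v)‖ := by
    rw [h4, h5]; simp
  rw [h6] at hD2
  refine hD2.trans (le_of_eq ?_)
  ring

end Pool.Agent.H913.SG
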