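import Pool.Agent.H913.SG.Stmts2

open MeasureTheory Matrix NormedSpace
open scoped SchwartzMap ContDiff FourierTransform Matrix

universe u v

namespace Pool.Agent.H913.SG

lemma qClos_fro_smul {n : ℕ} (c : ℝ) (X : M n) : fro (c • X) = |c| * fro X := by
  unfold fro
  have h : ∑ i, ∑ j, ((c • X) i j) ^ 2 = c ^ 2 * ∑ i, ∑ j, (X i j) ^ 2 := by
    rw [Finset.mul_sum]
    apply Finset.sum_congr rfl
    intro i _
    rw [Finset.mul_sum]
    apply Finset.sum_congr rfl
    intro j _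
    rw [Matrix.smul_apply, smul_eq_mul, mul_pow]
  rw [h, Real.sqrt_mul (sq_nonneg c), Real.sqrt_sq_eq_abs]

lemma qClos_fro_nonneg {n : ℕ} (X : M n) : 0 ≤ fro X := Real.sqrt_nonneg _

/-- the numerical sequence -/
lemma qClos_tendsto (ε : ℝ) (hε0 : 0 ≤ ε) (hε : ε ≤ 1 / 8) (N : ℕ) :
    Filter.Tendsto (fun n : ℕ => (1 / (n.factorial : ℝ)) *
      ∏ i ∈ Finset.range (n + 1), (ε * ((N : ℝ) + 2 * i))) Filter.atTop (nhds 0) := by
  apply Summable.tendsto_atTop_zero
  apply summable_of_ratio_norm_eventually_le (r := 1 / 2) (by norm_num)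
  filter_upwards [Filter.eventually_ge_atTop N] with n hn
  rw [Finset.prod_range_succ _ (n + 1), Nat.factorial_succ]
  have hn' : (N : ℝ) ≤ n := by exact_mod_cast hn
  have h1 : (1 / (((n + 1) * n.factorial : ℕ) : ℝ)) *
      ((∏ i ∈ Finset.range (n + 1), (ε * ((N : ℝ) + 2 * i))) *
        (ε * ((N : ℝ) + 2 * ((n + 1 : ℕ) : ℝ)))) =
      (ε * ((N : ℝ) + 2 * ((n + 1 : ℕ) : ℝ)) / ((n : ℝ) + 1)) * ((1 / (n.factorial : ℝ)) *
      ∏ i ∈ Finset.range (n + 1), (ε * ((N : ℝ) + 2 * i))) := by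
    have : (n.factorial : ℝ) ≠ 0 := by positivity
    have h2 : (n : ℝ) + 1 ≠ 0 := by positivity
    push_cast
    field_simp
  rw [h1, norm_mul]
  apply mul_le_mul_of_nonneg_right _ (norm_nonneg _)
  rw [Real.norm_eq_abs, abs_of_nonneg (by positivity), div_le_iff₀ (by positivity)]
  push_cast
  have hN : (0 : ℝ) ≤ N := Nat.cast_nonneg N
  nlinarith

section
variable {G : Type} [Group G] [TopologicalSpace G]
  {R : RealReductive G} {P : Pack R} {w : G → ℝ} {V : Type u} [AddCommGroup V] [Module ℂ V]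
  {Mo : HCModule R V} {E : Type v} [NormedAddCommGroup E] [NormedSpace ℂ E]

lemma qClos_hasDeriv (P : Pack R) (Gl : Glob Mo w E) (X : R.lie) (u : V) (s : ℝ) :
    HasDerivAt (fun t : ℝ => Gl.π (P.gam X t) (Gl.ι u)) (Gl.π (P.gam X s) (Gl.ι (Mo.act X u))) s := by
  have h0 := Gl.deriv X (P.gam X) (P.gam_spec X) u
  have h1 : HasDerivAt (fun t : ℝ => Gl.π (P.gam X (t - s)) (Gl.ι u)) (Gl.ι (Mo.act X u)) s := by
    have h2 : HasDerivAt (fun t : ℝ => Gl.π (P.gam X t) (Gl.ι u)) (Gl.ι (Mo.act X u)) (s - s) := by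
      rw [sub_self]; exact h0
    exact h2.comp_sub_const s s
  have h3 := ((Gl.π (P.gam X s)).restrictScalars ℝ).hasFDerivAt.comp_hasDerivAt s h1
  have h4 : (fun t : ℝ => Gl.π (P.gam X t) (Gl.ι u)) =
      (((Gl.π (P.gam X s)).restrictScalars ℝ) ∘ fun t : ℝ => Gl.π (P.gam X (t - s)) (Gl.ι u)) := by
    funext t
    have h5 : P.gam X t = P.gam X s * P.gam X (t - s) := by
      rw [← (P.gam_spec X).2.1]
      congr 1
      ring
    rw [h5, map_mul]
    rfl
  rw [h4]
  exact h3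

/-- the interpolating sum -/
noncomputable def qClos_g (P : Pack R) (Gl : Glob Mo w E) (X : R.lie) (v : V) (n : ℕ) (s : ℝ) : E :=
  ∑ j ∈ Finset.range (n + 1), ((1 - s) ^ j / (j.factorial : ℝ)) •
    Gl.π (P.gam X s) (Gl.ι ((Mo.act X ^ j) v))

lemma qClos_g_deriv (P : Pack R) (Gl : Glob Mo w E) (X : R.lie) (v : V) (n : ℕ) (s : ℝ) :
    HasDerivAt (qClos_g P Gl X v n) (((1 - s) ^ n / (n.factorial : ℝ)) •
      Gl.π (P.gam X s) (Gl.ι ((Mo.act X ^ (n + 1)) v))) s := by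
  induction n with
  | zero =>
    have h := qClos_hasDeriv P Gl X v s
    have h1 : qClos_g P Gl X v 0 = fun t : ℝ => Gl.π (P.gam X t) (Gl.ι v) := by
      funext t
      simp [qClos_g]
    rw [h1]
    simpa using h
  | succ n ih =>
    have h1 : qClos_g P Gl X v (n + 1) = fun t => qClos_g P Gl X v n t +
        ((1 - t) ^ (n + 1) / ((n + 1).factorial : ℝ)) •
          Gl.π (P.gam X t) (Gl.ι ((Mo.act X ^ (n + 1)) v)) := by
      funext t
      unfold qClos_g
      rw [Finset.sum_range_succ _ (n + 1)]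
    rw [h1]
    have h2 : HasDerivAt (fun t : ℝ => (1 - t) ^ (n + 1) / ((n + 1).factorial : ℝ))
        (-((1 - s) ^ n / (n.factorial : ℝ))) s := by
      have h3 : HasDerivAt (fun t : ℝ => 1 - t) (-1) s := by
        simpa using (hasDerivAt_id s).const_sub 1
      have h4 := (h3.pow (n + 1)).div_const ((n + 1).factorial : ℝ)
      refine h4.congr_deriv ?_
      rw [Nat.factorial_succ]
      have : (n.factorial : ℝ) ≠ 0 := by positivity
      have h2 : (n : ℝ) + 1 ≠ 0 := by positivity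
      push_cast
      field_simp
    have h5 := h2.smul (qClos_hasDeriv P Gl X ((Mo.act X ^ (n + 1)) v) s)
    have h6 := ih.add h5
    refine h6.congr_deriv ?_
    have h7 : Mo.act X ((Mo.act X ^ (n + 1)) v) = (Mo.act X ^ (n + 1 + 1)) v := by
      rw [pow_succ' _ (n + 1)]; rfl
    rw [h7, neg_smul]
    abel

lemma qClos_gam_zero (P : Pack R) (X : R.lie) : P.gam X 0 = 1 := by
  have h := (P.gam_spec X).2.1 0 0
  rw [add_zero] at h
  exact left_eq_mul.mp h

lemma qClos_small (P : Pack R) (s : KRep R) (hw : IsWeight w)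
    (hU : ∀ N (X : R.lie), ∀ v ∈ s.U Mo N, Mo.act X v ∈ s.U Mo (N + 2))
    (hex : ∀ v, ∃ N, v ∈ s.U Mo N)
    (hmono : ∀ N M, N ≤ M → s.U Mo N ≤ s.U Mo M)
    (Gl : Glob Mo w E) (C : ℝ) (N₀ : ℕ) (hC : 0 ≤ C)
    (hB : ∀ N, N₀ ≤ N → ∀ v ∈ s.U Mo N, ∀ X : R.lie,
      ‖Gl.ι (Mo.act X v)‖ ≤ C * N * fro X.1 * ‖Gl.ι v‖)
    (X : R.lie) (hX : C * fro X.1 ≤ 1 / 8) (v : V) :
    Gl.π (P.gam X 1) (Gl.ι v) ∈ closure (Set.range Gl.ι) := by
  obtain ⟨N1, hN1⟩ := hex v
  obtain ⟨N, hN, hvN⟩ : ∃ N, N₀ ≤ N ∧ v ∈ s.U Mo N :=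
    ⟨max N₀ N1, le_max_left _ _, hmono _ _ (le_max_right _ _) hN1⟩
  -- powers
  have hpow : ∀ n : ℕ, (Mo.act X ^ n) v ∈ s.U Mo (N + 2 * n) ∧
      ‖Gl.ι ((Mo.act X ^ n) v)‖ ≤
        (∏ i ∈ Finset.range n, (C * fro X.1 * ((N : ℝ) + 2 * i))) * ‖Gl.ι v‖ := by
    intro n
    induction n with
    | zero => simpa using hvN
    | succ n ih =>
      obtain ⟨ih1, ih2⟩ := ih
      have h7 : (Mo.act X ^ (n + 1)) v = Mo.act X ((Mo.act X ^ n) v) := by
        rw [pow_succ' _ n]; rfl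
      constructor
      · rw [h7]
        have h9 := hU _ X _ ih1
        have h10 : N + 2 * (n + 1) = N + 2 * n + 2 := by ring
        rw [h10]
        exact h9
      · rw [h7, Finset.prod_range_succ]
        refine (hB (N + 2 * n) (by omega) _ ih1 X).trans ?_
        have h8 : 0 ≤ C * ((N + 2 * n : ℕ) : ℝ) * fro X.1 := by
          have := qClos_fro_nonneg X.1
          positivity
        refine (mul_le_mul_of_nonneg_left ih2 h8).trans (le_of_eq ?_)
        push_cast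
        ring
  -- bound of the operators
  obtain ⟨B, hB0, hBb⟩ : ∃ B : ℝ, 0 ≤ B ∧ ∀ t ∈ Set.Icc (0 : ℝ) 1, ‖Gl.π (P.gam X t)‖ ≤ B := by
    have hcomp : IsCompact (P.gam X '' Set.Icc (0 : ℝ) 1) :=
      isCompact_Icc.image (P.gam_spec X).1
    have : ∃ B : ℝ, ∀ g ∈ P.gam X '' Set.Icc (0 : ℝ) 1, w g ≤ B := by
      refine hcomp.induction_on (p := fun S => ∃ B : ℝ, ∀ g ∈ S, w g ≤ B) ?_ ?_ ?_ ?_
      · exact ⟨0, by simp⟩
      · rintro S T hST ⟨B, hB⟩
        exact ⟨B, fun g hg => hB g (hST hg)⟩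
      · rintro S T ⟨B, hB⟩ ⟨B', hB'⟩
        refine ⟨max B B', ?_⟩
        rintro g (hg | hg)
        · exact (hB g hg).trans (le_max_left _ _)
        · exact (hB' g hg).trans (le_max_right _ _)
      · intro g _
        obtain ⟨U, hU, C, hC⟩ := hw.locally_bounded g
        exact ⟨U, mem_nhdsWithin_of_mem_nhds hU, C, hC⟩
    obtain ⟨B, hB⟩ := this
    refine ⟨max B 0, le_max_right _ _, fun t ht => ?_⟩
    exact ((Gl.bound _).trans (hB _ ⟨t, ht, rfl⟩)).trans (le_max_left _ _)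
  -- the estimate
  have hest : ∀ n : ℕ, ‖Gl.π (P.gam X 1) (Gl.ι v) - qClos_g P Gl X v n 0‖ ≤
      (B * ‖Gl.ι v‖) * ((1 / (n.factorial : ℝ)) *
        ∏ i ∈ Finset.range (n + 1), (C * fro X.1 * ((N : ℝ) + 2 * i))) := by
    intro n
    have hg1 : qClos_g P Gl X v n 1 = Gl.π (P.gam X 1) (Gl.ι v) := by
      unfold qClos_g
      rw [Finset.sum_eq_single 0]
      · simp
      · intro j _ hj
        simp [hj]
      · simp
    rw [← hg1]
    have hbd : ∀ t ∈ Set.Icc (0 : ℝ) 1, ‖((1 - t) ^ n / (n.factorial : ℝ)) •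
        Gl.π (P.gam X t) (Gl.ι ((Mo.act X ^ (n + 1)) v))‖ ≤
        (B * ‖Gl.ι v‖) * ((1 / (n.factorial : ℝ)) *
        ∏ i ∈ Finset.range (n + 1), (C * fro X.1 * ((N : ℝ) + 2 * i))) := by
      intro t ht
      rw [norm_smul]
      have h1 : ‖(1 - t) ^ n / (n.factorial : ℝ)‖ ≤ 1 / (n.factorial : ℝ) := by
        rw [Real.norm_eq_abs, abs_div, abs_pow, abs_of_pos (show (0 : ℝ) < n.factorial by positivity)]
        apply div_le_div_of_nonneg_right _ (by positivity)
        apply pow_le_one₀ (abs_nonneg _)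
        rw [abs_of_nonneg (by linarith [ht.2])]
        linarith [ht.1]
      have h2 : ‖Gl.π (P.gam X t) (Gl.ι ((Mo.act X ^ (n + 1)) v))‖ ≤
          B * ((∏ i ∈ Finset.range (n + 1), (C * fro X.1 * ((N : ℝ) + 2 * i))) * ‖Gl.ι v‖) := by
        refine ((Gl.π (P.gam X t)).le_opNorm _).trans ?_
        apply mul_le_mul (hBb t ht) (hpow (n + 1)).2 (norm_nonneg _) hB0
      calc _ ≤ (1 / (n.factorial : ℝ)) *
          (B * ((∏ i ∈ Finset.range (n + 1), (C * fro X.1 * ((N : ℝ) + 2 * i))) * ‖Gl.ι v‖)) :=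
            mul_le_mul h1 h2 (norm_nonneg _) (by positivity)
        _ = _ := by ring
    have := (convex_Icc (0 : ℝ) 1).norm_image_sub_le_of_norm_hasDerivWithin_le
      (f := qClos_g P Gl X v n) (fun t _ => (qClos_g_deriv P Gl X v n t).hasDerivWithinAt) hbd
      (Set.left_mem_Icc.mpr zero_le_one) (Set.right_mem_Icc.mpr zero_le_one)
    simpa using this
  have hlim : Filter.Tendsto (fun n => qClos_g P Gl X v n 0) Filter.atTop
      (nhds (Gl.π (P.gam X 1) (Gl.ι v))) := by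
    rw [tendsto_iff_norm_sub_tendsto_zero]
    have h0 := (qClos_tendsto (C * fro X.1) (mul_nonneg hC (qClos_fro_nonneg _)) hX N).const_mul
      (B * ‖Gl.ι v‖)
    rw [mul_zero] at h0
    refine squeeze_zero (fun n => norm_nonneg _) (fun n => ?_) h0
    rw [norm_sub_rev]
    exact hest n
  refine mem_closure_of_tendsto hlim (Filter.Eventually.of_forall fun n => ?_)
  refine ⟨∑ j ∈ Finset.range (n + 1), ((((1 : ℝ) / (j.factorial : ℝ) : ℝ)) : ℂ) •
    ((Mo.act X ^ j) v), ?_⟩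
  unfold qClos_g
  rw [map_sum]
  apply Finset.sum_congr rfl
  intro j _
  rw [map_smul, qClos_gam_zero, map_one, sub_zero, one_pow]
  simp only [one_apply_eq_self]
  rw [Complex.coe_smul]

end

/-- TARGET -/
theorem clos : S_clos.{u,v} := by
  intro G _ _ _ _ R P s w hw V _ _ Mo hU hex hmono E _ _ _ Gl C N₀ hC hB g hg
  -- small elements
  have hsmall : ∀ X : R.lie, C * fro X.1 ≤ 1 / 8 → ∀ x ∈ closure (Set.range Gl.ι),
      Gl.π (P.gam X 1) x ∈ closure (Set.range Gl.ι) := by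
    intro X hX x hx
    have := map_mem_closure (t := closure (Set.range Gl.ι)) (Gl.π (P.gam X 1)).continuous hx (by
      rintro _ ⟨v, rfl⟩
      exact qClos_small P s hw hU hex hmono Gl C N₀ hC hB X hX v)
    rwa [closure_closure] at this
  have hpow : ∀ (X : R.lie) (t : ℝ) (k : ℕ), P.gam X (k * t) = (P.gam X t) ^ k := by
    intro X t k
    induction k with
    | zero => simp [qClos_gam_zero]
    | succ k ih =>
      rw [pow_succ, ← ih, ← (P.gam_spec X).2.1]
      congr 1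
      push_cast
      ring
  have hpowD : ∀ (a : G), (∀ x ∈ closure (Set.range Gl.ι), Gl.π a x ∈ closure (Set.range Gl.ι)) →
      ∀ k : ℕ, ∀ x ∈ closure (Set.range Gl.ι), Gl.π (a ^ k) x ∈ closure (Set.range Gl.ι) := by
    intro a ha k
    induction k with
    | zero => intro x hx; simpa using hx
    | succ k ih =>
      intro x hx
      rw [pow_succ, map_mul]
      exact ih _ (ha x hx)
  have hall : ∀ (X : R.lie) (t : ℝ), ∀ x ∈ closure (Set.range Gl.ι),
      Gl.π (P.gam X t) x ∈ closure (Set.range Gl.ι) := by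
    intro X t
    obtain ⟨k, hk⟩ := exists_nat_ge (8 * (C * (|t| * fro X.1)))
    have hk1 : (0 : ℝ) < ((k + 1 : ℕ) : ℝ) := by positivity
    have h1 : C * fro ((t / ((k + 1 : ℕ) : ℝ)) • X : R.lie).1 ≤ 1 / 8 := by
      have h2 : ((t / ((k + 1 : ℕ) : ℝ)) • X : R.lie).1 = (t / ((k + 1 : ℕ) : ℝ)) • X.1 := rfl
      rw [h2, qClos_fro_smul, abs_div, abs_of_pos hk1]
      have h3 : C * (|t| / ((k + 1 : ℕ) : ℝ) * fro X.1) =
          (C * (|t| * fro X.1)) / ((k + 1 : ℕ) : ℝ) := by ring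
      rw [h3, div_le_iff₀ hk1]
      push_cast
      linarith
    have h4 := hpowD _ (hsmall _ h1) (k + 1)
    rw [P.gam_smul, mul_one, ← hpow] at h4
    have h5 : ((k + 1 : ℕ) : ℝ) * (t / ((k + 1 : ℕ) : ℝ)) = t := by
      field_simp
    rwa [h5] at h4
  let S : Subgroup G :=
    { carrier := {g | (∀ x ∈ closure (Set.range Gl.ι), Gl.π g x ∈ closure (Set.range Gl.ι)) ∧
        (∀ x ∈ closure (Set.range Gl.ι), Gl.π g⁻¹ x ∈ closure (Set.range Gl.ι))}
      one_mem' := by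
        constructor
        · intro x hx; simpa using hx
        · intro x hx; simpa using hx
      mul_mem' := by
        rintro a b ⟨ha, ha'⟩ ⟨hb, hb'⟩
        constructor
        · intro x hx
          rw [map_mul]
          exact ha _ (hb x hx)
        · intro x hx
          rw [_root_.mul_inv_rev, map_mul]
          exact hb' _ (ha' x hx)
      inv_mem' := by
        rintro a ⟨ha, ha'⟩
        refine ⟨ha', ?_⟩
        rw [inv_inv]
        exact ha }
  have hle : P.Gp ≤ S := by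
    unfold Pack.Gp
    rw [Subgroup.closure_le]
    rintro _ ⟨X, t, rfl⟩
    refine ⟨hall X t, ?_⟩
    have : (P.gam X t)⁻¹ = P.gam X (-t) := by
      apply inv_eq_of_mul_eq_one_right
      rw [← (P.gam_spec X).2.1, add_neg_cancel, qClos_gam_zero]
    rw [this]
    exact hall X (-t)
  exact (hle hg).1

end Pool.Agent.H913.SG
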