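import Pool.Agent.H913.SG.Stmts2

open MeasureTheory Matrix NormedSpace
open scoped SchwartzMap ContDiff FourierTransform Matrix

universe u v

namespace Pool.Agent.H913.SG

/-- the elements of `K` in the kernel of `ρ` which act trivially on the module -/
def qFinal_F {G : Type} [Group G] [TopologicalSpace G] {R : RealReductive G}
    {V : Type u} [AddCommGroup V] [Module ℂ V] (Mo : HCModule R V) : Set R.K :=
  {k | R.ρ k.1 = 1 ∧ Mo.kact k = 1}

/-- uniform choice of `M₀` for all modules with given `qFinal_F` -/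
theorem qFinal_claim (h2 : S_krep.{u}) (h3 : S_core.{u}) (G : Type) [Group G]
    [TopologicalSpace G] [IsTopologicalGroup G] [T2Space G] [SecondCountableTopology G]
    (R : RealReductive G) (P : Pack R) (w : G → ℝ) (hw : IsWeight w) (B : R.InvBasis)
    (F' : Set R.K) : ∃ M₀ : ℕ, ∀ M, M₀ ≤ M →
      ∀ (V : Type u) [AddCommGroup V] [Module ℂ V] (Mo : HCModule R V), qFinal_F Mo = F' →
      ∀ (E₁ E₂ : Type u) [NormedAddCommGroup E₁] [NormedSpace ℂ E₁] [CompleteSpace E₁]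
        [NormedAddCommGroup E₂] [NormedSpace ℂ E₂] [CompleteSpace E₂] (Gl₁ : Glob Mo w E₁)
        (Gl₂ : Glob Mo w E₂), DenseRange Gl₁.ι → DenseRange Gl₂.ι →
        ∃ C : ℝ, ∀ v, ‖Gl₂.ι v‖ ≤ C * ‖Gl₁.ι (((1 + lap Mo B) ^ M) v)‖ := by
  by_cases h : ∃ (V : Type u) (_ : AddCommGroup V) (_ : Module ℂ V) (Mo : HCModule R V),
      qFinal_F Mo = F'
  · obtain ⟨V₀, i1, i2, Mo₀, h0⟩ := h
    obtain ⟨s, hs1, hs2⟩ := h2 G R P V₀ Mo₀
    obtain ⟨M₀, hM₀⟩ := h3 G R P s w hw B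
    refine ⟨M₀, fun M hM V _ _ Mo hF E₁ E₂ _ _ _ _ _ _ Gl₁ Gl₂ hd1 hd2 => ?_⟩
    refine hM₀ M hM V Mo ?_ E₁ E₂ Gl₁ Gl₂ hd1 hd2
    intro k hk
    have hρ : R.ρ k.1 = 1 := by
      apply Units.ext
      ext i j
      obtain ⟨c, hc⟩ := s.entries i j
      have e1 := hc k
      have e2 := hc 1
      rw [hk] at e1
      rw [map_one] at e2
      have e3 : R.ρ (1 : R.K).1 = 1 := by
        rw [Subgroup.coe_one, map_one]
      rw [e3] at e2
      exact e1.trans e2.symm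
    have hmem : k ∈ qFinal_F Mo₀ := ⟨hρ, hs1 k hk⟩
    rw [h0, ← hF] at hmem
    exact hmem.2
  · refine ⟨0, fun M _ V _ _ Mo hF => ?_⟩
    exact absurd ⟨V, inferInstance, inferInstance, Mo, hF⟩ h

/-- the set of elements of `K` in the kernel of `ρ` is finite -/
theorem qFinal_finite {G : Type} [Group G] [TopologicalSpace G] (R : RealReductive G) :
    {k : R.K | R.ρ k.1 = 1}.Finite := by
  have h := R.finite_ker
  exact (h.preimage (f := fun k : R.K => k.1) (Subtype.val_injective.injOn)).subset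
    (fun k hk => by
      simp only [Set.mem_preimage, SetLike.mem_coe, MonoidHom.mem_ker]
      exact hk)

/-- TARGET -/
theorem final (h1 : S_pack) (h2 : S_krep.{u}) (h3 : S_core.{u}) (h4 : S_sob.{u}) (h5 : S_renorm.{u}) : S_final.{u} := by
  intro G _ _ _ _ _ R w hw B
  obtain ⟨P⟩ := h1 G R
  choose f hf using qFinal_claim h2 h3 G R P w hw B
  have hfin : {F' : Set R.K | F' ⊆ {k : R.K | R.ρ k.1 = 1}}.Finite :=
    (qFinal_finite R).finite_subsets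
  obtain ⟨M, hM⟩ := (hfin.image f).bddAbove
  have hMle : ∀ F' : Set R.K, F' ⊆ {k : R.K | R.ρ k.1 = 1} → f F' ≤ M :=
    fun F' hF' => hM ⟨F', hF', rfl⟩
  refine ⟨2 * M, by positivity, ?_⟩
  intro V _ _ Mo _
  have hpow := (h4 G R P B V Mo).1 M
  have key : ∀ p q : V → ℝ, IsNormIn Mo w p → IsNormIn Mo w q →
      NormLE q (fun v => p (((1 + lap Mo B) ^ M) v)) := by
    intro p q hp hq
    obtain ⟨E₁, _, _, _, Gl₁, hd1, C₁, hC₁, hb1⟩ := h5 G R w hw V Mo p hp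
    obtain ⟨E₂, _, _, _, Gl₂, hd2, C₂, hC₂, hb2⟩ := h5 G R w hw V Mo q hq
    obtain ⟨C, hC⟩ := hf (qFinal_F Mo) M (hMle _ (fun k hk => hk.1)) V Mo rfl E₁ E₂ Gl₁ Gl₂ hd1 hd2
    refine ⟨C₂ * (|C| * C₁), fun v => ?_⟩
    have e1 := (hb2 v).2
    have e2 := hC v
    have e3 := (hb1 (((1 + lap Mo B) ^ M) v)).1
    have e4 : C * ‖Gl₁.ι (((1 + lap Mo B) ^ M) v)‖ ≤ |C| * ‖Gl₁.ι (((1 + lap Mo B) ^ M) v)‖ :=
      mul_le_mul_of_nonneg_right (le_abs_self C) (norm_nonneg _)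
    have e5 : |C| * ‖Gl₁.ι (((1 + lap Mo B) ^ M) v)‖ ≤
        |C| * (C₁ * p (((1 + lap Mo B) ^ M) v)) :=
      mul_le_mul_of_nonneg_left e3 (abs_nonneg C)
    calc q v ≤ C₂ * ‖Gl₂.ι v‖ := e1
      _ ≤ C₂ * (|C| * (C₁ * p (((1 + lap Mo B) ^ M) v))) :=
          mul_le_mul_of_nonneg_left (e2.trans (e4.trans e5)) hC₂.le
      _ = C₂ * (|C| * C₁) * p (((1 + lap Mo B) ^ M) v) := by ring
  have hmem : (2 * (M : ℝ)) ∈ gapSet Mo B w := by
    refine ⟨by positivity, (1 + lap Mo B) ^ M, hpow, ?_⟩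
    intro pmin pmax hmin hmax _ _
    exact key pmin pmax hmin hmax
  refine ⟨hmem, csInf_le ⟨0, fun s hs => hs.1⟩ hmem, (1 + lap Mo B) ^ M, hpow, key⟩

end Pool.Agent.H913.SG
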