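import Pool.Agent.H913.SG.Stmts2

/-! Powers of `1 - π(f)`. -/

open MeasureTheory Matrix NormedSpace
open scoped SchwartzMap ContDiff FourierTransform Matrix

universe u v

namespace Pool.Agent.H913.SG

/-- The statement for a strongly continuous bounded family of operators over a compact space. -/
theorem qPowers_aux {K : Type*} [TopologicalSpace K] [CompactSpace K] [MeasurableSpace K]
    [OpensMeasurableSpace K] (μ : Measure K) [IsProbabilityMeasure μ]
    {E : Type v} [NormedAddCommGroup E] [NormedSpace ℂ E] [CompleteSpace E]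
    (ρ : K → (E →L[ℂ] E)) (hρ : ∀ x, Continuous fun k => ρ k x) (CK : ℝ) (hCK : ∀ k, ‖ρ k‖ ≤ CK)
    (f : K → ℝ) (hf : Continuous f) (hf0 : ∀ k, 0 ≤ f k) (hf1 : ∫ k, f k ∂μ = 1) :
    ∃ A : E →L[ℂ] E, (∀ x, A x = x - ∫ k, (f k : ℂ) • ρ k x ∂μ) ∧ ‖A‖ ≤ 1 + CK ∧
      ∀ (α : K → ℝ), Continuous α → (∀ k, 0 ≤ α k) → ∀ (m : ℕ) (u : E) (D : ℝ),
        (∀ ks : List K, ks.length ≤ m →
          ‖(ks.map (fun k => 1 - ρ k)).prod u‖ ≤ D * (ks.map α).prod) →
        ‖(A ^ m) u‖ ≤ D * (∫ k, f k * α k ∂μ) ^ m := by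
  have hne : Nonempty K := by
    by_contra h
    rw [not_nonempty_iff] at h
    have := measure_univ (μ := μ)
    rw [Set.univ_eq_empty_iff.2 h] at this
    simp at this
  have hCK0 : 0 ≤ CK := (norm_nonneg _).trans (hCK hne.some)
  have hint : ∀ {F : Type v} [NormedAddCommGroup F] (g : K → F), Continuous g → Integrable g μ := by
    intro F _ g hg
    exact hg.integrable_of_hasCompactSupport (HasCompactSupport.of_compactSpace g)
  have hintR : ∀ (g : K → ℝ), Continuous g → Integrable g μ := by
    intro g hg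
    exact hg.integrable_of_hasCompactSupport (HasCompactSupport.of_compactSpace g)
  have hfc : Continuous fun k => (f k : ℂ) := Complex.continuous_ofReal.comp hf
  have hc1 : ∀ x, Continuous fun k => (f k : ℂ) • ρ k x := fun x => hfc.smul (hρ x)
  have hnorm : ∀ x, ‖x - ∫ k, (f k : ℂ) • ρ k x ∂μ‖ ≤ (1 + CK) * ‖x‖ := by
    intro x
    have h1 : ‖∫ k, (f k : ℂ) • ρ k x ∂μ‖ ≤ ∫ k, f k * (CK * ‖x‖) ∂μ := by
      refine norm_integral_le_of_norm_le (hintR _ (hf.mul continuous_const)) ?_
      refine Filter.Eventually.of_forall fun k => ?_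
      rw [norm_smul, Complex.norm_real, Real.norm_of_nonneg (hf0 k)]
      exact mul_le_mul_of_nonneg_left (((ρ k).le_opNorm x).trans
        (mul_le_mul_of_nonneg_right (hCK k) (norm_nonneg x))) (hf0 k)
    rw [integral_mul_const, hf1, one_mul] at h1
    calc ‖x - ∫ k, (f k : ℂ) • ρ k x ∂μ‖ ≤ ‖x‖ + ‖∫ k, (f k : ℂ) • ρ k x ∂μ‖ := norm_sub_le _ _
      _ ≤ (1 + CK) * ‖x‖ := by linarith
  let A0 : E →ₗ[ℂ] E :=
    { toFun := fun x => x - ∫ k, (f k : ℂ) • ρ k x ∂μ
      map_add' := by
        intro x y
        have h : ∀ k, (f k : ℂ) • ρ k (x + y) = (f k : ℂ) • ρ k x + (f k : ℂ) • ρ k y := by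
          intro k; rw [map_add, smul_add]
        simp only [h]
        rw [integral_add (hint _ (hc1 x)) (hint _ (hc1 y))]
        abel
      map_smul' := by
        intro c x
        have h : ∀ k, (f k : ℂ) • ρ k (c • x) = c • ((f k : ℂ) • ρ k x) := by
          intro k; rw [map_smul, smul_comm]
        simp only [h, RingHom.id_apply]
        rw [integral_smul, smul_sub] }
  let A : E →L[ℂ] E := A0.mkContinuous (1 + CK) hnorm
  have hA : ∀ x, A x = x - ∫ k, (f k : ℂ) • ρ k x ∂μ := fun x => rfl
  have hA' : ∀ x, A x = ∫ k, (f k : ℂ) • ((1 - ρ k) x) ∂μ := by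
    intro x
    have h : ∀ k, (f k : ℂ) • ((1 - ρ k) x) = (f k : ℂ) • x - (f k : ℂ) • ρ k x := by
      intro k
      rw [← smul_sub]
      rfl
    have hcx : Continuous fun k => (f k : ℂ) • x := hfc.smul continuous_const
    simp only [h]
    rw [integral_sub (hint _ hcx) (hint _ (hc1 x)), integral_smul_const,
      integral_complex_ofReal, hf1, Complex.ofReal_one, one_smul, hA]
  refine ⟨A, hA, LinearMap.mkContinuous_norm_le _ (by linarith) _, ?_⟩
  intro α hα hα0 m u D hks
  have key : ∀ j : ℕ, ∀ ks : List K, ks.length + j ≤ m →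
      ‖(ks.map (fun k => 1 - ρ k)).prod ((A ^ j) u)‖ ≤
        D * (ks.map α).prod * (∫ k, f k * α k ∂μ) ^ j := by
    intro j
    induction j with
    | zero =>
      intro ks h
      simpa using hks ks (by omega)
    | succ j ih =>
      intro ks h
      have h1 : (ks.map (fun k => 1 - ρ k)).prod ((A ^ (j + 1)) u) =
          ∫ k, (f k : ℂ) • (((ks ++ [k]).map (fun k => 1 - ρ k)).prod ((A ^ j) u)) ∂μ := by
        rw [pow_succ', show (A * A ^ j) u = A ((A ^ j) u) from rfl, hA',
          ← ContinuousLinearMap.integral_comp_comm]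
        · refine integral_congr_ae (Filter.Eventually.of_forall fun k => ?_)
          simp only [map_smul, List.map_append, List.prod_append, List.map_cons, List.map_nil,
            List.prod_singleton]
          rfl
        · refine hint _ (hfc.smul ?_)
          exact continuous_const.sub (hρ _)
      rw [h1]
      have h2 : ‖∫ k, (f k : ℂ) • (((ks ++ [k]).map (fun k => 1 - ρ k)).prod ((A ^ j) u)) ∂μ‖ ≤
          ∫ k, (f k * α k) * (D * (ks.map α).prod * (∫ k, f k * α k ∂μ) ^ j) ∂μ := by
        refine norm_integral_le_of_norm_le (hintR _ ((hf.mul hα).mul continuous_const)) ?_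
        refine Filter.Eventually.of_forall fun k => ?_
        rw [norm_smul, Complex.norm_real, Real.norm_of_nonneg (hf0 k)]
        have h3 := ih (ks ++ [k]) (by simp; omega)
        rw [List.map_append (f := α), List.prod_append, List.map_cons (f := α), List.map_nil,
          List.prod_singleton] at h3
        calc _ ≤ f k * (D * ((ks.map α).prod * α k) * (∫ k, f k * α k ∂μ) ^ j) :=
              mul_le_mul_of_nonneg_left h3 (hf0 k)
          _ = _ := by ring
      rw [integral_mul_const] at h2
      calc _ ≤ _ := h2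
        _ = _ := by ring
  simpa using key m [] (by simp)

/-- TARGET -/
theorem powers : S_powers.{v} := by
  intro G _ _ _ _ _ R P _ _ μ _ _ E _ _ _ π hπ CK hCK f hf hf0 hf1
  have := P.compactK
  exact qPowers_aux μ (fun k : R.K => π k.1)
    (fun x => (hπ x).comp continuous_subtype_val) CK hCK f hf hf0 hf1

end Pool.Agent.H913.SG
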