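import Pool.Agent.H913.SG.Stmts2

/-! Project SG, part Q1: renorming of a globalization. -/

open MeasureTheory Matrix NormedSpace
open scoped SchwartzMap ContDiff FourierTransform Matrix

universe u v

namespace Pool.Agent.H913.SG

/-! Proof. From IsNormIn: E, ι, π, C₀ with ‖π g‖ ≤ C₀ w g. Define on the same vector space the norm |x|' = sup_g ‖π(g)x‖/w(g): finite (≤ C₀‖x‖), ≥ ‖x‖/w(1) (π 1 = 1), a norm, equivalent to the old one, complete (equivalent norms; type synonym E' := E with new NormedAddCommGroup instance; build it with a Seminorm/AddGroupNorm and transfer completeness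
through the linear equivalence which is a homeomorphism), |π(h)x|' = sup_g ‖π(gh)x‖/w(g) ≤ sup_g w(h)‖π(gh)x‖/w(gh) ≤ w(h)|x|' by w(gh) ≤ w(g)w(h). The operators π(g) on E', strong continuity, derivative and density transfer by equivalence of norms. -/


/-- a copy of the vector space, to carry the new norm -/
def qRenorm_T (E : Type u) : Type u := E

instance qRenorm_acg (E : Type u) [h : AddCommGroup E] : AddCommGroup (qRenorm_T E) := h

instance qRenorm_mod (E : Type u) [AddCommGroup E] [h : Module ℂ E] : Module ℂ (qRenorm_T E) := h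

/-- the renorming of a Banach space with a representation of growth at most `C * w` -/
theorem qRenorm_main {G : Type} [Group G] {E : Type u} [NormedAddCommGroup E] [NormedSpace ℂ E]
    [CompleteSpace E] (π : G →* (E →L[ℂ] E)) (w : G → ℝ) (hw : ∀ g, 0 < w g)
    (hsub : ∀ g h, w (g * h) ≤ w g * w h) (C : ℝ) (hC : 0 < C) (hπ : ∀ g, ‖π g‖ ≤ C * w g) :
    ∃ (E' : Type u) (_ : NormedAddCommGroup E') (_ : NormedSpace ℂ E') (_ : CompleteSpace E')
      (e : E ≃L[ℂ] E'), (∀ x, ‖e x‖ ≤ C * ‖x‖) ∧ (∀ x, ‖x‖ ≤ w 1 * ‖e x‖) ∧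
      ∀ g x, ‖e (π g x)‖ ≤ w g * ‖e x‖ := by
  classical
  let N : E → ℝ := fun x => ⨆ g, ‖π g x‖ / w g
  have hbd : ∀ x g, ‖π g x‖ / w g ≤ C * ‖x‖ := by
    intro x g
    rw [div_le_iff₀ (hw g)]
    calc ‖π g x‖ ≤ ‖π g‖ * ‖x‖ := (π g).le_opNorm x
      _ ≤ (C * w g) * ‖x‖ := mul_le_mul_of_nonneg_right (hπ g) (norm_nonneg x)
      _ = C * ‖x‖ * w g := by ring
  have hbdd : ∀ x, BddAbove (Set.range fun g => ‖π g x‖ / w g) := by
    intro x
    refine ⟨C * ‖x‖, ?_⟩
    rintro _ ⟨g, rfl⟩
    exact hbd x g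
  have hle : ∀ x g, ‖π g x‖ / w g ≤ N x := fun x g => le_ciSup (hbdd x) g
  have hle2 : ∀ x g, ‖π g x‖ ≤ N x * w g := fun x g => (div_le_iff₀ (hw g)).1 (hle x g)
  have hN0 : ∀ x, 0 ≤ N x := fun x =>
    (div_nonneg (norm_nonneg _) (hw 1).le).trans (hle x 1)
  have hNle : ∀ x, N x ≤ C * ‖x‖ := fun x => ciSup_le (hbd x)
  have hNge : ∀ x, ‖x‖ ≤ w 1 * N x := by
    intro x
    have := hle2 x 1
    rw [map_one] at this
    rw [mul_comm]
    exact this
  have hNadd : ∀ x y, N (x + y) ≤ N x + N y := by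
    intro x y
    refine ciSup_le fun g => ?_
    rw [div_le_iff₀ (hw g), map_add]
    calc ‖π g x + π g y‖ ≤ ‖π g x‖ + ‖π g y‖ := norm_add_le _ _
      _ ≤ N x * w g + N y * w g := add_le_add (hle2 x g) (hle2 y g)
      _ = (N x + N y) * w g := by ring
  have hNneg : ∀ x, N (-x) = N x := by
    intro x
    simp only [N, map_neg, norm_neg]
  have hNzero : N 0 = 0 := by
    simp [N]
  have hNsmul : ∀ (c : ℂ) x, N (c • x) ≤ ‖c‖ * N x := by
    intro c x
    refine ciSup_le fun g => ?_
    rw [div_le_iff₀ (hw g), map_smul, norm_smul]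
    calc ‖c‖ * ‖π g x‖ ≤ ‖c‖ * (N x * w g) :=
          mul_le_mul_of_nonneg_left (hle2 x g) (norm_nonneg c)
      _ = ‖c‖ * N x * w g := by ring
  have hNπ : ∀ h x, N (π h x) ≤ w h * N x := by
    intro h x
    refine ciSup_le fun g => ?_
    rw [div_le_iff₀ (hw g)]
    have e1 : π g (π h x) = π (g * h) x := by rw [map_mul]; rfl
    rw [e1]
    calc ‖π (g * h) x‖ ≤ N x * w (g * h) := hle2 x _
      _ ≤ N x * (w g * w h) := mul_le_mul_of_nonneg_left (hsub g h) (hN0 x)
      _ = w h * N x * w g := by ring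
  let nn : AddGroupNorm (qRenorm_T E) :=
    { toFun := fun x => N x
      map_zero' := hNzero
      add_le' := hNadd
      neg' := hNneg
      eq_zero_of_map_eq_zero' := by
        intro x hx
        have h1 := hNge x
        have hx' : N x = 0 := hx
        rw [hx', mul_zero] at h1
        exact norm_le_zero_iff.1 h1 }
  letI i1 : NormedAddCommGroup (qRenorm_T E) := nn.toNormedAddCommGroup
  letI i2 : NormedSpace ℂ (qRenorm_T E) :=
    { (inferInstance : Module ℂ (qRenorm_T E)) with
      norm_smul_le := fun c x => hNsmul c x }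
  have hnorm : ∀ x : qRenorm_T E, ‖x‖ = N x := fun x => rfl
  let e0 : E ≃ₗ[ℂ] qRenorm_T E := LinearEquiv.refl ℂ E
  have he0 : ∀ x : E, ‖e0 x‖ = N x := fun x => rfl
  let e : E ≃L[ℂ] qRenorm_T E := e0.toContinuousLinearEquivOfBounds C (w 1)
    (fun x => by rw [he0]; exact hNle x) (fun x => by
      have h1 := hNge (e0.symm x)
      rw [← he0, LinearEquiv.apply_symm_apply] at h1
      exact h1)
  have he : ∀ x : E, ‖e x‖ = N x := fun x => rfl
  haveI i3 : CompleteSpace (qRenorm_T E) :=
    (completeSpace_congr (e := e.toEquiv) e.isUniformEmbedding).1 inferInstance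
  refine ⟨qRenorm_T E, i1, i2, i3, e, ?_, ?_, ?_⟩
  · intro x
    rw [he]
    exact hNle x
  · intro x
    rw [he]
    exact hNge x
  · intro g x
    rw [he, he]
    exact hNπ g x

/-- TARGET -/
theorem renorm : S_renorm.{u} := by
  intro G _ _ _ _ _ R w hw V _ _ Mo p hp
  obtain ⟨E, i1, i2, i3, ι, π, hinj, hdense, hpn, hcont, hk, hder, -, C, hC, hπ⟩ := hp
  obtain ⟨E', j1, j2, j3, e, he1, he2, he3⟩ := qRenorm_main π w hw.pos hw.submul C hC hπ
  let π' : G →* (E' →L[ℂ] E') :=
    { toFun := fun g => (e : E →L[ℂ] E').comp ((π g).comp (e.symm : E' →L[ℂ] E))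
      map_one' := by
        ext x
        simp
      map_mul' := by
        intro g h
        ext x
        simp }
  have hπ' : ∀ g x, π' g x = e (π g (e.symm x)) := fun g x => rfl
  let Gl : Glob Mo w E' :=
    { ι := e.toLinearEquiv.toLinearMap ∘ₗ ι
      π := π'
      inj := e.injective.comp hinj
      cont := by
        intro x
        simp only [hπ']
        exact e.continuous.comp (hcont (e.symm x))
      kcomp := by
        intro k v
        rw [hπ']
        simp only [LinearMap.comp_apply, LinearEquiv.coe_coe,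
          ContinuousLinearEquiv.coe_toLinearEquiv, ContinuousLinearEquiv.symm_apply_apply]
        rw [hk]
      deriv := by
        intro X γ hγ v
        have h1 := hder X γ hγ v
        have h2 := (e : E →L[ℂ] E').hasFDerivAt.restrictScalars ℝ |>.comp_hasDerivAt (0 : ℝ) h1
        simp only [hπ', LinearMap.comp_apply, LinearEquiv.coe_coe,
          ContinuousLinearEquiv.coe_toLinearEquiv, ContinuousLinearEquiv.symm_apply_apply]
        exact h2
      bound := by
        intro g
        refine ContinuousLinearMap.opNorm_le_bound _ (hw.pos g).le ?_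
        intro x
        rw [hπ']
        have := he3 g (e.symm x)
        rwa [ContinuousLinearEquiv.apply_symm_apply] at this }
  refine ⟨E', j1, j2, j3, Gl, ?_, C + w 1, ?_, ?_⟩
  · exact (e.surjective.denseRange).comp hdense e.continuous
  · exact add_pos hC (hw.pos 1)
  · intro v
    have hG : Gl.ι v = e (ι v) := rfl
    rw [hG, hpn v]
    constructor
    · calc ‖e (ι v)‖ ≤ C * ‖ι v‖ := he1 _
        _ ≤ (C + w 1) * ‖ι v‖ := by
          apply mul_le_mul_of_nonneg_right _ (norm_nonneg _)
          linarith [hw.pos 1]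
    · calc ‖ι v‖ ≤ w 1 * ‖e (ι v)‖ := he2 _
        _ ≤ (C + w 1) * ‖e (ι v)‖ := by
          apply mul_le_mul_of_nonneg_right _ (norm_nonneg _)
          linarith

end Pool.Agent.H913.SG
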