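import Pool.Agent.H913.SG.Stmts2

open MeasureTheory Matrix NormedSpace
open scoped SchwartzMap ContDiff FourierTransform Matrix

universe u v

namespace Pool.Agent.H913.SG

lemma qSob_pow {V : Type u} [AddCommGroup V] [Module ℂ V] (L : Module.End ℂ V) (c : ℝ) (v : V)
    (h : L v = (c : ℂ) • v) (M : ℕ) : ((1 + L) ^ M) v = (((1 + c) ^ M : ℝ) : ℂ) • v := by
  induction M with
  | zero => simp
  | succ M ih =>
    rw [pow_succ', Module.End.mul_apply, ih, map_smul, LinearMap.add_apply, Module.End.one_apply,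
      h]
    have h1 : v + (c : ℂ) • v = ((1 + c : ℝ) : ℂ) • v := by
      push_cast
      rw [add_smul, one_smul]
    rw [h1, smul_smul, pow_succ (1 + c) M]
    push_cast
    rfl

/-- TARGET -/
theorem sob (h1 : S_eigA.{u}) : S_sob.{u} := by
  intro G _ _ _ _ _ R Pk B V _ _ Mo
  refine ⟨fun M c v hv => ?_, fun t T T' hT hT' => ?_⟩
  · rw [qSob_pow _ c v hv M]
    congr 2
    have h2 : (2 * (M : ℝ)) / 2 = (M : ℝ) := by ring
    rw [h2, Real.rpow_natCast]
  · apply LinearMap.ext
    intro v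
    obtain ⟨f, hf, hv⟩ := (h1 G R Pk B V Mo).2 v
    rw [hv, Finsupp.sum, map_sum, map_sum]
    refine Finset.sum_congr rfl fun c _ => ?_
    rw [hT c _ (hf c), hT' c _ (hf c)]

end Pool.Agent.H913.SG
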