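import Pool.Agent.H913.SG.Rec7
import Pool.Agent.H913.SG.BCalc1
import Pool.Agent.H913.SG.BCalc2
import Pool.Agent.H913.SG.BCalc3
import Pool.Agent.H913.SG.BCalc4
import Pool.Agent.H913.SG.CSym
import Pool.Agent.H913.SG.CZ
import Pool.Agent.H913.SG.CE
import Pool.Agent.H913.SG.CA
import Pool.Agent.H913.SG.DPsi
import Pool.Agent.H913.SG.DWn
import Pool.Agent.H913.SG.DPartition
import Pool.Agent.H913.SG.FSection
import Pool.Agent.H913.SG.FGam
import Pool.Agent.H913.SG.FCompactK
import Pool.Agent.H913.SG.FPack
import Pool.Agent.H913.SG.GChartAux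
import Pool.Agent.H913.SG.GChartGrp
import Pool.Agent.H913.SG.GChart
import Pool.Agent.H913.SG.HNil
import Pool.Agent.H913.SG.HContract
import Pool.Agent.H913.SG.HCasSym
import Pool.Agent.H913.SG.HCasComm
import Pool.Agent.H913.SG.HAnn
import Pool.Agent.H913.SG.KNearMat
import Pool.Agent.H913.SG.KNear
import Pool.Agent.H913.SG.KFejer
import Pool.Agent.H913.SG.KDoubling
import Pool.Agent.H913.SG.KShells
import Pool.Agent.H913.SG.LKernel
import Pool.Agent.H913.SG.MOsc
import Pool.Agent.H913.SG.MBern
import Pool.Agent.H913.SG.NW
import Pool.Agent.H913.SG.NU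
import Pool.Agent.H913.SG.NAvgV
import Pool.Agent.H913.SG.NAvg
import Pool.Agent.H913.SG.NRecover
import Pool.Agent.H913.SG.NUfin
import Pool.Agent.H913.SG.OInner
import Pool.Agent.H913.SG.JKrep
import Pool.Agent.H913.SG.OEig
import Pool.Agent.H913.SG.OProj
import Pool.Agent.H913.SG.PLeft1
import Pool.Agent.H913.SG.PLeft2
import Pool.Agent.H913.SG.QRenorm
import Pool.Agent.H913.SG.QSob
import Pool.Agent.H913.SG.QBernU
import Pool.Agent.H913.SG.QClos
import Pool.Agent.H913.SG.QPowers
import Pool.Agent.H913.SG.QFinal
import Pool.Agent.H913.SG.QCore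

/-! Assembly of all parts. -/

universe u v

namespace Pool.Agent.H913.SG

theorem all_op_word : S_op_word.{u,v} := op_word I_norm ibp I_flat

theorem all_op_sym : S_op_sym.{u,v} := op_sym all_op_word op_basic

theorem all_zsmall : S_zsmall.{u,v} := zsmall all_op_sym sym_pow sym_schwartz op_basic

theorem all_elliptic : S_elliptic.{u,v} := elliptic all_zsmall op_basic

theorem all_approx : S_approx.{u,v} := approx all_zsmall all_op_word op_basic

theorem all_partition : S_partition := partition psi_exists Wn_C Wn_dil

theorem all_pack : S_pack := pack (gam_exists section_exists) (compactK section_exists) basis_exists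

theorem all_chart : S_chart.{u,v} := chart chartAux chartGrp

theorem all_contract : S_contract := contract con1

theorem all_casimir : S_casimir.{u} := casimir cas_sym cas_comm (ann homfin)

theorem all_near : S_near := near nearMat

theorem all_kernel : S_kernel := kernel fejer doubling shells

theorem all_bern : S_bern := bern osc

theorem all_U : S_U.{u} := Uprops Wprops

theorem all_avgV : S_avgV.{u} := avgV Wprops

theorem all_lip : S_lip := lip all_near all_bern Wprops

theorem all_recover : S_recover.{u} := recover all_avgV Wprops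

theorem all_Ufin : S_Ufin.{u} := by
  intro G _ _ _ _ _ R P s V _ _ Mo hT
  exact ⟨Ufd all_lip all_kernel all_recover all_avgV Wprops homfin all_U G R P s V Mo hT,
    Uexh all_kernel all_recover all_avgV Wprops G R P s V Mo hT⟩

theorem all_avg : S_avg.{u,v} := avg Wprops all_avgV all_Ufin

theorem all_eigA : S_eigA.{u} := eigA inner_exists

theorem all_eig : S_eig.{u} := by
  intro G _ _ _ _ _ R P s B
  obtain ⟨C₀, hC₀, H⟩ := eigB inner_exists all_near all_kernel all_recover all_avgV Wprops G R P s B
  refine ⟨C₀, hC₀, ?_⟩
  intro V _ _ Mo hT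
  have h := all_eigA G R P B V Mo
  exact ⟨h.1, h.2, H V Mo hT⟩

theorem all_proj : S_proj.{u,v} := proj (evalW Wprops) orth

theorem all_count : S_count.{u} := count Wprops orth

theorem all_left : S_left.{u,v} := left_calc (left1 ibp) I_norm I_flat

theorem all_rec : S_rec.{u} :=
  recursion all_approx all_elliptic all_casimir (bernU all_bern) all_U all_chart op_basic
    all_op_word mul_lin chi1_exists clos all_Ufin nil all_contract all_partition L1_pdir all_near
    all_kernel Wprops all_avg all_left powers

theorem all_core : S_core.{u} := core all_rec all_Ufin all_eig all_proj all_count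

theorem all_final : S_final.{u} := final all_pack (krep inner_exists) all_core (sob all_eigA) renorm

end Pool.Agent.H913.SG
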