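import Mathlib

/-! Real reductive groups in the sense of Wallach. -/

open Matrix NormedSpace
open scoped Matrix

namespace Pool.Agent.H913.SG

/-- `M n` is the algebra of real `n × n` matrices. -/
abbrev M (n : ℕ) := Matrix (Fin n) (Fin n) ℝ

/-- A realization of the topological group `G` as a real reductive group in the sense of Wallach:
`G` is a finite covering (`ρ` has finite kernel, is continuous, and is open onto its image) of an open
subgroup of the group `GR` of real points of an algebraic group, `GR` being a Zariski closed subgroup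
of `GL(n,ℝ)` which is stable under transposition. -/
structure RealReductive (G : Type) [Group G] [TopologicalSpace G] where
  n : ℕ
  GR : Subgroup (GL (Fin n) ℝ)
  algebraic : ∃ S : Set (MvPolynomial (Fin n × Fin n) ℝ), ∀ g : GL (Fin n) ℝ,
    g ∈ GR ↔ ∀ f ∈ S, MvPolynomial.eval (fun ij => (g : M n) ij.1 ij.2) f = 0
  transpose_mem : ∀ g ∈ GR, ∃ g' ∈ GR, (g' : M n) = (g : M n)ᵀ
  ρ : G →* GL (Fin n) ℝ
  ρ_mem : ∀ g, ρ g ∈ GR
  ρ_continuous : Continuous ρ
  finite_ker : (ρ.ker : Set G).Finite
  isOpenMap : IsOpenMap (fun g => (⟨ρ g, ρ_mem g⟩ : GR))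

variable {G : Type} [Group G] [TopologicalSpace G]

namespace RealReductive

variable (R : RealReductive G)

/-- The set of matrices `X` with `exp (tX)` in `GR` for all real `t`. -/
def lieSet : Set (M R.n) := {X | ∀ t : ℝ, ∃ g ∈ R.GR, (g : M R.n) = exp (t • X)}

end RealReductive

end Pool.Agent.H913.SG
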