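import Mathlib

/-! Local calculus on `ℝ^d`: statements. -/

open MeasureTheory
open scoped SchwartzMap ContDiff FourierTransform

universe u v

namespace Pool.Agent.H913.SG

/-- Euclidean space of dimension `d`. -/
abbrev EE (d : ℕ) := EuclideanSpace ℝ (Fin d)

/-- the standard basis vector -/
noncomputable abbrev ei {d : ℕ} (i : Fin d) : EE d := EuclideanSpace.single i 1

/-- Group-side data of the local calculus: a radius, the coefficients `N` expressing coordinate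
derivatives through the Lie algebra, their inverse `M` (smooth, cut off), and a cutoff `χ`. -/
structure Chart (d : ℕ) where
  r : ℝ
  r_pos : 0 < r
  N : Fin d → Fin d → EE d → ℝ
  N_cont : ∀ i j, Continuous (N i j)
  M : Fin d → Fin d → EE d → ℝ
  M_smooth : ∀ j i, ContDiff ℝ ∞ (M j i)
  M_zero : ∀ j i, M j i 0 = if j = i then 1 else 0
  MN : ∀ y, ‖y‖ ≤ r → ∀ j l, ∑ i, M j i y * N i l y = if j = l then 1 else 0
  χ : EE d → ℝ
  χ_smooth : ContDiff ℝ ∞ χ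
  χ_supp : tsupport χ ⊆ Metric.ball 0 r
  χ_zero : χ 0 = 1
  χ_nonneg : ∀ y, 0 ≤ χ y
  χ_le_one : ∀ y, χ y ≤ 1

/-- Representation-side data: `orb v y = π(Π(y)) (ι v)`. -/
structure LocalRep {d : ℕ} (Ch : Chart d) (V : Type u) [AddCommGroup V] [Module ℂ V]
    (E : Type v) [NormedAddCommGroup E] [NormedSpace ℂ E] where
  a : Fin d → Module.End ℂ V
  orb : V →ₗ[ℂ] (EE d → E)
  cont : ∀ v, Continuous (orb v)
  line : ∀ v i y, HasLineDerivAt ℝ (orb v) (∑ j, (Ch.N i j y : ℂ) • orb (a j v) y) y (ei i)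
  Cw : ℝ
  Cw_nonneg : 0 ≤ Cw
  bound : ∀ v y, ‖y‖ ≤ Ch.r → ‖orb v y‖ ≤ Cw * ‖orb v 0‖

/-- A test function: smooth, supported in the ball of radius `r`. -/
structure IsTest {d : ℕ} (Ch : Chart d) (f : EE d → ℝ) : Prop where
  smooth : ContDiff ℝ ∞ f
  supp : tsupport f ⊆ Metric.ball 0 Ch.r

variable {d : ℕ} {Ch : Chart d} {V : Type u} [AddCommGroup V] [Module ℂ V]
  {E : Type v} [NormedAddCommGroup E] [NormedSpace ℂ E]

/-- `I(f, A; h, v) = ∫ f(hx) A(x) orb_v(hx) dx`. -/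
noncomputable def LocalRep.I (L : LocalRep Ch V E) (f : EE d → ℝ) (A : 𝓢(EE d, ℂ)) (h : ℝ) (v : V) :
    E := ∫ x, ((f (h • x) : ℂ) * A x) • L.orb v (h • x)

/-- `Op_h(c) v = I(χ, 𝓕 c; h, v)`. -/
noncomputable def LocalRep.Op (L : LocalRep Ch V E) (h : ℝ) (c : 𝓢(EE d, ℂ)) (v : V) : E :=
  L.I Ch.χ (𝓕 c) h v

/-- The Wiener norm: the `L¹` norm of the Fourier transform. -/
noncomputable def Wn (c : 𝓢(EE d, ℂ)) : ℝ := ∫ x, ‖(𝓕 c) x‖

/-- The `L¹` norm. -/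
noncomputable def L1 (A : 𝓢(EE d, ℂ)) : ℝ := ∫ x, ‖A x‖

/-- partial derivative of a Schwartz function -/
noncomputable def pd (i : Fin d) : 𝓢(EE d, ℂ) →L[ℂ] 𝓢(EE d, ℂ) := LineDeriv.lineDerivOpCLM ℂ 𝓢(EE d, ℂ) (ei i)

end Pool.Agent.H913.SG
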