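import Pool.Agent.H913.SG.Base

open MeasureTheory Matrix NormedSpace Filter Topology Set
open scoped SchwartzMap ContDiff FourierTransform Matrix

universe u v

namespace Pool.Agent.H913.SG

section general

variable {A₀ : Type*} [NormedRing A₀] [NormedAlgebra ℝ A₀] [CompleteSpace A₀] [NormOneClass A₀]

/-- telescoping -/
theorem lieAux_tel (A B : A₀) (C C' : ℝ) (k : ℕ) (hA : ∀ i, i ≤ k → ‖A ^ i‖ ≤ C)
    (hB : ∀ i, i ≤ k → ‖B ^ i‖ ≤ C')
    (j : ℕ) : ∀ r, j + r ≤ k → ‖(A ^ j - B ^ j) * B ^ r‖ ≤ j * (C * ‖A - B‖ * C') := by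
  induction j with
  | zero =>
    intro r _
    simp
  | succ j ih =>
    intro r hr
    have e : (A ^ (j + 1) - B ^ (j + 1)) * B ^ r =
        A ^ j * (A - B) * B ^ r + (A ^ j - B ^ j) * B ^ (r + 1) := by
      rw [pow_succ A, pow_succ B j, pow_succ' B r]
      noncomm_ring
    have h1 : ‖A ^ j * (A - B) * B ^ r‖ ≤ C * ‖A - B‖ * C' := by
      have hC : 0 ≤ C := (norm_nonneg _).trans (hA 0 (Nat.zero_le _))
      calc ‖A ^ j * (A - B) * B ^ r‖ ≤ ‖A ^ j * (A - B)‖ * ‖B ^ r‖ := norm_mul_le _ _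
        _ ≤ (‖A ^ j‖ * ‖A - B‖) * ‖B ^ r‖ :=
          mul_le_mul_of_nonneg_right (norm_mul_le _ _) (norm_nonneg _)
        _ ≤ (C * ‖A - B‖) * C' :=
          mul_le_mul (mul_le_mul_of_nonneg_right (hA j (by omega)) (norm_nonneg _)) (hB r (by omega))
            (norm_nonneg _) (mul_nonneg hC (norm_nonneg _))
    have h2 := ih (r + 1) (by omega)
    rw [e]
    refine (norm_add_le _ _).trans ?_
    push_cast
    linarith

theorem lieAux_norm_exp (X : A₀) : ‖NormedSpace.exp X‖ ≤ Real.exp ‖X‖ := by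
  rw [NormedSpace.exp_eq_tsum ℝ]
  have h1 : Summable fun n : ℕ => ((n.factorial : ℝ)⁻¹) * ‖X‖ ^ n := by
    have := Real.summable_pow_div_factorial ‖X‖
    refine this.congr (fun n => ?_)
    rw [div_eq_inv_mul]
  have h2 : ∀ n : ℕ, ‖((n.factorial : ℝ)⁻¹) • X ^ n‖ ≤ ((n.factorial : ℝ)⁻¹) * ‖X‖ ^ n := by
    intro n
    rw [norm_smul, norm_inv, Real.norm_natCast]
    exact mul_le_mul_of_nonneg_left (norm_pow_le _ _) (by positivity)
  have h3 : Real.exp ‖X‖ = ∑' n : ℕ, ((n.factorial : ℝ)⁻¹) * ‖X‖ ^ n := by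
    rw [Real.exp_eq_exp_ℝ, NormedSpace.exp_eq_tsum ℝ]
    simp [smul_eq_mul]
  rw [h3]
  exact tsum_of_norm_bounded h1.hasSum h2

/-- the Lie–Trotter formula -/
theorem lieAux_trotter (X Y : A₀) :
    Tendsto (fun k : ℕ => (NormedSpace.exp ((1 / ((k : ℝ) + 1)) • X) *
      NormedSpace.exp ((1 / ((k : ℝ) + 1)) • Y)) ^ (k + 1)) atTop (𝓝 (NormedSpace.exp (X + Y))) := by
  letI : NormedAlgebra ℚ A₀ := NormedAlgebra.restrictScalars ℚ ℝ A₀
  set C : ℝ := Real.exp (‖X‖ + ‖Y‖) with hCdef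
  have hC0 : 0 ≤ C := (Real.exp_pos _).le
  have hA : ∀ (k i : ℕ), i ≤ k + 1 → ‖(NormedSpace.exp ((1 / ((k : ℝ) + 1)) • X) *
      NormedSpace.exp ((1 / ((k : ℝ) + 1)) • Y)) ^ i‖ ≤ C := by
    intro k i hi
    have hk : (0 : ℝ) < (k : ℝ) + 1 := by positivity
    have h0 : ‖NormedSpace.exp ((1 / ((k : ℝ) + 1)) • X) *
      NormedSpace.exp ((1 / ((k : ℝ) + 1)) • Y)‖ ≤ Real.exp ((1 / ((k : ℝ) + 1)) * (‖X‖ + ‖Y‖)) := by
      refine (norm_mul_le _ _).trans ?_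
      rw [mul_add, Real.exp_add]
      have hn : ∀ Z : A₀, ‖NormedSpace.exp ((1 / ((k : ℝ) + 1)) • Z)‖ ≤
          Real.exp ((1 / ((k : ℝ) + 1)) * ‖Z‖) := by
        intro Z
        refine (lieAux_norm_exp _).trans (le_of_eq ?_)
        rw [norm_smul, Real.norm_eq_abs, abs_of_pos (by positivity)]
      exact mul_le_mul (hn X) (hn Y) (norm_nonneg _) (Real.exp_pos _).le
    calc _ ≤ ‖NormedSpace.exp ((1 / ((k : ℝ) + 1)) • X) *
        NormedSpace.exp ((1 / ((k : ℝ) + 1)) • Y)‖ ^ i := norm_pow_le _ _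
      _ ≤ (Real.exp ((1 / ((k : ℝ) + 1)) * (‖X‖ + ‖Y‖))) ^ i :=
          pow_le_pow_left₀ (norm_nonneg _) h0 i
      _ = Real.exp (i * ((1 / ((k : ℝ) + 1)) * (‖X‖ + ‖Y‖))) := by
          rw [← Real.exp_nat_mul]
      _ ≤ C := by
          rw [hCdef, Real.exp_le_exp]
          have h2 : (i : ℝ) ≤ (k : ℝ) + 1 := by exact_mod_cast hi
          have h3 : (i : ℝ) * (1 / ((k : ℝ) + 1)) ≤ 1 := by
            rw [mul_one_div, div_le_one hk]; exact h2
          have h4 : 0 ≤ ‖X‖ + ‖Y‖ := by positivity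
          calc (i : ℝ) * ((1 / ((k : ℝ) + 1)) * (‖X‖ + ‖Y‖))
              = ((i : ℝ) * (1 / ((k : ℝ) + 1))) * (‖X‖ + ‖Y‖) := by ring
            _ ≤ 1 * (‖X‖ + ‖Y‖) := mul_le_mul_of_nonneg_right h3 h4
            _ = _ := one_mul _
  -- bound for the powers of `B`
  have hcont : Continuous fun s : ℝ => NormedSpace.exp (s • (X + Y)) :=
    (NormedSpace.exp_continuous (𝔸 := A₀)).comp (by fun_prop)
  obtain ⟨C', hC'⟩ := (isCompact_Icc (a := (0 : ℝ)) (b := 1)).exists_bound_of_continuousOn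
    hcont.continuousOn
  have hC'0 : 0 ≤ C' := (norm_nonneg _).trans (hC' 0 ⟨le_rfl, zero_le_one⟩)
  have hBp : ∀ (k i : ℕ), NormedSpace.exp ((1 / ((k : ℝ) + 1)) • (X + Y)) ^ i =
      NormedSpace.exp (((i : ℝ) / ((k : ℝ) + 1)) • (X + Y)) := by
    intro k i
    rw [← NormedSpace.exp_nsmul]
    congr 1
    rw [← Nat.cast_smul_eq_nsmul ℝ, smul_smul]
    congr 1
    ring
  have hB : ∀ (k i : ℕ), i ≤ k + 1 → ‖NormedSpace.exp ((1 / ((k : ℝ) + 1)) • (X + Y)) ^ i‖ ≤ C' := by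
    intro k i hi
    rw [hBp]
    apply hC'
    have h1 : (0 : ℝ) < (k : ℝ) + 1 := by positivity
    have h2 : (i : ℝ) ≤ (k : ℝ) + 1 := by exact_mod_cast hi
    exact ⟨by positivity, (div_le_one h1).mpr h2⟩
  -- the difference
  have hd : HasDerivAt (fun s : ℝ => NormedSpace.exp (s • X) * NormedSpace.exp (s • Y) -
      NormedSpace.exp (s • (X + Y))) 0 0 := by
    have h1 := (hasDerivAt_exp_smul_const X (0 : ℝ)).mul (hasDerivAt_exp_smul_const Y (0 : ℝ))
    have h2 := hasDerivAt_exp_smul_const (X + Y) (0 : ℝ)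
    have h3 := h1.sub h2
    simp only [zero_smul, NormedSpace.exp_zero, one_mul, mul_one, sub_self] at h3
    exact h3
  have hs : Tendsto (fun k : ℕ => (1 / ((k : ℝ) + 1))) atTop (𝓝[≠] (0 : ℝ)) := by
    rw [tendsto_nhdsWithin_iff]
    refine ⟨tendsto_one_div_add_atTop_nhds_zero_nat, Eventually.of_forall fun k => ?_⟩
    have : (0 : ℝ) < 1 / ((k : ℝ) + 1) := by positivity
    exact this.ne'
  have hsl := (hasDerivAt_iff_tendsto_slope.mp hd).comp hs
  have hsl2 : Tendsto (fun k : ℕ => ((k : ℝ) + 1) * ‖NormedSpace.exp ((1 / ((k : ℝ) + 1)) • X) *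
      NormedSpace.exp ((1 / ((k : ℝ) + 1)) • Y) -
      NormedSpace.exp ((1 / ((k : ℝ) + 1)) • (X + Y))‖) atTop (𝓝 0) := by
    have h := hsl.norm
    rw [norm_zero] at h
    refine h.congr fun k => ?_
    have hk : (0 : ℝ) < (k : ℝ) + 1 := by positivity
    simp only [Function.comp, slope, vsub_eq_sub, sub_zero, zero_smul, NormedSpace.exp_zero,
      mul_one, sub_self, norm_smul, norm_inv, Real.norm_eq_abs, one_div, inv_inv, abs_inv,
      abs_of_pos hk]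
  rw [tendsto_iff_norm_sub_tendsto_zero]
  have hlim : Tendsto (fun k : ℕ => C * C' * (((k : ℝ) + 1) *
      ‖NormedSpace.exp ((1 / ((k : ℝ) + 1)) • X) *
      NormedSpace.exp ((1 / ((k : ℝ) + 1)) • Y) -
      NormedSpace.exp ((1 / ((k : ℝ) + 1)) • (X + Y))‖)) atTop (𝓝 0) := by
    have := hsl2.const_mul (C * C')
    rwa [mul_zero] at this
  refine squeeze_zero (fun _ => norm_nonneg _) (fun k => ?_) hlim
  have h1 := lieAux_tel (NormedSpace.exp ((1 / ((k : ℝ) + 1)) • X) *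
      NormedSpace.exp ((1 / ((k : ℝ) + 1)) • Y))
      (NormedSpace.exp ((1 / ((k : ℝ) + 1)) • (X + Y))) C C' (k + 1) (hA k) (hB k) (k + 1) 0
      le_rfl
  rw [pow_zero, mul_one] at h1
  have h2 : NormedSpace.exp ((1 / ((k : ℝ) + 1)) • (X + Y)) ^ (k + 1) =
      NormedSpace.exp (X + Y) := by
    rw [hBp]
    congr 1
    have hk : (k : ℝ) + 1 ≠ 0 := by positivity
    push_cast
    rw [div_self hk, one_smul]
  rw [h2] at h1
  refine h1.trans (le_of_eq ?_)
  push_cast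
  ring

theorem lieAux_bracket (X Y : A₀) :
    Tendsto (fun s : ℝ => s⁻¹ • (NormedSpace.exp (s • X) * Y * NormedSpace.exp (s • (-X)) - Y))
      (𝓝[≠] 0) (𝓝 (X * Y - Y * X)) := by
  letI : NormedAlgebra ℚ A₀ := NormedAlgebra.restrictScalars ℚ ℝ A₀
  have h1 := ((hasDerivAt_exp_smul_const X (0 : ℝ)).mul_const Y).mul
    (hasDerivAt_exp_smul_const (-X) (0 : ℝ))
  simp only [zero_smul, NormedSpace.exp_zero, one_mul, mul_one] at h1
  have h2 := hasDerivAt_iff_tendsto_slope_zero.1 h1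
  simp only [zero_add, zero_smul, NormedSpace.exp_zero, one_mul, mul_one] at h2
  have e : X * Y + Y * -X = X * Y - Y * X := by rw [mul_neg, sub_eq_add_neg]
  rw [e] at h2
  refine h2.congr (fun t => ?_)
  simp only [Pi.mul_apply, zero_smul, NormedSpace.exp_zero, one_mul, mul_one]

end general

variable {G : Type} [Group G] [TopologicalSpace G] (R : RealReductive G)

/-- closedness of the group in the matrices -/
theorem lieAux_closed {A : ℕ → M R.n} {B : M R.n} (hB : IsUnit B) (hAB : Tendsto A atTop (𝓝 B))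
    (hA : ∀ k, ∃ g ∈ R.GR, (g : M R.n) = A k) : ∃ g ∈ R.GR, (g : M R.n) = B := by
  obtain ⟨S, hS⟩ := R.algebraic
  obtain ⟨u, hu⟩ := hB
  refine ⟨u, ?_, hu⟩
  rw [hS]
  intro f hf
  have hcont : Continuous fun C : M R.n => MvPolynomial.eval (fun ij : Fin R.n × Fin R.n => C ij.1 ij.2) f := by
    apply (MvPolynomial.continuous_eval f).comp
    fun_prop
  have h1 := (hcont.tendsto B).comp hAB
  have h2 : (fun C : M R.n => MvPolynomial.eval (fun ij : Fin R.n × Fin R.n => C ij.1 ij.2) f) ∘ A =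
      fun _ => 0 := by
    funext k
    obtain ⟨g, hg, e⟩ := hA k
    have := (hS g).1 hg f hf
    simp only [Function.comp]
    rw [← e]
    exact this
  rw [h2] at h1
  have h3 := tendsto_nhds_unique h1 tendsto_const_nhds
  rw [hu]
  exact h3

theorem lieAux_set_closed {A : ℕ → M R.n} {B : M R.n} (hAB : Tendsto A atTop (𝓝 B))
    (hA : ∀ k, A k ∈ R.lieSet) : B ∈ R.lieSet := by
  intro t
  apply lieAux_closed R (A := fun k => NormedSpace.exp (t • A k)) (Matrix.isUnit_exp _)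
  · have hc : Continuous fun C : M R.n => NormedSpace.exp (t • C) := by
      open scoped Matrix.Norms.Operator in
      exact (NormedSpace.exp_continuous (𝔸 := M R.n)).comp (by fun_prop)
    exact (hc.tendsto B).comp hAB
  · exact fun k => hA k t

/-- TARGET 1 -/
theorem lieAux_zero {G : Type} [Group G] [TopologicalSpace G] (R : RealReductive G) : (0 : M R.n) ∈ R.lieSet := by
  intro t
  refine ⟨1, R.GR.one_mem, ?_⟩
  rw [smul_zero, NormedSpace.exp_zero]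
  rfl

/-- TARGET 2 -/
theorem lieAux_add {G : Type} [Group G] [TopologicalSpace G] (R : RealReductive G) {X Y : M R.n}
    (hX : X ∈ R.lieSet) (hY : Y ∈ R.lieSet) : X + Y ∈ R.lieSet := by
  rcases Nat.eq_zero_or_pos R.n with h0 | h0
  · have : IsEmpty (Fin R.n) := by rw [h0]; infer_instance
    intro t
    refine ⟨1, R.GR.one_mem, ?_⟩
    ext i
    exact this.elim i
  haveI : Nonempty (Fin R.n) := ⟨⟨0, h0⟩⟩
  intro t
  have hmem : ∀ s : ℝ, ∃ u ∈ R.GR, (u : M R.n) =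
      NormedSpace.exp (s • (t • X)) * NormedSpace.exp (s • (t • Y)) := by
    intro s
    obtain ⟨u, hu, e⟩ := hX (s * t)
    obtain ⟨v, hv, e'⟩ := hY (s * t)
    refine ⟨u * v, R.GR.mul_mem hu hv, ?_⟩
    rw [Units.val_mul, e, e', smul_smul, smul_smul]
  apply lieAux_closed R (A := fun k : ℕ => (NormedSpace.exp ((1 / ((k : ℝ) + 1)) • (t • X)) *
      NormedSpace.exp ((1 / ((k : ℝ) + 1)) • (t • Y))) ^ (k + 1)) (Matrix.isUnit_exp _)
  · rw [smul_add]
    open scoped Matrix.Norms.Operator in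
    exact lieAux_trotter (A₀ := M R.n) (t • X) (t • Y)
  · intro k
    obtain ⟨u, hu, e⟩ := hmem (1 / ((k : ℝ) + 1))
    exact ⟨u ^ (k + 1), R.GR.pow_mem hu _, by rw [Units.val_pow_eq_pow_val, e]⟩

/-- TARGET 3 -/
theorem lieAux_smul {G : Type} [Group G] [TopologicalSpace G] (R : RealReductive G) (c : ℝ) {X : M R.n}
    (hX : X ∈ R.lieSet) : c • X ∈ R.lieSet := by
  intro t
  obtain ⟨g, hg, e⟩ := hX (t * c)
  exact ⟨g, hg, by rw [e, smul_smul]⟩

theorem lieAux_conjGR {G : Type} [Group G] [TopologicalSpace G] (R : RealReductive G)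
    {g : GL (Fin R.n) ℝ} (hg : g ∈ R.GR) {X : M R.n}
    (hX : X ∈ R.lieSet) : (g : M R.n) * X * ((g⁻¹ : GL (Fin R.n) ℝ) : M R.n) ∈ R.lieSet := by
  intro t
  obtain ⟨h, hh, e⟩ := hX t
  refine ⟨g * h * g⁻¹, R.GR.mul_mem (R.GR.mul_mem hg hh) (R.GR.inv_mem hg), ?_⟩
  have e2 : t • ((g : M R.n) * X * ((g⁻¹ : GL (Fin R.n) ℝ) : M R.n)) =
      (g : M R.n) * (t • X) * ((g⁻¹ : GL (Fin R.n) ℝ) : M R.n) := by
    rw [mul_smul_comm, smul_mul_assoc]
  rw [e2, Matrix.exp_units_conj, Units.val_mul, Units.val_mul, e]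

/-- TARGET 4 -/
theorem lieAux_lie {G : Type} [Group G] [TopologicalSpace G] (R : RealReductive G) {X Y : M R.n}
    (hX : X ∈ R.lieSet) (hY : Y ∈ R.lieSet) : X * Y - Y * X ∈ R.lieSet := by
  rcases Nat.eq_zero_or_pos R.n with h0 | h0
  · have : IsEmpty (Fin R.n) := by rw [h0]; infer_instance
    intro t
    refine ⟨1, R.GR.one_mem, ?_⟩
    ext i
    exact this.elim i
  haveI : Nonempty (Fin R.n) := ⟨⟨0, h0⟩⟩
  have hconj : ∀ s : ℝ, NormedSpace.exp (s • X) * Y * NormedSpace.exp (s • (-X)) ∈ R.lieSet := by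
    intro s
    obtain ⟨g, hg, e⟩ := hX s
    have h1 := lieAux_conjGR R hg hY
    have h2 : ((g⁻¹ : GL (Fin R.n) ℝ) : M R.n) = NormedSpace.exp (s • (-X)) := by
      rw [smul_neg, Matrix.exp_neg, ← e, Matrix.coe_units_inv]
    rw [e, h2] at h1
    exact h1
  have hs : Tendsto (fun k : ℕ => (1 / ((k : ℝ) + 1))) atTop (𝓝[≠] (0 : ℝ)) := by
    rw [tendsto_nhdsWithin_iff]
    refine ⟨tendsto_one_div_add_atTop_nhds_zero_nat, Eventually.of_forall fun k => ?_⟩
    have : (0 : ℝ) < 1 / ((k : ℝ) + 1) := by positivity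
    exact this.ne'
  have hlim : Tendsto (fun s : ℝ => s⁻¹ • (NormedSpace.exp (s • X) * Y * NormedSpace.exp (s • (-X)) - Y))
      (𝓝[≠] 0) (𝓝 (X * Y - Y * X)) := by
    open scoped Matrix.Norms.Operator in
    exact lieAux_bracket (A₀ := M R.n) X Y
  refine lieAux_set_closed R (hlim.comp hs) (fun k => ?_)
  apply lieAux_smul
  rw [sub_eq_add_neg]
  apply lieAux_add R (hconj _)
  have := lieAux_smul R (-1) hY
  rwa [neg_one_smul] at this

/-- TARGET 5 -/
theorem lieAux_transpose {G : Type} [Group G] [TopologicalSpace G] (R : RealReductive G) {X : M R.n}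
    (hX : X ∈ R.lieSet) : Xᵀ ∈ R.lieSet := by
  intro t
  obtain ⟨g, hg, e⟩ := hX t
  obtain ⟨g', hg', e'⟩ := R.transpose_mem g hg
  refine ⟨g', hg', ?_⟩
  rw [e', e, ← Matrix.exp_transpose, Matrix.transpose_smul]

/-- TARGET 6 -/
theorem lieAux_conj {G : Type} [Group G] [TopologicalSpace G] (R : RealReductive G) (g : G) {X : M R.n}
    (hX : X ∈ R.lieSet) : (R.ρ g : M R.n) * X * (R.ρ g⁻¹ : M R.n) ∈ R.lieSet := by
  rw [map_inv]
  exact lieAux_conjGR R (R.ρ_mem g) hX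

/-- TARGET 7 -/
theorem lieAux_inv {G : Type} [Group G] [TopologicalSpace G] (R : RealReductive G) (g : G)
    (h : (R.ρ g : M R.n)ᵀ * (R.ρ g : M R.n) = 1) : (R.ρ g⁻¹ : M R.n)ᵀ * (R.ρ g⁻¹ : M R.n) = 1 := by
  have h1 : ((R.ρ g⁻¹ : GL (Fin R.n) ℝ) : M R.n) = (R.ρ g : M R.n)ᵀ := by
    have h2 : (R.ρ g : M R.n) * ((R.ρ g⁻¹ : GL (Fin R.n) ℝ) : M R.n) = 1 := by
      rw [map_inv]
      exact Units.mul_inv _
    calc ((R.ρ g⁻¹ : GL (Fin R.n) ℝ) : M R.n)
        = ((R.ρ g : M R.n)ᵀ * (R.ρ g : M R.n)) * ((R.ρ g⁻¹ : GL (Fin R.n) ℝ) : M R.n) := by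
          rw [h, one_mul]
      _ = (R.ρ g : M R.n)ᵀ := by rw [mul_assoc, h2, mul_one]
  rw [h1, Matrix.transpose_transpose]
  exact mul_eq_one_comm.1 h

end Pool.Agent.H913.SG
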