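import Mathlib
import Pool.Agent.H913.SG.LieAux

/-! Definitions for the Sobolev gap problem: the maximal compact subgroup, Harish-Chandra modules,
continuous norms, weights, the Sobolev gap. -/

open Matrix NormedSpace
open scoped Matrix

universe u

namespace Pool.Agent.H913.SG

variable {G : Type} [Group G] [TopologicalSpace G]

namespace RealReductive

variable (R : RealReductive G)

theorem lieSet_zero : (0 : M R.n) ∈ R.lieSet := lieAux_zero R
theorem lieSet_add {X Y : M R.n} (hX : X ∈ R.lieSet) (hY : Y ∈ R.lieSet) : X + Y ∈ R.lieSet :=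
  lieAux_add R hX hY
theorem lieSet_smul (c : ℝ) {X : M R.n} (hX : X ∈ R.lieSet) : c • X ∈ R.lieSet := lieAux_smul R c hX
theorem lieSet_lie {X Y : M R.n} (hX : X ∈ R.lieSet) (hY : Y ∈ R.lieSet) :
    X * Y - Y * X ∈ R.lieSet := lieAux_lie R hX hY

/-- The Lie algebra of `G`: all matrices `X` with `exp (tX)` in `GR` for all real `t`. -/
def lie : Submodule ℝ (M R.n) where
  carrier := R.lieSet
  add_mem' := R.lieSet_add
  zero_mem' := R.lieSet_zero
  smul_mem' := R.lieSet_smul

/-- The Lie bracket on the Lie algebra. -/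
def br (X Y : R.lie) : R.lie := ⟨X.1 * Y.1 - Y.1 * X.1, R.lieSet_lie X.2 Y.2⟩

/-- `A` is an orthogonal matrix. -/
abbrev IsOrth {n : ℕ} (A : M n) : Prop := Aᵀ * A = 1

theorem K_mul {a b : G} (ha : IsOrth (R.ρ a : M R.n)) (hb : IsOrth (R.ρ b : M R.n)) :
    IsOrth (R.ρ (a * b) : M R.n) := by
  simp only [IsOrth, map_mul, Units.val_mul, Matrix.transpose_mul]
  calc _ = (R.ρ b : M R.n)ᵀ * ((R.ρ a : M R.n)ᵀ * (R.ρ a : M R.n)) * (R.ρ b : M R.n) := by
        simp only [Matrix.mul_assoc]
    _ = 1 := by rw [ha, Matrix.mul_one, hb]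

theorem K_one : IsOrth (R.ρ 1 : M R.n) := by simp [IsOrth]

theorem K_inv {a : G} (ha : IsOrth (R.ρ a : M R.n)) : IsOrth (R.ρ a⁻¹ : M R.n) :=
  lieAux_inv R a ha

/-- The maximal compact subgroup `K` of `G`: all `g` with `ρ g` orthogonal. -/
def K : Subgroup G where
  carrier := {g | IsOrth (R.ρ g : M R.n)}
  one_mem' := R.K_one
  mul_mem' := R.K_mul
  inv_mem' := R.K_inv

/-- `g X g⁻¹` lies in the Lie algebra. -/
theorem Ad_mem (g : G) (X : R.lie) :
    (R.ρ g : M R.n) * X.1 * (R.ρ g⁻¹ : M R.n) ∈ R.lie := lieAux_conj R g X.2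

/-- The adjoint action of `G` on its Lie algebra. -/
def Ad (g : G) (X : R.lie) : R.lie :=
  ⟨(R.ρ g : M R.n) * X.1 * (R.ρ g⁻¹ : M R.n), R.Ad_mem g X⟩

/-- `γ` is the one-parameter subgroup of `G` with velocity `X`. -/
def IsOneParam (X : R.lie) (γ : ℝ → G) : Prop :=
  Continuous γ ∧ (∀ s t, γ (s + t) = γ s * γ t) ∧ ∀ t : ℝ, (R.ρ (γ t) : M R.n) = exp (t • X.1)

/-- `X` lies in the Lie algebra `𝔨` of `K`, that is, it is skew-symmetric. -/
def IsSkew (X : R.lie) : Prop := X.1ᵀ = - X.1

/-- `Ad k` is given by an orthogonal matrix with respect to the family `b`. -/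
abbrev ActsOrth {m : ℕ} (b : Fin m → R.lie) (k : G) : Prop :=
  ∃ O : Matrix (Fin m) (Fin m) ℝ, Oᵀ * O = 1 ∧ ∀ i, R.Ad k (b i) = ∑ j, O j i • b j

/-- An orthonormal basis of `𝔨` for an `Ad(K)`-invariant inner product: a basis in which every
`Ad k`, `k ∈ K`, is given by an orthogonal matrix. -/
structure InvBasis where
  m : ℕ
  b : Fin m → R.lie
  skew : ∀ i, R.IsSkew (b i)
  linInd : LinearIndependent ℝ b
  spans : ∀ X : R.lie, R.IsSkew X → X ∈ Submodule.span ℝ (Set.range b)
  invariant : ∀ k ∈ R.K, R.ActsOrth b k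

end RealReductive

variable (R : RealReductive G)

section Pieces

variable {V : Type u} [AddCommGroup V] [Module ℂ V]

/-- `T` is a `K`-homomorphism from the representation `τ` of `K` to `V`. -/
abbrev IsKMap (kact : R.K →* Module.End ℂ V) {m : ℕ} (τ : R.K →* Module.End ℂ (Fin m → ℂ))
    (T : (Fin m → ℂ) →ₗ[ℂ] V) : Prop := ∀ k, T ∘ₗ τ k = kact k ∘ₗ T

variable {R}

theorem IsKMap.add' {kact : R.K →* Module.End ℂ V} {m : ℕ} {τ : R.K →* Module.End ℂ (Fin m → ℂ)}
    {a b : (Fin m → ℂ) →ₗ[ℂ] V} (ha : IsKMap R kact τ a) (hb : IsKMap R kact τ b) :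
    IsKMap R kact τ (a + b) := fun k => by
  rw [LinearMap.add_comp, LinearMap.comp_add, ha k, hb k]

theorem IsKMap.zero' {kact : R.K →* Module.End ℂ V} {m : ℕ}
    {τ : R.K →* Module.End ℂ (Fin m → ℂ)} : IsKMap R kact τ 0 := fun k => by simp

theorem IsKMap.smul' {kact : R.K →* Module.End ℂ V} {m : ℕ} {τ : R.K →* Module.End ℂ (Fin m → ℂ)}
    (c : ℂ) {a : (Fin m → ℂ) →ₗ[ℂ] V} (ha : IsKMap R kact τ a) :
    IsKMap R kact τ (c • a) := fun k => by
  rw [LinearMap.smul_comp, LinearMap.comp_smul, ha k]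

variable (R)

/-- The K-homomorphisms from a finite-dimensional representation `τ` of `K` to `V`. -/
def homK (kact : R.K →* Module.End ℂ V) {m : ℕ} (τ : R.K →* Module.End ℂ (Fin m → ℂ)) :
    Submodule ℂ ((Fin m → ℂ) →ₗ[ℂ] V) where
  carrier := {T | IsKMap R kact τ T}
  add_mem' := IsKMap.add'
  zero_mem' := IsKMap.zero'
  smul_mem' := IsKMap.smul'

variable {R}

/-- every vector of `V` lies in a finite-dimensional `K`-stable subspace -/
abbrev IsLocFinite (kact : R.K →* Module.End ℂ V) : Prop :=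
  ∀ v, FiniteDimensional ℂ (Submodule.span ℂ (Set.range fun k => kact k v))

/-- the action of `K` has continuous matrix coefficients -/
abbrev IsContAct (kact : R.K →* Module.End ℂ V) : Prop :=
  ∀ v (f : V →ₗ[ℂ] ℂ), Continuous fun k => f (kact k v)

/-- `act` respects the Lie bracket -/
abbrev RespectsBr (act : R.lie → Module.End ℂ V) : Prop :=
  ∀ X Y, act (R.br X Y) = act X * act Y - act Y * act X

/-- `k X v = (Ad(k) X) k v` -/
abbrev IsCompat (act : R.lie → Module.End ℂ V) (kact : R.K →* Module.End ℂ V) : Prop :=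
  ∀ (k : R.K) (X : R.lie), kact k * act X = act (R.Ad k.1 X) * kact k

/-- the derivative of the action of `K` along a one-parameter group in `K` is the action of its
velocity -/
abbrev IsDerived (act : R.lie → Module.End ℂ V) (kact : R.K →* Module.End ℂ V) : Prop :=
  ∀ (X : R.lie) (γ : ℝ → G), R.IsOneParam X γ → ∀ (hγ : ∀ t, γ t ∈ R.K),
    ∀ v (f : V →ₗ[ℂ] ℂ), HasDerivAt (fun t : ℝ => f (kact ⟨γ t, hγ t⟩ v)) (f (act X v)) 0

/-- `V` is finitely generated over the enveloping algebra of the Lie algebra: some finite subset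
lies in no proper submodule -/
abbrev IsFinGen (act : R.lie → Module.End ℂ V) : Prop :=
  ∃ S : Finset V, ∀ W : Submodule ℂ V, (∀ X, ∀ v ∈ W, act X v ∈ W) → (S : Set V) ⊆ W → W = ⊤

/-- `τ` is an irreducible representation of `K` (or zero) -/
abbrev IsIrr {m : ℕ} (τ : R.K →* Module.End ℂ (Fin m → ℂ)) : Prop :=
  ∀ W : Submodule ℂ (Fin m → ℂ), (∀ k, ∀ v ∈ W, τ k v ∈ W) → W = ⊥ ∨ W = ⊤

/-- every `K`-type (irreducible continuous finite-dimensional representation of `K`) has finite
multiplicity in `V` -/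
abbrev IsAdmissible (kact : R.K →* Module.End ℂ V) : Prop :=
  ∀ (m : ℕ) (τ : R.K →* Module.End ℂ (Fin m → ℂ)), IsContAct τ → IsIrr τ →
    FiniteDimensional ℂ (homK R kact τ)

end Pieces

/-- A Harish-Chandra module for `G`: a `(𝔤, K)`-module which is finitely generated over the enveloping
algebra and in which every `K`-type has finite multiplicity. -/
structure HCModule (V : Type u) [AddCommGroup V] [Module ℂ V] where
  /-- the action of the Lie algebra -/
  act : R.lie → Module.End ℂ V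
  act_add : ∀ X Y, act (X + Y) = act X + act Y
  act_smul : ∀ (c : ℝ) X, act (c • X) = (c : ℂ) • act X
  act_lie : RespectsBr act
  /-- the action of `K` -/
  kact : R.K →* Module.End ℂ V
  /-- `V` is locally `K`-finite -/
  kfinite : IsLocFinite kact
  /-- the action of `K` is continuous -/
  kcont : IsContAct kact
  /-- the two actions are compatible -/
  compat : IsCompat act kact
  /-- the derivative of the action of `K` is the action of its Lie algebra -/
  deriv : IsDerived act kact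
  /-- `V` is finitely generated over the enveloping algebra -/
  fg : IsFinGen act
  /-- every `K`-type has finite multiplicity in `V` -/
  admissible : IsAdmissible kact

/-- A weight on `G`: a positive, locally bounded, submultiplicative function. -/
structure IsWeight (w : G → ℝ) : Prop where
  pos : ∀ g, 0 < w g
  locally_bounded : ∀ g, ∃ U ∈ nhds g, ∃ C : ℝ, ∀ x ∈ U, w x ≤ C
  submul : ∀ g h, w (g * h) ≤ w g * w h

variable {R}
variable {V : Type u} [AddCommGroup V] [Module ℂ V]

section Rep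

variable {E : Type u} [NormedAddCommGroup E] [NormedSpace ℂ E]

/-- `π` is a continuous representation of `G` on the Banach space `E`. -/
abbrev IsContRep (π : G →* (E →L[ℂ] E)) : Prop := ∀ x, Continuous fun g => π g x

/-- `ι` intertwines the actions of `K`. -/
abbrev RespectsK (Mo : HCModule R V) (ι : V →ₗ[ℂ] E) (π : G →* (E →L[ℂ] E)) : Prop :=
  ∀ (k : R.K) v, π k.1 (ι v) = ι (Mo.kact k v)

/-- The vectors `ι v` are differentiable along one-parameter groups, and `ι` intertwines the actions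
of the Lie algebra. -/
abbrev RespectsLie (Mo : HCModule R V) (ι : V →ₗ[ℂ] E) (π : G →* (E →L[ℂ] E)) : Prop :=
  ∀ (X : R.lie) (γ : ℝ → G), R.IsOneParam X γ → ∀ v,
    HasDerivAt (fun t : ℝ => π (γ t) (ι v)) (ι (Mo.act X v)) 0

/-- All `K`-finite vectors of `E` are in the image of `V`. -/
abbrev HitsKFinite (R : RealReductive G) {V : Type u} [AddCommGroup V] [Module ℂ V]
    (ι : V →ₗ[ℂ] E) (π : G →* (E →L[ℂ] E)) : Prop :=
  ∀ x : E, FiniteDimensional ℂ (Submodule.span ℂ (Set.range fun k : R.K => π k.1 x)) →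
    x ∈ Set.range ι

/-- The operator norm of `π g` is at most `C * w g` for some `C > 0`. -/
abbrev GrowthLE (π : G →* (E →L[ℂ] E)) (w : G → ℝ) : Prop := ∃ C > 0, ∀ g, ‖π g‖ ≤ C * w g

end Rep

/-- `p ∈ Norm(V, w)`: `p` is a norm on `V`, the completion `E` of `V` for `p` carries a continuous
representation `π` of `G` whose `K`-finite vectors are `V` as a `(𝔤, K)`-module, and the operator norm
of `π g` (which is the growth function `w_p`) is at most `C * w g` for some `C > 0`. -/
def IsNormIn (Mo : HCModule R V) (w : G → ℝ) (p : V → ℝ) : Prop :=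
  ∃ (E : Type u) (_ : NormedAddCommGroup E) (_ : NormedSpace ℂ E) (_ : CompleteSpace E)
    (ι : V →ₗ[ℂ] E) (π : G →* (E →L[ℂ] E)),
    Function.Injective ι ∧ DenseRange ι ∧ (∀ v, p v = ‖ι v‖) ∧ IsContRep π ∧ RespectsK Mo ι π ∧
    RespectsLie Mo ι π ∧ HitsKFinite R ι π ∧ GrowthLE π w

/-- The `K`-Laplacian `-∑ bᵢ²` on `V`. -/
noncomputable def lap (Mo : HCModule R V) (B : R.InvBasis) : Module.End ℂ V :=
  - ∑ i, Mo.act (B.b i) * Mo.act (B.b i)

/-- `T` is the operator `(1 + Δ_K)^(s/2)`: it is the scalar `(1+c)^(s/2)` on the eigenspace of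
`Δ_K` for the eigenvalue `c`. -/
def IsSobolevPow (Mo : HCModule R V) (B : R.InvBasis) (s : ℝ) (T : Module.End ℂ V) : Prop :=
  ∀ (c : ℝ) (v : V), lap Mo B v = (c : ℂ) • v → T v = (((1 + c) ^ (s / 2) : ℝ) : ℂ) • v

/-- `p ≲ q`. -/
def NormLE (p q : V → ℝ) : Prop := ∃ C : ℝ, ∀ v, p v ≤ C * q v

/-- The set of all `s ≥ 0` with `p_max ≲ (p_min)_s`, where `p_min` and `p_max` are a smallest and a
largest element of `Norm(V, w)` up to equivalence, and `p_s v = p ((1 + Δ_K)^(s/2) v)`. -/
def gapSet (Mo : HCModule R V) (B : R.InvBasis) (w : G → ℝ) : Set ℝ :=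
  {s | 0 ≤ s ∧ ∃ T : Module.End ℂ V, IsSobolevPow Mo B s T ∧
    ∀ pmin pmax : V → ℝ, IsNormIn Mo w pmin → IsNormIn Mo w pmax →
    (∀ p, IsNormIn Mo w p → NormLE pmin p) → (∀ p, IsNormIn Mo w p → NormLE p pmax) →
    NormLE pmax (fun v => pmin (T v))}

/-- The Sobolev gap `s(V, w)`. -/
noncomputable def sobolevGap (Mo : HCModule R V) (B : R.InvBasis) (w : G → ℝ) : ℝ :=
  sInf (gapSet Mo B w)

end Pool.Agent.H913.SG
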