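import Pool.Agent.H913.SG.Stmts2

open MeasureTheory Matrix NormedSpace
open scoped SchwartzMap ContDiff FourierTransform Matrix

universe u v

namespace Pool.Agent.H913.SG

lemma gChartAux_det {d : ℕ} {F : Type*} [NormedAddCommGroup F] [NormedSpace ℝ F]
    (N : Fin d → Fin d → F → ℝ) (hN : ∀ i j, ContDiff ℝ ∞ (N i j)) :
    ContDiff ℝ ∞ (fun y => (Matrix.of fun i j => N i j y).det) := by
  simp only [Matrix.det_apply, Matrix.of_apply]
  apply ContDiff.sum
  intro σ _
  apply ContDiff.const_smul
  apply contDiff_prod
  intro i _
  exact hN _ _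

lemma gChartAux_adj {d : ℕ} {F : Type*} [NormedAddCommGroup F] [NormedSpace ℝ F]
    (N : Fin d → Fin d → F → ℝ) (hN : ∀ i j, ContDiff ℝ ∞ (N i j)) (a b : Fin d) :
    ContDiff ℝ ∞ (fun y => (Matrix.of fun i j => N i j y).adjugate a b) := by
  have h : (fun y => (Matrix.of fun i j => N i j y).adjugate a b) =
      fun y => (Matrix.of fun i j =>
        (fun i j y => if i = b then (Pi.single a (1 : ℝ) : Fin d → ℝ) j else N i j y) i j y).det := by
    funext y
    rw [Matrix.adjugate_apply]
    congr 1
    ext i j
    simp only [Matrix.updateRow_apply, Matrix.of_apply]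
  rw [h]
  apply gChartAux_det (fun i j y => if i = b then (Pi.single a (1 : ℝ) : Fin d → ℝ) j else N i j y)
  intro i j
  by_cases hi : i = b
  · simp only [hi, if_true]
    exact contDiff_const
  · simp only [hi, if_false]
    exact hN i j

/-- TARGET -/
theorem chartAux : S_chartAux := by
  intro d N hN hN0
  have hdet := gChartAux_det N hN
  have hdet0 : (Matrix.of fun i j => N i j (0 : EE d)).det ≠ 0 := by
    have : (Matrix.of fun i j => N i j (0 : EE d)) = 1 := by
      ext i j
      simp [hN0, Matrix.one_apply]
    rw [this]; simp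
  have hnear : ∀ᶠ y in nhds (0 : EE d), (Matrix.of fun i j => N i j y).det ≠ 0 :=
    hdet.continuous.continuousAt.eventually_ne hdet0
  obtain ⟨r0, hr0, hball⟩ := Metric.eventually_nhds_iff_ball.mp hnear
  let β : ContDiffBump (0 : EE d) := ⟨r0 / 3, r0 / 2, by positivity, by linarith⟩
  let χ : ContDiffBump (0 : EE d) := ⟨r0 / 12, r0 / 6, by positivity, by linarith⟩
  refine ⟨{ r := r0 / 3
            r_pos := by positivity
            N := N
            N_cont := fun i j => (hN i j).continuous
            M := fun j i y => β y * (((Matrix.of fun i j => N i j y).det)⁻¹ *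
              (Matrix.of fun i j => N i j y).adjugate j i)
            M_smooth := ?_
            M_zero := ?_
            MN := ?_
            χ := fun y => χ y
            χ_smooth := χ.contDiff
            χ_supp := ?_
            χ_zero := ?_
            χ_nonneg := fun y => χ.nonneg
            χ_le_one := fun y => χ.le_one }, rfl⟩
  · intro j i
    rw [contDiff_iff_contDiffAt]
    intro y
    by_cases hy1 : y ∈ tsupport (β : EE d → ℝ)
    swap
    · have hz : ∀ᶠ z in nhds y, z ∉ tsupport (β : EE d → ℝ) :=
        (isClosed_tsupport _).isOpen_compl.eventually_mem hy1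
      apply ContDiffAt.congr_of_eventuallyEq (f := fun _ => (0 : ℝ)) contDiffAt_const
      filter_upwards [hz] with z hz
      rw [image_eq_zero_of_notMem_tsupport hz, zero_mul]
    rw [ContDiffBump.tsupport_eq] at hy1
    have hy2 : y ∈ Metric.ball (0 : EE d) r0 := by
      apply Metric.closedBall_subset_ball _ hy1
      show r0 / 2 < r0
      linarith
    have hne := hball y hy2
    exact (β.contDiff.contDiffAt).mul ((hdet.contDiffAt.inv hne).mul
      (gChartAux_adj N hN j i).contDiffAt)
  · intro j i
    have h1 : (Matrix.of fun i j => N i j (0 : EE d)) = 1 := by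
      ext i j
      simp [hN0, Matrix.one_apply]
    have h2 : β (0 : EE d) = 1 := β.one_of_mem_closedBall (Metric.mem_closedBall_self β.rIn_pos.le)
    simp only [h1, h2, Matrix.det_one, Matrix.adjugate_one, inv_one, one_mul, Matrix.one_apply]
  · intro y hy j l
    have hy2 : y ∈ Metric.ball (0 : EE d) r0 := by
      rw [mem_ball_zero_iff]
      linarith
    have hne := hball y hy2
    have h2 : β y = 1 := β.one_of_mem_closedBall (by
      rw [mem_closedBall_zero_iff]; exact hy)
    simp only [h2, one_mul]
    have h3 : ∑ i, ((Matrix.of fun i j => N i j y).det)⁻¹ *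
        (Matrix.of fun i j => N i j y).adjugate j i * N i l y =
        ((Matrix.of fun i j => N i j y).det)⁻¹ *
        ((Matrix.of fun i j => N i j y).adjugate * (Matrix.of fun i j => N i j y)) j l := by
      rw [Matrix.mul_apply, Finset.mul_sum]
      apply Finset.sum_congr rfl
      intro i _
      simp only [Matrix.of_apply]
      ring
    rw [h3, Matrix.adjugate_mul, Matrix.smul_apply, smul_eq_mul, ← mul_assoc, inv_mul_cancel₀ hne,
      one_mul, Matrix.one_apply]
  · have : tsupport (fun y => χ y) = Metric.closedBall (0 : EE d) (r0 / 6) := χ.tsupport_eq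
    rw [this]
    apply Metric.closedBall_subset_ball
    linarith
  · exact χ.one_of_mem_closedBall (Metric.mem_closedBall_self χ.rIn_pos.le)

end Pool.Agent.H913.SG
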