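import Pool.Agent.H913.SG.Stmts2

open MeasureTheory Matrix NormedSpace
open scoped SchwartzMap ContDiff FourierTransform Matrix

universe u v

namespace Pool.Agent.H913.SG

section NU

variable {G : Type} [Group G] [TopologicalSpace G] {R : RealReductive G}

theorem nU_sigma (s : KRep R) (a b : Fin s.n') : (fun k : R.K => ((s.σ k a b : ℝ) : ℂ)) ∈ s.W 1 :=
  ⟨MvPolynomial.X (a, b), by simp, fun k => by simp⟩

theorem nU_rho (s : KRep R) (i j : Fin R.n) :
    (fun k : R.K => (((R.ρ k.1 : M R.n) i j : ℝ) : ℂ)) ∈ s.W 1 := by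
  obtain ⟨c, hc⟩ := s.entries i j
  have : (fun k : R.K => (((R.ρ k.1 : M R.n) i j : ℝ) : ℂ)) =
      ∑ a, ∑ b, (c a b : ℂ) • fun k : R.K => ((s.σ k a b : ℝ) : ℂ) := by
    funext k
    rw [hc k]
    simp [Finset.sum_apply]
  rw [this]
  exact Submodule.sum_mem _ fun a _ => Submodule.sum_mem _ fun b _ =>
    Submodule.smul_mem _ _ (nU_sigma s a b)

theorem nU_inv (k : R.K) : (R.ρ (k.1)⁻¹ : M R.n) = (R.ρ k.1 : M R.n)ᵀ := by
  have h1 : (R.ρ k.1 : M R.n)ᵀ * (R.ρ k.1 : M R.n) = 1 := k.2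
  have h2 : (R.ρ k.1 : M R.n) * (R.ρ (k.1)⁻¹ : M R.n) = 1 := by
    rw [← Units.val_mul, ← map_mul, mul_inv_cancel, map_one, Units.val_one]
  calc (R.ρ (k.1)⁻¹ : M R.n) = ((R.ρ k.1 : M R.n)ᵀ * (R.ρ k.1 : M R.n)) * (R.ρ (k.1)⁻¹ : M R.n) := by
        rw [h1, Matrix.one_mul]
    _ = _ := by rw [Matrix.mul_assoc, h2, Matrix.mul_one]

theorem nU_act_sum {V : Type u} [AddCommGroup V] [Module ℂ V] (Mo : HCModule R V)
    {ι : Type*} (S : Finset ι) (f : ι → R.lie) : Mo.act (∑ i ∈ S, f i) = ∑ i ∈ S, Mo.act (f i) := by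
  classical
  have h0 : Mo.act 0 = 0 := by
    have := Mo.act_smul 0 0
    simpa using this
  induction S using Finset.induction_on with
  | empty => simpa using h0
  | insert a S ha ih => rw [Finset.sum_insert ha, Finset.sum_insert ha, Mo.act_add, ih]

theorem nU_coef (h1 : S_W) (s : KRep R) (A : M R.n) (X : R.lie) :
    (fun k : R.K => (((A * (R.Ad k.1 X).1).trace : ℝ) : ℂ)) ∈ s.W 2 := by
  obtain ⟨_, hmul, _⟩ := h1 G R s
  have : (fun k : R.K => (((A * (R.Ad k.1 X).1).trace : ℝ) : ℂ)) =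
      ∑ p, ∑ q, ∑ r, ∑ t, ((A p q * X.1 t r : ℝ) : ℂ) • fun k : R.K =>
        (((R.ρ k.1 : M R.n) q t : ℝ) : ℂ) * (((R.ρ k.1 : M R.n) p r : ℝ) : ℂ) := by
    funext k
    have e1 : (R.Ad k.1 X).1 = (R.ρ k.1 : M R.n) * X.1 * (R.ρ k.1 : M R.n)ᵀ := by
      show (R.ρ k.1 : M R.n) * X.1 * (R.ρ (k.1)⁻¹ : M R.n) = _
      rw [nU_inv]
    rw [e1]
    simp only [Matrix.trace, Matrix.diag_apply, Matrix.mul_apply, Matrix.transpose_apply,
      Finset.sum_apply, Pi.smul_apply, smul_eq_mul, Complex.ofReal_sum, Complex.ofReal_mul,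
      Finset.mul_sum, Finset.sum_mul]
    refine Finset.sum_congr rfl fun p _ => Finset.sum_congr rfl fun q _ =>
      Finset.sum_congr rfl fun r _ => Finset.sum_congr rfl fun t _ => ?_
    ring
  rw [this]
  exact Submodule.sum_mem _ fun p _ => Submodule.sum_mem _ fun q _ => Submodule.sum_mem _ fun r _ =>
    Submodule.sum_mem _ fun t _ => Submodule.smul_mem _ _
      (hmul 1 1 _ _ (nU_rho s q t) (nU_rho s p r))

end NU

/-- TARGET -/
theorem Uprops (h1 : S_W) : S_U.{u} := by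
  intro G _ _ _ _ _ R P s V _ _ Mo
  obtain ⟨hmono, hmul, _, _, _, htrans, _⟩ := h1 G R s
  have hK : ∀ N (k : R.K), ∀ v ∈ s.U Mo N, Mo.kact k v ∈ s.U Mo N := by
    intro N k v hv f
    have := (htrans N (fun k => f (Mo.kact k v)) k (hv f)).2
    have e : (fun k' : R.K => f (Mo.kact k' (Mo.kact k v))) = fun k' => f (Mo.kact (k' * k) v) := by
      funext k'
      rw [map_mul]; rfl
    rw [e]; exact this
  refine ⟨?_, hK, ?_, ?_⟩
  · intro N N' hN v hv f
    exact hmono N N' hN (hv f)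
  · intro N X v hv f
    have e : (fun k : R.K => f (Mo.kact k (Mo.act X v))) =
        ∑ j, fun k : R.K => ((((P.X j).1ᵀ * (R.Ad k.1 X).1).trace : ℝ) : ℂ) *
          (f ∘ₗ Mo.act (P.X j)) (Mo.kact k v) := by
      funext k
      have h2 : Mo.kact k (Mo.act X v) = Mo.act (R.Ad k.1 X) (Mo.kact k v) := by
        have := congrArg (fun T : Module.End ℂ V => T v) (Mo.compat k X)
        exact this
      rw [h2]
      conv_lhs => rw [P.X_spans (R.Ad k.1 X), nU_act_sum]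
      rw [Finset.sum_apply, LinearMap.sum_apply, map_sum]
      refine Finset.sum_congr rfl fun j _ => ?_
      rw [Mo.act_smul, LinearMap.smul_apply, map_smul]
      rfl
    rw [e]
    refine Submodule.sum_mem _ fun j _ => ?_
    have h3 := hmul 2 N _ _ (nU_coef h1 s (P.X j).1ᵀ X) (hv (f ∘ₗ Mo.act (P.X j)))
    rw [add_comm] at h3
    exact h3
  · intro N X hX v hv
    set W := Submodule.span ℂ (Set.range fun k => Mo.kact k v) with hW
    have hWU : W ≤ s.U Mo N := by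
      rw [hW, Submodule.span_le]
      rintro _ ⟨k, rfl⟩
      exact hK N k v hv
    apply hWU
    by_contra hcon
    obtain ⟨φ, hφ1, hφ2⟩ := Submodule.exists_le_ker_of_notMem hcon
    have h4 := Mo.deriv X (P.gam X) (P.gam_spec X) (P.gam_mem X hX) v φ
    have h5 : (fun t : ℝ => φ (Mo.kact ⟨P.gam X t, P.gam_mem X hX t⟩ v)) = fun _ => 0 := by
      funext t
      have h6 : Mo.kact ⟨P.gam X t, P.gam_mem X hX t⟩ v ∈ W := Submodule.subset_span ⟨_, rfl⟩
      exact hφ2 h6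
    rw [h5] at h4
    exact hφ1 (h4.unique (hasDerivAt_const _ _))

end Pool.Agent.H913.SG
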