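import Pool.Agent.H913.SG.Stmts2

open MeasureTheory Matrix NormedSpace
open scoped SchwartzMap ContDiff FourierTransform Matrix

universe u v

namespace Pool.Agent.H913.SG

/-- two linear maps on a finite-dimensional space, the first one injective -/
theorem qCore_fin {V E₁ E₂ : Type u} [AddCommGroup V] [Module ℂ V] [NormedAddCommGroup E₁]
    [NormedSpace ℂ E₁] [NormedAddCommGroup E₂] [NormedSpace ℂ E₂] (ι₁ : V →ₗ[ℂ] E₁)
    (ι₂ : V →ₗ[ℂ] E₂) (hinj : Function.Injective ι₁) (U : Submodule ℂ V)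
    (hU : FiniteDimensional ℂ U) : ∃ g : ℝ, 0 ≤ g ∧ ∀ t ∈ U, ‖ι₂ t‖ ≤ g * ‖ι₁ t‖ := by
  have hinj' : Function.Injective (ι₁ ∘ₗ U.subtype) := by
    intro a b hab
    exact Subtype.ext (hinj hab)
  let e : U ≃ₗ[ℂ] LinearMap.range (ι₁ ∘ₗ U.subtype) := LinearEquiv.ofInjective _ hinj'
  have hfin : FiniteDimensional ℂ (LinearMap.range (ι₁ ∘ₗ U.subtype)) := inferInstance
  let T : LinearMap.range (ι₁ ∘ₗ U.subtype) →ₗ[ℂ] E₂ :=
    (ι₂ ∘ₗ U.subtype) ∘ₗ (e.symm : LinearMap.range (ι₁ ∘ₗ U.subtype) →ₗ[ℂ] U)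
  refine ⟨‖LinearMap.toContinuousLinearMap T‖, ContinuousLinearMap.opNorm_nonneg _, ?_⟩
  intro t ht
  have h1 := (LinearMap.toContinuousLinearMap T).le_opNorm (e ⟨t, ht⟩)
  have h2 : (LinearMap.toContinuousLinearMap T) (e ⟨t, ht⟩) = ι₂ t := by
    show ι₂ ((e.symm (e ⟨t, ht⟩) : U) : V) = ι₂ t
    rw [LinearEquiv.symm_apply_apply]
  have h3 : ‖e ⟨t, ht⟩‖ = ‖ι₁ t‖ := rfl
  rw [h2, h3] at h1
  exact h1

/-- polynomial growth from the recursion -/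
theorem qCore_growth {V E₁ E₂ : Type u} [AddCommGroup V] [Module ℂ V] [NormedAddCommGroup E₁]
    [NormedSpace ℂ E₁] [NormedAddCommGroup E₂] [NormedSpace ℂ E₂] (ι₁ : V →ₗ[ℂ] E₁)
    (ι₂ : V →ₗ[ℂ] E₂) (hinj : Function.Injective ι₁) (U : ℕ → Submodule ℂ V)
    (hU : ∀ N, FiniteDimensional ℂ (U N)) (Cr : ℝ) (_hCr : 1 ≤ Cr) (s1 : ℕ)
    (hs1 : Cr ≤ (4 / 3 : ℝ) ^ s1) (N₀ : ℕ)
    (hrec : ∀ N, N₀ ≤ N → ∀ g : ℝ, 0 ≤ g → (∀ t ∈ U (N / 2), ‖ι₂ t‖ ≤ g * ‖ι₁ t‖) →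
      ∀ v ∈ U N, ‖ι₂ v‖ ≤ Cr * g * ‖ι₁ v‖) :
    ∃ CV : ℝ, 0 ≤ CV ∧ ∀ N : ℕ, ∀ t ∈ U N, ‖ι₂ t‖ ≤ CV * (N + 1 : ℝ) ^ s1 * ‖ι₁ t‖ := by
  choose g hg0 hg using fun N => qCore_fin ι₁ ι₂ hinj (U N) (hU N)
  set CV := ∑ n ∈ Finset.range (max N₀ 1), g n with hCV
  have hCV0 : 0 ≤ CV := Finset.sum_nonneg fun n _ => hg0 n
  refine ⟨CV, hCV0, ?_⟩
  intro N
  induction N using Nat.strong_induction_on with
  | _ N ih =>
    intro t ht
    by_cases hN : N < max N₀ 1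
    · have h1 : g N ≤ CV := Finset.single_le_sum (f := g) (fun n _ => hg0 n)
        (Finset.mem_range.2 hN)
      have h2 : (1 : ℝ) ≤ (N + 1 : ℝ) ^ s1 := one_le_pow₀ (by
        have : (0 : ℝ) ≤ N := Nat.cast_nonneg N
        linarith)
      refine (hg N t ht).trans (mul_le_mul_of_nonneg_right ?_ (norm_nonneg _))
      nlinarith
    · have hN1 : 1 ≤ N := by omega
      have hN0 : N₀ ≤ N := by omega
      have hlt : N / 2 < N := by omega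
      have h1 := hrec N hN0 (CV * (((N / 2 : ℕ) : ℝ) + 1) ^ s1) (by positivity)
        (fun t ht => ih (N / 2) hlt t ht) t ht
      refine h1.trans (mul_le_mul_of_nonneg_right ?_ (norm_nonneg _))
      have hcast : ((N / 2 : ℕ) : ℝ) ≤ (N : ℝ) / 2 := Nat.cast_div_le
      have hN1' : (1 : ℝ) ≤ N := by exact_mod_cast hN1
      have h2 : ((N / 2 : ℕ) : ℝ) + 1 ≤ (3 / 4) * ((N : ℝ) + 1) := by linarith
      have h3 : (((N / 2 : ℕ) : ℝ) + 1) ^ s1 ≤ ((3 / 4) * ((N : ℝ) + 1)) ^ s1 :=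
        pow_le_pow_left₀ (by positivity) h2 s1
      have h4 : Cr * (((N / 2 : ℕ) : ℝ) + 1) ^ s1 ≤ ((N : ℝ) + 1) ^ s1 := by
        calc Cr * (((N / 2 : ℕ) : ℝ) + 1) ^ s1 ≤ (4 / 3 : ℝ) ^ s1 * ((3 / 4) * ((N : ℝ) + 1)) ^ s1 :=
              mul_le_mul hs1 h3 (by positivity) (by positivity)
          _ = ((N : ℝ) + 1) ^ s1 := by
              rw [← mul_pow]; congr 1; ring
      calc Cr * (CV * (((N / 2 : ℕ) : ℝ) + 1) ^ s1) = CV * (Cr * (((N / 2 : ℕ) : ℝ) + 1) ^ s1) := by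
            ring
        _ ≤ CV * ((N : ℝ) + 1) ^ s1 := mul_le_mul_of_nonneg_left h4 hCV0

theorem qCore_summable : Summable (fun n : ℕ => 1 / ((n : ℝ) + 1) ^ 2) := by
  have h := (summable_nat_add_iff 1).2 (Real.summable_one_div_nat_pow.2 (by norm_num : 1 < 2))
  simpa using h

/-- the sum over the eigenvalues -/
theorem qCore_sum (T : Finset ℝ) (Nf : ℝ → ℕ) (e : ℕ)
    (hcount : ∀ N : ℕ, ((T.filter (fun c => Nf c = N)).card : ℝ) ≤ (N + 1 : ℝ) ^ e) :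
    ∑ c ∈ T, 1 / ((Nf c : ℝ) + 1) ^ (e + 2) ≤ ∑' n : ℕ, 1 / ((n : ℝ) + 1) ^ 2 := by
  classical
  rw [← Finset.sum_fiberwise_of_maps_to (t := T.image Nf) (g := Nf)
    (fun c hc => Finset.mem_image_of_mem _ hc)]
  have h1 : ∀ N ∈ T.image Nf, ∑ c ∈ T.filter (fun c => Nf c = N), 1 / ((Nf c : ℝ) + 1) ^ (e + 2) ≤
      1 / ((N : ℝ) + 1) ^ 2 := by
    intro N _
    have h2 : ∑ c ∈ T.filter (fun c => Nf c = N), 1 / ((Nf c : ℝ) + 1) ^ (e + 2) =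
        ∑ c ∈ T.filter (fun c => Nf c = N), 1 / ((N : ℝ) + 1) ^ (e + 2) := by
      refine Finset.sum_congr rfl fun c hc => ?_
      rw [(Finset.mem_filter.1 hc).2]
    rw [h2, Finset.sum_const, nsmul_eq_mul]
    have hpos : (0 : ℝ) < (N : ℝ) + 1 := by positivity
    calc ((T.filter (fun c => Nf c = N)).card : ℝ) * (1 / ((N : ℝ) + 1) ^ (e + 2)) ≤
          (N + 1 : ℝ) ^ e * (1 / ((N : ℝ) + 1) ^ (e + 2)) :=
          mul_le_mul_of_nonneg_right (hcount N) (by positivity)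
      _ = 1 / ((N : ℝ) + 1) ^ 2 := by
          rw [pow_add]; field_simp
  refine (Finset.sum_le_sum h1).trans ?_
  exact qCore_summable.sum_le_tsum _ (fun n _ => by positivity)

theorem qCore_pow {V : Type u} [AddCommGroup V] [Module ℂ V] (T : Module.End ℂ V) (c : ℂ) (v : V)
    (h : T v = c • v) (M : ℕ) : ((1 + T) ^ M) v = (1 + c) ^ M • v := by
  induction M with
  | zero => simp
  | succ M ih =>
    rw [pow_succ', Module.End.mul_apply, ih, map_smul]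
    have h1 : (1 + T) v = (1 + c) • v := by
      rw [LinearMap.add_apply, Module.End.one_apply, h, add_smul, one_smul]
    rw [h1, smul_smul, pow_succ]

/-- TARGET -/
theorem core (h1 : S_rec.{u}) (h2 : S_Ufin.{u}) (h3 : S_eig.{u}) (h4 : S_proj.{u,u}) (h5 : S_count.{u}) : S_core.{u} := by
  intro G _ _ _ _ _ R P s w hw B
  obtain ⟨Cr, hCr1, hrec⟩ := h1 G R P s w hw
  obtain ⟨C₀, hC0, heig⟩ := h3 G R P s B
  obtain ⟨CK, hCK, hproj⟩ := h4 G R P s B w hw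
  obtain ⟨s1, hs1⟩ := pow_unbounded_of_one_lt Cr (by norm_num : (1 : ℝ) < 4 / 3)
  set e := s.n' ^ 2 with he
  refine ⟨s1 + 2 * e + 2, ?_⟩
  intro M hM V _ _ Mo hT E₁ E₂ _ _ _ _ _ _ Gl₁ Gl₂ d₁ d₂
  obtain ⟨N₀, hN₀⟩ := hrec V Mo hT E₁ E₂ Gl₁ Gl₂ d₁ d₂
  obtain ⟨hUfin, -⟩ := h2 G R P s V Mo hT
  obtain ⟨heig1, heig2, heig3⟩ := heig V Mo hT
  obtain ⟨CV, hCV0, hCV⟩ := qCore_growth Gl₁.ι Gl₂.ι Gl₁.inj (s.U Mo) hUfin Cr hCr1 s1 hs1.le N₀ hN₀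
  set κ : ℝ := 2 * (C₀ + 2) ^ 2 with hκ
  have hκpos : 0 < κ := by positivity
  set S : ℝ := ∑' n : ℕ, 1 / ((n : ℝ) + 1) ^ 2 with hS
  refine ⟨CV * CK * κ ^ M * S, ?_⟩
  intro v
  obtain ⟨f, hf, hfv⟩ := heig2 v
  -- the level of an eigenvalue
  let Nf : ℝ → ℕ := fun c => ⌈C₀ * (1 + Real.sqrt c)⌉₊
  have hfU : ∀ c, f c ∈ s.U Mo (Nf c) := by
    intro c
    by_cases h0 : f c = 0
    · rw [h0]; exact (s.U Mo (Nf c)).zero_mem
    · exact heig3 c (f c) h0 (hf c) (Nf c) (Nat.le_ceil _)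
  have hc0 : ∀ c ∈ f.support, 0 ≤ c := fun c hc => heig1 c (f c) (Finsupp.mem_support_iff.1 hc) (hf c)
  -- the family for `u`
  let f' : ℝ →₀ V := Finsupp.onFinset f.support (fun c => ((1 + (c : ℂ)) ^ M) • f c) (by
    intro c hc
    rw [Finsupp.mem_support_iff]
    rintro h0
    rw [h0, smul_zero] at hc
    exact hc rfl)
  have hf'c : ∀ c, f' c = ((1 + (c : ℂ)) ^ M) • f c := fun c => rfl
  have hf' : ∀ c, lap Mo B (f' c) = (c : ℂ) • f' c := by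
    intro c
    rw [hf'c, map_smul, hf c, smul_comm]
  have hsum' : f'.sum (fun _ x => x) = ((1 + lap Mo B) ^ M) v := by
    have e1 : f'.sum (fun _ x => x) = ∑ c ∈ f.support, ((1 + (c : ℂ)) ^ M) • f c :=
      Finsupp.onFinset_sum _ (fun _ => rfl)
    rw [e1, hfv, Finsupp.sum, map_sum]
    refine Finset.sum_congr rfl fun c _ => ?_
    rw [qCore_pow (lap Mo B) c (f c) (hf c) M]
  set u := ((1 + lap Mo B) ^ M) v with hu
  -- the estimate of one term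
  have hterm : ∀ c ∈ f.support, ‖Gl₂.ι (f c)‖ ≤
      CV * CK * κ ^ M * ‖Gl₁.ι u‖ * (1 / ((Nf c : ℝ) + 1) ^ (e + 2)) := by
    intro c hc
    have hc0' := hc0 c hc
    have hNpos : (0 : ℝ) < (Nf c : ℝ) + 1 := by positivity
    have hN1 : (1 : ℝ) ≤ (Nf c : ℝ) + 1 := by
      have : (0 : ℝ) ≤ (Nf c : ℝ) := Nat.cast_nonneg _
      linarith
    have h1c : (0 : ℝ) < 1 + c := by linarith
    have t1 := hCV (Nf c) (f c) (hfU c)
    have t2 := hproj V Mo hT E₁ Gl₁ f' hf' c (Nf c) (by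
      rw [hf'c]; exact (s.U Mo (Nf c)).smul_mem _ (hfU c))
    rw [hsum', hf'c, map_smul, norm_smul] at t2
    have hnorm : ‖(1 + (c : ℂ)) ^ M‖ = (1 + c) ^ M := by
      rw [norm_pow]
      congr 1
      have : (1 + (c : ℂ)) = ((1 + c : ℝ) : ℂ) := by push_cast; ring
      rw [this, Complex.norm_real, Real.norm_of_nonneg h1c.le]
    rw [hnorm] at t2
    -- comparison of `1 + c` and the level
    have hlev : ((Nf c : ℝ) + 1) ^ 2 ≤ κ * (1 + c) := by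
      have hsq : 0 ≤ Real.sqrt c := Real.sqrt_nonneg c
      have hs2 : Real.sqrt c ^ 2 = c := Real.sq_sqrt hc0'
      have hceil : (Nf c : ℝ) < C₀ * (1 + Real.sqrt c) + 1 :=
        Nat.ceil_lt_add_one (by positivity)
      have h6 : (Nf c : ℝ) + 1 ≤ (C₀ + 2) * (1 + Real.sqrt c) := by nlinarith
      have h7 : ((Nf c : ℝ) + 1) ^ 2 ≤ ((C₀ + 2) * (1 + Real.sqrt c)) ^ 2 :=
        pow_le_pow_left₀ hNpos.le h6 2
      have h8 : (1 + Real.sqrt c) ^ 2 ≤ 2 * (1 + c) := by nlinarith [sq_nonneg (1 - Real.sqrt c)]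
      calc ((Nf c : ℝ) + 1) ^ 2 ≤ (C₀ + 2) ^ 2 * (1 + Real.sqrt c) ^ 2 := by rw [← mul_pow]; exact h7
        _ ≤ (C₀ + 2) ^ 2 * (2 * (1 + c)) := mul_le_mul_of_nonneg_left h8 (by positivity)
        _ = κ * (1 + c) := by rw [hκ]; ring
    have hlevM : ((Nf c : ℝ) + 1) ^ (2 * M) ≤ κ ^ M * (1 + c) ^ M := by
      rw [pow_mul, ← mul_pow]
      exact pow_le_pow_left₀ (by positivity) hlev M
    have hexp : ((Nf c : ℝ) + 1) ^ (s1 + e) * ((Nf c : ℝ) + 1) ^ (e + 2) ≤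
        κ ^ M * (1 + c) ^ M := by
      rw [← pow_add]
      exact (pow_le_pow_right₀ hN1 (by omega)).trans hlevM
    -- assemble
    have hcM : (0 : ℝ) < (1 + c) ^ M := by positivity
    have hNe : (0 : ℝ) < ((Nf c : ℝ) + 1) ^ (e + 2) := by positivity
    have t3 : ‖Gl₁.ι (f c)‖ ≤ CK * ((Nf c : ℝ) + 1) ^ e * ‖Gl₁.ι u‖ / (1 + c) ^ M := by
      rw [le_div_iff₀ hcM, mul_comm]
      exact t2
    calc ‖Gl₂.ι (f c)‖ ≤ CV * ((Nf c : ℝ) + 1) ^ s1 * ‖Gl₁.ι (f c)‖ := t1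
      _ ≤ CV * ((Nf c : ℝ) + 1) ^ s1 * (CK * ((Nf c : ℝ) + 1) ^ e * ‖Gl₁.ι u‖ / (1 + c) ^ M) :=
          mul_le_mul_of_nonneg_left t3 (by positivity)
      _ = CV * CK * ‖Gl₁.ι u‖ * ((((Nf c : ℝ) + 1) ^ (s1 + e)) / (1 + c) ^ M) := by
          rw [pow_add]; ring
      _ ≤ CV * CK * ‖Gl₁.ι u‖ * (κ ^ M * (1 / ((Nf c : ℝ) + 1) ^ (e + 2))) := by
          refine mul_le_mul_of_nonneg_left ?_ (by positivity)
          rw [div_le_iff₀ hcM, mul_one_div, div_mul_eq_mul_div, le_div_iff₀ hNe]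
          exact hexp
      _ = CV * CK * κ ^ M * ‖Gl₁.ι u‖ * (1 / ((Nf c : ℝ) + 1) ^ (e + 2)) := by ring
  -- the number of eigenvalues of a given level
  have hcount : ∀ N : ℕ, ((f.support.filter (fun c => Nf c = N)).card : ℝ) ≤ (N + 1 : ℝ) ^ e := by
    intro N
    refine h5 G R P s B V Mo hT N _ ?_
    intro c hc
    rw [Finset.mem_filter] at hc
    refine ⟨f c, ?_, Finsupp.mem_support_iff.1 hc.1, hf c⟩
    have := hfU c
    rwa [hc.2] at this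
  have hS2 := qCore_sum f.support Nf e hcount
  calc ‖Gl₂.ι v‖ = ‖∑ c ∈ f.support, Gl₂.ι (f c)‖ := by rw [hfv, Finsupp.sum, map_sum]
    _ ≤ ∑ c ∈ f.support, ‖Gl₂.ι (f c)‖ := norm_sum_le _ _
    _ ≤ ∑ c ∈ f.support, CV * CK * κ ^ M * ‖Gl₁.ι u‖ * (1 / ((Nf c : ℝ) + 1) ^ (e + 2)) :=
        Finset.sum_le_sum hterm
    _ = CV * CK * κ ^ M * ‖Gl₁.ι u‖ * ∑ c ∈ f.support, (1 / ((Nf c : ℝ) + 1) ^ (e + 2)) := by
        rw [Finset.mul_sum]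
    _ ≤ CV * CK * κ ^ M * ‖Gl₁.ι u‖ * S := mul_le_mul_of_nonneg_left hS2 (by positivity)
    _ = CV * CK * κ ^ M * S * ‖Gl₁.ι u‖ := by ring

end Pool.Agent.H913.SG
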