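import Pool.Agent.H913.SG.Stmts2

/-! Preliminaries for the recursion. -/

open MeasureTheory Matrix NormedSpace
open scoped SchwartzMap ContDiff FourierTransform Matrix

universe u v

namespace Pool.Agent.H913.SG

variable {G : Type} [Group G] [TopologicalSpace G] {R : RealReductive G}

/-- a weight is bounded on compact sets -/
theorem rec_weight_bdd {w : G → ℝ} (hw : IsWeight w) {S : Set G} (hS : IsCompact S) :
    ∃ C : ℝ, ∀ g ∈ S, w g ≤ C := by
  refine hS.induction_on (p := fun S => ∃ C : ℝ, ∀ g ∈ S, w g ≤ C) ?_ ?_ ?_ ?_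
  · exact ⟨0, by simp⟩
  · rintro S T hST ⟨C, hC⟩
    exact ⟨C, fun g hg => hC g (hST hg)⟩
  · rintro S T ⟨C, hC⟩ ⟨D, hD⟩
    refine ⟨max C D, ?_⟩
    rintro g (hg | hg)
    · exact (hC g hg).trans (le_max_left _ _)
    · exact (hD g hg).trans (le_max_right _ _)
  · intro x _
    obtain ⟨U, hU, C, hC⟩ := hw.locally_bounded x
    exact ⟨U, mem_nhdsWithin_of_mem_nhds hU, C, hC⟩

theorem rec_CK (P : Pack R) {w : G → ℝ} (hw : IsWeight w) :
    ∃ CK : ℝ, 1 ≤ CK ∧ ∀ k : R.K, w k.1 ≤ CK := by
  have := P.compactK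
  obtain ⟨C, hC⟩ := rec_weight_bdd hw (isCompact_range (continuous_subtype_val (p := fun g => g ∈ R.K)))
  exact ⟨max 1 C, le_max_left _ _, fun k => (hC k.1 ⟨k, rfl⟩).trans (le_max_right _ _)⟩

section Int

variable {d : ℕ} {Ch : Chart d} {V : Type u} [AddCommGroup V] [Module ℂ V]
  {E : Type v} [NormedAddCommGroup E] [NormedSpace ℂ E]

theorem rec_chi_test (Ch : Chart d) : IsTest Ch Ch.χ := ⟨Ch.χ_smooth, Ch.χ_supp⟩

theorem rec_integrable (L : LocalRep Ch V E) {f : EE d → ℝ} (hf : IsTest Ch f) (A : 𝓢(EE d, ℂ))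
    {h : ℝ} (hh : 0 < h) (v : V) :
    Integrable (fun x => ((f (h • x) : ℂ) * A x) • L.orb v (h • x)) := by
  have hsm : Continuous fun x : EE d => h • x := continuous_const_smul h
  apply Continuous.integrable_of_hasCompactSupport
  · exact ((Complex.continuous_ofReal.comp (hf.smooth.continuous.comp hsm)).mul
      A.continuous).smul ((L.cont v).comp hsm)
  · have h1 : HasCompactSupport f :=
      HasCompactSupport.of_support_subset_isCompact (isCompact_closedBall (0 : EE d) Ch.r)
        (fun x hx => Metric.ball_subset_closedBall (hf.supp (subset_tsupport f hx)))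
    have h2 : HasCompactSupport (fun x : EE d => f (h • x)) :=
      h1.comp_homeomorph (Homeomorph.smulOfNeZero h hh.ne')
    refine h2.mono' ?_
    intro x hx
    apply subset_tsupport
    intro h0
    apply hx
    simp only [h0]
    simp

theorem rec_map_I {E' : Type v} [NormedAddCommGroup E'] [NormedSpace ℂ E'] [CompleteSpace E]
    [CompleteSpace E']
    (L : LocalRep Ch V E) (L' : LocalRep Ch V E') (T : E →L[ℂ] E')
    (hT : ∀ v y, T (L.orb v y) = L'.orb v y) {f : EE d → ℝ} (hf : IsTest Ch f) (A : 𝓢(EE d, ℂ))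
    {h : ℝ} (hh : 0 < h) (v : V) : T (L.I f A h v) = L'.I f A h v := by
  unfold LocalRep.I
  rw [← ContinuousLinearMap.integral_comp_comm T (rec_integrable L hf A hh v)]
  congr 1
  ext x
  rw [map_smul, hT]

theorem rec_Op_zero (h3 : S_op_basic.{u,v}) [CompleteSpace E] (L : LocalRep Ch V E) {h : ℝ}
    (hh : 0 < h) (v : V) : L.Op h 0 v = 0 := by
  have := (h3 d Ch V E L).2.1 0 0 0 h hh (fun ξ => by simp) v
  simpa using this

theorem rec_Op_sum (h3 : S_op_basic.{u,v}) [CompleteSpace E] (L : LocalRep Ch V E) {h : ℝ}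
    (hh : 0 < h) (v : V) {ι : Type} (s : Finset ι) (a : ι → 𝓢(EE d, ℂ)) :
    L.Op h (∑ i ∈ s, a i) v = ∑ i ∈ s, L.Op h (a i) v := by
  classical
  induction s using Finset.induction_on with
  | empty => simpa using rec_Op_zero h3 L hh v
  | insert i s hi ih =>
    rw [Finset.sum_insert hi, Finset.sum_insert hi, ← ih]
    exact (h3 d Ch V E L).2.1 _ _ _ h hh (fun ξ => by simp) v

end Int

section Glob

variable {V : Type u} [AddCommGroup V] [Module ℂ V] {Mo : HCModule R V} {w : G → ℝ}
  {E : Type v} [NormedAddCommGroup E] [NormedSpace ℂ E]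

/-- closed invariant subspace: the closure of `V` -/
def Glob.clo (Gl : Glob Mo w E) : Submodule ℂ E := (LinearMap.range Gl.ι).topologicalClosure

theorem Glob.mem_clo (Gl : Glob Mo w E) (x : E) : x ∈ Gl.clo ↔ x ∈ closure (Set.range Gl.ι) := by
  rw [Glob.clo, ← SetLike.mem_coe, Submodule.topologicalClosure_coe, LinearMap.coe_range]

theorem Glob.isClosed_clo (Gl : Glob Mo w E) : IsClosed (Gl.clo : Set E) :=
  Submodule.isClosed_topologicalClosure _

theorem Glob.ι_mem_clo (Gl : Glob Mo w E) (v : V) : Gl.ι v ∈ Gl.clo :=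
  (Gl.mem_clo _).2 (subset_closure ⟨v, rfl⟩)

theorem Glob.K_clo (Gl : Glob Mo w E) (k : R.K) {x : E} (hx : x ∈ Gl.clo) :
    Gl.π k.1 x ∈ Gl.clo := by
  rw [Gl.mem_clo] at hx ⊢
  refine map_mem_closure (Gl.π k.1).continuous hx ?_
  rintro _ ⟨v, rfl⟩
  exact ⟨Mo.kact k v, (Gl.kcomp k v).symm⟩

/-- an integral of elements of a closed subspace lies in the subspace -/
theorem rec_integral_mem {X : Type*} [MeasurableSpace X] {μ : Measure X} [CompleteSpace E]
    (S : Submodule ℂ E) (hS : IsClosed (S : Set E)) {φ : X → E} (hφ : ∀ x, φ x ∈ S) :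
    ∫ x, φ x ∂μ ∈ S := by
  by_cases hi : Integrable φ μ
  · haveI : IsClosed (S : Set E) := hS
    have h1 : S.mkQL (∫ x, φ x ∂μ) = 0 := by
      rw [← ContinuousLinearMap.integral_comp_comm _ hi]
      have : (fun x => S.mkQL (φ x)) = fun _ => 0 := by
        ext x
        simpa using hφ x
      rw [this, integral_zero]
    simpa using h1
  · rw [integral_undef hi]
    exact S.zero_mem

end Glob

end Pool.Agent.H913.SG
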