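import Pool.Agent.H913.SG.Rec1

/-! Consequences of the calculus on the spaces `U N`. -/

open MeasureTheory Matrix NormedSpace
open scoped SchwartzMap ContDiff FourierTransform Matrix

universe u v

namespace Pool.Agent.H913.SG

variable {G : Type} [Group G] [TopologicalSpace G]

theorem casimir (h1 : S_cas_sym.{u}) (h2 : S_cas_comm.{u}) (h3 : S_ann.{u}) : S_casimir.{u} := by
  intro G _ _ _ _ R P V _ _ Mo
  choose Q hQ hQ' using fun j => h3 G R V Mo (casZ P Mo j) (h2 G R P V Mo j).1 (h2 G R P V Mo j).2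
  exact ⟨fun j => casZ P Mo j, Q, fun j => ⟨h1 G R P V Mo j, hQ j, hQ' j⟩⟩

section Pk

variable {R : RealReductive G} (P : Pack R)

theorem rec_e_sq (i : Fin P.d) : P.e i * P.e i = 1 := by
  rcases P.e_cases i with h | h <;> rw [h] <;> norm_num

theorem rec_X_eq (i : Fin P.d) : (P.X i).1 = P.e i • (P.X i).1ᵀ := by
  rw [P.X_transpose i, smul_smul, rec_e_sq, one_smul]

theorem rec_trXX (i j : Fin P.d) : ((P.X i).1 * (P.X j).1).trace = if i = j then P.e i else 0 := by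
  conv_lhs => rw [rec_X_eq P i]
  rw [Matrix.smul_mul, Matrix.trace_smul, P.X_orth i j]
  split_ifs <;> simp

theorem rec_Xi_val (ξ : EE P.d) : (P.Xi ξ).1 = ∑ i, (P.e i * ξ i) • (P.X i).1 := by
  simp [Pack.Xi]

theorem rec_Xi_sq (ξ : EE P.d) : ((P.Xi ξ).1 ^ 2).trace = ∑ i, P.e i * (ξ i) ^ 2 := by
  rw [rec_Xi_val, pow_two, Finset.sum_mul, Matrix.trace_sum]
  refine Finset.sum_congr rfl fun i _ => ?_
  rw [Finset.mul_sum, Matrix.trace_sum]
  rw [Finset.sum_eq_single i]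
  · rw [Matrix.smul_mul, Matrix.mul_smul, Matrix.trace_smul, Matrix.trace_smul, rec_trXX, if_pos rfl]
    simp only [smul_eq_mul]
    linear_combination (ξ i ^ 2 * P.e i) * rec_e_sq P i
  · intro j _ hj
    rw [Matrix.smul_mul, Matrix.mul_smul, Matrix.trace_smul, Matrix.trace_smul, rec_trXX,
      if_neg (Ne.symm hj)]
    simp
  · simp

theorem rec_isSkew (i : Fin P.d) (h : P.e i = -1) : R.IsSkew (P.X i) := by
  unfold RealReductive.IsSkew
  rw [P.X_transpose i, h]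
  simp

theorem rec_tr_eq {n : ℕ} (A B : M n) : (Aᵀ * B).trace = ∑ i, ∑ j, A i j * B i j := by
  simp only [Matrix.trace, Matrix.diag, Matrix.mul_apply, Matrix.transpose_apply]
  rw [Finset.sum_comm]

theorem rec_fro_sq {n : ℕ} (A : M n) : (fro A) ^ 2 = (Aᵀ * A).trace := by
  rw [rec_tr_eq, fro, Real.sq_sqrt]
  · simp [pow_two]
  · positivity

theorem rec_fro_nonneg {n : ℕ} (A : M n) : 0 ≤ fro A := Real.sqrt_nonneg _

theorem rec_fro_X (i : Fin P.d) : fro (P.X i).1 = 1 := by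
  have h : (fro (P.X i).1) ^ 2 = 1 := by rw [rec_fro_sq, P.X_orth, if_pos rfl]
  have h0 := rec_fro_nonneg (P.X i).1
  nlinarith

theorem rec_tr_le {n : ℕ} (A B : M n) : |(Aᵀ * B).trace| ≤ fro A * fro B := by
  rw [rec_tr_eq]
  have h1 : (∑ i, ∑ j, A i j * B i j) ^ 2 ≤ (fro A) ^ 2 * (fro B) ^ 2 := by
    rw [fro, fro, Real.sq_sqrt (by positivity), Real.sq_sqrt (by positivity)]
    have := Finset.sum_mul_sq_le_sq_mul_sq (Finset.univ : Finset (Fin n × Fin n))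
      (fun x => A x.1 x.2) (fun x => B x.1 x.2)
    simpa only [Fintype.sum_prod_type] using this
  rw [← mul_pow] at h1
  exact abs_le_of_sq_le_sq h1 (mul_nonneg (rec_fro_nonneg _) (rec_fro_nonneg _))

theorem rec_NN_iff (h3 : S_nil) (ξ : EE P.d) :
    ξ ∈ P.NN ↔ ∀ j : ℕ, ((P.Xi ξ).1 ^ (j + 1)).trace = 0 := by
  constructor
  · intro h j
    have h' : IsNilpotent ((P.Xi ξ).1 ^ (j + 1)) := by
      obtain ⟨k, hk⟩ := h
      exact ⟨k, by rw [← pow_mul, mul_comm, pow_mul, hk, zero_pow (Nat.succ_ne_zero j)]⟩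
    exact (Matrix.isNilpotent_trace_of_isNilpotent h').eq_zero
  · intro h
    exact h3 _ _ h

theorem rec_Xi_cont : Continuous fun ξ : EE P.d => (P.Xi ξ).1 := by
  have : (fun ξ : EE P.d => (P.Xi ξ).1) = fun ξ => ∑ i, (P.e i * ξ i) • (P.X i).1 := by
    ext1 ξ; exact rec_Xi_val P ξ
  rw [this]
  fun_prop

theorem rec_NN_closed (h3 : S_nil) : IsClosed P.NN := by
  have : P.NN = ⋂ j : ℕ, {ξ | ((P.Xi ξ).1 ^ (j + 1)).trace = 0} := by
    ext ξ
    rw [rec_NN_iff P h3]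
    simp
  rw [this]
  refine isClosed_iInter fun j => ?_
  apply isClosed_eq _ continuous_const
  exact Continuous.matrix_trace ((rec_Xi_cont P).pow _)

end Pk

section Small

variable [IsTopologicalGroup G] [T2Space G] {R : RealReductive G} (P : Pack R)
  {V : Type u} [AddCommGroup V] [Module ℂ V] (Mo : HCModule R V)
  {E : Type v} [NormedAddCommGroup E] [NormedSpace ℂ E] [CompleteSpace E] {Ch : Chart P.d}

theorem rec_two_pi_I_ne : (2 * (Real.pi : ℂ) * Complex.I) ≠ 0 := by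
  simp [Real.pi_ne_zero]

theorem rec_small (h1 : S_elliptic.{u,v}) (h2 : S_casimir.{u}) (h3 : S_nil)
    (L : LocalRep Ch V E) (hL : ∀ j, L.a j = Mo.act (P.X j)) (b : 𝓢(EE P.d, ℂ))
    (hb : HasCompactSupport b) (hd : Disjoint (tsupport b) P.NN) :
    ∃ C, 0 ≤ C ∧ ∀ h, 0 < h → h ≤ 1 → ∀ v, ‖L.Op h b v‖ ≤ C * h * ‖L.orb v 0‖ := by
  obtain ⟨z, Q, hz⟩ := h2 G R P V Mo
  have hLa : L.a = fun i => Mo.act (P.X i) := by ext1 j; exact hL j
  refine h1 P.d Ch V E L z (fun j => j + 1) _ Q (fun j => Nat.le_add_left 1 j)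
    (fun j => by rw [hLa]; exact (hz j).1) (fun j => (hz j).2.1) (fun j => (hz j).2.2) b hb ?_
  intro ξ hξ
  have hn : ξ ∉ P.NN := Set.disjoint_left.1 hd hξ
  rw [rec_NN_iff P h3] at hn
  push Not at hn
  obtain ⟨j, hj⟩ := hn
  refine ⟨j, mul_ne_zero (pow_ne_zero _ rec_two_pi_I_ne) ?_⟩
  exact_mod_cast hj

/-- approximate identity on `U N` -/
theorem rec_approx [SecondCountableTopology G] (h1 : S_approx.{u,v}) (h2 : S_casimir.{u})
    (h3 : S_bernU.{u,v}) (h4 : S_U.{u}) (s : KRep R) (w : G → ℝ) (hw : IsWeight w)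
    (Ch : Chart P.d) (chi1 : 𝓢(EE P.d, ℂ)) (hchi : IsChi1 chi1) :
    ∃ C1 : ℝ, 0 ≤ C1 ∧ ∀ (V : Type u) [AddCommGroup V] [Module ℂ V] (Mo : HCModule R V)
      (E : Type v) [NormedAddCommGroup E] [NormedSpace ℂ E] [CompleteSpace E] (Gl : Glob Mo w E)
      (L : LocalRep Ch V E), (∀ j, L.a j = Mo.act (P.X j)) → (∀ v, L.orb v 0 = Gl.ι v) →
      ∃ C : ℝ, 0 ≤ C ∧ ∀ h, 0 < h → h ≤ 1 → ∀ (N : ℕ), ∀ v ∈ s.U Mo N,
        ‖Gl.ι v - L.Op h chi1 v‖ ≤ (C1 * L.Cw * (h * N) ^ 2 + C * h) * ‖Gl.ι v‖ := by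
  classical
  obtain ⟨C1, hC1, H⟩ := h1 P.d Ch (fun i => P.e i = -1) chi1 hchi
  obtain ⟨CB, hCB, HB⟩ := h3 G R P s w hw
  refine ⟨C1 * (P.d * CB ^ 2), by positivity, ?_⟩
  intro V _ _ Mo E _ _ _ Gl L hL hLo
  obtain ⟨z, Q, hz⟩ := h2 G R P V Mo
  have hLa : L.a = fun i => Mo.act (P.X i) := by ext1 j; exact hL j
  obtain ⟨C, hC, HC⟩ := H V E L (z 1) _ (Q 1) (by rw [hLa]; exact (hz 1).1) (by
    intro ξ
    congr 1
    refine congrArg Complex.ofReal ?_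
    rw [show (1 + 1 : ℕ) = 2 from rfl, rec_Xi_sq, ← Finset.sum_sub_distrib]
    refine Finset.sum_congr rfl fun i _ => ?_
    rcases P.e_cases i with h | h
    · rw [if_neg (by rw [h]; norm_num), if_neg (by rw [h]; norm_num), h]; ring
    · rw [if_pos h, if_pos h, h]; ring) (hz 1).2.1 (hz 1).2.2
  refine ⟨C, hC, ?_⟩
  intro h hh hh1 N v hv
  have hU := h4 G R P s V Mo
  have key := HC h hh hh1 v
  rw [hLo] at key
  have hterm : ∀ i, (if P.e i = -1 then h ^ 2 * ‖L.orb (L.a i (L.a i v)) 0‖ else 0) ≤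
      CB ^ 2 * (h * N) ^ 2 * ‖Gl.ι v‖ := by
    intro i
    split_ifs with hi
    · have hsk := rec_isSkew P i hi
      rw [hLo, hL]
      have hv1 : Mo.act (P.X i) v ∈ s.U Mo N := hU.2.2.2 N _ hsk v hv
      have e1 := HB V Mo E Gl N _ hv1 _ hsk
      have e2 := HB V Mo E Gl N _ hv _ hsk
      rw [rec_fro_X, mul_one] at e1 e2
      have hCN : 0 ≤ CB * N := by positivity
      calc h ^ 2 * ‖Gl.ι (Mo.act (P.X i) (Mo.act (P.X i) v))‖
          ≤ h ^ 2 * (CB * N * (CB * N * ‖Gl.ι v‖)) := by gcongr; exact e1.trans (by gcongr)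
        _ = CB ^ 2 * (h * N) ^ 2 * ‖Gl.ι v‖ := by ring
    · positivity
  calc ‖Gl.ι v - L.Op h chi1 v‖ ≤ _ := key
    _ ≤ C1 * L.Cw * (∑ i : Fin P.d, CB ^ 2 * (h * N) ^ 2 * ‖Gl.ι v‖) + C * h * ‖Gl.ι v‖ := by
        have := L.Cw_nonneg
        gcongr with i _
        exact hterm i
    _ = _ := by
        rw [Finset.sum_const, Finset.card_univ, Fintype.card_fin, nsmul_eq_mul]
        ring

end Small

end Pool.Agent.H913.SG
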