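import Pool.Agent.H913.SG.Rec2

/-! Bernstein's inequality for the whole Lie algebra, invariance of the closure. -/

open MeasureTheory Matrix NormedSpace
open scoped SchwartzMap ContDiff FourierTransform Matrix

universe u v

namespace Pool.Agent.H913.SG

variable {G : Type} [Group G] [TopologicalSpace G] {R : RealReductive G}

section Alg

variable {V : Type u} [AddCommGroup V] [Module ℂ V] (Mo : HCModule R V)

theorem rec_act_zero : Mo.act 0 = 0 := by
  have := Mo.act_smul 0 0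
  simpa using this

theorem rec_act_sum {ι : Type} (s : Finset ι) (c : ι → ℝ) (X : ι → R.lie) :
    Mo.act (∑ i ∈ s, c i • X i) = ∑ i ∈ s, (c i : ℂ) • Mo.act (X i) := by
  classical
  induction s using Finset.induction_on with
  | empty => simpa using rec_act_zero Mo
  | insert i s hi ih => rw [Finset.sum_insert hi, Finset.sum_insert hi, Mo.act_add, Mo.act_smul, ih]

end Alg

theorem rec_gam_zero (P : Pack R) (X : R.lie) : P.gam X 0 = 1 := by
  have h := (P.gam_spec X).2.1 0 0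
  rw [add_zero] at h
  exact (mul_eq_left.1 h.symm)

theorem rec_Pi_zero (P : Pack R) : P.Pi 0 = 1 := by
  unfold Pack.Pi
  have : (fun i : Fin P.d => P.gam (P.X i) ((0 : EE P.d) i)) = fun _ => 1 := by
    ext1 i
    exact rec_gam_zero P _
  rw [this]
  simp

theorem rec_gbern [IsTopologicalGroup G] [T2Space G] [SecondCountableTopology G]
    (hA : S_approx.{u,v}) (hcas : S_casimir.{u})
    (hB : S_bernU.{u,v}) (hU : S_U.{u}) (hchart : S_chart.{u,v}) (hop : S_op_basic.{u,v})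
    (hword : S_op_word.{u,v}) (hlin : S_mul_lin) (hc1 : S_chi1) (P : Pack R) (s : KRep R)
    (w : G → ℝ) (hw : IsWeight w) {V : Type u} [AddCommGroup V] [Module ℂ V] (Mo : HCModule R V)
    {E : Type v} [NormedAddCommGroup E] [NormedSpace ℂ E] [CompleteSpace E] (Gl : Glob Mo w E) :
    ∃ (C : ℝ) (N₀ : ℕ), 0 ≤ C ∧ ∀ N, N₀ ≤ N → ∀ v ∈ s.U Mo N, ∀ X : R.lie,
      ‖Gl.ι (Mo.act X v)‖ ≤ C * N * fro X.1 * ‖Gl.ι v‖ := by
  obtain ⟨Ch, q, -, -, -, HCh⟩ := hchart G R P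
  obtain ⟨Cw, hCw, HL⟩ := HCh w hw
  obtain ⟨chi1, hchi⟩ := hc1 P.d
  obtain ⟨C1, hC1, HA⟩ := rec_approx P hA hcas hB hU s w hw Ch chi1 hchi
  obtain ⟨L, hLCw, hLa, hLo⟩ := HL V Mo E Gl
  have hLo0 : ∀ v, L.orb v 0 = Gl.ι v := by
    intro v
    rw [hLo, rec_Pi_zero, map_one]
    rfl
  obtain ⟨C, hC, HC⟩ := HA V Mo E Gl L hLa hLo0
  rw [hLCw] at HC
  have hop' := hop P.d Ch V E L
  -- constants for the words of length one
  have hw1 : ∀ i : Fin P.d, ∃ D : ℝ, 0 ≤ D ∧ ∀ h, 0 < h → h ≤ 1 → ∀ v,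
      ‖L.Op h chi1 (Mo.act (P.X i) v)‖ ≤ h⁻¹ * D * ‖Gl.ι v‖ := by
    intro i
    obtain ⟨c, hc⟩ := hlin P.d chi1 1 (fun _ => ei i)
    obtain ⟨D, hD, HD⟩ := hword P.d Ch V E L [i] chi1 ((2 * (Real.pi : ℂ) * Complex.I) • c) (by
      intro ξ
      rw [_root_.smul_apply, hc]
      simp [EuclideanSpace.inner_single_right]
      ring)
    refine ⟨D + Cw * Wn ((2 * (Real.pi : ℂ) * Complex.I) • c), ?_, ?_⟩
    · have : 0 ≤ Wn ((2 * (Real.pi : ℂ) * Complex.I) • c) :=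
        integral_nonneg fun x => norm_nonneg _
      positivity
    · intro h hh hh1 v
      have e1 := HD h hh hh1 v
      have e2 := hop'.1 ((2 * (Real.pi : ℂ) * Complex.I) • c) h hh v
      rw [hLo0, hLCw] at e2
      rw [hLo0] at e1
      have e3 : L.Op h chi1 (((h : ℂ) ^ [i].length) • ([i].map L.a).prod v) =
          (h : ℂ) • L.Op h chi1 (Mo.act (P.X i) v) := by
        have := hop'.2.2.1 chi1 h hh (h : ℂ) (Mo.act (P.X i) v) 0
        have h0 : L.Op h chi1 0 = 0 := by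
          have := hop'.2.2.1 chi1 h hh 1 0 0
          simpa using this
        rw [h0, add_zero, add_zero] at this
        simpa [hLa] using this
      rw [e3] at e1
      have e4 : ‖(h : ℂ) • L.Op h chi1 (Mo.act (P.X i) v)‖ ≤
          (D + Cw * Wn ((2 * (Real.pi : ℂ) * Complex.I) • c)) * ‖Gl.ι v‖ := by
        calc ‖(h : ℂ) • L.Op h chi1 (Mo.act (P.X i) v)‖
            ≤ ‖(h : ℂ) • L.Op h chi1 (Mo.act (P.X i) v) -
                L.Op h ((2 * (Real.pi : ℂ) * Complex.I) • c) v‖ +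
                ‖L.Op h ((2 * (Real.pi : ℂ) * Complex.I) • c) v‖ := by
              simpa using norm_add_le ((h : ℂ) • L.Op h chi1 (Mo.act (P.X i) v) -
                L.Op h ((2 * (Real.pi : ℂ) * Complex.I) • c) v)
                (L.Op h ((2 * (Real.pi : ℂ) * Complex.I) • c) v)
          _ ≤ D * h * ‖Gl.ι v‖ + Cw * Wn ((2 * (Real.pi : ℂ) * Complex.I) • c) * ‖Gl.ι v‖ :=
              add_le_add e1 e2
          _ ≤ D * 1 * ‖Gl.ι v‖ + Cw * Wn ((2 * (Real.pi : ℂ) * Complex.I) • c) * ‖Gl.ι v‖ := by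
              gcongr
          _ = _ := by ring
      rw [norm_smul, Complex.norm_real, Real.norm_of_nonneg hh.le] at e4
      rw [mul_assoc, ← div_eq_inv_mul, le_div_iff₀ hh, mul_comm]
      exact e4
  choose D hD HD using hw1
  -- choice of ε
  set a : ℝ := C1 * Cw with ha
  have ha0 : 0 ≤ a := by positivity
  obtain ⟨ε, hε, hε1, hεa⟩ : ∃ ε : ℝ, 0 < ε ∧ ε ≤ 1 ∧ a * ε ^ 2 ≤ 1 / 4 := by
    refine ⟨1 / (4 * (a + 1)), by positivity, ?_, ?_⟩
    · rw [div_le_one (by positivity)]; linarith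
    · rw [div_pow, one_pow, mul_one_div, div_le_div_iff₀ (by positivity) (by norm_num)]
      nlinarith [sq_nonneg a]
  obtain ⟨N₁, hN₁⟩ := exists_nat_ge (4 * C)
  refine ⟨6 / ε * ∑ i, D i, max N₁ 1, by
    have : 0 ≤ ∑ i, D i := Finset.sum_nonneg fun i _ => hD i
    positivity, ?_⟩
  intro N hN v hv X
  have hN1 : (1 : ℝ) ≤ N := by exact_mod_cast (le_max_right _ _).trans hN
  have hNC : 4 * C ≤ N := hN₁.trans (by exact_mod_cast (le_max_left _ _).trans hN)
  have hUU := hU G R P s V Mo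
  -- bound for basis elements
  have hi : ∀ i, ‖Gl.ι (Mo.act (P.X i) v)‖ ≤ 6 / ε * D i * N * ‖Gl.ι v‖ := by
    intro i
    have hv' : Mo.act (P.X i) v ∈ s.U Mo (N + 2) := hUU.2.2.1 N _ v hv
    set h : ℝ := ε / (N + 2) with hhdef
    have hN2 : (0 : ℝ) < (N : ℝ) + 2 := by positivity
    have hh : 0 < h := by positivity
    have hh1 : h ≤ 1 := by
      rw [hhdef, div_le_one hN2]; linarith
    have e1 := HC h hh hh1 (N + 2) _ hv'
    have e2 := HD i h hh hh1 v
    have e3 : C1 * Cw * (h * ((N + 2 : ℕ) : ℝ)) ^ 2 + C * h ≤ 1 / 2 := by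
      have : h * ((N + 2 : ℕ) : ℝ) = ε := by
        rw [hhdef]; push_cast; field_simp
      rw [this]
      have h2 : C * h ≤ 1 / 4 := by
        rw [hhdef, mul_div_assoc', div_le_iff₀ hN2]
        nlinarith
      linarith
    have e4 : ‖Gl.ι (Mo.act (P.X i) v)‖ ≤
        1 / 2 * ‖Gl.ι (Mo.act (P.X i) v)‖ + h⁻¹ * D i * ‖Gl.ι v‖ := by
      calc ‖Gl.ι (Mo.act (P.X i) v)‖ ≤ ‖Gl.ι (Mo.act (P.X i) v) - L.Op h chi1 (Mo.act (P.X i) v)‖ +
            ‖L.Op h chi1 (Mo.act (P.X i) v)‖ := by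
            simpa using norm_add_le (Gl.ι (Mo.act (P.X i) v) - L.Op h chi1 (Mo.act (P.X i) v))
              (L.Op h chi1 (Mo.act (P.X i) v))
        _ ≤ _ := by
            gcongr
            exact e1.trans (by gcongr)
    have e5 : ‖Gl.ι (Mo.act (P.X i) v)‖ ≤ 2 * (h⁻¹ * D i * ‖Gl.ι v‖) := by linarith
    refine e5.trans ?_
    have e6 : h⁻¹ ≤ 3 / ε * N := by
      rw [hhdef, inv_div, div_mul_eq_mul_div, div_le_div_iff_of_pos_right hε]
      linarith
    calc 2 * (h⁻¹ * D i * ‖Gl.ι v‖) ≤ 2 * ((3 / ε * N) * D i * ‖Gl.ι v‖) := by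
          have := hD i
          gcongr
      _ = _ := by ring
  -- general X
  have hX : Mo.act X v = ∑ i, (((P.X i).1ᵀ * X.1).trace : ℂ) • Mo.act (P.X i) v := by
    conv_lhs => rw [P.X_spans X]
    rw [rec_act_sum]
    simp [LinearMap.sum_apply]
  rw [hX, map_sum]
  calc ‖∑ i, Gl.ι ((((P.X i).1ᵀ * X.1).trace : ℂ) • Mo.act (P.X i) v)‖
      ≤ ∑ i, ‖Gl.ι ((((P.X i).1ᵀ * X.1).trace : ℂ) • Mo.act (P.X i) v)‖ := norm_sum_le _ _
    _ ≤ ∑ i, fro X.1 * (6 / ε * D i * N * ‖Gl.ι v‖) := by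
        refine Finset.sum_le_sum fun i _ => ?_
        rw [map_smul, norm_smul, Complex.norm_real, Real.norm_eq_abs]
        have h1 : |((P.X i).1ᵀ * X.1).trace| ≤ fro X.1 := by
          have := rec_tr_le (P.X i).1 X.1
          rwa [rec_fro_X, one_mul] at this
        exact mul_le_mul h1 (hi i) (norm_nonneg _) (rec_fro_nonneg _)
    _ = _ := by
        rw [← Finset.mul_sum, ← Finset.sum_mul, ← Finset.sum_mul, ← Finset.mul_sum]
        ring

theorem rec_closure [IsTopologicalGroup G] [T2Space G] [SecondCountableTopology G]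
    (hA : S_approx.{u,v}) (hcas : S_casimir.{u})
    (hB : S_bernU.{u,v}) (hU : S_U.{u}) (hchart : S_chart.{u,v}) (hop : S_op_basic.{u,v})
    (hword : S_op_word.{u,v}) (hlin : S_mul_lin) (hc1 : S_chi1) (hclos : S_clos.{u,v})
    (hfin : S_Ufin.{u}) (P : Pack R) (s : KRep R)
    (w : G → ℝ) (hw : IsWeight w) {V : Type u} [AddCommGroup V] [Module ℂ V] (Mo : HCModule R V)
    (hT : s.Triv Mo)
    {E : Type v} [NormedAddCommGroup E] [NormedSpace ℂ E] [CompleteSpace E] (Gl : Glob Mo w E) :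
    ∀ g ∈ P.Gp, ∀ x ∈ Gl.clo, Gl.π g x ∈ Gl.clo := by
  obtain ⟨C, N₀, hC, H⟩ := rec_gbern hA hcas hB hU hchart hop hword hlin hc1 P s w hw Mo Gl
  have hUU := hU G R P s V Mo
  have := hclos G R P s w hw V Mo hUU.2.2.1 (hfin G R P s V Mo hT).2 hUU.1 E Gl C N₀ hC H
  intro g hg x hx
  rw [Gl.mem_clo] at hx ⊢
  exact this g hg x hx

end Pool.Agent.H913.SG
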