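import Pool.Agent.H913.SG.Rec3

/-! Product of globalizations, the estimate for one piece of the partition. -/

open MeasureTheory Matrix NormedSpace
open scoped SchwartzMap ContDiff FourierTransform Matrix

universe u v

namespace Pool.Agent.H913.SG

variable {G : Type} [Group G] [TopologicalSpace G] {R : RealReductive G}

section Prod

variable {V : Type u} [AddCommGroup V] [Module ℂ V] {Mo : HCModule R V} {w : G → ℝ}
  {E₁ E₂ : Type v} [NormedAddCommGroup E₁] [NormedSpace ℂ E₁] [NormedAddCommGroup E₂]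
  [NormedSpace ℂ E₂]

/-- product of two globalizations -/
noncomputable def Glob.prod (Gl₁ : Glob Mo w E₁) (Gl₂ : Glob Mo w E₂) : Glob Mo w (E₁ × E₂) where
  ι := Gl₁.ι.prod Gl₂.ι
  π :=
    { toFun := fun g => (Gl₁.π g).prodMap (Gl₂.π g)
      map_one' := by
        ext x <;> simp
      map_mul' := by
        intro g h
        ext x <;> simp }
  inj := fun a b h => Gl₁.inj (congrArg Prod.fst h)
  cont := fun x => (Gl₁.cont x.1).prodMk (Gl₂.cont x.2)
  kcomp := fun k v => Prod.ext (Gl₁.kcomp k v) (Gl₂.kcomp k v)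
  deriv := fun X γ hγ v => (Gl₁.deriv X γ hγ v).prodMk (Gl₂.deriv X γ hγ v)
  bound := by
    intro g
    have h0 : 0 ≤ w g := (norm_nonneg _).trans (Gl₁.bound g)
    refine ContinuousLinearMap.opNorm_le_bound _ h0 fun x => ?_
    refine (max_le ?_ ?_ : max ‖Gl₁.π g x.1‖ ‖Gl₂.π g x.2‖ ≤ _)
    · refine ((Gl₁.π g).le_of_opNorm_le (Gl₁.bound g) _).trans ?_
      exact mul_le_mul_of_nonneg_left (norm_fst_le x) h0
    · refine ((Gl₂.π g).le_of_opNorm_le (Gl₂.bound g) _).trans ?_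
      exact mul_le_mul_of_nonneg_left (norm_snd_le x) h0

theorem Glob.prod_ι (Gl₁ : Glob Mo w E₁) (Gl₂ : Glob Mo w E₂) (v : V) :
    (Gl₁.prod Gl₂).ι v = (Gl₁.ι v, Gl₂.ι v) := rfl

theorem Glob.prod_π (Gl₁ : Glob Mo w E₁) (Gl₂ : Glob Mo w E₂) (g : G) (x : E₁ × E₂) :
    (Gl₁.prod Gl₂).π g x = (Gl₁.π g x.1, Gl₂.π g x.2) := rfl

end Prod

theorem rec_fro_cont {n : ℕ} : Continuous (fun A : M n => fro A) := by
  unfold fro
  fun_prop

theorem rec_dist_cont (s : KRep R) : Continuous s.dist := by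
  have h : Continuous fun k => s.σ k - 1 := s.cont.sub continuous_const
  exact rec_fro_cont.comp h

theorem rec_dist_nonneg (s : KRep R) (k : R.K) : 0 ≤ s.dist k := rec_fro_nonneg _

section PerJ

variable [IsTopologicalGroup G] [T2Space G] [SecondCountableTopology G]
  {V : Type u} [AddCommGroup V] [Module ℂ V] {Mo : HCModule R V} {w : G → ℝ}
  {E : Type v} [NormedAddCommGroup E] [NormedSpace ℂ E] [CompleteSpace E]

theorem rec_triv_dense (s : KRep R) (hT : s.Triv Mo) (Gl : Glob Mo w E) (hd : DenseRange Gl.ι)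
    (f : R.K) (hf : s.σ f = 1) : Gl.π f.1 = 1 := by
  ext x
  have : (fun y => Gl.π f.1 y) = fun y => y := by
    refine hd.equalizer (Gl.π f.1).continuous continuous_id ?_
    ext v
    simp only [Function.comp]
    rw [Gl.kcomp, hT f hf]
    rfl
  exact congrFun this x

theorem rec_perJ (hleft : S_left.{u,v}) (P : Pack R) (s : KRep R)
    (hT : s.Triv Mo) (Ch : Chart P.d) (q : Fin P.d → Fin P.d → EE P.d → ℝ)
    (hq1 : ∀ l j, ContDiff ℝ ∞ (q l j)) (hq2 : ∀ l j, q l j 0 = if l = j then 1 else 0)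
    (hq3 : ∀ l y, R.Ad (P.Pi y)⁻¹ (P.X l) = ∑ j, q l j y • P.X j)
    (Gl : Glob Mo w E) (hd : DenseRange Gl.ι) (L : LocalRep Ch V E)
    (hLa : ∀ j, L.a j = Mo.act (P.X j)) (hLo : ∀ v y, L.orb v y = Gl.π (P.Pi y) (Gl.ι v))
    (CK : ℝ) (hCK : ∀ k : R.K, w k.1 ≤ CK) (g₀ : G) (a : 𝓢(EE P.d, ℂ)) (m : ℕ) (D θ : ℝ)
    (hθ : 0 < θ) (hD : 0 ≤ D)
    (hL1 : ∀ s ≤ m, ∀ Xs : List R.lie, Xs.length = s → (∀ X ∈ Xs, R.IsSkew X ∧ fro X.1 ≤ 1) →
      L1 (Xs.foldr (fun X B => pdir (P.co (R.Ad g₀⁻¹ X)) B) (𝓕 a)) ≤ D * θ ^ s)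
    (r₀ Cn : ℝ) (hr₀ : 0 < r₀) (hCn : 0 ≤ Cn)
    (hN : ∀ k : R.K, s.dist k < r₀ → ∃ f : R.K, s.σ f = 1 ∧
      ∃ X : R.lie, R.IsSkew X ∧ k.1 = f.1 * P.gam X 1 ∧ fro X.1 ≤ Cn * s.dist k)
    [MeasurableSpace R.K] [BorelSpace R.K] (μ : Measure R.K) :
    ∃ h₀ > 0, ∀ h, 0 < h → h < h₀ → ∀ v, ∀ (f : R.K → ℝ) (Aop : E →L[ℂ] E),
      (∀ (α : R.K → ℝ), Continuous α → (∀ k, 0 ≤ α k) → ∀ (m : ℕ) (u : E) (D : ℝ),
        (∀ ks : List R.K, ks.length ≤ m →
          ‖(ks.map (fun k => 1 - Gl.π k.1)).prod u‖ ≤ D * (ks.map α).prod) →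
        ‖(Aop ^ m) u‖ ≤ D * (∫ k, f k * α k ∂μ) ^ m) →
      ‖(Aop ^ m) (Gl.π g₀ (L.Op h a v))‖ ≤
        (CK * w g₀ * L.Cw * (D + 1)) * ‖Gl.ι v‖ *
          ((Cn * θ / h + 2 / r₀) * ∫ k, f k * s.dist k ∂μ) ^ m := by
  obtain ⟨h₀, hh₀, H⟩ := hleft G R P Ch q hq1 hq2 hq3 w V Mo E Gl L hLa hLo CK hCK g₀ (𝓕 a) m D θ
    hθ hD hL1
  refine ⟨h₀, hh₀, ?_⟩
  intro h hh hhh v f Aop hA
  have hc0 : 0 ≤ Cn * θ / h := by positivity
  have hc : 0 ≤ Cn * θ / h + 2 / r₀ := by positivity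
  have key := hA (fun k => (Cn * θ / h + 2 / r₀) * s.dist k)
    (continuous_const.mul (rec_dist_cont s)) (fun k => mul_nonneg hc (rec_dist_nonneg s k)) m
    (Gl.π g₀ (L.Op h a v)) ((CK * w g₀ * L.Cw * (D + 1)) * ‖Gl.ι v‖) (by
      intro ks hks
      have := H h hh hhh v (fun k => (Cn * θ / h + 2 / r₀) * s.dist k) ks hks (by
        intro k _
        by_cases hk : s.dist k < r₀
        · right
          obtain ⟨f, hf, X, hX, hkX, hfX⟩ := hN k hk
          refine ⟨X, hX, ?_, ?_⟩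
          · rw [hkX, map_mul, rec_triv_dense s hT Gl hd f hf, one_mul]
          · calc fro X.1 * θ / h ≤ (Cn * s.dist k) * θ / h := by gcongr
              _ = Cn * θ / h * s.dist k + 0 := by ring
              _ ≤ Cn * θ / h * s.dist k + 2 / r₀ * s.dist k := by
                have := rec_dist_nonneg s k
                gcongr
                positivity
              _ = _ := by ring
        · left
          push Not at hk
          calc (2 : ℝ) = 2 / r₀ * r₀ := by field_simp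
            _ ≤ 2 / r₀ * s.dist k := by gcongr
            _ ≤ _ := by
              have := rec_dist_nonneg s k
              gcongr
              linarith)
      calc _ ≤ _ := this
        _ = _ := by ring)
  refine key.trans_eq ?_
  congr 2
  rw [← integral_const_mul]
  congr 1
  ext k
  ring

end PerJ

end Pool.Agent.H913.SG
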