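import Pool.Agent.H913.SG.Rec4

/-! Universal choices. -/

open MeasureTheory Matrix NormedSpace
open scoped SchwartzMap ContDiff FourierTransform Matrix

universe u v

namespace Pool.Agent.H913.SG

theorem rec_choice (A B Ca : ℝ) (d : ℕ) (K : ℕ → ℝ) (hA : 1 ≤ A) (hB : 1 ≤ B) (hCa : 0 ≤ Ca)
    (hK : ∀ m, 0 ≤ K m) : ∃ m l : ℕ,
      K m * (((2 * A) ^ l) ^ d * B ^ l) * (Ca * (2⁻¹ : ℝ) ^ l) ^ m ≤ 1 / 4 := by
  obtain ⟨m, hm⟩ := pow_unbounded_of_one_lt ((2 * A) ^ d * B) (one_lt_two : (1 : ℝ) < 2)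
  have hρ0 : 0 ≤ (2 * A) ^ d * B := by positivity
  set ρ : ℝ := ((2 * A) ^ d * B) / 2 ^ m with hρ
  have hρ1 : ρ < 1 := by rw [hρ, div_lt_one (by positivity)]; exact hm
  have hρ2 : 0 ≤ ρ := by positivity
  have ht := (tendsto_pow_atTop_nhds_zero_of_lt_one hρ2 hρ1).const_mul (K m * Ca ^ m)
  rw [mul_zero] at ht
  obtain ⟨l, hl⟩ := (ht.eventually (ge_mem_nhds (show (0 : ℝ) < 1 / 4 by norm_num))).exists
  refine ⟨m, l, le_trans (le_of_eq ?_) hl⟩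
  have e1 : ((2 * A) ^ l) ^ d = ((2 * A) ^ d) ^ l := by rw [← pow_mul, ← pow_mul, Nat.mul_comm l d]
  have e2 : ((2⁻¹ : ℝ) ^ l) ^ m = (((2 : ℝ) ^ m) ^ l)⁻¹ := by
    rw [inv_pow, inv_pow, ← pow_mul, ← pow_mul, Nat.mul_comm l m]
  rw [hρ, div_pow, e1, mul_pow Ca, e2, mul_pow _ B]
  ring

variable {G : Type} [Group G] [TopologicalSpace G] [IsTopologicalGroup G] [T2Space G]
  {R : RealReductive G}

theorem rec_list (P : Pack R) (h1 : S_L1_pdir) (h2 : S_mul_lin) (g : G) (a : 𝓢(EE P.d, ℂ))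
    (W : ℝ) (η : ℝ)
    (Xs : List R.lie) (H : ∀ c : 𝓢(EE P.d, ℂ), (∀ ξ, c ξ =
      (∏ i : Fin Xs.length, (inner ℝ ξ (P.co (R.Ad g⁻¹ (Xs.get i))) : ℂ)) * a ξ) →
      Wn c ≤ W * η ^ Xs.length) :
    L1 (Xs.foldr (fun X B => pdir (P.co (R.Ad g⁻¹ X)) B) (𝓕 a)) ≤
      W * (2 * Real.pi * η) ^ Xs.length := by
  obtain ⟨c, hc⟩ := h2 P.d a Xs.length (fun i => P.co (R.Ad g⁻¹ (Xs.get i)))
  have e1 := h1 P.d a c Xs.length (fun i => P.co (R.Ad g⁻¹ (Xs.get i))) hc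
  have e2 : List.ofFn (fun i => P.co (R.Ad g⁻¹ (Xs.get i))) =
      Xs.map (fun X => P.co (R.Ad g⁻¹ X)) := by
    rw [← List.ofFn_get (l := Xs.map (fun X => P.co (R.Ad g⁻¹ X)))]
    apply List.ext_get
    · simp
    · intro n h1 h2
      simp
  rw [e2, List.foldr_map] at e1
  rw [e1]
  have := H c hc
  calc (2 * Real.pi) ^ Xs.length * Wn c ≤ (2 * Real.pi) ^ Xs.length * (W * η ^ Xs.length) := by
        gcongr
    _ = _ := by rw [mul_pow]; ring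

/-- The universal data of the recursion. -/
theorem rec_data (P : Pack R) (w : G → ℝ) (hw : IsWeight w)
    (hcon : S_contract) (hpart : S_partition) (hnil : S_nil) (hL1 : S_L1_pdir) (hlin : S_mul_lin)
    (chi1 : 𝓢(EE P.d, ℂ)) (hchi : IsChi1 chi1) (CK Cw Ca : ℝ) (hCK : 0 ≤ CK) (hCw : 0 ≤ Cw)
    (hCa : 0 ≤ Ca) :
    ∃ (m l mm : ℕ) (a : Fin mm → 𝓢(EE P.d, ℂ)) (g : Fin mm → G) (D : ℝ), 0 ≤ D ∧
      (∀ J, g J ∈ P.Gp) ∧
      (∀ b : 𝓢(EE P.d, ℂ), (∀ ξ, b ξ = chi1 ξ - ∑ J, a J ξ) →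
        HasCompactSupport b ∧ Disjoint (tsupport b) P.NN) ∧
      (∀ J, ∀ s ≤ m, ∀ Xs : List R.lie, Xs.length = s →
        (∀ X ∈ Xs, R.IsSkew X ∧ fro X.1 ≤ 1) →
        L1 (Xs.foldr (fun X B => pdir (P.co (R.Ad (g J)⁻¹ X)) B) (𝓕 (a J))) ≤
          D * (6 * Real.pi * (2⁻¹ : ℝ) ^ l) ^ s) ∧
      ∑ J, w (g J)⁻¹ * ((CK * w (g J) * Cw * (D + 1)) * (Ca * (2⁻¹ : ℝ) ^ l) ^ m) ≤ 1 / 4 := by
  obtain ⟨A, B, hA, hB, hAB⟩ := hcon G R P w hw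
  obtain ⟨Cs, hCs, hpart'⟩ := hpart P.d chi1 hchi
  set Dm : ℕ → ℝ := fun m => ∑ s ∈ Finset.range (m + 1), Cs s with hDm
  have hDm0 : ∀ m, 0 ≤ Dm m := fun m => Finset.sum_nonneg fun s _ => hCs s
  have hDms : ∀ m, ∀ s ≤ m, Cs s ≤ Dm m := by
    intro m s hs
    exact Finset.single_le_sum (f := Cs) (fun i _ => hCs i) (Finset.mem_range.2 (by omega))
  obtain ⟨m, l, hml⟩ := rec_choice A B Ca P.d
    (fun m => Cs 0 * (B * (CK * Cw * (Dm m + 1)))) hA hB hCa (fun m => by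
      have := hDm0 m
      have := hCs 0
      positivity)
  have hA0 : (0 : ℝ) < 2 * A := by linarith
  have hpw : (1 : ℝ) ≤ (2 * A) ^ l := one_le_pow₀ (by linarith)
  obtain ⟨mm, a, p, hmm, hp, hb, -, hprod⟩ := hpart' P.NN (rec_NN_closed P hnil)
    ((2 * A) ^ l)⁻¹ (by positivity) (inv_le_one_of_one_le₀ hpw)
  choose g hg hg1 hg2 hg3 using fun J => hAB l (p J) (hp J).1 (hp J).2
  refine ⟨m, l, mm, a, g, Dm m, hDm0 m, hg, hb, ?_, ?_⟩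
  · intro J s hs Xs hlen hXs
    have hη : (0 : ℝ) < 3 * (2⁻¹ : ℝ) ^ l := by positivity
    have e := rec_list P hL1 hlin (g J) (a J) (Cs s) (3 * (2⁻¹ : ℝ) ^ l) Xs (by
      intro c hc
      rw [← hlen]
      refine hprod J Xs.length (fun i => P.co (R.Ad (g J)⁻¹ (Xs.get i))) _ hη ?_ ?_ c hc
      · intro i
        have := hXs (Xs.get i) (List.get_mem _ _)
        exact hg1 J _ this.1 this.2
      · intro i
        have h3 := hXs (Xs.get i) (List.get_mem _ _)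
        have h4 := hg2 J _ h3.1 h3.2
        calc ((2 * A) ^ l)⁻¹ * ‖P.co (R.Ad (g J)⁻¹ (Xs.get i))‖ ≤ ((2 * A) ^ l)⁻¹ * A ^ l := by
              gcongr
          _ = (2⁻¹ : ℝ) ^ l := by
              rw [mul_pow, inv_pow]
              have : A ^ l ≠ 0 := by positivity
              field_simp
          _ ≤ 3 * (2⁻¹ : ℝ) ^ l := by
              have : (0 : ℝ) ≤ (2⁻¹ : ℝ) ^ l := by positivity
              linarith)
    rw [hlen] at e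
    refine e.trans ?_
    have : 2 * Real.pi * (3 * (2⁻¹ : ℝ) ^ l) = 6 * Real.pi * (2⁻¹ : ℝ) ^ l := by ring
    rw [this]
    have := hDms m s hs
    gcongr
  · have hterm : ∀ J, w (g J)⁻¹ * ((CK * w (g J) * Cw * (Dm m + 1)) *
        (Ca * (2⁻¹ : ℝ) ^ l) ^ m) ≤
        B ^ (l + 1) * ((CK * Cw * (Dm m + 1)) * (Ca * (2⁻¹ : ℝ) ^ l) ^ m) := by
      intro J
      have h1 := hg3 J
      have h2 : 0 ≤ (CK * Cw * (Dm m + 1)) * (Ca * (2⁻¹ : ℝ) ^ l) ^ m := by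
        have := hDm0 m
        positivity
      calc _ = (w (g J) * w (g J)⁻¹) * ((CK * Cw * (Dm m + 1)) * (Ca * (2⁻¹ : ℝ) ^ l) ^ m) := by
            ring
        _ ≤ _ := by gcongr
    calc _ ≤ ∑ _J : Fin mm, B ^ (l + 1) *
          ((CK * Cw * (Dm m + 1)) * (Ca * (2⁻¹ : ℝ) ^ l) ^ m) :=
          Finset.sum_le_sum fun J _ => hterm J
      _ = mm * (B ^ (l + 1) * ((CK * Cw * (Dm m + 1)) * (Ca * (2⁻¹ : ℝ) ^ l) ^ m)) := by
          rw [Finset.sum_const, Finset.card_univ, Fintype.card_fin, nsmul_eq_mul]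
      _ ≤ (Cs 0 * ((2 * A) ^ l) ^ P.d) *
            (B ^ (l + 1) * ((CK * Cw * (Dm m + 1)) * (Ca * (2⁻¹ : ℝ) ^ l) ^ m)) := by
          have := hDm0 m
          rw [inv_inv] at hmm
          gcongr
      _ = Cs 0 * (B * (CK * Cw * (Dm m + 1))) * (((2 * A) ^ l) ^ P.d * B ^ l) *
            (Ca * (2⁻¹ : ℝ) ^ l) ^ m := by ring
      _ ≤ 1 / 4 := hml

end Pool.Agent.H913.SG
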