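import Pool.Agent.H913.SG.Rec5

/-! The recursion. -/

open MeasureTheory Matrix NormedSpace Filter
open scoped SchwartzMap ContDiff FourierTransform Matrix

universe u v

namespace Pool.Agent.H913.SG

section Tools

variable {E : Type v} [NormedAddCommGroup E] [NormedSpace ℂ E]

theorem rec_pow_norm (A : E →L[ℂ] E) (c : ℝ) (hc : 0 ≤ c) (hA : ‖A‖ ≤ c) (m : ℕ) (x : E) :
    ‖(A ^ m) x‖ ≤ c ^ m * ‖x‖ := by
  induction m with
  | zero => simp
  | succ m ih =>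
    rw [pow_succ', ContinuousLinearMap.mul_apply]
    calc ‖A ((A ^ m) x)‖ ≤ c * ‖(A ^ m) x‖ := A.le_of_opNorm_le hA _
      _ ≤ c * (c ^ m * ‖x‖) := by gcongr
      _ = _ := by ring

theorem rec_tele (A : E →L[ℂ] E) (m : ℕ) (u : E) :
    (∑ i ∈ Finset.range m, (A ^ i) u) - A (∑ i ∈ Finset.range m, (A ^ i) u) = u - (A ^ m) u := by
  rw [map_sum, ← Finset.sum_sub_distrib]
  have : ∀ i, (A ^ i) u - A ((A ^ i) u) = (A ^ i) u - (A ^ (i + 1)) u := by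
    intro i
    rw [pow_succ', ContinuousLinearMap.mul_apply]
  simp_rw [this]
  rw [Finset.sum_range_sub']
  simp

theorem rec_pow_map {E' : Type v} [NormedAddCommGroup E'] [NormedSpace ℂ E'] (T : E →L[ℂ] E')
    (A : E →L[ℂ] E) (A' : E' →L[ℂ] E') (h : ∀ x, T (A x) = A' (T x)) (m : ℕ) (x : E) :
    T ((A ^ m) x) = (A' ^ m) (T x) := by
  induction m with
  | zero => simp
  | succ m ih =>
    rw [pow_succ', pow_succ', ContinuousLinearMap.mul_apply, ContinuousLinearMap.mul_apply, h, ih]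

end Tools

variable {G : Type} [Group G] [TopologicalSpace G] {R : RealReductive G}

theorem rec_Pi_mem (P : Pack R) (y : EE P.d) : P.Pi y ∈ P.Gp := by
  unfold Pack.Pi
  apply Subgroup.list_prod_mem
  intro x hx
  rw [List.mem_ofFn] at hx
  obtain ⟨i, rfl⟩ := hx
  exact Subgroup.subset_closure ⟨P.X i, y i, rfl⟩

theorem rec_T_map (P : Pack R) [IsTopologicalGroup G]
    {V : Type u} [AddCommGroup V] [Module ℂ V] {Mo : HCModule R V} {w : G → ℝ}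
    {E E' : Type v} [NormedAddCommGroup E] [NormedSpace ℂ E] [NormedAddCommGroup E']
    [NormedSpace ℂ E'] [CompleteSpace E] [CompleteSpace E'] (Gl : Glob Mo w E) (Gl' : Glob Mo w E')
    (T : E →L[ℂ] E') (hT : ∀ g x, T (Gl.π g x) = Gl'.π g (T x))
    [MeasurableSpace R.K] [BorelSpace R.K] (μ : Measure R.K) [IsFiniteMeasure μ]
    (f : R.K → ℝ) (hf : Continuous f) (A : E →L[ℂ] E) (A' : E' →L[ℂ] E')
    (hA : ∀ x, A x = x - ∫ k : R.K, (f k : ℂ) • Gl.π k.1 x ∂μ)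
    (hA' : ∀ x, A' x = x - ∫ k : R.K, (f k : ℂ) • Gl'.π k.1 x ∂μ) (x : E) :
    T (A x) = A' (T x) := by
  have := P.compactK
  have hi : Integrable (fun k : R.K => (f k : ℂ) • Gl.π k.1 x) μ := by
    apply Continuous.integrable_of_hasCompactSupport
    · exact (Complex.continuous_ofReal.comp hf).smul ((Gl.cont x).comp continuous_subtype_val)
    · exact HasCompactSupport.of_compactSpace _
  rw [hA, hA', map_sub, ← ContinuousLinearMap.integral_comp_comm T hi]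
  congr 2
  ext k
  rw [map_smul, hT]

theorem rec_A_clo {V : Type u} [AddCommGroup V] [Module ℂ V] {Mo : HCModule R V} {w : G → ℝ}
    {E : Type v} [NormedAddCommGroup E] [NormedSpace ℂ E] [CompleteSpace E] (Gl : Glob Mo w E)
    [MeasurableSpace R.K] (μ : Measure R.K)
    (f : R.K → ℝ) (A : E →L[ℂ] E)
    (hA : ∀ x, A x = x - ∫ k : R.K, (f k : ℂ) • Gl.π k.1 x ∂μ) {x : E} (hx : x ∈ Gl.clo) :
    A x ∈ Gl.clo := by
  rw [hA]
  exact Gl.clo.sub_mem hx (rec_integral_mem _ Gl.isClosed_clo fun k =>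
    Gl.clo.smul_mem _ (Gl.K_clo k hx))

theorem rec_pow_clo {V : Type u} [AddCommGroup V] [Module ℂ V] {Mo : HCModule R V} {w : G → ℝ}
    {E : Type v} [NormedAddCommGroup E] [NormedSpace ℂ E] (Gl : Glob Mo w E)
    (A : E →L[ℂ] E) (hA : ∀ x ∈ Gl.clo, A x ∈ Gl.clo) (i : ℕ) {x : E} (hx : x ∈ Gl.clo) :
    (A ^ i) x ∈ Gl.clo := by
  induction i with
  | zero => simpa using hx
  | succ i ih =>
    rw [pow_succ', ContinuousLinearMap.mul_apply]
    exact hA _ ih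

/-- The joint element `t`. -/
theorem rec_joint [IsTopologicalGroup G] [T2Space G] [SecondCountableTopology G]
    (havg : S_avg.{u,u}) (P : Pack R) (s : KRep R)
    {V : Type u} [AddCommGroup V] [Module ℂ V] {Mo : HCModule R V} (hT : s.Triv Mo) {w : G → ℝ}
    {E₁ E₂ : Type u} [NormedAddCommGroup E₁] [NormedSpace ℂ E₁] [CompleteSpace E₁]
    [NormedAddCommGroup E₂] [NormedSpace ℂ E₂] [CompleteSpace E₂]
    (Gl₁ : Glob Mo w E₁) (Gl₂ : Glob Mo w E₂)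
    [MeasurableSpace R.K] [BorelSpace R.K] (μ : Measure R.K) [μ.IsHaarMeasure]
    [IsProbabilityMeasure μ] (N : ℕ)
    (f : R.K → ℝ) (hf : Continuous f) (hfW : (fun k => (f k : ℂ)) ∈ s.W N)
    (A₁ : E₁ →L[ℂ] E₁) (A₂ : E₂ →L[ℂ] E₂) (A : E₁ × E₂ →L[ℂ] E₁ × E₂)
    (hA₁ : ∀ x, A₁ x = x - ∫ k : R.K, (f k : ℂ) • Gl₁.π k.1 x ∂μ)
    (hA₂ : ∀ x, A₂ x = x - ∫ k : R.K, (f k : ℂ) • Gl₂.π k.1 x ∂μ)
    (hA : ∀ x, A x = x - ∫ k : R.K, (f k : ℂ) • (Gl₁.prod Gl₂).π k.1 x ∂μ)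
    (m : ℕ) (x : E₁ × E₂) (hx : x ∈ (Gl₁.prod Gl₂).clo) :
    ∃ t ∈ s.U Mo N, Gl₁.ι t = x.1 - (A₁ ^ m) x.1 ∧ Gl₂.ι t = x.2 - (A₂ ^ m) x.2 := by
  have hcl := fun y (hy : y ∈ (Gl₁.prod Gl₂).clo) => rec_A_clo (Gl₁.prod Gl₂) μ f A hA hy
  set S : E₁ × E₂ := ∑ i ∈ Finset.range m, (A ^ i) x with hS
  have hSm : S ∈ (Gl₁.prod Gl₂).clo :=
    Submodule.sum_mem _ fun i _ => rec_pow_clo (Gl₁.prod Gl₂) A hcl i hx
  obtain ⟨t, ht, ht'⟩ := havg G R P s μ V Mo hT w (E₁ × E₂) (Gl₁.prod Gl₂) N f hfW S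
    (((Gl₁.prod Gl₂).mem_clo _).1 hSm)
  have e1 : (Gl₁.prod Gl₂).ι t = x - (A ^ m) x := by
    rw [← ht', ← rec_tele A m x, ← hS]
    conv_rhs => rw [hA]
    abel
  refine ⟨t, ht, ?_, ?_⟩
  · have h1 := rec_pow_map (ContinuousLinearMap.fst ℂ E₁ E₂) A A₁
      (rec_T_map P (Gl₁.prod Gl₂) Gl₁ (ContinuousLinearMap.fst ℂ E₁ E₂) (fun g x => rfl) μ f hf A A₁
        hA hA₁) m x
    have h2 := congrArg Prod.fst e1
    rw [Glob.prod_ι] at h2
    simp only [Prod.fst_sub] at h2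
    rw [h2]
    congr 1
  · have h1 := rec_pow_map (ContinuousLinearMap.snd ℂ E₁ E₂) A A₂
      (rec_T_map P (Gl₁.prod Gl₂) Gl₂ (ContinuousLinearMap.snd ℂ E₁ E₂) (fun g x => rfl) μ f hf A A₂
        hA hA₂) m x
    have h2 := congrArg Prod.snd e1
    rw [Glob.prod_ι] at h2
    simp only [Prod.snd_sub] at h2
    rw [h2]
    congr 1

end Pool.Agent.H913.SG
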