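import Pool.Agent.H913.SG.Rec6

/-! The recursion: main estimate. -/

open MeasureTheory Matrix NormedSpace Filter
open scoped SchwartzMap ContDiff FourierTransform Matrix

universe u v

namespace Pool.Agent.H913.SG

theorem rec_op_clo {G : Type} [Group G] [TopologicalSpace G] {R : RealReductive G} (P : Pack R)
    {V : Type u} [AddCommGroup V] [Module ℂ V] {Mo : HCModule R V} {w : G → ℝ}
    {E : Type v} [NormedAddCommGroup E] [NormedSpace ℂ E] [CompleteSpace E] (Gl : Glob Mo w E)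
    (hcl : ∀ g ∈ P.Gp, ∀ x ∈ Gl.clo, Gl.π g x ∈ Gl.clo) {Ch : Chart P.d} (L : LocalRep Ch V E)
    (hLo : ∀ v y, L.orb v y = Gl.π (P.Pi y) (Gl.ι v)) (h : ℝ) (a : 𝓢(EE P.d, ℂ)) (v : V) :
    L.Op h a v ∈ Gl.clo := by
  unfold LocalRep.Op LocalRep.I
  refine rec_integral_mem _ Gl.isClosed_clo fun x => Gl.clo.smul_mem _ ?_
  rw [hLo]
  exact hcl _ (rec_Pi_mem P _) _ (Gl.ι_mem_clo v)

theorem recursion (hA : S_approx.{u,u}) (hell : S_elliptic.{u,u}) (hcas : S_casimir.{u})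
    (hB : S_bernU.{u,u}) (hU : S_U.{u}) (hchart : S_chart.{u,u}) (hop : S_op_basic.{u,u})
    (hword : S_op_word.{u,u}) (hlin : S_mul_lin) (hc1 : S_chi1) (hclos : S_clos.{u,u})
    (hfin : S_Ufin.{u}) (hnil : S_nil) (hcon : S_contract) (hpart : S_partition)
    (hL1 : S_L1_pdir) (hnear : S_near) (hker : S_kernel) (hW : S_W)
    (havg : S_avg.{u,u}) (hleft : S_left.{u,u}) (hpow : S_powers.{u}) : S_rec.{u} := by
  intro G _ _ _ _ _ R P s w hw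
  -- measure on K
  letI : MeasurableSpace R.K := borel R.K
  have : BorelSpace R.K := ⟨rfl⟩
  have hcK := P.compactK
  let μ : Measure R.K := Measure.haarMeasure ⊤
  have : IsProbabilityMeasure μ := ⟨by
    have := Measure.haarMeasure_self (G := R.K) (K₀ := ⊤)
    simpa using this⟩
  -- universal constants
  obtain ⟨CK, hCK1, hCK⟩ := rec_CK P hw
  have hCK0 : 0 ≤ CK := by linarith
  obtain ⟨C₂, C₃, hC₂, hC₃, hkern⟩ := hker G R P s μ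
  obtain ⟨r₀, hr₀, Cn, hCn, hnr⟩ := hnear G R P s
  obtain ⟨Ch, q, hq1, hq2, hq3, HCh⟩ := hchart G R P
  obtain ⟨Cw, hCw, HL⟩ := HCh w hw
  obtain ⟨chi1, hchi⟩ := hc1 P.d
  obtain ⟨C1, hC1, HA⟩ := rec_approx P hA hcas hB hU s w hw Ch chi1 hchi
  set a₀ : ℝ := C1 * Cw with ha₀
  have ha0 : 0 ≤ a₀ := by positivity
  obtain ⟨ε, hε, hε1, hεa⟩ : ∃ ε : ℝ, 0 < ε ∧ ε ≤ 1 ∧ a₀ * ε ^ 2 ≤ 1 / 16 := by
    refine ⟨1 / (16 * (a₀ + 1)), by positivity, ?_, ?_⟩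
    · rw [div_le_one (by positivity)]; linarith
    · rw [div_pow, one_pow, mul_one_div, div_le_div_iff₀ (by positivity) (by norm_num)]
      nlinarith [sq_nonneg a₀]
  set Ca : ℝ := 4 * C₂ * C₃ * Cn * (6 * Real.pi) / ε + 1 with hCa
  have hCa0 : 0 ≤ Ca := by positivity
  obtain ⟨m, l, mm, a, g, D, hD, hg, hb, hL1', hsum⟩ := rec_data P w hw hcon hpart hnil hL1 hlin
    chi1 hchi CK Cw Ca hCK0 hCw hCa0
  have hWn : ∀ J, 0 ≤ Wn (a J) := fun J => integral_nonneg fun x => norm_nonneg _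
  have hwp : ∀ x, 0 < w x := hw.pos
  set Sg : ℝ := ∑ J, w (g J)⁻¹ * ((1 + (1 + CK) ^ m) * (w (g J) * (Cw * Wn (a J)))) with hSg
  have hSg0 : 0 ≤ Sg := by
    refine Finset.sum_nonneg fun J _ => ?_
    have := hWn J
    have := hwp (g J)
    have := hwp (g J)⁻¹
    positivity
  refine ⟨max 1 (2 * Sg), le_max_left _ _, ?_⟩
  intro V _ _ Mo hT E₁ E₂ _ _ _ _ _ _ Gl₁ Gl₂ hd₁ hd₂
  obtain ⟨L₁, hLC₁, hLa₁, hLo₁⟩ := HL V Mo E₁ Gl₁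
  obtain ⟨L₂, hLC₂, hLa₂, hLo₂⟩ := HL V Mo E₂ Gl₂
  obtain ⟨L, hLC, hLa, hLo⟩ := HL V Mo (E₁ × E₂) (Gl₁.prod Gl₂)
  have horb₁ : ∀ v, L₁.orb v 0 = Gl₁.ι v := by
    intro v; rw [hLo₁, rec_Pi_zero, map_one]; rfl
  have horb₂ : ∀ v, L₂.orb v 0 = Gl₂.ι v := by
    intro v; rw [hLo₂, rec_Pi_zero, map_one]; rfl
  have hcl := rec_closure hA hcas hB hU hchart hop hword hlin hc1 hclos hfin P s w hw Mo hT
    (Gl₁.prod Gl₂)
  obtain ⟨C, hC, HC⟩ := HA V Mo E₂ Gl₂ L₂ hLa₂ horb₂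
  rw [hLC₂] at HC
  -- the remainder symbol
  set b : 𝓢(EE P.d, ℂ) := chi1 - ∑ J, a J with hbdef
  have hbξ : ∀ ξ, b ξ = chi1 ξ - ∑ J, a J ξ := by
    intro ξ
    rw [hbdef]
    simp
  obtain ⟨hbc, hbd⟩ := hb b hbξ
  obtain ⟨Cb, hCb, HCb⟩ := rec_small P Mo hell hcas hnil L₂ hLa₂ b hbc hbd
  -- the left calculus
  have hpJ : ∀ J, ∃ h₀ > 0, ∀ h, 0 < h → h < h₀ → ∀ v, ∀ (f : R.K → ℝ) (Aop : E₂ →L[ℂ] E₂),
      (∀ (α : R.K → ℝ), Continuous α → (∀ k, 0 ≤ α k) → ∀ (m : ℕ) (u : E₂) (D : ℝ),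
        (∀ ks : List R.K, ks.length ≤ m →
          ‖(ks.map (fun k => 1 - Gl₂.π k.1)).prod u‖ ≤ D * (ks.map α).prod) →
        ‖(Aop ^ m) u‖ ≤ D * (∫ k, f k * α k ∂μ) ^ m) →
      ‖(Aop ^ m) (Gl₂.π (g J) (L₂.Op h (a J) v))‖ ≤
        (CK * w (g J) * L₂.Cw * (D + 1)) * ‖Gl₂.ι v‖ *
          ((Cn * (6 * Real.pi * (2⁻¹ : ℝ) ^ l) / h + 2 / r₀) * ∫ k, f k * s.dist k ∂μ) ^ m := by
    intro J
    exact rec_perJ hleft P s hT Ch q hq1 hq2 hq3 Gl₂ hd₂ L₂ hLa₂ hLo₂ CK hCK (g J) (a J) m D _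
      (by positivity) hD (hL1' J) r₀ Cn hr₀ hCn hnr μ
  choose h₀ hh₀ HJ using hpJ
  rw [hLC₂] at HJ
  -- large N
  have ht0 : Tendsto (fun N : ℕ => ε / (N : ℝ)) atTop (nhds 0) :=
    tendsto_const_div_atTop_nhds_zero_nat ε
  have hev : ∀ᶠ N : ℕ in atTop, 4 * C₂ ≤ N ∧ 8 * C₂ * C₃ * 2 ^ l / r₀ ≤ (N : ℝ) ∧
      (∀ J, ε / (N : ℝ) < h₀ J) ∧ (C + Cb) * (ε / (N : ℝ)) ≤ 1 / 16 := by
    refine Eventually.and (eventually_ge_atTop _) (Eventually.and ?_ (Eventually.and ?_ ?_))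
    · obtain ⟨n, hn⟩ := exists_nat_ge (8 * C₂ * C₃ * 2 ^ l / r₀)
      filter_upwards [eventually_ge_atTop n] with N hN
      exact hn.trans (by exact_mod_cast hN)
    · rw [eventually_all]
      intro J
      exact ht0.eventually (gt_mem_nhds (hh₀ J))
    · have := ht0.const_mul (C + Cb)
      rw [mul_zero] at this
      exact this.eventually (ge_mem_nhds (by norm_num))
  obtain ⟨N₀, hN₀⟩ := eventually_atTop.1 hev
  refine ⟨N₀, ?_⟩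
  intro N hN gg hgg hind v hv
  obtain ⟨hN1, hN2, hN3, hN4⟩ := hN₀ N hN
  have hC₂' : (1 : ℝ) ≤ C₂ := by exact_mod_cast hC₂
  have hNr : (4 : ℝ) * C₂ ≤ N := by exact_mod_cast hN1
  have hNpos : (0 : ℝ) < N := by linarith
  set h : ℝ := ε / N with hh
  have hhpos : 0 < h := by positivity
  have hh1 : h ≤ 1 := by
    rw [hh, div_le_one hNpos]; linarith
  -- the kernel
  set M' : ℕ := N / (2 * C₂) with hM'
  have hM1 : 1 ≤ M' := by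
    rw [hM', Nat.le_div_iff_mul_le (by omega)]; omega
  have hM2 : C₂ * M' ≤ N / 2 := by
    rw [Nat.le_div_iff_mul_le (by norm_num)]
    calc C₂ * M' * 2 = (2 * C₂) * (N / (2 * C₂)) := by rw [hM']; ring
      _ ≤ N := Nat.mul_div_le _ _
  have hM3 : (N : ℝ) / (4 * C₂) ≤ M' := by
    have h1 : N < (2 * C₂) * (M' + 1) := by
      rw [hM']
      exact Nat.lt_mul_div_succ N (by omega)
    have h2 : (N : ℝ) < (2 * C₂) * (M' + 1) := by exact_mod_cast h1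
    have h3 : (1 : ℝ) ≤ M' := by exact_mod_cast hM1
    rw [div_le_iff₀ (by positivity)]
    nlinarith
  obtain ⟨f, hfW, hf0, hf1, hfd⟩ := hkern M' hM1
  have hfc : Continuous f := by
    have h1 := (hW G R s).2.2.1 _ _ hfW
    have h2 : f = fun k => ((f k : ℂ)).re := by ext k; simp
    rw [h2]
    exact Complex.continuous_re.comp h1
  have hfWN : (fun k => (f k : ℂ)) ∈ s.W (N / 2) := (hW G R s).1 _ _ hM2 hfW
  -- the operators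
  obtain ⟨A₁, hA₁, hA₁n, -⟩ := hpow G R P μ E₁ Gl₁.π Gl₁.cont CK
    (fun k => (Gl₁.bound _).trans (hCK k)) f hfc hf0 hf1
  obtain ⟨A₂, hA₂, hA₂n, hA₂p⟩ := hpow G R P μ E₂ Gl₂.π Gl₂.cont CK
    (fun k => (Gl₂.bound _).trans (hCK k)) f hfc hf0 hf1
  obtain ⟨A, hAA, -, -⟩ := hpow G R P μ (E₁ × E₂) (Gl₁.prod Gl₂).π (Gl₁.prod Gl₂).cont CK
    (fun k => ((Gl₁.prod Gl₂).bound _).trans (hCK k)) f hfc hf0 hf1
  -- kernel estimate
  have hKe : (Cn * (6 * Real.pi * (2⁻¹ : ℝ) ^ l) / h + 2 / r₀) * ∫ k, f k * s.dist k ∂μ ≤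
      Ca * (2⁻¹ : ℝ) ^ l := by
    have hMp : (0 : ℝ) < M' := by exact_mod_cast hM1
    have h1 : ∫ k, f k * s.dist k ∂μ ≤ 4 * C₂ * C₃ / N := by
      refine hfd.trans ?_
      rw [div_le_div_iff₀ hMp hNpos]
      rw [div_le_iff₀ (by positivity)] at hM3
      nlinarith
    have h2 : 0 ≤ Cn * (6 * Real.pi * (2⁻¹ : ℝ) ^ l) / h + 2 / r₀ := by positivity
    refine (mul_le_mul_of_nonneg_left h1 h2).trans ?_
    have h3 : 2 / r₀ * (4 * C₂ * C₃ / N) ≤ (2⁻¹ : ℝ) ^ l := by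
      rw [div_mul_div_comm, div_le_iff₀ (by positivity)]
      rw [div_le_iff₀ hr₀] at hN2
      rw [inv_pow, ← div_eq_inv_mul, le_div_iff₀ (by positivity)]
      nlinarith
    have h4 : Cn * (6 * Real.pi * (2⁻¹ : ℝ) ^ l) / h * (4 * C₂ * C₃ / N) =
        (4 * C₂ * C₃ * Cn * (6 * Real.pi) / ε) * (2⁻¹ : ℝ) ^ l := by
      rw [hh]
      field_simp
    rw [add_mul, h4, hCa, add_mul, one_mul]
    linarith
  have hKe0 : 0 ≤ (Cn * (6 * Real.pi * (2⁻¹ : ℝ) ^ l) / h + 2 / r₀) * ∫ k, f k * s.dist k ∂μ := by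
    have : 0 ≤ ∫ k, f k * s.dist k ∂μ :=
      integral_nonneg fun k => mul_nonneg (hf0 k) (rec_dist_nonneg s k)
    positivity
  -- the pieces
  set p₂ : ℝ := ‖Gl₂.ι v‖ with hp₂
  set p₁ : ℝ := ‖Gl₁.ι v‖ with hp₁
  have hop₂ := hop P.d Ch V E₂ L₂
  have hop₁ := hop P.d Ch V E₁ L₁
  have key1 : ‖Gl₂.ι v - L₂.Op h chi1 v‖ ≤ (1 / 16 + C * h) * p₂ := by
    have e1 := HC h hhpos hh1 N v hv
    have e2 : h * N = ε := by rw [hh]; field_simp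
    rw [e2, ← ha₀] at e1
    refine e1.trans ?_
    gcongr
  have key2 : ‖L₂.Op h b v‖ ≤ Cb * h * p₂ := by
    have := HCb h hhpos hh1 v
    rwa [horb₂] at this
  have key3 : L₂.Op h chi1 v = L₂.Op h b v + ∑ J, L₂.Op h (a J) v := by
    rw [← rec_Op_sum hop L₂ hhpos v Finset.univ a]
    exact hop₂.2.1 chi1 b (∑ J, a J) h hhpos (fun ξ => by rw [hbdef]; simp) v
  have key5 : ∀ J, ‖(A₂ ^ m) (Gl₂.π (g J) (L₂.Op h (a J) v))‖ ≤
      (CK * w (g J) * Cw * (D + 1)) * (Ca * (2⁻¹ : ℝ) ^ l) ^ m * p₂ := by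
    intro J
    have e1 := HJ J h hhpos (hN3 J) v f A₂ hA₂p
    refine e1.trans ?_
    have := hwp (g J)
    calc _ ≤ (CK * w (g J) * Cw * (D + 1)) * p₂ * (Ca * (2⁻¹ : ℝ) ^ l) ^ m := by
          gcongr
      _ = _ := by ring
  have key6 : ∀ J, ‖Gl₂.π (g J) (L₂.Op h (a J) v) -
      (A₂ ^ m) (Gl₂.π (g J) (L₂.Op h (a J) v))‖ ≤
      gg * ((1 + (1 + CK) ^ m) * (w (g J) * (Cw * Wn (a J)))) * p₁ := by
    intro J
    set x : E₁ × E₂ := (Gl₁.prod Gl₂).π (g J) (L.Op h (a J) v) with hx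
    have hxc : x ∈ (Gl₁.prod Gl₂).clo :=
      hcl _ (hg J) _ (rec_op_clo P (Gl₁.prod Gl₂) hcl L hLo h (a J) v)
    obtain ⟨t, ht, ht1, ht2⟩ := rec_joint havg P s hT Gl₁ Gl₂ μ (N / 2) f hfc hfWN A₁ A₂ A hA₁ hA₂
      hAA m x hxc
    have hx1 : x.1 = Gl₁.π (g J) (L₁.Op h (a J) v) := by
      rw [hx, Glob.prod_π]
      simp only
      congr 1
      exact rec_map_I L L₁ (ContinuousLinearMap.fst ℂ E₁ E₂)
        (fun v y => by rw [hLo, hLo₁]; rfl) (rec_chi_test Ch) _ hhpos v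
    have hx2 : x.2 = Gl₂.π (g J) (L₂.Op h (a J) v) := by
      rw [hx, Glob.prod_π]
      simp only
      congr 1
      exact rec_map_I L L₂ (ContinuousLinearMap.snd ℂ E₁ E₂)
        (fun v y => by rw [hLo, hLo₂]; rfl) (rec_chi_test Ch) _ hhpos v
    rw [hx1] at ht1
    rw [hx2] at ht2
    rw [← ht2]
    refine (hind t ht).trans ?_
    rw [mul_assoc gg]
    refine mul_le_mul_of_nonneg_left ?_ hgg
    rw [ht1]
    have hwJ := hwp (g J)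
    have n1 : ‖Gl₁.π (g J) (L₁.Op h (a J) v)‖ ≤ w (g J) * (Cw * Wn (a J) * p₁) := by
      refine ((Gl₁.π (g J)).le_of_opNorm_le (Gl₁.bound _) _).trans ?_
      have := hop₁.1 (a J) h hhpos v
      rw [horb₁, hLC₁] at this
      gcongr
    have n2 := rec_pow_norm A₁ (1 + CK) (by positivity) hA₁n m (Gl₁.π (g J) (L₁.Op h (a J) v))
    calc _ ≤ ‖Gl₁.π (g J) (L₁.Op h (a J) v)‖ +
          ‖(A₁ ^ m) (Gl₁.π (g J) (L₁.Op h (a J) v))‖ := norm_sub_le _ _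
      _ ≤ ‖Gl₁.π (g J) (L₁.Op h (a J) v)‖ +
          (1 + CK) ^ m * ‖Gl₁.π (g J) (L₁.Op h (a J) v)‖ := by gcongr
      _ = (1 + (1 + CK) ^ m) * ‖Gl₁.π (g J) (L₁.Op h (a J) v)‖ := by ring
      _ ≤ (1 + (1 + CK) ^ m) * (w (g J) * (Cw * Wn (a J) * p₁)) := by gcongr
      _ = _ := by ring
  have key4 : ∀ J, ‖L₂.Op h (a J) v‖ ≤ w (g J)⁻¹ * ‖Gl₂.π (g J) (L₂.Op h (a J) v)‖ := by
    intro J
    have e1 : L₂.Op h (a J) v = Gl₂.π (g J)⁻¹ (Gl₂.π (g J) (L₂.Op h (a J) v)) := by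
      have : Gl₂.π (g J)⁻¹ * Gl₂.π (g J) = 1 := by rw [← map_mul]; simp
      have h2 := congrArg (fun T => T (L₂.Op h (a J) v)) this
      simpa using h2.symm
    calc ‖L₂.Op h (a J) v‖ = ‖Gl₂.π (g J)⁻¹ (Gl₂.π (g J) (L₂.Op h (a J) v))‖ := by rw [← e1]
      _ ≤ _ := (Gl₂.π (g J)⁻¹).le_of_opNorm_le (Gl₂.bound _) _
  have key7 : ∀ J, ‖L₂.Op h (a J) v‖ ≤
      w (g J)⁻¹ * ((CK * w (g J) * Cw * (D + 1)) * (Ca * (2⁻¹ : ℝ) ^ l) ^ m) * p₂ +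
      gg * (w (g J)⁻¹ * ((1 + (1 + CK) ^ m) * (w (g J) * (Cw * Wn (a J))))) * p₁ := by
    intro J
    have := hwp (g J)⁻¹
    have e1 : ‖Gl₂.π (g J) (L₂.Op h (a J) v)‖ ≤
        (CK * w (g J) * Cw * (D + 1)) * (Ca * (2⁻¹ : ℝ) ^ l) ^ m * p₂ +
        gg * ((1 + (1 + CK) ^ m) * (w (g J) * (Cw * Wn (a J)))) * p₁ := by
      have e2 : Gl₂.π (g J) (L₂.Op h (a J) v) = (A₂ ^ m) (Gl₂.π (g J) (L₂.Op h (a J) v)) +
          (Gl₂.π (g J) (L₂.Op h (a J) v) - (A₂ ^ m) (Gl₂.π (g J) (L₂.Op h (a J) v))) := by abel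
      calc ‖Gl₂.π (g J) (L₂.Op h (a J) v)‖ ≤ ‖(A₂ ^ m) (Gl₂.π (g J) (L₂.Op h (a J) v))‖ +
            ‖Gl₂.π (g J) (L₂.Op h (a J) v) - (A₂ ^ m) (Gl₂.π (g J) (L₂.Op h (a J) v))‖ := by
            conv_lhs => rw [e2]
            exact norm_add_le _ _
        _ ≤ _ := add_le_add (key5 J) (key6 J)
    calc _ ≤ _ := key4 J
      _ ≤ w (g J)⁻¹ * ((CK * w (g J) * Cw * (D + 1)) * (Ca * (2⁻¹ : ℝ) ^ l) ^ m * p₂ +
          gg * ((1 + (1 + CK) ^ m) * (w (g J) * (Cw * Wn (a J)))) * p₁) := by gcongr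
      _ = _ := by ring
  have key8 : ‖∑ J, L₂.Op h (a J) v‖ ≤ 1 / 4 * p₂ + gg * Sg * p₁ := by
    calc _ ≤ ∑ J, ‖L₂.Op h (a J) v‖ := norm_sum_le _ _
      _ ≤ ∑ J, (w (g J)⁻¹ * ((CK * w (g J) * Cw * (D + 1)) * (Ca * (2⁻¹ : ℝ) ^ l) ^ m) * p₂ +
          gg * (w (g J)⁻¹ * ((1 + (1 + CK) ^ m) * (w (g J) * (Cw * Wn (a J))))) * p₁) :=
          Finset.sum_le_sum fun J _ => key7 J
      _ = (∑ J, w (g J)⁻¹ * ((CK * w (g J) * Cw * (D + 1)) * (Ca * (2⁻¹ : ℝ) ^ l) ^ m)) * p₂ +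
          gg * Sg * p₁ := by
          rw [Finset.sum_add_distrib, ← Finset.sum_mul, ← Finset.sum_mul, ← Finset.mul_sum]
      _ ≤ _ := by gcongr
  have hp₂0 : 0 ≤ p₂ := norm_nonneg _
  have hp₁0 : 0 ≤ p₁ := norm_nonneg _
  have total : p₂ ≤ (1 / 16 + C * h) * p₂ + (Cb * h * p₂ + (1 / 4 * p₂ + gg * Sg * p₁)) := by
    calc p₂ = ‖(Gl₂.ι v - L₂.Op h chi1 v) + (L₂.Op h b v + ∑ J, L₂.Op h (a J) v)‖ := by
          rw [← key3, sub_add_cancel]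
      _ ≤ ‖Gl₂.ι v - L₂.Op h chi1 v‖ + (‖L₂.Op h b v‖ + ‖∑ J, L₂.Op h (a J) v‖) :=
          (norm_add_le _ _).trans (add_le_add le_rfl (norm_add_le _ _))
      _ ≤ _ := add_le_add key1 (add_le_add key2 key8)
  have hfinal : p₂ ≤ 2 * Sg * gg * p₁ := by
    have h1 : (C + Cb) * h * p₂ ≤ 1 / 16 * p₂ := by gcongr
    have h2 : 0 ≤ gg * Sg * p₁ := by positivity
    nlinarith
  calc p₂ ≤ 2 * Sg * gg * p₁ := hfinal
    _ ≤ max 1 (2 * Sg) * gg * p₁ := by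
      gcongr
      exact le_max_right _ _

end Pool.Agent.H913.SG
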