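import Pool.Agent.H913.SG.Defs
import Pool.Agent.H913.SG.Calc

/-! Statements of all parts of the proof (no proofs here, only propositions). -/

open MeasureTheory Matrix NormedSpace
open scoped SchwartzMap ContDiff FourierTransform Matrix

universe u v

namespace Pool.Agent.H913.SG

/-! ### Part A: calculus on `ℝ^d` -/

section Calc

/-- A fixed cutoff on the frequency side: `1` on the unit ball, supported in the ball of radius `2`. -/
structure IsChi1 {d : ℕ} (c : 𝓢(EE d, ℂ)) : Prop where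
  supp : tsupport c ⊆ Metric.closedBall 0 2
  one : ∀ ξ, ‖ξ‖ ≤ 1 → c ξ = 1

/-- A1: norm bound. -/
def S_I_norm : Prop := ∀ (d : ℕ) (Ch : Chart d) (V : Type u) [AddCommGroup V] [Module ℂ V]
  (E : Type v) [NormedAddCommGroup E] [NormedSpace ℂ E] [CompleteSpace E]
  (L : LocalRep Ch V E) (f : EE d → ℝ) (_ : IsTest Ch f) (A : 𝓢(EE d, ℂ)) (h : ℝ), 0 < h → ∀ v,
    ‖L.I f A h v‖ ≤ L.Cw * (∫ x, |f (h • x)| * ‖A x‖) * ‖L.orb v 0‖

/-- A2: integration by parts. -/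
def S_ibp : Prop := ∀ (d : ℕ) (Ch : Chart d) (V : Type u) [AddCommGroup V] [Module ℂ V]
  (E : Type v) [NormedAddCommGroup E] [NormedSpace ℂ E] [CompleteSpace E]
  (L : LocalRep Ch V E) (f : EE d → ℝ) (_ : IsTest Ch f) (A : 𝓢(EE d, ℂ)) (h : ℝ), 0 < h →
    ∀ j v, (h : ℂ) • L.I f A h (L.a j v) =
      -((h : ℂ) • L.I (fun y => ∑ i, fderiv ℝ (fun z => f z * Ch.M j i z) y (ei i)) A h v)
      - ∑ i, L.I (fun y => f y * Ch.M j i y) (pd i A) h v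

/-- A3: the value of the test function at `0` decides the leading term. -/
def S_I_flat : Prop := ∀ (d : ℕ) (Ch : Chart d) (V : Type u) [AddCommGroup V] [Module ℂ V]
  (E : Type v) [NormedAddCommGroup E] [NormedSpace ℂ E] [CompleteSpace E]
  (L : LocalRep Ch V E) (f : EE d → ℝ) (_ : IsTest Ch f) (A : 𝓢(EE d, ℂ)), ∃ C, 0 ≤ C ∧
    ∀ h, 0 < h → h ≤ 1 → ∀ v,
      ‖L.I f A h v - (f 0 : ℂ) • L.I Ch.χ A h v‖ ≤ C * h * ‖L.orb v 0‖

/-- A4: words in the `a j` act on the symbol side. -/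
def S_op_word : Prop := ∀ (d : ℕ) (Ch : Chart d) (V : Type u) [AddCommGroup V] [Module ℂ V]
  (E : Type v) [NormedAddCommGroup E] [NormedSpace ℂ E] [CompleteSpace E]
  (L : LocalRep Ch V E) (w : List (Fin d)) (c c' : 𝓢(EE d, ℂ)),
    (∀ ξ, c' ξ = (w.map (fun j => 2 * (Real.pi : ℂ) * Complex.I * (ξ j : ℂ))).prod * c ξ) →
    ∃ C, 0 ≤ C ∧ ∀ h, 0 < h → h ≤ 1 → ∀ v,
      ‖L.Op h c (((h : ℂ) ^ w.length) • (w.map L.a).prod v) - L.Op h c' v‖
        ≤ C * h * ‖L.orb v 0‖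

/-- A5: norm bound, halving of the scale, and the limit for scale `→ 0`. -/
def S_op_basic : Prop := ∀ (d : ℕ) (Ch : Chart d) (V : Type u) [AddCommGroup V] [Module ℂ V]
  (E : Type v) [NormedAddCommGroup E] [NormedSpace ℂ E] [CompleteSpace E]
  (L : LocalRep Ch V E),
    (∀ (c : 𝓢(EE d, ℂ)) (h : ℝ), 0 < h → ∀ v, ‖L.Op h c v‖ ≤ L.Cw * Wn c * ‖L.orb v 0‖) ∧
    (∀ (c c₁ c₂ : 𝓢(EE d, ℂ)) (h : ℝ), 0 < h → (∀ ξ, c ξ = c₁ ξ + c₂ ξ) →
      ∀ v, L.Op h c v = L.Op h c₁ v + L.Op h c₂ v) ∧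
    (∀ (c : 𝓢(EE d, ℂ)) (h : ℝ), 0 < h → ∀ (z : ℂ) v v', L.Op h c (z • v + v') =
      z • L.Op h c v + L.Op h c v') ∧
    (∀ (c c' : 𝓢(EE d, ℂ)) (h : ℝ), 0 < h → (∀ ξ, c' ξ = c ((2⁻¹ : ℝ) • ξ)) →
      ∀ v, L.Op (h / 2) c v = L.Op h c' v) ∧
    (∀ (c : 𝓢(EE d, ℂ)) (h : ℝ), 0 < h → ∀ v,
      Filter.Tendsto (fun n : ℕ => L.Op (h / 2 ^ n) c v) Filter.atTop (nhds (c 0 • L.orb v 0)))

/-- `z` is a homogeneous noncommutative polynomial of degree `D` in the `a j`, with symbol `s`. -/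
def HasSym {d : ℕ} {V : Type u} [AddCommGroup V] [Module ℂ V] (a : Fin d → Module.End ℂ V) (D : ℕ)
    (z : Module.End ℂ V) (s : EE d → ℂ) : Prop :=
  ∃ coef : (Fin D → Fin d) → ℂ, z = ∑ w, coef w • (List.ofFn (fun i => a (w i))).prod ∧
    ∀ ξ, s ξ = ∑ w, coef w * ∏ i, (2 * (Real.pi : ℂ) * Complex.I * (ξ (w i) : ℂ))

/-- A6': if `z` (homogeneous of degree `D ≥ 1`, symbol `s`) is annihilated by a monic polynomial on
`V`, then `Op_h(s^k c)` is `O(h)`, `k` the degree of the polynomial. -/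
def S_zsmall : Prop := ∀ (d : ℕ) (Ch : Chart d) (V : Type u) [AddCommGroup V] [Module ℂ V]
  (E : Type v) [NormedAddCommGroup E] [NormedSpace ℂ E] [CompleteSpace E]
  (L : LocalRep Ch V E) (z : Module.End ℂ V) (D : ℕ) (s : EE d → ℂ) (P : Polynomial ℂ),
    1 ≤ D → HasSym L.a D z s → P.Monic → Polynomial.aeval z P = 0 →
    ∀ c b : 𝓢(EE d, ℂ), (∀ ξ, b ξ = (s ξ) ^ P.natDegree * c ξ) →
    ∃ C, 0 ≤ C ∧ ∀ h, 0 < h → h ≤ 1 → ∀ v, ‖L.Op h b v‖ ≤ C * h * ‖L.orb v 0‖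

/-- A6: if a family of homogeneous elements `z j` (degree `D j ≥ 1`, symbol `s j`) is annihilated by
monic polynomials on `V`, then `Op_h(b)` is `O(h)` for `b` supported off the common zeros of the
symbols. -/
def S_elliptic : Prop := ∀ (d : ℕ) (Ch : Chart d) (V : Type u) [AddCommGroup V] [Module ℂ V]
  (E : Type v) [NormedAddCommGroup E] [NormedSpace ℂ E] [CompleteSpace E]
  (L : LocalRep Ch V E) (z : ℕ → Module.End ℂ V) (D : ℕ → ℕ) (s : ℕ → EE d → ℂ)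
  (P : ℕ → Polynomial ℂ), (∀ j, 1 ≤ D j) → (∀ j, HasSym L.a (D j) (z j) (s j)) →
    (∀ j, (P j).Monic) → (∀ j, Polynomial.aeval (z j) (P j) = 0) →
    ∀ b : 𝓢(EE d, ℂ), HasCompactSupport b → (∀ ξ ∈ tsupport b, ∃ j, s j ξ ≠ 0) →
    ∃ C, 0 ≤ C ∧ ∀ h, 0 < h → h ≤ 1 → ∀ v, ‖L.Op h b v‖ ≤ C * h * ‖L.orb v 0‖

/-- A7: approximate identity. `isK` marks the compact directions; the constant `C1` depends only on
the chart and `chi1`. -/
def S_approx : Prop := ∀ (d : ℕ) (Ch : Chart d) (isK : Fin d → Prop) [DecidablePred isK]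
  (chi1 : 𝓢(EE d, ℂ)), IsChi1 chi1 → ∃ C1, 0 ≤ C1 ∧
  ∀ (V : Type u) [AddCommGroup V] [Module ℂ V]
  (E : Type v) [NormedAddCommGroup E] [NormedSpace ℂ E] [CompleteSpace E]
  (L : LocalRep Ch V E) (z : Module.End ℂ V) (s : EE d → ℂ) (P : Polynomial ℂ),
    HasSym L.a 2 z s →
    (∀ ξ, s ξ = (2 * (Real.pi : ℂ) * Complex.I) ^ 2 *
      (((∑ i, if isK i then 0 else (ξ i) ^ 2) - (∑ i, if isK i then (ξ i) ^ 2 else 0) : ℝ) : ℂ)) →
    P.Monic → Polynomial.aeval z P = 0 →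
    ∃ C, 0 ≤ C ∧ ∀ h, 0 < h → h ≤ 1 → ∀ v,
      ‖L.orb v 0 - L.Op h chi1 v‖ ≤
        C1 * L.Cw * (∑ i, if isK i then h ^ 2 * ‖L.orb (L.a i (L.a i v)) 0‖ else 0)
          + C * h * ‖L.orb v 0‖

/-- A8: the partition lemma. -/
def S_partition : Prop := ∀ (d : ℕ) (chi1 : 𝓢(EE d, ℂ)), IsChi1 chi1 →
  ∃ Cs : ℕ → ℝ, (∀ s, 0 ≤ Cs s) ∧ ∀ NN : Set (EE d), IsClosed NN → ∀ δ : ℝ, 0 < δ → δ ≤ 1 →
  ∃ (m : ℕ) (a : Fin m → 𝓢(EE d, ℂ)) (p : Fin m → EE d),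
    (m : ℝ) ≤ Cs 0 * (δ⁻¹) ^ d ∧
    (∀ J, p J ∈ NN ∧ ‖p J‖ ≤ 3) ∧
    (∀ b : 𝓢(EE d, ℂ), (∀ ξ, b ξ = chi1 ξ - ∑ J, a J ξ) →
      HasCompactSupport b ∧ Disjoint (tsupport b) NN) ∧
    (∀ J, Wn (a J) ≤ Cs 0) ∧
    ∀ (J : Fin m) (s : ℕ) (Y : Fin s → EE d) (η : ℝ), 0 < η →
      (∀ i, |inner ℝ (p J) (Y i)| ≤ η) → (∀ i, δ * ‖Y i‖ ≤ η) →
      ∀ c : 𝓢(EE d, ℂ), (∀ ξ, c ξ = (∏ i, (inner ℝ ξ (Y i) : ℂ)) * a J ξ) → Wn c ≤ Cs s * η ^ s

end Calc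

/-! ### Part G: group side -/

/-- Frobenius norm of a real matrix. -/
noncomputable def fro {n : ℕ} (X : M n) : ℝ := Real.sqrt (∑ i, ∑ j, (X i j) ^ 2)

section Group

variable {G : Type} [Group G] [TopologicalSpace G]

/-- All the group-theoretic facts which are used: the lifted exponential map, an orthonormal basis of
the Lie algebra adapted to the Cartan decomposition, compactness of `K`. -/
structure Pack (R : RealReductive G) where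
  gam : R.lie → ℝ → G
  gam_spec : ∀ X, R.IsOneParam X (gam X)
  gam_unique : ∀ X γ, R.IsOneParam X γ → γ = gam X
  gam_conj : ∀ (g : G) X t, g * gam X t * g⁻¹ = gam (R.Ad g X) t
  gam_smul : ∀ (c : ℝ) X t, gam (c • X) t = gam X (c * t)
  gam_mem : ∀ X, R.IsSkew X → ∀ t, gam X t ∈ R.K
  gam_near : ∀ U ∈ nhds (1 : G), ∃ ε > 0, ∀ X : R.lie, fro X.1 < ε → gam X 1 ∈ U
  transpose_mem : ∀ X ∈ R.lie, Xᵀ ∈ R.lie
  compactK : CompactSpace R.K
  d : ℕ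
  X : Fin d → R.lie
  e : Fin d → ℝ
  e_cases : ∀ i, e i = 1 ∨ e i = -1
  X_transpose : ∀ i, (X i).1ᵀ = e i • (X i).1
  X_orth : ∀ i j, ((X i).1ᵀ * (X j).1).trace = if i = j then 1 else 0
  X_spans : ∀ Y : R.lie, Y = ∑ i, ((X i).1ᵀ * Y.1).trace • X i

namespace Pack

variable {R : RealReductive G} (P : Pack R)

/-- Coordinates with respect to the basis `X`. -/
noncomputable def co (Y : R.lie) : EE P.d := WithLp.toLp 2 (fun i => ((P.X i).1ᵀ * Y.1).trace)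

/-- `Π(y) = exp(y₁ X₁) ⋯ exp(y_d X_d)`. -/
noncomputable def Pi (y : EE P.d) : G := (List.ofFn fun i => P.gam (P.X i) (y i)).prod

/-- The matrix `Ξ(ξ)` attached to a frequency `ξ`: `ξ(Y) = tr(Ξ(ξ) Y)`. -/
noncomputable def Xi (ξ : EE P.d) : R.lie := ∑ i, (P.e i * ξ i) • P.X i

/-- The nilpotent frequencies. -/
def NN : Set (EE P.d) := {ξ | IsNilpotent (P.Xi ξ).1}

end Pack

/-- A globalization: a Banach representation containing `V`, with operator norms at most `w`. -/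
structure Glob {R : RealReductive G} {V : Type u} [AddCommGroup V] [Module ℂ V] (Mo : HCModule R V)
    (w : G → ℝ) (E : Type v) [NormedAddCommGroup E] [NormedSpace ℂ E] where
  ι : V →ₗ[ℂ] E
  π : G →* (E →L[ℂ] E)
  inj : Function.Injective ι
  cont : ∀ x, Continuous fun g => π g x
  kcomp : ∀ (k : R.K) v, π k.1 (ι v) = ι (Mo.kact k v)
  deriv : ∀ (X : R.lie) (γ : ℝ → G), R.IsOneParam X γ → ∀ v,
    HasDerivAt (fun t : ℝ => π (γ t) (ι v)) (ι (Mo.act X v)) 0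
  bound : ∀ g, ‖π g‖ ≤ w g

/-! ### statements of the group facts -/

/-- G1: all group facts hold. -/
def S_pack : Prop := ∀ (G : Type) [Group G] [TopologicalSpace G] [IsTopologicalGroup G] [T2Space G]
  [SecondCountableTopology G] (R : RealReductive G), Nonempty (Pack R)

/-- G2: the chart `Π` near the identity, and the local representations it gives. -/
def S_chart : Prop := ∀ (G : Type) [Group G] [TopologicalSpace G] [IsTopologicalGroup G] [T2Space G]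
  (R : RealReductive G) (P : Pack R),
  ∃ (Ch : Chart P.d) (q : Fin P.d → Fin P.d → EE P.d → ℝ),
    (∀ l j, ContDiff ℝ ∞ (q l j)) ∧ (∀ l j, q l j 0 = if l = j then 1 else 0) ∧
    (∀ l y, R.Ad (P.Pi y)⁻¹ (P.X l) = ∑ j, q l j y • P.X j) ∧
    ∀ w : G → ℝ, IsWeight w → ∃ Cw : ℝ, 0 ≤ Cw ∧
      ∀ (V : Type u) [AddCommGroup V] [Module ℂ V] (Mo : HCModule R V)
        (E : Type v) [NormedAddCommGroup E] [NormedSpace ℂ E] (Gl : Glob Mo w E),
      ∃ L : LocalRep Ch V E, L.Cw = Cw ∧ (∀ j, L.a j = Mo.act (P.X j)) ∧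
        ∀ v y, L.orb v y = Gl.π (P.Pi y) (Gl.ι v)

/-- The subgroup generated by all one-parameter subgroups. -/
def Pack.Gp {R : RealReductive G} (P : Pack R) : Subgroup G :=
  Subgroup.closure {g | ∃ X t, g = P.gam X t}

/-- C1: contraction of nilpotents. -/
def S_contract : Prop := ∀ (G : Type) [Group G] [TopologicalSpace G] [IsTopologicalGroup G]
  [T2Space G] (R : RealReductive G) (P : Pack R) (w : G → ℝ), IsWeight w →
  ∃ A B : ℝ, 1 ≤ A ∧ 1 ≤ B ∧ ∀ l : ℕ, ∀ ξ ∈ P.NN, ‖ξ‖ ≤ 3 → ∃ g ∈ P.Gp,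
    (∀ X : R.lie, R.IsSkew X → fro X.1 ≤ 1 → |inner ℝ ξ (P.co (R.Ad g⁻¹ X))| ≤ 3 * (2⁻¹ : ℝ) ^ l) ∧
    (∀ X : R.lie, R.IsSkew X → fro X.1 ≤ 1 → ‖P.co (R.Ad g⁻¹ X)‖ ≤ A ^ l) ∧
    w g * w g⁻¹ ≤ B ^ (l + 1)

/-- C2: a real matrix all of whose powers have trace `0` is nilpotent. -/
def S_nil : Prop := ∀ (n : ℕ) (A : M n), (∀ j : ℕ, (A ^ (j + 1)).trace = 0) → IsNilpotent A

/-- B1: the central elements. -/
def S_casimir : Prop := ∀ (G : Type) [Group G] [TopologicalSpace G] [IsTopologicalGroup G]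
  [T2Space G] (R : RealReductive G) (P : Pack R)
  (V : Type u) [AddCommGroup V] [Module ℂ V] (Mo : HCModule R V),
  ∃ (z : ℕ → Module.End ℂ V) (Q : ℕ → Polynomial ℂ), ∀ j,
    HasSym (fun i => Mo.act (P.X i)) (j + 1) (z j)
      (fun ξ => (2 * (Real.pi : ℂ) * Complex.I) ^ (j + 1) *
        ((((P.Xi ξ).1 ^ (j + 1)).trace : ℝ) : ℂ)) ∧
    (Q j).Monic ∧ Polynomial.aeval (z j) (Q j) = 0

/-! ### K-side -/

/-- A continuous orthogonal representation `σ` of `K` from which the entries of `ρ` can be read off. -/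
structure KRep (R : RealReductive G) where
  n' : ℕ
  σ : R.K →* Matrix (Fin n') (Fin n') ℝ
  cont : Continuous σ
  orth : ∀ k, (σ k)ᵀ * σ k = 1
  entries : ∀ i j : Fin R.n, ∃ c : Fin n' → Fin n' → ℝ, ∀ k : R.K,
    (R.ρ k.1 : M R.n) i j = ∑ a, ∑ b, c a b * σ k a b

namespace KRep

variable {R : RealReductive G} (s : KRep R)

/-- Complex polynomials of degree at most `N` in the entries of `σ`. -/
def W (N : ℕ) : Submodule ℂ (R.K → ℂ) where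
  carrier := {F | ∃ p : MvPolynomial (Fin s.n' × Fin s.n') ℂ, p.totalDegree ≤ N ∧
    ∀ k, F k = MvPolynomial.eval (fun ij => ((s.σ k ij.1 ij.2 : ℝ) : ℂ)) p}
  add_mem' := by
    rintro a b ⟨p, hp, hp'⟩ ⟨q, hq, hq'⟩
    exact ⟨p + q, (MvPolynomial.totalDegree_add _ _).trans (max_le hp hq), fun k => by
      simp [hp', hq']⟩
  zero_mem' := ⟨0, by simp, fun k => by simp⟩
  smul_mem' := by
    rintro c a ⟨p, hp, hp'⟩
    exact ⟨c • p, (MvPolynomial.totalDegree_smul_le _ _).trans hp, fun k => by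
      simp [hp']⟩

/-- Vectors whose matrix coefficients are polynomials of degree at most `N`. -/
def U {V : Type u} [AddCommGroup V] [Module ℂ V] (Mo : HCModule R V) (N : ℕ) : Submodule ℂ V where
  carrier := {v | ∀ f : V →ₗ[ℂ] ℂ, (fun k => f (Mo.kact k v)) ∈ s.W N}
  add_mem' := by
    intro a b ha hb f
    simpa [Pi.add_def] using (s.W N).add_mem (ha f) (hb f)
  zero_mem' := by
    intro f
    have h : (fun k => f (Mo.kact k 0)) = 0 := by ext; simp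
    rw [h]; exact (s.W N).zero_mem
  smul_mem' := by
    intro c a ha f
    simpa [Pi.smul_def] using (s.W N).smul_mem c (ha f)

/-- The kernel of `σ` acts trivially. -/
def Triv {V : Type u} [AddCommGroup V] [Module ℂ V] (Mo : HCModule R V) : Prop :=
  ∀ k, s.σ k = 1 → Mo.kact k = 1

/-- distance from the kernel of `σ` -/
noncomputable def dist (k : R.K) : ℝ := fro (s.σ k - 1)

end KRep

/-- K0: existence of `σ` for a given module. -/
def S_krep : Prop := ∀ (G : Type) [Group G] [TopologicalSpace G] [IsTopologicalGroup G]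
  [T2Space G] [SecondCountableTopology G] (R : RealReductive G) (_ : Pack R)
  (V : Type u) [AddCommGroup V] [Module ℂ V] (Mo : HCModule R V),
  ∃ s : KRep R, s.Triv Mo ∧ ∀ k : R.K, R.ρ k.1 = 1 → Mo.kact k = 1 → s.σ k = 1

/-- K1: elements of `K` close to the kernel of `σ`. -/
def S_near : Prop := ∀ (G : Type) [Group G] [TopologicalSpace G] [IsTopologicalGroup G]
  [T2Space G] [SecondCountableTopology G] (R : RealReductive G) (P : Pack R) (s : KRep R),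
  ∃ r₀ > 0, ∃ C : ℝ, 0 ≤ C ∧ ∀ k : R.K, s.dist k < r₀ → ∃ f : R.K, s.σ f = 1 ∧
    ∃ X : R.lie, R.IsSkew X ∧ k.1 = f.1 * P.gam X 1 ∧ fro X.1 ≤ C * s.dist k

/-- K2: the kernels. -/
def S_kernel : Prop := ∀ (G : Type) [Group G] [TopologicalSpace G] [IsTopologicalGroup G]
  [T2Space G] [SecondCountableTopology G] (R : RealReductive G) (_ : Pack R) (s : KRep R)
  [MeasurableSpace R.K] [BorelSpace R.K] (μ : Measure R.K) [μ.IsHaarMeasure]
  [IsProbabilityMeasure μ],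
  ∃ (C₂ : ℕ) (C₃ : ℝ), 1 ≤ C₂ ∧ 0 ≤ C₃ ∧ ∀ N : ℕ, 1 ≤ N → ∃ f : R.K → ℝ,
    (fun k => (f k : ℂ)) ∈ s.W (C₂ * N) ∧ (∀ k, 0 ≤ f k) ∧ ∫ k, f k ∂μ = 1 ∧
    ∫ k, f k * s.dist k ∂μ ≤ C₃ / N

/-- K3: Bernstein's inequality for polynomials on `K`. -/
def S_bern : Prop := ∀ (G : Type) [Group G] [TopologicalSpace G] [IsTopologicalGroup G]
  [T2Space G] [SecondCountableTopology G] (R : RealReductive G) (P : Pack R) (s : KRep R),
  ∃ CB : ℝ, 0 ≤ CB ∧ ∀ (N : ℕ) (F : R.K → ℂ), F ∈ s.W N → ∀ (X : R.lie) (hX : R.IsSkew X)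
    (S : ℝ), (∀ k, ‖F k‖ ≤ S) → ∀ k : R.K, ∃ D : ℂ,
      HasDerivAt (fun t : ℝ => F (k * ⟨P.gam X t, P.gam_mem X hX t⟩)) D 0 ∧
      ‖D‖ ≤ CB * N * fro X.1 * S

/-- K4: the spaces `U N`: stability properties. -/
def S_U : Prop := ∀ (G : Type) [Group G] [TopologicalSpace G] [IsTopologicalGroup G]
  [T2Space G] [SecondCountableTopology G] (R : RealReductive G) (_ : Pack R) (s : KRep R)
  (V : Type u) [AddCommGroup V] [Module ℂ V] (Mo : HCModule R V),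
  (∀ N M, N ≤ M → s.U Mo N ≤ s.U Mo M) ∧
  (∀ N (k : R.K), ∀ v ∈ s.U Mo N, Mo.kact k v ∈ s.U Mo N) ∧
  (∀ N (X : R.lie), ∀ v ∈ s.U Mo N, Mo.act X v ∈ s.U Mo (N + 2)) ∧
  (∀ N (X : R.lie), R.IsSkew X → ∀ v ∈ s.U Mo N, Mo.act X v ∈ s.U Mo N)

/-- K5: the spaces `U N` are finite-dimensional and exhaust `V`. -/
def S_Ufin : Prop := ∀ (G : Type) [Group G] [TopologicalSpace G] [IsTopologicalGroup G]
  [T2Space G] [SecondCountableTopology G] (R : RealReductive G) (_ : Pack R) (s : KRep R)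
  (V : Type u) [AddCommGroup V] [Module ℂ V] (Mo : HCModule R V), s.Triv Mo →
  (∀ N, FiniteDimensional ℂ (s.U Mo N)) ∧ (∀ v, ∃ N, v ∈ s.U Mo N)

/-- K6: averaging maps `V` into `U N`, uniformly for all globalizations, and the closure of `V` too. -/
def S_avg : Prop := ∀ (G : Type) [Group G] [TopologicalSpace G] [IsTopologicalGroup G]
  [T2Space G] [SecondCountableTopology G] (R : RealReductive G) (_ : Pack R) (s : KRep R)
  [MeasurableSpace R.K] [BorelSpace R.K] (μ : Measure R.K) [μ.IsHaarMeasure]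
  [IsProbabilityMeasure μ]
  (V : Type u) [AddCommGroup V] [Module ℂ V] (Mo : HCModule R V), s.Triv Mo →
  ∀ (w : G → ℝ) (E : Type v) [NormedAddCommGroup E] [NormedSpace ℂ E] [CompleteSpace E]
    (Gl : Glob Mo w E) (N : ℕ) (f : R.K → ℝ), (fun k => (f k : ℂ)) ∈ s.W N →
    ∀ x ∈ closure (Set.range Gl.ι), ∃ t ∈ s.U Mo N, ∫ k : R.K, (f k : ℂ) • Gl.π k.1 x ∂μ = Gl.ι t

/-- K7: eigenvectors of the Laplacian. -/
def S_eig : Prop := ∀ (G : Type) [Group G] [TopologicalSpace G] [IsTopologicalGroup G]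
  [T2Space G] [SecondCountableTopology G] (R : RealReductive G) (_ : Pack R) (s : KRep R)
  (B : R.InvBasis), ∃ C₀ : ℝ, 0 ≤ C₀ ∧
  ∀ (V : Type u) [AddCommGroup V] [Module ℂ V] (Mo : HCModule R V), s.Triv Mo →
    (∀ (c : ℝ) v, v ≠ 0 → lap Mo B v = (c : ℂ) • v → 0 ≤ c) ∧
    (∀ v, ∃ f : ℝ →₀ V, (∀ c, lap Mo B (f c) = (c : ℂ) • f c) ∧ v = f.sum fun _ x => x) ∧
    (∀ (c : ℝ) v, v ≠ 0 → lap Mo B v = (c : ℂ) • v → ∀ N : ℕ, C₀ * (1 + Real.sqrt c) ≤ N →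
      v ∈ s.U Mo N)

/-- K8: the spectral projections have polynomially bounded norm. -/
def S_proj : Prop := ∀ (G : Type) [Group G] [TopologicalSpace G] [IsTopologicalGroup G]
  [T2Space G] [SecondCountableTopology G] (R : RealReductive G) (_ : Pack R) (s : KRep R)
  (B : R.InvBasis) (w : G → ℝ), IsWeight w → ∃ CK : ℝ, 0 ≤ CK ∧
  ∀ (V : Type u) [AddCommGroup V] [Module ℂ V] (Mo : HCModule R V), s.Triv Mo →
  ∀ (E : Type v) [NormedAddCommGroup E] [NormedSpace ℂ E] [CompleteSpace E] (Gl : Glob Mo w E)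
    (f : ℝ →₀ V), (∀ c, lap Mo B (f c) = (c : ℂ) • f c) → ∀ (c : ℝ) (N : ℕ), f c ∈ s.U Mo N →
    ‖Gl.ι (f c)‖ ≤ CK * (N + 1 : ℝ) ^ (s.n' ^ 2) * ‖Gl.ι (f.sum fun _ x => x)‖

/-- K9: the number of eigenvalues is polynomially bounded. -/
def S_count : Prop := ∀ (G : Type) [Group G] [TopologicalSpace G] [IsTopologicalGroup G]
  [T2Space G] [SecondCountableTopology G] (R : RealReductive G) (_ : Pack R) (s : KRep R)
  (B : R.InvBasis)
  (V : Type u) [AddCommGroup V] [Module ℂ V] (Mo : HCModule R V), s.Triv Mo →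
  ∀ (N : ℕ) (T : Finset ℝ), (∀ c ∈ T, ∃ v ∈ s.U Mo N, v ≠ 0 ∧ lap Mo B v = (c : ℂ) • v) →
    (T.card : ℝ) ≤ (N + 1 : ℝ) ^ (s.n' ^ 2)

/-! ### Left calculus -/

/-- derivative of `A` in the direction `y` -/
noncomputable def pdir {d : ℕ} (y : EE d) (A : 𝓢(EE d, ℂ)) : 𝓢(EE d, ℂ) := ∑ j, (y j : ℂ) • pd j A

/-- LC: for `u = π(g₀) I(χ, A; h, v)`, products of the operators `1 - π(k)` applied to `u`. -/
def S_left : Prop := ∀ (G : Type) [Group G] [TopologicalSpace G] [IsTopologicalGroup G] [T2Space G]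
  (R : RealReductive G) (P : Pack R) (Ch : Chart P.d) (q : Fin P.d → Fin P.d → EE P.d → ℝ),
    (∀ l j, ContDiff ℝ ∞ (q l j)) → (∀ l j, q l j 0 = if l = j then 1 else 0) →
    (∀ l y, R.Ad (P.Pi y)⁻¹ (P.X l) = ∑ j, q l j y • P.X j) →
  ∀ (w : G → ℝ) (V : Type u) [AddCommGroup V] [Module ℂ V] (Mo : HCModule R V)
    (E : Type v) [NormedAddCommGroup E] [NormedSpace ℂ E] [CompleteSpace E] (Gl : Glob Mo w E)
    (L : LocalRep Ch V E), (∀ j, L.a j = Mo.act (P.X j)) →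
    (∀ v y, L.orb v y = Gl.π (P.Pi y) (Gl.ι v)) →
  ∀ (CK : ℝ), (∀ k : R.K, w k.1 ≤ CK) → ∀ (g₀ : G) (A : 𝓢(EE P.d, ℂ)) (m : ℕ) (D θ : ℝ), 0 < θ →
    0 ≤ D →
    (∀ s ≤ m, ∀ Xs : List R.lie, Xs.length = s → (∀ X ∈ Xs, R.IsSkew X ∧ fro X.1 ≤ 1) →
      L1 (Xs.foldr (fun X B => pdir (P.co (R.Ad g₀⁻¹ X)) B) A) ≤ D * θ ^ s) →
    ∃ h₀ > 0, ∀ h, 0 < h → h < h₀ → ∀ v, ∀ (α : R.K → ℝ) (ks : List R.K), ks.length ≤ m →
      (∀ k ∈ ks, 2 ≤ α k ∨ ∃ X : R.lie, R.IsSkew X ∧ Gl.π k.1 = Gl.π (P.gam X 1) ∧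
        fro X.1 * θ / h ≤ α k) →
      ‖(ks.map (fun k => 1 - Gl.π k.1)).prod (Gl.π g₀ (L.I Ch.χ A h v))‖ ≤
        CK * w g₀ * L.Cw * (D + 1) * (ks.map α).prod * ‖Gl.ι v‖

end Group

end Pool.Agent.H913.SG
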