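import Pool.Agent.H913.SG.Stmts

/-! Further statements: finer pieces of the parts in `Stmts`. Only propositions and definitions. -/

open MeasureTheory Matrix NormedSpace
open scoped SchwartzMap ContDiff FourierTransform Matrix

universe u v

namespace Pool.Agent.H913.SG

/-! ### Calculus -/

/-- A9: homogeneous elements act on the symbol side. -/
def S_op_sym : Prop := ∀ (d : ℕ) (Ch : Chart d) (V : Type u) [AddCommGroup V] [Module ℂ V]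
  (E : Type v) [NormedAddCommGroup E] [NormedSpace ℂ E] [CompleteSpace E]
  (L : LocalRep Ch V E) (z : Module.End ℂ V) (D : ℕ) (s : EE d → ℂ), HasSym L.a D z s →
    ∀ c b : 𝓢(EE d, ℂ), (∀ ξ, b ξ = s ξ * c ξ) →
    ∃ C, 0 ≤ C ∧ ∀ h, 0 < h → h ≤ 1 → ∀ v,
      ‖L.Op h c (((h : ℂ) ^ D) • z v) - L.Op h b v‖ ≤ C * h * ‖L.orb v 0‖

/-- A10: powers of homogeneous elements. -/
def S_sym_pow : Prop := ∀ (d : ℕ) (V : Type u) [AddCommGroup V] [Module ℂ V]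
  (a : Fin d → Module.End ℂ V) (z : Module.End ℂ V) (D : ℕ) (s : EE d → ℂ), HasSym a D z s →
    ∀ k : ℕ, HasSym a (D * k) (z ^ k) (fun ξ => s ξ ^ k)

/-- A11: a symbol times a Schwartz function is a Schwartz function. -/
def S_sym_schwartz : Prop := ∀ (d : ℕ) (V : Type u) [AddCommGroup V] [Module ℂ V]
  (a : Fin d → Module.End ℂ V) (z : Module.End ℂ V) (D : ℕ) (s : EE d → ℂ), HasSym a D z s →
    ∀ c : 𝓢(EE d, ℂ), ∃ b : 𝓢(EE d, ℂ), ∀ ξ, b ξ = s ξ * c ξ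

/-- A12: a smooth partition of unity by translates. -/
def S_psi : Prop := ∀ d : ℕ, ∃ ψ : EE d → ℝ, ContDiff ℝ ∞ ψ ∧ (∀ x, ψ x ≠ 0 → ∀ i, |x i| ≤ 1) ∧
  (∀ x, 0 ≤ ψ x) ∧ ∀ x, ∑ᶠ J : Fin d → ℤ, ψ (x - WithLp.toLp 2 (fun i => (J i : ℝ))) = 1

/-- A13: the Wiener norm is bounded by finitely many derivatives. -/
def S_Wn_C : Prop := ∀ (d : ℕ) (R : ℝ), ∃ C, 0 ≤ C ∧ ∀ (c : 𝓢(EE d, ℂ)) (B : ℝ),
  (∀ x, c x ≠ 0 → ‖x‖ ≤ R) → (∀ k ≤ d + 1, ∀ x, ‖iteratedFDeriv ℝ k c x‖ ≤ B) → Wn c ≤ C * B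

/-- A14: the Wiener norm is invariant under dilations and translations. -/
def S_Wn_dil : Prop := ∀ (d : ℕ) (c c' : 𝓢(EE d, ℂ)) (δ : ℝ) (y : EE d), 0 < δ →
  (∀ x, c' x = c (δ • (x + y))) → Wn c' = Wn c

/-- A15: directional derivatives of a Fourier transform. -/
def S_L1_pdir : Prop := ∀ (d : ℕ) (a c : 𝓢(EE d, ℂ)) (s : ℕ) (Y : Fin s → EE d),
  (∀ ξ, c ξ = (∏ i, (inner ℝ ξ (Y i) : ℂ)) * a ξ) →
  L1 ((List.ofFn Y).foldr (fun y B => pdir y B) (𝓕 a)) = (2 * Real.pi) ^ s * Wn c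

/-- A16: multiplication of a Schwartz function by linear functions. -/
def S_mul_lin : Prop := ∀ (d : ℕ) (a : 𝓢(EE d, ℂ)) (s : ℕ) (Y : Fin s → EE d),
  ∃ c : 𝓢(EE d, ℂ), ∀ ξ, c ξ = (∏ i, (inner ℝ ξ (Y i) : ℂ)) * a ξ

/-- A17: existence of the cutoff on the frequency side. -/
def S_chi1 : Prop := ∀ d : ℕ, ∃ c : 𝓢(EE d, ℂ), IsChi1 c

/-! ### Group side -/

/-- G3: a local section of `ρ`. -/
def S_section : Prop := ∀ (G : Type) [Group G] [TopologicalSpace G] [IsTopologicalGroup G] [T2Space G]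
  (R : RealReductive G), ∃ (U : Set G) (W : Set R.GR) (s : R.GR → G), IsOpen U ∧ (1 : G) ∈ U ∧
    IsOpen W ∧ (1 : R.GR) ∈ W ∧ ContinuousOn s W ∧ (∀ x ∈ W, s x ∈ U ∧ R.ρ (s x) = x.1) ∧
    ∀ g ∈ U, (⟨R.ρ g, R.ρ_mem g⟩ : R.GR) ∈ W ∧ s ⟨R.ρ g, R.ρ_mem g⟩ = g

/-- G4: the lifted one-parameter groups. -/
def S_gam : Prop := ∀ (G : Type) [Group G] [TopologicalSpace G] [IsTopologicalGroup G] [T2Space G]
  (R : RealReductive G), ∃ gam : R.lie → ℝ → G, (∀ X, R.IsOneParam X (gam X)) ∧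
    ∀ U ∈ nhds (1 : G), ∃ ε > 0, ∀ X : R.lie, fro X.1 < ε → gam X 1 ∈ U

/-- G5: `K` is compact. -/
def S_compactK : Prop := ∀ (G : Type) [Group G] [TopologicalSpace G] [IsTopologicalGroup G]
  [T2Space G] [SecondCountableTopology G] (R : RealReductive G), CompactSpace R.K

/-- G6: an adapted orthonormal basis of the Lie algebra. -/
def S_basis : Prop := ∀ (G : Type) [Group G] [TopologicalSpace G] (R : RealReductive G),
  (∀ X ∈ R.lie, Xᵀ ∈ R.lie) ∧ ∃ (d : ℕ) (X : Fin d → R.lie) (e : Fin d → ℝ),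
    (∀ i, e i = 1 ∨ e i = -1) ∧ (∀ i, (X i).1ᵀ = e i • (X i).1) ∧
    (∀ i j, ((X i).1ᵀ * (X j).1).trace = if i = j then 1 else 0) ∧
    (∀ Y : R.lie, Y = ∑ i, ((X i).1ᵀ * Y.1).trace • X i)

/-- G7: a chart from smooth coefficients. -/
def S_chartAux : Prop := ∀ (d : ℕ) (N : Fin d → Fin d → EE d → ℝ), (∀ i j, ContDiff ℝ ∞ (N i j)) →
  (∀ i j, N i j 0 = if i = j then 1 else 0) → ∃ Ch : Chart d, Ch.N = N

/-- G8: translations of `Π`. -/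
def S_chartGrp : Prop := ∀ (G : Type) [Group G] [TopologicalSpace G] [IsTopologicalGroup G] [T2Space G]
  (R : RealReductive G) (P : Pack R), ∃ (N q : Fin P.d → Fin P.d → EE P.d → ℝ),
    (∀ i j, ContDiff ℝ ∞ (N i j)) ∧ (∀ i j, N i j 0 = if i = j then 1 else 0) ∧
    (∀ l j, ContDiff ℝ ∞ (q l j)) ∧ (∀ l j, q l j 0 = if l = j then 1 else 0) ∧
    (∀ l y, R.Ad (P.Pi y)⁻¹ (P.X l) = ∑ j, q l j y • P.X j) ∧
    Continuous P.Pi ∧ P.Pi 0 = 1 ∧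
    ∀ (i : Fin P.d) (y : EE P.d) (t : ℝ),
      P.Pi (y + t • ei i) = P.Pi y * P.gam (∑ j, N i j y • P.X j) t

/-- C3: orbits of nilpotent elements come close to zero. -/
def S_con1 : Prop := ∀ (G : Type) [Group G] [TopologicalSpace G] [IsTopologicalGroup G]
  [T2Space G] (R : RealReductive G) (P : Pack R) (X : R.lie), IsNilpotent X.1 → ∀ ε : ℝ, 0 < ε →
    ∃ g ∈ P.Gp, fro (R.Ad g X).1 < ε

section Casimir

variable {G : Type} [Group G] [TopologicalSpace G] {R : RealReductive G}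
  {V : Type u} [AddCommGroup V] [Module ℂ V]

/-- The matrix `∑ᵢ eᵢ Xᵢ ⊗ aᵢ`. -/
noncomputable def casMat (P : Pack R) (Mo : HCModule R V) :
    Matrix (Fin R.n) (Fin R.n) (Module.End ℂ V) :=
  fun a b => ∑ i, ((P.e i * (P.X i).1 a b : ℝ) : ℂ) • Mo.act (P.X i)

/-- The central elements `tr (𝐗^(j+1))`. -/
noncomputable def casZ (P : Pack R) (Mo : HCModule R V) (j : ℕ) : Module.End ℂ V :=
  (casMat P Mo ^ (j + 1)).trace

end Casimir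

/-- B2: symbol of `casZ`. -/
def S_cas_sym : Prop := ∀ (G : Type) [Group G] [TopologicalSpace G] (R : RealReductive G) (P : Pack R)
  (V : Type u) [AddCommGroup V] [Module ℂ V] (Mo : HCModule R V) (j : ℕ),
    HasSym (fun i => Mo.act (P.X i)) (j + 1) (casZ P Mo j)
      (fun ξ => (2 * (Real.pi : ℂ) * Complex.I) ^ (j + 1) *
        ((((P.Xi ξ).1 ^ (j + 1)).trace : ℝ) : ℂ))

/-- B3: `casZ` is central. -/
def S_cas_comm : Prop := ∀ (G : Type) [Group G] [TopologicalSpace G] (R : RealReductive G)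
  (P : Pack R) (V : Type u) [AddCommGroup V] [Module ℂ V] (Mo : HCModule R V) (j : ℕ),
    (∀ X, Mo.act X * casZ P Mo j = casZ P Mo j * Mo.act X) ∧
    (∀ k, Mo.kact k * casZ P Mo j = casZ P Mo j * Mo.kact k)

/-- B4: central elements are algebraic. -/
def S_ann : Prop := ∀ (G : Type) [Group G] [TopologicalSpace G] (R : RealReductive G)
  (V : Type u) [AddCommGroup V] [Module ℂ V] (Mo : HCModule R V) (z : Module.End ℂ V),
    (∀ X, Mo.act X * z = z * Mo.act X) → (∀ k, Mo.kact k * z = z * Mo.kact k) →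
    ∃ Q : Polynomial ℂ, Q.Monic ∧ Polynomial.aeval z Q = 0

/-! ### K-side -/

/-- K10: orthogonal matrices in `GR` near the identity. -/
def S_nearMat : Prop := ∀ (G : Type) [Group G] [TopologicalSpace G] (R : RealReductive G),
  ∃ ε > 0, ∃ C : ℝ, 0 ≤ C ∧ ∀ a ∈ R.GR, (a : M R.n)ᵀ * (a : M R.n) = 1 →
    fro ((a : M R.n) - 1) < ε →
    ∃ X : R.lie, R.IsSkew X ∧ exp X.1 = (a : M R.n) ∧ fro X.1 ≤ C * fro ((a : M R.n) - 1)

/-- K11: Fejér type polynomials. -/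
def S_fejer : Prop := ∀ N : ℕ, 1 ≤ N → ∃ F : Polynomial ℝ, F.natDegree ≤ N ∧
  ∀ x : ℝ, -1 ≤ x → x ≤ 1 → 0 ≤ F.eval x ∧ F.eval x ≤ 1 ∧ F.eval x * ((N : ℝ) ^ 2 * (1 - x)) ≤ 2 ∧
    ((N : ℝ) ^ 2 * (1 - x) ≤ 1 → 1 / 4 ≤ F.eval x)

/-- K12: doubling. -/
def S_doubling : Prop := ∀ (G : Type) [Group G] [TopologicalSpace G] [IsTopologicalGroup G]
  [T2Space G] [SecondCountableTopology G] (R : RealReductive G) (_ : Pack R) (s : KRep R)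
  [MeasurableSpace R.K] [BorelSpace R.K] (μ : Measure R.K) [μ.IsHaarMeasure]
  [IsProbabilityMeasure μ],
  Continuous s.dist ∧ (∀ r : ℝ, 0 < r → 0 < μ.real {k | s.dist k ≤ r}) ∧
  ∀ r : ℝ, 0 < r → μ.real {k | s.dist k ≤ 2 * r} ≤ 5 ^ (s.n' ^ 2) * μ.real {k | s.dist k ≤ r}

/-- K13: the integral estimate over dyadic shells. -/
def S_shells : Prop := ∀ (Dd c₁ c₂ Bd : ℝ), 1 ≤ Dd → 0 < c₁ → 0 < c₂ → 0 < Bd →
  ∃ (m : ℕ) (C : ℝ), 1 ≤ m ∧ 0 ≤ C ∧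
  ∀ (K : Type) [MeasurableSpace K] (μ : Measure K) [IsProbabilityMeasure μ] (δ : K → ℝ),
    Measurable δ → (∀ k, 0 ≤ δ k ∧ δ k ≤ Bd) → (∀ r : ℝ, 0 < r → 0 < μ.real {k | δ k ≤ r}) →
    (∀ r : ℝ, 0 < r → μ.real {k | δ k ≤ 2 * r} ≤ Dd * μ.real {k | δ k ≤ r}) →
    ∀ (N : ℕ) (F : K → ℝ), 1 ≤ N → Measurable F → (∀ k, 0 ≤ F k ∧ F k ≤ 1) →
      (∀ k, F k * (N * δ k) ^ 2 ≤ c₁) → (∀ k, N * δ k ≤ c₂ → 1 / 4 ≤ F k) →
      0 < ∫ k, F k ^ m ∂μ ∧ ∫ k, F k ^ m * δ k ∂μ ≤ C / N * ∫ k, F k ^ m ∂μ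

/-- K14: oscillation of `σ` along one-parameter groups. -/
def S_osc : Prop := ∀ (G : Type) [Group G] [TopologicalSpace G] [IsTopologicalGroup G]
  [T2Space G] [SecondCountableTopology G] (R : RealReductive G) (P : Pack R) (s : KRep R),
  ∃ C₀ : ℝ, 0 ≤ C₀ ∧ ∀ (X : R.lie) (hX : R.IsSkew X), ∃ (om : Fin s.n' → ℝ)
    (c : Fin s.n' → Fin s.n' → Fin s.n' → ℂ), (∀ j, |om j| ≤ C₀ * fro X.1) ∧
    ∀ a b (t : ℝ), ((s.σ ⟨P.gam X t, P.gam_mem X hX t⟩ a b : ℝ) : ℂ) =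
      ∑ j, c a b j * Complex.exp (Complex.I * ((om j * t : ℝ) : ℂ))

/-- K15: Bernstein's inequality for trigonometric sums. -/
def S_bernR : Prop := ∃ C : ℝ, 0 ≤ C ∧ ∀ (m : ℕ) (c : Fin m → ℂ) (om : Fin m → ℝ) (Ω S : ℝ),
  0 ≤ Ω → (∀ j, |om j| ≤ Ω) →
  (∀ t : ℝ, ‖∑ j, c j * Complex.exp (Complex.I * ((om j * t : ℝ) : ℂ))‖ ≤ S) →
  ‖∑ j, c j * (Complex.I * ((om j : ℝ) : ℂ))‖ ≤ C * Ω * S

/-- K16: the spaces `W N`. -/
def S_W : Prop := ∀ (G : Type) [Group G] [TopologicalSpace G] (R : RealReductive G) (s : KRep R),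
  (∀ N M, N ≤ M → s.W N ≤ s.W M) ∧
  (∀ N M F H, F ∈ s.W N → H ∈ s.W M → (fun k => F k * H k) ∈ s.W (N + M)) ∧
  (∀ N F, F ∈ s.W N → Continuous F) ∧
  (∀ N F, F ∈ s.W N → (fun k => (starRingEnd ℂ) (F k)) ∈ s.W N) ∧
  (∀ N F, F ∈ s.W N → (fun k => F k⁻¹) ∈ s.W N) ∧
  (∀ N F k₀, F ∈ s.W N → (fun k => F (k₀ * k)) ∈ s.W N ∧ (fun k => F (k * k₀)) ∈ s.W N) ∧
  (∀ N F k k', F ∈ s.W N → s.σ k = s.σ k' → F k = F k') ∧
  (∀ N, FiniteDimensional ℂ (s.W N)) ∧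
  (∀ N, Module.finrank ℂ (s.W N) ≤ (N + 1) ^ (s.n' ^ 2)) ∧
  (∀ N F, F ∈ s.W N → ∃ (m : ℕ) (F₁ F₂ : Fin m → R.K → ℂ), (∀ i, F₁ i ∈ s.W N ∧ F₂ i ∈ s.W N) ∧
    ∀ k k', F (k * k') = ∑ i, F₁ i k * F₂ i k')

/-- K17: finite multiplicities for all finite-dimensional representations. -/
def S_homfin : Prop := ∀ (G : Type) [Group G] [TopologicalSpace G] (R : RealReductive G)
  (V : Type u) [AddCommGroup V] [Module ℂ V] (Mo : HCModule R V) (m : ℕ)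
  (τ : R.K →* Module.End ℂ (Fin m → ℂ)),
  (∀ v (f : (Fin m → ℂ) →ₗ[ℂ] ℂ), Continuous fun k => f (τ k v)) →
    FiniteDimensional ℂ (homK R Mo.kact τ)

/-- K18: invariant inner products on finite-dimensional `K`-stable subspaces. -/
def S_inner : Prop := ∀ (G : Type) [Group G] [TopologicalSpace G] [IsTopologicalGroup G]
  [T2Space G] [SecondCountableTopology G] (R : RealReductive G) (_ : Pack R)
  (V : Type u) [AddCommGroup V] [Module ℂ V] (Mo : HCModule R V) (U : Submodule ℂ V),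
  FiniteDimensional ℂ U → (∀ k, ∀ v ∈ U, Mo.kact k v ∈ U) →
  (∀ X : R.lie, R.IsSkew X → ∀ x ∈ U, Mo.act X x ∈ U) ∧
  ∃ ip : V → V → ℂ,
    (∀ x ∈ U, ∀ y ∈ U, ∀ z ∈ U, ∀ c : ℂ, ip x (c • y + z) = c * ip x y + ip x z) ∧
    (∀ x ∈ U, ∀ y ∈ U, ip y x = (starRingEnd ℂ) (ip x y)) ∧
    (∀ x ∈ U, x ≠ 0 → 0 < (ip x x).re) ∧
    (∀ k, ∀ x ∈ U, ∀ y ∈ U, ip (Mo.kact k x) (Mo.kact k y) = ip x y) ∧
    (∀ X : R.lie, R.IsSkew X → ∀ x ∈ U, ∀ y ∈ U, ip (Mo.act X x) y = - ip x (Mo.act X y))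

/-- K19: Lipschitz bound for `W N`. -/
def S_lip : Prop := ∀ (G : Type) [Group G] [TopologicalSpace G] [IsTopologicalGroup G]
  [T2Space G] [SecondCountableTopology G] (R : RealReductive G) (_ : Pack R) (s : KRep R),
  ∃ C : ℝ, 0 ≤ C ∧ ∀ (N : ℕ), 1 ≤ N → ∀ (F : R.K → ℂ), F ∈ s.W N → ∀ S : ℝ, (∀ k, ‖F k‖ ≤ S) →
    ∀ k, ‖F k - F 1‖ ≤ C * N * s.dist k * S

/-- K20: recovering vectors from averages. -/
def S_recover : Prop := ∀ (G : Type) [Group G] [TopologicalSpace G] [IsTopologicalGroup G]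
  [T2Space G] [SecondCountableTopology G] (R : RealReductive G) (_ : Pack R) (s : KRep R)
  [MeasurableSpace R.K] [BorelSpace R.K] (μ : Measure R.K) [μ.IsHaarMeasure]
  [IsProbabilityMeasure μ]
  (V : Type u) [AddCommGroup V] [Module ℂ V] (Mo : HCModule R V) (U : Submodule ℂ V),
  FiniteDimensional ℂ U → (∀ k, ∀ v ∈ U, Mo.kact k v ∈ U) →
  ∀ ν : V → ℝ, (∀ x ∈ U, ∀ y ∈ U, ν (x + y) ≤ ν x + ν y) →
    (∀ c : ℂ, ∀ x ∈ U, ν (c • x) = ‖c‖ * ν x) → (∀ x ∈ U, x ≠ 0 → 0 < ν x) →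
  ∀ e₀ Λ ε : ℝ, 0 ≤ Λ →
    (∀ k, ∀ x ∈ U, ν (Mo.kact k x - x) ≤ (e₀ + Λ * s.dist k) * ν x) →
  ∀ (N : ℕ) (f : R.K → ℝ), (fun k => (f k : ℂ)) ∈ s.W N → (∀ k, 0 ≤ f k) → ∫ k, f k ∂μ = 1 →
    ∫ k, f k * s.dist k ∂μ ≤ ε → e₀ + Λ * ε < 1 →
  ∀ x ∈ U, ∃ y ∈ U, ∀ φ : V →ₗ[ℂ] ℂ, φ x = ∫ k, (f k : ℂ) * φ (Mo.kact k y) ∂μ

/-- K21: averages exist and lie in `U N`. -/
def S_avgV : Prop := ∀ (G : Type) [Group G] [TopologicalSpace G] [IsTopologicalGroup G]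
  [T2Space G] [SecondCountableTopology G] (R : RealReductive G) (_ : Pack R) (s : KRep R)
  [MeasurableSpace R.K] [BorelSpace R.K] (μ : Measure R.K) [μ.IsHaarMeasure]
  [IsProbabilityMeasure μ]
  (V : Type u) [AddCommGroup V] [Module ℂ V] (Mo : HCModule R V),
  (∀ f : R.K → ℂ, Continuous f → ∀ y : V, ∃ x ∈ Submodule.span ℂ (Set.range fun k => Mo.kact k y),
    ∀ φ : V →ₗ[ℂ] ℂ, φ x = ∫ k, f k * φ (Mo.kact k y) ∂μ) ∧
  ∀ (N : ℕ) (f : R.K → ℂ), f ∈ s.W N → ∀ x y : V,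
    (∀ φ : V →ₗ[ℂ] ℂ, φ x = ∫ k, f k * φ (Mo.kact k y) ∂μ) → x ∈ s.U Mo N

/-- K22: the spaces `U N` are finite-dimensional. -/
def S_Ufd : Prop := ∀ (G : Type) [Group G] [TopologicalSpace G] [IsTopologicalGroup G]
  [T2Space G] [SecondCountableTopology G] (R : RealReductive G) (_ : Pack R) (s : KRep R)
  (V : Type u) [AddCommGroup V] [Module ℂ V] (Mo : HCModule R V), s.Triv Mo →
  ∀ N, FiniteDimensional ℂ (s.U Mo N)

/-- K23: the spaces `U N` exhaust `V`. -/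
def S_Uexh : Prop := ∀ (G : Type) [Group G] [TopologicalSpace G] [IsTopologicalGroup G]
  [T2Space G] [SecondCountableTopology G] (R : RealReductive G) (_ : Pack R) (s : KRep R)
  (V : Type u) [AddCommGroup V] [Module ℂ V] (Mo : HCModule R V), s.Triv Mo →
  ∀ v, ∃ N, v ∈ s.U Mo N

/-- K24: the Laplacian is diagonalizable with nonnegative eigenvalues. -/
def S_eigA : Prop := ∀ (G : Type) [Group G] [TopologicalSpace G] [IsTopologicalGroup G]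
  [T2Space G] [SecondCountableTopology G] (R : RealReductive G) (_ : Pack R) (B : R.InvBasis)
  (V : Type u) [AddCommGroup V] [Module ℂ V] (Mo : HCModule R V),
    (∀ (c : ℝ) v, v ≠ 0 → lap Mo B v = (c : ℂ) • v → 0 ≤ c) ∧
    (∀ v, ∃ f : ℝ →₀ V, (∀ c, lap Mo B (f c) = (c : ℂ) • f c) ∧ v = f.sum fun _ x => x)

/-- K25: eigenvectors of the Laplacian lie in `U N` for `N ≥ C (1 + √c)`. -/
def S_eigB : Prop := ∀ (G : Type) [Group G] [TopologicalSpace G] [IsTopologicalGroup G]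
  [T2Space G] [SecondCountableTopology G] (R : RealReductive G) (_ : Pack R) (s : KRep R)
  (B : R.InvBasis), ∃ C₀ : ℝ, 0 ≤ C₀ ∧
  ∀ (V : Type u) [AddCommGroup V] [Module ℂ V] (Mo : HCModule R V), s.Triv Mo →
    ∀ (c : ℝ) v, v ≠ 0 → lap Mo B v = (c : ℂ) • v → ∀ N : ℕ, C₀ * (1 + Real.sqrt c) ≤ N →
      v ∈ s.U Mo N

/-- K26: point evaluation on `W N`. -/
def S_evalW : Prop := ∀ (G : Type) [Group G] [TopologicalSpace G] [IsTopologicalGroup G]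
  [T2Space G] [SecondCountableTopology G] (R : RealReductive G) (_ : Pack R) (s : KRep R)
  [MeasurableSpace R.K] [BorelSpace R.K] (μ : Measure R.K) [μ.IsHaarMeasure]
  [IsProbabilityMeasure μ] (N : ℕ) (F : R.K → ℂ), F ∈ s.W N →
    ‖F 1‖ ^ 2 ≤ (N + 1 : ℝ) ^ (s.n' ^ 2) * ∫ k, ‖F k‖ ^ 2 ∂μ

/-- K27: orthogonality of coefficients of eigenvectors. -/
def S_orth : Prop := ∀ (G : Type) [Group G] [TopologicalSpace G] [IsTopologicalGroup G]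
  [T2Space G] [SecondCountableTopology G] (R : RealReductive G) (_ : Pack R) (B : R.InvBasis)
  [MeasurableSpace R.K] [BorelSpace R.K] (μ : Measure R.K) [μ.IsHaarMeasure]
  [IsProbabilityMeasure μ]
  (V : Type u) [AddCommGroup V] [Module ℂ V] (Mo : HCModule R V) (φ : V →ₗ[ℂ] ℂ) (x y : V)
  (c c' : ℝ), lap Mo B x = (c : ℂ) • x → lap Mo B y = (c' : ℂ) • y → c ≠ c' →
    ∫ k, φ (Mo.kact k x) * (starRingEnd ℂ) (φ (Mo.kact k y)) ∂μ = 0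

/-! ### Left calculus -/

/-- L1: derivative from the left. -/
def S_left1 : Prop := ∀ (G : Type) [Group G] [TopologicalSpace G] [IsTopologicalGroup G] [T2Space G]
  (R : RealReductive G) (P : Pack R) (Ch : Chart P.d) (q : Fin P.d → Fin P.d → EE P.d → ℝ),
    (∀ l j, ContDiff ℝ ∞ (q l j)) →
    (∀ l y, R.Ad (P.Pi y)⁻¹ (P.X l) = ∑ j, q l j y • P.X j) →
  ∀ (w : G → ℝ) (V : Type u) [AddCommGroup V] [Module ℂ V] (Mo : HCModule R V)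
    (E : Type v) [NormedAddCommGroup E] [NormedSpace ℂ E] [CompleteSpace E] (Gl : Glob Mo w E)
    (L : LocalRep Ch V E), (∀ j, L.a j = Mo.act (P.X j)) →
    (∀ v y, L.orb v y = Gl.π (P.Pi y) (Gl.ι v)) →
  ∀ (f : EE P.d → ℝ) (_ : IsTest Ch f) (A : 𝓢(EE P.d, ℂ)) (h : ℝ), 0 < h →
    ∀ (v : V) (Y : R.lie),
    (h : ℂ) • (Gl.π (P.gam Y 1) (L.I f A h v) - L.I f A h v) =
      ∫ t in (0 : ℝ)..1, Gl.π (P.gam Y t)
        (-((h : ℂ) • L.I (fun y => ∑ j, ∑ i, fderiv ℝ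
            (fun z => f z * (∑ l, (P.co Y) l * q l j z) * Ch.M j i z) y (ei i)) A h v)
        - ∑ i, L.I (fun y => f y * ∑ j, (∑ l, (P.co Y) l * q l j y) * Ch.M j i y) (pd i A) h v)

/-! ### Assembly -/

/-- F1: equivalent norm with `‖π g‖ ≤ w g`. -/
def S_renorm : Prop := ∀ (G : Type) [Group G] [TopologicalSpace G] [IsTopologicalGroup G]
  [T2Space G] [SecondCountableTopology G] (R : RealReductive G) (w : G → ℝ), IsWeight w →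
  ∀ (V : Type u) [AddCommGroup V] [Module ℂ V] (Mo : HCModule R V) (p : V → ℝ), IsNormIn Mo w p →
  ∃ (E : Type u) (_ : NormedAddCommGroup E) (_ : NormedSpace ℂ E) (_ : CompleteSpace E)
    (Gl : Glob Mo w E), DenseRange Gl.ι ∧
    ∃ C : ℝ, 0 < C ∧ ∀ v, ‖Gl.ι v‖ ≤ C * p v ∧ p v ≤ C * ‖Gl.ι v‖

/-- F2: Sobolev powers. -/
def S_sob : Prop := ∀ (G : Type) [Group G] [TopologicalSpace G] [IsTopologicalGroup G]
  [T2Space G] [SecondCountableTopology G] (R : RealReductive G) (_ : Pack R) (B : R.InvBasis)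
  (V : Type u) [AddCommGroup V] [Module ℂ V] (Mo : HCModule R V),
  (∀ M : ℕ, IsSobolevPow Mo B (2 * M) ((1 + lap Mo B) ^ M)) ∧
  ∀ (t : ℝ) (T T' : Module.End ℂ V), IsSobolevPow Mo B t T → IsSobolevPow Mo B t T' → T = T'

/-- F3: Bernstein's inequality for `K` on `U N`. -/
def S_bernU : Prop := ∀ (G : Type) [Group G] [TopologicalSpace G] [IsTopologicalGroup G]
  [T2Space G] [SecondCountableTopology G] (R : RealReductive G) (_ : Pack R) (s : KRep R)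
  (w : G → ℝ), IsWeight w → ∃ CB : ℝ, 0 ≤ CB ∧
  ∀ (V : Type u) [AddCommGroup V] [Module ℂ V] (Mo : HCModule R V)
    (E : Type v) [NormedAddCommGroup E] [NormedSpace ℂ E] (Gl : Glob Mo w E) (N : ℕ),
    ∀ v ∈ s.U Mo N, ∀ X : R.lie, R.IsSkew X →
      ‖Gl.ι (Mo.act X v)‖ ≤ CB * N * fro X.1 * ‖Gl.ι v‖

/-- F4: the closure of `V` is invariant under the group generated by the one-parameter groups, if
Bernstein's inequality holds for the whole Lie algebra. -/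
def S_clos : Prop := ∀ (G : Type) [Group G] [TopologicalSpace G] [IsTopologicalGroup G]
  [T2Space G] (R : RealReductive G) (P : Pack R) (s : KRep R) (w : G → ℝ), IsWeight w →
  ∀ (V : Type u) [AddCommGroup V] [Module ℂ V] (Mo : HCModule R V),
    (∀ N (X : R.lie), ∀ v ∈ s.U Mo N, Mo.act X v ∈ s.U Mo (N + 2)) → (∀ v, ∃ N, v ∈ s.U Mo N) →
    (∀ N M, N ≤ M → s.U Mo N ≤ s.U Mo M) →
  ∀ (E : Type v) [NormedAddCommGroup E] [NormedSpace ℂ E] [CompleteSpace E] (Gl : Glob Mo w E)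
    (C : ℝ) (N₀ : ℕ), 0 ≤ C →
    (∀ N, N₀ ≤ N → ∀ v ∈ s.U Mo N, ∀ X : R.lie, ‖Gl.ι (Mo.act X v)‖ ≤ C * N * fro X.1 * ‖Gl.ι v‖) →
    ∀ g ∈ P.Gp, ∀ x ∈ closure (Set.range Gl.ι), Gl.π g x ∈ closure (Set.range Gl.ι)

/-- F5: powers of `1 - π(f)`, from products of the operators `1 - π(k)`. -/
def S_powers : Prop := ∀ (G : Type) [Group G] [TopologicalSpace G] [IsTopologicalGroup G]
  [T2Space G] [SecondCountableTopology G] (R : RealReductive G) (_ : Pack R)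
  [MeasurableSpace R.K] [BorelSpace R.K] (μ : Measure R.K) [μ.IsHaarMeasure]
  [IsProbabilityMeasure μ]
  (E : Type v) [NormedAddCommGroup E] [NormedSpace ℂ E] [CompleteSpace E] (π : G →* (E →L[ℂ] E)),
  (∀ x, Continuous fun g => π g x) →
  ∀ (CK : ℝ), (∀ k : R.K, ‖π k.1‖ ≤ CK) → ∀ f : R.K → ℝ, Continuous f → (∀ k, 0 ≤ f k) →
    ∫ k, f k ∂μ = 1 →
  ∃ A : E →L[ℂ] E, (∀ x, A x = x - ∫ k : R.K, (f k : ℂ) • π k.1 x ∂μ) ∧ ‖A‖ ≤ 1 + CK ∧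
    ∀ (α : R.K → ℝ), Continuous α → (∀ k, 0 ≤ α k) → ∀ (m : ℕ) (u : E) (D : ℝ),
      (∀ ks : List R.K, ks.length ≤ m →
        ‖(ks.map (fun k => 1 - π k.1)).prod u‖ ≤ D * (ks.map α).prod) →
      ‖(A ^ m) u‖ ≤ D * (∫ k, f k * α k ∂μ) ^ m

/-- F6: the recursion. The constant `Cr` does not depend on the module and the norms. -/
def S_rec : Prop := ∀ (G : Type) [Group G] [TopologicalSpace G] [IsTopologicalGroup G]
  [T2Space G] [SecondCountableTopology G] (R : RealReductive G) (_ : Pack R) (s : KRep R)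
  (w : G → ℝ), IsWeight w → ∃ Cr : ℝ, 1 ≤ Cr ∧
  ∀ (V : Type u) [AddCommGroup V] [Module ℂ V] (Mo : HCModule R V), s.Triv Mo →
  ∀ (E₁ E₂ : Type u) [NormedAddCommGroup E₁] [NormedSpace ℂ E₁] [CompleteSpace E₁]
    [NormedAddCommGroup E₂] [NormedSpace ℂ E₂] [CompleteSpace E₂] (Gl₁ : Glob Mo w E₁)
    (Gl₂ : Glob Mo w E₂), DenseRange Gl₁.ι → DenseRange Gl₂.ι →
    ∃ N₀ : ℕ, ∀ N, N₀ ≤ N → ∀ g : ℝ, 0 ≤ g →
      (∀ t ∈ s.U Mo (N / 2), ‖Gl₂.ι t‖ ≤ g * ‖Gl₁.ι t‖) →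
      ∀ v ∈ s.U Mo N, ‖Gl₂.ι v‖ ≤ Cr * g * ‖Gl₁.ι v‖

/-- F7: the main estimate for modules on which `ker σ` acts trivially. -/
def S_core : Prop := ∀ (G : Type) [Group G] [TopologicalSpace G] [IsTopologicalGroup G]
  [T2Space G] [SecondCountableTopology G] (R : RealReductive G) (_ : Pack R) (s : KRep R)
  (w : G → ℝ), IsWeight w → ∀ B : R.InvBasis, ∃ M₀ : ℕ, ∀ M, M₀ ≤ M →
  ∀ (V : Type u) [AddCommGroup V] [Module ℂ V] (Mo : HCModule R V), s.Triv Mo →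
  ∀ (E₁ E₂ : Type u) [NormedAddCommGroup E₁] [NormedSpace ℂ E₁] [CompleteSpace E₁]
    [NormedAddCommGroup E₂] [NormedSpace ℂ E₂] [CompleteSpace E₂] (Gl₁ : Glob Mo w E₁)
    (Gl₂ : Glob Mo w E₂), DenseRange Gl₁.ι → DenseRange Gl₂.ι →
    ∃ C : ℝ, ∀ v, ‖Gl₂.ι v‖ ≤ C * ‖Gl₁.ι (((1 + lap Mo B) ^ M) v)‖

/-- F8: the final theorem: the Sobolev gap is uniformly bounded. -/
def S_final : Prop := ∀ (G : Type) [Group G] [TopologicalSpace G] [IsTopologicalGroup G]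
  [T2Space G] [SecondCountableTopology G] (R : RealReductive G) (w : G → ℝ), IsWeight w →
  ∀ B : R.InvBasis, ∃ S : ℝ, 0 ≤ S ∧
  ∀ (V : Type u) [AddCommGroup V] [Module ℂ V] (Mo : HCModule R V), (∃ p, IsNormIn Mo w p) →
    S ∈ gapSet Mo B w ∧ sobolevGap Mo B w ≤ S ∧
    ∃ T : Module.End ℂ V, IsSobolevPow Mo B S T ∧
      ∀ p q : V → ℝ, IsNormIn Mo w p → IsNormIn Mo w q → NormLE q (fun v => p (T v))

end Pool.Agent.H913.SG
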